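import Pool.Agent.Lib.MP_79499b_co.DZ.A4

/-!
# QA1: elements `Z` with `Z Z^{(-1)} = g^2`, all primes dividing `g` of large order

Claim (`z_iter`). `g ≠ 0`, `Z Z^{(-1)} = g^2`, `aug Z = g`, and for each prime `p ∣ g`: `p` and `p - 1` are coprime to
`|G|` and `x^(p^i) ≠ x` for `x ≠ 1`, `1 ≤ i ≤ B`, where `g^(2^ω) ≤ B`, `ω` the number of primes dividing `g`. Then
`Z = g h` for some `h : G`.

Proof: induction on `ω` (for all `Z`, `g`). If `ω = 0` then `g = 1` and `z_one` applies. Otherwise let `p ∣ g` be a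
prime, `g = p^a g'` with `p ∤ g'` (`Nat.ordProj`, `Nat.ordCompl`), `a ≥ 1`. As in the proof of `z_trivial` in A4:
`Z Z^{(-1)} = N + 0 u`, `p^(2a) ∣ N = g^2`, so `dvd_twist_gen` (`j = 1`, `lam = 0`, exponent `2 a`) gives
`Z^{(p)} Z^{(-1)} = p^(2a) F`. Then `p^(4a) F F^{(-1)} = Z^{(p)} Z^{(-1)} Z^{(-p)} Z = (Z Z^{(-1)}) (Z Z^{(-1)})^{(p)} = g^4`,
so `F F^{(-1)} = (g'^2)^2` (cancel), and `aug F = g^2 / p^(2a) = g'^2`. Induction hypothesis for `F`, `g'^2`: its primes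
are the primes of `g'`, `ω - 1` in number, and `(g'^2)^(2^(ω-1)) = g'^(2^ω) ≤ g^(2^ω) ≤ B`. So `F = g'^2 h` and
`Z^{(p)} Z^{(-1)} Z = g^2 h Z`, i.e. `Z^{(p)} = h Z` after cancelling `g^2` (`g ≠ 0`). By `exists_fix` some
translate `Z' = a Z` has `Z'^{(p)} = Z'`, hence `Z'^{(p^i)} = Z'` for all `i`, and the coefficients are constant on the
orbits of `x ↦ x^p`; for `x ≠ 1` the elements `x^(p^i)`, `0 ≤ i ≤ g^2`, are different (`g^2 ≤ g^(2^ω) ≤ B`), so
`z'(x) ≠ 0` would give `∑ z'^2 ≥ g^2 + 1`, but `∑ z'^2 = g^2`. So `Z'` is supported at `1` and `Z = g a⁻¹` (copy the end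
of the proof of `z_trivial`).
-/

set_option autoImplicit false

namespace Pool.Agent.Lib.MP_79499b_co.QZ

open Finset MonoidAlgebra DZ

private theorem QA1_coeff {G : Type} [CommGroup G] [Fintype G] (X : MonoidAlgebra ℤ G) {t : ℕ}
    (ht : (Nat.card G).Coprime t) (x : G) : (pw t X).coeff (x ^ t) = X.coeff x := by
  classical
  rw [pw_eq_pr, coeff_mapDomain]
  rw [Finset.sum_eq_single x]
  · exact if_pos rfl
  · intro y _ hy
    rw [if_neg]
    intro h
    exact hy ((powCoprime ht).injective h)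
  · intro h
    exact absurd (mem_univ x) h

/-- the end of the proof: `Z` with a twist that is a translate of `Z` is trivial -/
private theorem QA1_end {G : Type} [CommGroup G] [Fintype G] (g : ℕ) (Z : MonoidAlgebra ℤ G)
    {p : ℕ} (hp : p.Prime) (hG : (Nat.card G).Coprime p) (hG' : (Nat.card G).Coprime (p - 1))
    (hZ : Z * iv Z = (((g : ℤ) ^ 2 : ℤ) : MonoidAlgebra ℤ G)) (ha : aug Z = (g : ℤ))
    (horb : ∀ x : G, x ≠ 1 → ∀ i : ℕ, 1 ≤ i → i ≤ g ^ 2 → x ^ (p ^ i) ≠ x)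
    {h : G} (hpZ : pw p Z = single h 1 * Z) :
    ∃ h : G, Z = ((g : ℤ) : MonoidAlgebra ℤ G) * single h 1 := by
  classical
  obtain ⟨N, hN⟩ : ∃ N : ℤ, N = (g : ℤ) ^ 2 := ⟨_, rfl⟩
  rw [← hN] at hZ
  obtain ⟨a, hfix⟩ := exists_fix Z hp.one_le hG' hpZ
  obtain ⟨Z', hZ'⟩ : ∃ Z' : MonoidAlgebra ℤ G, Z' = single a 1 * Z := ⟨_, rfl⟩
  rw [← hZ'] at hfix
  have hZZ' : Z' * iv Z' = (N : MonoidAlgebra ℤ G) := by
    rw [hZ', map_mul, iv_single]
    calc single a 1 * Z * (single a⁻¹ 1 * iv Z) = (single a 1 * single a⁻¹ 1) * (Z * iv Z) := by ring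
      _ = (N : MonoidAlgebra ℤ G) := by
        rw [hZ, single_mul_single, mul_inv_cancel, one_mul, ← MonoidAlgebra.one_def, one_mul]
  have hsq : ∑ x, Z'.coeff x * Z'.coeff x = N := by
    have h1 : (Z' * iv Z').coeff 1 = N := by
      rw [hZZ', MonoidAlgebra.intCast_def]; simp
    rw [coeff_mul_iv] at h1
    simpa only [one_mul] using h1
  have hco : ∀ (x : G) (i : ℕ), Z'.coeff (x ^ (p ^ i)) = Z'.coeff x := by
    intro x i
    have h1 := QA1_coeff Z' (Nat.Coprime.pow_right i hG) x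
    rw [pw_pow_fix hfix i] at h1
    exact h1
  have hzero : ∀ x : G, x ≠ 1 → Z'.coeff x = 0 := by
    intro x hx
    by_contra hne
    have hinj : Set.InjOn (fun i : ℕ => x ^ (p ^ i)) (range (g ^ 2 + 1) : Finset ℕ) := by
      have key : ∀ i j : ℕ, i < j → j ≤ g ^ 2 → x ^ (p ^ i) ≠ x ^ (p ^ j) := by
        intro i j hij hj heq
        have hy1 : x ^ (p ^ i) ≠ 1 := by
          intro h1
          apply hx
          apply (powCoprime (Nat.Coprime.pow_right i hG)).injective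
          show x ^ (p ^ i) = 1 ^ (p ^ i)
          rw [h1, one_pow]
        refine horb _ hy1 (j - i) (by omega) (by omega) ?_
        rw [← pow_mul, ← pow_add, Nat.add_sub_cancel' hij.le]
        exact heq.symm
      intro i hi j hj hij
      rw [Finset.mem_coe, Finset.mem_range] at hi hj
      rcases lt_trichotomy i j with h1 | h1 | h1
      · exact absurd hij (key i j h1 (by omega))
      · exact h1
      · exact absurd hij.symm (key j i h1 (by omega))
    have h1 : ∑ y ∈ (range (g ^ 2 + 1)).image (fun i : ℕ => x ^ (p ^ i)), Z'.coeff y * Z'.coeff y ≤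
        ∑ y, Z'.coeff y * Z'.coeff y :=
      Finset.sum_le_sum_of_subset_of_nonneg (subset_univ _) fun y _ _ => mul_self_nonneg _
    rw [Finset.sum_image hinj, hsq] at h1
    have h2 : ∀ i ∈ range (g ^ 2 + 1), (1 : ℤ) ≤ Z'.coeff (x ^ (p ^ i)) * Z'.coeff (x ^ (p ^ i)) := by
      intro i _
      rw [hco]
      have h3 : 0 < Z'.coeff x * Z'.coeff x := mul_self_pos.mpr hne
      omega
    have h3 := Finset.sum_le_sum h2
    rw [Finset.sum_const, card_range, nsmul_eq_mul, mul_one] at h3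
    have h4 : ((g ^ 2 + 1 : ℕ) : ℤ) = N + 1 := by rw [hN]; push_cast; ring
    rw [h4] at h3
    linarith
  have hZ1 : Z' = single 1 (Z'.coeff 1) := by
    conv_lhs => rw [eq_sum_single Z']
    rw [Finset.sum_eq_single (1 : G)]
    · intro x _ hx
      rw [hzero x hx, single_zero]
    · intro h1
      exact absurd (mem_univ _) h1
  have haug' : Z'.coeff 1 = (g : ℤ) := by
    have h1 : aug Z' = (g : ℤ) := by
      rw [hZ', map_mul, aug_single, one_mul, ha]
    rw [hZ1, aug_single] at h1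
    exact h1
  refine ⟨a⁻¹, ?_⟩
  have h1 : Z = single a⁻¹ 1 * Z' := by
    rw [hZ', ← mul_assoc, single_mul_single, inv_mul_cancel, one_mul, ← MonoidAlgebra.one_def, one_mul]
  have h2 : Z = single a⁻¹ (g : ℤ) := by
    conv_lhs => rw [h1, hZ1, haug']
    rw [single_mul_single, mul_one, one_mul]
  rw [← zsmul_eq_mul]
  conv_lhs => rw [h2]
  simp

private theorem QA1_ind {G : Type} [CommGroup G] [Fintype G] (B : ℕ) (n : ℕ) :
    ∀ g : ℕ, g ≠ 0 → g.primeFactors.card = n → g ^ 2 ^ n ≤ B →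
    (∀ p : ℕ, p.Prime → p ∣ g → (Nat.card G).Coprime p ∧ (Nat.card G).Coprime (p - 1) ∧
      ∀ x : G, x ≠ 1 → ∀ i : ℕ, 1 ≤ i → i ≤ B → x ^ (p ^ i) ≠ x) →
    ∀ Z : MonoidAlgebra ℤ G, Z * iv Z = (((g : ℤ) ^ 2 : ℤ) : MonoidAlgebra ℤ G) →
    aug Z = (g : ℤ) → ∃ h : G, Z = ((g : ℤ) : MonoidAlgebra ℤ G) * single h 1 := by
  induction n with
  | zero =>
    intro g hg hn _ _ Z hZ ha
    have hg1 : g = 1 := by
      rw [Finset.card_eq_zero, Nat.primeFactors_eq_empty] at hn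
      rcases hn with h | h
      · exact absurd h hg
      · exact h
    subst hg1
    obtain ⟨h, hh⟩ := z_one Z (by rw [hZ]; norm_num) (by rw [ha]; norm_num)
    exact ⟨h, by rw [hh]; simp⟩
  | succ n ih =>
    intro g hg hn hB hp Z hZ ha
    obtain ⟨p, hpm⟩ : g.primeFactors.Nonempty := by
      rw [← Finset.card_pos, hn]; omega
    have hpp : p.Prime := Nat.prime_of_mem_primeFactors hpm
    have hpg : p ∣ g := Nat.dvd_of_mem_primeFactors hpm
    obtain ⟨hG, hG', horb⟩ := hp p hpp hpg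
    obtain ⟨a, g', hg', hgeq⟩ := Nat.exists_eq_pow_mul_and_not_dvd hg p hpp.ne_one
    have ha0 : a ≠ 0 := by
      intro h0
      rw [h0, pow_zero, one_mul] at hgeq
      exact hg' (hgeq ▸ hpg)
    have hg'0 : g' ≠ 0 := by
      intro h0
      rw [h0] at hg'
      exact hg' (dvd_zero _)
    have hcard : g'.primeFactors.card = n := by
      have h1 : g.primeFactors = insert p g'.primeFactors := by
        rw [hgeq, Nat.primeFactors_mul (pow_ne_zero _ hpp.ne_zero) hg'0,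
          Nat.primeFactors_pow _ ha0, hpp.primeFactors]
        rfl
      have h2 : p ∉ g'.primeFactors := fun h3 => hg' (Nat.dvd_of_mem_primeFactors h3)
      rw [h1, Finset.card_insert_of_notMem h2] at hn
      omega
    have hg'g : g' ∣ g := ⟨p ^ a, by rw [hgeq]; ring⟩
    have hg'le : g' ≤ g := Nat.le_of_dvd (Nat.pos_of_ne_zero hg) hg'g
    obtain ⟨P, hP⟩ : ∃ P : ℤ, P = (p : ℤ) ^ (2 * a) := ⟨_, rfl⟩
    obtain ⟨M, hM⟩ : ∃ M : ℤ, M = (g' : ℤ) ^ 2 := ⟨_, rfl⟩
    obtain ⟨N, hN⟩ : ∃ N : ℤ, N = (g : ℤ) ^ 2 := ⟨_, rfl⟩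
    have hNPM : N = P * M := by
      rw [hN, hP, hM, hgeq]
      push_cast
      rw [mul_pow, ← pow_mul, mul_comm a 2]
    have hP0 : P ≠ 0 := by
      rw [hP]
      exact pow_ne_zero _ (by exact_mod_cast hpp.ne_zero)
    have hN0 : N ≠ 0 := by
      rw [hN]
      exact pow_ne_zero _ (by exact_mod_cast hg)
    have hZN : Z * iv Z = (N : MonoidAlgebra ℤ G) := by rw [hZ, hN]
    have hD : Z * iv Z = (N : MonoidAlgebra ℤ G) + ((0 : ℤ) : MonoidAlgebra ℤ G) * el univ := by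
      rw [hZN, Int.cast_zero, zero_mul, add_zero]
    obtain ⟨F, hF⟩ := dvd_twist_gen Z hD hpp hG (e := 2 * a) (by rw [hNPM, ← hP]; exact dvd_mul_right _ _) 1
    rw [Int.cast_zero, zero_mul, sub_zero, pow_one, ← hP] at hF
    have hivF : iv (pw p Z) * Z = (P : MonoidAlgebra ℤ G) * iv F := by
      have h1 := congrArg iv hF
      rw [map_mul, map_mul, iv_iv, map_intCast] at h1
      exact h1
    have hppZ : pw p Z * iv (pw p Z) = (N : MonoidAlgebra ℤ G) := by
      rw [← pw_iv, ← map_mul, hZN, map_intCast]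
    have hNPM' : (N : MonoidAlgebra ℤ G) = (P : MonoidAlgebra ℤ G) * (M : MonoidAlgebra ℤ G) := by
      rw [hNPM]; push_cast; ring
    have hFF : F * iv F = (((((g' ^ 2 : ℕ) : ℤ)) ^ 2 : ℤ) : MonoidAlgebra ℤ G) := by
      have h1 : ((P ^ 2 : ℤ) : MonoidAlgebra ℤ G) * (F * iv F) =
          ((P ^ 2 : ℤ) : MonoidAlgebra ℤ G) * ((M ^ 2 : ℤ) : MonoidAlgebra ℤ G) := by
        push_cast
        calc (P : MonoidAlgebra ℤ G) ^ 2 * (F * iv F) = ((P : MonoidAlgebra ℤ G) * F) * ((P : MonoidAlgebra ℤ G) * iv F) := by ring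
          _ = (pw p Z * iv Z) * (iv (pw p Z) * Z) := by rw [hF, hivF]
          _ = (Z * iv Z) * (pw p Z * iv (pw p Z)) := by ring
          _ = (P : MonoidAlgebra ℤ G) ^ 2 * (M : MonoidAlgebra ℤ G) ^ 2 := by
            rw [hZN, hppZ, hNPM']; ring
      have h2 := intCast_mul_cancel (pow_ne_zero 2 hP0) h1
      rw [h2, hM]
      push_cast
      ring
    have haF : aug F = (((g' ^ 2 : ℕ) : ℤ)) := by
      have h1 := congrArg aug hF
      rw [map_mul, aug_pw, aug_iv, map_mul, map_intCast, ha] at h1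
      have h2 : P * aug F = P * M := by
        simp only [Int.cast_id] at h1
        rw [← h1, ← hNPM, hN]
        ring
      rw [mul_left_cancel₀ hP0 h2, hM]
      push_cast
      ring
    obtain ⟨h, hh⟩ := ih (g' ^ 2) (pow_ne_zero 2 hg'0)
      (by rw [Nat.primeFactors_pow _ two_ne_zero]; exact hcard)
      (by
        refine le_trans ?_ hB
        rw [← pow_mul, ← pow_succ']
        exact Nat.pow_le_pow_left hg'le _)
      (by
        intro r hr hrg
        exact hp r hr ((hr.dvd_of_dvd_pow hrg).trans hg'g))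
      F hFF haF
    have hMc : ((((g' ^ 2 : ℕ) : ℤ)) : MonoidAlgebra ℤ G) = (M : MonoidAlgebra ℤ G) := by
      rw [hM]; push_cast; ring
    rw [hMc] at hh
    have hpZ : pw p Z = single h 1 * Z := by
      refine intCast_mul_cancel hN0 ?_
      calc (N : MonoidAlgebra ℤ G) * pw p Z = (Z * iv Z) * pw p Z := by rw [hZN]
        _ = (pw p Z * iv Z) * Z := by ring
        _ = (P : MonoidAlgebra ℤ G) * F * Z := by rw [hF]
        _ = (N : MonoidAlgebra ℤ G) * (single h 1 * Z) := by rw [hh, hNPM']; ring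
    refine QA1_end g Z hpp hG hG' hZ ha (fun x hx i h1 h2 => horb x hx i h1 ?_) hpZ
    refine h2.trans (le_trans ?_ hB)
    apply Nat.pow_le_pow_right (Nat.pos_of_ne_zero hg)
    calc 2 = 2 ^ 1 := by norm_num
      _ ≤ 2 ^ (n + 1) := Nat.pow_le_pow_right (by norm_num) (by omega)

theorem z_iter {G : Type} [CommGroup G] [Fintype G] (B : ℕ) (g : ℕ) (hg : g ≠ 0)
    (hB : g ^ 2 ^ g.primeFactors.card ≤ B)
    (hp : ∀ p : ℕ, p.Prime → p ∣ g → (Nat.card G).Coprime p ∧ (Nat.card G).Coprime (p - 1) ∧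
      ∀ x : G, x ≠ 1 → ∀ i : ℕ, 1 ≤ i → i ≤ B → x ^ (p ^ i) ≠ x)
    (Z : MonoidAlgebra ℤ G) (hZ : Z * iv Z = (((g : ℤ) ^ 2 : ℤ) : MonoidAlgebra ℤ G))
    (ha : aug Z = (g : ℤ)) :
    ∃ h : G, Z = ((g : ℤ) : MonoidAlgebra ℤ G) * single h 1 :=
  QA1_ind B g.primeFactors.card g hg rfl hB hp Z hZ ha

end Pool.Agent.Lib.MP_79499b_co.QZ
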