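import Pool.Agent.Lib.MP_79499b_co.DZ.NPar
import Pool.Agent.Lib.MP_79499b_co.DZ.Defs

/-!
# QZ: log power savings for even `m = 2 s`, definitions of the parts A and N

`OrdBig Y B w`: every prime `p ≤ Y` has `w ∤ p^i - 1` for `1 ≤ i ≤ B`.
`gb s Y n`: the bound for the length of orbits needed for the `Y`-smooth part `sm Y n` of `n`.

Part N has one parameter, a large real `A`, and a small constant `0 < κ ≤ 1/100`.
`Cell A κ w`: `w` is a prime in `(exp A, exp A^(1+κ)]`. `QA A κ = ⌊exp A^(1-4κ)⌋`. `hB Q`: the primes in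
`(Q/2, Q]`. `EW A κ`: the exceptional conductors `2 ≤ W ≤ exp (2 A^(1+κ))`: some primitive character mod `W` has
`|∑_{q ∈ hB Q} χ q| ≥ |hB Q|/(2 A^κ)`, `Q = QA A κ`. `CPair`: the conditions on the pair `w1, w2`.
`ExcP`: the exceptional pairs. `ZA A = exp (2 A^(1/2))`.
-/

set_option autoImplicit false

namespace Pool.Agent.Lib.MP_79499b_co.QZ

open Finset DZ

/-- no prime `p ≤ Y` has a small order modulo `w` -/
def OrdBig (Y B w : ℕ) : Prop :=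
  ∀ p : ℕ, p.Prime → p ≤ Y → ∀ i : ℕ, 1 ≤ i → i ≤ B → ¬ w ∣ p ^ i - 1

/-- the length of orbits needed for the smooth part of `n` -/
noncomputable def gb (s Y n : ℕ) : ℕ :=
  (EO.sm Y n ^ (2 * (s - 1))) ^ 2 ^ (EO.sm Y n).primeFactors.card

/-- `w` is a prime in `(exp A, exp A^(1+κ)]` -/
def Cell (A κ : ℝ) (w : ℕ) : Prop :=
  w.Prime ∧ Real.exp A < w ∧ (w : ℝ) ≤ Real.exp (A ^ (1 + κ))

/-- the size of the auxiliary primes `q` -/
noncomputable def QA (A κ : ℝ) : ℕ := ⌊Real.exp (A ^ (1 - 4 * κ))⌋₊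

/-- the primes in `(Q/2, Q]` -/
def hB (Q : ℕ) : Finset ℕ := (Icc 1 Q).filter (fun q => q.Prime ∧ Q < 2 * q)

open scoped Classical in
/-- the exceptional conductors -/
noncomputable def EW (A κ : ℝ) : Finset ℕ :=
  (Icc 2 ⌊Real.exp (2 * A ^ (1 + κ))⌋₊).filter (fun W => ∃ χ : DirichletCharacter ℂ W,
    χ.IsPrimitive ∧
      ((hB (QA A κ)).card : ℝ) / (2 * A ^ κ) ≤ ‖∑ q ∈ hB (QA A κ), χ (q : ZMod W)‖)

/-- the conditions on the pair `w1, w2` -/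
structure CPair (A κ : ℝ) (c1 c2 w1 w2 r1 r2 : ℕ) : Prop where
  cell1 : Cell A κ w1
  cell2 : Cell A κ w2
  ne : w1 ≠ w2
  eq1 : w1 = c1 * r1 + 1
  eq2 : w2 = c2 * r2 + 1
  cop1 : r1.Coprime (c1 * c2)
  cop2 : r2.Coprime (c1 * c2)
  cop : r1.Coprime r2
  small : ((c1 * c2 : ℕ) : ℝ) ≤ A ^ κ

/-- the threshold for the bad primes -/
noncomputable def ZA (A : ℝ) : ℝ := Real.exp (2 * A ^ (1 / 2 : ℝ))

/-- exceptional pairs -/
def ExcP (A κ : ℝ) (w1 w2 : ℕ) : Prop := w1 ∈ EW A κ ∨ w2 ∈ EW A κ ∨ w1 * w2 ∈ EW A κ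

/-- the field of part N -/
noncomputable abbrev FW (w1 w2 : ℕ) : Type := CyclotomicField (w1 * w2) ℚ

end Pool.Agent.Lib.MP_79499b_co.QZ
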