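import Pool.Agent.Lib.MP_79499b_co.DZ.A9
import Pool.Agent.Lib.MP_79499b_co.DZ.ZNil
import Pool.Agent.Lib.MP_79499b_co.QZ.QDef
import Pool.Agent.Lib.MP_79499b_co.QZ.QA1
import Pool.Agent.Lib.MP_79499b_co.EO.S2

/-!
# QA2: exclusion of difference sets when the small primes are arbitrary

Claim (`excl_B`). `Shape s c1 c2 w1 w2 r1 r2 n`, `n ≠ 0`, `Y < w1, w2`, `gb s Y n ≤ B`, `OrdBig Y B w_i`, all primes
`p ∣ n` with `p > Y` satisfy `NP w1 r1 p` and `NP w2 r2 p`, and `ND`. Then there is no difference set with Singer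
parameters `(n, 2 s)` in a finite nilpotent group.

Proof: as `excl_nil` in ZNil.lean / `exists_inv` in A9.lean, with `z_iter` in place of `z_trivial`.
`n ≥ 2` (as there: `w1 > 2`, since `w1 = c1 r1 + 1`, `r1 > 1`). `W = w1 w2` is coprime to `n`. `exists_quot_nil` gives
`Q`, `X`, `lam`, `|Q| = W`, `X X^{(-1)} = (n^(s-1))^2 + lam u`. Put `m = EO.sm Y n`; `m ∣ n`, `n = m b0`, the primes of `m`
are the primes `p ∣ n` with `p ≤ Y`, and every prime `p ∣ b0` has `p > Y` (`m = ∏_{p ≤ Y} p^(v_p n)`; `EO/S2.lean` has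
`sm_facts`). `N := (n^(s-1))^2 = (b0^(s-1))^2 g`, `g = m^(2(s-1))`; `gb s Y n = g^(2^ω(m))` and, if `s ≥ 2`, `g` and `m` have the
same primes, so `g^(2^ω(g)) ≤ B`. `exists_t0` (A5): `t0`. For a prime `r ∣ b0^(s-1)`: `r ∣ b0`, so `r > Y` and `t0 ≡ r^j`
modulo `W`: first case of `dvd_twist_all` (A2) for `b = b0^(s-1)`, `t = t0`. `exists_Z` (A3) with `n1 = b^2`, `g`:
`X^{(t0)} X^{(-1)} - lam u = b^2 Z`, `Z Z^{(-1)} = g^2`, `aug Z = g`. `z_iter` applies to `G = Q`: for a prime `p ∣ g`, `p ≤ Y < w_i`,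
so `W` is coprime to `p` and to `p - 1` (`0 < p - 1 < w_i`); if `x ≠ 1`, `x^(p^i) = x`, `1 ≤ i ≤ B`, then `orderOf x`
divides `p^i - 1` and `W`, `orderOf x ≠ 1`, so `w1` or `w2` divides `orderOf x`, so divides `p^i - 1`: contradiction to `OrdBig`.
Hence `Z = g h`, `X^{(t0)} X^{(-1)} - lam u = N h`, `mult_of`: `X^{(t0)} = h X`; `exists_fix` (A4) gives `a`, and for
`t^(r1 r2) ≡ 1`, `t ≡ t0^j`, so `(a X)^{(t)} = a X` (`pw_congr`, `pw_pow_fix`). Then `ev_eq` (A7) and `sign_contra` (A8) as in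
`excl_nil`.
-/

set_option autoImplicit false

namespace Pool.Agent.Lib.MP_79499b_co.QZ

open Finset MonoidAlgebra DZ

private theorem QA2_cop {w m : ℕ} (hw : w.Prime) (h0 : 0 < m) (h : m < w) : w.Coprime m := by
  rw [hw.coprime_iff_not_dvd]
  intro h1
  exact absurd (Nat.le_of_dvd h0 h1) (not_le.mpr h)

private theorem QA2_pow {Q : Type} [CommGroup Q] [Fintype Q] {W s t : ℕ} (hQ : Nat.card Q = W)
    (h : s ≡ t [MOD W]) (x : Q) : x ^ s = x ^ t := by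
  rw [pow_eq_pow_iff_modEq]
  refine h.of_dvd ?_
  rw [← hQ]
  exact orderOf_dvd_natCard x

/-- the common part: a twist of `X` is a translate -/
private theorem QA2_core {s w1 w2 n Y B : ℕ} (hs : 2 ≤ s) (hn : n ≠ 0) (hw1 : w1.Prime)
    (hw2 : w2.Prime) (hY1 : Y < w1) (hY2 : Y < w2) (hgb : gb s Y n ≤ B) (ho1 : OrdBig Y B w1)
    (ho2 : OrdBig Y B w2) (hWn : (w1 * w2).Coprime n)
    {Q : Type} [CommGroup Q] [Fintype Q] (hQ : Nat.card Q = w1 * w2)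
    (X : MonoidAlgebra ℤ Q) {lam : ℤ}
    (hX : X * iv X = (((((n : ℤ) ^ (s - 1)) ^ 2 : ℤ)) : MonoidAlgebra ℤ Q)
      + (lam : MonoidAlgebra ℤ Q) * el univ) {t : ℕ} (ht : (Nat.card Q).Coprime t)
    (hm : ∀ r : ℕ, r.Prime → r ∣ n → Y < r →
      (∃ i : ℕ, ∀ x : Q, x ^ t = x ^ r ^ i) ∨ (∃ j : ℕ, ∀ x : Q, x ^ r ^ j = x⁻¹)) :
    ∃ h : Q, pw t X = single h 1 * X := by
  obtain ⟨hm1, hmp, hmn⟩ := EO.sm_facts Y n (Nat.one_le_iff_ne_zero.mpr hn)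
  obtain ⟨m, hmdef⟩ : ∃ m, m = EO.sm Y n := ⟨_, rfl⟩
  obtain ⟨b0, hb0def⟩ : ∃ b0, b0 = ∏ p ∈ n.primeFactors.filter (fun p => Y < p),
    p ^ n.factorization p := ⟨_, rfl⟩
  rw [← hmdef] at hm1 hmp hmn
  rw [← hb0def] at hmn
  have hgb' : (m ^ (2 * (s - 1))) ^ 2 ^ m.primeFactors.card ≤ B := by
    have h1 := hgb
    unfold gb at h1
    rw [← hmdef] at h1
    exact h1
  have hb0p : ∀ r : ℕ, r.Prime → r ∣ b0 → r ∣ n ∧ Y < r := by
    intro r hr hrb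
    rw [hb0def] at hrb
    obtain ⟨q, hq, hrq⟩ := (Nat.prime_iff.mp hr).exists_mem_finset_dvd hrb
    rw [Finset.mem_filter, Nat.mem_primeFactors] at hq
    have h1 := hr.dvd_of_dvd_pow hrq
    rw [Nat.prime_dvd_prime_iff_eq hr hq.1.1] at h1
    rw [h1]
    exact ⟨hq.1.2.1, hq.2⟩
  have hb00 : b0 ≠ 0 := by
    rintro h0
    rw [h0, mul_zero] at hmn
    exact hn hmn.symm
  have hm0 : m ≠ 0 := by omega
  have hb0n : b0 ∣ n := ⟨m, by rw [← hmn, mul_comm]⟩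
  have hmn' : m ∣ n := ⟨b0, hmn.symm⟩
  have hWb : (w1 * w2).Coprime (b0 ^ (s - 1)) := (hWn.coprime_dvd_right hb0n).pow_right _
  have hN : (((n : ℤ) ^ (s - 1)) ^ 2) =
      (((b0 ^ (s - 1)) ^ 2 : ℕ) : ℤ) * ((m ^ (2 * (s - 1)) : ℕ) : ℤ) := by
    have h1 : (n : ℤ) = (m : ℤ) * (b0 : ℤ) := by exact_mod_cast hmn.symm
    rw [h1]
    push_cast
    rw [mul_pow, mul_pow, mul_comm 2 (s - 1), pow_mul (m : ℤ)]
    ring
  have hdvd := dvd_twist_all X hX (b := b0 ^ (s - 1)) (by rw [hN]; exact dvd_mul_right _ _)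
    (by rw [hQ]; exact hWb) ht (by
      intro r hr hrb
      obtain ⟨h1, h2⟩ := hb0p r hr (hr.dvd_of_dvd_pow hrb)
      exact hm r hr h1 h2)
  have hb2 : (((b0 ^ (s - 1)) ^ 2 : ℕ) : ℤ) ≠ 0 := by
    have : (b0 ^ (s - 1)) ^ 2 ≠ 0 := pow_ne_zero 2 (pow_ne_zero _ hb00)
    exact_mod_cast this
  obtain ⟨Z, hZ1, hZ2, hZ3⟩ := exists_Z X hX hb2 hN ht hdvd
  obtain ⟨h, hh⟩ := z_iter B (m ^ (2 * (s - 1))) (pow_ne_zero _ hm0)
    (by rw [Nat.primeFactors_pow _ (by omega)]; exact hgb')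
    (by
      intro p hp hpg
      have hpm : p ∣ m := hp.dvd_of_dvd_pow hpg
      have hpY : p ≤ Y := hmp p (Nat.mem_primeFactors.mpr ⟨hp, hpm, hm0⟩)
      have hp2 := hp.two_le
      refine ⟨?_, ?_, ?_⟩
      · rw [hQ]
        exact Nat.Coprime.mul_left (QA2_cop hw1 (by omega) (by omega)) (QA2_cop hw2 (by omega) (by omega))
      · rw [hQ]
        exact Nat.Coprime.mul_left (QA2_cop hw1 (by omega) (by omega)) (QA2_cop hw2 (by omega) (by omega))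
      · intro x hx i hi1 hi2 heq
        have hpi : 1 ≤ p ^ i := Nat.one_le_pow _ _ hp.pos
        have h1 : x ^ (p ^ i - 1) = 1 := by
          have h2 : x ^ (p ^ i - 1) * x = 1 * x := by
            rw [← pow_succ, Nat.sub_add_cancel hpi, one_mul]
            exact heq
          exact mul_right_cancel h2
        have h2 : orderOf x ∣ p ^ i - 1 := orderOf_dvd_of_pow_eq_one h1
        have h3 : orderOf x ∣ w1 * w2 := by
          rw [← hQ]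
          exact orderOf_dvd_natCard x
        have h4 : orderOf x ≠ 1 := fun h5 => hx (orderOf_eq_one_iff.mp h5)
        obtain ⟨q, hq, hqo⟩ := Nat.exists_prime_and_dvd h4
        rcases (Nat.Prime.dvd_mul hq).mp (hqo.trans h3) with h5 | h5
        · rw [Nat.prime_dvd_prime_iff_eq hq hw1] at h5
          rw [h5] at hqo
          exact ho1 p hp hpY i hi1 hi2 (hqo.trans h2)
        · rw [Nat.prime_dvd_prime_iff_eq hq hw2] at h5
          rw [h5] at hqo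
          exact ho2 p hp hpY i hi1 hi2 (hqo.trans h2))
    Z hZ2 hZ3
  have hSN : pw t X * iv X - (lam : MonoidAlgebra ℤ Q) * el univ =
      (((((n : ℤ) ^ (s - 1)) ^ 2 : ℤ)) : MonoidAlgebra ℤ Q) * single h 1 := by
    rw [hZ1, hh, ← mul_assoc, ← Int.cast_mul, ← hN]
  have hN0 : (((n : ℤ) ^ (s - 1)) ^ 2) ≠ 0 := by
    have : (n : ℤ) ≠ 0 := by exact_mod_cast hn
    positivity
  exact ⟨h, mult_of X hX hN0 hSN⟩

private theorem QA2_w1n {s w1 n : ℕ} (hs : 2 ≤ s) (hw1 : w1.Prime) (d1 : w1 ∣ n ^ s + 1) :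
    ¬ w1 ∣ n := by
  intro h
  have h1 : w1 ∣ n ^ s := dvd_pow h (by omega)
  have h2 : w1 ∣ 1 := (Nat.dvd_add_right h1).mp d1
  exact hw1.one_lt.ne' (Nat.dvd_one.mp h2)

private theorem QA2_w2n {s w2 n : ℕ} (hs : 2 ≤ s) (hw2 : w2.Prime)
    (d2 : w2 ∣ ∑ i ∈ range s, n ^ i) : ¬ w2 ∣ n := by
  intro h
  obtain ⟨r, rfl⟩ : ∃ r, s = r + 1 := ⟨s - 1, by omega⟩
  rw [Finset.sum_range_succ', pow_zero] at d2
  have h1 : w2 ∣ ∑ i ∈ range r, n ^ (i + 1) :=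
    Finset.dvd_sum fun i _ => dvd_pow h (by omega)
  have h2 : w2 ∣ 1 := (Nat.dvd_add_right h1).mp d2
  exact hw2.one_lt.ne' (Nat.dvd_one.mp h2)

private theorem QA2_n2 {s w1 n : ℕ} (hs : 2 ≤ s) (h21 : 2 < w1) (d1 : w1 ∣ n ^ s + 1) :
    2 ≤ n := by
  by_contra hcon
  have : n = 0 ∨ n = 1 := by omega
  rcases this with rfl | rfl
  · rw [zero_pow (by omega), zero_add] at d1
    have := Nat.le_of_dvd one_pos d1
    omega
  · rw [one_pow] at d1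
    have := Nat.le_of_dvd two_pos d1
    omega

private theorem QA2_key {s n w : ℕ} (hw : w.Prime) (h2 : 2 < w) (hn : ¬ w ∣ n) :
    ¬ (w : ℤ) ∣ 2 * (n : ℤ) ^ (s - 1) := by
  intro h
  rcases (Nat.prime_iff_prime_int.mp hw).dvd_or_dvd h with h | h
  · have h3 : w ∣ 2 := by exact_mod_cast h
    have := Nat.le_of_dvd two_pos h3
    omega
  · have h3 : (w : ℤ) ∣ (n : ℤ) := (Nat.prime_iff_prime_int.mp hw).dvd_of_dvd_pow h
    exact hn (by exact_mod_cast h3)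

theorem excl_B {s c1 c2 w1 w2 r1 r2 n Y B : ℕ} (hs : 2 ≤ s) (hn : n ≠ 0)
    (hY1 : Y < w1) (hY2 : Y < w2) (hgb : gb s Y n ≤ B) (ho1 : OrdBig Y B w1) (ho2 : OrdBig Y B w2)
    (hS : Shape s c1 c2 w1 w2 r1 r2 n)
    (hNP : ∀ p : ℕ, p.Prime → p ∣ n → Y < p → NP w1 r1 p ∧ NP w2 r2 p)
    (hND : ND (FW w1 w2) (s - 1) (r1 * r2) n) : ¬ NilOrder n (2 * s) := by
  intro hAb
  have hw1 := hS.prime1
  have hw2 := hS.prime2
  have hbig : ∀ w c r : ℕ, w.Prime → w = c * r + 1 → 1 < r → 2 < w := by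
    intro w c r hw e1 e2
    have hc : c ≠ 0 := by
      rintro rfl
      rw [zero_mul, zero_add] at e1
      exact hw.one_lt.ne' e1
    have h1 : 1 * 2 ≤ c * r := Nat.mul_le_mul (Nat.one_le_iff_ne_zero.mpr hc) e2
    omega
  have h21 : 2 < w1 := hbig w1 c1 r1 hw1 hS.eq1 hS.one1
  have h22 : 2 < w2 := hbig w2 c2 r2 hw2 hS.eq2 hS.one2
  have hn2 : 2 ≤ n := QA2_n2 hs h21 hS.dvd1
  have hn1 := QA2_w1n hs hw1 hS.dvd1
  have hn2' := QA2_w2n hs hw2 hS.dvd2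
  have hWn : (w1 * w2).Coprime n := Nat.Coprime.mul_left (hw1.coprime_iff_not_dvd.mpr hn1)
    (hw2.coprime_iff_not_dvd.mpr hn2')
  obtain ⟨Q, _, _, X, lam, hQ, hX, hk1, hk2⟩ :=
    exists_quot_nil hn2 hs hw1 hw2 hS.ne hS.dvd1 hS.dvd2 hAb
  obtain ⟨t0, ht01, hc0, hc1, hall, hnp⟩ := exists_t0 hS.prime1 hS.prime2 hS.ne hS.eq1 hS.eq2
    hS.one1 hS.one2 hS.cop1 hS.cop2 hS.cop
  obtain ⟨h, hmult⟩ := QA2_core hs hn hw1 hw2 hY1 hY2 hgb ho1 ho2 hWn hQ X hX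
    (by rw [hQ]; exact hc0) (by
      intro r hr hrn hYr
      left
      obtain ⟨h1, h2⟩ := hNP r hr hrn hYr
      obtain ⟨j, hj⟩ := hnp r h1 h2
      exact ⟨j, fun x => QA2_pow hQ hj x⟩)
  obtain ⟨a, ha'⟩ := exists_fix X (by omega) (by rw [hQ]; exact hc1) hmult
  have ha : ∀ t : ℕ, t ^ (r1 * r2) ≡ 1 [MOD w1 * w2] →
      pw t (single a 1 * X) = single a 1 * X := by
    intro t ht
    obtain ⟨j, hj⟩ := hall t ht
    rw [pw_congr (fun x => QA2_pow hQ hj x)]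
    exact pw_pow_fix ha' j
  set X' : MonoidAlgebra ℤ Q := single a 1 * X with hX'def
  have haug : aug X' = aug X := by
    rw [hX'def, map_mul, aug_single, one_mul]
  have hX' : X' * iv X' = (((((n : ℤ) ^ (s - 1)) ^ 2 : ℤ)) : MonoidAlgebra ℤ Q)
      + (lam : MonoidAlgebra ℤ Q) * el univ := by
    rw [← hX, hX'def, map_mul, iv_single]
    have h1 : (single a (1 : ℤ) : MonoidAlgebra ℤ Q) * single a⁻¹ 1 = 1 := by
      rw [MonoidAlgebra.single_mul_single, mul_inv_cancel, mul_one]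
      rfl
    calc single a 1 * X * (single a⁻¹ 1 * iv X)
        = (single a (1 : ℤ) * single a⁻¹ 1) * (X * iv X) := by ring
      _ = X * iv X := by rw [h1, one_mul]
  have hWpos : 0 < w1 * w2 := Nat.mul_pos hw1.pos hw2.pos
  refine sign_contra X' (N0 := (n : ℤ) ^ (s - 1)) hw1 hw2 (by rw [hQ]; exact dvd_mul_right _ _)
    (by rw [hQ]; exact dvd_mul_left _ _) (fun ψ hψ => ?_) (by rw [haug]; exact hk1)
    (by rw [haug]; exact hk2) (QA2_key hw1 h21 hn1) (QA2_key hw2 h22 hn2')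
  exact ev_eq hWpos hQ X' hX' ha hND ψ hψ

end Pool.Agent.Lib.MP_79499b_co.QZ
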