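import Pool.Agent.Lib.MP_79499b_co.DZ.A9
import Pool.Agent.Lib.MP_79499b_co.DZ.A8
import Pool.Agent.Lib.MP_79499b_co.DZ.ZNil
import Pool.Agent.Lib.MP_79499b_co.QZ.QDef
import Pool.Agent.Lib.MP_79499b_co.QZ.QA1
import Pool.Agent.Lib.MP_79499b_co.EO.S2

/-!
# QA3: exclusion of difference sets when the large primes are self-conjugate

Claim (`excl_A`). `w1 ≠ w2` primes `> 2`, `w1 ∣ n^s + 1`, `w2 ∣ ∑_{i<s} n^i`, `Y < w_i`, `gb s Y n ≤ B`, `OrdBig Y B w_i`, and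
`w1 w2 ∣ p^j + 1` for some `j`, for every prime `p ∣ n`, `p > Y`. Then there is no difference set with Singer
parameters `(n, 2 s)` in a finite nilpotent group.

Proof. As in QA2: `n ≥ 2`, `W = w1 w2` coprime to `n` (hence odd or not does not matter, but `W` is odd since `w_i > 2`),
`exists_quot_nil`: `Q`, `X`, `lam`. `m = EO.sm Y n`, `n = m b0`, `b = b0^(s-1)`, `g = m^(2(s-1))`, `N = (n^(s-1))^2 = b^2 g`. Take
`t = W - 1`: `W` is coprime to `W - 1`, `x^t = x⁻¹` for `x : Q` (`x^W = 1`). For a prime `r ∣ b`: `r ∣ b0`, `r > Y`, so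
`x^(r^j) = x⁻¹` for all `x` (`W ∣ r^j + 1`): second case of `dvd_twist_all`. So `b^2 ∣ X^{(t)} X^{(-1)} - lam u`, `exists_Z` gives
`Z` with `Z Z^{(-1)} = g^2`, `aug Z = g`, and `z_iter` (hypotheses as in QA2) `Z = g h`. `mult_of`: `X^{(t)} = h X`, i.e.
`X^{(-1)} = h X` (`pw t = iv`: `pw_eq_iv`). `|Q| = W` is odd, so `h = a^2` for some `a` (`powCoprime` with exponent 2, or
`a = h^((W+1)/2)`). `X' = a X`: `X'^{(-1)} = a⁻¹ X^{(-1)} = a⁻¹ h X = a X = X'`. So for every nontrivial character `χ` of `Q`: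
`χ(X')^2 = χ(X' X'^{(-1)}) = χ(N + lam u) = N = (n^(s-1))^2` (`EvenExcl29.ev_univ`: `χ(u) = 0`), so
`χ(X') = ± n^(s-1)` (`integralClosure ℤ ℂ` is a domain). `aug X' = aug X`. Now `sign_contra` (A8) with `N0 = n^(s-1)`, as at
the end of `excl_nil` (`w_i ∤ 2 n^(s-1)` because `w_i > 2` and `w_i ∤ n`).
-/

set_option autoImplicit false

namespace Pool.Agent.Lib.MP_79499b_co.QZ

open Finset MonoidAlgebra DZ

private theorem QA3_cop {w m : ℕ} (hw : w.Prime) (h0 : 0 < m) (h : m < w) : w.Coprime m := by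
  rw [hw.coprime_iff_not_dvd]
  intro h1
  exact absurd (Nat.le_of_dvd h0 h1) (not_le.mpr h)

private theorem QA3_pow {Q : Type} [CommGroup Q] [Fintype Q] {W s t : ℕ} (hQ : Nat.card Q = W)
    (h : s ≡ t [MOD W]) (x : Q) : x ^ s = x ^ t := by
  rw [pow_eq_pow_iff_modEq]
  refine h.of_dvd ?_
  rw [← hQ]
  exact orderOf_dvd_natCard x

/-- the common part: a twist of `X` is a translate -/
private theorem QA3_core {s w1 w2 n Y B : ℕ} (hs : 2 ≤ s) (hn : n ≠ 0) (hw1 : w1.Prime)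
    (hw2 : w2.Prime) (hY1 : Y < w1) (hY2 : Y < w2) (hgb : gb s Y n ≤ B) (ho1 : OrdBig Y B w1)
    (ho2 : OrdBig Y B w2) (hWn : (w1 * w2).Coprime n)
    {Q : Type} [CommGroup Q] [Fintype Q] (hQ : Nat.card Q = w1 * w2)
    (X : MonoidAlgebra ℤ Q) {lam : ℤ}
    (hX : X * iv X = (((((n : ℤ) ^ (s - 1)) ^ 2 : ℤ)) : MonoidAlgebra ℤ Q)
      + (lam : MonoidAlgebra ℤ Q) * el univ) {t : ℕ} (ht : (Nat.card Q).Coprime t)
    (hm : ∀ r : ℕ, r.Prime → r ∣ n → Y < r →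
      (∃ i : ℕ, ∀ x : Q, x ^ t = x ^ r ^ i) ∨ (∃ j : ℕ, ∀ x : Q, x ^ r ^ j = x⁻¹)) :
    ∃ h : Q, pw t X = single h 1 * X := by
  obtain ⟨hm1, hmp, hmn⟩ := EO.sm_facts Y n (Nat.one_le_iff_ne_zero.mpr hn)
  obtain ⟨m, hmdef⟩ : ∃ m, m = EO.sm Y n := ⟨_, rfl⟩
  obtain ⟨b0, hb0def⟩ : ∃ b0, b0 = ∏ p ∈ n.primeFactors.filter (fun p => Y < p),
    p ^ n.factorization p := ⟨_, rfl⟩
  rw [← hmdef] at hm1 hmp hmn
  rw [← hb0def] at hmn
  have hgb' : (m ^ (2 * (s - 1))) ^ 2 ^ m.primeFactors.card ≤ B := by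
    have h1 := hgb
    unfold gb at h1
    rw [← hmdef] at h1
    exact h1
  have hb0p : ∀ r : ℕ, r.Prime → r ∣ b0 → r ∣ n ∧ Y < r := by
    intro r hr hrb
    rw [hb0def] at hrb
    obtain ⟨q, hq, hrq⟩ := (Nat.prime_iff.mp hr).exists_mem_finset_dvd hrb
    rw [Finset.mem_filter, Nat.mem_primeFactors] at hq
    have h1 := hr.dvd_of_dvd_pow hrq
    rw [Nat.prime_dvd_prime_iff_eq hr hq.1.1] at h1
    rw [h1]
    exact ⟨hq.1.2.1, hq.2⟩
  have hb00 : b0 ≠ 0 := by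
    rintro h0
    rw [h0, mul_zero] at hmn
    exact hn hmn.symm
  have hm0 : m ≠ 0 := by omega
  have hb0n : b0 ∣ n := ⟨m, by rw [← hmn, mul_comm]⟩
  have hmn' : m ∣ n := ⟨b0, hmn.symm⟩
  have hWb : (w1 * w2).Coprime (b0 ^ (s - 1)) := (hWn.coprime_dvd_right hb0n).pow_right _
  have hN : (((n : ℤ) ^ (s - 1)) ^ 2) =
      (((b0 ^ (s - 1)) ^ 2 : ℕ) : ℤ) * ((m ^ (2 * (s - 1)) : ℕ) : ℤ) := by
    have h1 : (n : ℤ) = (m : ℤ) * (b0 : ℤ) := by exact_mod_cast hmn.symm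
    rw [h1]
    push_cast
    rw [mul_pow, mul_pow, mul_comm 2 (s - 1), pow_mul (m : ℤ)]
    ring
  have hdvd := dvd_twist_all X hX (b := b0 ^ (s - 1)) (by rw [hN]; exact dvd_mul_right _ _)
    (by rw [hQ]; exact hWb) ht (by
      intro r hr hrb
      obtain ⟨h1, h2⟩ := hb0p r hr (hr.dvd_of_dvd_pow hrb)
      exact hm r hr h1 h2)
  have hb2 : (((b0 ^ (s - 1)) ^ 2 : ℕ) : ℤ) ≠ 0 := by
    have : (b0 ^ (s - 1)) ^ 2 ≠ 0 := pow_ne_zero 2 (pow_ne_zero _ hb00)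
    exact_mod_cast this
  obtain ⟨Z, hZ1, hZ2, hZ3⟩ := exists_Z X hX hb2 hN ht hdvd
  obtain ⟨h, hh⟩ := z_iter B (m ^ (2 * (s - 1))) (pow_ne_zero _ hm0)
    (by rw [Nat.primeFactors_pow _ (by omega)]; exact hgb')
    (by
      intro p hp hpg
      have hpm : p ∣ m := hp.dvd_of_dvd_pow hpg
      have hpY : p ≤ Y := hmp p (Nat.mem_primeFactors.mpr ⟨hp, hpm, hm0⟩)
      have hp2 := hp.two_le
      refine ⟨?_, ?_, ?_⟩
      · rw [hQ]
        exact Nat.Coprime.mul_left (QA3_cop hw1 (by omega) (by omega)) (QA3_cop hw2 (by omega) (by omega))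
      · rw [hQ]
        exact Nat.Coprime.mul_left (QA3_cop hw1 (by omega) (by omega)) (QA3_cop hw2 (by omega) (by omega))
      · intro x hx i hi1 hi2 heq
        have hpi : 1 ≤ p ^ i := Nat.one_le_pow _ _ hp.pos
        have h1 : x ^ (p ^ i - 1) = 1 := by
          have h2 : x ^ (p ^ i - 1) * x = 1 * x := by
            rw [← pow_succ, Nat.sub_add_cancel hpi, one_mul]
            exact heq
          exact mul_right_cancel h2
        have h2 : orderOf x ∣ p ^ i - 1 := orderOf_dvd_of_pow_eq_one h1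
        have h3 : orderOf x ∣ w1 * w2 := by
          rw [← hQ]
          exact orderOf_dvd_natCard x
        have h4 : orderOf x ≠ 1 := fun h5 => hx (orderOf_eq_one_iff.mp h5)
        obtain ⟨q, hq, hqo⟩ := Nat.exists_prime_and_dvd h4
        rcases (Nat.Prime.dvd_mul hq).mp (hqo.trans h3) with h5 | h5
        · rw [Nat.prime_dvd_prime_iff_eq hq hw1] at h5
          rw [h5] at hqo
          exact ho1 p hp hpY i hi1 hi2 (hqo.trans h2)
        · rw [Nat.prime_dvd_prime_iff_eq hq hw2] at h5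
          rw [h5] at hqo
          exact ho2 p hp hpY i hi1 hi2 (hqo.trans h2))
    Z hZ2 hZ3
  have hSN : pw t X * iv X - (lam : MonoidAlgebra ℤ Q) * el univ =
      (((((n : ℤ) ^ (s - 1)) ^ 2 : ℤ)) : MonoidAlgebra ℤ Q) * single h 1 := by
    rw [hZ1, hh, ← mul_assoc, ← Int.cast_mul, ← hN]
  have hN0 : (((n : ℤ) ^ (s - 1)) ^ 2) ≠ 0 := by
    have : (n : ℤ) ≠ 0 := by exact_mod_cast hn
    positivity
  exact ⟨h, mult_of X hX hN0 hSN⟩

private theorem QA3_w1n {s w1 n : ℕ} (hs : 2 ≤ s) (hw1 : w1.Prime) (d1 : w1 ∣ n ^ s + 1) :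
    ¬ w1 ∣ n := by
  intro h
  have h1 : w1 ∣ n ^ s := dvd_pow h (by omega)
  have h2 : w1 ∣ 1 := (Nat.dvd_add_right h1).mp d1
  exact hw1.one_lt.ne' (Nat.dvd_one.mp h2)

private theorem QA3_w2n {s w2 n : ℕ} (hs : 2 ≤ s) (hw2 : w2.Prime)
    (d2 : w2 ∣ ∑ i ∈ range s, n ^ i) : ¬ w2 ∣ n := by
  intro h
  obtain ⟨r, rfl⟩ : ∃ r, s = r + 1 := ⟨s - 1, by omega⟩
  rw [Finset.sum_range_succ', pow_zero] at d2
  have h1 : w2 ∣ ∑ i ∈ range r, n ^ (i + 1) :=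
    Finset.dvd_sum fun i _ => dvd_pow h (by omega)
  have h2 : w2 ∣ 1 := (Nat.dvd_add_right h1).mp d2
  exact hw2.one_lt.ne' (Nat.dvd_one.mp h2)

private theorem QA3_n2 {s w1 n : ℕ} (hs : 2 ≤ s) (h21 : 2 < w1) (d1 : w1 ∣ n ^ s + 1) :
    2 ≤ n := by
  by_contra hcon
  have : n = 0 ∨ n = 1 := by omega
  rcases this with rfl | rfl
  · rw [zero_pow (by omega), zero_add] at d1
    have := Nat.le_of_dvd one_pos d1
    omega
  · rw [one_pow] at d1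
    have := Nat.le_of_dvd two_pos d1
    omega

private theorem QA3_key {s n w : ℕ} (hw : w.Prime) (h2 : 2 < w) (hn : ¬ w ∣ n) :
    ¬ (w : ℤ) ∣ 2 * (n : ℤ) ^ (s - 1) := by
  intro h
  rcases (Nat.prime_iff_prime_int.mp hw).dvd_or_dvd h with h | h
  · have h3 : w ∣ 2 := by exact_mod_cast h
    have := Nat.le_of_dvd two_pos h3
    omega
  · have h3 : (w : ℤ) ∣ (n : ℤ) := (Nat.prime_iff_prime_int.mp hw).dvd_of_dvd_pow h
    exact hn (by exact_mod_cast h3)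

theorem excl_A {s w1 w2 n Y B : ℕ} (hs : 2 ≤ s) (hn : n ≠ 0) (hw1 : w1.Prime) (hw2 : w2.Prime)
    (hne : w1 ≠ w2) (h21 : 2 < w1) (h22 : 2 < w2) (hY1 : Y < w1) (hY2 : Y < w2)
    (hgb : gb s Y n ≤ B) (ho1 : OrdBig Y B w1) (ho2 : OrdBig Y B w2)
    (d1 : w1 ∣ n ^ s + 1) (d2 : w2 ∣ ∑ i ∈ range s, n ^ i)
    (hsc : ∀ p : ℕ, p.Prime → p ∣ n → Y < p → ∃ j : ℕ, w1 * w2 ∣ p ^ j + 1) :
    ¬ NilOrder n (2 * s) := by
  intro hAb
  have hn2 : 2 ≤ n := QA3_n2 hs h21 d1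
  have hn1 := QA3_w1n hs hw1 d1
  have hn2' := QA3_w2n hs hw2 d2
  have hWn : (w1 * w2).Coprime n := Nat.Coprime.mul_left (hw1.coprime_iff_not_dvd.mpr hn1)
    (hw2.coprime_iff_not_dvd.mpr hn2')
  obtain ⟨Q, _, _, X, lam, hQ, hX, hk1, hk2⟩ := exists_quot_nil hn2 hs hw1 hw2 hne d1 d2 hAb
  have hWpos : 0 < w1 * w2 := Nat.mul_pos hw1.pos hw2.pos
  have hinv : ∀ x : Q, x ^ (w1 * w2 - 1) = x⁻¹ := by
    intro x
    rw [eq_inv_iff_mul_eq_one, ← pow_succ, Nat.sub_add_cancel hWpos, ← hQ]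
    exact pow_card_eq_one'
  have hcop : (Nat.card Q).Coprime (w1 * w2 - 1) := by
    rw [hQ]
    obtain ⟨v, hv⟩ : ∃ v, w1 * w2 = v + 1 := ⟨w1 * w2 - 1, by omega⟩
    rw [hv, Nat.add_sub_cancel]
    exact (Nat.coprime_self_add_left.mpr (Nat.coprime_one_left v) : (v + 1).Coprime v)
  obtain ⟨h, hmult⟩ := QA3_core hs hn hw1 hw2 hY1 hY2 hgb ho1 ho2 hWn hQ X hX hcop (by
      intro r hr hrn hYr
      right
      obtain ⟨j, hj⟩ := hsc r hr hrn hYr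
      refine ⟨j, fun x => ?_⟩
      rw [eq_inv_iff_mul_eq_one, ← pow_succ]
      have h2 : r ^ j + 1 ≡ 0 [MOD w1 * w2] := (Nat.modEq_zero_iff_dvd).mpr hj
      rw [QA3_pow hQ h2 x, pow_zero])
  rw [pw_eq_iv hinv] at hmult
  have hodd : (Nat.card Q).Coprime 2 := by
    rw [hQ]
    exact Nat.Coprime.mul_left (QA3_cop hw1 two_pos h21) (QA3_cop hw2 two_pos h22)
  obtain ⟨a, ha⟩ : ∃ a : Q, a ^ 2 = h :=
    ⟨(powCoprime hodd).symm h, (powCoprime hodd).apply_symm_apply h⟩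
  set X' : MonoidAlgebra ℤ Q := single a 1 * X with hX'def
  have haug : aug X' = aug X := by
    rw [hX'def, map_mul, aug_single, one_mul]
  have hX' : X' * iv X' = (((((n : ℤ) ^ (s - 1)) ^ 2 : ℤ)) : MonoidAlgebra ℤ Q)
      + (lam : MonoidAlgebra ℤ Q) * el univ := by
    rw [← hX, hX'def, map_mul, iv_single]
    have h1 : (single a (1 : ℤ) : MonoidAlgebra ℤ Q) * single a⁻¹ 1 = 1 := by
      rw [MonoidAlgebra.single_mul_single, mul_inv_cancel, mul_one]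
      rfl
    calc single a 1 * X * (single a⁻¹ 1 * iv X)
        = (single a (1 : ℤ) * single a⁻¹ 1) * (X * iv X) := by ring
      _ = X * iv X := by rw [h1, one_mul]
  have hself : iv X' = X' := by
    rw [hX'def, map_mul, iv_single, hmult, ← mul_assoc, single_mul_single, mul_one]
    congr 2
    rw [← ha, sq, ← mul_assoc, inv_mul_cancel, one_mul]
  refine sign_contra X' (N0 := (n : ℤ) ^ (s - 1)) hw1 hw2 (by rw [hQ]; exact dvd_mul_right _ _)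
    (by rw [hQ]; exact dvd_mul_left _ _) (fun ψ hψ => ?_) (by rw [haug]; exact hk1)
    (by rw [haug]; exact hk2) (QA3_key hw1 h21 hn1) (QA3_key hw2 h22 hn2')
  have h4 : (EvenExcl29.ev ψ X') ^ 2 = (((n : ℤ) ^ (s - 1) : ℤ) : integralClosure ℤ ℂ) ^ 2 := by
    have h5 : EvenExcl29.ev ψ (X' * iv X') =
        ((((n : ℤ) ^ (s - 1)) ^ 2 : ℤ) : integralClosure ℤ ℂ) := by
      rw [hX', map_add, map_mul, EvenExcl29.ev_univ hψ, mul_zero, add_zero, map_intCast]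
    rw [hself, map_mul] at h5
    rw [sq, h5]
    push_cast
    ring
  exact sq_eq_sq_iff_eq_or_eq_neg.mp h4

end Pool.Agent.Lib.MP_79499b_co.QZ
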