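import Mathlib

/-!
# QC1: the number of `i`-th powers of units modulo `N`, `N` squarefree

`ipow`: for `N ≥ 1` squarefree, `i ≥ 1`: `φ(N) ≤ i^ω(N) #{u^i : u unit mod N}`.

Proof. The map `u ↦ u^i` of the finite abelian group `U = (ZMod N)ˣ` onto its image `P` has fibres of size
`#{u : u^i = 1}` (cosets of the kernel; `Subgroup.card_eq_card_quotient_mul_card_subgroup`, or `card_fiber`:
`Fintype.card U = #ker * #range`, `MonoidHom.card_range_mul_card_ker`-style), and
`#{u ∈ U : u^i = 1} ≤ i^ω(N)`: by induction on the primes of `N` (`N = l N'`, `l ∤ N'`: `ZMod.chineseRemainder`, the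
solutions modulo `N` inject into the pairs of solutions modulo `l` and `N'`; modulo a prime `l` there are at most
`i` solutions: `card_rootsOfUnity` / `IsCyclic.card_pow_eq_one_le` / the roots of `X^i - 1` in the field `ZMod l`).
Only `N = 1`, `N = w`, `N = w1 w2` (different primes) are used; it is enough to prove the statement for these, but
the general statement is not harder.
-/

set_option autoImplicit false

namespace Pool.Agent.Lib.MP_79499b_co.QZ

open Finset

private theorem QC1_ker (N i : ℕ) [NeZero N] (hN : Squarefree N) (hi : 1 ≤ i) :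
    ((univ : Finset (ZMod N)ˣ).filter (fun u => u ^ i = 1)).card ≤ i ^ N.primeFactors.card := by
  classical
  let T : (p : ℕ) → Finset (ZMod p) := fun p =>
    if h : p.Prime then
      (haveI := Fact.mk h; (Polynomial.nthRoots i (1 : ZMod p)).toFinset) else ∅
  have hT : ∀ p ∈ N.primeFactors, (T p).card ≤ i := by
    intro p hp
    have h := Nat.prime_of_mem_primeFactors hp
    haveI := Fact.mk h
    simp only [T, dif_pos h]
    exact (Multiset.toFinset_card_le _).trans (Polynomial.card_nthRoots i 1)
  let F : (ZMod N)ˣ → (∀ p ∈ N.primeFactors, ZMod p) := fun u p hp =>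
    ZMod.castHom (Nat.dvd_of_mem_primeFactors hp) (ZMod p) (u : ZMod N)
  have hF : ∀ u ∈ (univ : Finset (ZMod N)ˣ).filter (fun u => u ^ i = 1),
      F u ∈ N.primeFactors.pi T := by
    intro u hu
    rw [Finset.mem_pi]
    intro p hp
    have h := Nat.prime_of_mem_primeFactors hp
    haveI := Fact.mk h
    simp only [T, dif_pos h, Multiset.mem_toFinset]
    rw [Polynomial.mem_nthRoots (by omega)]
    show (ZMod.castHom (Nat.dvd_of_mem_primeFactors hp) (ZMod p) (u : ZMod N)) ^ i = 1
    rw [← map_pow, ← Units.val_pow_eq_pow_val, (mem_filter.1 hu).2, Units.val_one, map_one]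
  have hinj : Set.InjOn F ((univ : Finset (ZMod N)ˣ).filter (fun u => u ^ i = 1)) := by
    intro u _ u' _ huu
    apply Units.ext
    have h1 : ∀ p ∈ N.primeFactors, (p : ℤ) ∣ ((u : ZMod N).val : ℤ) - ((u' : ZMod N).val : ℤ) := by
      intro p hp
      have h2 : F u p hp = F u' p hp := by rw [huu]
      have h3 : ZMod.castHom (Nat.dvd_of_mem_primeFactors hp) (ZMod p) (u : ZMod N) =
          ZMod.castHom (Nat.dvd_of_mem_primeFactors hp) (ZMod p) (u' : ZMod N) := h2
      rw [← ZMod.natCast_zmod_val (u : ZMod N), ← ZMod.natCast_zmod_val (u' : ZMod N),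
        map_natCast, map_natCast] at h3
      rw [← ZMod.intCast_zmod_eq_zero_iff_dvd, Int.cast_sub, Int.cast_natCast, Int.cast_natCast,
        h3, sub_self]
    have h2 : (N : ℤ) ∣ ((u : ZMod N).val : ℤ) - ((u' : ZMod N).val : ℤ) := by
      have h3 : ((∏ p ∈ N.primeFactors, p : ℕ) : ℤ) ∣
          ((u : ZMod N).val : ℤ) - ((u' : ZMod N).val : ℤ) := by
        rw [Nat.cast_prod]
        refine Finset.prod_dvd_of_coprime ?_ h1
        intro p hp q hq hpq
        have hp' := Nat.prime_of_mem_primeFactors hp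
        have hq' := Nat.prime_of_mem_primeFactors hq
        exact Nat.isCoprime_iff_coprime.2 ((Nat.coprime_primes hp' hq').2 hpq)
      rwa [Nat.prod_primeFactors_of_squarefree hN] at h3
    have h3 : (((u : ZMod N).val : ℤ) : ZMod N) = (((u' : ZMod N).val : ℤ) : ZMod N) := by
      rw [← sub_eq_zero, ← Int.cast_sub, ZMod.intCast_zmod_eq_zero_iff_dvd]
      exact h2
    rw [Int.cast_natCast, Int.cast_natCast, ZMod.natCast_zmod_val, ZMod.natCast_zmod_val] at h3
    exact h3
  calc ((univ : Finset (ZMod N)ˣ).filter (fun u => u ^ i = 1)).card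
      ≤ (N.primeFactors.pi T).card := card_le_card_of_injOn F hF hinj
    _ = ∏ p ∈ N.primeFactors, (T p).card := Finset.card_pi _ _
    _ ≤ ∏ _p ∈ N.primeFactors, i := Finset.prod_le_prod' hT
    _ = i ^ N.primeFactors.card := by rw [prod_const]

open scoped Classical in
theorem ipow (N i : ℕ) [NeZero N] (hN : Squarefree N) (hi : 1 ≤ i) :
    N.totient ≤ i ^ N.primeFactors.card *
      ((univ : Finset (ZMod N)ˣ).image (fun u => u ^ i)).card := by
  rw [← ZMod.card_units_eq_totient N, ← Finset.card_univ]
  refine Finset.card_le_mul_card_image _ _ (fun y hy => ?_)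
  obtain ⟨u0, -, rfl⟩ := mem_image.1 hy
  refine le_trans ?_ (QC1_ker N i hN hi)
  refine card_le_card_of_injOn (fun u => u * u0⁻¹) ?_ ?_
  · intro u hu
    rw [mem_coe, mem_filter] at hu
    rw [mem_coe, mem_filter]
    refine ⟨mem_univ _, ?_⟩
    rw [mul_pow, hu.2, inv_pow, mul_inv_cancel]
  · intro u _ u' _ h
    exact mul_right_cancel h

end Pool.Agent.Lib.MP_79499b_co.QZ
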