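import Pool.Agent.Lib.MP_79499b_co.DZ.NLat
import Pool.Agent.Lib.MP_79499b_co.DZ.NBd
import Pool.Agent.Lib.MP_79499b_co.QZ.QC1

/-!
# QC2: lattice points with norm in a given class

`norm_class`: `J ≠ ⊥` an ideal of `𝓞 L`, `i = [L : ℚ]`, `b` a basis, `N ≥ 1` squarefree, `ν` coprime to `N`, `N^i N(J) ≤ m`. A
finite set `S` of `β ∈ J` with coordinates in `[-m, m]` and `N((β)) ≡ ν mod N` (`Ideal.absNorm` of the span, a natural
number) satisfies `|S| N(J) φ(N) ≤ 2 i^ω(N) (5 m)^i`.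

Proof. `J' = (N) J`, `N(J') = N^i N(J) ≤ m`, `J' ⊆ J`, and `J/J'` has `N^i` elements (`N(J')/N(J)`; as a set: the classes
modulo `J'` of the elements of `J`).
(1) For a class `C` of `J/J'` the elements of `S` in `C` are at most `(5m)^i/N(J')` in number: subtract a fixed one,
the differences are in `J'` with coordinates in `[-2m, 2m]`, `lat_count` with `2m`: `# N(J') ≤ (4m + N(J'))^i ≤ (5m)^i`.
(2) The signed norm `Nm(β) = Algebra.norm ℤ β` modulo `N` depends only on the class of `β` modulo `N 𝓞 L ⊇ J'`: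
`Algebra.norm` of `β` is the determinant of the matrix of multiplication by `β` in the basis `b`, whose entries are
linear in `β`; so `β ≡ β' mod N` gives congruent determinants. And `N((β)) = |Nm(β)|`, so `Nm(β) ≡ ± ν mod N`.
(3) For `ε = ± 1` let `M(ν')` be the number of classes `C` of `J/J'` with `Nm ≡ ν' mod N`. For an integer `a` coprime to `N`
multiplication by `a` is a bijection of `J/J'` (`J' = N J`; `a a' ≡ 1 mod N`) and multiplies `Nm` by `a^i`
(`Algebra.norm_algebraMap`), so `M(a^i ν') = M(ν')`. The numbers `a^i ν'` take `#{u^i} ≥ φ(N)/i^ω(N)` different values modulo `N`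
(`ipow`; `ν'` is a unit), and the sum of `M` over the different values is at most `|J/J'| = N^i`. So
`M(ν') φ(N) ≤ i^ω(N) N^i`.
Together `|S| ≤ 2 (i^ω(N) N^i/φ(N)) (5m)^i/(N^i N(J))`.
(If `S` is empty there is nothing to prove. All classes can be handled as elements of the finite quotient
`𝓞 L ⧸ J'`, those coming from `J`. It may be convenient to avoid division: prove
`|S| N(J') φ(N) ≤ 2 i^ω(N) N^i (5m)^i` and cancel `N^i`.)
-/

set_option autoImplicit false

open NumberField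

namespace Pool.Agent.Lib.MP_79499b_co.QZ

open Finset DZ

/-- the signed norm modulo `N` depends only on the class modulo `N` -/
private theorem QC2_norm_congr {A : Type} [CommRing A] {ι : Type} [Fintype ι]
    (b : Module.Basis ι ℤ A) (N : ℕ) (x y z : A) (h : x = y + (N : A) * z) :
    ((Algebra.norm ℤ x : ℤ) : ZMod N) = ((Algebra.norm ℤ y : ℤ) : ZMod N) := by
  classical
  rw [Algebra.norm_eq_matrix_det b, Algebra.norm_eq_matrix_det b]
  have h1 : Algebra.leftMulMatrix b x =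
      Algebra.leftMulMatrix b y + (N : ℤ) • Algebra.leftMulMatrix b z := by
    rw [← map_smul, ← map_add, h]
    congr 1
    rw [zsmul_eq_mul]
    push_cast
    rfl
  have h2 : (Int.castRingHom (ZMod N)).mapMatrix (Algebra.leftMulMatrix b x) =
      (Int.castRingHom (ZMod N)).mapMatrix (Algebra.leftMulMatrix b y) := by
    rw [h1]
    generalize Algebra.leftMulMatrix b y = Y
    generalize Algebra.leftMulMatrix b z = Z
    ext i j
    rw [RingHom.mapMatrix_apply, RingHom.mapMatrix_apply, Matrix.map_apply, Matrix.map_apply,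
      Matrix.add_apply, Matrix.smul_apply, map_add, smul_eq_mul, map_mul]
    simp
  have h3 := congrArg Matrix.det h2
  rw [← RingHom.map_det, ← RingHom.map_det] at h3
  simpa using h3

private theorem QC2_norm_nat {A : Type} [CommRing A] {ι : Type} [Fintype ι]
    (b : Module.Basis ι ℤ A) (a : ℕ) :
    Algebra.norm ℤ (a : A) = (a : ℤ) ^ Fintype.card ι := by
  have h := Algebra.norm_algebraMap_of_basis b (a : ℤ)
  simpa using h

private theorem QC2_ideal {A : Type} [CommRing A] (n : A) (J : Ideal A) :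
    (Ideal.span {n} * J ≤ J) ∧ (∀ z ∈ Ideal.span {n} * J, ∃ t, z = n * t) ∧
      (∀ x ∈ J, n * x ∈ Ideal.span {n} * J) := by
  refine ⟨Ideal.mul_le_right (I := Ideal.span {n}) (J := J), fun z hz => ?_, fun x hx => ?_⟩
  · exact Ideal.mem_span_singleton.1 (Ideal.mul_le_left (I := Ideal.span {n}) (J := J) hz)
  · exact Ideal.mul_mem_mul (Ideal.mem_span_singleton_self _) hx

/-- the classes modulo `J'` of the elements of `J ⊇ J'`: at most `N(J')/N(J)` -/
private theorem QC2_classes {A : Type} [CommRing A] (J J' : Ideal A) (hle : J' ≤ J)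
    [Fintype (A ⧸ J)] [Fintype (A ⧸ J')] (V : Finset (A ⧸ J'))
    (hV : ∀ c ∈ V, ∃ x ∈ J, Ideal.Quotient.mk J' x = c) :
    V.card * Fintype.card (A ⧸ J) ≤ Fintype.card (A ⧸ J') := by
  classical
  choose ρ hρ using fun c : A ⧸ J => Ideal.Quotient.mk_surjective c
  have hinj : Set.InjOn (fun q : (A ⧸ J') × (A ⧸ J) => q.1 + Ideal.Quotient.mk J' (ρ q.2))
      (V ×ˢ (Finset.univ : Finset (A ⧸ J)) : Finset ((A ⧸ J') × (A ⧸ J))) := by
    rintro ⟨y, c⟩ h ⟨y', c'⟩ h' heq
    rw [Finset.mem_coe, Finset.mem_product] at h h'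
    obtain ⟨x, hx, hxy⟩ := hV y h.1
    obtain ⟨x', hx', hxy'⟩ := hV y' h'.1
    have h1 : y + Ideal.Quotient.mk J' (ρ c) = y' + Ideal.Quotient.mk J' (ρ c') := heq
    have h2 : Ideal.Quotient.mk J' (x + ρ c) = Ideal.Quotient.mk J' (x' + ρ c') := by
      rw [map_add, map_add, hxy, hxy', h1]
    have h3 : (x + ρ c) - (x' + ρ c') ∈ J := hle (Ideal.Quotient.eq.1 h2)
    have h4 : Ideal.Quotient.mk J (x + ρ c) = Ideal.Quotient.mk J (x' + ρ c') :=
      Ideal.Quotient.eq.2 h3
    rw [map_add, map_add, Ideal.Quotient.eq_zero_iff_mem.2 hx, Ideal.Quotient.eq_zero_iff_mem.2 hx',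
      zero_add, zero_add, hρ, hρ] at h4
    subst h4
    rw [add_right_cancel h1]
  have hle2 := Finset.card_le_card_of_injOn (t := (Finset.univ : Finset (A ⧸ J'))) _
    (fun q _ => Finset.mem_univ _) hinj
  rwa [Finset.card_product, Finset.card_univ, Finset.card_univ] at hle2

private theorem QC2_gen {A : Type} [CommRing A] (J J' : Ideal A) [Fintype (A ⧸ J)]
    [Fintype (A ⧸ J')] (hle : J' ≤ J) (N i : ℕ) [NeZero N] (hN : Squarefree N) (hi1 : 1 ≤ i)
    (nrm : A → ZMod N) (hcongr : ∀ x y, x - y ∈ J' → nrm x = nrm y)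
    (hmul : ∀ (a : ℕ) (x : A), nrm ((a : A) * x) = (a : ZMod N) ^ i * nrm x)
    (hNJ : ∀ x ∈ J, (N : A) * x ∈ J')
    (hcard : Fintype.card (A ⧸ J') = N ^ i * Fintype.card (A ⧸ J)) (K : ℕ) (S : Finset A)
    (hSJ : ∀ β ∈ S, β ∈ J)
    (hcls : ∀ T ⊆ S, (∀ x ∈ T, ∀ y ∈ T, x - y ∈ J') → T.card * Fintype.card (A ⧸ J') ≤ K)
    (r : (ZMod N)ˣ)
    (hSn : ∀ β ∈ S, nrm β = (r : ZMod N) ∨ nrm β = ((-r : (ZMod N)ˣ) : ZMod N)) :
    S.card * Fintype.card (A ⧸ J) * N.totient ≤ 2 * i ^ N.primeFactors.card * K := by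
  classical
  have hJpos : 0 < Fintype.card (A ⧸ J) := Fintype.card_pos_iff.mpr ⟨0⟩
  -- representatives of the classes of `J / J'`
  obtain ⟨V, hV⟩ : ∃ V : Finset (A ⧸ J'),
      V = Finset.univ.filter (fun c => ∃ x ∈ J, Ideal.Quotient.mk J' x = c) := ⟨_, rfl⟩
  have hVmem : ∀ c ∈ V, ∃ x ∈ J, Ideal.Quotient.mk J' x = c := by
    intro c hc
    rw [hV, Finset.mem_filter] at hc
    exact hc.2
  have hVin : ∀ x ∈ J, Ideal.Quotient.mk J' x ∈ V := by
    intro x hx
    rw [hV, Finset.mem_filter]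
    exact ⟨Finset.mem_univ _, x, hx, rfl⟩
  have hVcard : V.card ≤ N ^ i := by
    have h1 := QC2_classes J J' hle V hVmem
    rw [hcard] at h1
    exact Nat.le_of_mul_le_mul_right h1 hJpos
  -- the norm of a class
  choose ρ hρ using fun c : A ⧸ J' => Ideal.Quotient.mk_surjective c
  obtain ⟨nm, hnmdef⟩ : ∃ nm : (A ⧸ J') → ZMod N, nm = fun c => nrm (ρ c) := ⟨_, rfl⟩
  have hnm : ∀ x : A, nm (Ideal.Quotient.mk J' x) = nrm x := by
    intro x
    rw [hnmdef]
    have h1 : ρ (Ideal.Quotient.mk J' x) - x ∈ J' := Ideal.Quotient.eq.1 (hρ _)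
    exact hcongr _ _ h1
  -- multiplication by a unit
  obtain ⟨M, hMdef⟩ : ∃ M : ZMod N → ℕ, M = fun r => (V.filter (fun c => nm c = r)).card :=
    ⟨_, rfl⟩
  have hMle : ∀ (u : (ZMod N)ˣ) (r : ZMod N), M r ≤ M (((u ^ i : (ZMod N)ˣ) : ZMod N) * r) := by
    intro u r
    obtain ⟨a, ha⟩ : ∃ a : ℕ, (a : ZMod N) = (u : ZMod N) := ⟨(u : ZMod N).val, by
      rw [ZMod.natCast_zmod_val]⟩
    obtain ⟨a', ha'⟩ : ∃ a : ℕ, (a : ZMod N) = ((u⁻¹ : (ZMod N)ˣ) : ZMod N) :=
      ⟨((u⁻¹ : (ZMod N)ˣ) : ZMod N).val, by rw [ZMod.natCast_zmod_val]⟩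
    have haa : ((a' * a : ℕ) : ZMod N) = ((1 : ℕ) : ZMod N) := by
      rw [Nat.cast_mul, ha, ha', Units.inv_mul, Nat.cast_one]
    have haa' : ∃ t : ℤ, ((a' * a : ℕ) : ℤ) = 1 + N * t := by
      have h1 : (((a' * a : ℕ) : ℤ) : ZMod N) = ((1 : ℤ) : ZMod N) := by
        simpa using haa
      have h2 := (ZMod.intCast_eq_intCast_iff_dvd_sub _ _ _).1 h1.symm
      obtain ⟨t, ht⟩ := h2
      exact ⟨t, by linarith⟩
    obtain ⟨t, ht⟩ := haa'
    have ht' : (a' : A) * (a : A) = 1 + (N : A) * ((t : ℤ) : A) := by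
      have := congrArg (fun n : ℤ => ((n : ℤ) : A)) ht
      push_cast at this
      exact this
    rw [hMdef]
    refine Finset.card_le_card_of_injOn (fun c => Ideal.Quotient.mk J' (a : A) * c) ?_ ?_
    · intro c hc
      rw [Finset.mem_coe, Finset.mem_filter] at hc
      obtain ⟨x, hx, rfl⟩ := hVmem c hc.1
      show Ideal.Quotient.mk J' (a : A) * Ideal.Quotient.mk J' x ∈
        ((V.filter (fun c => nm c = ((u ^ i : (ZMod N)ˣ) : ZMod N) * r) : Finset (A ⧸ J')) :
          Set (A ⧸ J'))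
      rw [Finset.mem_coe, Finset.mem_filter, ← map_mul]
      refine ⟨hVin _ (J.mul_mem_left _ hx), ?_⟩
      have h1 := hc.2
      rw [hnm] at h1 ⊢
      rw [hmul, h1, ha, Units.val_pow_eq_pow_val]
    · intro c hc c' hc' heq
      rw [Finset.mem_coe, Finset.mem_filter] at hc hc'
      obtain ⟨x, hx, rfl⟩ := hVmem c hc.1
      obtain ⟨x', hx', rfl⟩ := hVmem c' hc'.1
      have h1 : Ideal.Quotient.mk J' (a : A) * Ideal.Quotient.mk J' x =
        Ideal.Quotient.mk J' (a : A) * Ideal.Quotient.mk J' x' := heq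
      have h2 : ∀ y ∈ J, Ideal.Quotient.mk J' (a' : A) * (Ideal.Quotient.mk J' (a : A) *
          Ideal.Quotient.mk J' y) = Ideal.Quotient.mk J' y := by
        intro y hy
        rw [← mul_assoc, ← map_mul, ← map_mul, ht', Ideal.Quotient.eq]
        have h3 : (1 + (N : A) * ((t : ℤ) : A)) * y - y =
          (N : A) * (((t : ℤ) : A) * y) := by ring
        rw [h3]
        exact hNJ _ (J.mul_mem_left _ hy)
      rw [← h2 x hx, ← h2 x' hx', h1]
  -- the number of classes with a given norm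
  have hMbd : ∀ r : (ZMod N)ˣ, M (r : ZMod N) * N.totient ≤ i ^ N.primeFactors.card * N ^ i := by
    intro r
    obtain ⟨P, hP⟩ : ∃ P : Finset (ZMod N)ˣ,
      P = ((univ : Finset (ZMod N)ˣ).image (fun u => u ^ i)) := ⟨_, rfl⟩
    have h1 : P.card * M (r : ZMod N) ≤ N ^ i := by
      have h2 : ∑ p ∈ P, M ((p : ZMod N) * (r : ZMod N)) ≤ V.card := by
        have h3 : ∑ p ∈ P, M ((p : ZMod N) * (r : ZMod N)) =
            (P.biUnion (fun p => V.filter (fun c => nm c = (p : ZMod N) * (r : ZMod N)))).card := by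
          rw [Finset.card_biUnion, hMdef]
          intro p _ p' _ hpp
          rw [Function.onFun, Finset.disjoint_left]
          intro c hc hc'
          rw [Finset.mem_filter] at hc hc'
          apply hpp
          have h4 : (p : ZMod N) * (r : ZMod N) = (p' : ZMod N) * (r : ZMod N) :=
            hc.2.symm.trans hc'.2
          exact Units.ext ((Units.mul_left_inj r).1 h4)
        rw [h3]
        refine Finset.card_le_card ?_
        intro c hc
        rw [Finset.mem_biUnion] at hc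
        obtain ⟨p, _, hc⟩ := hc
        exact (Finset.mem_filter.1 hc).1
      have h5 : P.card * M (r : ZMod N) ≤ ∑ p ∈ P, M ((p : ZMod N) * (r : ZMod N)) := by
        rw [← smul_eq_mul]
        refine Finset.card_nsmul_le_sum _ _ _ fun p hp => ?_
        rw [hP, Finset.mem_image] at hp
        obtain ⟨u, _, rfl⟩ := hp
        exact hMle u r
      exact h5.trans (h2.trans hVcard)
    have h6 := ipow N i hN hi1
    have h6' : N.totient ≤ i ^ N.primeFactors.card * P.card := by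
      rw [hP]
      exact h6
    calc M (r : ZMod N) * N.totient ≤ M (r : ZMod N) * (i ^ N.primeFactors.card * P.card) :=
          Nat.mul_le_mul_left _ h6'
      _ = i ^ N.primeFactors.card * (P.card * M (r : ZMod N)) := by ring
      _ ≤ i ^ N.primeFactors.card * N ^ i := Nat.mul_le_mul_left _ h1
  -- the norm of an element of `S`
  have hScard : S.card * Fintype.card (A ⧸ J') ≤
      (M (r : ZMod N) + M ((-r : (ZMod N)ˣ) : ZMod N)) * K := by
    obtain ⟨W, hW⟩ : ∃ W : Finset (A ⧸ J'), W = V.filter (fun c => nm c = (r : ZMod N)) ∪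
      V.filter (fun c => nm c = ((-r : (ZMod N)ˣ) : ZMod N)) := ⟨_, rfl⟩
    have h1 : S.card = ∑ c ∈ W, (S.filter (fun β => Ideal.Quotient.mk J' β = c)).card := by
      refine Finset.card_eq_sum_card_fiberwise ?_
      intro β hβ
      have hβJ := hVin β (hSJ β hβ)
      show Ideal.Quotient.mk J' β ∈ (W : Set (A ⧸ J'))
      rw [Finset.mem_coe, hW, Finset.mem_union, Finset.mem_filter, Finset.mem_filter, hnm]
      rcases hSn β hβ with h | h
      · exact Or.inl ⟨hβJ, h⟩
      · exact Or.inr ⟨hβJ, h⟩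
    rw [h1, Finset.sum_mul]
    refine (Finset.sum_le_card_nsmul _ _ _ (fun c _ => hcls _ (Finset.filter_subset _ _) ?_)).trans
      ?_
    · intro x hx y hy
      rw [Finset.mem_filter] at hx hy
      exact Ideal.Quotient.eq.1 (hx.2.trans hy.2.symm)
    · rw [smul_eq_mul]
      refine Nat.mul_le_mul_right _ ?_
      rw [hW, hMdef]
      exact Finset.card_union_le _ _
  -- conclusion
  have hfinal : N ^ i * (S.card * Fintype.card (A ⧸ J) * N.totient) ≤
      N ^ i * (2 * i ^ N.primeFactors.card * K) := by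
    calc N ^ i * (S.card * Fintype.card (A ⧸ J) * N.totient)
        = (S.card * Fintype.card (A ⧸ J')) * N.totient := by rw [hcard]; ring
      _ ≤ ((M (r : ZMod N) + M ((-r : (ZMod N)ˣ) : ZMod N)) * K) * N.totient :=
          Nat.mul_le_mul_right _ hScard
      _ = (M (r : ZMod N) * N.totient + M ((-r : (ZMod N)ˣ) : ZMod N) * N.totient) * K := by ring
      _ ≤ (i ^ N.primeFactors.card * N ^ i + i ^ N.primeFactors.card * N ^ i) * K :=
          Nat.mul_le_mul_right _ (Nat.add_le_add (hMbd r) (hMbd (-r)))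
      _ = N ^ i * (2 * i ^ N.primeFactors.card * K) := by ring
  exact Nat.le_of_mul_le_mul_left hfinal (Nat.pos_of_ne_zero (pow_ne_zero _ (NeZero.ne N)))

theorem norm_class {L : Type} [Field L] [NumberField L] {ι : Type} [Fintype ι]
    (b : Module.Basis ι ℤ (𝓞 L)) (J : Ideal (𝓞 L)) (hJ : J ≠ ⊥) (N m ν : ℕ) (hN0 : N ≠ 0)
    (hN : Squarefree N) (hν : ν.Coprime N)
    (hm : N ^ Fintype.card ι * Ideal.absNorm J ≤ m) (S : Finset (𝓞 L))
    (hS : ∀ β ∈ S, β ∈ J ∧ (∀ k, |b.repr β k| ≤ (m : ℤ)) ∧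
      Ideal.absNorm (Ideal.span {β}) ≡ ν [MOD N]) :
    S.card * Ideal.absNorm J * N.totient ≤
      2 * Fintype.card ι ^ N.primeFactors.card * (5 * m) ^ Fintype.card ι := by
  classical
  haveI : NeZero N := ⟨hN0⟩
  obtain ⟨i, hi⟩ : ∃ i : ℕ, i = Fintype.card ι := ⟨_, rfl⟩
  have hi1 : 1 ≤ i := by
    rw [hi, card_eq_finrank b]
    exact Module.finrank_pos
  rw [← hi] at hm ⊢
  have hNspan : Ideal.span {(N : 𝓞 L)} ≠ ⊥ := by
    rw [Ne, Ideal.span_singleton_eq_bot]
    exact Nat.cast_ne_zero.2 hN0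
  obtain ⟨hJ'J, hJ'N, hNJ⟩ := QC2_ideal (N : 𝓞 L) J
  -- the ideal `J' = N J`
  obtain ⟨J', hJ'def⟩ : ∃ J' : Ideal (𝓞 L), J' = Ideal.span {(N : 𝓞 L)} * J := ⟨_, rfl⟩
  rw [← hJ'def] at hJ'J hJ'N hNJ
  have hJ'0 : J' ≠ ⊥ := by
    rw [hJ'def]
    exact fun h => (Ideal.mul_eq_bot.1 h).elim hNspan hJ
  have hnJ' : Ideal.absNorm J' = N ^ i * Ideal.absNorm J := by
    rw [hJ'def, map_mul, Ideal.absNorm_span_singleton, QC2_norm_nat b, Int.natAbs_pow,
      Int.natAbs_natCast, hi]
  haveI hfin : Finite (𝓞 L ⧸ J) := Ideal.finiteQuotientOfFreeOfNeBot J hJ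
  haveI := Fintype.ofFinite (𝓞 L ⧸ J)
  haveI hfin' : Finite (𝓞 L ⧸ J') := Ideal.finiteQuotientOfFreeOfNeBot J' hJ'0
  haveI := Fintype.ofFinite (𝓞 L ⧸ J')
  have hcard : Fintype.card (𝓞 L ⧸ J) = Ideal.absNorm J := by
    rw [← Nat.card_eq_fintype_card, Ideal.absNorm_apply, Submodule.cardQuot_apply]
  have hcard' : Fintype.card (𝓞 L ⧸ J') = Ideal.absNorm J' := by
    rw [← Nat.card_eq_fintype_card, Ideal.absNorm_apply, Submodule.cardQuot_apply]
  -- the number of elements of `S` in a class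
  have hcls : ∀ T ⊆ S, (∀ x ∈ T, ∀ y ∈ T, x - y ∈ J') →
      T.card * Fintype.card (𝓞 L ⧸ J') ≤ (5 * m) ^ i := by
    intro T hT hTJ
    rw [hcard']
    rcases T.eq_empty_or_nonempty with h0 | ⟨β0, hβ0⟩
    · rw [h0, Finset.card_empty, zero_mul]
      exact Nat.zero_le _
    · have h1 := lat_count b J' hJ'0 (2 * m) (T.image (fun β => β - β0)) (by
          intro z hz
          obtain ⟨β, hβ, rfl⟩ := Finset.mem_image.1 hz
          refine ⟨hTJ β hβ β0 hβ0, fun k => ?_⟩
          have h2 := (hS β (hT hβ)).2.1 k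
          have h3 := (hS β0 (hT hβ0)).2.1 k
          rw [map_sub, Finsupp.sub_apply]
          refine (abs_sub _ _).trans ?_
          push_cast
          linarith)
      rw [Finset.card_image_of_injective _ (fun x y h => sub_left_injective h), ← hi] at h1
      refine h1.trans (Nat.pow_le_pow_left ?_ _)
      rw [hnJ']
      omega
  have hunit : IsUnit ((ν : ℕ) : ZMod N) := (ZMod.isUnit_iff_coprime ν N).2 hν
  obtain ⟨r, hr⟩ := hunit
  rw [← hcard]
  refine QC2_gen J J' hJ'J N i hN hi1 (fun x => ((Algebra.norm ℤ x : ℤ) : ZMod N)) ?_ ?_ hNJ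
    (by rw [hcard, hcard', hnJ']) ((5 * m) ^ i) S (fun β hβ => (hS β hβ).1) hcls r ?_
  · intro x y hxy
    obtain ⟨t, ht⟩ := hJ'N _ hxy
    exact QC2_norm_congr b N x y t (by rw [← ht]; ring)
  · intro a x
    show ((Algebra.norm ℤ ((a : 𝓞 L) * x) : ℤ) : ZMod N) = _
    rw [map_mul, Int.cast_mul, QC2_norm_nat b, ← hi, Int.cast_pow, Int.cast_natCast]
  · intro β hβ
    have h1 := (hS β hβ).2.2
    rw [Ideal.absNorm_span_singleton, ← ZMod.natCast_eq_natCast_iff] at h1
    show ((Algebra.norm ℤ β : ℤ) : ZMod N) = _ ∨ ((Algebra.norm ℤ β : ℤ) : ZMod N) = _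
    rcases Int.natAbs_eq (Algebra.norm ℤ β) with h2 | h2
    · left
      rw [h2, Int.cast_natCast, h1, hr]
    · right
      rw [h2, Int.cast_neg, Int.cast_natCast, h1, Units.val_neg, hr]

end Pool.Agent.Lib.MP_79499b_co.QZ
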