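import Pool.Agent.Lib.MP_79499b_co.DZ.NSum

/-!
# QC3: the sum of 1/N(I) over ideals with norm divisible by `N`

`ideal_sum_dvd`: for `N` squarefree, `i = [L : ℚ]`: `∑ 1/N(I) ≤ i^ω(N) (1 + log T)^i / N` over a finite set of nonzero ideals
with `N(I) ≤ T` and `N ∣ N(I)`.

Proof. As in NSum.lean (`ideal_sum`; use or copy its lemmas): there is an injection `I ↦ (m_k(I))_{k < i}` with
`∏_k m_k(I) = N(I)`, `1 ≤ m_k(I) ≤ T`. Each prime `w ∣ N` divides some `m_k(I)`, so `I` has at least one function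
`f : N.primeFactors → Fin i` with `w ∣ m_{f w}(I)` for all `w`. For a given `f` the sum over the tuples `(m_k)` with
`1 ≤ m_k ≤ T` and `w ∣ m_{f w}` is at most `∏_k (∑_{m ≤ T, d_k ∣ m} 1/m)` with `d_k = ∏_{f w = k} w` (different primes), and
`∑_{m ≤ T, d ∣ m} 1/m ≤ (1/d) (1 + log T)`; `∏_k d_k = N`. There are `i^ω(N)` functions `f`. (If `i = 0` is impossible:
`i ≥ 1`.) It is enough to treat general `N` by induction over the primes or directly as above.
-/

set_option autoImplicit false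

open NumberField

namespace Pool.Agent.Lib.MP_79499b_co.QZ

open Finset DZ

section QC3n

variable {L : Type} [Field L] [NumberField L]

/-- the rational prime below -/
private noncomputable def QC3nPr (P : Ideal (𝓞 L)) : ℕ := Ideal.absNorm (Ideal.under ℤ P)

omit [NumberField L] in
private theorem QC3n_lies (P : Ideal (𝓞 L)) : P.LiesOver (Ideal.span {(QC3nPr P : ℤ)}) :=
  ⟨Int.ideal_span_absNorm_eq_self _⟩

omit [NumberField L] in
private theorem QC3n_prime (P : Ideal (𝓞 L)) (hP : P.IsPrime) (h0 : P ≠ ⊥) :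
    (QC3nPr P).Prime := by
  have : NeZero P := ⟨h0⟩
  exact Nat.absNorm_under_prime P

private theorem QC3n_norm (P : Ideal (𝓞 L)) (hP : P.IsPrime) (h0 : P ≠ ⊥) :
    ∃ f : ℕ, f ≠ 0 ∧ Ideal.absNorm P = QC3nPr P ^ f := by
  have := QC3n_lies P
  have h := Ideal.absNorm_eq_pow_inertiaDeg' P (QC3n_prime P hP h0)
  refine ⟨_, ?_, h⟩
  intro hf
  rw [hf, pow_zero, Ideal.absNorm_eq_one_iff] at h
  exact hP.ne_top h

private theorem QC3n_idx : ∃ idx : Ideal (𝓞 L) → Fin (Module.finrank ℚ L),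
    ∀ P Q : Ideal (𝓞 L), P.IsPrime → P ≠ ⊥ → Q.IsPrime → Q ≠ ⊥ → QC3nPr P = QC3nPr Q →
      idx P = idx Q → P = Q := by
  classical
  have hpos : 0 < Module.finrank ℚ L := Module.finrank_pos
  have h : ∀ p : ℕ, ∃ f : Ideal (𝓞 L) → Fin (Module.finrank ℚ L), p.Prime →
      ∀ P Q : Ideal (𝓞 L), P.IsPrime → P ≠ ⊥ → Q.IsPrime → Q ≠ ⊥ → QC3nPr P = p →
      QC3nPr Q = p → f P = f Q → P = Q := by
    intro p
    by_cases hp : p.Prime
    · have hp0 : (Ideal.span {(p : ℤ)}) ≠ ⊥ := by
        rw [Ne, Ideal.span_singleton_eq_bot]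
        exact_mod_cast hp.ne_zero
      have : (Ideal.span {(p : ℤ)}).IsPrime := by
        rw [Ideal.span_singleton_prime (by exact_mod_cast hp.ne_zero)]
        exact Nat.prime_iff_prime_int.mp hp
      have : (Ideal.span {(p : ℤ)}).IsMaximal := Ideal.IsPrime.isMaximal this hp0
      set s := IsDedekindDomain.primesOverFinset (Ideal.span {(p : ℤ)}) (𝓞 L) with hs
      have hmem : ∀ P : Ideal (𝓞 L), P.IsPrime → QC3nPr P = p → P ∈ s := by
        intro P hP hPp
        rw [hs, IsDedekindDomain.mem_primesOverFinset_iff hp0]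
        refine ⟨hP, ?_⟩
        have := QC3n_lies P
        rwa [hPp] at this
      have hcard : s.card ≤ Module.finrank ℚ L := by
        rw [Finset.card_eq_sum_ones, ← Ideal.sum_ramification_inertia (𝓞 L) ℚ L hp0]
        refine Finset.sum_le_sum fun P hP => ?_
        have hP' := (IsDedekindDomain.mem_primesOverFinset_iff hp0 _).mp hP
        have : P.IsPrime := hP'.1
        have : P.LiesOver (Ideal.span {(p : ℤ)}) := hP'.2
        refine Right.one_le_mul ?_ ?_
        · exact Nat.pos_iff_ne_zero.mpr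
            (Ideal.IsDedekindDomain.ramificationIdx'_ne_zero_of_liesOver _ hp0)
        · exact Nat.pos_iff_ne_zero.mpr (Ideal.inertiaDeg'_ne_zero _ P)
      obtain ⟨e⟩ : Nonempty (s ↪ Fin (Module.finrank ℚ L)) := by
        apply Function.Embedding.nonempty_of_card_le
        rw [Fintype.card_coe, Fintype.card_fin]
        exact hcard
      refine ⟨fun P => if hP : P ∈ s then e ⟨P, hP⟩ else ⟨0, hpos⟩, fun _ P Q hP _ hQ _ hPp hQp h => ?_⟩
      simp only [dif_pos (hmem P hP hPp), dif_pos (hmem Q hQ hQp)] at h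
      exact congrArg Subtype.val (e.injective h)
    · exact ⟨fun _ => ⟨0, hpos⟩, fun h => absurd h hp⟩
  choose f hf using h
  refine ⟨fun P => f (QC3nPr P) P, fun P Q hP hP0 hQ hQ0 hPQ h => ?_⟩
  refine hf (QC3nPr Q) (QC3n_prime Q hQ hQ0) P Q hP hP0 hQ hQ0 hPQ rfl ?_
  simp only [hPQ] at h
  exact h

/-- the part of index `k` of the norm -/
private noncomputable def QC3nM {i : ℕ} (idx : Ideal (𝓞 L) → Fin i) (s : Multiset (Ideal (𝓞 L)))
    (k : Fin i) : ℕ :=
  ((s.filter fun P => idx P = k).map Ideal.absNorm).prod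

private theorem QC3n_cons {i : ℕ} (idx : Ideal (𝓞 L) → Fin i) (s : Multiset (Ideal (𝓞 L)))
    (a : Ideal (𝓞 L)) (k : Fin i) :
    QC3nM idx (a ::ₘ s) k = (if idx a = k then Ideal.absNorm a else 1) * QC3nM idx s k := by
  unfold QC3nM
  split_ifs with h
  · rw [Multiset.filter_cons_of_pos (p := fun P => idx P = k) s h, Multiset.map_cons,
      Multiset.prod_cons]
  · rw [Multiset.filter_cons_of_neg (p := fun P => idx P = k) s h, one_mul]

private theorem QC3n_prod {i : ℕ} (idx : Ideal (𝓞 L) → Fin i) (s : Multiset (Ideal (𝓞 L))) :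
    ∏ k, QC3nM idx s k = (s.map Ideal.absNorm).prod := by
  induction s using Multiset.induction_on with
  | empty => simp [QC3nM]
  | cons a s ih =>
    simp only [QC3n_cons]
    rw [Finset.prod_mul_distrib, ih, Multiset.map_cons, Multiset.prod_cons]
    simp

private theorem QC3n_pos {i : ℕ} (idx : Ideal (𝓞 L) → Fin i) (s : Multiset (Ideal (𝓞 L)))
    (hs : ∀ P ∈ s, P ≠ ⊥) (k : Fin i) : QC3nM idx s k ≠ 0 := by
  unfold QC3nM
  intro h
  rw [Multiset.prod_eq_zero_iff, Multiset.mem_map] at h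
  obtain ⟨P, hP, h0⟩ := h
  exact hs P (Multiset.mem_of_mem_filter hP) (Ideal.absNorm_eq_zero_iff.mp h0)

private theorem QC3n_fact {i : ℕ} (idx : Ideal (𝓞 L) → Fin i)
    (hidx : ∀ P Q : Ideal (𝓞 L), P.IsPrime → P ≠ ⊥ → Q.IsPrime → Q ≠ ⊥ →
      QC3nPr P = QC3nPr Q → idx P = idx Q → P = Q)
    (P : Ideal (𝓞 L)) (hP : P.IsPrime) (hP0 : P ≠ ⊥) (f : ℕ)
    (hf : Ideal.absNorm P = QC3nPr P ^ f) (s : Multiset (Ideal (𝓞 L)))
    (hs : ∀ Q ∈ s, Q.IsPrime ∧ Q ≠ ⊥) :
    (QC3nM idx s (idx P)).factorization (QC3nPr P) = f * s.count P := by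
  classical
  induction s using Multiset.induction_on with
  | empty => simp [QC3nM]
  | cons a s ih =>
    have hs' : ∀ Q ∈ s, Q.IsPrime ∧ Q ≠ ⊥ := fun Q hQ => hs Q (Multiset.mem_cons_of_mem hQ)
    obtain ⟨ha, ha0⟩ := hs a (Multiset.mem_cons_self a s)
    have ih' := ih hs'
    rw [QC3n_cons]
    have h1 : (if idx a = idx P then Ideal.absNorm a else 1) ≠ 0 := by
      split_ifs
      · exact Ideal.absNorm_eq_zero_iff.not.mpr ha0
      · exact one_ne_zero
    rw [Nat.factorization_mul h1 (QC3n_pos idx s (fun Q hQ => (hs' Q hQ).2) _), Finsupp.add_apply,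
      ih', Multiset.count_cons]
    have hp := QC3n_prime P hP hP0
    by_cases hPa : P = a
    · subst hPa
      rw [if_pos rfl, if_pos rfl, hf, Nat.factorization_pow, Finsupp.smul_apply,
        hp.factorization_self]
      simp
      ring
    · rw [if_neg hPa, add_zero]
      split_ifs with h
      · obtain ⟨g, -, hg⟩ := QC3n_norm a ha ha0
        have hne : QC3nPr a ≠ QC3nPr P := fun h2 => hPa (hidx P a hP hP0 ha ha0 h2.symm h.symm)
        rw [hg, Nat.factorization_pow, Finsupp.smul_apply,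
          Nat.factorization_eq_zero_of_not_dvd, smul_zero, zero_add]
        intro hd
        exact hne ((Nat.prime_dvd_prime_iff_eq hp (QC3n_prime a ha ha0)).mp hd).symm
      · simp

end QC3n

private theorem QC3_inj (L : Type) [Field L] [NumberField L] :
    ∃ m : Ideal (𝓞 L) → Fin (Module.finrank ℚ L) → ℕ,
      (∀ I, I ≠ ⊥ → ∏ k, m I k = Ideal.absNorm I) ∧
      ∀ I J, I ≠ ⊥ → J ≠ ⊥ → m I = m J → I = J := by
  classical
  obtain ⟨idx, hidx⟩ := QC3n_idx (L := L)
  have hfac : ∀ I : Ideal (𝓞 L), ∀ Q ∈ UniqueFactorizationMonoid.normalizedFactors I,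
      Q.IsPrime ∧ Q ≠ ⊥ := by
    intro I Q hQ
    have h := UniqueFactorizationMonoid.prime_of_normalized_factor Q hQ
    exact ⟨Ideal.isPrime_of_prime h, h.ne_zero⟩
  refine ⟨fun I => QC3nM idx (UniqueFactorizationMonoid.normalizedFactors I), ?_, ?_⟩
  · intro I hI
    show ∏ k, QC3nM idx (UniqueFactorizationMonoid.normalizedFactors I) k = Ideal.absNorm I
    rw [QC3n_prod, ← map_multiset_prod]
    congr 1
    exact Ideal.prod_normalizedFactors_eq_self hI
  · intro I J hI hJ h
    have hms : UniqueFactorizationMonoid.normalizedFactors I =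
        UniqueFactorizationMonoid.normalizedFactors J := by
      refine Multiset.ext.mpr fun P => ?_
      by_cases hP : P.IsPrime ∧ P ≠ ⊥
      · obtain ⟨f, hf0, hf⟩ := QC3n_norm P hP.1 hP.2
        have h1 := QC3n_fact idx hidx P hP.1 hP.2 f hf _ (hfac I)
        have h2 := QC3n_fact idx hidx P hP.1 hP.2 f hf _ (hfac J)
        have h3 : QC3nM idx (UniqueFactorizationMonoid.normalizedFactors I) (idx P) =
            QC3nM idx (UniqueFactorizationMonoid.normalizedFactors J) (idx P) :=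
          congrFun h (idx P)
        rw [h3, h2] at h1
        exact (Nat.eq_of_mul_eq_mul_left (Nat.pos_of_ne_zero hf0) h1).symm
      · rw [Multiset.count_eq_zero_of_notMem, Multiset.count_eq_zero_of_notMem]
        · exact fun h' => hP (hfac J P h')
        · exact fun h' => hP (hfac I P h')
    rw [← Ideal.prod_normalizedFactors_eq_self hI, ← Ideal.prod_normalizedFactors_eq_self hJ]
    exact congrArg Multiset.prod hms

private theorem QC3_dsum (T d : ℕ) (hd : 1 ≤ d) :
    ∑ m ∈ (Finset.Icc 1 T).filter (fun m => d ∣ m), (1 / ((m : ℕ) : ℝ)) ≤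
      1 / (d : ℝ) * (1 + Real.log T) := by
  classical
  have hdr : (0 : ℝ) < d := by exact_mod_cast hd
  have h1 : (Finset.Icc 1 T).filter (fun m => d ∣ m) ⊆
      (Finset.Icc 1 T).image (fun x => d * x) := by
    intro m hm
    rw [mem_filter, mem_Icc] at hm
    obtain ⟨⟨h1, h2⟩, x, rfl⟩ := hm
    rw [mem_image]
    refine ⟨x, ?_, rfl⟩
    rw [mem_Icc]
    constructor
    · rcases Nat.eq_zero_or_pos x with h | h
      · rw [h, Nat.mul_zero] at h1
        omega
      · exact h
    · exact (Nat.le_mul_of_pos_left x hd).trans h2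
  have h2 : ∑ m ∈ (Finset.Icc 1 T).image (fun x => d * x), (1 / ((m : ℕ) : ℝ)) =
      1 / (d : ℝ) * ∑ x ∈ Finset.Icc 1 T, (1 / ((x : ℕ) : ℝ)) := by
    rw [Finset.sum_image (fun x _ y _ h => Nat.eq_of_mul_eq_mul_left hd h), Finset.mul_sum]
    refine Finset.sum_congr rfl fun x _ => ?_
    push_cast
    rw [one_div_mul_one_div]
  have h3 : ∑ m ∈ Finset.Icc 1 T, (1 / ((m : ℕ) : ℝ)) ≤ 1 + Real.log T := by
    have h := harmonic_le_one_add_log T
    rw [harmonic_eq_sum_Icc] at h
    push_cast at h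
    simpa only [one_div] using h
  refine (Finset.sum_le_sum_of_subset_of_nonneg h1 fun m _ _ => by positivity).trans ?_
  rw [h2]
  exact mul_le_mul_of_nonneg_left h3 (by positivity)

theorem ideal_sum_dvd (L : Type) [Field L] [NumberField L] (T N : ℕ) (hT : 1 ≤ T)
    (hN : Squarefree N) (S : Finset (Ideal (𝓞 L)))
    (hS : ∀ I ∈ S, I ≠ ⊥ ∧ Ideal.absNorm I ≤ T ∧ N ∣ Ideal.absNorm I) :
    ∑ I ∈ S, (1 / ((Ideal.absNorm I : ℕ) : ℝ)) ≤
      (Module.finrank ℚ L : ℝ) ^ N.primeFactors.card *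
        (1 + Real.log T) ^ Module.finrank ℚ L / N := by
  classical
  obtain ⟨m, hm1, hm2⟩ := QC3_inj L
  have hpos : 0 < Module.finrank ℚ L := Module.finrank_pos
  haveI : Nonempty (Fin (Module.finrank ℚ L)) := ⟨⟨0, hpos⟩⟩
  have hf0 : ∀ I ∈ S, ∃ f : N.primeFactors → Fin (Module.finrank ℚ L),
      ∀ p : N.primeFactors, (p : ℕ) ∣ m I (f p) := by
    intro I hI
    have h1 : ∀ p : N.primeFactors, ∃ k, (p : ℕ) ∣ m I k := by
      intro p
      have hp := Nat.prime_of_mem_primeFactors p.2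
      have h2 : (p : ℕ) ∣ ∏ k, m I k := by
        rw [hm1 I (hS I hI).1]
        exact (Nat.dvd_of_mem_primeFactors p.2).trans (hS I hI).2.2
      obtain ⟨k, -, hk⟩ := (Prime.dvd_finset_prod_iff hp.prime _).1 h2
      exact ⟨k, hk⟩
    choose f hf using h1
    exact ⟨f, hf⟩
  choose! f hf using hf0
  have hN0 : N ≠ 0 := hN.ne_zero
  have hNr : (0 : ℝ) < N := by exact_mod_cast Nat.pos_of_ne_zero hN0
  have hlog : 0 ≤ 1 + Real.log T := by
    have := Real.log_nonneg (x := (T : ℝ)) (by exact_mod_cast hT)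
    linarith
  have key : ∀ f0 : N.primeFactors → Fin (Module.finrank ℚ L),
      ∑ I ∈ S with f I = f0, (1 / ((Ideal.absNorm I : ℕ) : ℝ)) ≤
        (1 + Real.log T) ^ Module.finrank ℚ L / N := by
    intro f0
    set d : Fin (Module.finrank ℚ L) → ℕ := fun k =>
      ∏ p ∈ (univ : Finset N.primeFactors).filter (fun p => f0 p = k), (p : ℕ) with hd
    have hd1 : ∀ k, 1 ≤ d k := by
      intro k
      exact Nat.one_le_iff_ne_zero.2 (Finset.prod_ne_zero_iff.2 fun p _ =>
        (Nat.prime_of_mem_primeFactors p.2).ne_zero)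
    have hdN : ∏ k, d k = N := by
      rw [hd]
      show ∏ k, ∏ p ∈ (univ : Finset N.primeFactors).filter (fun p => f0 p = k), (p : ℕ) = N
      rw [Finset.prod_fiberwise, Finset.prod_coe_sort N.primeFactors (fun p => p)]
      exact Nat.prod_primeFactors_of_squarefree hN
    have hinj : Set.InjOn m ((S.filter (fun I => f I = f0) : Finset _) : Set (Ideal (𝓞 L))) := by
      intro I hI J hJ h
      rw [mem_coe, mem_filter] at hI hJ
      exact hm2 I J (hS I hI.1).1 (hS J hJ.1).1 h
    have e1 : ∑ I ∈ S with f I = f0, (1 / ((Ideal.absNorm I : ℕ) : ℝ)) =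
        ∑ t ∈ (S.filter (fun I => f I = f0)).image m, ∏ k, (1 / ((t k : ℕ) : ℝ)) := by
      rw [Finset.sum_image hinj]
      refine Finset.sum_congr rfl fun I hI => ?_
      rw [← hm1 I (hS I (mem_filter.1 hI).1).1]
      push_cast
      simp [Finset.prod_inv_distrib]
    have e3 : ∑ t ∈ (S.filter (fun I => f I = f0)).image m, ∏ k, (1 / ((t k : ℕ) : ℝ)) ≤
        ∑ t ∈ Fintype.piFinset (fun k : Fin (Module.finrank ℚ L) =>
          (Finset.Icc 1 T).filter (fun x => d k ∣ x)), ∏ k, (1 / ((t k : ℕ) : ℝ)) := by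
      apply Finset.sum_le_sum_of_subset_of_nonneg
      · intro t ht
        obtain ⟨I, hI, rfl⟩ := Finset.mem_image.1 ht
        rw [mem_filter] at hI
        rw [Fintype.mem_piFinset]
        intro k
        have h0 := hS I hI.1
        have hnz : Ideal.absNorm I ≠ 0 := Ideal.absNorm_eq_zero_iff.not.mpr h0.1
        have h1 : m I k ∣ Ideal.absNorm I := by
          rw [← hm1 I h0.1]
          exact Finset.dvd_prod_of_mem _ (Finset.mem_univ k)
        rw [mem_filter, mem_Icc]
        refine ⟨⟨Nat.pos_of_dvd_of_pos h1 (Nat.pos_of_ne_zero hnz), ?_⟩, ?_⟩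
        · exact (Nat.le_of_dvd (Nat.pos_of_ne_zero hnz) h1).trans h0.2.1
        · rw [hd]
          show ∏ p ∈ (univ : Finset N.primeFactors).filter (fun p => f0 p = k), (p : ℕ) ∣ m I k
          refine Finset.prod_dvd_of_isRelPrime ?_ ?_
          · intro p _ q _ hpq
            have hp' := Nat.prime_of_mem_primeFactors p.2
            have hq' := Nat.prime_of_mem_primeFactors q.2
            exact Nat.coprime_iff_isRelPrime.1
              ((Nat.coprime_primes hp' hq').2 fun h => hpq (Subtype.ext h))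
          · intro p hp
            have h2 := hf I hI.1 p
            rw [hI.2, (mem_filter.1 hp).2] at h2
            exact h2
      · intro t _ _
        exact Finset.prod_nonneg fun k _ => by positivity
    have e4 : ∑ t ∈ Fintype.piFinset (fun k : Fin (Module.finrank ℚ L) =>
          (Finset.Icc 1 T).filter (fun x => d k ∣ x)), ∏ k, (1 / ((t k : ℕ) : ℝ)) =
        ∏ k : Fin (Module.finrank ℚ L),
          ∑ x ∈ (Finset.Icc 1 T).filter (fun x => d k ∣ x), (1 / ((x : ℕ) : ℝ)) := by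
      rw [Finset.prod_univ_sum]
    rw [e1]
    refine e3.trans ?_
    rw [e4]
    refine (Finset.prod_le_prod (fun k _ => Finset.sum_nonneg fun x _ => by positivity)
      (fun k _ => QC3_dsum T (d k) (hd1 k))).trans ?_
    rw [Finset.prod_mul_distrib, Finset.prod_const, Finset.card_univ, Fintype.card_fin]
    have e5 : ∏ k, (1 / ((d k : ℕ) : ℝ)) = 1 / (N : ℝ) := by
      rw [Finset.prod_div_distrib, Finset.prod_const_one, ← Nat.cast_prod, hdN]
    rw [e5]
    apply le_of_eq
    ring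
  rw [← Finset.sum_fiberwise S f]
  refine (Finset.sum_le_sum fun f0 _ => key f0).trans ?_
  rw [Finset.sum_const, Finset.card_univ, Fintype.card_fun, Fintype.card_fin, Fintype.card_coe,
    nsmul_eq_mul]
  push_cast
  apply le_of_eq
  ring

end Pool.Agent.Lib.MP_79499b_co.QZ
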