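import Pool.Agent.Lib.MP_79499b_co.DZ.NEv
import Pool.Agent.Lib.MP_79499b_co.QZ.QC2
import Pool.Agent.Lib.MP_79499b_co.QZ.QC3

/-!
# QC4: the counting inequality for primes in one residue class modulo `w1 w2`

Statement: setting of `ev_count` (NEv.lean) with `j = 1`; all `p ∈ R` are `≡ ρ mod w1 w2`, `w1 ≠ w2` primes not dividing `ρ`,
`Q < w1, w2`, and `((w1 w2)^i T Q + 1)^i ≤ 2Y`, `i = [L : ℚ]`. Then
`|R| |𝒬| (w1 - 1) (w2 - 1) ≤ 32 5^i i^2 Y (1 + log T)^i`.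

Proof (modify NEv.lean). For `p ∈ R`, `q ∈ 𝒬` let `N_{p,q} = p q ≤ 2 Y Q`, `m_{p,q}` the integer `i`-th root of `p q`, `m` that of `2 Y Q`;
`box_ideal` gives `0 ≠ β_{p,q} ∈ 𝔭 p 𝔮_q` with coordinates `≤ m_{p,q} ≤ m`, `(β_{p,q}) = C_{p,q} 𝔭 p 𝔮_q`, `N(C) ≤ (i B0)^i ≤ T`
as in NEv. Label `C`. By `label_unique` (`S = {p}`, `S' = {p'}`) the pairs with label `C` have one and the same `q = q_C`.
Fix a label `C`; let `N` be the product of those `w ∈ {w1, w2}` which do not divide `N(C)`. For the pairs `(p, q_C)` of this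
label `N((β)) = N(C) p q ≡ N(C) ρ q mod N`, a unit modulo `N` (`q ≤ Q < w_k` prime, so `w_k ∤ q`). The `β` are different for
different `p` (`β` determines `𝔭 p = (β)/(C 𝔮)`, whose norm is `p`), lie in `J = C 𝔮`, `N(J) = N(C) q ≤ T Q`, coordinates `≤ m`,
and `N^i N(J) ≤ (w1 w2)^i T Q ≤ m` because `(m + 1)^i > 2 Y Q ≥ 2Y ≥ ((w1 w2)^i T Q + 1)^i`. `norm_class` gives: the number `n_C` of
`p` with label `C` satisfies
`n_C N(C) q φ(N) ≤ 2 i^ω(N) (5 m)^i ≤ 2 i^ω(N) 5^i 2 Y Q ≤ 8 i^ω(N) 5^i Y q` (`m^i ≤ 2 Y Q`, `Q < 2 q`), so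
`n_C ≤ 8 5^i Y i^ω(N) / (N(C) φ(N))`.
Group the labels according to the set `w1 w2/N = N'` of the primes `w_k` dividing `N(C)` (4 possibilities):
`∑_{N' ∣ N(C)} 1/N(C) ≤ i^ω(N') (1 + log T)^i/N'` (`ideal_sum_dvd`), `φ(N) N' ≥ (w1 - 1)(w2 - 1)`, `ω(N) + ω(N') = 2`. So
`|R| |𝒬| = ∑_C n_C ≤ 4 · 8 5^i Y i^2 (1 + log T)^i/((w1 - 1)(w2 - 1))`.
-/

set_option autoImplicit false

open NumberField
open scoped Pointwise

namespace Pool.Agent.Lib.MP_79499b_co.QZ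

open Finset DZ

private theorem QC4_root (i N : ℕ) (hi : 1 ≤ i) : ∃ m : ℕ, m ^ i ≤ N ∧ N < (m + 1) ^ i := by
  have h0 : (0 : ℕ) ^ i ≤ N := by
    rw [zero_pow (by omega)]
    exact Nat.zero_le _
  refine ⟨Nat.findGreatest (fun m => m ^ i ≤ N) N,
    Nat.findGreatest_spec (P := fun m => m ^ i ≤ N) (Nat.zero_le N) h0, ?_⟩
  by_contra hcon
  push Not at hcon
  set m := Nat.findGreatest (fun m => m ^ i ≤ N) N with hm
  have h1 : m + 1 ≤ (m + 1) ^ i := Nat.le_self_pow (by omega) _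
  have h2 : m + 1 ≤ Nat.findGreatest (fun m => m ^ i ≤ N) N :=
    Nat.le_findGreatest (h1.trans hcon) hcon
  omega

private theorem QC4_label {L : Type} [Field L] [NumberField L] {ι : Type} [Fintype ι]
    (b : Module.Basis ι ℤ (𝓞 L)) (B0 : ℝ) (hB0 : 0 ≤ B0)
    (hB : ∀ (φ : L →+* ℂ) (k : ι), ‖φ ((b k : 𝓞 L) : L)‖ ≤ B0)
    (T : ℕ) (hT : (Fintype.card ι * B0) ^ Fintype.card ι ≤ T) (hι : 1 ≤ Fintype.card ι)
    (I : Ideal (𝓞 L)) (hI : I ≠ ⊥) (M : ℕ)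
    (hM : Ideal.absNorm I < (M + 1) ^ Fintype.card ι) :
    ∃ (β : 𝓞 L) (C : Ideal (𝓞 L)), C ≠ ⊥ ∧ Ideal.span {β} = C * I ∧ Ideal.absNorm C ≤ T ∧
      ∀ k, |b.repr β k| ≤ (M : ℤ) := by
  obtain ⟨m, hm1, hm2⟩ := QC4_root (Fintype.card ι) (Ideal.absNorm I) hι
  obtain ⟨β, hβI, hβ0, hβ⟩ := box_ideal b I hI m hm2
  have hdvd : I ∣ Ideal.span {β} := by
    rw [Ideal.dvd_iff_le, Ideal.span_singleton_le_iff_mem]
    exact hβI
  obtain ⟨C, hC⟩ := hdvd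
  rw [mul_comm] at hC
  have hmM : m ≤ M := by
    by_contra h
    push Not at h
    have h1 : (M + 1) ^ Fintype.card ι ≤ m ^ Fintype.card ι := Nat.pow_le_pow_left (by omega) _
    omega
  have hspan : Ideal.span {β} ≠ ⊥ := by
    rw [Ne, Ideal.span_singleton_eq_bot]
    exact hβ0
  have hC0 : C ≠ ⊥ := by
    rintro rfl
    apply hspan
    rw [hC, Ideal.bot_mul]
  refine ⟨β, C, hC0, hC, ?_, fun k => (hβ k).trans (by exact_mod_cast hmM)⟩
  have hn := norm_bd b B0 hB β m hβ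
  rw [hC, map_mul] at hn
  have hNI : 0 < Ideal.absNorm I := Nat.pos_of_ne_zero fun h => hI (Ideal.absNorm_eq_zero_iff.1 h)
  have hNI' : (0 : ℝ) < (Ideal.absNorm I : ℝ) := by exact_mod_cast hNI
  have hm1' : (m : ℝ) ^ Fintype.card ι ≤ (Ideal.absNorm I : ℝ) := by exact_mod_cast hm1
  have h2 : ((Fintype.card ι : ℝ) * m * B0) ^ Fintype.card ι =
      (m : ℝ) ^ Fintype.card ι * ((Fintype.card ι : ℝ) * B0) ^ Fintype.card ι := by
    rw [← mul_pow]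
    ring
  have h3 : (m : ℝ) ^ Fintype.card ι * ((Fintype.card ι : ℝ) * B0) ^ Fintype.card ι ≤
      (Ideal.absNorm I : ℝ) * T :=
    mul_le_mul hm1' hT (by positivity) hNI'.le
  rw [h2] at hn
  push_cast at hn
  have h4 : (Ideal.absNorm C : ℝ) * (Ideal.absNorm I : ℝ) ≤ T * (Ideal.absNorm I : ℝ) := by
    linarith
  have h5 := le_of_mul_le_mul_right h4 hNI'
  exact_mod_cast h5

private theorem QC4_mem {A : Type} [CommRing A] (D I J : Ideal A) (β : A)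
    (h : Ideal.span {β} = D * (I * J)) : β ∈ D * J := by
  have e2 : β ∈ Ideal.span {β} := Ideal.mem_span_singleton_self _
  rw [h] at e2
  have h3 : D * (I * J) ≤ D * J := Ideal.mul_mono_right Ideal.mul_le_right
  exact h3 e2

/-- the four possibilities for the divisibility of the norm of the label -/
private theorem QC4_four (w1 w2 i n c : ℕ) (K : ℝ) (hK : 0 ≤ K) (hw1 : w1.Prime) (hw2 : w2.Prime)
    (hne : w1 ≠ w2) (hn : 0 < n)
    (h : ∀ N : ℕ, N ∣ w1 * w2 → N.Coprime n →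
      (c : ℝ) * n * N.totient ≤ K * (i : ℝ) ^ N.primeFactors.card) :
    (c : ℝ) * (((w1 : ℝ) - 1) * ((w2 : ℝ) - 1)) ≤
      K * ((i : ℝ) ^ 2 * (1 / n) + (if w1 ∣ n then (i : ℝ) * w1 * (1 / n) else 0) +
        (if w2 ∣ n then (i : ℝ) * w2 * (1 / n) else 0) +
        (if w1 * w2 ∣ n then ((w1 : ℝ) * w2) * (1 / n) else 0)) := by
  have hcop : w1.Coprime w2 := (Nat.coprime_primes hw1 hw2).2 hne
  have hn' : (0 : ℝ) < n := by exact_mod_cast hn
  have h11 : (1 : ℝ) ≤ w1 := by exact_mod_cast hw1.one_lt.le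
  have h12 : (1 : ℝ) ≤ w2 := by exact_mod_cast hw2.one_lt.le
  have ht1 : ((w1.totient : ℕ) : ℝ) = (w1 : ℝ) - 1 := by
    rw [Nat.totient_prime hw1, Nat.cast_sub hw1.one_lt.le, Nat.cast_one]
  have ht2 : ((w2.totient : ℕ) : ℝ) = (w2 : ℝ) - 1 := by
    rw [Nat.totient_prime hw2, Nat.cast_sub hw2.one_lt.le, Nat.cast_one]
  have hc : (0 : ℝ) ≤ c := Nat.cast_nonneg c
  have hi : (0 : ℝ) ≤ i := Nat.cast_nonneg i
  have e0 : (0 : ℝ) ≤ (i : ℝ) ^ 2 * (1 / n) := by positivity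
  have e1 : (0 : ℝ) ≤ (if w1 ∣ n then (i : ℝ) * w1 * (1 / n) else 0) := by
    split_ifs
    · positivity
    · exact le_refl _
  have e2 : (0 : ℝ) ≤ (if w2 ∣ n then (i : ℝ) * w2 * (1 / n) else 0) := by
    split_ifs
    · positivity
    · exact le_refl _
  have e3 : (0 : ℝ) ≤ (if w1 * w2 ∣ n then ((w1 : ℝ) * w2) * (1 / n) else 0) := by
    split_ifs
    · positivity
    · exact le_refl _
  by_cases d1 : w1 ∣ n
  · by_cases d2 : w2 ∣ n
    · have d3 : w1 * w2 ∣ n := hcop.mul_dvd_of_dvd_of_dvd d1 d2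
      have h1 := h 1 (one_dvd _) (Nat.coprime_one_left _)
      rw [Nat.totient_one, Nat.primeFactors_one, Finset.card_empty, pow_zero, mul_one,
        Nat.cast_one, mul_one] at h1
      have h2 : (c : ℝ) ≤ K * (1 / n) := by
        rw [mul_one_div, le_div_iff₀ hn']
        exact h1
      have h3 : (c : ℝ) * (((w1 : ℝ) - 1) * ((w2 : ℝ) - 1)) ≤
          K * (((w1 : ℝ) * w2) * (1 / n)) := by
        calc (c : ℝ) * (((w1 : ℝ) - 1) * ((w2 : ℝ) - 1)) ≤ (c : ℝ) * ((w1 : ℝ) * w2) := by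
              refine mul_le_mul_of_nonneg_left ?_ hc
              exact mul_le_mul (by linarith) (by linarith) (by linarith) (by linarith)
          _ ≤ (K * (1 / n)) * ((w1 : ℝ) * w2) := mul_le_mul_of_nonneg_right h2 (by positivity)
          _ = K * (((w1 : ℝ) * w2) * (1 / n)) := by ring
      refine h3.trans (mul_le_mul_of_nonneg_left ?_ hK)
      rw [if_pos d3] at e3 ⊢
      linarith
    · have h1 := h w2 (Dvd.intro_left _ rfl) ((Nat.Prime.coprime_iff_not_dvd hw2).2 d2)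
      rw [hw2.primeFactors, Finset.card_singleton, pow_one, ht2] at h1
      have h2 : (c : ℝ) * ((w2 : ℝ) - 1) ≤ K * i * (1 / n) := by
        rw [mul_one_div, le_div_iff₀ hn']
        linarith
      have h3 : (c : ℝ) * (((w1 : ℝ) - 1) * ((w2 : ℝ) - 1)) ≤
          K * ((i : ℝ) * w1 * (1 / n)) := by
        calc (c : ℝ) * (((w1 : ℝ) - 1) * ((w2 : ℝ) - 1))
            = ((w1 : ℝ) - 1) * ((c : ℝ) * ((w2 : ℝ) - 1)) := by ring
          _ ≤ (w1 : ℝ) * ((c : ℝ) * ((w2 : ℝ) - 1)) := by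
              refine mul_le_mul_of_nonneg_right (by linarith) (mul_nonneg hc (by linarith))
          _ ≤ (w1 : ℝ) * (K * i * (1 / n)) := mul_le_mul_of_nonneg_left h2 (by linarith)
          _ = K * ((i : ℝ) * w1 * (1 / n)) := by ring
      refine h3.trans (mul_le_mul_of_nonneg_left ?_ hK)
      rw [if_pos d1] at e1 ⊢
      linarith
  · by_cases d2 : w2 ∣ n
    · have h1 := h w1 (Dvd.intro _ rfl) ((Nat.Prime.coprime_iff_not_dvd hw1).2 d1)
      rw [hw1.primeFactors, Finset.card_singleton, pow_one, ht1] at h1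
      have h2 : (c : ℝ) * ((w1 : ℝ) - 1) ≤ K * i * (1 / n) := by
        rw [mul_one_div, le_div_iff₀ hn']
        linarith
      have h3 : (c : ℝ) * (((w1 : ℝ) - 1) * ((w2 : ℝ) - 1)) ≤
          K * ((i : ℝ) * w2 * (1 / n)) := by
        calc (c : ℝ) * (((w1 : ℝ) - 1) * ((w2 : ℝ) - 1))
            = ((w2 : ℝ) - 1) * ((c : ℝ) * ((w1 : ℝ) - 1)) := by ring
          _ ≤ (w2 : ℝ) * ((c : ℝ) * ((w1 : ℝ) - 1)) := by
              refine mul_le_mul_of_nonneg_right (by linarith) (mul_nonneg hc (by linarith))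
          _ ≤ (w2 : ℝ) * (K * i * (1 / n)) := mul_le_mul_of_nonneg_left h2 (by linarith)
          _ = K * ((i : ℝ) * w2 * (1 / n)) := by ring
      refine h3.trans (mul_le_mul_of_nonneg_left ?_ hK)
      rw [if_pos d2] at e2 ⊢
      linarith
    · have hcn : (w1 * w2).Coprime n := Nat.Coprime.mul_left
        ((Nat.Prime.coprime_iff_not_dvd hw1).2 d1) ((Nat.Prime.coprime_iff_not_dvd hw2).2 d2)
      have h1 := h (w1 * w2) dvd_rfl hcn
      rw [Nat.totient_mul hcop, Nat.cast_mul, ht1, ht2, Nat.primeFactors_mul hw1.ne_zero hw2.ne_zero,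
        hw1.primeFactors, hw2.primeFactors, Finset.card_union_of_disjoint
          (Finset.disjoint_singleton.2 hne), Finset.card_singleton, Finset.card_singleton,
        one_add_one_eq_two] at h1
      have h2 : (c : ℝ) * (((w1 : ℝ) - 1) * ((w2 : ℝ) - 1)) ≤ K * ((i : ℝ) ^ 2 * (1 / n)) := by
        have h3 : K * ((i : ℝ) ^ 2 * (1 / n)) = K * (i : ℝ) ^ 2 / n := by ring
        rw [h3, le_div_iff₀ hn']
        calc (c : ℝ) * (((w1 : ℝ) - 1) * ((w2 : ℝ) - 1)) * n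
            = (c : ℝ) * n * (((w1 : ℝ) - 1) * ((w2 : ℝ) - 1)) := by ring
          _ ≤ K * (i : ℝ) ^ 2 := h1
      refine h2.trans (mul_le_mul_of_nonneg_left ?_ hK)
      linarith

theorem ev_cls {L : Type} [Field L] [NumberField L] [IsGalois ℚ L] (cc : L ≃ₐ[ℚ] L)
    (hcc : IsConjAut L cc) (v : (L ≃ₐ[ℚ] L) → ℕ) (e : ℕ)
    (hv : ∀ τ, v τ + v (cc * τ) = 2 * e) (hnc : ∃ τ, v τ ≠ e)
    {ι : Type} [Fintype ι] (b : Module.Basis ι ℤ (𝓞 L)) (B0 : ℝ) (hB0 : 0 ≤ B0)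
    (hB : ∀ (φ : L →+* ℂ) (k : ι), ‖φ ((b k : 𝓞 L) : L)‖ ≤ B0)
    (g : ℝ) (hgap : GapAt L g) (Q : ℕ) (hQg : (Q : ℝ) ^ (2 * e) ≤ g)
    (𝔞 : Ideal (𝓞 L)) (h𝔞 : 𝔞 ≠ ⊥) (a0 : ℝ) (ha0 : 0 < a0)
    (w1 w2 ρ : ℕ) (hw1 : w1.Prime) (hw2 : w2.Prime) (hne : w1 ≠ w2) (hQ1 : Q < w1) (hQ2 : Q < w2)
    (hρ1 : ¬ w1 ∣ ρ) (hρ2 : ¬ w2 ∣ ρ)
    (𝔭 : ℕ → Ideal (𝓞 L)) (γ : ℕ → 𝓞 L) (R : Finset ℕ) (Y : ℕ)
    (hR : ∀ p ∈ R, p.Prime ∧ p ≤ 2 * Y ∧ p ≡ ρ [MOD w1 * w2] ∧ Ideal.absNorm (𝔭 p) = p ∧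
      𝔞 * Phi v (𝔭 p) = Ideal.span {γ p} ∧ ∀ φ : L →+* ℂ, ‖φ ((γ p : 𝓞 L) : L)‖ = (a0 * p) ^ e)
    (𝒬 : Finset ℕ)
    (h𝒬 : ∀ q ∈ 𝒬, q.Prime ∧ q ≤ Q ∧ Q < 2 * q ∧ ∃ 𝔮 : Ideal (𝓞 L), 𝔮.IsPrime ∧
      Ideal.absNorm 𝔮 = q ∧ ∀ τ : L ≃ₐ[ℚ] L, τ • 𝔮 = 𝔮 → τ = 1)
    (T : ℕ) (hT1 : 1 ≤ T) (hT : (Module.finrank ℚ L * B0) ^ Module.finrank ℚ L ≤ T)
    (hY : ((w1 * w2) ^ Module.finrank ℚ L * T * Q + 1) ^ Module.finrank ℚ L ≤ 2 * Y) :
    (R.card : ℝ) * (𝒬.card : ℝ) * (((w1 : ℝ) - 1) * ((w2 : ℝ) - 1)) ≤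
      32 * 5 ^ Module.finrank ℚ L * (Module.finrank ℚ L : ℝ) ^ 2 * (Y : ℝ) *
        (1 + Real.log T) ^ Module.finrank ℚ L := by
  classical
  set i : ℕ := Module.finrank ℚ L with hidef
  have hci : Fintype.card ι = i := card_eq_finrank b
  have hi1 : 1 ≤ i := Module.finrank_pos
  have hlogT : 0 ≤ 1 + Real.log T := by
    have : (1 : ℝ) ≤ T := by exact_mod_cast hT1
    have := Real.log_nonneg this
    linarith
  rcases Finset.eq_empty_or_nonempty 𝒬 with h0 | ⟨q1, hq1⟩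
  · rw [h0, Finset.card_empty, Nat.cast_zero, mul_zero, zero_mul]
    positivity
  have hQ0 : 1 ≤ Q := by
    obtain ⟨h1, h2, _⟩ := h𝒬 q1 hq1
    have := h1.one_lt
    omega
  -- the prime ideals over the `q`
  choose! 𝔮 h𝔮1 h𝔮2 h𝔮3 using fun q hq => (h𝒬 q hq).2.2.2
  obtain ⟨M, hM1, hM2⟩ := QC4_root i (Q * (2 * Y)) hi1
  have hTQM : (w1 * w2) ^ i * T * Q ≤ M := by
    have h1 : ((w1 * w2) ^ i * T * Q + 1) ^ i < (M + 1) ^ i := by
      refine lt_of_le_of_lt (hY.trans ?_) hM2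
      exact Nat.le_mul_of_pos_left _ (by omega)
    have h2 := lt_of_pow_lt_pow_left₀ i (Nat.zero_le _) h1
    omega
  -- labels
  have hlab : ∀ x ∈ R ×ˢ 𝒬, ∃ (β : 𝓞 L) (C : Ideal (𝓞 L)), C ≠ ⊥ ∧
      Ideal.span {β} = C * (𝔭 x.1 * 𝔮 x.2) ∧ Ideal.absNorm C ≤ T ∧
      ∀ k, |b.repr β k| ≤ (M : ℤ) := by
    intro x hx
    rw [Finset.mem_product] at hx
    have hp := hR x.1 hx.1
    have hq := h𝒬 x.2 hx.2
    have hN : Ideal.absNorm (𝔭 x.1 * 𝔮 x.2) = x.1 * x.2 := by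
      rw [map_mul, hp.2.2.2.1, h𝔮2 x.2 hx.2]
    have hNpos : 0 < x.1 * x.2 := Nat.mul_pos hp.1.pos hq.1.pos
    refine QC4_label b B0 hB0 hB T (by rw [hci]; exact hT) (by rw [hci]; exact hi1) _ ?_ M ?_
    · intro hbot
      rw [← Ideal.absNorm_eq_zero_iff, hN] at hbot
      omega
    · rw [hN, hci]
      refine lt_of_le_of_lt ?_ hM2
      rw [mul_comm Q]
      exact Nat.mul_le_mul hp.2.1 hq.2.1
  choose! β C hC0 hspan hCT hcoord using hlab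
  set P := R ×ˢ 𝒬 with hP
  have hPcard : (P.card : ℝ) = (R.card : ℝ) * (𝒬.card : ℝ) := by
    rw [hP, Finset.card_product]
    push_cast
    rfl
  rw [← hPcard]
  have hcop12 : w1.Coprime w2 := (Nat.coprime_primes hw1 hw2).2 hne
  have hsq : Squarefree (w1 * w2) :=
    (Nat.squarefree_mul hcop12).2 ⟨hw1.squarefree, hw2.squarefree⟩
  have hρcop : (w1 * w2).Coprime ρ := Nat.Coprime.mul_left
    ((Nat.Prime.coprime_iff_not_dvd hw1).2 hρ1) ((Nat.Prime.coprime_iff_not_dvd hw2).2 hρ2)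
  -- the fibres
  have hfib : ∀ D ∈ P.image C, ∀ N : ℕ, N ∣ w1 * w2 → N.Coprime (Ideal.absNorm D) →
      (((P.filter fun x => C x = D).card : ℕ) : ℝ) * (Ideal.absNorm D : ℕ) * N.totient ≤
      (8 * 5 ^ i * (Y : ℝ)) * (i : ℝ) ^ N.primeFactors.card := by
    intro D hD N hNd hNc
    obtain ⟨x0, hx0, hx0D⟩ := Finset.mem_image.1 hD
    have hx0' := Finset.mem_product.1 hx0
    have hD0 : D ≠ ⊥ := by rw [← hx0D]; exact hC0 x0 hx0
    have hq0 := h𝒬 x0.2 hx0'.2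
    have hNDpos : 0 < Ideal.absNorm D :=
      Nat.pos_of_ne_zero fun h => hD0 (Ideal.absNorm_eq_zero_iff.1 h)
    -- all have the same prime
    have hsame : ∀ x ∈ P, C x = D → x.2 = x0.2 := by
      intro x hx hxD
      have hx' := Finset.mem_product.1 hx
      have hqx := h𝒬 x.2 hx'.2
      have e1 := hspan x hx
      have e2 := hspan x0 hx0
      rw [hxD, ← mul_assoc] at e1
      rw [hx0D, ← mul_assoc] at e2
      have s1 : ({x.1} : Finset ℕ) ⊆ R := Finset.singleton_subset_iff.2 hx'.1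
      have s2 : ({x0.1} : Finset ℕ) ⊆ R := Finset.singleton_subset_iff.2 hx0'.1
      exact label_unique cc hcc v e hv hnc g hgap (Q : ℝ) hQg 𝔞 h𝔞 a0 ha0 𝔭 γ R
        (fun p hp => ⟨(hR p hp).1.pos, (hR p hp).2.2.2.1, (hR p hp).2.2.2.2.1,
          (hR p hp).2.2.2.2.2⟩)
        x.2 x0.2 hqx.1 hq0.1 (by exact_mod_cast hqx.2.1) (by exact_mod_cast hq0.2.1)
        (𝔮 x.2) (𝔮 x0.2) (h𝔮1 _ hx'.2) (h𝔮1 _ hx0'.2) (h𝔮2 _ hx'.2) (h𝔮2 _ hx0'.2)
        (h𝔮3 _ hx'.2) (h𝔮3 _ hx0'.2) {x.1} {x0.1} s1 s2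
        (by rw [Finset.card_singleton, Finset.card_singleton]) D hD0
        (β x) (β x0) (by rw [Finset.prod_singleton]; exact e1)
        (by rw [Finset.prod_singleton]; exact e2)
    have h𝔮0 : 𝔮 x0.2 ≠ ⊥ := by
      intro h
      have h1 := h𝔮2 _ hx0'.2
      rw [h, Ideal.absNorm_bot] at h1
      exact hq0.1.ne_zero h1.symm
    have hinj : Set.InjOn β (P.filter fun x => C x = D) := by
      intro x hx y hy hxy
      rw [Finset.mem_coe, Finset.mem_filter] at hx hy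
      have hx2 := hsame x hx.1 hx.2
      have hy2 := hsame y hy.1 hy.2
      have e1 := hspan x hx.1
      have e2 := hspan y hy.1
      rw [hx.2, hx2] at e1
      rw [hy.2, hy2, ← hxy, e1] at e2
      have e3 := mul_left_cancel₀ hD0 e2
      have e4 := mul_right_cancel₀ h𝔮0 e3
      have e5 := congrArg Ideal.absNorm e4
      have hx1 := Finset.mem_product.1 hx.1
      have hy1 := Finset.mem_product.1 hy.1
      rw [(hR x.1 hx1.1).2.2.2.1, (hR y.1 hy1.1).2.2.2.1] at e5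
      exact Prod.ext e5 (hx2.trans hy2.symm)
    have hDq : D * 𝔮 x0.2 ≠ ⊥ := fun h => (Ideal.mul_eq_bot.1 h).elim hD0 h𝔮0
    have hmemJ : ∀ x ∈ P, C x = D → β x ∈ D * 𝔮 x0.2 := by
      intro x hx hxD
      have e1 := hspan x hx
      rw [hxD, hsame x hx hxD] at e1
      exact QC4_mem D (𝔭 x.1) (𝔮 x0.2) (β x) e1
    have hW : ∀ z ∈ (P.filter fun x => C x = D).image β,
        z ∈ D * 𝔮 x0.2 ∧ (∀ k, |b.repr z k| ≤ (M : ℤ)) ∧
          Ideal.absNorm (Ideal.span {z}) ≡ Ideal.absNorm D * ρ * x0.2 [MOD N] := by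
      intro z hz
      obtain ⟨x, hx, hxz⟩ := Finset.mem_image.1 hz
      have hx' := Finset.mem_filter.1 hx
      have hx1 := Finset.mem_product.1 hx'.1
      rw [← hxz]
      refine ⟨hmemJ x hx'.1 hx'.2, hcoord x hx'.1, ?_⟩
      have e1 := hspan x hx'.1
      rw [hx'.2, hsame x hx'.1 hx'.2] at e1
      rw [e1, map_mul, map_mul, (hR x.1 hx1.1).2.2.2.1, h𝔮2 _ hx0'.2, ← mul_assoc]
      exact (Nat.ModEq.mul_left _ ((hR x.1 hx1.1).2.2.1.of_dvd hNd)).mul_right _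
    have hN0 : N ≠ 0 := by
      rintro rfl
      have := Nat.eq_zero_of_zero_dvd hNd
      exact Nat.mul_ne_zero hw1.ne_zero hw2.ne_zero this
    have hNle : N ≤ w1 * w2 :=
      Nat.le_of_dvd (Nat.mul_pos hw1.pos hw2.pos) hNd
    have hDT : Ideal.absNorm D ≤ T := by rw [← hx0D]; exact hCT x0 hx0
    have hqw1 : w1.Coprime x0.2 := by
      rw [Nat.coprime_primes hw1 hq0.1]
      omega
    have hqw2 : w2.Coprime x0.2 := by
      rw [Nat.coprime_primes hw2 hq0.1]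
      omega
    have hν : (Ideal.absNorm D * ρ * x0.2).Coprime N := by
      refine Nat.Coprime.mul_left (Nat.Coprime.mul_left hNc.symm ?_) ?_
      · exact (Nat.Coprime.coprime_dvd_left hNd hρcop).symm
      · exact (Nat.Coprime.coprime_dvd_left hNd (Nat.Coprime.mul_left hqw1 hqw2)).symm
    have hmJ : N ^ Fintype.card ι * Ideal.absNorm (D * 𝔮 x0.2) ≤ M := by
      rw [map_mul, h𝔮2 _ hx0'.2, hci]
      refine le_trans ?_ hTQM
      rw [mul_assoc]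
      exact Nat.mul_le_mul (Nat.pow_le_pow_left hNle _) (Nat.mul_le_mul hDT hq0.2.1)
    have hlat := norm_class b (D * 𝔮 x0.2) hDq N M (Ideal.absNorm D * ρ * x0.2) hN0
      (hsq.squarefree_of_dvd hNd) hν hmJ _ hW
    rw [Finset.card_image_of_injOn hinj, map_mul, h𝔮2 _ hx0'.2, hci] at hlat
    have h2 : (5 * M) ^ i ≤ 5 ^ i * (2 * x0.2 * (2 * Y)) := by
      rw [mul_pow]
      refine Nat.mul_le_mul_left _ (hM1.trans ?_)
      exact Nat.mul_le_mul_right _ (by omega)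
    have h3 := hlat.trans (Nat.mul_le_mul_left _ h2)
    have h4 : (P.filter fun x => C x = D).card * Ideal.absNorm D * N.totient ≤
        8 * 5 ^ i * Y * i ^ N.primeFactors.card := by
      refine le_of_mul_le_mul_right (a := x0.2) ?_ hq0.1.pos
      calc (P.filter fun x => C x = D).card * Ideal.absNorm D * N.totient * x0.2
          = (P.filter fun x => C x = D).card * (Ideal.absNorm D * x0.2) * N.totient := by ring
        _ ≤ 2 * i ^ N.primeFactors.card * (5 ^ i * (2 * x0.2 * (2 * Y))) := h3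
        _ = 8 * 5 ^ i * Y * i ^ N.primeFactors.card * x0.2 := by ring
    exact_mod_cast h4
  have hK0 : (0 : ℝ) ≤ 8 * 5 ^ i * (Y : ℝ) := by positivity
  have hfib4 : ∀ D ∈ P.image C, (((P.filter fun x => C x = D).card : ℕ) : ℝ) *
      (((w1 : ℝ) - 1) * ((w2 : ℝ) - 1)) ≤
      (8 * 5 ^ i * (Y : ℝ)) * ((i : ℝ) ^ 2 * (1 / ((Ideal.absNorm D : ℕ) : ℝ)) +
        (if w1 ∣ Ideal.absNorm D then (i : ℝ) * w1 * (1 / ((Ideal.absNorm D : ℕ) : ℝ)) else 0) +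
        (if w2 ∣ Ideal.absNorm D then (i : ℝ) * w2 * (1 / ((Ideal.absNorm D : ℕ) : ℝ)) else 0) +
        (if w1 * w2 ∣ Ideal.absNorm D then
          ((w1 : ℝ) * w2) * (1 / ((Ideal.absNorm D : ℕ) : ℝ)) else 0)) := by
    intro D hD
    obtain ⟨x0, hx0, hx0D⟩ := Finset.mem_image.1 hD
    have hD0 : D ≠ ⊥ := by rw [← hx0D]; exact hC0 x0 hx0
    have hNDpos : 0 < Ideal.absNorm D :=
      Nat.pos_of_ne_zero fun h => hD0 (Ideal.absNorm_eq_zero_iff.1 h)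
    exact QC4_four w1 w2 i _ _ _ hK0 hw1 hw2 hne hNDpos (hfib D hD)
  have hsum : ∀ N : ℕ, N ∣ w1 * w2 →
      ∑ D ∈ (P.image C).filter (fun D => N ∣ Ideal.absNorm D), (1 / ((Ideal.absNorm D : ℕ) : ℝ)) ≤
      (i : ℝ) ^ N.primeFactors.card * (1 + Real.log T) ^ i / N := by
    intro N hN
    refine ideal_sum_dvd L T N hT1 (hsq.squarefree_of_dvd hN) _ ?_
    intro I hI
    rw [Finset.mem_filter] at hI
    obtain ⟨x, hx, rfl⟩ := Finset.mem_image.1 hI.1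
    exact ⟨hC0 x hx, hCT x hx, hI.2⟩
  have hs0 := hsum 1 (one_dvd _)
  have hs1 := hsum w1 (Dvd.intro _ rfl)
  have hs2 := hsum w2 (Dvd.intro_left _ rfl)
  have hs3 := hsum (w1 * w2) dvd_rfl
  rw [Nat.primeFactors_one, Finset.card_empty, pow_zero, one_mul, Nat.cast_one, div_one,
    Finset.filter_true_of_mem (fun _ _ => one_dvd _)] at hs0
  rw [hw1.primeFactors, Finset.card_singleton, pow_one] at hs1
  rw [hw2.primeFactors, Finset.card_singleton, pow_one] at hs2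
  rw [Nat.primeFactors_mul hw1.ne_zero hw2.ne_zero,
        hw1.primeFactors, hw2.primeFactors, Finset.card_union_of_disjoint
          (Finset.disjoint_singleton.2 hne), Finset.card_singleton, Finset.card_singleton] at hs3
  have hw1' : (0 : ℝ) < w1 := by exact_mod_cast hw1.pos
  have hw2' : (0 : ℝ) < w2 := by exact_mod_cast hw2.pos
  have hcount : (P.card : ℝ) * (((w1 : ℝ) - 1) * ((w2 : ℝ) - 1)) =
      ∑ D ∈ P.image C, (((P.filter fun x => C x = D).card : ℕ) : ℝ) *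
        (((w1 : ℝ) - 1) * ((w2 : ℝ) - 1)) := by
    rw [← Finset.sum_mul, Finset.card_eq_sum_card_image C P]
    push_cast
    rfl
  rw [hcount]
  refine (Finset.sum_le_sum hfib4).trans ?_
  rw [← Finset.mul_sum, Finset.sum_add_distrib, Finset.sum_add_distrib, Finset.sum_add_distrib,
    ← Finset.sum_filter, ← Finset.sum_filter, ← Finset.sum_filter, ← Finset.mul_sum,
    ← Finset.mul_sum, ← Finset.mul_sum, ← Finset.mul_sum]
  have t0 : (i : ℝ) ^ 2 * ∑ D ∈ P.image C, (1 / ((Ideal.absNorm D : ℕ) : ℝ)) ≤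
      (i : ℝ) ^ 2 * (1 + Real.log T) ^ i := mul_le_mul_of_nonneg_left hs0 (by positivity)
  have t1 : (i : ℝ) * w1 * ∑ D ∈ (P.image C).filter (fun D => w1 ∣ Ideal.absNorm D),
      (1 / ((Ideal.absNorm D : ℕ) : ℝ)) ≤ (i : ℝ) ^ 2 * (1 + Real.log T) ^ i := by
    refine (mul_le_mul_of_nonneg_left hs1 (by positivity)).trans (le_of_eq ?_)
    field_simp
  have t2 : (i : ℝ) * w2 * ∑ D ∈ (P.image C).filter (fun D => w2 ∣ Ideal.absNorm D),
      (1 / ((Ideal.absNorm D : ℕ) : ℝ)) ≤ (i : ℝ) ^ 2 * (1 + Real.log T) ^ i := by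
    refine (mul_le_mul_of_nonneg_left hs2 (by positivity)).trans (le_of_eq ?_)
    field_simp
  have t3 : ((w1 : ℝ) * w2) * ∑ D ∈ (P.image C).filter (fun D => w1 * w2 ∣ Ideal.absNorm D),
      (1 / ((Ideal.absNorm D : ℕ) : ℝ)) ≤ (i : ℝ) ^ 2 * (1 + Real.log T) ^ i := by
    refine (mul_le_mul_of_nonneg_left hs3 (by positivity)).trans (le_of_eq ?_)
    push_cast
    field_simp
  calc (8 * 5 ^ i * (Y : ℝ)) * ((i : ℝ) ^ 2 * ∑ D ∈ P.image C, (1 / ((Ideal.absNorm D : ℕ) : ℝ)) +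
        (i : ℝ) * w1 * ∑ D ∈ (P.image C).filter (fun D => w1 ∣ Ideal.absNorm D),
          (1 / ((Ideal.absNorm D : ℕ) : ℝ)) +
        (i : ℝ) * w2 * ∑ D ∈ (P.image C).filter (fun D => w2 ∣ Ideal.absNorm D),
          (1 / ((Ideal.absNorm D : ℕ) : ℝ)) +
        ((w1 : ℝ) * w2) * ∑ D ∈ (P.image C).filter (fun D => w1 * w2 ∣ Ideal.absNorm D),
          (1 / ((Ideal.absNorm D : ℕ) : ℝ)))
      ≤ (8 * 5 ^ i * (Y : ℝ)) * (4 * ((i : ℝ) ^ 2 * (1 + Real.log T) ^ i)) :=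
        mul_le_mul_of_nonneg_left (by linarith) hK0
    _ = 32 * 5 ^ i * (i : ℝ) ^ 2 * (Y : ℝ) * (1 + Real.log T) ^ i := by ring

end Pool.Agent.Lib.MP_79499b_co.QZ
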