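import Pool.Agent.Lib.MP_79499b_co.DZ.NBadD
import Pool.Agent.Lib.MP_79499b_co.DZ.NBad
import Pool.Agent.Lib.MP_79499b_co.QZ.QC4

/-!
# QC5: all bad primes in one residue class

`bad_D_cls` is `bad_D` (NBadD.lean) with `ev_cls` in place of `ev_count` and `opt_bound`, `bad_cls` is `bad_all` (NBad.lean).
In `bad_D_cls` `L = fixedField D` has `iL = [L : ℚ] ≤ i = [K : ℚ]` (`iL |D| = i`), and the right side of `ev_cls` and the
hypothesis `hY` are monotone in the degree: `((w1 w2)^iL T Q + 1)^iL ≤ ((w1 w2)^i T Q + 1)^i ≤ 2Y`,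
`32 5^iL iL^2 Y (1 + log T)^iL ≤ 32 5^i i^2 Y (1 + log T)^i`. The number of fibres `(v, 𝔞)` is at most
`(2 e0 i + 1)^i 2^(2 e0 i Ω(a))`, the number of groups `D` at most `2^i`.
-/

set_option autoImplicit false

open NumberField
open scoped Pointwise

namespace Pool.Agent.Lib.MP_79499b_co.QZ

open Finset DZ

private theorem QC5_pow (x : ℝ) (hx : 0 ≤ x) (a b : ℕ) (hab : a ≤ b) (T : ℕ) (hT1 : 1 ≤ T)
    (h : x ^ b ≤ T) : x ^ a ≤ T := by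
  rcases le_total x 1 with h1 | h1
  · have h2 : x ^ a ≤ 1 := pow_le_one₀ hx h1
    have h3 : (1 : ℝ) ≤ T := by exact_mod_cast hT1
    linarith
  · exact (pow_le_pow_right₀ h1 hab).trans h

/-- Counting the pairs. -/
private theorem QC5_img {G I : Type} [Fintype G] [DecidableEq G] [DecidableEq I] (R : Finset ℕ)
    (v : ℕ → G → ℕ) (A : ℕ → I) (m N : ℕ) (hv : ∀ p ∈ R, ∀ τ, v p τ ≤ m)
    (hA : (R.image A).card ≤ N) :
    (R.image fun p => (v p, A p)).card ≤ (m + 1) ^ Fintype.card G * N := by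
  have h1 : (R.image fun p => (v p, A p)) ⊆
      (Fintype.piFinset fun _ : G => Finset.range (m + 1)) ×ˢ (R.image A) := by
    intro y hy
    obtain ⟨p, hp, rfl⟩ := Finset.mem_image.1 hy
    rw [Finset.mem_product]
    refine ⟨?_, Finset.mem_image_of_mem A hp⟩
    rw [Fintype.mem_piFinset]
    intro τ
    rw [Finset.mem_range]
    have h2 := hv p hp τ
    show v p τ < m + 1
    omega
  refine (Finset.card_le_card h1).trans ?_
  rw [Finset.card_product, Fintype.card_piFinset]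
  simp only [Finset.card_range, Finset.prod_const, Finset.card_univ]
  exact Nat.mul_le_mul_left _ hA

private theorem QC5_fib {β : Type} [DecidableEq β] (R : Finset ℕ) (f : ℕ → β) (c E : ℝ)
    (h : ∀ y ∈ R.image f, (((R.filter fun p => f p = y).card : ℕ) : ℝ) * c ≤ E) :
    (R.card : ℝ) * c ≤ ((R.image f).card : ℝ) * E := by
  have h1 : (R.card : ℝ) = ∑ y ∈ R.image f, (((R.filter fun p => f p = y).card : ℕ) : ℝ) := by
    rw [Finset.card_eq_sum_card_image f R]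
    push_cast
    rfl
  rw [h1, Finset.sum_mul]
  refine (Finset.sum_le_sum h).trans ?_
  rw [Finset.sum_const, nsmul_eq_mul]

private theorem QC5_field (K : Type) [Field K] [NumberField K] [IsGalois ℚ K]
    (hcomm : ∀ σ τ : K ≃ₐ[ℚ] K, σ * τ = τ * σ) (g : ℝ)
    (Q : ℕ) (𝒬 : Finset ℕ)
    (h𝒬 : ∀ q ∈ 𝒬, q.Prime ∧ q ≤ Q ∧ Q < 2 * q ∧ SplitIn K q)
    (T : ℕ) (hT1 : 1 ≤ T)
    (w1 w2 ρ : ℕ) (hw1 : w1.Prime) (hw2 : w2.Prime) (hne : w1 ≠ w2) (hQ1 : Q < w1) (hQ2 : Q < w2)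
    (hρ1 : ¬ w1 ∣ ρ) (hρ2 : ¬ w2 ∣ ρ)
    (Y : ℕ)
    (a : ℕ) (ha : a ≠ 0) (D : Subgroup (K ≃ₐ[ℚ] K)) (R : Finset ℕ)
    (ccL : (IntermediateField.fixedField D) ≃ₐ[ℚ] (IntermediateField.fixedField D))
    (hccL : IsConjAut (IntermediateField.fixedField D) ccL)
    [IsGalois ℚ (IntermediateField.fixedField D)]
    (hgap : GapAt (IntermediateField.fixedField D) g) (e iL iK : ℕ)
    (hiL : Module.finrank ℚ (IntermediateField.fixedField D) = iL) (hiLK : iL ≤ iK)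
    (hQg : (Q : ℝ) ^ (2 * e) ≤ g) (BL : ℝ) (hBL0 : 0 ≤ BL)
    (hnib : HasNIB (IntermediateField.fixedField D) BL)
    (hT : ((iL : ℝ) * BL) ^ iL ≤ T) (hY : ((w1 * w2) ^ iL * T * Q + 1) ^ iL ≤ 2 * Y)
    (hR : ∀ p ∈ R, p.Prime ∧ p ≤ 2 * Y ∧ p ≡ ρ [MOD w1 * w2] ∧
      ∃ (𝔭 : Ideal (𝓞 (IntermediateField.fixedField D)))
        (v : ((IntermediateField.fixedField D) ≃ₐ[ℚ] (IntermediateField.fixedField D)) → ℕ)
        (γ : 𝓞 (IntermediateField.fixedField D)) (𝔞 : Ideal (𝓞 (IntermediateField.fixedField D))),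
        Ideal.absNorm 𝔭 = p ∧ (∀ τ, v τ + v (ccL * τ) = 2 * e) ∧ (∃ τ, v τ ≠ e) ∧
        𝔞 ∣ Ideal.span {(a : 𝓞 (IntermediateField.fixedField D))} ^ (2 * e) ∧
        𝔞 * Phi v 𝔭 = Ideal.span {γ} ∧
        ∀ φ : (IntermediateField.fixedField D) →+* ℂ,
          ‖φ (γ : IntermediateField.fixedField D)‖ = ((a : ℝ) * p) ^ e) :
    (R.card : ℝ) * ((𝒬.card : ℝ) * (((w1 : ℝ) - 1) * ((w2 : ℝ) - 1))) ≤
      (((2 * e + 1) ^ iL * 2 ^ (2 * e * iL * a.primeFactorsList.length) : ℕ) : ℝ) *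
      (32 * 5 ^ iK * (iK : ℝ) ^ 2 * (Y : ℝ) * (1 + Real.log T) ^ iK) := by
  classical
  choose! 𝔭 v γ 𝔞 hN hv hnc hdvd hphi habs using fun p hp => (hR p hp).2.2.2
  have hcard : Fintype.card ((IntermediateField.fixedField D) ≃ₐ[ℚ]
      (IntermediateField.fixedField D)) = iL := by
    rw [← Nat.card_eq_fintype_card, IsGalois.card_aut_eq_finrank, hiL]
  have hlogT : 1 ≤ 1 + Real.log T := by
    have : (1 : ℝ) ≤ T := by exact_mod_cast hT1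
    have := Real.log_nonneg this
    linarith
  set E : ℝ := 32 * 5 ^ iK * (iK : ℝ) ^ 2 * (Y : ℝ) * (1 + Real.log T) ^ iK with hE
  have hE0 : 0 ≤ E := by positivity
  have himg := QC5_img R v 𝔞 (2 * e) (2 ^ (2 * e * iL * a.primeFactorsList.length)) (by
      intro p hp τ
      have := hv p hp τ
      omega) (by
      have h1 := div_count (IntermediateField.fixedField D) a ha (2 * e) (R.image 𝔞) (by
        intro I hI
        obtain ⟨p, hp, rfl⟩ := Finset.mem_image.1 hI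
        exact hdvd p hp)
      rw [hiL] at h1
      exact h1)
  rw [hcard] at himg
  refine (QC5_fib R (fun p => (v p, 𝔞 p)) _ E ?_).trans
    (mul_le_mul_of_nonneg_right (by exact_mod_cast himg) hE0)
  intro y hy
  obtain ⟨p0, hp0, rfl⟩ := Finset.mem_image.1 hy
  obtain ⟨b, _, hb⟩ := hnib
  have ha0 : (0 : ℝ) < (a : ℝ) := by exact_mod_cast Nat.pos_of_ne_zero ha
  have h𝔞 : 𝔞 p0 ≠ ⊥ := by
    intro h
    have h1 := hdvd p0 hp0
    rw [h] at h1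
    have h2 : Ideal.span {(a : 𝓞 (IntermediateField.fixedField D))} ^ (2 * e) ≠ 0 := by
      refine pow_ne_zero _ ?_
      rw [Ne, Ideal.zero_eq_bot, Ideal.span_singleton_eq_bot]
      exact_mod_cast ha
    apply h2
    rw [← Ideal.zero_eq_bot, zero_dvd_iff] at h1
    exact h1
  have hev := ev_cls ccL hccL (v p0) e (hv p0 hp0) (hnc p0 hp0) b BL hBL0 hb g hgap Q hQg
    (𝔞 p0) h𝔞 (a : ℝ) ha0 w1 w2 ρ hw1 hw2 hne hQ1 hQ2 hρ1 hρ2 𝔭 γ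
    (R.filter fun p => (v p, 𝔞 p) = (v p0, 𝔞 p0)) Y (by
      intro p hp
      obtain ⟨hpR, hpe⟩ := Finset.mem_filter.1 hp
      have e1 : v p = v p0 := congrArg Prod.fst hpe
      have e2 : 𝔞 p = 𝔞 p0 := congrArg Prod.snd hpe
      refine ⟨(hR p hpR).1, (hR p hpR).2.1, (hR p hpR).2.2.1, hN p hpR, ?_, habs p hpR⟩
      rw [← e1, ← e2]
      exact hphi p hpR) 𝒬 (by
      intro q hq
      obtain ⟨h1, h2, h3, P, hP, hqP, hst⟩ := h𝒬 q hq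
      obtain ⟨s1, s2, s3⟩ := split_descend K hcomm D P hP q h1 hqP (by
        intro τ hτ
        rw [hst τ hτ]
        exact D.one_mem)
      exact ⟨h1, h2, h3, _, s1, s2, s3⟩) T hT1 (by rw [hiL]; exact hT) (by rw [hiL]; exact hY)
  rw [hiL] at hev
  have h4 : (5 : ℝ) ^ iL ≤ 5 ^ iK := pow_le_pow_right₀ (by norm_num) hiLK
  have h5 : (1 + Real.log T) ^ iL ≤ (1 + Real.log T) ^ iK := pow_le_pow_right₀ hlogT hiLK
  have h6 : (iL : ℝ) ^ 2 ≤ (iK : ℝ) ^ 2 :=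
    pow_le_pow_left₀ (Nat.cast_nonneg _) (by exact_mod_cast hiLK) 2
  rw [← mul_assoc]
  refine hev.trans ?_
  rw [hE]
  have h7 : (0 : ℝ) ≤ (Y : ℝ) := Nat.cast_nonneg _
  have h8 : (0 : ℝ) ≤ 1 + Real.log T := by linarith
  gcongr

theorem bad_D_cls (K : Type) [Field K] [NumberField K] [IsGalois ℚ K]
    (hcomm : ∀ σ τ : K ≃ₐ[ℚ] K, σ * τ = τ * σ) (cc : K ≃ₐ[ℚ] K) (hcc : IsConjAut K cc)
    (B0 : ℝ) (hB0 : 0 ≤ B0) (hnib : HasNIB K B0) (g : ℝ) (hgap : GapAt K g)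
    (e0 Q : ℕ) (hQg : (Q : ℝ) ^ (2 * (e0 * Module.finrank ℚ K)) ≤ g)
    (𝒬 : Finset ℕ) (hneQ : 𝒬.Nonempty)
    (h𝒬 : ∀ q ∈ 𝒬, q.Prime ∧ q ≤ Q ∧ Q < 2 * q ∧ SplitIn K q)
    (T : ℕ) (hT1 : 1 ≤ T) (hT : (Module.finrank ℚ K * B0) ^ Module.finrank ℚ K ≤ T)
    (w1 w2 ρ : ℕ) (hw1 : w1.Prime) (hw2 : w2.Prime) (hne : w1 ≠ w2) (hQ1 : Q < w1) (hQ2 : Q < w2)
    (hρ1 : ¬ w1 ∣ ρ) (hρ2 : ¬ w2 ∣ ρ)
    (Y : ℕ) (hY : ((w1 * w2) ^ Module.finrank ℚ K * T * Q + 1) ^ Module.finrank ℚ K ≤ 2 * Y)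
    (a : ℕ) (ha : a ≠ 0) (D : Subgroup (K ≃ₐ[ℚ] K)) (R : Finset ℕ)
    (hR : ∀ p ∈ R, p.Prime ∧ p ≤ 2 * Y ∧ p ≡ ρ [MOD w1 * w2] ∧ ¬ p ∣ a ∧ Unram K p ∧
      BadP K e0 a p ∧
      ∃ P : Ideal (𝓞 K), P.IsPrime ∧ (p : 𝓞 K) ∈ P ∧ ∀ τ : K ≃ₐ[ℚ] K, τ • P = P ↔ τ ∈ D) :
    (R.card : ℝ) * (𝒬.card : ℝ) * (((w1 : ℝ) - 1) * ((w2 : ℝ) - 1)) ≤
      (2 * e0 * Module.finrank ℚ K + 1) ^ Module.finrank ℚ K *
      2 ^ (2 * e0 * Module.finrank ℚ K * a.primeFactorsList.length) *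
      (32 * 5 ^ Module.finrank ℚ K * (Module.finrank ℚ K : ℝ) ^ 2 * (Y : ℝ) *
        (1 + Real.log T) ^ Module.finrank ℚ K) := by
  have hgal : IsGalois ℚ (IntermediateField.fixedField D) := lf_galois K hcomm D
  obtain ⟨ccL, hccL⟩ := lf_conj K hcomm D cc hcc
  set iK : ℕ := Module.finrank ℚ K with hiK
  set iL : ℕ := Module.finrank ℚ (IntermediateField.fixedField D) with hiL
  have hfr : iL * Nat.card D = iK := lf_finrank K D
  have hiL1 : 1 ≤ iL := Module.finrank_pos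
  have hiK1 : 1 ≤ iK := Module.finrank_pos
  have hcD1 : 1 ≤ Nat.card D := by
    rcases Nat.eq_zero_or_pos (Nat.card D) with h | h
    · rw [h, mul_zero] at hfr
      omega
    · exact h
  have hcDK : Nat.card D ≤ iK := by
    rw [← hfr]
    exact Nat.le_mul_of_pos_left _ hiL1
  have hiLK : iL ≤ iK := by
    rw [← hfr]
    exact Nat.le_mul_of_pos_right _ hcD1
  set e : ℕ := e0 * Nat.card D with he
  have hee : e ≤ e0 * iK := Nat.mul_le_mul_left _ hcDK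
  have hQ1' : (1 : ℝ) ≤ (Q : ℝ) := by
    obtain ⟨q, hq⟩ := hneQ
    obtain ⟨h1, h2, _⟩ := h𝒬 q hq
    have := h1.one_lt
    exact_mod_cast (by omega : 1 ≤ Q)
  have hQg' : (Q : ℝ) ^ (2 * e) ≤ g :=
    (pow_le_pow_right₀ hQ1' (by omega)).trans hQg
  have hcast : (iL : ℝ) * (Nat.card D : ℝ) = (iK : ℝ) := by exact_mod_cast hfr
  have hT' : ((iL : ℝ) * ((Nat.card D : ℝ) * B0)) ^ iL ≤ T := by
    rw [← mul_assoc, hcast]
    exact QC5_pow _ (by positivity) iL iK hiLK T hT1 hT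
  have hw12 : 1 ≤ w1 * w2 := Nat.mul_pos hw1.pos hw2.pos
  have hY' : ((w1 * w2) ^ iL * T * Q + 1) ^ iL ≤ 2 * Y := by
    refine le_trans ?_ hY
    refine (Nat.pow_le_pow_left (m := (w1 * w2) ^ iK * T * Q + 1) ?_ iL).trans
      (Nat.pow_le_pow_right (by omega) hiLK)
    have h1 : (w1 * w2) ^ iL ≤ (w1 * w2) ^ iK := Nat.pow_le_pow_right hw12 hiLK
    exact Nat.add_le_add_right (Nat.mul_le_mul_right _ (Nat.mul_le_mul_right _ h1)) 1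
  have key := QC5_field K hcomm g Q 𝒬 h𝒬 T hT1 w1 w2 ρ hw1 hw2 hne hQ1 hQ2 hρ1 hρ2 Y a ha D R
    ccL hccL (lf_gap K _ g hgap) e iL iK rfl hiLK hQg' ((Nat.card D : ℝ) * B0) (by positivity)
    (nib_sub K hcomm D B0 hnib) hT' hY' (by
      intro p hp
      obtain ⟨h1, h2, h2', h3, h4, h5, P, hP, hpP, hst⟩ := hR p hp
      obtain ⟨v, γ, 𝔞, d1, d2, d3, d4, d5⟩ :=
        descend K hcomm D P hP p h1 hpP hst h4 e0 a ha h3 h5 ccL hccL
      obtain ⟨s1, s2, s3⟩ := split_descend K hcomm D P hP p h1 hpP (fun τ hτ => (hst τ).1 hτ)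
      exact ⟨h1, h2, h2', _, v, γ, 𝔞, s2, d1, d2, d3, d4, d5⟩)
  rw [mul_assoc (R.card : ℝ)]
  refine key.trans ?_
  have hlogT : 0 ≤ 1 + Real.log T := by
    have : (1 : ℝ) ≤ T := by exact_mod_cast hT1
    have := Real.log_nonneg this
    linarith
  refine mul_le_mul_of_nonneg_right ?_ (by positivity)
  have h1 : (2 * e + 1) ^ iL ≤ (2 * e0 * iK + 1) ^ iK := by
    refine (Nat.pow_le_pow_left (m := 2 * e0 * iK + 1) ?_ iL).trans
      (Nat.pow_le_pow_right (by omega) hiLK)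
    have : 2 * e ≤ 2 * (e0 * iK) := by omega
    calc 2 * e + 1 ≤ 2 * (e0 * iK) + 1 := by omega
      _ = 2 * e0 * iK + 1 := by ring
  have h2 : 2 * e * iL = 2 * e0 * iK := by
    rw [he, ← hfr]
    ring
  rw [h2]
  push_cast
  have h3 : ((2 * (e : ℝ) + 1) ^ iL) ≤ (2 * (e0 : ℝ) * iK + 1) ^ iK := by exact_mod_cast h1
  exact mul_le_mul_of_nonneg_right h3 (by positivity)

theorem bad_cls (K : Type) [Field K] [NumberField K] [IsGalois ℚ K]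
    (hcomm : ∀ σ τ : K ≃ₐ[ℚ] K, σ * τ = τ * σ) (cc : K ≃ₐ[ℚ] K) (hcc : IsConjAut K cc)
    (B0 : ℝ) (hB0 : 0 ≤ B0) (hnib : HasNIB K B0) (g : ℝ) (hgap : GapAt K g)
    (e0 Q : ℕ) (hQg : (Q : ℝ) ^ (2 * (e0 * Module.finrank ℚ K)) ≤ g)
    (𝒬 : Finset ℕ) (hneQ : 𝒬.Nonempty)
    (h𝒬 : ∀ q ∈ 𝒬, q.Prime ∧ q ≤ Q ∧ Q < 2 * q ∧ SplitIn K q)
    (T : ℕ) (hT1 : 1 ≤ T) (hT : (Module.finrank ℚ K * B0) ^ Module.finrank ℚ K ≤ T)
    (w1 w2 ρ : ℕ) (hw1 : w1.Prime) (hw2 : w2.Prime) (hne : w1 ≠ w2) (hQ1 : Q < w1) (hQ2 : Q < w2)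
    (hρ1 : ¬ w1 ∣ ρ) (hρ2 : ¬ w2 ∣ ρ)
    (Y : ℕ) (hY : ((w1 * w2) ^ Module.finrank ℚ K * T * Q + 1) ^ Module.finrank ℚ K ≤ 2 * Y)
    (a : ℕ) (ha : a ≠ 0) (R : Finset ℕ)
    (hR : ∀ p ∈ R, p.Prime ∧ p ≤ 2 * Y ∧ p ≡ ρ [MOD w1 * w2] ∧ ¬ p ∣ a ∧ Unram K p ∧
      BadP K e0 a p) :
    (R.card : ℝ) * (𝒬.card : ℝ) * (((w1 : ℝ) - 1) * ((w2 : ℝ) - 1)) ≤
      2 ^ Module.finrank ℚ K * ((2 * e0 * Module.finrank ℚ K + 1) ^ Module.finrank ℚ K *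
      2 ^ (2 * e0 * Module.finrank ℚ K * a.primeFactorsList.length) *
      (32 * 5 ^ Module.finrank ℚ K * (Module.finrank ℚ K : ℝ) ^ 2 * (Y : ℝ) *
        (1 + Real.log T) ^ Module.finrank ℚ K)) := by
  classical
  -- a prime ideal over every prime
  have hex : ∀ p : ℕ, p.Prime → ∃ P : Ideal (𝓞 K), P.IsPrime ∧ (p : 𝓞 K) ∈ P := by
    intro p hp
    have h1 : ¬ IsUnit (p : 𝓞 K) := by
      intro hu
      have h2 : IsUnit ((Algebra.norm ℤ) (p : 𝓞 K)) := hu.map _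
      have h3 : (p : 𝓞 K) = algebraMap ℤ (𝓞 K) (p : ℤ) := by simp
      rw [h3, Algebra.norm_algebraMap, isUnit_pow_iff Module.finrank_pos.ne',
        Int.isUnit_iff_natAbs_eq, Int.natAbs_natCast] at h2
      exact hp.one_lt.ne' h2
    obtain ⟨P, hP, hle⟩ := Ideal.exists_le_maximal (Ideal.span {(p : 𝓞 K)})
      (fun h => h1 (Ideal.span_singleton_eq_top.1 h))
    exact ⟨P, hP.isPrime, hle (Ideal.mem_span_singleton_self _)⟩
  -- the stabilizer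
  have hst : ∀ p : ℕ, ∃ D : Subgroup (K ≃ₐ[ℚ] K), p.Prime →
      ∃ P : Ideal (𝓞 K), P.IsPrime ∧ (p : 𝓞 K) ∈ P ∧ ∀ τ : K ≃ₐ[ℚ] K, τ • P = P ↔ τ ∈ D := by
    intro p
    by_cases hp : p.Prime
    · obtain ⟨P, hP, hpP⟩ := hex p hp
      exact ⟨MulAction.stabilizer (K ≃ₐ[ℚ] K) P, fun _ => ⟨P, hP, hpP, fun τ => by
        rw [MulAction.mem_stabilizer_iff]⟩⟩
    · exact ⟨⊥, fun h => absurd h hp⟩
  choose D hD using hst
  have hlogT : 0 ≤ 1 + Real.log T := by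
    have : (1 : ℝ) ≤ T := by exact_mod_cast hT1
    have := Real.log_nonneg this
    linarith
  set E : ℝ := (2 * e0 * Module.finrank ℚ K + 1) ^ Module.finrank ℚ K *
      2 ^ (2 * e0 * Module.finrank ℚ K * a.primeFactorsList.length) *
      (32 * 5 ^ Module.finrank ℚ K * (Module.finrank ℚ K : ℝ) ^ 2 * (Y : ℝ) *
        (1 + Real.log T) ^ Module.finrank ℚ K) with hE
  set c : ℝ := (𝒬.card : ℝ) * (((w1 : ℝ) - 1) * ((w2 : ℝ) - 1)) with hc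
  have hfib : ∀ D0 : Subgroup (K ≃ₐ[ℚ] K),
      (((R.filter (fun p => D p = D0)).card : ℕ) : ℝ) * c ≤ E := by
    intro D0
    rw [hc, ← mul_assoc]
    refine bad_D_cls K hcomm cc hcc B0 hB0 hnib g hgap e0 Q hQg 𝒬 hneQ h𝒬 T hT1 hT w1 w2 ρ hw1 hw2
      hne hQ1 hQ2 hρ1 hρ2 Y hY a ha D0 (R.filter (fun p => D p = D0)) ?_
    intro p hp
    rw [Finset.mem_filter] at hp
    obtain ⟨h1, h2, h2', h3, h4, h5⟩ := hR p hp.1
    obtain ⟨P, hP, hpP, hτ⟩ := hD p h1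
    exact ⟨h1, h2, h2', h3, h4, h5, P, hP, hpP, fun τ => by rw [hτ τ, hp.2]⟩
  have hE0 : 0 ≤ E := by positivity
  have hnum : (R.image D).card ≤ 2 ^ Module.finrank ℚ K := by
    have h1 : (R.image D).card ≤ Fintype.card (Set (K ≃ₐ[ℚ] K)) := by
      have h2 : ((R.image D).image (fun D0 : Subgroup (K ≃ₐ[ℚ] K) => (D0 : Set (K ≃ₐ[ℚ] K)))).card
          ≤ Fintype.card (Set (K ≃ₐ[ℚ] K)) := Finset.card_le_univ _
      rwa [Finset.card_image_of_injective _ SetLike.coe_injective] at h2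
    rw [Fintype.card_set, ← Nat.card_eq_fintype_card, IsGalois.card_aut_eq_finrank] at h1
    exact h1
  rw [mul_assoc (R.card : ℝ), ← hc]
  refine (QC5_fib R D c E fun D0 _ => hfib D0).trans ?_
  refine mul_le_mul_of_nonneg_right ?_ hE0
  exact_mod_cast hnum

end Pool.Agent.Lib.MP_79499b_co.QZ
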