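import Pool.Agent.Lib.MP_79499b_co.QZ.QDef

/-!
# QC6: numerical facts, III

`e0 ≥ 1` fixed, `0 < κ ≤ 1/100`, `A` large, `1 ≤ i ≤ A^κ`, `Q = QA A κ`, `1 ≤ T`, `log T ≤ i (log i + 2 A^(1+κ))`,
`w ≤ exp(2 A^(1+κ))` (`w = w1 w2`), `exp(A^(1+6κ)) ≤ Y`:
(a) `(w^i T Q + 1)^i ≤ 2Y`: `log(w^i T Q + 1) ≤ 1 + 2 i A^(1+κ) + 3 A^(1+2κ) + A ≤ 7 A^(1+2κ)`, times `i`: `≤ 7 A^(1+3κ) ≤ A^(1+6κ)`.
(b) for `m ≤ A^κ`, `√Q ≤ c`:
`2^i (2 e0 i + 1)^i 2^(2 e0 i m) 32 5^i i^2 (1 + log T)^i 4 ≤ c exp(-A^(1/3))`: the logarithm of the left side is at most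
`C A^(2κ) log A ≤ A^(1/10)` and `log c ≥ A^(1-4κ)/2 - 1 ≥ A^(9/10)/2 - 1`.
-/

set_option autoImplicit false

namespace Pool.Agent.Lib.MP_79499b_co.QZ

open Finset DZ

private theorem QC6_pow {x a b : ℝ} {n : ℕ} (hx : 0 ≤ x) (hxa : x ≤ Real.exp a) (ha : 0 ≤ a)
    (hn : (n : ℝ) ≤ b) : x ^ n ≤ Real.exp (b * a) := by
  calc x ^ n ≤ (Real.exp a) ^ n := pow_le_pow_left₀ hx hxa n
    _ = Real.exp (n * a) := (Real.exp_nat_mul a n).symm
    _ ≤ Real.exp (b * a) := Real.exp_le_exp.2 (mul_le_mul_of_nonneg_right hn ha)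

private theorem QC6_two : (2 : ℝ) ≤ Real.exp 1 := by
  have := Real.add_one_le_exp (1 : ℝ)
  linarith

private theorem QC6_two_pow (n : ℕ) : (2 : ℝ) ^ n ≤ Real.exp n := by
  have h := QC6_pow (n := n) (b := n) (by norm_num) QC6_two (by norm_num) le_rfl
  rwa [mul_one] at h

theorem numA_cls (e0 : ℕ) (he0 : 1 ≤ e0) (κ : ℝ) (hκ : 0 < κ) (hκ1 : κ ≤ 1 / 100) :
    ∃ A0 : ℝ, ∀ A : ℝ, A0 ≤ A → ∀ i : ℕ, 1 ≤ i → (i : ℝ) ≤ A ^ κ →
      ∀ (T w : ℕ), 1 ≤ T → Real.log T ≤ i * (Real.log i + 2 * A ^ (1 + κ)) →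
      1 ≤ w → (w : ℝ) ≤ Real.exp (2 * A ^ (1 + κ)) →
      (∀ Y : ℕ, Real.exp (A ^ (1 + 6 * κ)) ≤ Y → (w ^ i * T * QA A κ + 1) ^ i ≤ 2 * Y) ∧
      ∀ (c : ℝ) (m : ℕ), √(QA A κ : ℝ) ≤ c → (m : ℝ) ≤ A ^ κ →
        2 ^ i * ((2 * (e0 : ℝ) * i + 1) ^ i * 2 ^ (2 * e0 * i * m) *
          (32 * 5 ^ i * (i : ℝ) ^ 2 * (1 + Real.log T) ^ i)) * 4 ≤
          c * Real.exp (-(A ^ (1 / 3 : ℝ))) := by
  obtain ⟨K0, hK0⟩ : ∃ K0 : ℝ, K0 = 11 + 2 * e0 + Real.log (3 * e0) := ⟨_, rfl⟩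
  have e0R : (1 : ℝ) ≤ e0 := by exact_mod_cast he0
  have hlog3 : 0 ≤ Real.log (3 * (e0 : ℝ)) := Real.log_nonneg (by linarith)
  have h1 := (tendsto_rpow_atTop (show 0 < 3 * κ by linarith)).eventually_ge_atTop (7 : ℝ)
  have h2 := (tendsto_rpow_atTop (show (0 : ℝ) < 17 / 30 by norm_num)).eventually_ge_atTop
    (2 * (K0 + 302))
  obtain ⟨A0, hA0⟩ := Filter.eventually_atTop.1 (h1.and (h2.and (Filter.eventually_ge_atTop (4 : ℝ))))
  refine ⟨A0, fun A hA i hi hiB T w hT hlogT hw hwe => ?_⟩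
  obtain ⟨hF1, hF2, hA4⟩ := hA0 A hA
  have hApos : 0 < A := by linarith
  obtain ⟨B, hB⟩ : ∃ B : ℝ, B = A ^ κ := ⟨_, rfl⟩
  rw [← hB] at hiB
  have hiR : (1 : ℝ) ≤ i := by exact_mod_cast hi
  have hB1 : 1 ≤ B := hiR.trans hiB
  have hB3 : 7 ≤ B ^ 3 := by
    have e : B ^ 3 = A ^ (3 * κ) := by
      rw [hB, ← Real.rpow_natCast, ← Real.rpow_mul hApos.le]
      congr 1
      push_cast
      ring
    rw [e]
    exact hF1
  have hB2A : B ^ 2 ≤ A := by
    have e : B ^ 2 = A ^ (2 * κ) := by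
      rw [hB, ← Real.rpow_natCast, ← Real.rpow_mul hApos.le]
      congr 1
      push_cast
      ring
    rw [e]
    calc A ^ (2 * κ) ≤ A ^ (1 : ℝ) := Real.rpow_le_rpow_of_exponent_le (by linarith) (by linarith)
      _ = A := Real.rpow_one A
  have hBA : B ≤ A := by nlinarith
  have hA1k : A ^ (1 + κ) = A * B := by rw [Real.rpow_add hApos, Real.rpow_one, hB]
  have hA6k : A ^ (1 + 6 * κ) = A * B ^ 6 := by
    rw [Real.rpow_add hApos, Real.rpow_one, hB, ← Real.rpow_natCast (A ^ κ), ← Real.rpow_mul hApos.le]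
    congr 2
    push_cast
    ring
  have hlogi : Real.log i ≤ B := by
    have := Real.log_le_sub_one_of_pos (show (0 : ℝ) < i by linarith)
    linarith
  have hlogi0 : 0 ≤ Real.log i := Real.log_nonneg hiR
  have hlogT' : Real.log T ≤ B * (B + 2 * (A * B)) := by
    rw [hA1k] at hlogT
    refine hlogT.trans (mul_le_mul hiB (by linarith) (by positivity) (by linarith))
  have hTR : (1 : ℝ) ≤ T := by exact_mod_cast hT
  have hlogT0 : 0 ≤ Real.log T := Real.log_nonneg hTR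
  have hwR : (1 : ℝ) ≤ w := by exact_mod_cast hw
  obtain ⟨Q, hQ⟩ : ∃ Q : ℕ, Q = QA A κ := ⟨_, rfl⟩
  have hQ1 : (Q : ℝ) ≤ Real.exp (A ^ (1 - 4 * κ)) := by
    rw [hQ]
    exact Nat.floor_le (Real.exp_pos _).le
  have hQ2 : Real.exp (A ^ (1 - 4 * κ)) ≤ Q + 1 := by
    rw [hQ]
    exact (Nat.lt_floor_add_one _).le
  rw [← hQ]
  constructor
  · intro Y hY
    rw [hA6k] at hY
    have k1 : (w : ℝ) ^ i ≤ Real.exp (B * (2 * (A * B))) := by
      rw [hA1k] at hwe
      exact QC6_pow (by linarith) hwe (by positivity) hiB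
    have k2 : (T : ℝ) ≤ Real.exp (B * (B + 2 * (A * B))) := by
      rw [← Real.exp_log (show (0 : ℝ) < T by linarith)]
      exact Real.exp_le_exp.2 hlogT'
    have k3 : (Q : ℝ) ≤ Real.exp A := by
      refine hQ1.trans (Real.exp_le_exp.2 ?_)
      calc A ^ (1 - 4 * κ) ≤ A ^ (1 : ℝ) :=
            Real.rpow_le_rpow_of_exponent_le (by linarith) (by linarith)
        _ = A := Real.rpow_one A
    obtain ⟨S, hS⟩ : ∃ S : ℝ, S = B * (2 * (A * B)) + B * (B + 2 * (A * B)) + A := ⟨_, rfl⟩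
    have hS0 : 0 ≤ S := by rw [hS]; positivity
    have k4 : (w : ℝ) ^ i * T * Q ≤ Real.exp S := by
      rw [hS, Real.exp_add, Real.exp_add]
      exact mul_le_mul (mul_le_mul k1 k2 (by linarith) (Real.exp_pos _).le) k3 (by positivity)
        (by positivity)
    have k5 : (w : ℝ) ^ i * T * Q + 1 ≤ Real.exp (S + 1) := by
      rw [Real.exp_add]
      have h3 : 1 ≤ Real.exp S := Real.one_le_exp hS0
      have h4 := QC6_two
      nlinarith
    have k6 : ((w : ℝ) ^ i * T * Q + 1) ^ i ≤ Real.exp (B * (S + 1)) :=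
      QC6_pow (by positivity) k5 (by linarith) hiB
    have k7 : B * (S + 1) ≤ A * B ^ 6 := by
      have h3 : S + 1 ≤ 7 * (A * B ^ 2) := by
        have h5 : B ^ 2 ≤ A * B ^ 2 := by nlinarith [sq_nonneg B]
        have h6 : A ≤ A * B ^ 2 := by nlinarith [one_le_pow₀ hB1 (n := 2)]
        rw [hS]
        nlinarith
      calc B * (S + 1) ≤ B * (7 * (A * B ^ 2)) := mul_le_mul_of_nonneg_left h3 (by linarith)
        _ = A * B ^ 3 * 7 := by ring
        _ ≤ A * B ^ 3 * B ^ 3 := mul_le_mul_of_nonneg_left hB3 (by positivity)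
        _ = A * B ^ 6 := by ring
    have k8 : ((w : ℝ) ^ i * T * Q + 1) ^ i ≤ 2 * Y := by
      have h3 : Real.exp (B * (S + 1)) ≤ Y := (Real.exp_le_exp.2 k7).trans hY
      have h4 : (0 : ℝ) ≤ Y := Nat.cast_nonneg _
      linarith
    exact_mod_cast k8
  · intro c m hc hm
    rw [← hB] at hm
    have hlA : 0 ≤ Real.log A := Real.log_nonneg (by linarith)
    have j1 : (2 : ℝ) ^ i ≤ Real.exp B := (QC6_two_pow i).trans (Real.exp_le_exp.2 hiB)
    have j2 : (2 * (e0 : ℝ) * i + 1) ^ i ≤ Real.exp (B * Real.log (3 * e0 * A)) := by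
      refine QC6_pow (by positivity) ?_ (Real.log_nonneg (by nlinarith)) hiB
      rw [Real.exp_log (by positivity)]
      have h3 : (i : ℝ) ≤ A := hiB.trans hBA
      have h4 : (e0 : ℝ) * i ≤ e0 * A := mul_le_mul_of_nonneg_left h3 (by linarith)
      have h5 : (1 : ℝ) ≤ e0 * A := by nlinarith
      nlinarith
    have j3 : (2 : ℝ) ^ (2 * e0 * i * m) ≤ Real.exp (2 * e0 * B ^ 2) := by
      refine (QC6_two_pow _).trans (Real.exp_le_exp.2 ?_)
      push_cast
      have h3 : (i : ℝ) * m ≤ B * B := mul_le_mul hiB hm (Nat.cast_nonneg _) (by linarith)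
      calc 2 * (e0 : ℝ) * i * m = 2 * e0 * (i * m) := by ring
        _ ≤ 2 * e0 * (B * B) := mul_le_mul_of_nonneg_left h3 (by positivity)
        _ = 2 * e0 * B ^ 2 := by ring
    have j4 : (32 : ℝ) ≤ Real.exp 5 := by
      have := QC6_two_pow 5
      norm_num at this
      exact this
    have j5 : (5 : ℝ) ^ i ≤ Real.exp (B * 3) := by
      refine QC6_pow (by norm_num) ?_ (by norm_num) hiB
      have := QC6_two_pow 3
      norm_num at this
      linarith
    have j6 : (i : ℝ) ^ 2 ≤ Real.exp (2 * Real.log A) := by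
      refine QC6_pow (by positivity) ?_ hlA (by norm_num)
      rw [Real.exp_log hApos]
      exact hiB.trans hBA
    have j7 : (1 + Real.log T) ^ i ≤ Real.exp (B * (3 * Real.log A)) := by
      refine QC6_pow (by linarith) ?_ (by linarith) hiB
      have h3 : Real.exp (3 * Real.log A) = A ^ 3 := by
        rw [show (3 : ℝ) * Real.log A = ((3 : ℕ) : ℝ) * Real.log A by norm_num, Real.exp_nat_mul,
          Real.exp_log hApos]
      rw [h3]
      have h4 : B * (B + 2 * (A * B)) = B ^ 2 * (1 + 2 * A) := by ring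
      rw [h4] at hlogT'
      have h5 : B ^ 2 * (1 + 2 * A) ≤ A * (1 + 2 * A) :=
        mul_le_mul_of_nonneg_right hB2A (by linarith)
      nlinarith [mul_pos hApos hApos, mul_nonneg hApos.le (sub_nonneg.2 hA4)]
    have j8 : (4 : ℝ) ≤ Real.exp 2 := by
      have := QC6_two_pow 2
      norm_num at this
      exact this
    have hlogT1 : 0 ≤ 1 + Real.log T := by linarith
    obtain ⟨E, hE⟩ : ∃ E : ℝ, E = B + (B * Real.log (3 * e0 * A) + 2 * e0 * B ^ 2 +
        (5 + B * 3 + 2 * Real.log A + B * (3 * Real.log A))) + 2 := ⟨_, rfl⟩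
    have j9 : 2 ^ i * ((2 * (e0 : ℝ) * i + 1) ^ i * 2 ^ (2 * e0 * i * m) *
          (32 * 5 ^ i * (i : ℝ) ^ 2 * (1 + Real.log T) ^ i)) * 4 ≤ Real.exp E := by
      rw [hE]
      simp only [Real.exp_add]
      have m1 : (32 : ℝ) * 5 ^ i ≤ Real.exp 5 * Real.exp (B * 3) :=
        mul_le_mul j4 j5 (by positivity) (Real.exp_pos _).le
      have m2 : (32 : ℝ) * 5 ^ i * (i : ℝ) ^ 2 ≤ Real.exp 5 * Real.exp (B * 3) *
          Real.exp (2 * Real.log A) := mul_le_mul m1 j6 (by positivity) (by positivity)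
      have m3 : (32 : ℝ) * 5 ^ i * (i : ℝ) ^ 2 * (1 + Real.log T) ^ i ≤
          Real.exp 5 * Real.exp (B * 3) * Real.exp (2 * Real.log A) *
          Real.exp (B * (3 * Real.log A)) := mul_le_mul m2 j7 (by positivity) (by positivity)
      have m4 : (2 * (e0 : ℝ) * i + 1) ^ i * 2 ^ (2 * e0 * i * m) ≤
          Real.exp (B * Real.log (3 * e0 * A)) * Real.exp (2 * e0 * B ^ 2) :=
        mul_le_mul j2 j3 (by positivity) (Real.exp_pos _).le
      have m5 := mul_le_mul m4 m3 (by positivity) (by positivity)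
      have m6 := mul_le_mul j1 m5 (by positivity) (Real.exp_pos _).le
      exact mul_le_mul m6 j8 (by norm_num) (by positivity)
    refine j9.trans ?_
    -- the lower bound for `c`
    have l1 : Real.exp (A ^ (1 - 4 * κ) / 2 - 1) ≤ c := by
      refine le_trans ?_ hc
      apply Real.le_sqrt_of_sq_le
      rw [← Real.exp_nat_mul]
      have h3 : ((2 : ℕ) : ℝ) * (A ^ (1 - 4 * κ) / 2 - 1) = A ^ (1 - 4 * κ) - 2 := by
        push_cast
        ring
      rw [h3, Real.exp_sub]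
      have h4 : 1 ≤ A ^ (1 - 4 * κ) := Real.one_le_rpow (by linarith) (by linarith)
      have h5 : Real.exp 1 ≤ Real.exp (A ^ (1 - 4 * κ)) := Real.exp_le_exp.2 h4
      have h6 := QC6_two
      rw [div_le_iff₀ (Real.exp_pos 2)]
      have h7 : (0 : ℝ) ≤ Q := Nat.cast_nonneg _
      nlinarith
    have l2 : A ^ (9 / 10 : ℝ) ≤ A ^ (1 - 4 * κ) :=
      Real.rpow_le_rpow_of_exponent_le (by linarith) (by linarith)
    have l3 : E + A ^ (1 / 3 : ℝ) + 1 ≤ A ^ (9 / 10 : ℝ) / 2 := by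
      obtain ⟨D, hD⟩ : ∃ D : ℝ, D = A ^ (1 / 50 : ℝ) := ⟨_, rfl⟩
      have hD1 : 1 ≤ D := by
        rw [hD]
        exact Real.one_le_rpow (by linarith) (by norm_num)
      have hB2D : B ^ 2 ≤ D := by
        have e : B ^ 2 = A ^ (2 * κ) := by
          rw [hB, ← Real.rpow_natCast, ← Real.rpow_mul hApos.le]
          congr 1
          push_cast
          ring
        rw [e, hD]
        exact Real.rpow_le_rpow_of_exponent_le (by linarith) (by linarith)
      have hBD : B ≤ D := by nlinarith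
      have hlogD : Real.log A ≤ 50 * D := by
        have := Real.log_le_rpow_div hApos.le (show (0 : ℝ) < 1 / 50 by norm_num)
        rw [← hD] at this
        linarith
      have hD2 : D ^ 2 ≤ A ^ (1 / 3 : ℝ) := by
        have e : D ^ 2 = A ^ (1 / 25 : ℝ) := by
          rw [hD, ← Real.rpow_natCast, ← Real.rpow_mul hApos.le]
          congr 1
          norm_num
        rw [e]
        exact Real.rpow_le_rpow_of_exponent_le (by linarith) (by norm_num)
      have hlog3A : Real.log (3 * e0 * A) = Real.log (3 * e0) + Real.log A :=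
        Real.log_mul (by positivity) hApos.ne'
      have n1 : B * Real.log (3 * e0 * A) ≤ D * Real.log (3 * e0) + D * Real.log A := by
        rw [hlog3A, mul_add]
        exact add_le_add (mul_le_mul_of_nonneg_right hBD hlog3)
          (mul_le_mul_of_nonneg_right hBD hlA)
      have n2 : 2 * (e0 : ℝ) * B ^ 2 ≤ 2 * e0 * D := mul_le_mul_of_nonneg_left hB2D (by positivity)
      have n3 : B * (3 * Real.log A) ≤ D * (3 * Real.log A) :=
        mul_le_mul_of_nonneg_right hBD (by linarith)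
      have n4 : Real.log A ≤ D * Real.log A := by nlinarith
      have n5 : D * Real.log A ≤ 50 * D ^ 2 := by nlinarith
      have n6 : D ≤ D ^ 2 := by nlinarith
      have n7 : E ≤ K0 * D + 6 * (D * Real.log A) := by
        rw [hE, hK0]
        nlinarith
      have hK0p : 0 ≤ K0 := by rw [hK0]; positivity
      have n8 : K0 * D ≤ K0 * D ^ 2 := mul_le_mul_of_nonneg_left n6 hK0p
      have n9 : E ≤ (K0 + 300) * D ^ 2 := by nlinarith
      have n10 : (K0 + 300) * D ^ 2 ≤ (K0 + 300) * A ^ (1 / 3 : ℝ) :=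
        mul_le_mul_of_nonneg_left hD2 (by linarith)
      have n11 : 1 ≤ A ^ (1 / 3 : ℝ) := Real.one_le_rpow (by linarith) (by norm_num)
      have n12 : A ^ (9 / 10 : ℝ) = A ^ (17 / 30 : ℝ) * A ^ (1 / 3 : ℝ) := by
        rw [← Real.rpow_add hApos]
        norm_num
      have n13 : 2 * (K0 + 302) * A ^ (1 / 3 : ℝ) ≤ A ^ (17 / 30 : ℝ) * A ^ (1 / 3 : ℝ) :=
        mul_le_mul_of_nonneg_right hF2 (by positivity)
      rw [n12]
      linarith
    calc Real.exp E ≤ Real.exp ((A ^ (1 - 4 * κ) / 2 - 1) + -(A ^ (1 / 3 : ℝ))) :=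
          Real.exp_le_exp.2 (by linarith)
      _ = Real.exp (A ^ (1 - 4 * κ) / 2 - 1) * Real.exp (-(A ^ (1 / 3 : ℝ))) := Real.exp_add _ _
      _ ≤ c * Real.exp (-(A ^ (1 / 3 : ℝ))) :=
          mul_le_mul_of_nonneg_right l1 (Real.exp_pos _).le

end Pool.Agent.Lib.MP_79499b_co.QZ
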