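import Pool.Agent.Lib.MP_79499b_co.DZ.NMany
import Pool.Agent.Lib.MP_79499b_co.DZ.NPH
import Pool.Agent.Lib.MP_79499b_co.QZ.QDef

/-!
# QN2: many split primes for the pairs which are not exceptional

`split_A`: for large `A`, `CPair A κ c1 c2 w1 w2 r1 r2` and `¬ ExcP A κ w1 w2`: `√Q ≤ |SpS Q w1 w2 r1 r2|`, `Q = QA A κ`.

Proof (as at the end of NSX.lean). `B = hB Q`; `Q ≤ exp A^(1-4κ) ≤ exp A < w_i`, so no `q ∈ B` is divisible by `w_i`.
`i = c1 c2 ≤ A^κ`, `c_i ≥ 1` (`w_i = c_i r_i + 1 > 1`). Let `W ∈ {w1, w2, w1 w2}`: `2 ≤ W ≤ exp(2 A^(1+κ))`, `W ∉ EW A κ`, so every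
primitive `χ` mod `W` has `‖∑_{q ∈ B} χ q‖ < |B|/(2 A^κ) ≤ |B|/(2 c1 c2)`. `split_many` (NMany) gives
`|B|/(2 c1 c2) ≤ |{q ∈ B : q^r1 = 1 mod w1, q^r2 = 1 mod w2}| = |SpS Q w1 w2 r1 r2|` (same filter), and
`|B| ≥ Q/(4 log Q)` (`primes_half`), so the left side is at least `Q/(8 A^κ log Q) ≥ √Q` for large `A`
(`log Q ≤ A`, `√Q ≥ 8 A^(1+κ)`).
-/

set_option autoImplicit false

namespace Pool.Agent.Lib.MP_79499b_co.QZ

open Finset DZ

theorem split_A (κ : ℝ) (hκ : 0 < κ) (hκ1 : κ ≤ 1 / 100) : ∃ A0 : ℝ, ∀ A : ℝ, A0 ≤ A →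
    ∀ c1 c2 w1 w2 r1 r2 : ℕ, CPair A κ c1 c2 w1 w2 r1 r2 → ¬ ExcP A κ w1 w2 →
      √(QA A κ : ℝ) ≤ ((SpS (QA A κ) w1 w2 r1 r2).card : ℝ) := by
  classical
  obtain ⟨Q0, hQ0⟩ := primes_half
  refine ⟨max ((10 : ℝ) ^ 16) Q0, ?_⟩
  intro A hA c1 c2 w1 w2 r1 r2 hP hE
  have hA16 : (10 : ℝ) ^ 16 ≤ A := (le_max_left _ _).trans hA
  have hAQ0 : (Q0 : ℝ) ≤ A := (le_max_right _ _).trans hA
  have hA1 : (1 : ℝ) ≤ A := le_trans (by norm_num) hA16
  have hA0 : (0 : ℝ) < A := by linarith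
  -- the exponent
  obtain ⟨y, hy⟩ : ∃ y : ℝ, y = √A := ⟨_, rfl⟩
  have hy8 : (10 : ℝ) ^ 8 ≤ y := by
    rw [hy]
    apply Real.le_sqrt_of_sq_le
    norm_num at hA16 ⊢
    linarith
  have hyA : y ^ 2 = A := by rw [hy, Real.sq_sqrt hA0.le]
  obtain ⟨t, ht⟩ : ∃ t : ℝ, t = A ^ (1 - 4 * κ) := ⟨_, rfl⟩
  have hty : y ≤ t := by
    rw [hy, ht, Real.sqrt_eq_rpow]
    exact Real.rpow_le_rpow_of_exponent_le hA1 (by linarith)
  have htA : t ≤ A := by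
    rw [ht]
    calc A ^ (1 - 4 * κ) ≤ A ^ (1 : ℝ) := Real.rpow_le_rpow_of_exponent_le hA1 (by linarith)
      _ = A := Real.rpow_one A
  have hexp : 128 * A ^ 4 ≤ Real.exp t := by
    have h1 := Real.pow_div_factorial_le_exp y (by linarith) 9
    have h2 : 128 * A ^ 4 ≤ y ^ 9 / ((9).factorial : ℝ) := by
      rw [← hyA, le_div_iff₀ (by positivity)]
      have h3 : ((9).factorial : ℝ) = 362880 := by norm_num [Nat.factorial]
      rw [h3]
      have h4 : 128 * (y ^ 2) ^ 4 * 362880 = y ^ 8 * (128 * 362880) := by ring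
      have h5 : y ^ 9 = y ^ 8 * y := by ring
      rw [h4, h5]
      apply mul_le_mul_of_nonneg_left _ (by positivity)
      norm_num at hy8 ⊢
      linarith
    exact h2.trans (h1.trans (Real.exp_le_exp.2 hty))
  obtain ⟨Q, hQ⟩ : ∃ Q : ℕ, Q = QA A κ := ⟨_, rfl⟩
  have hQdef : Q = ⌊Real.exp t⌋₊ := by rw [hQ, ht]; rfl
  have hQle : (Q : ℝ) ≤ Real.exp t := by
    rw [hQdef]; exact Nat.floor_le (Real.exp_pos _).le
  have hQlt : Real.exp t < Q + 1 := by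
    rw [hQdef]; exact Nat.lt_floor_add_one _
  have hA4 : A ≤ A ^ 4 := by
    calc A = A ^ 1 := (pow_one A).symm
      _ ≤ A ^ 4 := pow_le_pow_right₀ hA1 (by norm_num)
  have hQ64 : (8 * A ^ 2) ^ 2 ≤ Q := by
    have h1 : (8 * A ^ 2) ^ 2 = 64 * A ^ 4 := by ring
    rw [h1]
    linarith
  have hQA : A ≤ Q := by
    have h1 : (8 * A ^ 2) ^ 2 = 64 * A ^ 4 := by ring
    rw [h1] at hQ64
    linarith
  have hQpos : (0 : ℝ) < Q := by linarith
  have hQ1 : (1 : ℝ) < Q := by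
    have : (10 : ℝ) ^ 16 ≤ Q := hA16.trans hQA
    norm_num at this
    linarith
  have hsq : 8 * A ^ 2 ≤ √(Q : ℝ) := Real.le_sqrt_of_sq_le hQ64
  have hlog : Real.log Q ≤ A := by
    have h1 : Real.log Q ≤ t := (Real.log_le_iff_le_exp hQpos).2 hQle
    linarith
  have hlogp : 0 < Real.log Q := Real.log_pos hQ1
  have hBcard : (Q : ℝ) / (4 * A) ≤ ((hB Q).card : ℝ) := by
    have h1 := hQ0 Q (by exact_mod_cast hAQ0.trans hQA)
    refine le_trans ?_ h1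
    apply div_le_div_of_nonneg_left hQpos.le (by positivity)
    linarith
  -- the pair
  have hw1 := hP.cell1.1
  have hw2 := hP.cell2.1
  have hc : ∀ w c r : ℕ, w.Prime → w = c * r + 1 → 1 ≤ c := by
    intro w c r hw e1
    rcases Nat.eq_zero_or_pos c with h | h
    · rw [h, zero_mul, zero_add] at e1
      exact absurd e1 hw.one_lt.ne'
    · exact h
  have hc1 := hc w1 c1 r1 hw1 hP.eq1
  have hc2 := hc w2 c2 r2 hw2 hP.eq2
  have hQw : ∀ w : ℕ, Cell A κ w → Q < w := by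
    intro w hw
    have h1 : (Q : ℝ) < w := by
      refine lt_of_le_of_lt hQle (lt_of_le_of_lt (Real.exp_le_exp.2 htA) hw.2.1)
    exact_mod_cast h1
  have hBw : ∀ q ∈ hB Q, ¬ w1 ∣ q ∧ ¬ w2 ∣ q := by
    intro q hq
    unfold hB at hq
    rw [Finset.mem_filter, Finset.mem_Icc] at hq
    constructor
    · intro h
      have h1 := Nat.le_of_dvd (by omega) h
      have h2 := hQw w1 hP.cell1
      omega
    · intro h
      have h1 := Nat.le_of_dvd (by omega) h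
      have h2 := hQw w2 hP.cell2
      omega
  have hcpos : (0 : ℝ) < 2 * c1 * c2 := by
    have h1 : (1 : ℝ) ≤ c1 := by exact_mod_cast hc1
    have h2 : (1 : ℝ) ≤ c2 := by exact_mod_cast hc2
    positivity
  have hcA : 2 * (c1 : ℝ) * c2 ≤ 2 * A ^ κ := by
    have h1 := hP.small
    push_cast at h1
    nlinarith
  have hAκ : A ^ κ ≤ A := by
    calc A ^ κ ≤ A ^ (1 : ℝ) := Real.rpow_le_rpow_of_exponent_le hA1 (by linarith)
      _ = A := Real.rpow_one A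
  have hAκ0 : 0 < A ^ κ := Real.rpow_pos_of_pos hA0 κ
  have hA1κ : 0 ≤ A ^ (1 + κ) := (Real.rpow_pos_of_pos hA0 _).le
  have hne' : ∀ W : ℕ, 2 ≤ W → (W : ℝ) ≤ Real.exp (2 * A ^ (1 + κ)) → W ∉ EW A κ →
      ∀ χ : DirichletCharacter ℂ W, χ.IsPrimitive →
        ‖∑ q ∈ hB Q, χ (q : ZMod W)‖ < ((hB Q).card : ℝ) / (2 * c1 * c2) := by
    intro W hW2 hWe hWn χ hχ
    have h1 : ‖∑ q ∈ hB Q, χ (q : ZMod W)‖ < ((hB Q).card : ℝ) / (2 * A ^ κ) := by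
      by_contra hcon
      push Not at hcon
      apply hWn
      unfold EW
      rw [Finset.mem_filter, Finset.mem_Icc]
      refine ⟨⟨hW2, Nat.le_floor hWe⟩, χ, hχ, ?_⟩
      rw [← hQ]
      exact hcon
    refine lt_of_lt_of_le h1 ?_
    exact div_le_div_of_nonneg_left (Nat.cast_nonneg _) hcpos hcA
  have hex1 : Real.exp (A ^ (1 + κ)) ≤ Real.exp (2 * A ^ (1 + κ)) :=
    Real.exp_le_exp.2 (by linarith)
  have hchar : ∀ W : ℕ, (W = w1 ∨ W = w2 ∨ W = w1 * w2) → ∀ χ : DirichletCharacter ℂ W,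
      χ.IsPrimitive → ‖∑ q ∈ hB Q, χ (q : ZMod W)‖ < ((hB Q).card : ℝ) / (2 * c1 * c2) := by
    unfold ExcP at hE
    push Not at hE
    intro W hW
    rcases hW with rfl | rfl | rfl
    · exact hne' _ hw1.two_le (hP.cell1.2.2.trans hex1) hE.1
    · exact hne' _ hw2.two_le (hP.cell2.2.2.trans hex1) hE.2.1
    · refine hne' _ ?_ ?_ hE.2.2
      · calc 2 = 2 * 1 := by norm_num
          _ ≤ w1 * w2 := Nat.mul_le_mul hw1.two_le hw2.one_le
      · have h1 : Real.exp (2 * A ^ (1 + κ)) = Real.exp (A ^ (1 + κ)) * Real.exp (A ^ (1 + κ)) := by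
          rw [← Real.exp_add]; congr 1; ring
        rw [h1]
        push_cast
        exact mul_le_mul hP.cell1.2.2 hP.cell2.2.2 (Nat.cast_nonneg _) (Real.exp_pos _).le
  have hsplit := split_many w1 w2 c1 c2 r1 r2 hw1 hw2 hP.ne hc1 hc2 hP.eq1 hP.eq2 (hB Q) hBw hchar
  have hset : (hB Q).filter (fun q : ℕ => (q : ZMod w1) ^ r1 = 1 ∧ (q : ZMod w2) ^ r2 = 1) =
      SpS Q w1 w2 r1 r2 := by
    unfold hB SpS
    ext q
    simp only [Finset.mem_filter]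
    tauto
  rw [hset] at hsplit
  rw [← hQ]
  refine le_trans ?_ hsplit
  rw [le_div_iff₀ hcpos]
  have h1 : √(Q : ℝ) * (2 * c1 * c2) ≤ √(Q : ℝ) * (2 * A) := by
    apply mul_le_mul_of_nonneg_left _ (Real.sqrt_nonneg _)
    linarith
  refine h1.trans (le_trans ?_ hBcard)
  rw [le_div_iff₀ (by positivity)]
  have h2 : √(Q : ℝ) * √(Q : ℝ) = Q := Real.mul_self_sqrt hQpos.le
  calc √(Q : ℝ) * (2 * A) * (4 * A) = √(Q : ℝ) * (8 * A ^ 2) := by ring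
    _ ≤ √(Q : ℝ) * √(Q : ℝ) := mul_le_mul_of_nonneg_left hsq (Real.sqrt_nonneg _)
    _ = Q := h2

end Pool.Agent.Lib.MP_79499b_co.QZ
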