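import Pool.Agent.Lib.MP_79499b_co.QZ.QDef

/-!
# QN4: numerical facts, I

`e0 ≥ 1` fixed, `0 < κ ≤ 1/100`, `A` large, `1 ≤ i ≤ A^κ`, `Q = QA A κ = ⌊exp A^(1-4κ)⌋`.
(a) `Q^(2 e0 i) ≤ exp(2 e0 A^κ A^(1-4κ)) = exp(2 e0 A^(1-3κ))`, and `exp(A/i)/2 ≥ exp(A^(1-κ))/2`; `2 e0 A^(1-3κ) + log 2 ≤ A^(1-κ)`.
(b) `Q ≤ exp A^(1-4κ) < exp A`, `1 ≤ Q`.
(c) `(ZA A)^(e0 m) ≤ exp(2 A^(1/2) e0 A^κ) ≤ exp(A^(1-κ))/2` for `m ≤ A^κ`.
(d) `1 ≤ exp(A/i)/2`.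
-/

set_option autoImplicit false

namespace Pool.Agent.Lib.MP_79499b_co.QZ

open Finset DZ

private theorem QN4_two {x y : ℝ} (h : x + 1 ≤ y) : Real.exp x ≤ Real.exp y / 2 := by
  have h1 : Real.exp x * 2 ≤ Real.exp y := by
    have h2 : (2 : ℝ) ≤ Real.exp 1 := by
      have := Real.add_one_le_exp (1 : ℝ)
      linarith
    calc Real.exp x * 2 ≤ Real.exp x * Real.exp 1 :=
          mul_le_mul_of_nonneg_left h2 (Real.exp_pos x).le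
      _ = Real.exp (x + 1) := (Real.exp_add x 1).symm
      _ ≤ Real.exp y := Real.exp_le_exp.2 h
  linarith

theorem numA_q (e0 : ℕ) (he0 : 1 ≤ e0) (κ : ℝ) (hκ : 0 < κ) (hκ1 : κ ≤ 1 / 100) :
    ∃ A0 : ℝ, ∀ A : ℝ, A0 ≤ A → ∀ i : ℕ, 1 ≤ i → (i : ℝ) ≤ A ^ κ →
      (QA A κ : ℝ) ^ (2 * (e0 * i)) ≤ Real.exp (A / i) / 2 ∧
      (QA A κ : ℝ) < Real.exp A ∧ 1 ≤ QA A κ ∧
      (∀ m : ℕ, (m : ℝ) ≤ A ^ κ → ZA A ^ (e0 * m) ≤ Real.exp (A / i) / 2) ∧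
      1 ≤ Real.exp (A / i) / 2 := by
  have he : (1 : ℝ) ≤ e0 := by exact_mod_cast he0
  refine ⟨max 2 ((2 * (e0 : ℝ) + 1) ^ (1 / (2 * κ))), fun A hA i hi1 hi2 => ?_⟩
  have hA2 : (2 : ℝ) ≤ A := le_trans (le_max_left _ _) hA
  have hA0 : 0 < A := by linarith
  have hA1 : (1 : ℝ) ≤ A := by linarith
  have hbig : 2 * (e0 : ℝ) + 1 ≤ A ^ (2 * κ) := by
    have h1 : ((2 * (e0 : ℝ) + 1) ^ (1 / (2 * κ))) ^ (2 * κ) ≤ A ^ (2 * κ) :=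
      Real.rpow_le_rpow (by positivity) (le_trans (le_max_right _ _) hA) (by positivity)
    rw [← Real.rpow_mul (by positivity), one_div_mul_cancel (by positivity), Real.rpow_one] at h1
    exact h1
  have hbig2 : 2 * (e0 : ℝ) + 1 ≤ A ^ (1 / 2 - 2 * κ) :=
    le_trans hbig (Real.rpow_le_rpow_of_exponent_le hA1 (by linarith))
  have hi0 : (1 : ℝ) ≤ i := by exact_mod_cast hi1
  have hiA : A ^ (1 - κ) ≤ A / i := by
    rw [Real.rpow_sub hA0, Real.rpow_one]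
    exact div_le_div_of_nonneg_left hA0.le (by linarith) hi2
  have e1 : A ^ (1 - κ) = A ^ (1 - 3 * κ) * A ^ (2 * κ) := by
    rw [← Real.rpow_add hA0]
    congr 1
    ring
  have e2 : A ^ (1 - κ) = A ^ (1 / 2 + κ) * A ^ (1 / 2 - 2 * κ) := by
    rw [← Real.rpow_add hA0]
    congr 1
    ring
  have p1 : 1 ≤ A ^ (1 - 3 * κ) := Real.one_le_rpow hA1 (by linarith)
  have p2 : 1 ≤ A ^ (1 / 2 + κ) := Real.one_le_rpow hA1 (by linarith)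
  have hQ : (QA A κ : ℝ) ≤ Real.exp (A ^ (1 - 4 * κ)) := Nat.floor_le (Real.exp_pos _).le
  refine ⟨?_, ?_, ?_, ?_, ?_⟩
  · have h1 : (QA A κ : ℝ) ^ (2 * (e0 * i)) ≤ Real.exp (A ^ (1 - 4 * κ)) ^ (2 * (e0 * i)) :=
      pow_le_pow_left₀ (Nat.cast_nonneg _) hQ _
    rw [← Real.exp_nat_mul] at h1
    refine le_trans h1 (QN4_two (le_trans ?_ hiA))
    have h2 : (i : ℝ) * A ^ (1 - 4 * κ) ≤ A ^ (1 - 3 * κ) := by
      have h3 : A ^ (1 - 3 * κ) = A ^ κ * A ^ (1 - 4 * κ) := by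
        rw [← Real.rpow_add hA0]
        congr 1
        ring
      rw [h3]
      exact mul_le_mul_of_nonneg_right hi2 (Real.rpow_nonneg hA0.le _)
    have h4 : ((2 * (e0 * i) : ℕ) : ℝ) * A ^ (1 - 4 * κ) ≤ 2 * e0 * A ^ (1 - 3 * κ) := by
      push_cast
      calc 2 * ((e0 : ℝ) * i) * A ^ (1 - 4 * κ) = 2 * e0 * (i * A ^ (1 - 4 * κ)) := by ring
        _ ≤ 2 * e0 * A ^ (1 - 3 * κ) := mul_le_mul_of_nonneg_left h2 (by positivity)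
    rw [e1]
    nlinarith
  · refine lt_of_le_of_lt hQ (Real.exp_lt_exp.2 ?_)
    calc A ^ (1 - 4 * κ) < A ^ (1 : ℝ) := Real.rpow_lt_rpow_of_exponent_lt (by linarith) (by linarith)
      _ = A := Real.rpow_one A
  · refine Nat.le_floor ?_
    rw [Nat.cast_one]
    exact Real.one_le_exp (Real.rpow_nonneg hA0.le _)
  · intro m hm
    unfold ZA
    rw [← Real.exp_nat_mul]
    refine QN4_two (le_trans ?_ hiA)
    have h2 : (m : ℝ) * A ^ (1 / 2 : ℝ) ≤ A ^ (1 / 2 + κ) := by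
      have h3 : A ^ (1 / 2 + κ) = A ^ κ * A ^ (1 / 2 : ℝ) := by
        rw [← Real.rpow_add hA0]
        congr 1
        ring
      rw [h3]
      exact mul_le_mul_of_nonneg_right hm (Real.rpow_nonneg hA0.le _)
    have h4 : ((e0 * m : ℕ) : ℝ) * (2 * A ^ (1 / 2 : ℝ)) ≤ 2 * e0 * A ^ (1 / 2 + κ) := by
      push_cast
      calc (e0 : ℝ) * m * (2 * A ^ (1 / 2 : ℝ)) = 2 * e0 * (m * A ^ (1 / 2 : ℝ)) := by ring
        _ ≤ 2 * e0 * A ^ (1 / 2 + κ) := mul_le_mul_of_nonneg_left h2 (by positivity)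
    rw [e2]
    nlinarith
  · have h1 := QN4_two (x := 0) (y := A / i) (by
      have h2 : 1 ≤ A ^ (1 - κ) := Real.one_le_rpow hA1 (by linarith)
      linarith)
    rw [Real.exp_zero] at h1
    exact h1

end Pool.Agent.Lib.MP_79499b_co.QZ
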