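import Pool.Agent.Lib.MP_79499b_co.DZ.NRar
import Pool.Agent.Lib.MP_79499b_co.QZ.QN2
import Pool.Agent.Lib.MP_79499b_co.QZ.QN4
import Pool.Agent.Lib.MP_79499b_co.QZ.QC5
import Pool.Agent.Lib.MP_79499b_co.QZ.QC6

/-!
# QC7: bad primes in one residue class are rare

`rareA_cls`: large `A`, a pair which is not exceptional, `Ω(a) ≤ A^κ`, `exp(A^(1+6κ)) ≤ Y`: a finite set `R` of primes `p ≤ 2Y`,
`p ≡ ρ mod w1 w2`, `p ∤ a`, `p ∤ w1 w2`, bad for `a` in `K = KF F (r1 r2)`, has at most `(Y/(w1 w2)) exp(-A^(1/3))` elements.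

Proof: as `rareA` (QN6) / `rare_prime` (NRar.lean), with `bad_cls` in place of `bad_all`: `i = c1 c2`, `g = exp(A/i)/2`,
`Q = QA A κ < exp A < w_k`, `T = (i r1 r2)^i`, `𝒬 = SpS Q w1 w2 r1 r2`, `|𝒬| ≥ √Q`. If `R` is empty nothing is to be shown;
otherwise `ρ` is coprime to `w1 w2` because some `p ≡ ρ` is. `numA_cls` (a) with `w = w1 w2 ≤ exp(2 A^(1+κ))` is the hypothesis
`hY`, (b) with `c = |𝒬|` gives `|R| |𝒬| (w1-1)(w2-1) ≤ Y |𝒬| exp(-A^(1/3))/4`, and `(w1-1)(w2-1) ≥ w1 w2/4`.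
-/

set_option autoImplicit false

open NumberField

namespace Pool.Agent.Lib.MP_79499b_co.QZ

open Finset DZ

private theorem qc7_comm (F : Type) [Field F] [NumberField F] [IsGalois ℚ F]
    (hcomm : ∀ σ τ : F ≃ₐ[ℚ] F, σ * τ = τ * σ) (D : Subgroup (F ≃ₐ[ℚ] F))
    (σ τ : (IntermediateField.fixedField D) ≃ₐ[ℚ] (IntermediateField.fixedField D)) :
    σ * τ = τ * σ := by
  obtain ⟨s, hs, -⟩ := lf_lift F hcomm D σ
  obtain ⟨t, ht, -⟩ := lf_lift F hcomm D τ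
  refine AlgEquiv.ext fun x => Subtype.ext ?_
  rw [AlgEquiv.mul_apply, AlgEquiv.mul_apply, ← hs, ← ht, ← ht, ← hs]
  have h := AlgEquiv.congr_fun (hcomm s t) (x : F)
  rw [AlgEquiv.mul_apply, AlgEquiv.mul_apply] at h
  exact h

private theorem qc7_log (i r : ℕ) (hi : 1 ≤ i) (hr : 1 ≤ r) :
    Real.log (((i * r) ^ i : ℕ) : ℝ) = i * (Real.log i + Real.log r) := by
  have hi' : (i : ℝ) ≠ 0 := by
    have : (0 : ℝ) < i := by exact_mod_cast hi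
    exact this.ne'
  have hr' : (r : ℝ) ≠ 0 := by
    have : (0 : ℝ) < r := by exact_mod_cast hr
    exact this.ne'
  rw [Nat.cast_pow, Nat.cast_mul, Real.log_pow, Real.log_mul hi' hr']

/-- the final inequality -/
private theorem qc7_fin (R S B C w1 w2 Y E : ℝ) (hS : 0 < S) (hw1 : 2 ≤ w1)
    (hw2 : 2 ≤ w2) (hY : 0 ≤ Y)
    (h1 : R * S * ((w1 - 1) * (w2 - 1)) ≤ B * (C * Y))
    (h2 : B * C * 4 ≤ S * E) (hR : 0 ≤ R) : R ≤ Y / (w1 * w2) * E := by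
  have hw : w1 * w2 ≤ 4 * ((w1 - 1) * (w2 - 1)) := by
    have a1 : w1 / 2 ≤ w1 - 1 := by linarith
    have a2 : w2 / 2 ≤ w2 - 1 := by linarith
    have := mul_le_mul a1 a2 (by linarith) (by linarith)
    linarith
  have hpos : 0 < w1 * w2 := by nlinarith
  have h3 : S * (R * (w1 * w2)) ≤ S * (Y * E) := by
    have b1 : R * S * (w1 * w2) ≤ R * S * (4 * ((w1 - 1) * (w2 - 1))) :=
      mul_le_mul_of_nonneg_left hw (mul_nonneg hR hS.le)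
    have b2 : B * C * 4 * Y ≤ S * E * Y := mul_le_mul_of_nonneg_right h2 hY
    nlinarith
  have h4 : R * (w1 * w2) ≤ Y * E := le_of_mul_le_mul_left h3 hS
  rw [div_mul_eq_mul_div, le_div_iff₀ hpos]
  exact h4

theorem rareA_cls (e0 : ℕ) (he0 : 1 ≤ e0) (κ : ℝ) (hκ : 0 < κ) (hκ1 : κ ≤ 1 / 100) :
    ∃ A0 : ℝ, ∀ A : ℝ, A0 ≤ A → ∀ c1 c2 w1 w2 r1 r2 : ℕ, CPair A κ c1 c2 w1 w2 r1 r2 →
      ¬ ExcP A κ w1 w2 → ∀ a : ℕ, a ≠ 0 → (a.primeFactorsList.length : ℝ) ≤ A ^ κ →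
      ∀ Y : ℕ, Real.exp (A ^ (1 + 6 * κ)) ≤ Y → ∀ (ρ : ℕ) (R : Finset ℕ),
      (∀ p ∈ R, p.Prime ∧ p ≤ 2 * Y ∧ p ≡ ρ [MOD w1 * w2] ∧ ¬ p ∣ a ∧ ¬ p ∣ w1 * w2 ∧
        BadP (KF (FW w1 w2) (r1 * r2)) e0 a p) →
      (R.card : ℝ) ≤ Y / ((w1 : ℝ) * w2) * Real.exp (-(A ^ (1 / 3 : ℝ))) := by
  classical
  obtain ⟨xq, hxq⟩ := numA_q e0 he0 κ hκ hκ1
  obtain ⟨xr, hxr⟩ := numA_cls e0 he0 κ hκ hκ1
  obtain ⟨xs, hxs⟩ := split_A κ hκ hκ1
  refine ⟨max xq (max xr xs), ?_⟩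
  intro A hA c1 c2 w1 w2 r1 r2 hG hEx a ha hOm Y hY ρ R hR
  have hScard := hxs A ((le_max_right _ _).trans ((le_max_right _ _).trans hA)) c1 c2 w1 w2 r1 r2
    hG hEx
  obtain ⟨hw1, hw2, hne, e1, e2, hcr1, hcr2, hrr, hsmall⟩ := hG
  have p1 := hw1.1
  have p2 := hw2.1
  have hw1p : (0 : ℝ) < w1 := by exact_mod_cast p1.pos
  have hw2p : (0 : ℝ) < w2 := by exact_mod_cast p2.pos
  rcases R.eq_empty_or_nonempty with hRe | ⟨p0, hp0⟩
  · rw [hRe, Finset.card_empty, Nat.cast_zero]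
    exact mul_nonneg (div_nonneg (Nat.cast_nonneg _) (mul_pos hw1p hw2p).le) (Real.exp_pos _).le
  have hc1 : 1 ≤ c1 := by
    rcases Nat.eq_zero_or_pos c1 with h | h
    · rw [h, zero_mul, zero_add] at e1
      exact absurd e1 p1.one_lt.ne'
    · exact h
  have hc2 : 1 ≤ c2 := by
    rcases Nat.eq_zero_or_pos c2 with h | h
    · rw [h, zero_mul, zero_add] at e2
      exact absurd e2 p2.one_lt.ne'
    · exact h
  have hi1 : 1 ≤ c1 * c2 := Nat.mul_pos hc1 hc2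
  obtain ⟨hQ1, hQ2, hQ3, -, -⟩ := hxq A ((le_max_left _ _).trans hA) (c1 * c2) hi1 hsmall
  have hrare := hxr A ((le_max_left _ _).trans ((le_max_right _ _).trans hA)) (c1 * c2) hi1 hsmall
  have hr1 : 1 ≤ r1 := by
    rcases Nat.eq_zero_or_pos r1 with h | h
    · rw [h, mul_zero, zero_add] at e1
      exact absurd e1 p1.one_lt.ne'
    · exact h
  have hr2 : 1 ≤ r2 := by
    rcases Nat.eq_zero_or_pos r2 with h | h
    · rw [h, mul_zero, zero_add] at e2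
      exact absurd e2 p2.one_lt.ne'
    · exact h
  have : NeZero (w1 * w2) := ⟨(Nat.mul_pos p1.pos p2.pos).ne'⟩
  have hgalF : IsGalois ℚ (CyclotomicField (w1 * w2) ℚ) := cyc_galois (w1 * w2)
  have hcommF := cyc_comm (w1 * w2)
  have hgalK : IsGalois ℚ (KF (CyclotomicField (w1 * w2) ℚ) (r1 * r2)) :=
    lf_galois _ hcommF _
  obtain ⟨cc, hcc⟩ := cyc_conj (w1 * w2)
  obtain ⟨ccL, hccL⟩ := lf_conj _ hcommF (Mgp (CyclotomicField (w1 * w2) ℚ) (r1 * r2)) cc hcc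
  have hnib := nib_sub _ hcommF (Mgp (CyclotomicField (w1 * w2) ℚ) (r1 * r2)) 1
    (nib_cyc w1 w2 p1 p2 hne)
  rw [cyc_card w1 w2 c1 c2 r1 r2 p1 p2 hne e1 e2 hcr1 hcr2 hrr, mul_one] at hnib
  have hfin := KF_finrank w1 w2 c1 c2 r1 r2 p1 p2 hne e1 e2 hcr1 hcr2 hrr
  set g : ℝ := Real.exp (A / ((c1 * c2 : ℕ) : ℝ)) / 2 with hg
  have hg0 : 0 ≤ g := by positivity
  have hicast : (0 : ℝ) < ((c1 * c2 : ℕ) : ℝ) := by exact_mod_cast hi1
  have h2g : (2 * g) ^ (c1 * c2) = Real.exp A := by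
    have h1 : 2 * g = Real.exp (A / ((c1 * c2 : ℕ) : ℝ)) := by rw [hg]; ring
    rw [h1, ← Real.exp_nat_mul, mul_div_cancel₀ _ hicast.ne']
  have hgap := gap_KF w1 w2 c1 c2 r1 r2 p1 p2 hne e1 e2 hcr1 hcr2 hrr g hg0
    (by rw [h2g]; exact hw1.2.1) (by rw [h2g]; exact hw2.2.1)
  set Q := QA A κ with hQdef
  set S := SpS Q w1 w2 r1 r2 with hS
  have hScard1 : (1 : ℝ) ≤ (S.card : ℝ) := by
    have h1 : (1 : ℝ) ≤ √(Q : ℝ) := Real.one_le_sqrt.mpr (by exact_mod_cast hQ3)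
    exact h1.trans hScard
  have hS0 : S.Nonempty := by
    rw [← Finset.card_pos]
    exact_mod_cast hScard1
  have hSq : ∀ q ∈ S, q.Prime ∧ q ≤ Q ∧ Q < 2 * q ∧
      SplitIn (KF (CyclotomicField (w1 * w2) ℚ) (r1 * r2)) q := by
    intro q hq
    rw [hS] at hq
    unfold SpS at hq
    rw [Finset.mem_filter, Finset.mem_Icc] at hq
    obtain ⟨⟨-, hqQ⟩, hqp, hq2, hqa, hqb⟩ := hq
    refine ⟨hqp, hqQ, hq2, split_KF w1 w2 r1 r2 q p1 p2 hne hqp ?_ hqa hqb⟩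
    intro hdvd
    have hlt : (q : ℝ) < Real.exp A := lt_of_le_of_lt (by exact_mod_cast hqQ) hQ2
    rcases (Nat.Prime.dvd_mul hqp).mp hdvd with h | h
    · rw [(Nat.prime_dvd_prime_iff_eq hqp p1).mp h] at hlt
      exact absurd (hlt.trans hw1.2.1) (lt_irrefl _)
    · rw [(Nat.prime_dvd_prime_iff_eq hqp p2).mp h] at hlt
      exact absurd (hlt.trans hw2.2.1) (lt_irrefl _)
  have hQw1 : Q < w1 := by exact_mod_cast hQ2.trans hw1.2.1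
  have hQw2 : Q < w2 := by exact_mod_cast hQ2.trans hw2.2.1
  set T : ℕ := ((c1 * c2) * (r1 * r2)) ^ (c1 * c2) with hT
  have hr12 : 1 ≤ r1 * r2 := Nat.mul_pos hr1 hr2
  have hT1 : 1 ≤ T := Nat.one_le_pow _ _ (Nat.mul_pos hi1 hr12)
  have hlogT : Real.log T ≤ ((c1 * c2 : ℕ) : ℝ) *
      (Real.log ((c1 * c2 : ℕ) : ℝ) + 2 * A ^ (1 + κ)) := by
    rw [hT, qc7_log _ _ hi1 hr12]
    refine mul_le_mul_of_nonneg_left ?_ hicast.le
    have h1 : Real.log ((r1 * r2 : ℕ) : ℝ) ≤ 2 * A ^ (1 + κ) := by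
      have hr1w : (r1 : ℝ) ≤ Real.exp (A ^ (1 + κ)) := by
        refine le_trans ?_ hw1.2.2
        have : r1 ≤ w1 := by rw [e1]; nlinarith
        exact_mod_cast this
      have hr2w : (r2 : ℝ) ≤ Real.exp (A ^ (1 + κ)) := by
        refine le_trans ?_ hw2.2.2
        have : r2 ≤ w2 := by rw [e2]; nlinarith
        exact_mod_cast this
      have hr1p : (0 : ℝ) < r1 := by exact_mod_cast hr1
      have hr2p : (0 : ℝ) < r2 := by exact_mod_cast hr2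
      rw [Nat.cast_mul, Real.log_mul hr1p.ne' hr2p.ne']
      have a1 := Real.log_le_log hr1p hr1w
      have a2 := Real.log_le_log hr2p hr2w
      rw [Real.log_exp] at a1 a2
      linarith
    linarith
  have hw12 : ((w1 * w2 : ℕ) : ℝ) ≤ Real.exp (2 * A ^ (1 + κ)) := by
    have h1 : Real.exp (2 * A ^ (1 + κ)) = Real.exp (A ^ (1 + κ)) * Real.exp (A ^ (1 + κ)) := by
      rw [← Real.exp_add]
      congr 1
      ring
    rw [h1]
    push_cast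
    exact mul_le_mul hw1.2.2 hw2.2.2 hw2p.le (Real.exp_pos _).le
  obtain ⟨hYn, hfinal⟩ := hrare T (w1 * w2) hT1 hlogT (Nat.mul_pos p1.pos p2.pos) hw12
  have hYj := hYn Y hY
  have hfin2 := hfinal (S.card : ℝ) a.primeFactorsList.length hScard hOm
  -- `ρ` is coprime to `w1 w2`
  obtain ⟨b1, b2, b3, b4, b5, b6⟩ := hR p0 hp0
  have hρ1 : ¬ w1 ∣ ρ := by
    intro hd
    have h1 : p0 ≡ ρ [MOD w1] := b3.of_mul_right w2
    have h2 : w1 ∣ p0 := (h1.dvd_iff dvd_rfl).2 hd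
    rw [← (Nat.prime_dvd_prime_iff_eq p1 b1).mp h2] at b5
    exact b5 (Dvd.intro w2 rfl)
  have hρ2 : ¬ w2 ∣ ρ := by
    intro hd
    have h1 : p0 ≡ ρ [MOD w2] := b3.of_mul_left w1
    have h2 : w2 ∣ p0 := (h1.dvd_iff dvd_rfl).2 hd
    rw [← (Nat.prime_dvd_prime_iff_eq p2 b1).mp h2] at b5
    exact b5 (Dvd.intro_left w1 rfl)
  have hbad := bad_cls (KF (CyclotomicField (w1 * w2) ℚ) (r1 * r2))
    (qc7_comm _ hcommF _) ccL hccL ((r1 * r2 : ℕ) : ℝ) (Nat.cast_nonneg _) hnib g hgap e0 Q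
    (by rw [hfin]; exact hQ1) S hS0 hSq T hT1
    (by rw [hfin, hT]; push_cast; exact le_rfl) w1 w2 ρ p1 p2 hne hQw1 hQw2 hρ1 hρ2 Y
    (by rw [hfin]; exact hYj) a ha R
    (fun p hp => by
      obtain ⟨b1, b2, b3, b4, b5, b6⟩ := hR p hp
      exact ⟨b1, b2, b3, b4, unram_KF w1 w2 (r1 * r2) p p1 p2 hne b1 b5, b6⟩)
  rw [hfin] at hbad
  refine qc7_fin (R.card : ℝ) (S.card : ℝ)
    (2 ^ (c1 * c2) * ((2 * (e0 : ℝ) * (c1 * c2 : ℕ) + 1) ^ (c1 * c2) *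
      2 ^ (2 * e0 * (c1 * c2) * a.primeFactorsList.length)))
    (32 * 5 ^ (c1 * c2) * ((c1 * c2 : ℕ) : ℝ) ^ 2 * (1 + Real.log T) ^ (c1 * c2))
    w1 w2 Y _ (by linarith) (by exact_mod_cast p1.two_le) (by exact_mod_cast p2.two_le)
    (Nat.cast_nonneg _) ?_ ?_ (Nat.cast_nonneg _)
  · refine hbad.trans (le_of_eq ?_)
    ring
  · refine le_trans (le_of_eq ?_) hfin2
    ring

end Pool.Agent.Lib.MP_79499b_co.QZ
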