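import Pool.Agent.Lib.MP_79499b_co.DZ.CDefs
import Pool.Agent.Lib.MP_79499b_co.QZ.QDef

/-!
# QZ: definitions of part C

Constants: `0 < κ ≤ 1/100`, the number `K ≥ 1` of cells, the exponent `D`. `L = log x`, `LL = loglog x`, `LLL = logloglog x`,
`yy x = ⌊LL^8⌋`.
`AC κ K x c = L^(1/((1+8κ)(1+κ)^(K-c)))`, `c ≤ K`: the cells are `exp (AC c) < w ≤ exp (AC (c+1))`, `AC (c+1) = (AC c)^(1+κ)`.
`zD D x = ⌊L^D⌋`: the bound for small primes. `BB κ K x = ⌊exp (AC 0)^(1/2)⌋`. `CW A κ`: the primes of the cell `A`.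
`cy x w`: the `yy x`-smooth part of `w - 1`; `ry x w = (w-1)/cy x w`.
`GW κ K D x c`: the good primes of the cell `c`. `GA`: all good primes. `Hs κ K D x b`: the sum of `1/w` over the good
primes for which `b` is an `l`-th power mod `w` for some prime `l ∣ ry x w`.
`US κ K D x c m`: the good primes of the cell `c` which are usable for `m`. `Nrm`: `m` is normal.
`rho1 s w`, `rho2 s w`: the numbers of roots of `t^s + 1` and `∑_{i<s} t^i` modulo `w`.
`Pair κ K D s x c m n`: the cell `c` contains a pair of usable primes (compatible) with `w1 ∣ n^s+1`, `w2 ∣ ∑ n^i`.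
-/

set_option autoImplicit false

namespace Pool.Agent.Lib.MP_79499b_co.QZ

open Finset DZ
open scoped Classical

/-- the lower end of the cell `c` (logarithm) -/
noncomputable def AC (κ : ℝ) (K x c : ℕ) : ℝ :=
  Real.log x ^ (1 / ((1 + 8 * κ) * (1 + κ) ^ (K - c)))

/-- the bound for small primes -/
noncomputable def zD (D x : ℕ) : ℕ := ⌊Real.log x ^ D⌋₊

/-- the bound for the orbits -/
noncomputable def BB (κ : ℝ) (K x : ℕ) : ℕ := ⌊Real.exp (AC κ K x 0 ^ (1 / 2 : ℝ))⌋₊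

/-- the primes of the cell -/
noncomputable def CW (A κ : ℝ) : Finset ℕ :=
  (Icc 1 ⌊Real.exp (A ^ (1 + κ))⌋₊).filter (fun w => Cell A κ w)

/-- the smooth part of `w - 1` -/
noncomputable def cy (x w : ℕ) : ℕ := EO.sm (yy x) (w - 1)

/-- the rough part of `w - 1` -/
noncomputable def ry (x w : ℕ) : ℕ := (w - 1) / cy x w

/-- the good primes of the cell `c` -/
noncomputable def GW (κ : ℝ) (K D x c : ℕ) : Finset ℕ :=
  (CW (AC κ K x c) κ).filter (fun w => (cy x w : ℝ) ^ 2 ≤ AC κ K x c ^ κ ∧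
    ∑ l ∈ (w - 1).primeFactors.filter (fun l => yy x < l), 1 / (l : ℝ) ≤ (LL x ^ 4)⁻¹ ∧
    OrdBig (zD D x) (BB κ K x) w)

/-- all good primes -/
noncomputable def GA (κ : ℝ) (K D x : ℕ) : Finset ℕ := (range K).biUnion (GW κ K D x)

/-- the sum of `1/w` over the good primes for which `b` is an `l`-th power for some `l ∣ ry x w` -/
noncomputable def Hs (κ : ℝ) (K D x b : ℕ) : ℝ :=
  ∑ w ∈ (GA κ K D x).filter (fun w => ¬ NP w (ry x w) b), 1 / (w : ℝ)

/-- the usable primes of the cell `c` -/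
noncomputable def US (κ : ℝ) (K D x c m : ℕ) : Finset ℕ :=
  (GW κ K D x c).filter (fun w => NP w (ry x w) m ∧
    ∀ q : ℕ, q.Prime → q ∣ m → zD D x < q → NP w (ry x w) q)

/-- `m` is normal -/
def Nrm (κ : ℝ) (K D x m : ℕ) : Prop :=
  m ≠ 0 ∧ Hs κ K D x m ≤ 1 ∧
    ∑ q ∈ m.primeFactors.filter (fun q => zD D x < q), Hs κ K D x q ≤ 1

/-- the number of roots of `t^s + 1` modulo `w` -/
def rho1 (s w : ℕ) : ℕ := ((range w).filter (fun t => w ∣ t ^ s + 1)).card

/-- the number of roots of `1 + t + ... + t^(s-1)` modulo `w` -/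
def rho2 (s w : ℕ) : ℕ := ((range w).filter (fun t => w ∣ ∑ i ∈ range s, t ^ i)).card

/-- the cell `c` contains a pair of usable primes for `n` -/
def Pair (κ : ℝ) (K D s x c m n : ℕ) : Prop :=
  ∃ w1 ∈ US κ K D x c m, ∃ w2 ∈ US κ K D x c m, w1 ≠ w2 ∧ (ry x w1).Coprime (ry x w2) ∧
    w1 ∣ n ^ s + 1 ∧ w2 ∣ ∑ i ∈ range s, n ^ i

/-- two prime factors (with multiplicity) larger than `Y` -/
def Two (Y n : ℕ) : Prop := ∃ p q : ℕ, p.Prime ∧ q.Prime ∧ Y < p ∧ Y < q ∧ p * q ∣ n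

/-- the exponent -/
def rr (s : ℕ) : ℕ :=
  min ((2 * s).divisors.card - s.divisors.card) (s.divisors.card - 1)

end Pool.Agent.Lib.MP_79499b_co.QZ
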