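import Pool.Agent.Lib.MP_79499b_co.EO.S2
import Pool.Agent.Lib.MP_79499b_co.QZ.QDefC

/-!
# QD1: few integers have only small prime factors

`smooth_few`: for every `B` there are `C1 ≥ 1` such that for `x` large at most `x/L^B` integers `0 < n < x` have all prime factors
`≤ exp(L/(C1 LL))`.

Proof. `sm_count` (EO/S2.lean, constant `C`) with `y = ⌊exp(L/(C1 LL))⌋`, `S = x^(1/2)`, `σ = 2 B' LL/L` (`→ 0`), `C1 = 2 B'`:
`y^σ ≤ e`, `S^(-σ) = L^(-B')`, and `1 + log(1 + log y) ≤ 1 + LL` (as `1 + log y ≤ L`), so the number of `1 ≤ n < x` with `sm y n ≥ x^(1/2)`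
is at most `x L^(-B') exp(C e (1 + LL)) ≤ x L^(-B') e^(Ce) L^(Ce)`; choose a natural number `B' ≥ B + C e + 1`. An integer `n` with all
prime factors `≤ y` has `sm y n = n` (`sm_facts`), so it is counted or `n < x^(1/2)`; `x^(1/2) ≤ x/(2 L^B)`.
(`p ≤ exp(..)` iff `p ≤ y` for integers.)
-/

set_option autoImplicit false

namespace Pool.Agent.Lib.MP_79499b_co.QZ

open Finset DZ

private theorem qd1_small (x : ℕ) (S : ℝ) (hS : 0 ≤ S) :
    cnt x (fun n => (n : ℝ) < S) ≤ S + 1 := by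
  classical
  unfold cnt
  have h1 : (range x).filter (fun n : ℕ => (n : ℝ) < S) ⊆ range ⌈S⌉₊ := by
    intro n hn
    have h2 := (Finset.mem_filter.1 hn).2
    rw [mem_range]
    exact Nat.lt_ceil.2 h2
  have h2 : ((range x).filter (fun n : ℕ => (n : ℝ) < S)).card ≤ ⌈S⌉₊ := by
    have := card_le_card h1
    rwa [card_range] at this
  have h3 : (⌈S⌉₊ : ℝ) < S + 1 := Nat.ceil_lt_add_one hS
  have h4 : (((range x).filter (fun n : ℕ => (n : ℝ) < S)).card : ℝ) ≤ (⌈S⌉₊ : ℝ) := by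
    exact_mod_cast h2
  exact h4.trans h3.le

theorem smooth_few (B : ℕ) : ∃ (C1 : ℝ) (x0 : ℕ), 1 ≤ C1 ∧ ∀ x : ℕ, x0 ≤ x →
    cnt x (fun n => n ≠ 0 ∧ ∀ p : ℕ, p.Prime → p ∣ n →
      (p : ℝ) ≤ Real.exp (Real.log x / (C1 * LL x))) ≤ x / Real.log x ^ B := by
  obtain ⟨C, hC0, hC⟩ := EO.sm_count
  obtain ⟨E, hE⟩ : ∃ E : ℝ, E = C * Real.exp 1 := ⟨_, rfl⟩
  have hE0 : 0 < E := by
    rw [hE]
    positivity
  obtain ⟨B', hB'⟩ : ∃ B' : ℕ, (B : ℝ) + E + 1 ≤ B' := exists_nat_ge _
  have hB0 : (0 : ℝ) ≤ B := Nat.cast_nonneg B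
  have hB1 : (1 : ℝ) ≤ B' := by linarith
  -- large x
  have e1 := DZ.log_tend.eventually_ge_atTop (2 * Real.exp E + 3)
  have e2 := DZ.LL_tend.eventually_ge_atTop 1
  have e3 := DZ.log_tend.eventually (Real.isLittleO_log_id_atTop.bound
    (show (0 : ℝ) < 1 / (8 * B') by positivity))
  have e4 := tendsto_natCast_atTop_atTop.eventually ((Real.isLittleO_pow_log_id_atTop (n := 2 * B)).bound
    (show (0 : ℝ) < 1 / 16 by norm_num))
  obtain ⟨x0, hx0⟩ := Filter.eventually_atTop.1 (((e1.and e2).and (e3.and e4)).and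
    (Filter.eventually_ge_atTop 1))
  refine ⟨2 * B', x0, by linarith, fun x hx => ?_⟩
  obtain ⟨⟨⟨h1, h2⟩, h3, h4⟩, h5⟩ := hx0 x hx
  have hxr : (1 : ℝ) ≤ x := by exact_mod_cast h5
  have hx0' : (0 : ℝ) < x := by linarith
  set L := Real.log x with hL
  have hLL : LL x = Real.log L := rfl
  set l := LL x with hl
  have hexpE : 1 < Real.exp E := Real.one_lt_exp_iff.2 hE0
  have hL3 : 5 ≤ L := by linarith
  have hL0 : 0 < L := by linarith
  have hl0 : 0 < l := by linarith
  have h3' : 8 * B' * l ≤ L := by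
    rw [← hLL, Real.norm_of_nonneg hl0.le, id, Real.norm_of_nonneg hL0.le, div_mul_eq_mul_div,
      one_mul, le_div_iff₀ (by positivity)] at h3
    linarith
  have h4' : 4 * L ^ B ≤ Real.sqrt x := by
    rw [id, Real.norm_of_nonneg hx0'.le, Real.norm_of_nonneg (by positivity)] at h4
    refine Real.le_sqrt_of_sq_le ?_
    calc (4 * L ^ B) ^ 2 = 16 * L ^ (2 * B) := by
          rw [mul_pow, ← pow_mul, mul_comm B 2]
          norm_num
      _ ≤ 16 * (1 / 16 * x) := by linarith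
      _ = x := by ring
  -- parameters
  obtain ⟨σ, hσ⟩ : ∃ σ : ℝ, σ = 2 * B' * l / L := ⟨_, rfl⟩
  have hσ0 : 0 < σ := by
    rw [hσ]
    positivity
  have hσ4 : σ ≤ 1 / 4 := by
    rw [hσ, div_le_iff₀ hL0]
    linarith
  obtain ⟨S, hS⟩ : ∃ S : ℝ, S = Real.sqrt x := ⟨_, rfl⟩
  have hLB1 : 1 ≤ L ^ B := one_le_pow₀ (by linarith)
  have hS1 : 1 ≤ S := by
    rw [hS]
    linarith
  obtain ⟨Y, hY⟩ : ∃ Y : ℝ, Y = Real.exp (L / (2 * B' * l)) := ⟨_, rfl⟩
  obtain ⟨y, hy⟩ : ∃ y : ℕ, y = ⌊Y⌋₊ := ⟨_, rfl⟩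
  have hY4 : 4 ≤ L / (2 * B' * l) := by
    rw [le_div_iff₀ (by positivity)]
    linarith
  have hY0 : 0 < Y := by
    rw [hY]
    positivity
  have hYy : (y : ℝ) ≤ Y := by
    rw [hy]
    exact Nat.floor_le hY0.le
  have hy2 : 2 ≤ y := by
    rw [hy]
    refine Nat.le_floor ?_
    rw [hY]
    push_cast
    have := Real.add_one_le_exp (L / (2 * B' * l))
    linarith
  have hyr : (2 : ℝ) ≤ y := by exact_mod_cast hy2
  have hmain := hC y x S σ hy2 hS1 hσ0 hσ4
  -- the Rankin bound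
  have hyσ : (y : ℝ) ^ σ ≤ Real.exp 1 := by
    calc (y : ℝ) ^ σ ≤ Y ^ σ := Real.rpow_le_rpow (Nat.cast_nonneg y) hYy hσ0.le
      _ = Real.exp 1 := by
          rw [hY, ← Real.exp_mul, hσ]
          congr 1
          field_simp
  have hlogy : Real.log (1 + Real.log y) ≤ l := by
    rw [hLL]
    have h6 : Real.log y ≤ L / (2 * B' * l) := by
      calc Real.log y ≤ Real.log Y := Real.log_le_log (by linarith) hYy
        _ = _ := by rw [hY, Real.log_exp]
    have h7 : 0 ≤ Real.log y := Real.log_nonneg (by linarith)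
    refine Real.log_le_log (by linarith) ?_
    have h8 : L / (2 * B' * l) ≤ L / 2 := by
      refine div_le_div_of_nonneg_left hL0.le (by norm_num) ?_
      nlinarith
    linarith
  have hlogy0 : 0 ≤ Real.log (1 + Real.log y) := by
    have h7 : 0 ≤ Real.log y := Real.log_nonneg (by linarith)
    exact Real.log_nonneg (by linarith)
  have hSσ : S ^ (-σ) = Real.exp (-(B' * l)) := by
    rw [Real.rpow_def_of_pos (by linarith), hS, Real.log_sqrt hx0'.le, hσ]
    congr 1
    rw [← hL]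
    field_simp
  have hLBe : L ^ B = Real.exp (B * l) := by
    rw [hLL, Real.exp_nat_mul, Real.exp_log hL0]
  have hLe : L = Real.exp l := by
    rw [hLL, Real.exp_log hL0]
  have hbound : S ^ (-σ) * Real.exp (C * (y : ℝ) ^ σ * (1 + Real.log (1 + Real.log y))) ≤
      1 / (2 * L ^ B) := by
    have h6 : C * (y : ℝ) ^ σ * (1 + Real.log (1 + Real.log y)) ≤ E * (1 + l) := by
      rw [hE]
      have : C * (y : ℝ) ^ σ ≤ C * Real.exp 1 := mul_le_mul_of_nonneg_left hyσ hC0.le
      exact mul_le_mul this (by linarith) (by linarith) (by positivity)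
    rw [hSσ]
    calc Real.exp (-(B' * l)) * Real.exp (C * (y : ℝ) ^ σ * (1 + Real.log (1 + Real.log y)))
        ≤ Real.exp (-(B' * l)) * Real.exp (E * (1 + l)) := by
          refine mul_le_mul_of_nonneg_left (Real.exp_le_exp.2 h6) (Real.exp_pos _).le
      _ = Real.exp (-(B' * l) + E * (1 + l)) := by rw [← Real.exp_add]
      _ ≤ Real.exp (-(B * l) + E - l) := by
          apply Real.exp_le_exp.2
          nlinarith
      _ = Real.exp E / (L ^ B * L) := by
          rw [hLBe]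
          nth_rewrite 1 [hLe]
          rw [← Real.exp_add, ← Real.exp_sub]
          congr 1
          ring
      _ ≤ 1 / (2 * L ^ B) := by
          rw [div_le_div_iff₀ (by positivity) (by positivity)]
          nlinarith
  -- the two parts
  have hsplit : cnt x (fun n => n ≠ 0 ∧ ∀ p : ℕ, p.Prime → p ∣ n →
      (p : ℝ) ≤ Real.exp (L / (2 * B' * l))) ≤
      cnt x (fun n => 1 ≤ n ∧ S ≤ (EO.sm y n : ℝ)) + cnt x (fun n => (n : ℝ) < S) := by
    refine le_trans (cnt_mono fun n hn h => ?_) (cnt_or x _ _)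
    obtain ⟨hn0, hnp⟩ := h
    have hn1 : 1 ≤ n := by omega
    by_cases hnS : (n : ℝ) < S
    · exact Or.inr hnS
    · left
      refine ⟨hn1, ?_⟩
      have h6 := (EO.sm_facts y n hn1).2.2
      have h7 : n.primeFactors.filter (fun p => y < p) = ∅ := by
        rw [Finset.filter_eq_empty_iff]
        intro p hp
        have hpp := Nat.mem_primeFactors.1 hp
        have h8 := hnp p hpp.1 hpp.2.1
        rw [← hY] at h8
        rw [not_lt, hy]
        exact Nat.le_floor h8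
      rw [h7, prod_empty, mul_one] at h6
      rw [h6]
      exact not_lt.1 hnS
  have hsm := qd1_small x S (by linarith)
  have hxS : (x : ℝ) = S * S := by
    rw [hS, Real.mul_self_sqrt hx0'.le]
  have h9 : S + 1 ≤ x / (2 * L ^ B) := by
    rw [le_div_iff₀ (by positivity), hxS]
    rw [← hS] at h4'
    nlinarith
  calc _ ≤ x * (1 / (2 * L ^ B)) + x / (2 * L ^ B) := by
        refine hsplit.trans (add_le_add (hmain.trans ?_) (hsm.trans h9))
        exact mul_le_mul_of_nonneg_left hbound hx0'.le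
    _ = x / L ^ B := by
        field_simp
        norm_num

end Pool.Agent.Lib.MP_79499b_co.QZ
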