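import Pool.Agent.Lib.MP_79499b_co.EO.S1
import Pool.Agent.Lib.MP_79499b_co.QZ.QDefC

/-!
# QD2: few integers have many prime factors

`Om_few`: for every `B` there is `C2` such that for `x` large at most `x/L^B` integers `n < x` have `Ω(n) > C2 LL` (for `n = 0` the list of
prime factors is empty).

Proof. `f(n) = (3/2)^(Ω(n))/n` (`f(0) = 0`) is completely multiplicative and nonnegative; `∑_{1 ≤ n < x} (3/2)^(Ω(n)) ≤ x ∑_{n < x} f(n)
≤ x ∏_{p ≤ x} (1 - 3/(2p))^(-1)` (`Sieve.sum_primeFactors_subset_le`, as in EO/S1.lean, `T` = primes up to `x`); `(1 - t)^(-1) ≤ exp(4 t)` for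
`0 ≤ t ≤ 3/4`, and `∑_{p ≤ x} 1/p ≤ LL + C` (`s1_msum`), so the sum is at most `x exp(6 (LL + C + 1)) ≤ C' x L^6`. If `Ω(n) > C2 LL`, then
`(3/2)^(Ω(n)) ≥ exp(C2 LL log(3/2)) ≥ L^(B+7)` for `C2 = 3 (B + 7)` (`log(3/2) ≥ 1/3`), so the number is at most `C' x L^(6-B-7) ≤ x/L^B`.
-/

set_option autoImplicit false

namespace Pool.Agent.Lib.MP_79499b_co.QZ

open Finset DZ

private theorem qd2_inv {t : ℝ} (h0 : 0 ≤ t) (h1 : t ≤ 3 / 4) : (1 - t)⁻¹ ≤ Real.exp (4 * t) := by
  have h2 : (1 - t)⁻¹ ≤ 1 + 4 * t := by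
    rw [inv_le_iff_one_le_mul₀ (by linarith)]
    nlinarith
  refine h2.trans ?_
  have := Real.add_one_le_exp (4 * t)
  linarith

private noncomputable def qd2_f (n : ℕ) : ℝ := (3 / 2 : ℝ) ^ n.primeFactorsList.length / n

private theorem qd2_mul (m n : ℕ) : qd2_f (m * n) = qd2_f m * qd2_f n := by
  unfold qd2_f
  rcases Nat.eq_zero_or_pos m with rfl | hm
  · simp
  rcases Nat.eq_zero_or_pos n with rfl | hn
  · simp
  have h1 := (Nat.perm_primeFactorsList_mul hm.ne' hn.ne').length_eq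
  rw [List.length_append] at h1
  rw [h1, pow_add]
  push_cast
  rw [div_mul_div_comm]

private theorem qd2_sum : ∃ C : ℝ, 0 ≤ C ∧ ∀ x : ℕ, 2 ≤ x →
    ∑ n ∈ Icc 1 x, qd2_f n ≤ Real.exp (6 * (Real.log (1 + Real.log x) + C)) := by
  obtain ⟨C, hC0, hC⟩ := EO.s1_msum
  refine ⟨C, hC0, fun x hx => ?_⟩
  set T : Finset ℕ := (Icc 1 x).filter Nat.Prime with hT
  have hTp : ∀ p ∈ T, p.Prime := fun p hp => (mem_filter.1 hp).2
  have hf0 : ∀ n, 0 ≤ qd2_f n := fun n => by
    unfold qd2_f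
    positivity
  have hfp : ∀ p ∈ T, qd2_f p = 3 / 2 * (p : ℝ)⁻¹ := by
    intro p hp
    unfold qd2_f
    rw [Nat.primeFactorsList_prime (hTp p hp)]
    simp [div_eq_mul_inv]
  have hf34 : ∀ p ∈ T, qd2_f p ≤ 3 / 4 := by
    intro p hp
    rw [hfp p hp]
    have hp2 : (2 : ℝ) ≤ p := by exact_mod_cast (hTp p hp).two_le
    have : (p : ℝ)⁻¹ ≤ 2⁻¹ := inv_anti₀ (by norm_num) hp2
    linarith
  have h1 := Sieve.sum_primeFactors_subset_le qd2_f hf0 (by simp [qd2_f]) qd2_mul x T hTp
    (fun p hp => (hf34 p hp).trans_lt (by norm_num))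
  have h2 : ∏ p ∈ T, (1 - qd2_f p)⁻¹ ≤ Real.exp (4 * ∑ p ∈ T, qd2_f p) := by
    rw [mul_sum, Real.exp_sum]
    refine prod_le_prod (fun p hp => ?_) (fun p hp => qd2_inv (hf0 p) (hf34 p hp))
    have := hf34 p hp
    exact inv_nonneg.2 (by linarith)
  have h3 : ∑ p ∈ T, qd2_f p = 3 / 2 * ∑ p ∈ T, (p : ℝ)⁻¹ := by
    rw [mul_sum]
    exact sum_congr rfl hfp
  have h4 : (Icc 1 x).filter (fun m => m.primeFactors ⊆ T) = Icc 1 x := by
    rw [filter_eq_self]
    intro m hm p hp
    rw [mem_Icc] at hm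
    have hpp := Nat.mem_primeFactors.1 hp
    refine mem_filter.2 ⟨mem_Icc.2 ⟨hpp.1.one_lt.le, ?_⟩, hpp.1⟩
    exact (Nat.le_of_dvd (by omega) hpp.2.1).trans hm.2
  rw [h4] at h1
  refine h1.trans (h2.trans (Real.exp_le_exp.2 ?_))
  rw [h3]
  have := hC x hx
  linarith

theorem Om_few (B : ℕ) : ∃ (C2 : ℝ) (x0 : ℕ), 0 < C2 ∧ ∀ x : ℕ, x0 ≤ x →
    cnt x (fun n => C2 * LL x < (n.primeFactorsList.length : ℝ)) ≤ x / Real.log x ^ B := by
  obtain ⟨C, hC0, hC⟩ := qd2_sum
  have e1 := DZ.log_tend.eventually_ge_atTop (Real.exp (6 * (C + 1)) + 1)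
  have e2 := DZ.LL_tend.eventually_ge_atTop 1
  obtain ⟨x0, hx0⟩ := Filter.eventually_atTop.1 ((e1.and e2).and (Filter.eventually_ge_atTop 2))
  refine ⟨3 * (B + 7), x0, by positivity, fun x hx => ?_⟩
  obtain ⟨⟨h1, h2⟩, h5⟩ := hx0 x hx
  have hxr : (2 : ℝ) ≤ x := by exact_mod_cast h5
  have hx0' : (0 : ℝ) < x := by linarith
  have hsum := hC x h5
  obtain ⟨L, hL⟩ : ∃ L : ℝ, L = Real.log x := ⟨_, rfl⟩
  obtain ⟨l, hl⟩ : ∃ l : ℝ, l = LL x := ⟨_, rfl⟩
  have hLL : l = Real.log L := by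
    rw [hl, hL]
    rfl
  rw [← hL] at h1 hsum ⊢
  rw [← hl] at h2
  have hL1 : 1 < L := by
    have := Real.exp_pos (6 * (C + 1))
    linarith
  have hL0 : 0 < L := by linarith
  -- the sum
  have hsum2 : ∑ n ∈ Icc 1 x, qd2_f n ≤ L ^ 7 := by
    refine hsum.trans ?_
    have h3 : Real.log (1 + L) ≤ l + 1 := by
      calc Real.log (1 + L) ≤ Real.log (2 * L) := Real.log_le_log (by linarith) (by linarith)
        _ = Real.log 2 + Real.log L := Real.log_mul (by norm_num) hL0.ne'
        _ ≤ l + 1 := by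
            have := Real.log_two_lt_d9
            rw [← hLL]
            linarith
    calc Real.exp (6 * (Real.log (1 + L) + C)) ≤ Real.exp (6 * (C + 1) + 6 * l) := by
          apply Real.exp_le_exp.2
          linarith
      _ = Real.exp (6 * (C + 1)) * L ^ 6 := by
          rw [Real.exp_add, hLL, show (6 : ℝ) = ((6 : ℕ) : ℝ) by norm_num, Real.exp_nat_mul (Real.log L),
            Real.exp_log hL0]
      _ ≤ L * L ^ 6 := by
          refine mul_le_mul_of_nonneg_right (by linarith) (by positivity)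
      _ = L ^ 7 := by ring
  -- lower bound for the terms
  have hlow : ∀ n : ℕ, 3 * (B + 7) * l < (n.primeFactorsList.length : ℝ) →
      L ^ (B + 7) ≤ (3 / 2 : ℝ) ^ n.primeFactorsList.length := by
    intro n hn
    have h3 : (1 : ℝ) / 3 ≤ Real.log (3 / 2) := by
      have := Real.one_sub_inv_le_log_of_pos (show (0 : ℝ) < 3 / 2 by norm_num)
      norm_num at this ⊢
      exact this
    have h4 : L ^ (B + 7) = Real.exp ((B + 7 : ℕ) * l) := by
      rw [Real.exp_nat_mul, hLL, Real.exp_log hL0]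
    have h6 : (3 / 2 : ℝ) ^ n.primeFactorsList.length =
        Real.exp (n.primeFactorsList.length * Real.log (3 / 2)) := by
      rw [Real.exp_nat_mul, Real.exp_log (by norm_num)]
    rw [h4, h6]
    apply Real.exp_le_exp.2
    push_cast
    have h7 : (n.primeFactorsList.length : ℝ) * (1 / 3) ≤ n.primeFactorsList.length * Real.log (3 / 2) :=
      mul_le_mul_of_nonneg_left h3 (Nat.cast_nonneg _)
    linarith
  -- the count
  have hcnt : cnt x (fun n => 3 * (B + 7) * LL x < (n.primeFactorsList.length : ℝ)) * (L ^ (B + 7) / x) ≤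
      ∑ n ∈ Icc 1 x, qd2_f n := by
    classical
    rw [← hl]
    unfold cnt
    rw [← nsmul_eq_mul, ← sum_const]
    calc _ ≤ ∑ n ∈ (range x).filter (fun n : ℕ => 3 * (B + 7) * l < (n.primeFactorsList.length : ℝ)),
            qd2_f n := by
          refine sum_le_sum fun n hn => ?_
          have hn' := Finset.mem_filter.1 hn
          rw [mem_range] at hn'
          have hn0 : n ≠ 0 := by
            rintro rfl
            have h3 := hn'.2
            rw [Nat.primeFactorsList_zero, List.length_nil, Nat.cast_zero] at h3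
            have : 0 < 3 * ((B : ℝ) + 7) * l := by positivity
            linarith
          have hnr : (0 : ℝ) < n := by exact_mod_cast Nat.pos_of_ne_zero hn0
          have hnx : (n : ℝ) ≤ x := by exact_mod_cast hn'.1.le
          unfold qd2_f
          exact div_le_div₀ (by positivity) (hlow n hn'.2) hnr hnx
      _ ≤ ∑ n ∈ Icc 1 x, qd2_f n := by
          refine sum_le_sum_of_subset_of_nonneg ?_ fun n _ _ => by
            unfold qd2_f
            positivity
          intro n hn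
          have hn' := Finset.mem_filter.1 hn
          rw [mem_range] at hn'
          rw [mem_Icc]
          refine ⟨?_, hn'.1.le⟩
          rcases Nat.eq_zero_or_pos n with rfl | h
          · exfalso
            have h3 := hn'.2
            rw [Nat.primeFactorsList_zero, List.length_nil, Nat.cast_zero] at h3
            have : 0 < 3 * ((B : ℝ) + 7) * l := by positivity
            linarith
          · exact h
  have h8 := hcnt.trans hsum2
  have h9 : 0 < L ^ (B + 7) / x := by positivity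
  rw [← le_div_iff₀ h9] at h8
  refine h8.trans (le_of_eq ?_)
  rw [pow_add]
  field_simp

end Pool.Agent.Lib.MP_79499b_co.QZ
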