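import Pool.Agent.Lib.MP_79499b_co.QZ.QDefC

/-!
# QS5: facts about the cells

`L = log x`, `ex c = 1/((1+8κ)(1+κ)^(K-c))`, `AC c = L^(ex c)`, `0 < ex c < 1`.
(1) `AC (c+1) = (AC c)^(1+κ)` for `c < K` (`K - c = K - (c+1) + 1`). (2) `log (AC c) = ex c * LL x`. (3) `AC 0 → ∞`.
(4) for `3 ≤ x`: `1 ≤ AC 0 ≤ AC c ≤ AC K` for `c ≤ K`. (5) `∑_{c<K} κ log (AC c) = (1/(1+8κ)) (1 - 1/(1+κ)^K) LL x`: telescoping sum of
`log AC (c+1) - log AC c = κ log AC c`. (6) for every `C`, `x` large, `c < K`: `AC c^(1+7κ) ≤ L/(C LL)`, because the exponent of `L` is at most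
`(1+7κ)/((1+8κ)(1+κ)) < 1`. (7) `L ≤ (AC c)^K0` with `K0 = (1+8κ)(1+κ)^K` (equality for `c = 0`; `AC c ≥ AC 0`). (8) `C LL ≤ (AC 0)^κ` for large `x`.
(9) for every `C : ℝ`, `k : ℕ`: `C (LL x)^k ≤ AC 0`-powers: not needed. (10) `yy x → ∞`, `(yy x : ℝ) ≤ (AC 0)^(1/2)` for large `x`.
-/

set_option autoImplicit false

namespace Pool.Agent.Lib.MP_79499b_co.QZ

open Finset DZ

private lemma QS5_one (x : ℕ) (hx : 3 ≤ x) : 1 < Real.log x := by
  have h1 : (3 : ℝ) ≤ x := by exact_mod_cast hx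
  rw [Real.lt_log_iff_exp_lt (by linarith)]
  have := Real.exp_one_lt_d9
  linarith

private lemma QS5_ev (P : ℝ → Prop) (h : ∀ᶠ L : ℝ in Filter.atTop, P L) :
    ∃ x0 : ℕ, ∀ x : ℕ, x0 ≤ x → 3 ≤ x ∧ P (Real.log x) := by
  obtain ⟨x0, h0⟩ := Filter.eventually_atTop.mp (log_tend.eventually h)
  exact ⟨max x0 3, fun x hx => ⟨(le_max_right _ _).trans hx, h0 x ((le_max_left _ _).trans hx)⟩⟩

private lemma QS5_log (C a : ℝ) (ha : 0 < a) :
    ∀ᶠ L : ℝ in Filter.atTop, C * Real.log L ≤ L ^ a := by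
  have h2 : ∀ᶠ L : ℝ in Filter.atTop, ‖Real.log L‖ ≤ (1 / (|C| + 1)) * ‖L ^ a‖ :=
    (isLittleO_log_rpow_atTop ha).bound (by positivity)
  filter_upwards [Filter.eventually_ge_atTop 1, h2] with L hL e2
  have hlog : 0 ≤ Real.log L := Real.log_nonneg hL
  have hLa : 0 < L ^ a := by positivity
  rw [Real.norm_eq_abs, abs_of_nonneg hlog, Real.norm_eq_abs, abs_of_pos hLa] at e2
  calc C * Real.log L ≤ (|C| + 1) * Real.log L := by
        gcongr
        linarith [le_abs_self C]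
    _ ≤ (|C| + 1) * ((1 / (|C| + 1)) * L ^ a) := by gcongr
    _ = L ^ a := by
        have : |C| + 1 ≠ 0 := by positivity
        field_simp

theorem AC_succ (κ : ℝ) (hκ : 0 < κ) (K x c : ℕ) (hc : c < K) (hx : 3 ≤ x) :
    AC κ K x (c + 1) = AC κ K x c ^ (1 + κ) := by
  have hL := QS5_one x hx
  have hL0 : 0 ≤ Real.log x := by linarith
  unfold AC
  rw [← Real.rpow_mul hL0]
  congr 1
  have h1 : K - c = K - (c + 1) + 1 := by omega
  rw [h1, pow_succ]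
  have h2 : (1 + κ) ≠ 0 := by positivity
  have h3 : (1 + 8 * κ) ≠ 0 := by positivity
  have h4 : (1 + κ) ^ (K - (c + 1)) ≠ 0 := by positivity
  field_simp

theorem log_AC (κ : ℝ) (K x c : ℕ) (hx : 3 ≤ x) :
    Real.log (AC κ K x c) = 1 / ((1 + 8 * κ) * (1 + κ) ^ (K - c)) * LL x := by
  have hL := QS5_one x hx
  unfold AC LL
  rw [Real.log_rpow (by linarith)]

theorem AC_tend (κ : ℝ) (hκ : 0 < κ) (K c : ℕ) :
    Filter.Tendsto (fun x : ℕ => AC κ K x c) Filter.atTop Filter.atTop :=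
  (tendsto_rpow_atTop (show 0 < 1 / ((1 + 8 * κ) * (1 + κ) ^ (K - c)) by positivity)).comp
    log_tend

theorem AC_mono (κ : ℝ) (hκ : 0 < κ) (K x : ℕ) (hx : 3 ≤ x) (c d : ℕ) (hcd : c ≤ d) :
    1 ≤ AC κ K x c ∧ AC κ K x c ≤ AC κ K x d := by
  have hL := QS5_one x hx
  refine ⟨Real.one_le_rpow hL.le (by positivity),
    Real.rpow_le_rpow_of_exponent_le hL.le ?_⟩
  apply one_div_le_one_div_of_le (by positivity)
  have h1 : (1 + κ) ^ (K - d) ≤ (1 + κ) ^ (K - c) :=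
    pow_le_pow_right₀ (by linarith) (by omega)
  gcongr

theorem AC_top (κ : ℝ) (hκ : 0 < κ) (K x c : ℕ) (hx : 3 ≤ x) :
    AC κ K x K = Real.log x ^ (1 / (1 + 8 * κ)) ∧ AC κ K x c ≤ Real.log x := by
  have hL := QS5_one x hx
  constructor
  · unfold AC
    rw [Nat.sub_self, pow_zero, mul_one]
  · calc AC κ K x c ≤ Real.log x ^ (1 : ℝ) := by
          apply Real.rpow_le_rpow_of_exponent_le hL.le
          rw [div_le_one (by positivity)]
          have h1 : 1 ≤ (1 + κ) ^ (K - c) := one_le_pow₀ (by linarith)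
          nlinarith
      _ = Real.log x := Real.rpow_one _

theorem AC_sum (κ : ℝ) (hκ : 0 < κ) (K x : ℕ) (hx : 3 ≤ x) :
    ∑ c ∈ range K, κ * Real.log (AC κ K x c) =
      1 / (1 + 8 * κ) * (1 - 1 / (1 + κ) ^ K) * LL x := by
  have h0 : ∀ c ∈ range K, κ * Real.log (AC κ K x c) =
      1 / (1 + 8 * κ) * LL x * (1 / (1 + κ) ^ (K - (c + 1)) - 1 / (1 + κ) ^ (K - c)) := by
    intro c hc
    rw [mem_range] at hc
    rw [log_AC κ K x c hx]
    have h1 : K - c = K - (c + 1) + 1 := by omega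
    rw [h1, pow_succ]
    have h2 : (1 + κ) ≠ 0 := by positivity
    have h3 : (1 + 8 * κ) ≠ 0 := by positivity
    have h4 : (1 + κ) ^ (K - (c + 1)) ≠ 0 := by positivity
    field_simp
    ring
  rw [sum_congr rfl h0, ← mul_sum]
  have h5 := sum_range_sub (fun c : ℕ => 1 / (1 + κ) ^ (K - c)) K
  simp only [Nat.sub_self, pow_zero, Nat.sub_zero, div_one] at h5
  rw [h5]
  ring

theorem AC_small (κ : ℝ) (hκ : 0 < κ) (K : ℕ) (C : ℝ) (hC : 0 < C) : ∃ x0 : ℕ, ∀ x : ℕ, x0 ≤ x →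
    ∀ c < K, AC κ K x c ^ (1 + 7 * κ) ≤ Real.log x / (C * LL x) := by
  obtain ⟨θ, hθ⟩ : ∃ θ : ℝ, θ = (1 + 7 * κ) / ((1 + 8 * κ) * (1 + κ)) := ⟨_, rfl⟩
  have hθ1 : θ < 1 := by
    rw [hθ, div_lt_one (by positivity)]
    nlinarith
  obtain ⟨x0, hx0⟩ := QS5_ev _ (QS5_log C (1 - θ) (by linarith))
  refine ⟨x0, fun x hx c hc => ?_⟩
  obtain ⟨h3, h4⟩ := hx0 x hx
  have hL := QS5_one x h3
  have hL0 : 0 < Real.log x := by linarith
  have hLL : 0 < LL x := Real.log_pos hL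
  have h4' : C * LL x ≤ Real.log x ^ (1 - θ) := h4
  rw [le_div_iff₀ (by positivity)]
  have h5 : AC κ K x c ^ (1 + 7 * κ) ≤ Real.log x ^ θ := by
    unfold AC
    rw [← Real.rpow_mul hL0.le]
    apply Real.rpow_le_rpow_of_exponent_le hL.le
    rw [hθ, one_div_mul_eq_div]
    have h6 : (1 + κ) ≤ (1 + κ) ^ (K - c) := by
      calc (1 + κ) = (1 + κ) ^ 1 := (pow_one _).symm
        _ ≤ (1 + κ) ^ (K - c) := pow_le_pow_right₀ (by linarith) (by omega)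
    gcongr
  calc AC κ K x c ^ (1 + 7 * κ) * (C * LL x) ≤
        Real.log x ^ θ * Real.log x ^ (1 - θ) := by gcongr
    _ = Real.log x := by
        rw [← Real.rpow_add hL0]
        norm_num

theorem AC_K0 (κ : ℝ) (hκ : 0 < κ) (K x c : ℕ) (hx : 3 ≤ x) :
    Real.log x ≤ AC κ K x c ^ ((1 + 8 * κ) * (1 + κ) ^ K) := by
  have hL := QS5_one x hx
  have hL0 : 0 < Real.log x := by linarith
  unfold AC
  rw [← Real.rpow_mul hL0.le]
  calc Real.log x = Real.log x ^ (1 : ℝ) := (Real.rpow_one _).symm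
    _ ≤ _ := by
        apply Real.rpow_le_rpow_of_exponent_le hL.le
        rw [one_div_mul_eq_div, one_le_div (by positivity)]
        have h1 : (1 + κ) ^ (K - c) ≤ (1 + κ) ^ K :=
          pow_le_pow_right₀ (by linarith) (by omega)
        gcongr

theorem AC_LL (κ : ℝ) (hκ : 0 < κ) (K : ℕ) (C : ℝ) : ∃ x0 : ℕ, ∀ x : ℕ, x0 ≤ x →
    C * LL x ≤ AC κ K x 0 ^ κ := by
  obtain ⟨x0, hx0⟩ := QS5_ev _
    (QS5_log C (1 / ((1 + 8 * κ) * (1 + κ) ^ (K - 0)) * κ) (by positivity))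
  refine ⟨x0, fun x hx => ?_⟩
  obtain ⟨h3, h4⟩ := hx0 x hx
  have hL := QS5_one x h3
  unfold AC
  rw [← Real.rpow_mul (by linarith)]
  exact h4

theorem AC_yy (κ : ℝ) (hκ : 0 < κ) (K N : ℕ) : ∃ x0 : ℕ, ∀ x : ℕ, x0 ≤ x →
    N ≤ yy x ∧ (yy x : ℝ) ≤ AC κ K x 0 ^ (1 / 2 : ℝ) := by
  obtain ⟨e, he⟩ : ∃ e : ℝ, e = 1 / ((1 + 8 * κ) * (1 + κ) ^ (K - 0)) * (1 / 2) := ⟨_, rfl⟩
  have he0 : 0 < e := by
    rw [he]
    positivity
  have h1 : ∀ᶠ L : ℝ in Filter.atTop, (N : ℝ) ≤ Real.log L ^ 8 ∧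
      1 * Real.log L ≤ L ^ (e / 8) ∧ 0 ≤ Real.log L :=
    (((Filter.tendsto_pow_atTop (show 8 ≠ 0 by norm_num)).comp
      Real.tendsto_log_atTop).eventually_ge_atTop (N : ℝ)).and
      ((QS5_log 1 (e / 8) (by positivity)).and (Real.tendsto_log_atTop.eventually_ge_atTop 0))
  obtain ⟨x0, hx0⟩ := QS5_ev _ h1
  refine ⟨x0, fun x hx => ?_⟩
  obtain ⟨h3, h4, h5, h6⟩ := hx0 x hx
  have hL := QS5_one x h3
  have hLL : LL x = Real.log (Real.log x) := rfl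
  refine ⟨Nat.le_floor (by rw [hLL]; exact h4), ?_⟩
  unfold AC
  rw [← Real.rpow_mul (by linarith), ← he]
  calc (yy x : ℝ) ≤ LL x ^ 8 := by
        unfold yy
        refine Nat.floor_le ?_
        rw [hLL]
        positivity
    _ ≤ (Real.log x ^ (e / 8)) ^ 8 := by
        rw [hLL]
        rw [one_mul] at h5
        gcongr
    _ = Real.log x ^ e := by
        rw [← Real.rpow_natCast, ← Real.rpow_mul (by linarith)]
        congr 1
        push_cast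
        ring

end Pool.Agent.Lib.MP_79499b_co.QZ
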