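import Pool.Agent.Lib.MP_79499b_co.EO.S2
import Pool.Agent.Lib.MP_79499b_co.QZ.QS5

/-!
# QD3: squares of large primes; the smooth part

`sqr_few`: `x` large: at most `x/L^B` integers `0 < n < x` are divisible by `p^2` for some prime `p > ZA (AC 0)`. Proof:
`∑_{p > Z} x/p^2 ≤ 2x/Z` with `Z = exp(2 (AC 0)^(1/2))`, and `(AC 0)^(1/2)` grows faster than `B LL`.

`gb_few`: `x` large: at most `x/L^B` integers `0 < n < x` have `gb s (zD D x) n > BB κ K x`.
Proof. `A = AC 0 = L^(e)`, `e > 0`. Let `m = sm (zD D x) n`, `ω` the number of its primes. `gb = m^(2(s-1) 2^ω)`, and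
`BB = ⌊exp(A^(1/2))⌋`, so if `gb > BB` then `2 (s-1) 2^ω log m ≥ A^(1/2) - 1`-ish, hence `log m ≥ A^(1/8)` or `2^ω ≥ A^(1/4)` (for large `x`).
First case: `sm_count` with `y = zD D x ≤ L^D`, `S = exp(A^(1/8))`, `σ = 1/(D LL + 1)` (`≤ 1/4`): `y^σ ≤ e`,
`S^(-σ) exp(C e (1 + log(1 + log y))) ≤ exp(-A^(1/8)/(D LL + 1) + C' (1 + LL)) ≤ L^(-B)/2`.
Second case: `∑_{1 ≤ n < x} z^(ω(n; Y)) ≤ x ∏_{p ≤ Y} (1 + (z-1)/p) ≤ x exp((z-1)(log(1 + log Y) + C))` for a real `z ≥ 1`, where `ω(n;Y)` is the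
number of primes `p ≤ Y` dividing `n`: expand `z^ω = ∑_{S ⊆ primes dividing n, ≤ Y} (z-1)^|S|` and count the multiples of `∏ S`
(`Finset.prod_one_add`-style). `ω ≥ u := (e/(4 log 2)) LL = c LL` for the `n` in question; with `z` such that `z^c ≥ e^(B+1)` their number is at
most `x z^(-u) (C'' LL)^(z-1) e^(C z) ≤ x L^(-(B+1)) (C'' LL)^(z-1) e^(Cz) ≤ x/(2 L^B)` for large `x` (`Y = zD D x`, `1 + log Y ≤ C'' LL`).
-/

set_option autoImplicit false

namespace Pool.Agent.Lib.MP_79499b_co.QZ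

open Finset DZ

private lemma QD3_ev (P : ℝ → Prop) (h : ∀ᶠ L : ℝ in Filter.atTop, P L) :
    ∃ x0 : ℕ, ∀ x : ℕ, x0 ≤ x → 3 ≤ x ∧ P (Real.log x) := by
  obtain ⟨x0, h0⟩ := Filter.eventually_atTop.mp (log_tend.eventually h)
  exact ⟨max x0 3, fun x hx => ⟨(le_max_right _ _).trans hx, h0 x ((le_max_left _ _).trans hx)⟩⟩

private lemma QD3_log (C a : ℝ) (ha : 0 < a) :
    ∀ᶠ L : ℝ in Filter.atTop, C * Real.log L ≤ L ^ a := by
  have h2 : ∀ᶠ L : ℝ in Filter.atTop, ‖Real.log L‖ ≤ (1 / (|C| + 1)) * ‖L ^ a‖ :=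
    (isLittleO_log_rpow_atTop ha).bound (by positivity)
  filter_upwards [Filter.eventually_ge_atTop 1, h2] with L hL e2
  have hlog : 0 ≤ Real.log L := Real.log_nonneg hL
  have hLa : 0 < L ^ a := by positivity
  rw [Real.norm_eq_abs, abs_of_nonneg hlog, Real.norm_eq_abs, abs_of_pos hLa] at e2
  calc C * Real.log L ≤ (|C| + 1) * Real.log L := by
        gcongr
        linarith [le_abs_self C]
    _ ≤ (|C| + 1) * ((1 / (|C| + 1)) * L ^ a) := by gcongr
    _ = L ^ a := by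
        have : |C| + 1 ≠ 0 := by positivity
        field_simp

private lemma QD3_mult (x j : ℕ) :
    cnt x (fun n => n ≠ 0 ∧ j ∣ n) ≤ x * ((1 : ℝ) / j) := by
  classical
  unfold EO.cnt
  refine (Nat.cast_le.mpr (?_ : _ ≤ x / j)).trans ?_
  · rw [← Nat.Ioc_filter_dvd_card_eq_div]
    refine card_le_card ?_
    intro n hn
    simp only [mem_filter, mem_range] at hn
    simp only [mem_filter, mem_Ioc]
    exact ⟨⟨by omega, by omega⟩, hn.2.2⟩
  · calc ((x / j : ℕ) : ℝ) ≤ (x : ℝ) / j := Nat.cast_div_le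
      _ = x * ((1 : ℝ) / j) := by ring

private lemma QD3_AC (κ : ℝ) (hκ : 0 < κ) (K : ℕ) :
    ∃ e : ℝ, 0 < e ∧ ∀ x : ℕ, AC κ K x 0 = Real.log x ^ e :=
  ⟨1 / ((1 + 8 * κ) * (1 + κ) ^ (K - 0)), by positivity, fun _ => rfl⟩

theorem sqr_few (κ : ℝ) (hκ : 0 < κ) (K B : ℕ) : ∃ x0 : ℕ, ∀ x : ℕ, x0 ≤ x →
    cnt x (fun n => n ≠ 0 ∧ ∃ p : ℕ, p.Prime ∧ ZA (AC κ K x 0) < p ∧ p ^ 2 ∣ n) ≤
      x / Real.log x ^ B := by
  classical
  obtain ⟨e, he, hA⟩ := QD3_AC κ hκ K
  have hev : ∀ᶠ L : ℝ in Filter.atTop, ((B : ℝ) + 1) * Real.log L ≤ L ^ (e / 2) ∧ 2 ≤ L :=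
    (QD3_log _ _ (by positivity)).and (Filter.eventually_ge_atTop 2)
  obtain ⟨x0, hx0⟩ := QD3_ev _ hev
  refine ⟨x0, fun x hx => ?_⟩
  obtain ⟨h3, h4, h5⟩ := hx0 x hx
  have hL0 : 0 < Real.log x := by linarith
  set L := Real.log x with hL
  have hlL : 0 ≤ Real.log L := Real.log_nonneg (by linarith)
  have hZ : ZA (AC κ K x 0) = Real.exp (2 * L ^ (e / 2)) := by
    unfold ZA
    rw [hA, ← Real.rpow_mul hL0.le]
    congr 3
    ring
  rw [hZ]
  set Z := Real.exp (2 * L ^ (e / 2)) with hZd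
  have hZ2 : 2 * L ^ B ≤ Z := by
    have h6 : 2 * L ^ B ≤ L * L ^ B := by gcongr
    have h7 : L * L ^ B = Real.exp (((B : ℝ) + 1) * Real.log L) := by
      rw [← pow_succ', mul_comm, ← Real.rpow_def_of_pos hL0, ← Real.rpow_natCast]
      push_cast
      rfl
    rw [h7] at h6
    refine h6.trans (Real.exp_le_exp.mpr (h4.trans ?_))
    have : 0 ≤ L ^ (e / 2) := by positivity
    linarith
  have hLB : 1 ≤ L ^ B := one_le_pow₀ (by linarith)
  have hZge : 2 ≤ Z := by linarith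
  obtain ⟨M, hM⟩ : ∃ M : ℕ, M = ⌊Z⌋₊ := ⟨_, rfl⟩
  have hM1 : Z / 2 ≤ (M : ℝ) := by
    have := Nat.lt_floor_add_one Z
    rw [← hM] at this
    linarith
  have hM0 : M ≠ 0 := by
    intro h
    rw [h] at hM1
    norm_num at hM1
    linarith
  calc cnt x (fun n => n ≠ 0 ∧ ∃ p : ℕ, p.Prime ∧ Z < p ∧ p ^ 2 ∣ n)
      ≤ cnt x (fun n => ∃ p ∈ Ioc M (max M x), n ≠ 0 ∧ p ^ 2 ∣ n) := by
        refine cnt_mono fun n hn hh => ?_
        obtain ⟨h0, p, hp, hZp, hpn⟩ := hh
        refine ⟨p, ?_, h0, hpn⟩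
        rw [mem_Ioc]
        constructor
        · rw [hM]
          exact (Nat.floor_lt (by linarith)).mpr hZp
        · refine le_trans ?_ (le_max_right _ _)
          have h8 := Nat.le_of_dvd (Nat.pos_of_ne_zero h0) hpn
          have h9 : p ≤ p ^ 2 := Nat.le_self_pow (by norm_num) p
          omega
    _ ≤ ∑ p ∈ Ioc M (max M x), cnt x (fun n => n ≠ 0 ∧ p ^ 2 ∣ n) :=
        cnt_exists x _ (fun p n => n ≠ 0 ∧ p ^ 2 ∣ n)
    _ ≤ ∑ p ∈ Ioc M (max M x), (x : ℝ) * (((p : ℝ) ^ 2)⁻¹) := by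
        refine sum_le_sum fun p hp => ?_
        rw [mem_Ioc] at hp
        have h8 := QD3_mult x (p ^ 2)
        refine h8.trans (le_of_eq ?_)
        push_cast
        rw [one_div]
    _ = (x : ℝ) * ∑ p ∈ Ioc M (max M x), ((p : ℝ) ^ 2)⁻¹ := by rw [mul_sum]
    _ ≤ (x : ℝ) * ((M : ℝ)⁻¹) := by
        gcongr
        refine (sum_Ioc_inv_sq_le_sub hM0 (le_max_left _ _)).trans ?_
        have : (0 : ℝ) ≤ ((max M x : ℕ) : ℝ)⁻¹ := by positivity
        linarith
    _ ≤ (x : ℝ) * ((L ^ B)⁻¹) := by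
        gcongr
        linarith
    _ = x / L ^ B := by rw [div_eq_mul_inv]

private lemma QD3_sm_card (Y n : ℕ) (hn : n ≠ 0) :
    (EO.sm Y n).primeFactors = n.primeFactors.filter (fun p => p ≤ Y) := by
  classical
  ext p
  rw [mem_filter, Nat.mem_primeFactors, Nat.mem_primeFactors]
  obtain ⟨g1, g2, g3⟩ := EO.sm_facts Y n (Nat.one_le_iff_ne_zero.mpr hn)
  have g4 : EO.sm Y n ∣ n := ⟨_, g3.symm⟩
  constructor
  · rintro ⟨hp, hd, h0⟩
    exact ⟨⟨hp, hd.trans g4, hn⟩, g2 p (Nat.mem_primeFactors.mpr ⟨hp, hd, h0⟩)⟩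
  · rintro ⟨⟨hp, hd, _⟩, hY⟩
    refine ⟨hp, ?_, by omega⟩
    unfold EO.sm
    have h1 : p ∈ n.primeFactors.filter (fun p => p ≤ Y) := by
      rw [mem_filter, Nat.mem_primeFactors]
      exact ⟨⟨hp, hd, hn⟩, hY⟩
    refine Dvd.dvd.trans ?_ (dvd_prod_of_mem (fun p => p ^ n.factorization p) h1)
    exact dvd_pow_self p (hp.factorization_pos_of_dvd hn hd).ne'

private lemma QD3_sm_mono (Y Y' n : ℕ) (hn : n ≠ 0) (h : Y ≤ Y') :
    EO.sm Y n ≤ EO.sm Y' n ∧ (EO.sm Y n).primeFactors.card ≤ (EO.sm Y' n).primeFactors.card := by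
  classical
  have hsub : n.primeFactors.filter (fun p => p ≤ Y) ⊆ n.primeFactors.filter (fun p => p ≤ Y') := by
    intro p hp
    rw [mem_filter] at hp ⊢
    exact ⟨hp.1, hp.2.trans h⟩
  constructor
  · obtain ⟨g1, _, _⟩ := EO.sm_facts Y' n (Nat.one_le_iff_ne_zero.mpr hn)
    refine Nat.le_of_dvd g1 ?_
    unfold EO.sm
    exact prod_dvd_prod_of_subset _ _ _ hsub
  · rw [QD3_sm_card Y n hn, QD3_sm_card Y' n hn]
    exact card_le_card hsub

/-- the moment of `z^ω` -/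
private lemma QD3_moment (x Y : ℕ) (z : ℝ) (hz : 1 ≤ z) :
    ∑ n ∈ (range x).filter (fun n => n ≠ 0), z ^ (EO.sm Y n).primeFactors.card ≤
      x * ∏ p ∈ (Icc 1 Y).filter Nat.Prime, (1 + (z - 1) / (p : ℝ)) := by
  classical
  set T := (Icc 1 Y).filter Nat.Prime with hT
  have hTp : ∀ p ∈ T, p.Prime := fun p hp => (mem_filter.1 hp).2
  have h1 : ∀ n ∈ (range x).filter (fun n => n ≠ 0), z ^ (EO.sm Y n).primeFactors.card =
      ∑ S ∈ T.powerset, if (∏ p ∈ S, p) ∣ n then (z - 1) ^ S.card else 0 := by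
    intro n hn
    rw [mem_filter] at hn
    have h2 : (EO.sm Y n).primeFactors = T.filter (fun p => p ∣ n) := by
      rw [QD3_sm_card Y n hn.2]
      ext p
      rw [mem_filter, mem_filter, hT, mem_filter, mem_Icc, Nat.mem_primeFactors]
      constructor
      · rintro ⟨⟨hp, hd, _⟩, hY⟩
        exact ⟨⟨⟨hp.one_lt.le, hY⟩, hp⟩, hd⟩
      · rintro ⟨⟨⟨_, hY⟩, hp⟩, hd⟩
        exact ⟨⟨hp, hd, hn.2⟩, hY⟩
    rw [h2]
    calc z ^ (T.filter (fun p => p ∣ n)).card = ∏ p ∈ T.filter (fun p => p ∣ n), (1 + (z - 1)) := by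
          rw [prod_const]
          congr 1
          ring
      _ = ∑ S ∈ (T.filter (fun p => p ∣ n)).powerset, ∏ p ∈ S, (z - 1) := by
          rw [prod_one_add]
      _ = ∑ S ∈ (T.filter (fun p => p ∣ n)).powerset, (z - 1) ^ S.card := by
          refine sum_congr rfl fun S _ => ?_
          rw [prod_const]
      _ = ∑ S ∈ T.powerset.filter (fun S => (∏ p ∈ S, p) ∣ n), (z - 1) ^ S.card := by
          refine sum_congr ?_ fun _ _ => rfl
          ext S
          rw [mem_powerset, mem_filter, mem_powerset]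
          constructor
          · intro hS
            have h3 : S ⊆ T := fun p hp => (mem_filter.1 (hS hp)).1
            refine ⟨h3, ?_⟩
            exact prod_primes_dvd n (fun p hp => (hTp p (h3 hp)).prime)
              (fun p hp => (mem_filter.1 (hS hp)).2)
          · rintro ⟨h3, h4⟩ p hp
            rw [mem_filter]
            exact ⟨h3 hp, (dvd_prod_of_mem (fun p => p) hp).trans h4⟩
      _ = _ := by rw [sum_filter]
  rw [sum_congr rfl h1, sum_comm]
  calc ∑ S ∈ T.powerset, ∑ n ∈ (range x).filter (fun n => n ≠ 0),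
        (if (∏ p ∈ S, p) ∣ n then (z - 1) ^ S.card else 0)
      ≤ ∑ S ∈ T.powerset, (x : ℝ) * ((1 : ℝ) / ((∏ p ∈ S, p : ℕ) : ℝ)) * (z - 1) ^ S.card := by
        refine sum_le_sum fun S hS => ?_
        rw [mem_powerset] at hS
        rw [← sum_filter, sum_const, nsmul_eq_mul, filter_filter]
        have hz1 : 0 ≤ z - 1 := by linarith
        refine mul_le_mul_of_nonneg_right ?_ (pow_nonneg hz1 _)
        have h5 := QD3_mult x (∏ p ∈ S, p)
        unfold EO.cnt at h5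
        refine le_trans (le_of_eq ?_) h5
        congr 2
        ext n
        simp only [mem_filter]
    _ = x * ∑ S ∈ T.powerset, ∏ p ∈ S, ((z - 1) / (p : ℝ)) := by
        rw [mul_sum]
        refine sum_congr rfl fun S _ => ?_
        rw [prod_div_distrib, prod_const]
        push_cast
        ring
    _ = _ := by rw [prod_one_add]

private lemma QD3_omega (x Y : ℕ) (C z u : ℝ) (hz : 1 ≤ z)
    (hC : ∑ p ∈ (Icc 1 Y).filter Nat.Prime, ((p : ℝ))⁻¹ ≤ Real.log (1 + Real.log Y) + C) :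
    cnt x (fun n => n ≠ 0 ∧ u ≤ ((EO.sm Y n).primeFactors.card : ℝ)) ≤
      x * (z ^ (-u) * Real.exp ((z - 1) * (Real.log (1 + Real.log Y) + C))) := by
  classical
  have hz0 : 0 < z := by linarith
  have h1 := QD3_moment x Y z hz
  have h2 : cnt x (fun n => n ≠ 0 ∧ u ≤ ((EO.sm Y n).primeFactors.card : ℝ)) * z ^ u ≤
      ∑ n ∈ (range x).filter (fun n => n ≠ 0), z ^ (EO.sm Y n).primeFactors.card := by
    unfold EO.cnt
    rw [← nsmul_eq_mul, ← sum_const]
    refine le_trans (sum_le_sum (g := fun n => z ^ (EO.sm Y n).primeFactors.card)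
      fun n hn => ?_) (sum_le_sum_of_subset_of_nonneg (fun n hn => ?_) fun _ _ _ => by positivity)
    · simp only [mem_filter] at hn
      rw [← Real.rpow_natCast]
      exact Real.rpow_le_rpow_of_exponent_le hz hn.2.2
    · simp only [mem_filter] at hn ⊢
      exact ⟨hn.1, hn.2.1⟩
  have h3 : ∏ p ∈ (Icc 1 Y).filter Nat.Prime, (1 + (z - 1) / (p : ℝ)) ≤
      Real.exp ((z - 1) * (Real.log (1 + Real.log Y) + C)) := by
    calc ∏ p ∈ (Icc 1 Y).filter Nat.Prime, (1 + (z - 1) / (p : ℝ))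
        ≤ ∏ p ∈ (Icc 1 Y).filter Nat.Prime, Real.exp ((z - 1) / (p : ℝ)) := by
          refine prod_le_prod (fun p _ => ?_) (fun p _ => ?_)
          · have : 0 ≤ (z - 1) / (p : ℝ) := div_nonneg (by linarith) (by positivity)
            linarith
          · rw [add_comm]
            exact Real.add_one_le_exp _
      _ = Real.exp ((z - 1) * ∑ p ∈ (Icc 1 Y).filter Nat.Prime, ((p : ℝ))⁻¹) := by
          rw [mul_sum, Real.exp_sum]
          refine prod_congr rfl fun p _ => ?_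
          rw [div_eq_mul_inv]
      _ ≤ _ := by
          apply Real.exp_le_exp.mpr
          exact mul_le_mul_of_nonneg_left hC (by linarith)
  have hzu : 0 < z ^ u := by positivity
  have h4 : cnt x (fun n => n ≠ 0 ∧ u ≤ ((EO.sm Y n).primeFactors.card : ℝ)) * z ^ u ≤
      x * Real.exp ((z - 1) * (Real.log (1 + Real.log Y) + C)) :=
    h2.trans (h1.trans (by gcongr))
  rw [Real.rpow_neg hz0.le]
  rw [← le_div_iff₀ hzu] at h4
  refine h4.trans (le_of_eq ?_)
  rw [div_eq_mul_inv]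
  ring

/-- large values of `gb` come from a large smooth part or from many primes -/
private lemma QD3_split (s Y n : ℕ) (a : ℝ) (ha : 1 ≤ a) (hs : ((2 * (s - 1) : ℕ) : ℝ) ≤ a)
    (hn : n ≠ 0) (h : ⌊Real.exp (a ^ 4)⌋₊ < gb s Y n) :
    Real.exp a ≤ (EO.sm Y n : ℝ) ∨ 2 * Real.log a ≤ ((EO.sm Y n).primeFactors.card : ℝ) := by
  classical
  obtain ⟨g1, _, _⟩ := EO.sm_facts Y n (Nat.one_le_iff_ne_zero.mpr hn)
  rcases le_or_gt (Real.exp a) (EO.sm Y n : ℝ) with h1 | h1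
  · exact Or.inl h1
  · refine Or.inr ?_
    set m := EO.sm Y n with hm
    set k := m.primeFactors.card with hk
    have hm0 : (0 : ℝ) < m := by exact_mod_cast g1
    have h2 : Real.log m < a := (Real.log_lt_iff_lt_exp hm0).mpr h1
    have h3 : Real.exp (a ^ 4) < ((gb s Y n : ℕ) : ℝ) := (Nat.floor_lt (Real.exp_pos _).le).mp h
    have h4 : a ^ 4 < Real.log ((gb s Y n : ℕ) : ℝ) := by
      rw [Real.lt_log_iff_exp_lt (lt_trans (Real.exp_pos _) h3)]
      exact h3
    have h5 : Real.log ((gb s Y n : ℕ) : ℝ) = 2 ^ k * (((2 * (s - 1) : ℕ) : ℝ) * Real.log m) := by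
      unfold gb
      rw [Nat.cast_pow, Real.log_pow, Nat.cast_pow, Nat.cast_pow, Real.log_pow, ← hm, ← hk]
      norm_num
    have hlm : 0 ≤ Real.log m := Real.log_nonneg (by exact_mod_cast g1)
    have h6 : a ^ 4 < 2 ^ k * (a * a) := by
      rw [h5] at h4
      refine lt_of_lt_of_le h4 ?_
      gcongr
    have h7 : a ^ 2 < 2 ^ k := by
      have h8 : a ^ 4 = a ^ 2 * (a * a) := by ring
      rw [h8] at h6
      have h9 : 0 < a * a := by positivity
      exact lt_of_mul_lt_mul_right h6 h9.le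
    have h8 : Real.log (a ^ 2) ≤ Real.log (2 ^ k) := Real.log_le_log (by positivity) h7.le
    rw [Real.log_pow, Real.log_pow] at h8
    push_cast at h8
    refine h8.trans ?_
    have h9 : Real.log 2 ≤ 1 := by
      have := Real.log_two_lt_d9
      linarith
    calc (k : ℝ) * Real.log 2 ≤ k * 1 := by gcongr
      _ = k := mul_one _

theorem gb_few (κ : ℝ) (hκ : 0 < κ) (K B D s : ℕ) : ∃ x0 : ℕ, ∀ x : ℕ, x0 ≤ x →
    cnt x (fun n => n ≠ 0 ∧ BB κ K x < gb s (zD D x) n) ≤ x / Real.log x ^ B := by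
  classical
  obtain ⟨e, he, hA⟩ := QD3_AC κ hκ K
  obtain ⟨C, hC0, hC⟩ := EO.sm_count
  obtain ⟨C', hC'0, hC'⟩ := EO.s1_msum
  -- constants
  set e1 : ℝ := e / 8 with he1
  have he1p : 0 < e1 := by positivity
  set c : ℝ := 2 * e1 with hc
  have hcp : 0 < c := by positivity
  set z : ℝ := Real.exp (((B : ℝ) + 2) / c) with hz
  have hz1 : 1 ≤ z := Real.one_le_exp (by positivity)
  set d : ℝ := (D : ℝ) + 1 with hd
  have hd1 : 1 ≤ d := by
    rw [hd]
    have : (0 : ℝ) ≤ D := Nat.cast_nonneg _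
    linarith
  set C1 : ℝ := (d + 1) * (3 * C * (1 + d) + (B + 1)) with hC1
  have hC1p : 0 ≤ C1 := by positivity
  -- eventual facts
  have hev : ∀ᶠ L : ℝ in Filter.atTop, ((C1 + 1) * Real.log L ≤ L ^ (e1 / 2) ∧
      ((2 * (s - 1) : ℕ) : ℝ) ≤ L ^ e1) ∧ 2 ≤ L ∧ 3 ≤ Real.log L ∧
      (z - 1) * (Real.log (1 + d * Real.log L) + C') ≤ Real.log L := by
    refine ((QD3_log _ _ (by positivity)).and
      ((tendsto_rpow_atTop he1p).eventually_ge_atTop _)).and
      ((Filter.eventually_ge_atTop 2).and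
        ((Real.tendsto_log_atTop.eventually_ge_atTop 3).and ?_))
    refine Real.tendsto_log_atTop.eventually
      (p := fun ℓ => (z - 1) * (Real.log (1 + d * ℓ) + C') ≤ ℓ) ?_
    have h1 : ∀ᶠ ℓ : ℝ in Filter.atTop, 2 * (z - 1) * Real.log ℓ ≤ ℓ ^ (1 : ℝ) :=
      QD3_log _ 1 one_pos
    filter_upwards [h1, Filter.eventually_ge_atTop 1,
      Filter.eventually_ge_atTop (2 * ((z - 1) * (Real.log (1 + d) + C')))] with ℓ h1 h2 h3
    rw [Real.rpow_one] at h1
    have h4 : Real.log (1 + d * ℓ) ≤ Real.log (1 + d) + Real.log ℓ := by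
      rw [← Real.log_mul (by positivity) (by positivity)]
      apply Real.log_le_log (by positivity)
      nlinarith
    have h5 : (z - 1) * (Real.log (1 + d * ℓ) + C') ≤
        (z - 1) * (Real.log (1 + d) + Real.log ℓ + C') := by
      apply mul_le_mul_of_nonneg_left _ (by linarith)
      linarith
    nlinarith
  obtain ⟨x0, hx0⟩ := QD3_ev _ hev
  refine ⟨x0, fun x hx => ?_⟩
  obtain ⟨h3, ⟨h4, h5⟩, h6, h7, h8⟩ := hx0 x hx
  set L := Real.log x with hL
  have hL0 : 0 < L := by linarith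
  set ℓ := Real.log L with hℓ
  -- the parameters
  set a : ℝ := L ^ e1 with ha
  have ha1 : 1 ≤ a := Real.one_le_rpow (by linarith) he1p.le
  have hBB : BB κ K x = ⌊Real.exp (a ^ 4)⌋₊ := by
    unfold BB
    rw [hA, ← Real.rpow_mul hL0.le, ha, ← Real.rpow_natCast, ← Real.rpow_mul hL0.le]
    congr 3
    rw [he1]
    push_cast
    ring
  have hloga : 2 * Real.log a = c * ℓ := by
    rw [ha, Real.log_rpow hL0]
    ring
  set Y := zD (D + 1) x with hY
  have hYle : zD D x ≤ Y := by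
    rw [hY]
    unfold zD
    apply Nat.floor_le_floor
    rw [pow_succ]
    have : 0 ≤ Real.log (x : ℝ) ^ D := by positivity
    nlinarith
  have hYfl : (Y : ℝ) ≤ L ^ (D + 1) := Nat.floor_le (by positivity)
  have hY2 : 2 ≤ Y := by
    rw [hY]
    unfold zD
    apply Nat.le_floor
    calc ((2 : ℕ) : ℝ) ≤ L ^ 1 := by
          push_cast
          linarith
      _ ≤ L ^ (D + 1) := pow_le_pow_right₀ (by linarith) (by omega)
  have hY2r : (2 : ℝ) ≤ Y := by exact_mod_cast hY2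
  have hlogY : Real.log Y ≤ d * ℓ := by
    calc Real.log Y ≤ Real.log (L ^ (D + 1)) := Real.log_le_log (by linarith) hYfl
      _ = d * ℓ := by
          rw [Real.log_pow, hd]
          push_cast
          rfl
  have hlogY0 : 0 ≤ Real.log Y := Real.log_nonneg (by linarith)
  -- splitting
  have hsplit : cnt x (fun n => n ≠ 0 ∧ BB κ K x < gb s (zD D x) n) ≤
      cnt x (fun n => 1 ≤ n ∧ Real.exp a ≤ (EO.sm Y n : ℝ)) +
      cnt x (fun n => n ≠ 0 ∧ c * ℓ ≤ ((EO.sm Y n).primeFactors.card : ℝ)) := by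
    refine (cnt_mono fun n hn hh => ?_).trans (cnt_or x _ _)
    obtain ⟨hn0, hg⟩ := hh
    rw [hBB] at hg
    obtain ⟨m1, m2⟩ := QD3_sm_mono (zD D x) Y n hn0 hYle
    rcases QD3_split s (zD D x) n a ha1 h5 hn0 hg with h9 | h9
    · refine Or.inl ⟨Nat.one_le_iff_ne_zero.mpr hn0, h9.trans ?_⟩
      exact_mod_cast m1
    · refine Or.inr ⟨hn0, ?_⟩
      rw [← hloga]
      refine h9.trans ?_
      exact_mod_cast m2
  -- exponentials
  have hexpB : Real.exp (-(((B : ℝ) + 1) * ℓ)) = (L ^ (B + 1))⁻¹ := by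
    rw [Real.exp_neg]
    congr 1
    rw [mul_comm, hℓ, ← Real.rpow_def_of_pos hL0, ← Real.rpow_natCast]
    push_cast
    rfl
  -- first case
  have hcase1 : cnt x (fun n => 1 ≤ n ∧ Real.exp a ≤ (EO.sm Y n : ℝ)) ≤
      x * (L ^ (B + 1))⁻¹ := by
    set σ : ℝ := 1 / (d * ℓ + 1) with hσ
    have hdl : 3 ≤ d * ℓ := by nlinarith
    have hσ0 : 0 < σ := by positivity
    have hσ4 : σ ≤ 1 / 4 := by
      rw [hσ]
      apply one_div_le_one_div_of_le (by norm_num)
      linarith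
    refine (hC Y x (Real.exp a) σ hY2 (Real.one_le_exp (by linarith)) hσ0 hσ4).trans ?_
    refine mul_le_mul_of_nonneg_left ?_ (Nat.cast_nonneg _)
    have hYσ : (Y : ℝ) ^ σ ≤ 3 := by
      calc (Y : ℝ) ^ σ = Real.exp (Real.log Y * σ) := Real.rpow_def_of_pos (by linarith) _
        _ ≤ Real.exp 1 := by
            apply Real.exp_le_exp.mpr
            rw [hσ, mul_one_div, div_le_one (by positivity)]
            linarith
        _ ≤ 3 := by
            have := Real.exp_one_lt_d9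
            linarith
    have hl1 : Real.log (1 + Real.log Y) ≤ d * ℓ := by
      have := Real.log_le_sub_one_of_pos (show 0 < 1 + Real.log Y by linarith)
      linarith
    have hl0 : 0 ≤ Real.log (1 + Real.log Y) := Real.log_nonneg (by linarith)
    rw [← Real.exp_mul, ← Real.exp_add, ← hexpB]
    apply Real.exp_le_exp.mpr
    have h9 : C * (Y : ℝ) ^ σ * (1 + Real.log (1 + Real.log Y)) ≤ 3 * C * (1 + d * ℓ) := by
      calc C * (Y : ℝ) ^ σ * (1 + Real.log (1 + Real.log Y)) ≤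
            C * 3 * (1 + d * ℓ) := by gcongr
        _ = _ := by ring
    have h10 : (d * ℓ + 1) * (3 * C * (1 + d * ℓ) + (B + 1) * ℓ) ≤ a := by
      have h11 : (d * ℓ + 1) ≤ (d + 1) * ℓ := by nlinarith
      have h12 : 3 * C * (1 + d * ℓ) + (B + 1) * ℓ ≤ (3 * C * (1 + d) + (B + 1)) * ℓ := by
        have : 3 * C * (1 + d * ℓ) ≤ 3 * C * ((1 + d) * ℓ) := by
          apply mul_le_mul_of_nonneg_left _ (by positivity)
          nlinarith
        linarith
      calc (d * ℓ + 1) * (3 * C * (1 + d * ℓ) + (B + 1) * ℓ)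
          ≤ ((d + 1) * ℓ) * ((3 * C * (1 + d) + (B + 1)) * ℓ) := by gcongr
        _ = C1 * ℓ ^ 2 := by
            rw [hC1]
            ring
        _ ≤ (C1 + 1) ^ 2 * ℓ ^ 2 := by
            have : C1 ≤ (C1 + 1) ^ 2 := by nlinarith
            gcongr
        _ = ((C1 + 1) * ℓ) ^ 2 := by ring
        _ ≤ (L ^ (e1 / 2)) ^ 2 := by
            have : 0 ≤ (C1 + 1) * ℓ := by positivity
            gcongr
        _ = a := by
            rw [← Real.rpow_natCast, ← Real.rpow_mul hL0.le, ha]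
            congr 1
            push_cast
            ring
    have h13 : a * -σ = -(a / (d * ℓ + 1)) := by
      rw [hσ]
      ring
    rw [h13]
    have h14 : 3 * C * (1 + d * ℓ) + (B + 1) * ℓ ≤ a / (d * ℓ + 1) := by
      rw [le_div_iff₀ (by positivity)]
      linarith
    linarith
  -- second case
  have hcase2 : cnt x (fun n => n ≠ 0 ∧ c * ℓ ≤ ((EO.sm Y n).primeFactors.card : ℝ)) ≤
      x * (L ^ (B + 1))⁻¹ := by
    refine (QD3_omega x Y C' z (c * ℓ) hz1 (hC' Y hY2)).trans ?_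
    refine mul_le_mul_of_nonneg_left ?_ (Nat.cast_nonneg _)
    rw [hz, ← Real.exp_mul, ← Real.exp_add, ← hexpB]
    apply Real.exp_le_exp.mpr
    rw [← hz]
    have h9 : ((B : ℝ) + 2) / c * -(c * ℓ) = -((B + 2) * ℓ) := by
      field_simp
    rw [h9]
    have h10 : (z - 1) * (Real.log (1 + Real.log Y) + C') ≤
        (z - 1) * (Real.log (1 + d * ℓ) + C') := by
      apply mul_le_mul_of_nonneg_left _ (by linarith)
      have : Real.log (1 + Real.log Y) ≤ Real.log (1 + d * ℓ) :=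
        Real.log_le_log (by linarith) (by linarith)
      linarith
    linarith
  calc cnt x (fun n => n ≠ 0 ∧ BB κ K x < gb s (zD D x) n)
      ≤ x * (L ^ (B + 1))⁻¹ + x * (L ^ (B + 1))⁻¹ := hsplit.trans (add_le_add hcase1 hcase2)
    _ = 2 * (x / L ^ (B + 1)) := by
        rw [div_eq_mul_inv]
        ring
    _ ≤ x / L ^ B := by
        rw [pow_succ]
        have hLB : 0 < L ^ B := by positivity
        rw [← mul_div_assoc, div_le_div_iff₀ (by positivity) hLB]
        have hx0 : (0 : ℝ) ≤ x := Nat.cast_nonneg _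
        nlinarith [mul_nonneg hx0 hLB.le]

end Pool.Agent.Lib.MP_79499b_co.QZ
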