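import Pool.Agent.Lib.MP_79499b_co.QZ.QN6

/-!
# QN7: the sum of 1/p over the bad primes

`rareA_sum`: for large `A`, `log x ≤ A^K0`, a pair which is not exceptional, `Ω(a) ≤ A^κ`: a finite set `R` of primes
`ZA A = exp(2 A^(1/2)) < p ≤ x`, `p ∤ a`, `p ∤ w1 w2`, bad for `a`, has `∑ 1/p ≤ exp(-A^(3/10))`.

Proof (as NRSum.lean): dyadic blocks `2^k < p ≤ 2^(k+1)`, `Y = 2^k ≥ p/2 ≥ exp(2 A^(1/2))/2 ≥ exp(A^(1/2))`; each block has at most
`Y exp(-A^(1/3))` elements (`rareA`), each with `1/p ≤ 1/Y`; at most `1 + log x/log 2 ≤ 1 + 2 A^K0` blocks. Total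
`≤ (1 + 2 A^K0) exp(-A^(1/3)) ≤ exp(-A^(3/10))` for large `A`.
-/

set_option autoImplicit false

namespace Pool.Agent.Lib.MP_79499b_co.QZ

open Finset DZ

private theorem qn7_num1 : ∀ᶠ A : ℝ in Filter.atTop,
    Real.exp (A ^ (1 / 2 : ℝ)) ≤ Real.exp (2 * A ^ (1 / 2 : ℝ)) / 2 := by
  filter_upwards [Filter.eventually_ge_atTop (1 : ℝ)] with A hA
  have h5 : (1 : ℝ) ≤ A ^ (1 / 2 : ℝ) := Real.one_le_rpow hA (by norm_num)
  have h6 : A ^ (1 / 2 : ℝ) + Real.log 2 ≤ 2 * A ^ (1 / 2 : ℝ) := by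
    have h7 := Real.log_two_lt_d9
    linarith
  have h8 : Real.exp (A ^ (1 / 2 : ℝ)) * 2 = Real.exp (A ^ (1 / 2 : ℝ) + Real.log 2) := by
    rw [Real.exp_add, Real.exp_log (by norm_num)]
  rw [le_div_iff₀ (by norm_num), h8]
  exact Real.exp_le_exp.2 h6

private theorem qn7_num2 (K0 : ℝ) : ∀ᶠ A : ℝ in Filter.atTop,
    (2 * A ^ K0 + 1) * Real.exp (-(A ^ (1 / 3 : ℝ))) ≤ Real.exp (-(A ^ (3 / 10 : ℝ))) := by
  have h1 : ∀ᶠ A : ℝ in Filter.atTop, A ^ (-(1 / 3 - 3 / 10) : ℝ) ≤ 1 / 3 :=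
    (tendsto_rpow_neg_atTop (show (0 : ℝ) < 1 / 3 - 3 / 10 by norm_num)).eventually_le_const
      (by norm_num)
  have h2 : ∀ᶠ A : ℝ in Filter.atTop,
      ‖Real.log A‖ ≤ (1 / (3 * (|K0| + 1))) * ‖A ^ (1 / 3 : ℝ)‖ :=
    (isLittleO_log_rpow_atTop (by norm_num)).bound (by positivity)
  have h3 : ∀ᶠ A : ℝ in Filter.atTop, 6 ≤ A ^ (1 / 3 : ℝ) :=
    (tendsto_rpow_atTop (by norm_num)).eventually_ge_atTop 6
  filter_upwards [Filter.eventually_ge_atTop 1, h1, h2, h3] with A hA e1 e2 e3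
  have hA0 : 0 < A := by linarith
  have hlog : 0 ≤ Real.log A := Real.log_nonneg hA
  rw [Real.norm_eq_abs, abs_of_nonneg hlog, Real.norm_eq_abs,
    abs_of_pos (Real.rpow_pos_of_pos hA0 _)] at e2
  have f1 : A ^ K0 ≤ Real.exp (1 / 3 * A ^ (1 / 3 : ℝ)) := by
    rw [Real.rpow_def_of_pos hA0]
    apply Real.exp_le_exp.mpr
    have g1 : Real.log A * K0 ≤ Real.log A * (|K0| + 1) := by
      apply mul_le_mul_of_nonneg_left _ hlog
      linarith [le_abs_self K0]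
    have g2 : Real.log A * (|K0| + 1) ≤ (1 / (3 * (|K0| + 1))) * A ^ (1 / 3 : ℝ) * (|K0| + 1) := by
      apply mul_le_mul_of_nonneg_right e2
      positivity
    have g3 : (1 / (3 * (|K0| + 1))) * A ^ (1 / 3 : ℝ) * (|K0| + 1) = 1 / 3 * A ^ (1 / 3 : ℝ) := by
      field_simp
    linarith
  have f2 : (3 : ℝ) ≤ Real.exp (1 / 3 * A ^ (1 / 3 : ℝ)) := by
    have := Real.add_one_le_exp (1 / 3 * A ^ (1 / 3 : ℝ))
    linarith
  have f3 : 2 * A ^ K0 + 1 ≤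
      Real.exp (1 / 3 * A ^ (1 / 3 : ℝ)) * Real.exp (1 / 3 * A ^ (1 / 3 : ℝ)) := by
    nlinarith
  have f4 : A ^ (3 / 10 : ℝ) ≤ 1 / 3 * A ^ (1 / 3 : ℝ) := by
    have g1 : A ^ (3 / 10 : ℝ) = A ^ (-(1 / 3 - 3 / 10) : ℝ) * A ^ (1 / 3 : ℝ) := by
      rw [← Real.rpow_add hA0]
      norm_num
    rw [g1]
    exact mul_le_mul_of_nonneg_right e1 (Real.rpow_pos_of_pos hA0 _).le
  calc (2 * A ^ K0 + 1) * Real.exp (-(A ^ (1 / 3 : ℝ)))
      ≤ Real.exp (1 / 3 * A ^ (1 / 3 : ℝ)) * Real.exp (1 / 3 * A ^ (1 / 3 : ℝ)) *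
          Real.exp (-(A ^ (1 / 3 : ℝ))) :=
        mul_le_mul_of_nonneg_right f3 (Real.exp_pos _).le
    _ = Real.exp (-(1 / 3 * A ^ (1 / 3 : ℝ))) := by
        rw [← Real.exp_add, ← Real.exp_add]
        congr 1
        ring
    _ ≤ Real.exp (-(A ^ (3 / 10 : ℝ))) := Real.exp_le_exp.2 (by linarith)

theorem rareA_sum (e0 : ℕ) (he0 : 1 ≤ e0) (κ : ℝ) (hκ : 0 < κ) (hκ1 : κ ≤ 1 / 100) (K0 : ℝ) :
    ∃ A0 : ℝ, ∀ A : ℝ, A0 ≤ A → ∀ x : ℕ, 3 ≤ x → Real.log x ≤ A ^ K0 →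
      ∀ c1 c2 w1 w2 r1 r2 : ℕ, CPair A κ c1 c2 w1 w2 r1 r2 →
      ¬ ExcP A κ w1 w2 → ∀ a : ℕ, a ≠ 0 → (a.primeFactorsList.length : ℝ) ≤ A ^ κ →
      ∀ R : Finset ℕ,
      (∀ p ∈ R, p.Prime ∧ ZA A < p ∧ p ≤ x ∧ ¬ p ∣ a ∧ ¬ p ∣ w1 * w2 ∧
        BadP (KF (FW w1 w2) (r1 * r2)) e0 a p) →
      ∑ p ∈ R, (1 : ℝ) / p ≤ Real.exp (-(A ^ (3 / 10 : ℝ))) := by
  obtain ⟨A1, hA1⟩ := rareA e0 he0 κ hκ hκ1
  have hev := (qn7_num1.and (qn7_num2 K0)).and (Filter.eventually_ge_atTop A1)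
  obtain ⟨A0, hA0⟩ := Filter.eventually_atTop.1 hev
  refine ⟨A0, fun A hA x hx3 hlogx c1 c2 w1 w2 r1 r2 hG hE a ha hκa R hR => ?_⟩
  obtain ⟨⟨hn1, hn2⟩, hAA1⟩ := hA0 A hA
  have hblock : ∀ k ∈ Finset.range (Nat.log 2 x + 1),
      ∑ p ∈ R.filter (fun p => Nat.log 2 p = k), (1 : ℝ) / p ≤
        Real.exp (-(A ^ (1 / 3 : ℝ))) := by
    intro k _
    rcases (R.filter (fun p => Nat.log 2 p = k)).eq_empty_or_nonempty with he | ⟨p0, hp0⟩
    · rw [he, Finset.sum_empty]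
      exact (Real.exp_pos _).le
    · have hY : Real.exp (A ^ (1 / 2 : ℝ)) ≤ ((2 ^ k : ℕ) : ℝ) := by
        obtain ⟨hp0R, hp0k⟩ := Finset.mem_filter.1 hp0
        have h1 := (hR p0 hp0R).2.1
        have h2 : p0 < 2 ^ (k + 1) := by
          rw [← hp0k]
          exact Nat.lt_pow_succ_log_self (by norm_num) p0
        have h3 : (p0 : ℝ) < 2 ^ (k + 1) := by exact_mod_cast h2
        have h4 : ZA A < 2 ^ (k + 1) := h1.trans h3
        have h5 : Real.exp (2 * A ^ (1 / 2 : ℝ)) / 2 ≤ 2 ^ k := by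
          unfold ZA at h4
          rw [pow_succ] at h4
          linarith
        push_cast
        linarith
      have hcard := hA1 A hAA1 c1 c2 w1 w2 r1 r2 hG hE a ha hκa (2 ^ k) hY
        (R.filter (fun p => Nat.log 2 p = k)) (fun p hp => by
          obtain ⟨hpR, hpk⟩ := Finset.mem_filter.1 hp
          obtain ⟨q1, q2, q3, q4, q5, q6⟩ := hR p hpR
          refine ⟨q1, ?_, q4, q5, q6⟩
          have h2 : p < 2 ^ (k + 1) := by
            rw [← hpk]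
            exact Nat.lt_pow_succ_log_self (by norm_num) p
          rw [pow_succ] at h2
          omega)
      have hY0 : (0 : ℝ) < ((2 ^ k : ℕ) : ℝ) := by positivity
      have h6 : ∑ p ∈ R.filter (fun p => Nat.log 2 p = k), (1 : ℝ) / p ≤
          ∑ _p ∈ R.filter (fun p => Nat.log 2 p = k), (1 : ℝ) / ((2 ^ k : ℕ) : ℝ) := by
        refine Finset.sum_le_sum (fun p hp => ?_)
        obtain ⟨hpR, hpk⟩ := Finset.mem_filter.1 hp
        have hp1 := (hR p hpR).1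
        have h7 : 2 ^ k ≤ p := by
          rw [← hpk]
          exact Nat.pow_log_le_self 2 hp1.ne_zero
        exact one_div_le_one_div_of_le hY0 (by exact_mod_cast h7)
      rw [Finset.sum_const, nsmul_eq_mul] at h6
      refine h6.trans ?_
      rw [mul_one_div, div_le_iff₀ hY0, mul_comm (Real.exp _)]
      exact hcard
  have hmaps : ∀ p ∈ R, Nat.log 2 p ∈ Finset.range (Nat.log 2 x + 1) := by
    intro p hp
    have h1 := (hR p hp).2.2.1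
    have h2 := Nat.log_mono_right (b := 2) h1
    rw [Finset.mem_range]
    omega
  rw [← Finset.sum_fiberwise_of_maps_to hmaps]
  refine (Finset.sum_le_sum hblock).trans ?_
  rw [Finset.sum_const, nsmul_eq_mul, Finset.card_range]
  have hlogpos : 0 ≤ Real.log x := Real.log_nonneg (by exact_mod_cast (by omega : 1 ≤ x))
  have hlog : ((Nat.log 2 x + 1 : ℕ) : ℝ) ≤ 2 * A ^ K0 + 1 := by
    have h1 : ((Nat.log 2 x : ℕ) : ℝ) ≤ Real.logb 2 x := by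
      have := Real.natLog_le_logb x 2
      exact_mod_cast this
    have h2 : Real.logb 2 x ≤ 2 * Real.log x := by
      rw [Real.logb, div_le_iff₀ (Real.log_pos (by norm_num))]
      have h3 := Real.log_two_gt_d9
      nlinarith
    push_cast
    linarith
  exact (mul_le_mul_of_nonneg_right hlog (Real.exp_pos _).le).trans hn2

end Pool.Agent.Lib.MP_79499b_co.QZ
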