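import Pool.Agent.Lib.MP_79499b_co.DZ.NCls
import Pool.Agent.Lib.MP_79499b_co.QZ.QN7

/-!
# QM2: the integers with a bad prime and a large cofactor

`cnt_caseB`: large `A`, `log x ≤ A^K0`: the number of `n < x` for which there are a pair (`CPair`, not exceptional) with
`w1 ∣ n^s + 1`, `w2 ∣ ∑ n^i` and `n = a p b`, `Ω(n) ≤ A^κ`, `p > ZA A` prime, `p ∤ a`, `p` bad for `a`, `b > exp(A^(1+7κ))`, is at most
`x exp(-A^(2/7))`.

Proof (as NMain.lean). For such `n`: `n` is coprime to `w1 w2` (`w1 ∣ n^s + 1`, `w2 ∣ 1 + n (...)`), so `a p` is, and `p ∤ w1 w2`;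
`a ≠ 0`, `Ω(a) ≤ Ω(n) ≤ A^κ`. `w1 w2 ≤ exp(2 A^(1+κ)) ≤ exp(A^(1+7κ)) < b` for large `A`, so `w1 w2 < b ≤ x/(a p)`.
For a fixed pair (with `c1, c2`), `a`, `p` the number of `b` is at most `2 s^2 x/(a p w1 w2)` (`cls_count` with `m = a p`,
`Z = x/(a p)`). Sum over the `p ≤ x` bad for `a`: `∑ 1/p ≤ exp(-A^(3/10))` (`rareA_sum`); over `1 ≤ a ≤ x`:
`∑ 1/a ≤ 1 + log x ≤ 1 + A^K0`; over the pairs: `(1 + A^(1+κ))^2` (harmonic sums, `w ≤ exp A^(1+κ)`); over `c1, c2 ≤ A^κ`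
(`r1, r2` are determined by `w_i`, `c_i`): `A^(2κ)`. Total `≤ 2 s^2 x A^(2κ) (1 + A^(1+κ))^2 (1 + A^K0) exp(-A^(3/10)) ≤ x exp(-A^(2/7))`.
-/

set_option autoImplicit false

open NumberField

namespace Pool.Agent.Lib.MP_79499b_co.QZ

open Finset DZ

private theorem QM2_len (a n : ℕ) (hn : n ≠ 0) (h : a ∣ n) :
    a.primeFactorsList.length ≤ n.primeFactorsList.length := by
  obtain ⟨b, rfl⟩ := h
  have ha : a ≠ 0 := left_ne_zero_of_mul hn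
  have hb : b ≠ 0 := right_ne_zero_of_mul hn
  rw [(Nat.perm_primeFactorsList_mul ha hb).length_eq, List.length_append]
  omega

open scoped Classical in
/-- the event for fixed pair and fixed `a`, `p` -/
private def QM2_E (s w1 w2 a p n : ℕ) : Prop :=
  0 < a * p ∧ a * p ∣ n ∧ ((w1 : ℝ) * w2 < ((n / (a * p) : ℕ) : ℝ)) ∧ w1 ∣ n ^ s + 1 ∧
    w2 ∣ ∑ i ∈ Finset.range s, n ^ i ∧ Nat.Coprime (a * p) (w1 * w2)

open scoped Classical in
private theorem QM2_cnt (s w1 w2 a p x : ℕ) (h1 : w1.Prime) (h2 : w2.Prime) (hne : w1 ≠ w2)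
    (hs : 1 ≤ s) : cnt x (QM2_E s w1 w2 a p) ≤
      2 * (s : ℝ) ^ 2 * ((x : ℝ) / (a * p)) / ((w1 : ℝ) * w2) := by
  have hRHS : 0 ≤ 2 * (s : ℝ) ^ 2 * ((x : ℝ) / (a * p)) / ((w1 : ℝ) * w2) := by positivity
  rcases Finset.eq_empty_or_nonempty ((Finset.range x).filter (QM2_E s w1 w2 a p)) with h0 | h0
  · unfold cnt
    rw [h0, Finset.card_empty, Nat.cast_zero]
    exact hRHS
  · obtain ⟨n0, hn0⟩ := h0
    rw [Finset.mem_filter, Finset.mem_range] at hn0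
    have hap : 0 < a * p := hn0.2.1
    have hcop := hn0.2.2.2.2.2.2
    have hapr : (0 : ℝ) < (a : ℝ) * p := by exact_mod_cast hap
    have hle : ∀ n : ℕ, n < x → ((n / (a * p) : ℕ) : ℝ) ≤ (x : ℝ) / (a * p) := by
      intro n hn
      have e1 : ((n / (a * p) : ℕ) : ℝ) ≤ (n : ℝ) / ((a * p : ℕ) : ℝ) := Nat.cast_div_le
      rw [Nat.cast_mul] at e1
      refine e1.trans ?_
      rw [div_le_div_iff_of_pos_right hapr]
      exact_mod_cast hn.le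
    have hZ : (w1 : ℝ) * w2 ≤ (x : ℝ) / (a * p) := (hn0.2.2.2.1.trans_le (hle n0 hn0.1)).le
    have hinj : Set.InjOn (fun n => n / (a * p))
        ((Finset.range x).filter (QM2_E s w1 w2 a p) : Set ℕ) := by
      intro n hn n' hn' h
      rw [Finset.mem_coe, Finset.mem_filter] at hn hn'
      have e1 := Nat.mul_div_cancel' hn.2.2.1
      have e2 := Nat.mul_div_cancel' hn'.2.2.1
      have h' : n / (a * p) = n' / (a * p) := h
      rw [← e1, ← e2, h']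
    have hmain := cls_count w1 w2 s (a * p) h1 h2 hne hs hcop ((x : ℝ) / (a * p)) hZ
      (((Finset.range x).filter (QM2_E s w1 w2 a p)).image (fun n => n / (a * p))) (by
        intro b hb
        rw [Finset.mem_image] at hb
        obtain ⟨n, hn, rfl⟩ := hb
        rw [Finset.mem_filter, Finset.mem_range] at hn
        obtain ⟨hnx, -, hdvd, hlt, hd1, hd2, -⟩ := hn
        have e1 := Nat.mul_div_cancel' hdvd
        refine ⟨?_, hle n hnx, ?_, ?_⟩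
        · have h3 : (0 : ℝ) < ((n / (a * p) : ℕ) : ℝ) := lt_of_le_of_lt (by positivity) hlt
          exact_mod_cast h3
        · rw [e1]; exact hd1
        · rw [e1]; exact hd2)
    rw [Finset.card_image_of_injOn hinj] at hmain
    exact hmain

private theorem QM2_cop (n w1 w2 s : ℕ) (p1 : w1.Prime) (p2 : w2.Prime) (hs : 1 ≤ s)
    (h1 : w1 ∣ n ^ s + 1) (h2 : w2 ∣ ∑ i ∈ Finset.range s, n ^ i) :
    Nat.Coprime n (w1 * w2) := by
  refine Nat.Coprime.mul_right ?_ ?_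
  · refine ((Nat.Prime.coprime_iff_not_dvd p1).mpr ?_).symm
    intro h
    have h3 : w1 ∣ n ^ s := dvd_pow h (by omega)
    have h4 : w1 ∣ 1 := (Nat.dvd_add_right h3).mp h1
    exact p1.one_lt.ne' (Nat.dvd_one.mp h4)
  · refine ((Nat.Prime.coprime_iff_not_dvd p2).mpr ?_).symm
    intro h
    obtain ⟨k, rfl⟩ : ∃ k, s = k + 1 := ⟨s - 1, by omega⟩
    rw [Finset.sum_range_succ'] at h2
    have h3 : w2 ∣ ∑ i ∈ Finset.range k, n ^ (i + 1) :=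
      Finset.dvd_sum fun i _ => dvd_pow h (by omega)
    have h4 : w2 ∣ n ^ 0 := (Nat.dvd_add_right h3).mp h2
    rw [pow_zero] at h4
    exact p2.one_lt.ne' (Nat.dvd_one.mp h4)

private theorem QM2_harm (N : ℕ) : ∑ a ∈ Finset.Icc 1 N, (1 : ℝ) / a ≤ 1 + Real.log N := by
  have h := harmonic_le_one_add_log N
  rw [harmonic_eq_sum_Icc] at h
  push_cast at h
  simpa [one_div] using h


private theorem QM2_num (s : ℕ) (κ : ℝ) (hκ : 0 < κ) (K0 : ℝ) (hκ1 : κ ≤ 1) :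
    ∃ A0 : ℝ, ∀ A : ℝ, A0 ≤ A → 1 ≤ A ∧ 2 * A ^ (1 + κ) ≤ A ^ (1 + 7 * κ) ∧
      2 * (s : ℝ) ^ 2 * ((A ^ κ) ^ 2 * (1 + A ^ (1 + κ)) ^ 2) * (1 + A ^ K0) *
        Real.exp (-(A ^ (3 / 10 : ℝ))) ≤ Real.exp (-(A ^ (2 / 7 : ℝ))) := by
  obtain ⟨K, hK⟩ := exists_nat_ge K0
  have t1 : Filter.Tendsto (fun A : ℝ => A ^ (6 * κ)) Filter.atTop Filter.atTop :=
    tendsto_rpow_atTop (by positivity)
  have t2 : Filter.Tendsto (fun A : ℝ => A ^ (3 / 10 : ℝ)) Filter.atTop Filter.atTop :=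
    tendsto_rpow_atTop (by norm_num)
  have t3 : Filter.Tendsto (fun A : ℝ => A ^ (1 / 70 : ℝ)) Filter.atTop Filter.atTop :=
    tendsto_rpow_atTop (by norm_num)
  have e1 := t1.eventually_ge_atTop 2
  have e2 := t2.eventually_ge_atTop (3 * (16 * (s : ℝ) ^ 2))
  have e3 := t3.eventually_ge_atTop 3
  have e4 := (isLittleO_log_rpow_atTop (r := 3 / 10) (by norm_num)).bound
    (c := 1 / (3 * ((6 + K : ℕ) : ℝ))) (by positivity)
  obtain ⟨A0, hA0⟩ := Filter.eventually_atTop.mp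
    (e1.and (e2.and (e3.and (e4.and (Filter.eventually_ge_atTop (1 : ℝ))))))
  refine ⟨A0, fun A hA => ?_⟩
  obtain ⟨h1, h2, h3, h4, h5⟩ := hA0 A hA
  have hA0 : 0 < A := by linarith
  refine ⟨h5, ?_, ?_⟩
  · have : A ^ (1 + 7 * κ) = A ^ (6 * κ) * A ^ (1 + κ) := by
      rw [← Real.rpow_add hA0]
      congr 1
      ring
    rw [this]
    exact mul_le_mul_of_nonneg_right h1 (Real.rpow_nonneg hA0.le _)
  · have g1 : A ^ κ ≤ A := by
      calc A ^ κ ≤ A ^ (1 : ℝ) := Real.rpow_le_rpow_of_exponent_le h5 hκ1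
        _ = A := Real.rpow_one A
    have g2 : A ^ (1 + κ) ≤ A ^ 2 := by
      calc A ^ (1 + κ) ≤ A ^ (2 : ℝ) := Real.rpow_le_rpow_of_exponent_le h5 (by linarith)
        _ = A ^ 2 := Real.rpow_two A
    have g3 : A ^ K0 ≤ A ^ K := by
      calc A ^ K0 ≤ A ^ (K : ℝ) := Real.rpow_le_rpow_of_exponent_le h5 hK
        _ = A ^ K := Real.rpow_natCast A K
    have g4 : (1 : ℝ) ≤ A ^ 2 := one_le_pow₀ h5
    have g5 : (1 : ℝ) ≤ A ^ K := one_le_pow₀ h5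
    have n1 : 0 ≤ A ^ κ := Real.rpow_nonneg hA0.le _
    have n2 : 0 ≤ A ^ (1 + κ) := Real.rpow_nonneg hA0.le _
    have n3 : 0 ≤ A ^ K0 := Real.rpow_nonneg hA0.le _
    have k1 : (A ^ κ) ^ 2 ≤ A ^ 2 := pow_le_pow_left₀ n1 g1 2
    have k2 : (1 + A ^ (1 + κ)) ^ 2 ≤ (2 * A ^ 2) ^ 2 :=
      pow_le_pow_left₀ (by linarith) (by linarith) 2
    have k3 : 1 + A ^ K0 ≤ 2 * A ^ K := by linarith
    have k4 : 2 * (s : ℝ) ^ 2 * ((A ^ κ) ^ 2 * (1 + A ^ (1 + κ)) ^ 2) * (1 + A ^ K0) ≤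
        2 * (s : ℝ) ^ 2 * (A ^ 2 * (2 * A ^ 2) ^ 2) * (2 * A ^ K) := by
      have : (A ^ κ) ^ 2 * (1 + A ^ (1 + κ)) ^ 2 ≤ A ^ 2 * (2 * A ^ 2) ^ 2 :=
        mul_le_mul k1 k2 (by positivity) (by positivity)
      refine mul_le_mul ?_ k3 (by linarith) (by positivity)
      exact mul_le_mul_of_nonneg_left this (by positivity)
    have k5 : 2 * (s : ℝ) ^ 2 * (A ^ 2 * (2 * A ^ 2) ^ 2) * (2 * A ^ K) =
        16 * (s : ℝ) ^ 2 * A ^ (6 + K) := by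
      rw [pow_add]
      ring
    set T := A ^ (3 / 10 : ℝ) with hT
    have hT0 : 0 ≤ T := Real.rpow_nonneg hA0.le _
    have l1 : 16 * (s : ℝ) ^ 2 ≤ Real.exp (T / 3) := by
      have := Real.add_one_le_exp (T / 3)
      linarith
    have l2 : A ^ (6 + K) ≤ Real.exp (T / 3) := by
      have hlog : Real.log A ≤ 1 / (3 * ((6 + K : ℕ) : ℝ)) * T := by
        have := h4
        rw [Real.norm_of_nonneg (Real.log_nonneg h5), Real.norm_of_nonneg hT0] at this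
        exact this
      have hp : (0 : ℝ) < ((6 + K : ℕ) : ℝ) := by positivity
      have : A ^ (6 + K) = Real.exp (((6 + K : ℕ) : ℝ) * Real.log A) := by
        rw [mul_comm, ← Real.rpow_def_of_pos hA0, Real.rpow_natCast]
      rw [this]
      refine Real.exp_le_exp.mpr ?_
      calc ((6 + K : ℕ) : ℝ) * Real.log A ≤
            ((6 + K : ℕ) : ℝ) * (1 / (3 * ((6 + K : ℕ) : ℝ)) * T) :=
            mul_le_mul_of_nonneg_left hlog hp.le
        _ = T / 3 := by field_simp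
    have l3 : A ^ (2 / 7 : ℝ) ≤ T / 3 := by
      have : T = A ^ (1 / 70 : ℝ) * A ^ (2 / 7 : ℝ) := by
        rw [hT, ← Real.rpow_add hA0]
        norm_num
      rw [this]
      have n4 : 0 ≤ A ^ (2 / 7 : ℝ) := Real.rpow_nonneg hA0.le _
      nlinarith
    calc 2 * (s : ℝ) ^ 2 * ((A ^ κ) ^ 2 * (1 + A ^ (1 + κ)) ^ 2) * (1 + A ^ K0) *
          Real.exp (-T) ≤ (16 * (s : ℝ) ^ 2 * A ^ (6 + K)) * Real.exp (-T) := by
          rw [← k5]
          exact mul_le_mul_of_nonneg_right k4 (Real.exp_pos _).le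
      _ ≤ (Real.exp (T / 3) * Real.exp (T / 3)) * Real.exp (-T) := by
          refine mul_le_mul_of_nonneg_right ?_ (Real.exp_pos _).le
          exact mul_le_mul l1 l2 (by positivity) (Real.exp_pos _).le
      _ = Real.exp (-(T / 3)) := by
          rw [← Real.exp_add, ← Real.exp_add]
          congr 1
          ring
      _ ≤ Real.exp (-(A ^ (2 / 7 : ℝ))) := Real.exp_le_exp.mpr (by linarith)

theorem cnt_caseB (s : ℕ) (hs : 2 ≤ s) (κ : ℝ) (hκ : 0 < κ) (hκ1 : κ ≤ 1 / 100) (K0 : ℝ) :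
    ∃ A0 : ℝ, ∀ A : ℝ, A0 ≤ A → ∀ x : ℕ, 3 ≤ x → Real.log x ≤ A ^ K0 →
      cnt x (fun n => n ≠ 0 ∧ (n.primeFactorsList.length : ℝ) ≤ A ^ κ ∧
        ∃ c1 c2 w1 w2 r1 r2 a p b : ℕ, CPair A κ c1 c2 w1 w2 r1 r2 ∧ ¬ ExcP A κ w1 w2 ∧
          w1 ∣ n ^ s + 1 ∧ w2 ∣ ∑ i ∈ range s, n ^ i ∧ n = a * p * b ∧ p.Prime ∧ ZA A < p ∧
          ¬ p ∣ a ∧ BadP (KF (FW w1 w2) (r1 * r2)) (s - 1) a p ∧
          Real.exp (A ^ (1 + 7 * κ)) < b) ≤ x * Real.exp (-(A ^ (2 / 7 : ℝ))) := by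
  classical
  obtain ⟨A1, hA1⟩ := rareA_sum (s - 1) (by omega) κ hκ hκ1 K0
  obtain ⟨A2, hA2⟩ := QM2_num s κ hκ K0 (by linarith)
  refine ⟨max A1 A2, ?_⟩
  intro A hA x hx3 hxL
  obtain ⟨hA1', hA2'⟩ := max_le_iff.mp hA
  have hD := hA1 A hA1' x hx3 hxL
  obtain ⟨hAone, hpair, hfin⟩ := hA2 A hA2'
  set L := Real.log x with hL
  have hL0 : 0 ≤ L := Real.log_natCast_nonneg x
  -- the index sets
  set C : Finset ℕ := Finset.Icc 1 ⌊A ^ κ⌋₊ with hC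
  set V : Finset ℕ := Finset.Icc 1 ⌊Real.exp (A ^ (1 + κ))⌋₊ with hV
  set I : Finset ((ℕ × ℕ) × (ℕ × ℕ)) := ((C ×ˢ C) ×ˢ (V ×ˢ V)).filter (fun u =>
    (∃ r1 r2, CPair A κ u.1.1 u.1.2 u.2.1 u.2.2 r1 r2) ∧ ¬ ExcP A κ u.2.1 u.2.2) with hI
  set B : Finset ℕ := (Finset.Icc 1 x).filter
    (fun a => (a.primeFactorsList.length : ℝ) ≤ A ^ κ) with hB
  set R : (ℕ × ℕ) × (ℕ × ℕ) → ℕ → Finset ℕ := fun u a => (Finset.range (x + 1)).filter (fun p =>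
    p.Prime ∧ ZA A < p ∧ p ≤ x ∧ ¬ p ∣ a ∧ ¬ p ∣ u.2.1 * u.2.2 ∧
        BadP (KF (FW u.2.1 u.2.2) (((u.2.1 - 1) / u.1.1) * ((u.2.2 - 1) / u.1.2)))
          (s - 1) a p) with hR
  have hrid : ∀ c1 c2 w1 w2 r1 r2, CPair A κ c1 c2 w1 w2 r1 r2 → (1 ≤ c1 ∧ 1 ≤ c2) ∧
      (w1 - 1) / c1 = r1 ∧ (w2 - 1) / c2 = r2 := by
    intro c1 c2 w1 w2 r1 r2 hG
    have e1 := hG.eq1
    have e2 := hG.eq2
    have p1 := hG.cell1.1.one_lt
    have p2 := hG.cell2.1.one_lt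
    have hc1 : 1 ≤ c1 := by
      rcases Nat.eq_zero_or_pos c1 with h | h
      · rw [h, zero_mul, zero_add] at e1
        omega
      · exact h
    have hc2 : 1 ≤ c2 := by
      rcases Nat.eq_zero_or_pos c2 with h | h
      · rw [h, zero_mul, zero_add] at e2
        omega
      · exact h
    refine ⟨⟨hc1, hc2⟩, ?_, ?_⟩
    · rw [e1, Nat.add_sub_cancel, Nat.mul_div_cancel_left _ (by omega)]
    · rw [e2, Nat.add_sub_cancel, Nat.mul_div_cancel_left _ (by omega)]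
  have hcover : cnt x (fun n => n ≠ 0 ∧ (n.primeFactorsList.length : ℝ) ≤ A ^ κ ∧
        ∃ c1 c2 w1 w2 r1 r2 a p b : ℕ, CPair A κ c1 c2 w1 w2 r1 r2 ∧ ¬ ExcP A κ w1 w2 ∧
          w1 ∣ n ^ s + 1 ∧ w2 ∣ ∑ i ∈ Finset.range s, n ^ i ∧ n = a * p * b ∧ p.Prime ∧ ZA A < p ∧
          ¬ p ∣ a ∧ BadP (KF (FW w1 w2) (r1 * r2)) (s - 1) a p ∧
          Real.exp (A ^ (1 + 7 * κ)) < b) ≤
      cnt x (fun n => ∃ u ∈ I, ∃ a ∈ B, ∃ p ∈ R u a, QM2_E s u.2.1 u.2.2 a p n) := by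
    refine cnt_mono fun n hnx hn => ?_
    obtain ⟨hn0, h1, c1, c2, w1, w2, r1, r2, a, p, b, hG, hexc, hd1, hd2, hnab, hp, hZp, hpa,
      hbad, hb⟩ := hn
    obtain ⟨⟨hc1, hc2⟩, hrr1, hrr2⟩ := hrid _ _ _ _ _ _ hG
    have p1 := hG.cell1.1
    have p2 := hG.cell2.1
    have hcop := QM2_cop n w1 w2 s p1 p2 (by omega) hd1 hd2
    have hab0 : a * p ≠ 0 := by
      intro h
      rw [hnab, h, zero_mul] at hn0
      exact hn0 rfl
    have ha0 : a ≠ 0 := left_ne_zero_of_mul hab0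
    have hapn : a * p ∣ n := ⟨b, hnab⟩
    have han : a ∣ n := (dvd_mul_right a p).trans hapn
    have hpn : p ∣ n := (dvd_mul_left p a).trans hapn
    have han' : a ≤ n := Nat.le_of_dvd (Nat.pos_of_ne_zero hn0) han
    have hpn' : p ≤ n := Nat.le_of_dvd (Nat.pos_of_ne_zero hn0) hpn
    have hpw : ¬ p ∣ w1 * w2 := by
      intro h
      have h2 := Nat.Coprime.coprime_dvd_left hpn hcop
      have h3 : p ∣ Nat.gcd p (w1 * w2) := Nat.dvd_gcd dvd_rfl h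
      rw [Nat.Coprime] at h2
      rw [h2] at h3
      exact hp.one_lt.ne' (Nat.dvd_one.mp h3)
    have hdivb : n / (a * p) = b := by
      rw [hnab]
      exact Nat.mul_div_cancel_left b (Nat.pos_of_ne_zero hab0)
    have hcc : ((c1 : ℝ) * c2) ≤ A ^ κ := by
      have := hG.small
      push_cast at this
      exact this
    have hc1r : (1 : ℝ) ≤ c1 := by exact_mod_cast hc1
    have hc2r : (1 : ℝ) ≤ c2 := by exact_mod_cast hc2
    refine ⟨((c1, c2), (w1, w2)), ?_, a, ?_, p, ?_, ?_⟩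
    · rw [hI, Finset.mem_filter, Finset.mem_product, Finset.mem_product, Finset.mem_product]
      refine ⟨⟨⟨?_, ?_⟩, ⟨?_, ?_⟩⟩, ⟨r1, r2, hG⟩, hexc⟩
      · rw [hC, Finset.mem_Icc]
        exact ⟨hc1, Nat.le_floor (by nlinarith)⟩
      · rw [hC, Finset.mem_Icc]
        exact ⟨hc2, Nat.le_floor (by nlinarith)⟩
      · rw [hV, Finset.mem_Icc]
        exact ⟨p1.one_lt.le, Nat.le_floor hG.cell1.2.2⟩
      · rw [hV, Finset.mem_Icc]
        exact ⟨p2.one_lt.le, Nat.le_floor hG.cell2.2.2⟩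
    · rw [hB, Finset.mem_filter, Finset.mem_Icc]
      refine ⟨⟨Nat.pos_of_ne_zero ha0, by omega⟩, ?_⟩
      refine le_trans ?_ h1
      exact_mod_cast QM2_len a n hn0 han
    · rw [hR, Finset.mem_filter, Finset.mem_range]
      refine ⟨by omega, hp, hZp, by omega, hpa, hpw, ?_⟩
      show BadP (KF (FW w1 w2) (((w1 - 1) / c1) * ((w2 - 1) / c2))) (s - 1) a p
      rw [hrr1, hrr2]
      exact hbad
    · refine ⟨Nat.pos_of_ne_zero hab0, hapn, ?_, hd1, hd2, Nat.Coprime.coprime_dvd_left hapn hcop⟩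
      show (w1 : ℝ) * w2 < ((n / (a * p) : ℕ) : ℝ)
      rw [hdivb]
      refine lt_of_le_of_lt ?_ hb
      have hw12 : (w1 : ℝ) * w2 ≤ Real.exp (A ^ (1 + κ)) * Real.exp (A ^ (1 + κ)) :=
        mul_le_mul hG.cell1.2.2 hG.cell2.2.2 (Nat.cast_nonneg _) (Real.exp_pos _).le
      refine hw12.trans ?_
      rw [← Real.exp_add]
      exact Real.exp_le_exp.mpr (by linarith)
  refine hcover.trans ?_
  set δ := Real.exp (-(A ^ (3 / 10 : ℝ))) with hδ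
  have hδ0 : 0 ≤ δ := (Real.exp_pos _).le
  have hx0 : (0 : ℝ) ≤ (x : ℝ) := Nat.cast_nonneg _
  have step1 : ∀ u ∈ I, ∀ a ∈ B, cnt x (fun n => ∃ p ∈ R u a, QM2_E s u.2.1 u.2.2 a p n) ≤
      2 * (s : ℝ) ^ 2 * x * δ * ((1 : ℝ) / a) * ((1 : ℝ) / ((u.2.1 : ℝ) * u.2.2)) := by
    intro u hu a ha
    rw [hI, Finset.mem_filter] at hu
    rw [hB, Finset.mem_filter, Finset.mem_Icc] at ha
    obtain ⟨-, ⟨r1, r2, hG⟩, hexc⟩ := hu
    obtain ⟨-, hrr1, hrr2⟩ := hrid _ _ _ _ _ _ hG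
    have hsum := hD u.1.1 u.1.2 u.2.1 u.2.2 r1 r2 hG hexc a (by omega) ha.2 (R u a) (by
      intro p hp
      rw [hR, Finset.mem_filter] at hp
      obtain ⟨-, h1, h2, h3, h4, h5, h6⟩ := hp
      rw [hrr1, hrr2] at h6
      exact ⟨h1, h2, h3, h4, h5, h6⟩)
    refine (cnt_exists x (R u a) (fun p n => QM2_E s u.2.1 u.2.2 a p n)).trans ?_
    have h1 : ∀ p ∈ R u a, cnt x (QM2_E s u.2.1 u.2.2 a p) ≤
        2 * (s : ℝ) ^ 2 * x * ((1 : ℝ) / a) * ((1 : ℝ) / ((u.2.1 : ℝ) * u.2.2)) *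
          (1 / (p : ℝ)) := by
      intro p _
      refine (QM2_cnt s u.2.1 u.2.2 a p x hG.cell1.1 hG.cell2.1 hG.ne (by omega)).trans
        (le_of_eq ?_)
      simp only [div_eq_mul_inv, mul_inv, one_mul]
      ring
    refine (Finset.sum_le_sum h1).trans ?_
    rw [← Finset.mul_sum]
    have h2 : 0 ≤ 2 * (s : ℝ) ^ 2 * x * ((1 : ℝ) / a) * ((1 : ℝ) / ((u.2.1 : ℝ) * u.2.2)) := by
      positivity
    refine (mul_le_mul_of_nonneg_left hsum h2).trans (le_of_eq ?_)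
    rw [hδ]
    ring
  have step2 : ∀ u ∈ I, cnt x (fun n => ∃ a ∈ B, ∃ p ∈ R u a, QM2_E s u.2.1 u.2.2 a p n) ≤
      2 * (s : ℝ) ^ 2 * x * δ * (1 + L) * ((1 : ℝ) / ((u.2.1 : ℝ) * u.2.2)) := by
    intro u hu
    refine (cnt_exists x B (fun a n => ∃ p ∈ R u a, QM2_E s u.2.1 u.2.2 a p n)).trans ?_
    refine (Finset.sum_le_sum (step1 u hu)).trans ?_
    have h3 : ∑ a ∈ B, (1 : ℝ) / a ≤ 1 + L := by
      refine le_trans ?_ (QM2_harm x)
      refine Finset.sum_le_sum_of_subset_of_nonneg (Finset.filter_subset _ _) ?_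
      intro a _ _
      positivity
    have h4 : ∑ a ∈ B, 2 * (s : ℝ) ^ 2 * x * δ * ((1 : ℝ) / a) *
          ((1 : ℝ) / ((u.2.1 : ℝ) * u.2.2)) =
        2 * (s : ℝ) ^ 2 * x * δ * (∑ a ∈ B, (1 : ℝ) / a) *
          ((1 : ℝ) / ((u.2.1 : ℝ) * u.2.2)) := by
      rw [Finset.mul_sum, Finset.sum_mul]
    rw [h4]
    refine mul_le_mul_of_nonneg_right ?_ (by positivity)
    exact mul_le_mul_of_nonneg_left h3 (by positivity)
  refine (cnt_exists x I (fun u n => ∃ a ∈ B, ∃ p ∈ R u a, QM2_E s u.2.1 u.2.2 a p n)).trans ?_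
  refine (Finset.sum_le_sum step2).trans ?_
  have hAκ0 : 0 ≤ A ^ (1 + κ) := Real.rpow_nonneg (by linarith) _
  have h5 : ∑ w ∈ V, (1 : ℝ) / w ≤ 1 + A ^ (1 + κ) := by
    refine (QM2_harm _).trans ?_
    have h7 : Real.log (⌊Real.exp (A ^ (1 + κ))⌋₊ : ℝ) ≤ Real.log (Real.exp (A ^ (1 + κ))) := by
      refine Real.log_le_log ?_ (Nat.floor_le (Real.exp_pos _).le)
      have : 1 ≤ ⌊Real.exp (A ^ (1 + κ))⌋₊ := Nat.le_floor (by simpa using Real.one_le_exp hAκ0)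
      exact_mod_cast this
    rw [Real.log_exp] at h7
    linarith
  have hAk0 : 0 ≤ A ^ κ := Real.rpow_nonneg (by linarith) _
  have hCcard : (C.card : ℝ) ≤ A ^ κ := by
    rw [hC, Nat.card_Icc, Nat.add_sub_cancel]
    exact Nat.floor_le hAk0
  have h9 : ∑ u ∈ I, (1 : ℝ) / ((u.2.1 : ℝ) * u.2.2) ≤ (A ^ κ) ^ 2 * (1 + A ^ (1 + κ)) ^ 2 := by
    have h10 : ∑ u ∈ I, (1 : ℝ) / ((u.2.1 : ℝ) * u.2.2) ≤
        ∑ u ∈ (C ×ˢ C) ×ˢ (V ×ˢ V), (1 : ℝ) / ((u.2.1 : ℝ) * u.2.2) := by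
      refine Finset.sum_le_sum_of_subset_of_nonneg (Finset.filter_subset _ _) ?_
      intro a _ _
      positivity
    refine h10.trans ?_
    have h11 : ∑ u ∈ (C ×ˢ C) ×ˢ (V ×ˢ V), (1 : ℝ) / ((u.2.1 : ℝ) * u.2.2) =
        ((C.card : ℝ) * C.card) * ((∑ w ∈ V, (1 : ℝ) / w) * (∑ w ∈ V, (1 : ℝ) / w)) := by
      rw [Finset.sum_product]
      simp only
      rw [Finset.sum_const, Finset.card_product, nsmul_eq_mul, Nat.cast_mul]
      congr 1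
      rw [Finset.sum_mul_sum, Finset.sum_product]
      refine Finset.sum_congr rfl fun a _ => Finset.sum_congr rfl fun b _ => ?_
      rw [one_div, one_div, one_div, mul_inv]
    have h12 : 0 ≤ ∑ w ∈ V, (1 : ℝ) / w := Finset.sum_nonneg fun a _ => by positivity
    rw [h11, pow_two, pow_two]
    refine mul_le_mul ?_ ?_ (mul_nonneg h12 h12) (mul_nonneg hAk0 hAk0)
    · exact mul_le_mul hCcard hCcard (Nat.cast_nonneg _) hAk0
    · exact mul_le_mul h5 h5 h12 (by linarith)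
  rw [← Finset.mul_sum]
  refine (mul_le_mul_of_nonneg_left h9 (by positivity)).trans ?_
  have h13 : 2 * (s : ℝ) ^ 2 * x * δ * (1 + L) * ((A ^ κ) ^ 2 * (1 + A ^ (1 + κ)) ^ 2) ≤
      x * (2 * (s : ℝ) ^ 2 * ((A ^ κ) ^ 2 * (1 + A ^ (1 + κ)) ^ 2) * (1 + A ^ K0) * δ) := by
    have h14 : 0 ≤ 2 * (s : ℝ) ^ 2 * x * δ * ((A ^ κ) ^ 2 * (1 + A ^ (1 + κ)) ^ 2) := by positivity
    have h15 := mul_le_mul_of_nonneg_left (add_le_add_right hxL 1) h14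
    nlinarith [h15]
  exact h13.trans (mul_le_mul_of_nonneg_left hfin hx0)

end Pool.Agent.Lib.MP_79499b_co.QZ
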