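import Pool.Agent.Lib.MP_79499b_co.DZ.LC
import Pool.Agent.Lib.MP_79499b_co.QZ.QC7

/-!
# QM3: the integers with a very large bad prime

`cnt_caseP`: large `A`, `log x ≤ A^K0`: the number of `n < x` for which there are a pair (`CPair`, not exceptional) with
`w1 ∣ n^s + 1`, `w2 ∣ ∑ n^i` and `n = a p b`, `Ω(n) ≤ A^κ`, `p > exp(A^(1+7κ))` prime, `p ∤ a`, `p` bad for `a`, is at most
`x exp(-A^(2/7))`.

Proof. `n` is coprime to `w1 w2`, `Ω(a) ≤ A^κ`. Fix the pair (with `c1, c2`), `a ≥ 1`, `b ≥ 1`; let `R` be the set of the `p` in question,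
`p < X := x/(a b)` (real); if `R` is not empty then `X > exp(A^(1+7κ))`. `Y := ⌈X/2⌉`, so `p ≤ 2Y`, `Y ≤ X`, and
`Y ≥ exp(A^(1+7κ))/2 ≥ exp(A^(1+6κ))` for large `A`. `n = a p b` has `n^(2s) ≡ 1` modulo `w1` and `w2`, so `n` lies in at most
`(2s)^2` classes modulo `w1 w2` (`card_root2`), and as `a b` is a unit modulo `w1 w2`, so does `p`. By `rareA_cls` each class
contains at most `(Y/(w1 w2)) exp(-A^(1/3))` elements of `R`. So `|R| ≤ 4 s^2 x/(a b w1 w2) exp(-A^(1/3))`. Sum over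
`a, b ≤ x`: `(1 + A^K0)^2`; over the pairs: `(1 + A^(1+κ))^2`; over `c1, c2 ≤ A^κ`: `A^(2κ)`. Total `≤ x exp(-A^(2/7))` for large `A`.
-/

set_option autoImplicit false

open NumberField

namespace Pool.Agent.Lib.MP_79499b_co.QZ

open Finset DZ

private theorem QM3_len (a n : ℕ) (hn : n ≠ 0) (h : a ∣ n) :
    a.primeFactorsList.length ≤ n.primeFactorsList.length := by
  obtain ⟨b, rfl⟩ := h
  have ha : a ≠ 0 := left_ne_zero_of_mul hn
  have hb : b ≠ 0 := right_ne_zero_of_mul hn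
  rw [(Nat.perm_primeFactorsList_mul ha hb).length_eq, List.length_append]
  omega

private theorem QM3_cop (n w1 w2 s : ℕ) (p1 : w1.Prime) (p2 : w2.Prime) (hs : 1 ≤ s)
    (h1 : w1 ∣ n ^ s + 1) (h2 : w2 ∣ ∑ i ∈ Finset.range s, n ^ i) :
    Nat.Coprime n (w1 * w2) := by
  refine Nat.Coprime.mul_right ?_ ?_
  · refine ((Nat.Prime.coprime_iff_not_dvd p1).mpr ?_).symm
    intro h
    have h3 : w1 ∣ n ^ s := dvd_pow h (by omega)
    have h4 : w1 ∣ 1 := (Nat.dvd_add_right h3).mp h1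
    exact p1.one_lt.ne' (Nat.dvd_one.mp h4)
  · refine ((Nat.Prime.coprime_iff_not_dvd p2).mpr ?_).symm
    intro h
    obtain ⟨k, rfl⟩ : ∃ k, s = k + 1 := ⟨s - 1, by omega⟩
    rw [Finset.sum_range_succ'] at h2
    have h3 : w2 ∣ ∑ i ∈ Finset.range k, n ^ (i + 1) :=
      Finset.dvd_sum fun i _ => dvd_pow h (by omega)
    have h4 : w2 ∣ n ^ 0 := (Nat.dvd_add_right h3).mp h2
    rw [pow_zero] at h4
    exact p2.one_lt.ne' (Nat.dvd_one.mp h4)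

private theorem QM3_harm (N : ℕ) : ∑ a ∈ Finset.Icc 1 N, (1 : ℝ) / a ≤ 1 + Real.log N := by
  have h := harmonic_le_one_add_log N
  rw [harmonic_eq_sum_Icc] at h
  push_cast at h
  simpa [one_div] using h

private theorem QM3_num1 (κ : ℝ) (hκ : 0 < κ) : ∃ A0 : ℝ, ∀ A : ℝ, A0 ≤ A →
    1 ≤ A ∧ 2 * Real.exp (A ^ (1 + 6 * κ)) ≤ Real.exp (A ^ (1 + 7 * κ)) := by
  refine ⟨max 1 (2 ^ (1 / κ) : ℝ), fun A hA => ?_⟩
  have h1 : 1 ≤ A := (le_max_left _ _).trans hA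
  have h2 : (2 : ℝ) ^ (1 / κ) ≤ A := (le_max_right _ _).trans hA
  refine ⟨h1, ?_⟩
  have h3 : 2 ≤ A ^ κ := by
    have := Real.rpow_le_rpow (by positivity) h2 hκ.le
    rwa [← Real.rpow_mul (by norm_num), one_div, inv_mul_cancel₀ hκ.ne', Real.rpow_one] at this
  have h4 : A ^ (1 + 7 * κ) = A ^ (1 + 6 * κ) * A ^ κ := by
    rw [← Real.rpow_add (by linarith)]
    congr 1
    ring
  have h5 : 1 ≤ A ^ (1 + 6 * κ) := Real.one_le_rpow h1 (by positivity)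
  have h6 : (2 : ℝ) ≤ Real.exp 1 := by
    have := Real.add_one_le_exp (1 : ℝ)
    linarith
  calc 2 * Real.exp (A ^ (1 + 6 * κ)) ≤ Real.exp 1 * Real.exp (A ^ (1 + 6 * κ)) :=
        mul_le_mul_of_nonneg_right h6 (Real.exp_pos _).le
    _ = Real.exp (1 + A ^ (1 + 6 * κ)) := (Real.exp_add _ _).symm
    _ ≤ Real.exp (A ^ (1 + 7 * κ)) := by
        refine Real.exp_le_exp.mpr ?_
        rw [h4]
        nlinarith

private theorem QM3_num2 (C K : ℝ) (hC : 0 ≤ C) : ∃ A0 : ℝ, ∀ A : ℝ, A0 ≤ A →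
    C * A ^ K * Real.exp (-(A ^ (1 / 3 : ℝ))) ≤ Real.exp (-(A ^ (2 / 7 : ℝ))) := by
  have h0 := (isLittleO_rpow_exp_pos_mul_atTop (7 * K) (b := 1) one_pos).def
    (c := 1 / (C + 1)) (by positivity)
  have h1 := (tendsto_rpow_atTop (y := (1 / 7 : ℝ)) (by norm_num)).eventually h0
  have h2 := h1.and (Filter.eventually_ge_atTop ((2 : ℝ) ^ (21 : ℕ)))
  obtain ⟨A0, hA0⟩ := Filter.eventually_atTop.mp h2
  refine ⟨A0, fun A hA => ?_⟩
  obtain ⟨h3, h4⟩ := hA0 A hA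
  have hpos : 0 < A := lt_of_lt_of_le (by positivity) h4
  have hone : 1 ≤ A := le_trans (by norm_num) h4
  rw [Real.norm_of_nonneg (by positivity), Real.norm_of_nonneg (Real.exp_pos _).le, one_mul,
    ← Real.rpow_mul hpos.le] at h3
  have e1 : (1 / 7 : ℝ) * (7 * K) = K := by ring
  rw [e1] at h3
  have h5 : C * A ^ K ≤ Real.exp (A ^ (1 / 7 : ℝ)) := by
    calc C * A ^ K ≤ C * (1 / (C + 1) * Real.exp (A ^ (1 / 7 : ℝ))) :=
          mul_le_mul_of_nonneg_left h3 hC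
      _ = (C / (C + 1)) * Real.exp (A ^ (1 / 7 : ℝ)) := by ring
      _ ≤ 1 * Real.exp (A ^ (1 / 7 : ℝ)) := by
          refine mul_le_mul_of_nonneg_right ?_ (Real.exp_pos _).le
          rw [div_le_one (by positivity)]
          linarith
      _ = _ := one_mul _
  have h6 : (2 : ℝ) ≤ A ^ (1 / 21 : ℝ) := by
    have := Real.rpow_le_rpow (by positivity) h4 (show (0 : ℝ) ≤ 1 / 21 by norm_num)
    rw [← Real.rpow_natCast, ← Real.rpow_mul (by norm_num)] at this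
    norm_num at this ⊢
    exact this
  have h7 : A ^ (1 / 3 : ℝ) = A ^ (2 / 7 : ℝ) * A ^ (1 / 21 : ℝ) := by
    rw [← Real.rpow_add hpos]
    norm_num
  have h8 : A ^ (1 / 7 : ℝ) ≤ A ^ (2 / 7 : ℝ) :=
    Real.rpow_le_rpow_of_exponent_le hone (by norm_num)
  have h9 : 0 ≤ A ^ (2 / 7 : ℝ) := by positivity
  calc C * A ^ K * Real.exp (-(A ^ (1 / 3 : ℝ)))
      ≤ Real.exp (A ^ (1 / 7 : ℝ)) * Real.exp (-(A ^ (1 / 3 : ℝ))) :=
        mul_le_mul_of_nonneg_right h5 (Real.exp_pos _).le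
    _ = Real.exp (A ^ (1 / 7 : ℝ) + -(A ^ (1 / 3 : ℝ))) := (Real.exp_add _ _).symm
    _ ≤ Real.exp (-(A ^ (2 / 7 : ℝ))) := by
        refine Real.exp_le_exp.mpr ?_
        rw [h7]
        nlinarith

/-- the event for a fixed pair and fixed `a`, `b` -/
private def QM3_E (s : ℕ) (A κ : ℝ) (c1 c2 w1 w2 r1 r2 a b n : ℕ) : Prop :=
  n ≠ 0 ∧ (n.primeFactorsList.length : ℝ) ≤ A ^ κ ∧ CPair A κ c1 c2 w1 w2 r1 r2 ∧
    ¬ ExcP A κ w1 w2 ∧ w1 ∣ n ^ s + 1 ∧ w2 ∣ ∑ i ∈ range s, n ^ i ∧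
    ∃ p : ℕ, n = a * p * b ∧ p.Prime ∧ Real.exp (A ^ (1 + 7 * κ)) < p ∧ ¬ p ∣ a ∧
      BadP (KF (FW w1 w2) (r1 * r2)) (s - 1) a p

open scoped Classical in
private theorem QM3_one (s : ℕ) (hs : 2 ≤ s) (κ : ℝ) (hκ : 0 < κ) (hκ1 : κ ≤ 1 / 100) :
    ∃ A0 : ℝ, ∀ A : ℝ, A0 ≤ A → ∀ c1 c2 w1 w2 r1 r2 a b x : ℕ, 1 ≤ a → 1 ≤ b →
      cnt x (QM3_E s A κ c1 c2 w1 w2 r1 r2 a b) ≤
        4 * (s : ℝ) ^ 2 * ((x : ℝ) / (a * b) / (w1 * w2) * Real.exp (-(A ^ (1 / 3 : ℝ)))) := by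
  obtain ⟨A1, hA1⟩ := rareA_cls (s - 1) (by omega) κ hκ hκ1
  obtain ⟨A2, hA2⟩ := QM3_num1 κ hκ
  refine ⟨max A1 A2, ?_⟩
  intro A hA c1 c2 w1 w2 r1 r2 a b x ha hb
  have hAA := hA1 A ((le_max_left _ _).trans hA)
  obtain ⟨hA1', hexp⟩ := hA2 A ((le_max_right _ _).trans hA)
  have har : (0 : ℝ) < a := by exact_mod_cast ha
  have hbr : (0 : ℝ) < b := by exact_mod_cast hb
  have hab : 0 < a * b := Nat.mul_pos ha hb
  set S := (range x).filter (QM3_E s A κ c1 c2 w1 w2 r1 r2 a b) with hS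
  have hcnt : cnt x (QM3_E s A κ c1 c2 w1 w2 r1 r2 a b) = (S.card : ℝ) := rfl
  rw [hcnt]
  rcases S.eq_empty_or_nonempty with h0 | ⟨n0, hn0⟩
  · rw [h0, card_empty, Nat.cast_zero]
    positivity
  have hdat : ∀ n ∈ S, n < x ∧ n ≠ 0 ∧ (n.primeFactorsList.length : ℝ) ≤ A ^ κ ∧
      w1 ∣ n ^ s + 1 ∧ w2 ∣ ∑ i ∈ range s, n ^ i ∧ n = a * b * (n / (a * b)) ∧
      (n / (a * b)).Prime ∧ Real.exp (A ^ (1 + 7 * κ)) < ((n / (a * b) : ℕ) : ℝ) ∧
      ¬ (n / (a * b)) ∣ a ∧ BadP (KF (FW w1 w2) (r1 * r2)) (s - 1) a (n / (a * b)) := by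
    intro n hn
    rw [hS, mem_filter, mem_range] at hn
    obtain ⟨hx, hn1, hn2, -, -, hn5, hn6, p, hp, hp1, hp2, hp3, hp4⟩ := hn
    have hdiv : n / (a * b) = p := by
      rw [hp, show a * p * b = a * b * p by ring]
      exact Nat.mul_div_cancel_left p hab
    rw [hdiv]
    exact ⟨hx, hn1, hn2, hn5, hn6, by rw [hp]; ring, hp1, hp2, hp3, hp4⟩
  have hC : CPair A κ c1 c2 w1 w2 r1 r2 := by
    rw [hS, mem_filter] at hn0
    exact hn0.2.2.2.1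
  have hE : ¬ ExcP A κ w1 w2 := by
    rw [hS, mem_filter] at hn0
    exact hn0.2.2.2.2.1
  have hw1 := hC.cell1.1
  have hw2 := hC.cell2.1
  have hne := hC.ne
  have hw1r : (0 : ℝ) < w1 := by exact_mod_cast hw1.pos
  have hw2r : (0 : ℝ) < w2 := by exact_mod_cast hw2.pos
  set X : ℝ := (x : ℝ) / (a * b) with hX
  have hle : ∀ n ∈ S, ((n / (a * b) : ℕ) : ℝ) ≤ X := by
    intro n hn
    have e1 : ((n / (a * b) : ℕ) : ℝ) ≤ (n : ℝ) / ((a * b : ℕ) : ℝ) := Nat.cast_div_le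
    rw [Nat.cast_mul] at e1
    refine e1.trans ?_
    rw [hX, div_le_div_iff_of_pos_right (by positivity)]
    exact_mod_cast (hdat n hn).1.le
  have hXbig : Real.exp (A ^ (1 + 7 * κ)) < X :=
    (hdat n0 hn0).2.2.2.2.2.2.2.1.trans_le (hle n0 hn0)
  have hone : 1 ≤ Real.exp (A ^ (1 + 6 * κ)) :=
    Real.one_le_exp (by positivity)
  set Y : ℕ := ⌈X / 2⌉₊ with hY
  have hY1 : X / 2 ≤ (Y : ℝ) := Nat.le_ceil _
  have hY2 : (Y : ℝ) ≤ X := by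
    have := Nat.ceil_lt_add_one (show 0 ≤ X / 2 by positivity)
    rw [← hY] at this
    linarith
  have hY3 : Real.exp (A ^ (1 + 6 * κ)) ≤ (Y : ℝ) := by linarith
  have hcopn : ∀ n ∈ S, Nat.Coprime n (w1 * w2) := fun n hn =>
    QM3_cop n w1 w2 s hw1 hw2 (by omega) (hdat n hn).2.2.2.1 (hdat n hn).2.2.2.2.1
  have hcopab : Nat.Coprime (w1 * w2) (a * b) := by
    refine (Nat.Coprime.coprime_dvd_left ?_ (hcopn n0 hn0)).symm
    exact ⟨_, (hdat n0 hn0).2.2.2.2.2.1⟩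
  set T := (range (w1 * w2)).filter
    (fun n : ℕ => (n : ZMod w1) ^ (2 * s) = 1 ∧ (n : ZMod w2) ^ (2 * s) = 1) with hT
  have hTc : (T.card : ℝ) ≤ 4 * (s : ℝ) ^ 2 := by
    have := card_root2 (m := 2 * s) (by omega) hw1 hw2 hne
    have h2 : (T.card : ℝ) ≤ (((2 * s) ^ 2 : ℕ) : ℝ) := Nat.cast_le.mpr this
    refine h2.trans (le_of_eq ?_)
    push_cast
    ring
  have hmaps : ∀ n ∈ S, n % (w1 * w2) ∈ T := by
    intro n hn
    rw [hT, mem_filter, mem_range]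
    refine ⟨Nat.mod_lt _ (Nat.mul_pos hw1.pos hw2.pos), ?_, ?_⟩
    · rw [natCast_mod_pow w1 (2 * s) n (w1 * w2) (dvd_mul_right _ _)]
      have h1 := (ZMod.natCast_eq_zero_iff (n ^ s + 1) w1).mpr (hdat n hn).2.2.2.1
      push_cast at h1
      rw [mul_comm, pow_mul, eq_neg_of_add_eq_zero_left h1]
      ring
    · rw [natCast_mod_pow w2 (2 * s) n (w1 * w2) (dvd_mul_left _ _)]
      have h1 := (ZMod.natCast_eq_zero_iff (∑ i ∈ range s, n ^ i) w2).mpr (hdat n hn).2.2.2.2.1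
      push_cast at h1
      have h2 := geom_sum_mul (n : ZMod w2) s
      rw [h1, zero_mul] at h2
      have h3 : (n : ZMod w2) ^ s = 1 := sub_eq_zero.mp h2.symm
      rw [mul_comm, pow_mul, h3, one_pow]
  have hfib : ∀ ρ ∈ T, ((S.filter (fun n => n % (w1 * w2) = ρ)).card : ℝ) ≤
      X / (w1 * w2) * Real.exp (-(A ^ (1 / 3 : ℝ))) := by
    intro ρ _
    rcases (S.filter (fun n => n % (w1 * w2) = ρ)).eq_empty_or_nonempty with h0 | ⟨m0, hm0⟩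
    · rw [h0, card_empty, Nat.cast_zero]
      positivity
    rw [mem_filter] at hm0
    have hinj : Set.InjOn (fun n => n / (a * b))
        ((S.filter (fun n => n % (w1 * w2) = ρ) : Finset ℕ) : Set ℕ) := by
      intro n hn n' hn' h
      rw [mem_coe, mem_filter] at hn hn'
      have e1 := (hdat n hn.1).2.2.2.2.2.1
      have e2 := (hdat n' hn'.1).2.2.2.2.2.1
      have h' : n / (a * b) = n' / (a * b) := h
      rw [e1, e2, h']
    have hm0' := (hdat m0 hm0.1).2.2.2.2.2.1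
    have hmain := hAA c1 c2 w1 w2 r1 r2 hC hE a (by omega) (by
        have h1 : a ∣ n0 := (dvd_mul_right a b).trans ⟨_, (hdat n0 hn0).2.2.2.2.2.1⟩
        have h2 := QM3_len a n0 (hdat n0 hn0).2.1 h1
        have h3 : (a.primeFactorsList.length : ℝ) ≤ (n0.primeFactorsList.length : ℝ) := by
          exact_mod_cast h2
        exact h3.trans (hdat n0 hn0).2.2.1) Y hY3 (m0 / (a * b))
      ((S.filter (fun n => n % (w1 * w2) = ρ)).image (fun n => n / (a * b))) (by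
        intro p hp
        rw [mem_image] at hp
        obtain ⟨n, hn, rfl⟩ := hp
        rw [mem_filter] at hn
        obtain ⟨hx, hn1, hn2, hn3, hn4, hn5, hn6, hn7, hn8, hn9⟩ := hdat n hn.1
        refine ⟨hn6, ?_, ?_, hn8, ?_, hn9⟩
        · have h1 : ((n / (a * b) : ℕ) : ℝ) ≤ ((2 * Y : ℕ) : ℝ) := by
            push_cast
            have := hle n hn.1
            push_cast at this
            linarith
          exact_mod_cast h1
        · have h1 : n ≡ m0 [MOD w1 * w2] := hn.2.trans hm0.2.symm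
          rw [hn5, hm0'] at h1
          exact Nat.ModEq.cancel_left_of_coprime hcopab h1
        · intro h
          have h1 : Nat.Coprime (n / (a * b)) (w1 * w2) :=
            Nat.Coprime.coprime_dvd_left ⟨_, (by rw [mul_comm]; exact hn5)⟩ (hcopn n hn.1)
          exact hn6.one_lt.ne' (Nat.eq_one_of_dvd_coprimes h1 dvd_rfl h))
    rw [card_image_of_injOn hinj] at hmain
    refine hmain.trans ?_
    refine mul_le_mul_of_nonneg_right ?_ (Real.exp_pos _).le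
    rw [div_le_div_iff_of_pos_right (by positivity)]
    exact hY2
  have hsum : S.card = ∑ ρ ∈ T, (S.filter (fun n => n % (w1 * w2) = ρ)).card :=
    card_eq_sum_card_fiberwise (fun n hn => hmaps n hn)
  rw [hsum, Nat.cast_sum]
  refine (sum_le_sum hfib).trans ?_
  rw [sum_const, nsmul_eq_mul]
  exact mul_le_mul_of_nonneg_right hTc (by positivity)

theorem cnt_caseP (s : ℕ) (hs : 2 ≤ s) (κ : ℝ) (hκ : 0 < κ) (hκ1 : κ ≤ 1 / 100) (K0 : ℝ) :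
    ∃ A0 : ℝ, ∀ A : ℝ, A0 ≤ A → ∀ x : ℕ, 3 ≤ x → Real.log x ≤ A ^ K0 →
      cnt x (fun n => n ≠ 0 ∧ (n.primeFactorsList.length : ℝ) ≤ A ^ κ ∧
        ∃ c1 c2 w1 w2 r1 r2 a p b : ℕ, CPair A κ c1 c2 w1 w2 r1 r2 ∧ ¬ ExcP A κ w1 w2 ∧
          w1 ∣ n ^ s + 1 ∧ w2 ∣ ∑ i ∈ range s, n ^ i ∧ n = a * p * b ∧ p.Prime ∧
          Real.exp (A ^ (1 + 7 * κ)) < p ∧ ¬ p ∣ a ∧
          BadP (KF (FW w1 w2) (r1 * r2)) (s - 1) a p) ≤ x * Real.exp (-(A ^ (2 / 7 : ℝ))) := by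
  classical
  obtain ⟨A1, hA1⟩ := QM3_one s hs κ hκ hκ1
  obtain ⟨A2, hA2⟩ := QM3_num2 (64 * (s : ℝ) ^ 2) (6 + 2 * max K0 1) (by positivity)
  refine ⟨max 1 (max A1 A2), ?_⟩
  intro A hA x hx hlog
  simp only [max_le_iff] at hA
  obtain ⟨hone, hAa, hAb⟩ := hA
  have hone' := hA1 A hAa
  have hnum := hA2 A hAb
  have hpos : 0 < A := by linarith
  set M := ⌊A ^ κ⌋₊ with hM
  set N := ⌊Real.exp (A ^ (1 + κ))⌋₊ with hN
  set e := Real.exp (-(A ^ (1 / 3 : ℝ))) with he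
  have he0 : 0 < e := Real.exp_pos _
  -- the cover
  have hcover : cnt x (fun n => n ≠ 0 ∧ (n.primeFactorsList.length : ℝ) ≤ A ^ κ ∧
        ∃ c1 c2 w1 w2 r1 r2 a p b : ℕ, CPair A κ c1 c2 w1 w2 r1 r2 ∧ ¬ ExcP A κ w1 w2 ∧
          w1 ∣ n ^ s + 1 ∧ w2 ∣ ∑ i ∈ range s, n ^ i ∧ n = a * p * b ∧ p.Prime ∧
          Real.exp (A ^ (1 + 7 * κ)) < p ∧ ¬ p ∣ a ∧
          BadP (KF (FW w1 w2) (r1 * r2)) (s - 1) a p) ≤
      cnt x (fun n => ∃ c ∈ Icc 1 M ×ˢ Icc 1 M, ∃ w ∈ Icc 1 N ×ˢ Icc 1 N,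
        ∃ a ∈ Icc 1 x ×ˢ Icc 1 x, QM3_E s A κ c.1 c.2 w.1 w.2 ((w.1 - 1) / c.1)
          ((w.2 - 1) / c.2) a.1 a.2 n) := by
    refine cnt_mono fun n hnx hn => ?_
    obtain ⟨hn0, hn1, c1, c2, w1, w2, r1, r2, a, p, b, hC, hE, hd1, hd2, hnap, hp, hpA, hpa, hbad⟩ :=
      hn
    have hc1 : 1 ≤ c1 := by
      rcases Nat.eq_zero_or_pos c1 with h | h
      · exfalso
        have := hC.eq1
        rw [h, zero_mul] at this
        exact hC.cell1.1.one_lt.ne' this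
      · exact h
    have hc2 : 1 ≤ c2 := by
      rcases Nat.eq_zero_or_pos c2 with h | h
      · exfalso
        have := hC.eq2
        rw [h, zero_mul] at this
        exact hC.cell2.1.one_lt.ne' this
      · exact h
    have hcM : c1 * c2 ≤ M := Nat.le_floor hC.small
    have hc1M : c1 ≤ M := (Nat.le_mul_of_pos_right c1 hc2).trans hcM
    have hc2M : c2 ≤ M := (Nat.le_mul_of_pos_left c2 hc1).trans hcM
    have e1 : (w1 - 1) / c1 = r1 := by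
      rw [hC.eq1, Nat.add_sub_cancel, Nat.mul_div_cancel_left _ hc1]
    have e2 : (w2 - 1) / c2 = r2 := by
      rw [hC.eq2, Nat.add_sub_cancel, Nat.mul_div_cancel_left _ hc2]
    have hapb : a * p * b ≠ 0 := by rw [← hnap]; exact hn0
    have ha0 : a ≠ 0 := left_ne_zero_of_mul (left_ne_zero_of_mul hapb)
    have hb0 : b ≠ 0 := right_ne_zero_of_mul hapb
    have han : a ∣ n := ⟨p * b, by rw [hnap]; ring⟩
    have hbn : b ∣ n := ⟨a * p, by rw [hnap]; ring⟩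
    have han' := Nat.le_of_dvd (Nat.pos_of_ne_zero hn0) han
    have hbn' := Nat.le_of_dvd (Nat.pos_of_ne_zero hn0) hbn
    refine ⟨(c1, c2), ?_, (w1, w2), ?_, (a, b), ?_, ?_⟩
    · rw [mem_product, mem_Icc, mem_Icc]
      exact ⟨⟨hc1, hc1M⟩, ⟨hc2, hc2M⟩⟩
    · rw [mem_product, mem_Icc, mem_Icc]
      exact ⟨⟨hC.cell1.1.one_lt.le, Nat.le_floor hC.cell1.2.2⟩,
        ⟨hC.cell2.1.one_lt.le, Nat.le_floor hC.cell2.2.2⟩⟩
    · rw [mem_product, mem_Icc, mem_Icc]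
      exact ⟨⟨Nat.pos_of_ne_zero ha0, by omega⟩, ⟨Nat.pos_of_ne_zero hb0, by omega⟩⟩
    · show QM3_E s A κ c1 c2 w1 w2 ((w1 - 1) / c1) ((w2 - 1) / c2) a b n
      rw [e1, e2]
      exact ⟨hn0, hn1, hC, hE, hd1, hd2, p, hnap, hp, hpA, hpa, hbad⟩
  refine hcover.trans ?_
  -- sums
  have hsq : ∀ K : ℕ, ∑ q ∈ Icc 1 K ×ˢ Icc 1 K, (1 : ℝ) / ((q.1 : ℝ) * q.2) ≤
      (1 + Real.log K) ^ 2 := by
    intro K
    have h11 : ∑ q ∈ Icc 1 K ×ˢ Icc 1 K, (1 : ℝ) / ((q.1 : ℝ) * q.2) =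
        (∑ q ∈ Icc 1 K, (1 : ℝ) / q) * (∑ q ∈ Icc 1 K, (1 : ℝ) / q) := by
      rw [Finset.sum_mul_sum, Finset.sum_product]
      refine Finset.sum_congr rfl fun a _ => Finset.sum_congr rfl fun b _ => ?_
      rw [one_div, one_div, one_div, mul_inv]
    have h12 : 0 ≤ ∑ q ∈ Icc 1 K, (1 : ℝ) / q := Finset.sum_nonneg fun a _ => by positivity
    rw [h11, pow_two]
    have h13 := QM3_harm K
    exact mul_le_mul h13 h13 h12 (by linarith)
  have step1 : ∀ c ∈ Icc 1 M ×ˢ Icc 1 M, ∀ w ∈ Icc 1 N ×ˢ Icc 1 N,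
      cnt x (fun n => ∃ a ∈ Icc 1 x ×ˢ Icc 1 x, QM3_E s A κ c.1 c.2 w.1 w.2 ((w.1 - 1) / c.1)
          ((w.2 - 1) / c.2) a.1 a.2 n) ≤
        4 * (s : ℝ) ^ 2 * x * e * (1 + Real.log x) ^ 2 * (1 / ((w.1 : ℝ) * w.2)) := by
    intro c _ w _
    refine (cnt_exists x (Icc 1 x ×ˢ Icc 1 x) (fun a n => QM3_E s A κ c.1 c.2 w.1 w.2
      ((w.1 - 1) / c.1) ((w.2 - 1) / c.2) a.1 a.2 n)).trans ?_
    have h1 : ∀ a ∈ Icc 1 x ×ˢ Icc 1 x, cnt x (fun n => QM3_E s A κ c.1 c.2 w.1 w.2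
      ((w.1 - 1) / c.1) ((w.2 - 1) / c.2) a.1 a.2 n) ≤
        (4 * (s : ℝ) ^ 2 * x * e * (1 / ((w.1 : ℝ) * w.2))) * (1 / ((a.1 : ℝ) * a.2)) := by
      intro a ha
      rw [mem_product, mem_Icc, mem_Icc] at ha
      refine (hone' c.1 c.2 w.1 w.2 ((w.1 - 1) / c.1) ((w.2 - 1) / c.2) a.1 a.2 x ha.1.1
        ha.2.1).trans (le_of_eq ?_)
      simp only [div_eq_mul_inv, one_mul, he]
      ring
    refine (sum_le_sum h1).trans ?_
    rw [← mul_sum]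
    refine (mul_le_mul_of_nonneg_left (hsq x) (by positivity)).trans (le_of_eq ?_)
    ring
  have step2 : ∀ c ∈ Icc 1 M ×ˢ Icc 1 M,
      cnt x (fun n => ∃ w ∈ Icc 1 N ×ˢ Icc 1 N, ∃ a ∈ Icc 1 x ×ˢ Icc 1 x,
        QM3_E s A κ c.1 c.2 w.1 w.2 ((w.1 - 1) / c.1) ((w.2 - 1) / c.2) a.1 a.2 n) ≤
        4 * (s : ℝ) ^ 2 * x * e * (1 + Real.log x) ^ 2 * (1 + Real.log N) ^ 2 := by
    intro c hc
    refine (cnt_exists x (Icc 1 N ×ˢ Icc 1 N) (fun w n => ∃ a ∈ Icc 1 x ×ˢ Icc 1 x,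
        QM3_E s A κ c.1 c.2 w.1 w.2 ((w.1 - 1) / c.1) ((w.2 - 1) / c.2) a.1 a.2 n)).trans ?_
    refine (sum_le_sum (step1 c hc)).trans ?_
    rw [← mul_sum]
    exact mul_le_mul_of_nonneg_left (hsq N) (by positivity)
  have step3 : cnt x (fun n => ∃ c ∈ Icc 1 M ×ˢ Icc 1 M, ∃ w ∈ Icc 1 N ×ˢ Icc 1 N,
        ∃ a ∈ Icc 1 x ×ˢ Icc 1 x, QM3_E s A κ c.1 c.2 w.1 w.2 ((w.1 - 1) / c.1)
          ((w.2 - 1) / c.2) a.1 a.2 n) ≤
      (M : ℝ) ^ 2 * (4 * (s : ℝ) ^ 2 * x * e * (1 + Real.log x) ^ 2 * (1 + Real.log N) ^ 2) := by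
    refine (cnt_exists x (Icc 1 M ×ˢ Icc 1 M) (fun c n => ∃ w ∈ Icc 1 N ×ˢ Icc 1 N,
        ∃ a ∈ Icc 1 x ×ˢ Icc 1 x, QM3_E s A κ c.1 c.2 w.1 w.2 ((w.1 - 1) / c.1)
          ((w.2 - 1) / c.2) a.1 a.2 n)).trans ?_
    refine (sum_le_sum step2).trans ?_
    rw [sum_const, nsmul_eq_mul, card_product, Nat.card_Icc, Nat.add_sub_cancel, Nat.cast_mul]
    exact le_of_eq (by ring)
  refine step3.trans ?_
  have hMA : (M : ℝ) ≤ A := by
    refine (Nat.floor_le (by positivity)).trans ?_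
    calc A ^ κ ≤ A ^ (1 : ℝ) := Real.rpow_le_rpow_of_exponent_le hone (by linarith)
      _ = A := Real.rpow_one A
  have hNA : 1 + Real.log N ≤ 2 * A ^ (2 : ℝ) := by
    have hNpos : 1 ≤ N := Nat.le_floor (by
      have : 1 ≤ Real.exp (A ^ (1 + κ)) := Real.one_le_exp (by positivity)
      simpa using this)
    have h1 : Real.log N ≤ A ^ (1 + κ) := by
      rw [Real.log_le_iff_le_exp (by exact_mod_cast hNpos)]
      exact Nat.floor_le (Real.exp_pos _).le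
    have h2 : A ^ (1 + κ) ≤ A ^ (2 : ℝ) :=
      Real.rpow_le_rpow_of_exponent_le hone (by linarith)
    have h3 : 1 ≤ A ^ (2 : ℝ) := Real.one_le_rpow hone (by norm_num)
    linarith
  have hxA : 1 + Real.log x ≤ 2 * A ^ (max K0 1) := by
    have h2 : A ^ K0 ≤ A ^ (max K0 1) :=
      Real.rpow_le_rpow_of_exponent_le hone (le_max_left _ _)
    have h3 : 1 ≤ A ^ (max K0 1) :=
      Real.one_le_rpow hone (le_trans zero_le_one (le_max_right _ _))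
    linarith
  have hlogN : 0 ≤ 1 + Real.log N := by
    have := Real.log_natCast_nonneg N
    linarith
  have hlogx : 0 ≤ 1 + Real.log x := by
    have := Real.log_natCast_nonneg x
    linarith
  have hM0 : (0 : ℝ) ≤ M := Nat.cast_nonneg _
  have hpow : 64 * (s : ℝ) ^ 2 * A ^ (6 + 2 * max K0 1) =
      4 * (s : ℝ) ^ 2 * (A ^ 2 * (2 * A ^ (max K0 1)) ^ 2 * (2 * A ^ (2 : ℝ)) ^ 2) := by
    have h1 : A ^ (6 + 2 * max K0 1) = A ^ 2 * (A ^ (max K0 1)) ^ 2 * (A ^ (2 : ℝ)) ^ 2 := by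
      rw [← Real.rpow_natCast (A ^ (max K0 1)) 2, ← Real.rpow_natCast (A ^ (2 : ℝ)) 2,
        ← Real.rpow_mul hpos.le, ← Real.rpow_mul hpos.le, ← Real.rpow_natCast A 2,
        ← Real.rpow_add hpos, ← Real.rpow_add hpos]
      congr 1
      push_cast
      ring
    rw [h1]
    ring
  calc (M : ℝ) ^ 2 * (4 * (s : ℝ) ^ 2 * x * e * (1 + Real.log x) ^ 2 * (1 + Real.log N) ^ 2)
      = 4 * (s : ℝ) ^ 2 * ((M : ℝ) ^ 2 * (1 + Real.log x) ^ 2 * (1 + Real.log N) ^ 2) * e * x := by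
        ring
    _ ≤ 4 * (s : ℝ) ^ 2 * (A ^ 2 * (2 * A ^ (max K0 1)) ^ 2 * (2 * A ^ (2 : ℝ)) ^ 2) * e * x := by
        have h1 : (M : ℝ) ^ 2 ≤ A ^ 2 := pow_le_pow_left₀ hM0 hMA 2
        have h2 : (1 + Real.log x) ^ 2 ≤ (2 * A ^ (max K0 1)) ^ 2 := pow_le_pow_left₀ hlogx hxA 2
        have h3 : (1 + Real.log N) ^ 2 ≤ (2 * A ^ (2 : ℝ)) ^ 2 := pow_le_pow_left₀ hlogN hNA 2
        refine mul_le_mul_of_nonneg_right (mul_le_mul_of_nonneg_right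
          (mul_le_mul_of_nonneg_left ?_ (by positivity)) he0.le) (Nat.cast_nonneg _)
        exact mul_le_mul (mul_le_mul h1 h2 (by positivity) (by positivity)) h3 (by positivity)
          (by positivity)
    _ = (64 * (s : ℝ) ^ 2 * A ^ (6 + 2 * max K0 1) * e) * x := by rw [hpow]
    _ ≤ Real.exp (-(A ^ (2 / 7 : ℝ))) * x :=
        mul_le_mul_of_nonneg_right hnum (Nat.cast_nonneg _)
    _ = x * Real.exp (-(A ^ (2 / 7 : ℝ))) := mul_comm _ _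

end Pool.Agent.Lib.MP_79499b_co.QZ
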