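import Pool.Agent.Lib.MP_79499b_co.QZ.QM1
import Pool.Agent.Lib.MP_79499b_co.QZ.QM2
import Pool.Agent.Lib.MP_79499b_co.QZ.QM3
import Pool.Agent.Lib.MP_79499b_co.QZ.QC8

/-!
# QM4: part N, the final statement for one cell

`BadN s κ A n`: `n ≠ 0`, `Ω(n) ≤ A^κ`, no square of a prime `> ZA A` divides `n`, some prime `P > exp(A^(1+7κ))` divides `n`, and some
pair `CPair` with `w1 ∣ n^s + 1`, `w2 ∣ ∑ n^i` violates `ND`. `nd_cell`: for large `A`, `log x ≤ A^K0`, `A^(1+7κ) ≤ log x`, at most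
`x exp(-A^(1/4))` integers `n < x` have this property.

Proof. Let `n` be such a number and the pair as in `BadN`. If the pair is exceptional, `n` is counted in `exc_count`
(`2 A^(1+κ) ≤ A^(1+7κ) ≤ log x` for large `A`). Otherwise `reduceA` with `e0 = s - 1`, `i = c1 c2` (`1 ≤ i ≤ A^κ`; `c_i ≥ 1` since
`w_i > 1`), `g = exp(A/i)/2`: `(2g)^i = exp A < w_k` (`gap_KF`), `Z = ZA A ≥ 1`, `Z^(e0 Ω(n)) ≤ g`, `g ≥ 1` (`numA_q`), `n` coprime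
to `w1 w2`. It gives `n = a p b`, `p > ZA A`, and `P ∣ b` or `P ≤ p`. In the first case `b ≥ P > exp(A^(1+7κ))` (`b ≠ 0`):
`cnt_caseB`; in the second `p ≥ P > exp(A^(1+7κ))`: `cnt_caseP`. Total
`≤ x (exp(-A/3) + 2 exp(-A^(2/7))) ≤ x exp(-A^(1/4))`.
-/

set_option autoImplicit false

namespace Pool.Agent.Lib.MP_79499b_co.QZ

open Finset DZ

/-- the integers for which part N fails in the cell -/
def BadN (s : ℕ) (κ A : ℝ) (n : ℕ) : Prop :=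
  n ≠ 0 ∧ (n.primeFactorsList.length : ℝ) ≤ A ^ κ ∧
  (∀ p : ℕ, p.Prime → ZA A < p → ¬ p ^ 2 ∣ n) ∧
  (∃ P : ℕ, P.Prime ∧ P ∣ n ∧ Real.exp (A ^ (1 + 7 * κ)) < P) ∧
  ∃ c1 c2 w1 w2 r1 r2 : ℕ, CPair A κ c1 c2 w1 w2 r1 r2 ∧ w1 ∣ n ^ s + 1 ∧
    w2 ∣ ∑ i ∈ range s, n ^ i ∧ ¬ ND (FW w1 w2) (s - 1) (r1 * r2) n

private def QM4_E (s : ℕ) (κ A : ℝ) (n : ℕ) : Prop :=
  ∃ w1 w2 : ℕ, Cell A κ w1 ∧ Cell A κ w2 ∧ w1 ≠ w2 ∧ ExcP A κ w1 w2 ∧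
        w1 ∣ n ^ s + 1 ∧ w2 ∣ ∑ i ∈ range s, n ^ i

private def QM4_B (s : ℕ) (κ A : ℝ) (n : ℕ) : Prop :=
  n ≠ 0 ∧ (n.primeFactorsList.length : ℝ) ≤ A ^ κ ∧
        ∃ c1 c2 w1 w2 r1 r2 a p b : ℕ, CPair A κ c1 c2 w1 w2 r1 r2 ∧ ¬ ExcP A κ w1 w2 ∧
          w1 ∣ n ^ s + 1 ∧ w2 ∣ ∑ i ∈ range s, n ^ i ∧ n = a * p * b ∧ p.Prime ∧ ZA A < p ∧
          ¬ p ∣ a ∧ BadP (KF (FW w1 w2) (r1 * r2)) (s - 1) a p ∧
          Real.exp (A ^ (1 + 7 * κ)) < b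

private def QM4_P (s : ℕ) (κ A : ℝ) (n : ℕ) : Prop :=
  n ≠ 0 ∧ (n.primeFactorsList.length : ℝ) ≤ A ^ κ ∧
        ∃ c1 c2 w1 w2 r1 r2 a p b : ℕ, CPair A κ c1 c2 w1 w2 r1 r2 ∧ ¬ ExcP A κ w1 w2 ∧
          w1 ∣ n ^ s + 1 ∧ w2 ∣ ∑ i ∈ range s, n ^ i ∧ n = a * p * b ∧ p.Prime ∧
          Real.exp (A ^ (1 + 7 * κ)) < p ∧ ¬ p ∣ a ∧
          BadP (KF (FW w1 w2) (r1 * r2)) (s - 1) a p

private theorem QM4_cop (n w1 w2 s : ℕ) (p1 : w1.Prime) (p2 : w2.Prime) (hs : 1 ≤ s)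
    (h1 : w1 ∣ n ^ s + 1) (h2 : w2 ∣ ∑ i ∈ Finset.range s, n ^ i) :
    Nat.Coprime n (w1 * w2) := by
  refine Nat.Coprime.mul_right ?_ ?_
  · refine ((Nat.Prime.coprime_iff_not_dvd p1).mpr ?_).symm
    intro h
    have h3 : w1 ∣ n ^ s := dvd_pow h (by omega)
    have h4 : w1 ∣ 1 := (Nat.dvd_add_right h3).mp h1
    exact p1.one_lt.ne' (Nat.dvd_one.mp h4)
  · refine ((Nat.Prime.coprime_iff_not_dvd p2).mpr ?_).symm
    intro h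
    obtain ⟨k, rfl⟩ : ∃ k, s = k + 1 := ⟨s - 1, by omega⟩
    rw [Finset.sum_range_succ'] at h2
    have h3 : w2 ∣ ∑ i ∈ Finset.range k, n ^ (i + 1) :=
      Finset.dvd_sum fun i _ => dvd_pow h (by omega)
    have h4 : w2 ∣ n ^ 0 := (Nat.dvd_add_right h3).mp h2
    rw [pow_zero] at h4
    exact p2.one_lt.ne' (Nat.dvd_one.mp h4)

private theorem QM4_c1 {c r w : ℕ} (hw : w.Prime) (h : w = c * r + 1) : 1 ≤ c := by
  rcases Nat.eq_zero_or_pos c with h1 | h1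
  · rw [h1, zero_mul, zero_add] at h
    exact absurd h hw.ne_one
  · exact h1

private theorem QM4_num (A : ℝ) (h1 : (3 : ℝ) ^ 28 ≤ A) :
    Real.exp (-(A / 3)) ≤ Real.exp (-(A ^ (1 / 4 : ℝ))) / 3 ∧
    Real.exp (-(A ^ (2 / 7 : ℝ))) ≤ Real.exp (-(A ^ (1 / 4 : ℝ))) / 3 := by
  have hA1 : 1 ≤ A := le_trans (by norm_num) h1
  have hA0 : 0 < A := by linarith
  set B := A ^ (1 / 4 : ℝ) with hB
  have hB1 : 1 ≤ B := Real.one_le_rpow hA1 (by norm_num)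
  have hl3 : Real.log 3 ≤ 2 := by
    have := Real.log_le_sub_one_of_pos (show (0 : ℝ) < 3 by norm_num)
    linarith
  have h2 : A ^ (2 / 7 : ℝ) = B * A ^ (1 / 28 : ℝ) := by
    rw [hB, ← Real.rpow_add hA0]
    norm_num
  have h3 : 3 ≤ A ^ (1 / 28 : ℝ) := by
    calc (3 : ℝ) = ((3 : ℝ) ^ 28) ^ (1 / 28 : ℝ) := by
          rw [← Real.rpow_natCast, ← Real.rpow_mul (by norm_num)]
          norm_num
      _ ≤ A ^ (1 / 28 : ℝ) := Real.rpow_le_rpow (by positivity) h1 (by norm_num)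
  have h4 : 3 * B ≤ A ^ (2 / 7 : ℝ) := by
    rw [h2]
    nlinarith
  have h5 : A = B * A ^ (3 / 4 : ℝ) := by
    rw [hB, ← Real.rpow_add hA0]
    norm_num
  have h6 : 9 ≤ A ^ (3 / 4 : ℝ) := by
    have h7 : ((3 : ℝ) ^ 28) ^ (3 / 4 : ℝ) = (3 : ℝ) ^ 21 := by
      rw [← Real.rpow_natCast, ← Real.rpow_mul (by norm_num), ← Real.rpow_natCast]
      norm_num
    have h8 : ((3 : ℝ) ^ 28) ^ (3 / 4 : ℝ) ≤ A ^ (3 / 4 : ℝ) :=
      Real.rpow_le_rpow (by positivity) h1 (by norm_num)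
    rw [h7] at h8
    refine le_trans (by norm_num) h8
  have h7 : 3 * B ≤ A / 3 := by
    have : 9 * B ≤ A := by
      calc 9 * B = B * 9 := by ring
        _ ≤ B * A ^ (3 / 4 : ℝ) := mul_le_mul_of_nonneg_left h6 (by linarith)
        _ = A := h5.symm
    linarith
  have h8 : Real.exp (-B) / 3 = Real.exp (-B - Real.log 3) := by
    rw [Real.exp_sub, Real.exp_log (by norm_num)]
  rw [h8]
  constructor
  · exact Real.exp_le_exp.2 (by linarith)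
  · exact Real.exp_le_exp.2 (by linarith)

theorem nd_cell (s : ℕ) (hs : 2 ≤ s) (κ : ℝ) (hκ : 0 < κ) (hκ1 : κ ≤ 1 / 100) (K0 : ℝ) :
    ∃ A0 : ℝ, ∀ A : ℝ, A0 ≤ A → ∀ x : ℕ, 3 ≤ x → Real.log x ≤ A ^ K0 →
      A ^ (1 + 7 * κ) ≤ Real.log x →
      cnt x (BadN s κ A) ≤ x * Real.exp (-(A ^ (1 / 4 : ℝ))) := by
  obtain ⟨A1, hA1⟩ := exc_count s hs κ hκ hκ1
  obtain ⟨A2, hA2⟩ := cnt_caseB s hs κ hκ hκ1 K0
  obtain ⟨A3, hA3⟩ := cnt_caseP s hs κ hκ hκ1 K0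
  obtain ⟨A4, hA4⟩ := numA_q (s - 1) (by omega) κ hκ hκ1
  refine ⟨max A1 (max A2 (max A3 (max A4 (max ((3 : ℝ) ^ 28) ((2 : ℝ) ^ (1 / (6 * κ))))))), ?_⟩
  intro A hA x hx3 hxK hxA
  simp only [max_le_iff] at hA
  obtain ⟨hAa, hAb, hAc, hAd, hAe, hAf⟩ := hA
  have hAone : 1 ≤ A := le_trans (by norm_num) hAe
  have hApos : 0 < A := by linarith
  have hx2 : 2 * A ^ (1 + κ) ≤ Real.log x := by
    refine le_trans ?_ hxA
    have h1 : A ^ (1 + 7 * κ) = A ^ (6 * κ) * A ^ (1 + κ) := by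
      rw [← Real.rpow_add hApos]; ring_nf
    rw [h1]
    refine mul_le_mul_of_nonneg_right ?_ (Real.rpow_nonneg hApos.le _)
    calc (2 : ℝ) = ((2 : ℝ) ^ (1 / (6 * κ))) ^ (6 * κ) := by
          rw [← Real.rpow_mul (by norm_num), one_div_mul_cancel (by positivity), Real.rpow_one]
      _ ≤ A ^ (6 * κ) := Real.rpow_le_rpow (by positivity) hAf (by positivity)
  have hE : cnt x (QM4_E s κ A) ≤ _ := hA1 A hAa x hx2
  have hB : cnt x (QM4_B s κ A) ≤ _ := hA2 A hAb x hx3 hxK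
  have hP : cnt x (QM4_P s κ A) ≤ _ := hA3 A hAc x hx3 hxK
  have hnum := hA4 A hAd
  obtain ⟨hn1, hn2⟩ := QM4_num A hAe
  have hcover : cnt x (BadN s κ A) ≤ cnt x (QM4_E s κ A) + (cnt x (QM4_B s κ A) +
      cnt x (QM4_P s κ A)) := by
    refine le_trans (cnt_mono (P' := fun n => QM4_E s κ A n ∨ (QM4_B s κ A n ∨ QM4_P s κ A n)) ?_)
      ((cnt_or x _ _).trans (add_le_add_right (cnt_or x _ _) _))
    intro n _ hn
    obtain ⟨hn0, hΩ, hsq, ⟨P, hPp, hPn, hPA⟩, c1, c2, w1, w2, r1, r2, hC, hd1, hd2, hnd⟩ := hn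
    by_cases hex : ExcP A κ w1 w2
    · exact Or.inl ⟨w1, w2, hC.cell1, hC.cell2, hC.ne, hex, hd1, hd2⟩
    refine Or.inr ?_
    have p1 := hC.cell1.1
    have p2 := hC.cell2.1
    have hc1 : 1 ≤ c1 := QM4_c1 p1 hC.eq1
    have hc2 : 1 ≤ c2 := QM4_c1 p2 hC.eq2
    have hi1 : 1 ≤ c1 * c2 := Nat.mul_pos hc1 hc2
    obtain ⟨-, -, -, hq4, hq5⟩ := hnum (c1 * c2) hi1 hC.small
    set g : ℝ := Real.exp (A / ((c1 * c2 : ℕ) : ℝ)) / 2 with hg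
    have hg0 : 0 ≤ g := by positivity
    have hicast : (0 : ℝ) < ((c1 * c2 : ℕ) : ℝ) := by exact_mod_cast hi1
    have h2g : (2 * g) ^ (c1 * c2) = Real.exp A := by
      have h1 : 2 * g = Real.exp (A / ((c1 * c2 : ℕ) : ℝ)) := by rw [hg]; ring
      rw [h1, ← Real.exp_nat_mul, mul_div_cancel₀ _ hicast.ne']
    have hgap := gap_KF w1 w2 c1 c2 r1 r2 p1 p2 hC.ne hC.eq1 hC.eq2 hC.cop1 hC.cop2 hC.cop g hg0
      (by rw [h2g]; exact hC.cell1.2.1) (by rw [h2g]; exact hC.cell2.2.1)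
    have hcop := QM4_cop n w1 w2 s p1 p2 (by omega) hd1 hd2
    have hZ1 : 1 ≤ ZA A := by
      unfold ZA
      refine Real.one_le_exp ?_
      positivity
    obtain ⟨a, p, b, hnab, hp, hZp, hpa, -, hbad, hall⟩ := reduceA w1 w2 r1 r2 (s - 1) n p1 p2
      hC.ne g hq5 hgap hn0 hcop (ZA A) hZ1 (hq4 _ hΩ) hsq hnd
    have hb0 : b ≠ 0 := by
      rintro rfl
      rw [mul_zero] at hnab
      exact hn0 hnab
    rcases hall P hPp hPn with h | h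
    · refine Or.inl ⟨hn0, hΩ, c1, c2, w1, w2, r1, r2, a, p, b, hC, hex, hd1, hd2, hnab, hp, hZp,
        hpa, hbad, hPA.trans_le ?_⟩
      exact_mod_cast Nat.le_of_dvd (Nat.pos_of_ne_zero hb0) h
    · refine Or.inr ⟨hn0, hΩ, c1, c2, w1, w2, r1, r2, a, p, b, hC, hex, hd1, hd2, hnab, hp,
        hPA.trans_le ?_, hpa, hbad⟩
      exact_mod_cast h
  refine hcover.trans ((add_le_add hE (add_le_add hB hP)).trans ?_)
  have hx0 : (0 : ℝ) ≤ x := Nat.cast_nonneg x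
  nlinarith [mul_le_mul_of_nonneg_left hn1 hx0, mul_le_mul_of_nonneg_left hn2 hx0]

end Pool.Agent.Lib.MP_79499b_co.QZ
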