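import Pool.Agent.Lib.MP_79499b_co.QZ.QX3

/-!
# QX4: few integers have an exceptional prime

`few_exc`: `8 (B + 12) ≤ D`, `x` large: at most `x/L^B` integers `0 < n < x` are of the form `n = k a q`, `q > zD D x` prime,
`Hs (a q) > LL^(-2)`.

Proof. For fixed `k, a ≥ 1` count the primes `q`, `zD < q < x/(k a)`, with `Hs (a q) > LL^(-2)`: `q ∈ Bl (2^i)` for `i = log2 (q-1)`
(`mem_block` in DZ/LT.lean), `zD < q ≤ 2 · 2^i`, `2^i < q < x/(ka)`; by `exc_prime` (with `B + 4`; `8 ((B+4) + 8) ≤ D`) at most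
`∑_{i : 2^i < x/(ka)} 2^i/L^(B+4) ≤ 2 x/(k a L^(B+4))`. Sum over `k, a < x`: `≤ 2 x (1 + L)^2/L^(B+4) ≤ x/L^B`.
-/

set_option autoImplicit false

namespace Pool.Agent.Lib.MP_79499b_co.QZ

open Finset DZ
open scoped Classical

private theorem x4_geom (I : Finset ℕ) (y : ℝ) (hy : 0 ≤ y) (hI : ∀ i ∈ I, (2 : ℝ) ^ i ≤ y) :
    ∑ i ∈ I, (2 : ℝ) ^ i ≤ 2 * y := by
  rcases I.eq_empty_or_nonempty with rfl | hne
  · rw [sum_empty]; linarith
  · obtain ⟨m, hm, hmax⟩ := I.exists_max_image (fun i => i) hne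
    have h1 : I ⊆ range (m + 1) := fun i hi => mem_range.2 (Nat.lt_succ_of_le (hmax i hi))
    have h2 : ∑ i ∈ I, (2 : ℝ) ^ i ≤ ∑ i ∈ range (m + 1), (2 : ℝ) ^ i :=
      sum_le_sum_of_subset_of_nonneg h1 (fun i _ _ => by positivity)
    have h3 : ∑ i ∈ range (m + 1), (2 : ℝ) ^ i = 2 ^ (m + 1) - 1 := by
      rw [geom_sum_eq (by norm_num)]
      norm_num
    have h4 := hI m hm
    rw [h3, pow_succ] at h2
    linarith

private theorem x4_harm (N : ℕ) : ∑ w ∈ Icc 1 N, (1 : ℝ) / (w : ℝ) ≤ 1 + Real.log N := by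
  have h := harmonic_le_one_add_log N
  have h2 : ((harmonic N : ℚ) : ℝ) = ∑ w ∈ Icc 1 N, (1 : ℝ) / (w : ℝ) := by
    rw [harmonic_eq_sum_Icc]
    push_cast
    refine Finset.sum_congr rfl (fun w _ => ?_)
    rw [one_div]
  rw [← h2]
  exact h

theorem few_exc (κ : ℝ) (hκ : 0 < κ) (hκ1 : κ ≤ 1 / 100) (K B D : ℕ) (hK : 1 ≤ K)
    (hD : 8 * (B + 12) ≤ D) : ∃ x0 : ℕ, ∀ x : ℕ, x0 ≤ x →
      cnt x (fun n => n ≠ 0 ∧ ∃ k a q : ℕ, n = k * (a * q) ∧ q.Prime ∧ zD D x < q ∧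
        (LL x ^ 2)⁻¹ < Hs κ K D x (a * q)) ≤ x / Real.log x ^ B := by
  obtain ⟨x1, hx1⟩ := exc_prime κ hκ hκ1 K (B + 4) D hK (by omega)
  obtain ⟨x2, hx2⟩ := Filter.eventually_atTop.1 (log_tend.eventually_ge_atTop 3)
  refine ⟨max x1 x2, fun x hx => ?_⟩
  have hxa : x1 ≤ x := le_trans (le_max_left _ _) hx
  have hL3 : 3 ≤ Real.log x := hx2 x (le_trans (le_max_right _ _) hx)
  set L := Real.log (x : ℝ) with hL
  have hL0 : 0 < L := by linarith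
  set t : ℝ := (LL x ^ 2)⁻¹ with ht
  set Q : ℕ → ℕ → Finset ℕ := fun k a => (Icc 1 x).filter (fun q => q.Prime ∧ zD D x < q ∧
    t < Hs κ K D x (a * q) ∧ k * (a * q) < x) with hQ
  -- the bound for fixed `k, a`
  have hQc : ∀ k ∈ Icc 1 x, ∀ a ∈ Icc 1 x, ((Q k a).card : ℝ) ≤
      2 * x / L ^ (B + 4) * ((1 / (k : ℝ)) * (1 / (a : ℝ))) := by
    intro k hk a ha
    rw [mem_Icc] at hk ha
    set I : Finset ℕ := (range (Nat.log 2 x + 1)).filter (fun i => k * a * 2 ^ i ≤ x ∧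
      zD D x ≤ 2 * 2 ^ i) with hI
    have hka : 1 ≤ k * a := Nat.mul_pos hk.1 ha.1
    have hkar : (0 : ℝ) < (k : ℝ) * a := by exact_mod_cast hka
    have hsub : Q k a ⊆ I.biUnion (fun i => (Bl (2 ^ i)).filter (fun q => t < Hs κ K D x (a * q))) := by
      intro q hq
      obtain ⟨hq1, hqp, hqz, hqH, hqx⟩ := mem_filter.1 hq
      rw [mem_Icc] at hq1
      have hb := mem_block hqp
      have hb' := mem_Bl.1 hb
      rw [mem_biUnion]
      refine ⟨Nat.log 2 (q - 1), ?_, mem_filter.2 ⟨hb, hqH⟩⟩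
      rw [hI, mem_filter, mem_range]
      refine ⟨Nat.lt_succ_of_le (Nat.log_mono_right (by omega)), ?_, by omega⟩
      have h1 : k * a * 2 ^ (Nat.log 2 (q - 1)) ≤ k * a * q := Nat.mul_le_mul_left _ hb'.1.1.le
      rw [← mul_assoc] at hqx
      omega
    have h1 : ((Q k a).card : ℝ) ≤ ∑ i ∈ I,
        (((Bl (2 ^ i)).filter (fun q => t < Hs κ K D x (a * q))).card : ℝ) := by
      have := (card_le_card hsub).trans card_biUnion_le
      exact_mod_cast this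
    have h2 : ∑ i ∈ I, (((Bl (2 ^ i)).filter (fun q => t < Hs κ K D x (a * q))).card : ℝ) ≤
        ∑ i ∈ I, (2 : ℝ) ^ i / L ^ (B + 4) := by
      refine sum_le_sum fun i hi => ?_
      rw [hI, mem_filter] at hi
      have h3 : 2 ^ i ≤ x := by
        calc 2 ^ i = 1 * 2 ^ i := (one_mul _).symm
          _ ≤ k * a * 2 ^ i := Nat.mul_le_mul_right _ hka
          _ ≤ x := hi.2.1
      have h4 := hx1 x hxa (2 ^ i) hi.2.2 h3 a (by omega) ha.2
      push_cast at h4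
      exact h4
    have h3 : ∑ i ∈ I, (2 : ℝ) ^ i ≤ 2 * ((x : ℝ) / (k * a)) := by
      refine x4_geom I _ (by positivity) (fun i hi => ?_)
      rw [hI, mem_filter] at hi
      rw [le_div_iff₀ hkar, mul_comm]
      exact_mod_cast hi.2.1
    rw [← sum_div] at h2
    have h4 : (∑ i ∈ I, (2 : ℝ) ^ i) / L ^ (B + 4) ≤ 2 * ((x : ℝ) / (k * a)) / L ^ (B + 4) :=
      div_le_div_of_nonneg_right h3 (by positivity)
    have h5 : 2 * ((x : ℝ) / (k * a)) / L ^ (B + 4) =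
        2 * x / L ^ (B + 4) * ((1 / (k : ℝ)) * (1 / (a : ℝ))) := by
      rw [one_div_mul_one_div]
      ring
    linarith
  -- the cover
  have hcov : (range x).filter (fun n => n ≠ 0 ∧ ∃ k a q : ℕ, n = k * (a * q) ∧ q.Prime ∧ zD D x < q ∧
      t < Hs κ K D x (a * q)) ⊆ (Icc 1 x).biUnion (fun k => (Icc 1 x).biUnion (fun a =>
        (Q k a).image (fun q => k * (a * q)))) := by
    intro n hn
    rw [mem_filter, mem_range] at hn
    obtain ⟨hnx, hn0, k, a, q, hn, hqp, hqz, hqH⟩ := hn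
    have hk0 : 1 ≤ k := Nat.pos_of_ne_zero (by rintro rfl; rw [zero_mul] at hn; exact hn0 hn)
    have ha0 : 1 ≤ a := Nat.pos_of_ne_zero (by rintro rfl; rw [zero_mul, mul_zero] at hn; exact hn0 hn)
    have hq0 : 1 ≤ q := hqp.pos
    have haq : 1 ≤ a * q := Nat.mul_pos ha0 hq0
    have hkn : k ≤ n := by rw [hn]; exact Nat.le_mul_of_pos_right k haq
    have haqn : a * q ≤ n := by rw [hn]; exact Nat.le_mul_of_pos_left _ hk0
    have han : a ≤ n := (Nat.le_mul_of_pos_right a hq0).trans haqn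
    have hqn : q ≤ n := (Nat.le_mul_of_pos_left q ha0).trans haqn
    rw [mem_biUnion]
    refine ⟨k, mem_Icc.2 ⟨hk0, by omega⟩, ?_⟩
    rw [mem_biUnion]
    refine ⟨a, mem_Icc.2 ⟨ha0, by omega⟩, ?_⟩
    rw [mem_image]
    refine ⟨q, mem_filter.2 ⟨mem_Icc.2 ⟨hq0, by omega⟩, hqp, hqz, hqH, ?_⟩, hn.symm⟩
    rw [← hn]
    exact hnx
  have hcard : (((range x).filter (fun n => n ≠ 0 ∧ ∃ k a q : ℕ, n = k * (a * q) ∧ q.Prime ∧ zD D x < q ∧
      t < Hs κ K D x (a * q))).card : ℝ) ≤ ∑ k ∈ Icc 1 x, ∑ a ∈ Icc 1 x, ((Q k a).card : ℝ) := by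
    have h1 := (card_le_card hcov).trans card_biUnion_le
    have h2 : ∑ k ∈ Icc 1 x, ((Icc 1 x).biUnion (fun a => (Q k a).image (fun q => k * (a * q)))).card ≤
        ∑ k ∈ Icc 1 x, ∑ a ∈ Icc 1 x, (Q k a).card := by
      refine sum_le_sum fun k _ => ?_
      refine card_biUnion_le.trans (sum_le_sum fun a _ => card_image_le)
    exact_mod_cast h1.trans h2
  have hH := x4_harm x
  have hH0 : 0 ≤ ∑ w ∈ Icc 1 x, (1 : ℝ) / (w : ℝ) := sum_nonneg fun w _ => by positivity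
  have hsum : ∑ k ∈ Icc 1 x, ∑ a ∈ Icc 1 x, ((Q k a).card : ℝ) ≤
      2 * x / L ^ (B + 4) * ((∑ k ∈ Icc 1 x, (1 : ℝ) / (k : ℝ)) * ∑ a ∈ Icc 1 x, (1 : ℝ) / (a : ℝ)) := by
    rw [sum_mul_sum, mul_sum]
    refine sum_le_sum fun k hk => ?_
    rw [mul_sum]
    exact sum_le_sum fun a ha => hQc k hk a ha
  have hfin : 2 * (x : ℝ) / L ^ (B + 4) * ((∑ k ∈ Icc 1 x, (1 : ℝ) / (k : ℝ)) *
      ∑ a ∈ Icc 1 x, (1 : ℝ) / (a : ℝ)) ≤ x / L ^ B := by
    have h1 : (∑ k ∈ Icc 1 x, (1 : ℝ) / (k : ℝ)) * ∑ a ∈ Icc 1 x, (1 : ℝ) / (a : ℝ) ≤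
        (1 + L) * (1 + L) := mul_le_mul hH hH hH0 (by linarith)
    have h2 : 2 * ((1 + L) * (1 + L)) ≤ L ^ 4 := by
      have h3 : 9 ≤ L ^ 2 := by nlinarith
      nlinarith
    have h3 : 2 * (x : ℝ) / L ^ (B + 4) * ((1 + L) * (1 + L)) = (x / L ^ B) * ((2 * ((1 + L) * (1 + L))) / L ^ 4) := by
      rw [pow_add]
      field_simp
    have h4 : (2 * ((1 + L) * (1 + L))) / L ^ 4 ≤ 1 := by
      rw [div_le_one (by positivity)]
      exact h2
    calc 2 * (x : ℝ) / L ^ (B + 4) * ((∑ k ∈ Icc 1 x, (1 : ℝ) / (k : ℝ)) * ∑ a ∈ Icc 1 x, (1 : ℝ) / (a : ℝ))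
        ≤ 2 * (x : ℝ) / L ^ (B + 4) * ((1 + L) * (1 + L)) := mul_le_mul_of_nonneg_left h1 (by positivity)
      _ = (x / L ^ B) * ((2 * ((1 + L) * (1 + L))) / L ^ 4) := h3
      _ ≤ (x / L ^ B) * 1 := mul_le_mul_of_nonneg_left h4 (by positivity)
      _ = x / L ^ B := mul_one _
  refine le_trans (le_of_eq ?_) (hcard.trans (hsum.trans hfin))
  unfold EO.cnt
  refine congrArg (fun m : ℕ => (m : ℝ)) (congrArg Finset.card ?_)
  ext n
  simp only [mem_filter]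

end Pool.Agent.Lib.MP_79499b_co.QZ
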