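import Pool.Agent.Lib.MP_79499b_co.QZ.QDefD
import Pool.Agent.Lib.MP_79499b_co.QZ.QD1
import Pool.Agent.Lib.MP_79499b_co.QZ.QD2
import Pool.Agent.Lib.MP_79499b_co.QZ.QD3
import Pool.Agent.Lib.MP_79499b_co.QZ.QX4
import Pool.Agent.Lib.MP_79499b_co.QZ.QM4
import Pool.Agent.Lib.MP_79499b_co.QZ.QS5

/-!
# QD4: few integers are discarded

Proof (assembly). Apply with `B + 1`: `n = 0` counts `1 ≤ x/L^(B+1)`; `smooth_few (B+1)` gives `C1`, `Om_few (B+1)` gives `C2`, `sqr_few`, `gb_few`, `few_exc`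
with `D = 8 (B + 13)`; `nd_cell` with `K0 = (1+8κ)(1+κ)^K` for the cell `c`: `A = AC c ≥ A0` for large `x` (`AC_tend`), `L ≤ A^K0` (`AC_K0`),
`A^(1+7κ) ≤ L` (`AC_small`, `C = 1`), so at most `x exp(-(AC 0)^(1/4)) ≤ x/(K L^(B+1))`-many. Total at most `7 x/L^(B+1) ≤ x/L^B`.
-/

set_option autoImplicit false

namespace Pool.Agent.Lib.MP_79499b_co.QZ

open Finset DZ

private theorem QD4_log (C a : ℝ) (ha : 0 < a) :
    ∀ᶠ L : ℝ in Filter.atTop, C * Real.log L ≤ L ^ a := by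
  have h2 : ∀ᶠ L : ℝ in Filter.atTop, ‖Real.log L‖ ≤ (1 / (|C| + 1)) * ‖L ^ a‖ :=
    (isLittleO_log_rpow_atTop ha).bound (by positivity)
  filter_upwards [Filter.eventually_ge_atTop 1, h2] with L hL e2
  have hlog : 0 ≤ Real.log L := Real.log_nonneg hL
  have hLa : 0 < L ^ a := by positivity
  rw [Real.norm_eq_abs, abs_of_nonneg hlog, Real.norm_eq_abs, abs_of_pos hLa] at e2
  calc C * Real.log L ≤ (|C| + 1) * Real.log L := by
        gcongr
        linarith [le_abs_self C]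
    _ ≤ (|C| + 1) * ((1 / (|C| + 1)) * L ^ a) := by gcongr
    _ = L ^ a := by
        have : |C| + 1 ≠ 0 := by positivity
        field_simp

private theorem QD4_zero (x : ℕ) : cnt x (fun n => n = 0) ≤ 1 := by
  unfold EO.cnt
  rw [← Nat.cast_one]
  refine Nat.cast_le.mpr (card_le_one.2 ?_)
  intro a ha b hb
  simp only [mem_filter] at ha hb
  rw [ha.2, hb.2]

theorem disc_few (κ : ℝ) (hκ : 0 < κ) (hκ1 : κ ≤ 1 / 100) (K s B : ℕ) (hK : 1 ≤ K) (hs : 2 ≤ s) :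
    ∃ (D : ℕ) (C1 C2 : ℝ) (x0 : ℕ), 1 ≤ D ∧ 0 < C1 ∧ 0 < C2 ∧ ∀ x : ℕ, x0 ≤ x →
      cnt x (Disc κ K D s C1 C2 x) ≤ x / Real.log x ^ B := by
  obtain ⟨C1, y1, hC1, h1⟩ := smooth_few (B + 1)
  obtain ⟨C2, y2, hC2, h2⟩ := Om_few (B + 1)
  obtain ⟨y3, h3⟩ := sqr_few κ hκ K (B + 1)
  obtain ⟨y4, h4⟩ := gb_few κ hκ K (B + 1) (8 * (B + 13)) s
  obtain ⟨y6, h6⟩ := few_exc κ hκ hκ1 K (B + 1) (8 * (B + 13)) hK (by omega)
  obtain ⟨A0, h5⟩ := nd_cell s hs κ hκ hκ1 ((1 + 8 * κ) * (1 + κ) ^ K)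
  obtain ⟨y7, h7⟩ := AC_small κ hκ K 1 one_pos
  obtain ⟨y8, h8⟩ := Filter.eventually_atTop.1 ((AC_tend κ hκ K 0).eventually_ge_atTop A0)
  obtain ⟨y9, h9⟩ := Filter.eventually_atTop.1 (LL_tend.eventually_ge_atTop 1)
  obtain ⟨e, he, hAe⟩ : ∃ e : ℝ, 0 < e ∧ ∀ x : ℕ, AC κ K x 0 = Real.log x ^ e :=
    ⟨1 / ((1 + 8 * κ) * (1 + κ) ^ (K - 0)), by positivity, fun _ => rfl⟩
  obtain ⟨ya, ha⟩ := Filter.eventually_atTop.1 (log_tend.eventually
    (((QD4_log ((B : ℝ) + 2) (e * (1 / 4)) (by positivity)).and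
      (QD4_log ((B : ℝ) + 1) 1 one_pos)).and (Filter.eventually_ge_atTop (max 7 (K : ℝ)))))
  refine ⟨8 * (B + 13), C1, C2, max 3 (max y1 (max y2 (max y3 (max y4 (max y6 (max y7 (max y8 (max y9 ya)))))))),
    by omega, by linarith, hC2, fun x hx => ?_⟩
  simp only [max_le_iff] at hx
  obtain ⟨hx3, hx1, hx2, hx3', hx4, hx6, hx7, hx8, hx9, hxa⟩ := hx
  obtain ⟨⟨ha1, ha2⟩, ha3⟩ := ha x hxa
  rw [max_le_iff] at ha3
  set L := Real.log (x : ℝ) with hL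
  have hL0 : 0 < L := by linarith [ha3.1]
  have hx0 : (0 : ℝ) < x := by
    have : 0 < x := by omega
    exact_mod_cast this
  have hexpL : Real.exp L = x := Real.exp_log hx0
  have hpow : ∀ n : ℕ, L ^ n = Real.exp ((n : ℝ) * Real.log L) := by
    intro n
    rw [mul_comm, ← Real.rpow_def_of_pos hL0, Real.rpow_natCast]
  -- the terms
  have t0 : cnt x (fun n => n = 0) ≤ x / L ^ (B + 1) := by
    refine (QD4_zero x).trans ?_
    rw [le_div_iff₀ (by positivity), one_mul, hpow]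
    push_cast
    calc Real.exp (((B : ℝ) + 1) * Real.log L) ≤ Real.exp (L ^ (1 : ℝ)) := Real.exp_le_exp.mpr ha2
      _ = x := by rw [Real.rpow_one, hexpL]
  have t1 := h1 x hx1
  have t2 := h2 x hx2
  have t3 := h3 x hx3'
  have t4 := h4 x hx4
  have t6 := h6 x hx6
  have hE : (K : ℝ) * Real.exp (-(AC κ K x 0 ^ (1 / 4 : ℝ))) ≤ 1 / L ^ (B + 1) := by
    rw [hAe, ← Real.rpow_mul hL0.le, le_div_iff₀ (by positivity), Real.exp_neg, ← div_eq_mul_inv,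
      div_mul_eq_mul_div, div_le_one (Real.exp_pos _)]
    calc (K : ℝ) * L ^ (B + 1) ≤ L * L ^ (B + 1) := by
          exact mul_le_mul_of_nonneg_right ha3.2 (by positivity)
      _ = L ^ (B + 2) := by rw [← pow_succ']
      _ = Real.exp (((B + 2 : ℕ) : ℝ) * Real.log L) := hpow (B + 2)
      _ ≤ Real.exp (L ^ (e * (1 / 4))) := by
          apply Real.exp_le_exp.mpr
          push_cast
          exact ha1
  have t5 : cnt x (fun n => ∃ c ∈ range K, BadN s κ (AC κ K x c) n) ≤ x / L ^ (B + 1) := by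
    refine (EO.cnt_exists x (range K) (fun c n => BadN s κ (AC κ K x c) n)).trans ?_
    have h10 : ∀ c ∈ range K, cnt x (fun n => BadN s κ (AC κ K x c) n) ≤
        x * Real.exp (-(AC κ K x 0 ^ (1 / 4 : ℝ))) := by
      intro c hc
      rw [mem_range] at hc
      obtain ⟨m1, m2⟩ := AC_mono κ hκ K x hx3 0 c (Nat.zero_le _)
      have hsm : AC κ K x c ^ (1 + 7 * κ) ≤ L := by
        refine (h7 x hx7 c hc).trans ?_
        rw [one_mul]
        exact div_le_self hL0.le (h9 x hx9)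
      refine (h5 (AC κ K x c) ((h8 x hx8).trans m2) x hx3 (AC_K0 κ hκ K x c hx3) hsm).trans ?_
      refine mul_le_mul_of_nonneg_left ?_ hx0.le
      apply Real.exp_le_exp.mpr
      apply neg_le_neg
      exact Real.rpow_le_rpow (by linarith) m2 (by norm_num)
    refine (sum_le_sum h10).trans ?_
    rw [sum_const, card_range, nsmul_eq_mul]
    calc (K : ℝ) * (x * Real.exp (-(AC κ K x 0 ^ (1 / 4 : ℝ)))) =
          x * ((K : ℝ) * Real.exp (-(AC κ K x 0 ^ (1 / 4 : ℝ)))) := by ring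
      _ ≤ x * (1 / L ^ (B + 1)) := mul_le_mul_of_nonneg_left hE hx0.le
      _ = x / L ^ (B + 1) := by ring
  have hcov : cnt x (Disc κ K (8 * (B + 13)) s C1 C2 x) ≤ cnt x (fun n => n = 0) +
      (cnt x (fun n => n ≠ 0 ∧ ∀ p : ℕ, p.Prime → p ∣ n → (p : ℝ) ≤ Real.exp (Real.log x / (C1 * LL x))) +
      (cnt x (fun n => C2 * LL x < (n.primeFactorsList.length : ℝ)) +
      (cnt x (fun n => n ≠ 0 ∧ ∃ p : ℕ, p.Prime ∧ ZA (AC κ K x 0) < p ∧ p ^ 2 ∣ n) +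
      (cnt x (fun n => n ≠ 0 ∧ BB κ K x < gb s (zD (8 * (B + 13)) x) n) +
      (cnt x (fun n => ∃ c ∈ range K, BadN s κ (AC κ K x c) n) +
      cnt x (fun n => n ≠ 0 ∧ ∃ k a q : ℕ, n = k * (a * q) ∧ q.Prime ∧ zD (8 * (B + 13)) x < q ∧
        (LL x ^ 2)⁻¹ < Hs κ K (8 * (B + 13)) x (a * q))))))) := by
    refine le_trans ?_ ((cnt_or x _ _).trans (add_le_add_right ((cnt_or x _ _).trans (add_le_add_right
      ((cnt_or x _ _).trans (add_le_add_right ((cnt_or x _ _).trans (add_le_add_right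
      ((cnt_or x _ _).trans (add_le_add_right (cnt_or x _ _) _)) _)) _)) _)) _))
    refine cnt_mono ?_
    intro n _ hn
    by_cases hn0 : n = 0
    · exact Or.inl hn0
    refine Or.inr ?_
    rcases hn with h | h | h | h | h | ⟨c, hc, h⟩ | h
    · exact absurd h hn0
    · exact Or.inl ⟨hn0, h⟩
    · exact Or.inr (Or.inl h)
    · exact Or.inr (Or.inr (Or.inl ⟨hn0, h⟩))
    · exact Or.inr (Or.inr (Or.inr (Or.inl ⟨hn0, h⟩)))
    · exact Or.inr (Or.inr (Or.inr (Or.inr (Or.inl ⟨c, mem_range.2 hc, h⟩))))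
    · exact Or.inr (Or.inr (Or.inr (Or.inr (Or.inr ⟨hn0, h⟩))))
  have hsum : cnt x (Disc κ K (8 * (B + 13)) s C1 C2 x) ≤ 7 * (x / L ^ (B + 1)) := by linarith
  refine hsum.trans ?_
  have hq : 7 * ((x : ℝ) / L ^ (B + 1)) = (7 / L) * (x / L ^ B) := by
    rw [pow_succ]
    field_simp
  rw [hq]
  have h7L : 7 / L ≤ 1 := by
    rw [div_le_one hL0]
    exact ha3.1
  calc (7 / L) * (x / L ^ B) ≤ 1 * (x / L ^ B) := mul_le_mul_of_nonneg_right h7L (by positivity)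
    _ = x / L ^ B := one_mul _

end Pool.Agent.Lib.MP_79499b_co.QZ
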