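import Pool.Agent.Lib.MP_79499b_co.QZ.QDefC
import Pool.Agent.Lib.MP_79499b_co.QZ.QM4

/-!
# QZ: the discarded integers

`Disc`: `n = 0`, or all prime factors are `≤ exp(L/(C1 LL))`, or `Ω(n) > C2 LL`, or a square of a large prime divides `n`, or `gb > BB`, or part N
fails in some cell, or `n = k a q` with an exceptional prime `q`.
-/

set_option autoImplicit false

namespace Pool.Agent.Lib.MP_79499b_co.QZ

open Finset DZ
open scoped Classical

/-- the discarded integers -/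
def Disc (κ : ℝ) (K D s : ℕ) (C1 C2 : ℝ) (x n : ℕ) : Prop :=
  n = 0 ∨ (∀ p : ℕ, p.Prime → p ∣ n → (p : ℝ) ≤ Real.exp (Real.log x / (C1 * LL x))) ∨
  C2 * LL x < (n.primeFactorsList.length : ℝ) ∨
  (∃ p : ℕ, p.Prime ∧ ZA (AC κ K x 0) < p ∧ p ^ 2 ∣ n) ∨
  BB κ K x < gb s (zD D x) n ∨
  (∃ c < K, BadN s κ (AC κ K x c) n) ∨
  ∃ k a q : ℕ, n = k * (a * q) ∧ q.Prime ∧ zD D x < q ∧ (LL x ^ 2)⁻¹ < Hs κ K D x (a * q)


end Pool.Agent.Lib.MP_79499b_co.QZ
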