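import Pool.Agent.Lib.MP_79499b_co.DZ.LDef
import Pool.Agent.Lib.MP_79499b_co.QZ.QDefC

/-!
# QZ: definitions for the cofactors composed of small primes (Theorem T2)

`n = m p`, `p` prime, `m` composed of primes `≤ zD D x`. `cb s = v_2(2s) + 1`, `so s` the odd part of `s`, `MM s = 2^(cb+1) so s`,
`hh s = 1 + 2^cb so s`: a prime `w ≡ hh s mod MM s` has `v_2(w-1) = cb s` and `2 s ∣ (w-1)/2`. `th2 s = 1 - 1/(40 φ(MM s))`.
`II s x`: the `i` with `exp L^(1/10) ≤ 2^i`, `2^(i+1) ≤ exp L^(th2)`; `RQ`: the primes of the blocks `(2^i, 2^(i+1)]`, `i ∈ II`. `B2 x = ⌊exp L^(1/20)⌋`.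
`WM s D x m`: the `w ∈ RQ`, `w ≡ hh mod MM`, with `m` a nonresidue mod `w` and `OrdBig (zD D x) (B2 x) w`.
`BDc s x`: the bad conductors up to `exp LL^3`: some primitive character mod `q` has a large sum over a block of `II`. `Bm`: the `a` such that `a d`
is a bad conductor for some `1 ≤ d ≤ MM s`. `Dec s m e a k`: `m = e a k^2`, `e a` squarefree, `e ∣ 2s`, `a` coprime to `2s`. `GoodCof`: the cofactors
treated by real characters.
-/

set_option autoImplicit false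

namespace Pool.Agent.Lib.MP_79499b_co.QZ

open Finset DZ
open scoped Classical

/-- the exact exponent of 2 in `w - 1` -/
def cb (s : ℕ) : ℕ := (2 * s).factorization 2 + 1

/-- the odd part -/
def so (s : ℕ) : ℕ := s / 2 ^ s.factorization 2

/-- the modulus -/
def MM (s : ℕ) : ℕ := 2 ^ (cb s + 1) * so s

/-- the residue class -/
def hh (s : ℕ) : ℕ := 1 + 2 ^ cb s * so s

/-- the exponent of the upper end of the range -/
noncomputable def th2 (s : ℕ) : ℝ := 1 - 1 / (40 * ((MM s).totient : ℝ))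

/-- the block indices -/
noncomputable def II (s x : ℕ) : Finset ℕ :=
  (range (x + 1)).filter (fun i => Real.exp (Real.log x ^ (1 / 10 : ℝ)) ≤ 2 ^ i ∧
    (2 : ℝ) ^ (i + 1) ≤ Real.exp (Real.log x ^ (th2 s)))

/-- the primes of the blocks -/
noncomputable def RQ (s x : ℕ) : Finset ℕ := (II s x).biUnion (fun i => Bl (2 ^ i))

/-- the bound for the orbits -/
noncomputable def B2 (x : ℕ) : ℕ := ⌊Real.exp (Real.log x ^ (1 / 20 : ℝ))⌋₊

/-- the sieving primes for the cofactor `m` -/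
noncomputable def WM (s D x m : ℕ) : Finset ℕ :=
  (RQ s x).filter (fun w => w ≡ hh s [MOD MM s] ∧ ¬ IsSquare (m : ZMod w) ∧
    OrdBig (zD D x) (B2 x) w)

/-- the bad conductors -/
noncomputable def BDc (s x : ℕ) : Finset ℕ :=
  (Icc 2 ⌊Real.exp (LL x ^ 3)⌋₊).filter (fun q => ∃ i ∈ II s x, Bd (2 ^ i) (tau x) q)

/-- the bad squarefree parts -/
noncomputable def Bm (s x : ℕ) : Finset ℕ :=
  (Icc 1 ⌊Real.exp (LL x ^ 3)⌋₊).filter (fun a => ∃ d ∈ Icc 1 (MM s), a * d ∈ BDc s x)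

/-- the decomposition of the cofactor -/
def Dec (s m e a k : ℕ) : Prop :=
  m = e * a * k ^ 2 ∧ Squarefree (e * a) ∧ e ∣ 2 * s ∧ a.Coprime (2 * s)

/-- the cofactors treated by real characters -/
def GoodCof (s D x m : ℕ) : Prop :=
  m ≠ 0 ∧ (m : ℝ) ≤ Real.exp (LL x ^ 2) ∧ (∀ q : ℕ, q.Prime → q ∣ m → q ≤ zD D x) ∧
    (m.primeFactors.card : ℝ) ≤ LL x / 40 ∧ ∃ e a k : ℕ, Dec s m e a k ∧ a ≠ 1 ∧ a ∉ Bm s x

/-- `w1, w2 ∈ WM` with `w1 ∣ n^s+1`, `w2 ∣ ∑ n^i` -/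
def PairT (s D x m n : ℕ) : Prop :=
  ∃ w1 ∈ WM s D x m, ∃ w2 ∈ WM s D x m, w1 ≠ w2 ∧ w1 ∣ n ^ s + 1 ∧ w2 ∣ ∑ i ∈ range s, n ^ i

end Pool.Agent.Lib.MP_79499b_co.QZ
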