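import Pool.Agent.Lib.MP_79499b_co.QZ.QDefC

/-!
# QZ: the assignments of the sieve

For the sieve (`n = m p`): `Asg`: `f` assigns to some cells `c` a usable prime `v`. `VV` their product, `zK = ⌊exp (AC K)⌋`, `UV` the sifting
primes, `EE u`: the residue classes (of `p`) removed modulo `u`, `Cnd`: the conditions on `p`. `sg` the exponent.
-/

set_option autoImplicit false

namespace Pool.Agent.Lib.MP_79499b_co.QZ

open Finset DZ
open scoped Classical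

/-- an assignment -/
def Asg (κ : ℝ) (K D x m : ℕ) (f : ℕ → Option ℕ) : Prop :=
  ∀ c < K, ∀ v, f c = some v → v ∈ US κ K D x c m

/-- the product of the assigned primes -/
def VV (K : ℕ) (f : ℕ → Option ℕ) : ℕ := ∏ c ∈ range K, (f c).getD 1

/-- the sifting limit -/
noncomputable def zK (κ : ℝ) (K x : ℕ) : ℕ := ⌊Real.exp (AC κ K x K)⌋₊

/-- the sifting primes -/
noncomputable def UV (κ : ℝ) (K x : ℕ) (f : ℕ → Option ℕ) : Finset ℕ :=
  (Icc 1 (zK κ K x)).filter (fun u => u.Prime ∧ ¬ u ∣ VV K f)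

/-- the classes removed modulo `u` -/
def EE (κ : ℝ) (K D s x m : ℕ) (f : ℕ → Option ℕ) (u n : ℕ) : Prop :=
  u ∣ n ∨ ∃ c < K, u ∈ US κ K D x c m ∧ ((f c = none ∧ u ∣ (m * n) ^ s + 1) ∨
    ∃ v, f c = some v ∧ u ≠ v ∧ (ry x v).Coprime (ry x u) ∧ u ∣ ∑ i ∈ range s, (m * n) ^ i)

/-- the conditions on `p` -/
def Cnd (κ : ℝ) (K D s x m : ℕ) (f : ℕ → Option ℕ) (n : ℕ) : Prop :=
  (∀ u : ℕ, u.Prime → u ≤ zK κ K x → ¬ u ∣ n) ∧
  ∀ c < K, (f c = none → ∀ w ∈ US κ K D x c m, ¬ w ∣ (m * n) ^ s + 1) ∧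
    ∀ v, f c = some v → v ∣ (m * n) ^ s + 1 ∧ ∀ w ∈ US κ K D x c m, w ≠ v →
      (ry x v).Coprime (ry x w) → ¬ w ∣ ∑ i ∈ range s, (m * n) ^ i

/-- the exponent of the sieve -/
noncomputable def sg (κ : ℝ) (K s : ℕ) : ℝ :=
  1 / (1 + 8 * κ) * (1 + rr s * (1 - 1 / (1 + κ) ^ K))

end Pool.Agent.Lib.MP_79499b_co.QZ
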