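import Pool.Agent.Lib.MP_79499b_co.QZ.QDefC

/-!
# QE1: the top prime factor is no `l`-th power

`np_top`: `w` prime, all primes `l ∣ r` are coprime to `2s`, `w ∣ n^s + 1` or `w ∣ ∑_{i<s} n^i`, `n = m p`, `NP w r m`. Then `NP w r p`.

Proof. `n^(2s) = 1` in `ZMod w` (`n^s = -1`, resp. `n^s - 1 = (n - 1) ∑ n^i`), `s ≥ 1`; so `n` is a unit. Suppose `z^l = p` in `ZMod w` for a prime
`l ∣ r`. Choose `u` with `u l ≡ 1 mod 2s` (`Nat.exists_mul_emod_eq_one_of_coprime`-style; for `2s = 2`.. `2s ≥ 2`). `n = n^(u l) = (n^u)^l`, and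
`m z^l = n`, `z ≠ 0`, so `m = (n^u z⁻¹)^l`: contradiction to `NP w r m`.
-/

set_option autoImplicit false

namespace Pool.Agent.Lib.MP_79499b_co.QZ

open Finset DZ

theorem np_top (s w r n m p : ℕ) (hs : 1 ≤ s) (hw : w.Prime)
    (hr : ∀ l : ℕ, l.Prime → l ∣ r → l.Coprime (2 * s))
    (hd : w ∣ n ^ s + 1 ∨ w ∣ ∑ i ∈ range s, n ^ i) (hn : n = m * p) (hm : NP w r m) :
    NP w r p := by
  haveI : Fact w.Prime := ⟨hw⟩
  intro l hl hlr ⟨z, hz⟩
  have hN : (n : ZMod w) ^ (2 * s) = 1 := by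
    rcases hd with h | h
    · have h1 : ((n ^ s + 1 : ℕ) : ZMod w) = 0 := (ZMod.natCast_eq_zero_iff _ _).2 h
      push_cast at h1
      have h2 : (n : ZMod w) ^ s = -1 := eq_neg_of_add_eq_zero_left h1
      rw [mul_comm, pow_mul, h2, neg_one_sq]
    · have h1 : ((∑ i ∈ range s, n ^ i : ℕ) : ZMod w) = 0 := (ZMod.natCast_eq_zero_iff _ _).2 h
      push_cast at h1
      have h2 := geom_sum_mul (n : ZMod w) s
      rw [h1, zero_mul] at h2
      have h3 : (n : ZMod w) ^ s = 1 := (sub_eq_zero.1 h2.symm)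
      rw [mul_comm, pow_mul, h3, one_pow]
  have hN0 : (n : ZMod w) ≠ 0 := by
    intro h
    rw [h, zero_pow (by omega)] at hN
    exact zero_ne_one hN
  have hco : l.Coprime (orderOf (n : ZMod w)) :=
    (hr l hl hlr).coprime_dvd_right (orderOf_dvd_of_pow_eq_one hN)
  obtain ⟨u, hu⟩ := exists_pow_eq_self_of_coprime hco
  have hmp : (n : ZMod w) = m * z ^ l := by
    rw [hz, hn]
    push_cast
    rfl
  have hz0 : z ≠ 0 := by
    rintro rfl
    rw [zero_pow hl.ne_zero, mul_zero] at hmp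
    exact hN0 hmp
  refine hm l hl hlr ⟨(n : ZMod w) ^ u * z⁻¹, ?_⟩
  have h1 : ((n : ZMod w) ^ u) ^ l = n := by
    rw [← pow_mul, mul_comm, pow_mul]
    exact hu
  rw [mul_pow, h1, inv_pow, hmp, mul_assoc, mul_inv_cancel₀ (pow_ne_zero l hz0), mul_one]

end Pool.Agent.Lib.MP_79499b_co.QZ
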