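import Pool.Agent.Lib.MP_79499b_co.DZ.LM
import Pool.Agent.Lib.MP_79499b_co.QZ.QDefC

/-!
# QS1: sums of `1/w` over the primes of a cell in residue classes

`mert_cell`: for all `C, K'` and large `A`: `|∑_{w ∈ CW A κ, w ≡ b mod Q} 1/w - κ log A/φ(Q)| ≤ A^(-K')` for `1 ≤ Q ≤ A^C`, `(b, Q) = 1`.
Proof: as `mert_ap` in DZ/LM.lean: `LM_main` with `k = C + K' + 2`, `N1 = ⌊exp A⌋`, `N2 = ⌊exp A^(1+κ)⌋` (`CW A κ` is the set of the
primes in `Ioc N1 N2`). `LM_sum`: `∑ LMf` differs from `log A^(1+κ) - log A = κ log A` by at most `2/N1`-ish (floors: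
`log log` of `⌊e^t⌋` and `⌊e^t⌋ + 1` differ from `log t` by at most `1/⌊e^t⌋`), `N1 LMf N1 = 1/log N1 ≤ 1`, so the error is at
most `C₁ A^C (2/A)^k (2 + 2 log A) + 2/N1 ≤ A^(-K')`.

`cell_ap`: for `1 ≤ Q ≤ A^C`, `A` large: `∑_{w ∈ CW, Q ∣ w - 1} 1/w ≤ log A/φ(Q)` (`mert_cell` with `b = 1`, `K' = C`:
`κ log A/φ(Q) + A^(-C) ≤ log A/φ(Q)`, since `φ(Q) ≤ A^C` and `(1-κ) log A ≥ 1`). `cell_le`: the case `Q = 1`.

`cell_triv`: for all `Q ≥ 1`, `A ≥ 1`: `∑_{w ∈ CW, Q ∣ w - 1} 1/w ≤ 2 A^(1+κ)/Q`: `w = 1 + k Q`, `1 ≤ k ≤ N := ⌊exp(A^(1+κ))⌋`,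
`1/w ≤ 1/(kQ)`, harmonic sum `≤ 1 + A^(1+κ) ≤ 2 A^(1+κ)`.
-/

set_option autoImplicit false

namespace Pool.Agent.Lib.MP_79499b_co.QZ

open Finset DZ

/-- the sum of `LMf` over the range of a cell -/
private theorem qs1_LL (κ A : ℝ) (hκ : 0 < κ) (hA : 2 ≤ A) :
    3 ≤ ⌊Real.exp A⌋₊ ∧ ⌊Real.exp A⌋₊ ≤ ⌊Real.exp (A ^ (1 + κ))⌋₊ ∧
    |∑ n ∈ Ioc ⌊Real.exp A⌋₊ ⌊Real.exp (A ^ (1 + κ))⌋₊, LMf n - κ * Real.log A| ≤
      1 / ⌊Real.exp A⌋₊ := by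
  have hA0 : 0 < A := by linarith
  have he : (4 : ℝ) ≤ Real.exp A := by
    have h1 := Real.exp_one_gt_d9
    have h2 : Real.exp 1 * Real.exp 1 ≤ Real.exp A := by
      rw [← Real.exp_add]
      exact Real.exp_le_exp.2 (by linarith)
    nlinarith
  have h4 : 3 ≤ ⌊Real.exp A⌋₊ := Nat.le_floor (by push_cast; linarith)
  have hpow : A ≤ A ^ (1 + κ) := by
    have := Real.rpow_le_rpow_of_exponent_le (show (1 : ℝ) ≤ A by linarith)
      (show (1 : ℝ) ≤ 1 + κ by linarith)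
    rwa [Real.rpow_one] at this
  have hexp : Real.exp A ≤ Real.exp (A ^ (1 + κ)) := Real.exp_le_exp.2 hpow
  have h5 : ⌊Real.exp A⌋₊ ≤ ⌊Real.exp (A ^ (1 + κ))⌋₊ := Nat.floor_le_floor hexp
  refine ⟨h4, h5, ?_⟩
  obtain ⟨h6, h7⟩ := @LM_sum ⌊Real.exp A⌋₊ ⌊Real.exp (A ^ (1 + κ))⌋₊ (by omega) h5
  have h8 := @LM_up ⌊Real.exp A⌋₊ (by omega)
  have hX1 : Real.log (Real.log (Real.exp A)) = Real.log A := by rw [Real.log_exp]
  have hX2 : Real.log (Real.log (Real.exp (A ^ (1 + κ)))) = (1 + κ) * Real.log A := by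
    rw [Real.log_exp, Real.log_rpow hA0]
  have h3' : (3 : ℝ) ≤ (⌊Real.exp A⌋₊ : ℝ) := by exact_mod_cast h4
  have h5' : (⌊Real.exp A⌋₊ : ℝ) ≤ (⌊Real.exp (A ^ (1 + κ))⌋₊ : ℝ) := by exact_mod_cast h5
  have hf1 := Nat.floor_le (Real.exp_pos A).le
  have hf2 := Nat.floor_le (Real.exp_pos (A ^ (1 + κ))).le
  have hg1 := Nat.lt_floor_add_one (Real.exp A)
  have hg2 := Nat.lt_floor_add_one (Real.exp (A ^ (1 + κ)))
  have key : ∀ {u v : ℝ}, 3 ≤ u → u ≤ v → Real.log (Real.log u) ≤ Real.log (Real.log v) := by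
    intro u v hu huv
    exact Real.log_le_log (Real.log_pos (by linarith)) (Real.log_le_log (by linarith) huv)
  have h9 := key (by linarith : (3 : ℝ) ≤ Real.exp A) hg1.le
  have h10 := key (by linarith : (3 : ℝ) ≤ (⌊Real.exp (A ^ (1 + κ))⌋₊ : ℝ)) hf2
  have h11 := key h3' hf1
  have h12 := key (by linarith : (3 : ℝ) ≤ Real.exp (A ^ (1 + κ))) hg2.le
  push_cast at h7 h8
  have h13 : LMf ⌊Real.exp A⌋₊ ≤ 1 / ⌊Real.exp A⌋₊ := by
    unfold LMf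
    have h14 : 1 ≤ Real.log (⌊Real.exp A⌋₊ : ℝ) := by
      rw [← Real.log_exp 1]
      exact Real.log_le_log (Real.exp_pos 1) (by linarith [Real.exp_one_lt_d9])
    exact one_div_le_one_div_of_le (by linarith) (by nlinarith)
  rw [hX1] at h9 h11
  rw [hX2] at h10 h12
  rw [abs_le]
  constructor <;> linarith

private theorem qs1_ev (k : ℕ) : ∀ᶠ A : ℝ in Filter.atTop, 4 * A ^ k ≤ Real.exp A := by
  filter_upwards [(Real.tendsto_exp_div_pow_atTop k).eventually_ge_atTop 4,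
    Filter.eventually_ge_atTop (1 : ℝ)] with A hA h1
  rwa [le_div_iff₀ (by positivity)] at hA

theorem mert_cell (κ : ℝ) (hκ : 0 < κ) (hκ1 : κ ≤ 1 / 100) (C K' : ℕ) : ∃ A0 : ℝ, ∀ A : ℝ,
    A0 ≤ A → ∀ Q b : ℕ, 1 ≤ Q → (Q : ℝ) ≤ A ^ C → b.Coprime Q →
    |∑ w ∈ (CW A κ).filter (fun w => w ≡ b [MOD Q]), 1 / (w : ℝ) - κ * Real.log A / Q.totient| ≤
      (A ^ K')⁻¹ := by
  obtain ⟨C₁, hC₁, hmain⟩ := LM_main (C + K' + 2)
  rw [← Filter.eventually_atTop]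
  filter_upwards [qs1_ev (K' + 1), Filter.eventually_ge_atTop (8 : ℝ),
    Filter.eventually_ge_atTop (C₁ * 2 ^ (C + K' + 2) * 4)] with A h2 hA8 hAC
  intro Q b hQ hQC hb
  obtain ⟨h6, h7, h8⟩ := qs1_LL κ A hκ (by linarith)
  have hset : (CW A κ).filter (fun w => w ≡ b [MOD Q]) =
      (Ioc ⌊Real.exp A⌋₊ ⌊Real.exp (A ^ (1 + κ))⌋₊).filter (fun w => w.Prime ∧ w ≡ b [MOD Q]) := by
    ext w
    simp only [CW, mem_filter, Cell, mem_Ioc, mem_Icc]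
    constructor
    · rintro ⟨⟨-, hw, hw1, hw2⟩, hwb⟩
      exact ⟨⟨(Nat.floor_lt (Real.exp_pos _).le).2 hw1, Nat.le_floor hw2⟩, hw, hwb⟩
    · rintro ⟨⟨hw1, hw2⟩, hw, hwb⟩
      exact ⟨⟨⟨hw.one_le, hw2⟩, hw, (Nat.floor_lt (Real.exp_pos _).le).1 hw1,
        (Nat.le_floor_iff (Real.exp_pos _).le).1 hw2⟩, hwb⟩
  rw [hset]
  have h9 := hmain ⌊Real.exp A⌋₊ ⌊Real.exp (A ^ (1 + κ))⌋₊ Q b (by omega) h7 hQ hb
  have hfl : Real.exp A - 1 ≤ (⌊Real.exp A⌋₊ : ℝ) := by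
    have := Nat.lt_floor_add_one (Real.exp A)
    linarith
  have hN10 : (3 : ℝ) ≤ (⌊Real.exp A⌋₊ : ℝ) := by exact_mod_cast h6
  revert h9 h8 hfl hN10
  generalize ⌊Real.exp (A ^ (1 + κ))⌋₊ = N2
  generalize ⌊Real.exp A⌋₊ = N1
  generalize ∑ w ∈ (Ioc N1 N2).filter (fun w => w.Prime ∧ w ≡ b [MOD Q]), 1 / (w : ℝ) = W
  have hF0 : 0 ≤ ∑ n ∈ Ioc N1 N2, LMf n := sum_nonneg fun n _ => LMf_nonneg n
  revert hF0
  generalize ∑ n ∈ Ioc N1 N2, LMf n = F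
  intro hF0 h8 h9 hfl hN10
  have hl0 : 0 < A := by linarith
  -- log N1
  have hlogN1 : A / 2 ≤ Real.log N1 := by
    have h10 : Real.exp A ≤ (N1 : ℝ) ^ 2 := by nlinarith
    have h11 := Real.log_le_log (Real.exp_pos _) h10
    rw [Real.log_pow, Real.log_exp] at h11
    push_cast at h11
    linarith
  have hlogN1pos : 1 ≤ Real.log (N1 : ℝ) := by linarith
  have hpow : A ^ (C + K' + 2) / 2 ^ (C + K' + 2) ≤ Real.log N1 ^ (C + K' + 2) := by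
    rw [← div_pow]
    exact pow_le_pow_left₀ (by positivity) hlogN1 _
  have h8' := abs_le.1 h8
  have hinv : (1 : ℝ) / N1 ≤ 1 := by
    rw [div_le_one (by linarith)]
    linarith
  have hlogA : Real.log A ≤ A := by
    have := Real.log_le_sub_one_of_pos hl0
    linarith
  have hlogA0 : 0 ≤ Real.log A := Real.log_nonneg (by linarith)
  have hNf : (N1 : ℝ) * LMf N1 ≤ 1 := by
    unfold LMf
    have h12 : (N1 : ℝ) * (1 / (N1 * Real.log N1)) = 1 / Real.log N1 := by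
      have : (N1 : ℝ) ≠ 0 := by linarith
      field_simp
    rw [h12, div_le_one (by linarith)]
    exact hlogN1pos
  have hsum : 2 * (N1 * LMf N1) + F ≤ A := by nlinarith
  have hE1 : C₁ * Q / Real.log N1 ^ (C + K' + 2) * (2 * (N1 * LMf N1) + F) ≤
      (A ^ K')⁻¹ / 4 := by
    have h13 : C₁ * Q / Real.log N1 ^ (C + K' + 2) ≤
        C₁ * A ^ C / (A ^ (C + K' + 2) / 2 ^ (C + K' + 2)) := by
      apply div_le_div₀ (by positivity) (mul_le_mul_of_nonneg_left hQC hC₁.le) (by positivity) hpow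
    have h14 : 0 ≤ 2 * (N1 * LMf N1) + F := by
      have := LMf_nonneg N1
      positivity
    refine (mul_le_mul h13 hsum h14 (by positivity)).trans ?_
    have h15 : C₁ * A ^ C / (A ^ (C + K' + 2) / 2 ^ (C + K' + 2)) * A =
        (C₁ * 2 ^ (C + K' + 2) * 4) * (1 / 4) * ((A ^ K')⁻¹ * A⁻¹) := by
      have h17 : A ^ (C + K' + 2) = A ^ C * A ^ K' * A * A := by
        rw [pow_add, pow_add]
        ring
      rw [h17]
      field_simp
    rw [h15]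
    have h18 : C₁ * 2 ^ (C + K' + 2) * 4 * (1 / 4) * ((A ^ K')⁻¹ * A⁻¹) ≤ A * (1 / 4) *
        ((A ^ K')⁻¹ * A⁻¹) := by
      apply mul_le_mul_of_nonneg_right _ (by positivity)
      linarith
    refine h18.trans (le_of_eq ?_)
    field_simp
  -- second part
  have hφ : (1 : ℝ) ≤ Q.totient := by exact_mod_cast Nat.totient_pos.2 (by omega)
  have hE2 : |F / Q.totient - κ * Real.log A / Q.totient| ≤ (A ^ K')⁻¹ / 2 := by
    rw [← sub_div, abs_div, abs_of_pos (by linarith : (0 : ℝ) < Q.totient)]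
    refine (div_le_self (abs_nonneg _) hφ).trans (h8.trans ?_)
    have h19 : 2 * A ^ K' ≤ N1 := by
      have h20 : A ^ (K' + 1) = A ^ K' * A := pow_succ _ _
      have h21 : 1 ≤ A ^ K' := one_le_pow₀ (by linarith)
      rw [h20] at h2
      nlinarith
    have h22 : (1 : ℝ) / N1 ≤ 1 / (2 * A ^ K') :=
      one_div_le_one_div_of_le (by positivity) h19
    refine h22.trans (le_of_eq ?_)
    field_simp
  have hK0 : 0 < (A ^ K')⁻¹ := by positivity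
  have h23 := abs_le.1 (h9.trans hE1)
  have h24 := abs_le.1 hE2
  rw [abs_le]
  constructor <;> linarith [h23.1, h23.2, h24.1, h24.2]

private theorem qs1_filt (κ A : ℝ) (Q : ℕ) :
    (CW A κ).filter (fun w => Q ∣ w - 1) = (CW A κ).filter (fun w => w ≡ 1 [MOD Q]) := by
  apply filter_congr
  intro w hw
  simp only [CW, mem_filter, mem_Icc] at hw
  rw [Nat.ModEq.comm, Nat.modEq_iff_dvd' hw.1.1]

theorem cell_ap (κ : ℝ) (hκ : 0 < κ) (hκ1 : κ ≤ 1 / 100) (C : ℕ) : ∃ A0 : ℝ, ∀ A : ℝ,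
    A0 ≤ A → ∀ Q : ℕ, 1 ≤ Q → (Q : ℝ) ≤ A ^ C →
    ∑ w ∈ (CW A κ).filter (fun w => Q ∣ w - 1), 1 / (w : ℝ) ≤ Real.log A / Q.totient := by
  obtain ⟨A0, hA0⟩ := mert_cell κ hκ hκ1 C C
  refine ⟨max A0 (Real.exp 2), fun A hA Q hQ hQC => ?_⟩
  have h1 := hA0 A ((le_max_left _ _).trans hA) Q 1 hQ hQC (Nat.coprime_one_left Q)
  have hAe : Real.exp 2 ≤ A := (le_max_right _ _).trans hA
  have hApos : 0 < A := (Real.exp_pos 2).trans_le hAe
  have hlog : 2 ≤ Real.log A := by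
    rw [Real.le_log_iff_exp_le hApos]
    exact hAe
  have hφ : (0 : ℝ) < Q.totient := by exact_mod_cast Nat.totient_pos.2 (by omega)
  have hφQ : (Q.totient : ℝ) ≤ A ^ C := le_trans (by exact_mod_cast Nat.totient_le Q) hQC
  rw [qs1_filt]
  have h2 := (abs_le.1 h1).2
  have h3 : (A ^ C)⁻¹ ≤ 1 / Q.totient := by
    rw [← one_div]
    exact one_div_le_one_div_of_le hφ hφQ
  have h4 : κ * Real.log A / Q.totient + 1 / Q.totient ≤ Real.log A / Q.totient := by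
    rw [← add_div]
    apply div_le_div_of_nonneg_right _ hφ.le
    nlinarith
  linarith

theorem cell_le (κ : ℝ) (hκ : 0 < κ) (hκ1 : κ ≤ 1 / 100) : ∃ A0 : ℝ, ∀ A : ℝ, A0 ≤ A →
    ∑ w ∈ CW A κ, 1 / (w : ℝ) ≤ Real.log A := by
  obtain ⟨A0, hA0⟩ := cell_ap κ hκ hκ1 0
  refine ⟨A0, fun A hA => ?_⟩
  have h1 := hA0 A hA 1 le_rfl (by simp)
  have h2 : (CW A κ).filter (fun w => 1 ∣ w - 1) = CW A κ := by
    apply filter_true_of_mem
    intro w _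
    exact one_dvd _
  rw [h2] at h1
  simpa using h1

theorem cell_triv (κ A : ℝ) (hκ : 0 < κ) (hA : 1 ≤ A) (Q : ℕ) (hQ : 1 ≤ Q) :
    ∑ w ∈ (CW A κ).filter (fun w => Q ∣ w - 1), 1 / (w : ℝ) ≤ 2 * A ^ (1 + κ) / Q := by
  have hQ0 : (0 : ℝ) < Q := by exact_mod_cast hQ
  have hpow1 : 1 ≤ A ^ (1 + κ) := Real.one_le_rpow hA (by linarith)
  have hN1 : 1 ≤ ⌊Real.exp (A ^ (1 + κ))⌋₊ := Nat.le_floor (by
    push_cast
    exact Real.one_le_exp (by linarith))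
  have hNle := Nat.floor_le (Real.exp_pos (A ^ (1 + κ))).le
  have hmem : ∀ w ∈ (CW A κ).filter (fun w => Q ∣ w - 1),
      2 ≤ w ∧ w ≤ ⌊Real.exp (A ^ (1 + κ))⌋₊ ∧ Q ∣ w - 1 := by
    intro w hw
    simp only [CW, mem_filter, mem_Icc, Cell] at hw
    exact ⟨hw.1.2.1.two_le, hw.1.1.2, hw.2⟩
  have hinj : Set.InjOn (fun w => (w - 1) / Q)
      (((CW A κ).filter (fun w => Q ∣ w - 1) : Finset ℕ) : Set ℕ) := by
    intro u hu v hv huv
    obtain ⟨hu2, -, hud⟩ := hmem u (mem_coe.1 hu)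
    obtain ⟨hv2, -, hvd⟩ := hmem v (mem_coe.1 hv)
    simp only at huv
    have h1 := Nat.div_mul_cancel hud
    have h2 := Nat.div_mul_cancel hvd
    rw [huv, h2] at h1
    omega
  have h1 : ∑ w ∈ (CW A κ).filter (fun w => Q ∣ w - 1), 1 / (w : ℝ) ≤
      ∑ w ∈ (CW A κ).filter (fun w => Q ∣ w - 1), (1 / (Q : ℝ)) * (1 / (((w - 1) / Q : ℕ) : ℝ)) := by
    apply sum_le_sum
    intro w hw
    obtain ⟨hw2, -, hwd⟩ := hmem w hw
    have h2 := Nat.div_mul_cancel hwd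
    have h3 : 1 ≤ (w - 1) / Q := by
      rcases Nat.eq_zero_or_pos ((w - 1) / Q) with h | h
      · rw [h, zero_mul] at h2
        omega
      · exact h
    have h4 : (0 : ℝ) < (((w - 1) / Q : ℕ) : ℝ) := by exact_mod_cast h3
    rw [one_div_mul_one_div]
    apply one_div_le_one_div_of_le (by positivity)
    have h5 : Q * ((w - 1) / Q) ≤ w := by
      rw [mul_comm, h2]
      omega
    exact_mod_cast h5
  have h6 : ∑ w ∈ (CW A κ).filter (fun w => Q ∣ w - 1), (1 / (Q : ℝ)) * (1 / (((w - 1) / Q : ℕ) : ℝ)) =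
      (1 / (Q : ℝ)) * ∑ k ∈ ((CW A κ).filter (fun w => Q ∣ w - 1)).image (fun w => (w - 1) / Q),
        1 / (k : ℝ) := by
    rw [sum_image hinj, mul_sum]
  have h7 : ∑ k ∈ ((CW A κ).filter (fun w => Q ∣ w - 1)).image (fun w => (w - 1) / Q),
        1 / (k : ℝ) ≤ ∑ k ∈ Icc 1 ⌊Real.exp (A ^ (1 + κ))⌋₊, 1 / (k : ℝ) := by
    apply sum_le_sum_of_subset_of_nonneg
    · intro k hk
      obtain ⟨w, hw, rfl⟩ := mem_image.1 hk
      obtain ⟨hw2, hwN, hwd⟩ := hmem w hw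
      have h2 := Nat.div_mul_cancel hwd
      rw [mem_Icc]
      constructor
      · rcases Nat.eq_zero_or_pos ((w - 1) / Q) with h | h
        · rw [h, zero_mul] at h2
          omega
        · exact h
      · have := Nat.div_le_self (w - 1) Q
        omega
    · intro k _ _
      positivity
  have h8 : ∑ k ∈ Icc 1 ⌊Real.exp (A ^ (1 + κ))⌋₊, 1 / (k : ℝ) ≤ 1 + A ^ (1 + κ) := by
    have h9 := harmonic_le_one_add_log ⌊Real.exp (A ^ (1 + κ))⌋₊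
    have h10 : ((harmonic ⌊Real.exp (A ^ (1 + κ))⌋₊ : ℚ) : ℝ) =
        ∑ k ∈ Icc 1 ⌊Real.exp (A ^ (1 + κ))⌋₊, 1 / (k : ℝ) := by
      rw [harmonic_eq_sum_Icc]
      push_cast
      simp
    rw [← h10]
    have h11 : Real.log (⌊Real.exp (A ^ (1 + κ))⌋₊ : ℝ) ≤ A ^ (1 + κ) := by
      rw [Real.log_le_iff_le_exp (by exact_mod_cast hN1)]
      exact hNle
    linarith
  refine h1.trans ?_
  rw [h6]
  calc 1 / (Q : ℝ) * ∑ k ∈ ((CW A κ).filter (fun w => Q ∣ w - 1)).image (fun w => (w - 1) / Q),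
        1 / (k : ℝ) ≤ 1 / (Q : ℝ) * (2 * A ^ (1 + κ)) :=
        mul_le_mul_of_nonneg_left (by linarith) (by positivity)
    _ = 2 * A ^ (1 + κ) / Q := by ring

end Pool.Agent.Lib.MP_79499b_co.QZ
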