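import Pool.Agent.Lib.MP_79499b_co.DZ.LV
import Pool.Agent.Lib.MP_79499b_co.QZ.QS1

/-!
# QS2: the smooth part of `w - 1` is usually small

`typ_sum`: for large `A` and `2 ≤ y ≤ A^(1/2)`: `∑ 1/w ≤ C (1 + log y)^2` over the `w ∈ CW A κ` with `A^κ < (sm y (w-1))^2`.

Proof. `log sm y (w-1) = ∑_{l ≤ y prime} ∑_{j ≥ 1, l^j ∣ w-1} log l` (`w ≥ 2`; `j ≤ log2 w`). Hence
`∑_w (1/w) log sm y (w-1) = ∑_{l ≤ y} log l ∑_{j ≥ 1} ∑_{w ∈ CW, l^j ∣ w-1} 1/w`. For `l^j ≤ A^6`: `≤ log A/φ(l^j) ≤ 2 log A/l^j`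
(`cell_ap` with `C = 6`), and `∑_j l^(-j) ≤ 2/l`; for `l^j > A^6`: `≤ 2 A^(1+κ)/l^j` (`cell_triv`), at most `2 A^(1+κ)` values of `j`.
So the sum is at most `∑_{l ≤ y} log l (4 log A/l + 4/A^2) ≤ 8 log A (1 + log y)^2`
(`∑_{l ≤ y} log l/l ≤ log y ∑_{n ≤ y} 1/n`). For the `w` in question
`log sm > (κ/2) log A`, so (Markov) `∑ 1/w ≤ (16/κ) (1 + log y)^2`.

`rec_sum`: for large `A`, `1 ≤ y ≤ A^(1/2)`: `∑_{w ∈ CW} (1/w) ∑_{l ∣ w-1, l > y} 1/l ≤ 8 log A/y`.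
Proof. Exchange: `∑_{l > y} (1/l) ∑_{w ∈ CW, l ∣ w-1} 1/w`, the primes `l ≤ A^2` give at most
`∑_{l > y} (1/l) (2 log A/l) ≤ 4 log A/y` (`cell_ap`, `φ(l) = l - 1 ≥ l/2`, `LV_tail`), the others
`∑_{l > A^2} (1/l) (2 A^(1+κ)/l) ≤ 4 A^(κ-1) ≤ 4 log A/y`.
-/

set_option autoImplicit false

namespace Pool.Agent.Lib.MP_79499b_co.QZ

open Finset DZ

/-- the sum of `1/w` over the `w` of the cell with `Q ∣ w - 1` -/
private noncomputable def q2U (A κ : ℝ) (Q : ℕ) : ℝ :=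
  ∑ w ∈ (CW A κ).filter (fun w => Q ∣ w - 1), 1 / (w : ℝ)

private theorem q2_tot {l j : ℕ} (hl : l.Prime) (hj : 1 ≤ j) :
    ((l ^ j : ℕ) : ℝ) ≤ 2 * ((l ^ j).totient : ℝ) := by
  rw [Nat.totient_prime_pow hl (by omega)]
  have h1 : l ^ j = l ^ (j - 1) * l := by
    rw [← pow_succ]
    congr 1
    omega
  have h2 : l ≤ 2 * (l - 1) := by
    have := hl.two_le
    omega
  have h3 : l ^ j ≤ 2 * (l ^ (j - 1) * (l - 1)) := by
    calc l ^ j = l ^ (j - 1) * l := h1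
      _ ≤ l ^ (j - 1) * (2 * (l - 1)) := Nat.mul_le_mul_left _ h2
      _ = _ := by ring
  exact_mod_cast h3

private theorem q2_bound (κ : ℝ) (hκ : 0 < κ) (hκ1 : κ ≤ 1 / 100) (C : ℕ) : ∃ A0 : ℝ, 1 ≤ A0 ∧
    ∀ A : ℝ, A0 ≤ A → ∀ l j : ℕ, l.Prime → 1 ≤ j →
      q2U A κ (l ^ j) ≤ 2 * Real.log A / ((l ^ j : ℕ) : ℝ) +
        (if A ^ C < ((l ^ j : ℕ) : ℝ) then 2 * A ^ (1 + κ) / ((l ^ j : ℕ) : ℝ) else 0) := by
  obtain ⟨A1, h1⟩ := cell_ap κ hκ hκ1 C
  refine ⟨max A1 1, le_max_right _ _, fun A hA l j hl hj => ?_⟩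
  have hA1 : A1 ≤ A := (le_max_left _ _).trans hA
  have hA2 : 1 ≤ A := (le_max_right _ _).trans hA
  have hA0 : 0 < A := by linarith
  have hlog : 0 ≤ Real.log A := Real.log_nonneg hA2
  have hQ : 1 ≤ l ^ j := Nat.one_le_pow _ _ hl.pos
  have hQ0 : (0 : ℝ) < ((l ^ j : ℕ) : ℝ) := by exact_mod_cast hQ
  rcases le_or_gt ((l ^ j : ℕ) : ℝ) (A ^ C) with h | h
  · have h2 := h1 A hA1 (l ^ j) hQ h
    have h3 := q2_tot hl hj
    have h4 : Real.log A / ((l ^ j).totient : ℝ) ≤ 2 * Real.log A / ((l ^ j : ℕ) : ℝ) := by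
      have h5 : (0 : ℝ) < ((l ^ j).totient : ℝ) := by
        have := Nat.totient_pos.2 (show 0 < l ^ j by omega)
        exact_mod_cast this
      rw [div_le_div_iff₀ h5 hQ0]
      nlinarith
    rw [if_neg (not_lt.2 h), add_zero]
    unfold q2U
    linarith
  · have h2 := cell_triv κ A hκ hA2 (l ^ j) hQ
    have h4 : 0 ≤ 2 * Real.log A / ((l ^ j : ℕ) : ℝ) := by positivity
    rw [if_pos h]
    unfold q2U
    linarith

private theorem q2_geom {l : ℕ} (hl : 2 ≤ l) (J : ℕ) :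
    ∑ j ∈ Ico 1 (J + 1), 1 / ((l ^ j : ℕ) : ℝ) ≤ 2 / l := by
  have hl2 : (2 : ℝ) ≤ l := by exact_mod_cast hl
  have hl0 : (0 : ℝ) < l := by linarith
  have h1 := geom_sum_Ico_le_of_lt_one (x := 1 / (l : ℝ)) (m := 1) (n := J + 1) (by positivity)
    (by rw [div_lt_one hl0]; linarith)
  have h2 : ∑ j ∈ Ico 1 (J + 1), 1 / ((l ^ j : ℕ) : ℝ) = ∑ j ∈ Ico 1 (J + 1), (1 / (l : ℝ)) ^ j := by
    refine sum_congr rfl fun j _ => ?_
    push_cast
    rw [one_div_pow]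
  rw [h2]
  refine h1.trans ?_
  rw [pow_one, div_div, mul_sub, mul_one, mul_one_div_cancel hl0.ne']
  rw [div_le_div_iff₀ (by linarith) hl0]
  linarith

/-- the logarithm of the smooth part -/
private theorem q2_logsm {y n J : ℕ} (hn : n ≠ 0)
    (hJ : ∀ l : ℕ, l.Prime → n.factorization l ≤ J) :
    Real.log (EO.sm y n) ≤ ∑ l ∈ (Icc 1 y).filter Nat.Prime, Real.log l *
      ∑ j ∈ Ico 1 (J + 1), (if l ^ j ∣ n then (1 : ℝ) else 0) := by
  unfold EO.sm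
  push_cast
  rw [Real.log_prod]
  · have h1 : ∀ l ∈ n.primeFactors.filter (fun p => p ≤ y),
        Real.log ((l : ℝ) ^ n.factorization l) ≤
        Real.log l * ∑ j ∈ Ico 1 (J + 1), (if l ^ j ∣ n then (1 : ℝ) else 0) := by
      intro l hl
      rw [mem_filter, Nat.mem_primeFactors] at hl
      have hp := hl.1.1
      rw [Real.log_pow, mul_comm]
      have hl0 : 0 ≤ Real.log (l : ℝ) := Real.log_nonneg (by exact_mod_cast hp.one_lt.le)
      refine mul_le_mul_of_nonneg_left ?_ hl0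
      rw [← sum_filter, sum_const, nsmul_eq_mul, mul_one]
      have h2 : Ico 1 (n.factorization l + 1) ⊆ (Ico 1 (J + 1)).filter (fun j => l ^ j ∣ n) := by
        intro j hj
        rw [mem_Ico] at hj
        have h3 := hJ l hp
        rw [mem_filter, mem_Ico]
        refine ⟨⟨hj.1, by omega⟩, ?_⟩
        exact (pow_dvd_pow l (show j ≤ n.factorization l by omega)).trans (Nat.ordProj_dvd n l)
      have h4 := card_le_card h2
      rw [Nat.card_Ico] at h4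
      have h5 : n.factorization l ≤ ((Ico 1 (J + 1)).filter (fun j => l ^ j ∣ n)).card := by omega
      exact_mod_cast h5
    refine (sum_le_sum h1).trans ?_
    refine sum_le_sum_of_subset_of_nonneg ?_ ?_
    · intro l hl
      rw [mem_filter, Nat.mem_primeFactors] at hl
      rw [mem_filter, mem_Icc]
      exact ⟨⟨hl.1.1.one_lt.le, hl.2⟩, hl.1.1⟩
    · intro l hl _
      rw [mem_filter, mem_Icc] at hl
      have hl0 : 0 ≤ Real.log (l : ℝ) := Real.log_nonneg (by exact_mod_cast hl.1.1)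
      refine mul_nonneg hl0 (sum_nonneg fun j _ => ?_)
      split_ifs <;> norm_num
  · intro l hl
    rw [mem_filter, Nat.mem_primeFactors] at hl
    have : (0 : ℝ) < l := by exact_mod_cast hl.1.1.pos
    positivity

open scoped Classical in
private theorem q2_mem {A κ : ℝ} {w : ℕ} (h : w ∈ CW A κ) : Cell A κ w := by
  unfold CW at h
  exact (mem_filter.1 h).2

private theorem q2_vJ {A κ : ℝ} {w : ℕ} (hw : Cell A κ w) (l : ℕ)
    (hl : l.Prime) : (w - 1).factorization l ≤ ⌊2 * A ^ (1 + κ)⌋₊ := by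
  have hw1 := hw.1.one_lt
  have h1 : l ^ (w - 1).factorization l ≤ w - 1 :=
    Nat.le_of_dvd (by omega) (Nat.ordProj_dvd (w - 1) l)
  have h2 : 2 ^ (w - 1).factorization l ≤ w :=
    (Nat.pow_le_pow_left hl.two_le _).trans (h1.trans (by omega))
  have h3 : ((2 : ℝ)) ^ (w - 1).factorization l ≤ Real.exp (A ^ (1 + κ)) := by
    refine le_trans ?_ hw.2.2
    exact_mod_cast h2
  have h4 : ((w - 1).factorization l : ℝ) * Real.log 2 ≤ A ^ (1 + κ) := by
    have h5 := Real.log_le_log (by positivity) h3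
    rwa [Real.log_exp, Real.log_pow] at h5
  apply Nat.le_floor
  have h6 := Real.log_two_gt_d9
  have h7 : (0 : ℝ) ≤ ((w - 1).factorization l : ℝ) := by positivity
  nlinarith

/-- `∑ (1/w) log sm` over the cell -/
private theorem q2_T (κ : ℝ) (hκ : 0 < κ) (hκ1 : κ ≤ 1 / 100) : ∃ A0 : ℝ, ∀ A : ℝ, A0 ≤ A →
    1 ≤ Real.log A ∧ ∀ y : ℕ, 2 ≤ y → (y : ℝ) ≤ A ^ (1 / 2 : ℝ) →
    ∑ w ∈ CW A κ, (1 / (w : ℝ)) * Real.log (EO.sm y (w - 1)) ≤
      8 * Real.log A * (1 + Real.log y) ^ 2 := by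
  obtain ⟨A1, hA11, h1⟩ := q2_bound κ hκ hκ1 6
  refine ⟨max A1 (Real.exp 1), fun A hA => ?_⟩
  have hA1 : A1 ≤ A := (le_max_left _ _).trans hA
  have hA2 : Real.exp 1 ≤ A := (le_max_right _ _).trans hA
  have hA3 : 1 ≤ A := hA11.trans hA1
  have hA0 : 0 < A := by linarith
  have hlog : 1 ≤ Real.log A := by
    rw [Real.le_log_iff_exp_le hA0]
    exact hA2
  refine ⟨hlog, fun y hy hyA => ?_⟩
  have hAκ : A ^ (1 + κ) ≤ A ^ 2 := by
    rw [← Real.rpow_natCast A 2]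
    refine Real.rpow_le_rpow_of_exponent_le hA3 ?_
    push_cast
    linarith
  have hAκ0 : 0 < A ^ (1 + κ) := Real.rpow_pos_of_pos hA0 _
  obtain ⟨J, hJ⟩ : ∃ J : ℕ, J = ⌊2 * A ^ (1 + κ)⌋₊ := ⟨_, rfl⟩
  have hJ2 : (J : ℝ) ≤ 2 * A ^ (1 + κ) := by
    rw [hJ]
    exact Nat.floor_le (by positivity)
  have hy1 : (1 : ℝ) ≤ y := by exact_mod_cast (show 1 ≤ y by omega)
  have hly : 0 ≤ Real.log (y : ℝ) := Real.log_nonneg hy1
  -- exchange
  have h2 : ∑ w ∈ CW A κ, (1 / (w : ℝ)) * Real.log (EO.sm y (w - 1)) ≤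
      ∑ l ∈ (Icc 1 y).filter Nat.Prime, Real.log l * ∑ j ∈ Ico 1 (J + 1), q2U A κ (l ^ j) := by
    have h3 : ∀ w ∈ CW A κ, (1 / (w : ℝ)) * Real.log (EO.sm y (w - 1)) ≤
        ∑ l ∈ (Icc 1 y).filter Nat.Prime, Real.log l *
          ∑ j ∈ Ico 1 (J + 1), (if l ^ j ∣ w - 1 then 1 / (w : ℝ) else 0) := by
      intro w hw
      replace hw := q2_mem hw
      have hw1 := hw.1.one_lt
      have h4 := q2_logsm (y := y) (n := w - 1) (J := J) (by omega)
        (fun l hl => by rw [hJ]; exact q2_vJ hw l hl)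
      have h5 : (0 : ℝ) ≤ 1 / (w : ℝ) := by positivity
      refine (mul_le_mul_of_nonneg_left h4 h5).trans (le_of_eq ?_)
      rw [mul_sum]
      refine sum_congr rfl fun l _ => ?_
      rw [mul_left_comm, mul_sum]
      congr 1
      refine sum_congr rfl fun j _ => ?_
      split_ifs
      · rw [mul_one]
      · rw [mul_zero]
    refine (sum_le_sum h3).trans (le_of_eq ?_)
    rw [sum_comm]
    refine sum_congr rfl fun l _ => ?_
    rw [← mul_sum, sum_comm]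
    congr 1
    refine sum_congr rfl fun j _ => ?_
    unfold q2U
    rw [sum_filter]
  refine h2.trans ?_
  have h6 : ∀ l ∈ (Icc 1 y).filter Nat.Prime, Real.log l * ∑ j ∈ Ico 1 (J + 1), q2U A κ (l ^ j) ≤
      4 * Real.log A * (Real.log y * (1 / (l : ℝ))) + Real.log y * (4 / A ^ 2) := by
    intro l hl
    rw [mem_filter, mem_Icc] at hl
    have hl2 := hl.2.two_le
    have hl0 : (0 : ℝ) < l := by exact_mod_cast hl.2.pos
    have hll : 0 ≤ Real.log (l : ℝ) := Real.log_nonneg (by exact_mod_cast hl.1.1)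
    have hly' : Real.log (l : ℝ) ≤ Real.log y :=
      Real.log_le_log hl0 (by exact_mod_cast hl.1.2)
    have h7 : ∀ j ∈ Ico 1 (J + 1), q2U A κ (l ^ j) ≤
        2 * Real.log A * (1 / ((l ^ j : ℕ) : ℝ)) + 2 * A ^ (1 + κ) / A ^ 6 := by
      intro j hj
      rw [mem_Ico] at hj
      have h8 := h1 A hA1 l j hl.2 hj.1
      have h9 : (if A ^ 6 < ((l ^ j : ℕ) : ℝ) then 2 * A ^ (1 + κ) / ((l ^ j : ℕ) : ℝ) else 0) ≤
          2 * A ^ (1 + κ) / A ^ 6 := by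
        split_ifs with h
        · exact div_le_div_of_nonneg_left (by positivity) (by positivity) h.le
        · positivity
      have h10 : 2 * Real.log A / ((l ^ j : ℕ) : ℝ) = 2 * Real.log A * (1 / ((l ^ j : ℕ) : ℝ)) := by
        ring
      linarith
    have h8 : ∑ j ∈ Ico 1 (J + 1), q2U A κ (l ^ j) ≤ 4 * Real.log A * (1 / (l : ℝ)) + 4 / A ^ 2 := by
      refine (sum_le_sum h7).trans ?_
      rw [sum_add_distrib, ← mul_sum, sum_const, Nat.card_Ico, Nat.add_sub_cancel, nsmul_eq_mul]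
      have h9 := q2_geom hl2 J
      have h10 : 2 * Real.log A * ∑ j ∈ Ico 1 (J + 1), 1 / ((l ^ j : ℕ) : ℝ) ≤
          2 * Real.log A * (2 / l) := mul_le_mul_of_nonneg_left h9 (by linarith)
      have h11 : (J : ℝ) * (2 * A ^ (1 + κ) / A ^ 6) ≤ 4 / A ^ 2 := by
        have h12 : (J : ℝ) ≤ 2 * A ^ 2 := by linarith
        have h13 : 2 * A ^ (1 + κ) / A ^ 6 ≤ 2 * A ^ 2 / A ^ 6 :=
          div_le_div_of_nonneg_right (by linarith) (by positivity)
        calc (J : ℝ) * (2 * A ^ (1 + κ) / A ^ 6) ≤ 2 * A ^ 2 * (2 * A ^ 2 / A ^ 6) :=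
              mul_le_mul h12 h13 (by positivity) (by positivity)
          _ = 4 / A ^ 2 := by
              field_simp
              ring
      have h14 : 2 * Real.log A * (2 / (l : ℝ)) = 4 * Real.log A * (1 / (l : ℝ)) := by ring
      linarith
    have h15 : 0 ≤ 4 * Real.log A * (1 / (l : ℝ)) + 4 / A ^ 2 := by positivity
    calc Real.log l * ∑ j ∈ Ico 1 (J + 1), q2U A κ (l ^ j)
        ≤ Real.log l * (4 * Real.log A * (1 / (l : ℝ)) + 4 / A ^ 2) :=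
          mul_le_mul_of_nonneg_left h8 hll
      _ ≤ Real.log y * (4 * Real.log A * (1 / (l : ℝ)) + 4 / A ^ 2) :=
          mul_le_mul_of_nonneg_right hly' h15
      _ = _ := by ring
  refine (sum_le_sum h6).trans ?_
  have h16 : ∑ l ∈ (Icc 1 y).filter Nat.Prime,
      (4 * Real.log A * (Real.log y * (1 / (l : ℝ))) + Real.log y * (4 / A ^ 2)) ≤
      ∑ l ∈ Icc 1 y,
      (4 * Real.log A * (Real.log y * (1 / (l : ℝ))) + Real.log y * (4 / A ^ 2)) :=
    sum_le_sum_of_subset_of_nonneg (filter_subset _ _) fun _ _ _ => by positivity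
  refine h16.trans ?_
  rw [sum_add_distrib, ← mul_sum, ← mul_sum, sum_const, Nat.card_Icc, Nat.add_sub_cancel,
    nsmul_eq_mul]
  have h17 := harm_le y
  have h18 : 4 * Real.log A * (Real.log y * ∑ l ∈ Icc 1 y, 1 / (l : ℝ)) ≤
      4 * Real.log A * (1 + Real.log y) ^ 2 := by
    refine mul_le_mul_of_nonneg_left ?_ (by linarith)
    calc Real.log y * ∑ l ∈ Icc 1 y, 1 / (l : ℝ) ≤ Real.log y * (1 + Real.log y) :=
          mul_le_mul_of_nonneg_left h17 hly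
      _ ≤ _ := by nlinarith
  have h19 : (y : ℝ) * (Real.log y * (4 / A ^ 2)) ≤ 4 * Real.log A * (1 + Real.log y) ^ 2 := by
    have h20 : (y : ℝ) ≤ A ^ 2 := by
      refine hyA.trans ?_
      rw [← Real.rpow_natCast A 2]
      refine Real.rpow_le_rpow_of_exponent_le hA3 ?_
      norm_num
    have h21 : (y : ℝ) * (Real.log y * (4 / A ^ 2)) = 4 * Real.log y * ((y : ℝ) / A ^ 2) := by ring
    rw [h21]
    have h22 : (y : ℝ) / A ^ 2 ≤ 1 := by
      rw [div_le_one (by positivity)]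
      exact h20
    have h23 : 4 * Real.log y * ((y : ℝ) / A ^ 2) ≤ 4 * Real.log y * 1 :=
      mul_le_mul_of_nonneg_left h22 (by linarith)
    have h24 : Real.log y ≤ (1 + Real.log y) ^ 2 := by nlinarith
    have h25 : (1 + Real.log y) ^ 2 ≤ Real.log A * (1 + Real.log y) ^ 2 :=
      le_mul_of_one_le_left (by positivity) hlog
    nlinarith
  linarith

theorem typ_sum (κ : ℝ) (hκ : 0 < κ) (hκ1 : κ ≤ 1 / 100) : ∃ C A0 : ℝ, 0 < C ∧ ∀ A : ℝ, A0 ≤ A →
    ∀ y : ℕ, 2 ≤ y → (y : ℝ) ≤ A ^ (1 / 2 : ℝ) →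
    ∑ w ∈ (CW A κ).filter (fun w => A ^ κ < (EO.sm y (w - 1) : ℝ) ^ 2), 1 / (w : ℝ) ≤
      C * (1 + Real.log y) ^ 2 := by
  obtain ⟨A1, h1⟩ := q2_T κ hκ hκ1
  refine ⟨16 / κ, max A1 1, by positivity, fun A hA y hy hyA => ?_⟩
  have hA1 : A1 ≤ A := (le_max_left _ _).trans hA
  have hA2 : 1 ≤ A := (le_max_right _ _).trans hA
  have hA0 : 0 < A := by linarith
  obtain ⟨hlog, h2⟩ := h1 A hA1
  have h3 := h2 y hy hyA
  have hl0 : 0 < Real.log A := by linarith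
  have hsm : ∀ n : ℕ, (1 : ℝ) ≤ EO.sm y n := by
    intro n
    have : 1 ≤ EO.sm y n := by
      unfold EO.sm
      refine Nat.one_le_iff_ne_zero.2 (prod_ne_zero_iff.2 fun p hp => ?_)
      rw [mem_filter, Nat.mem_primeFactors] at hp
      exact pow_ne_zero _ hp.1.1.ne_zero
    exact_mod_cast this
  have h4 : ∀ w ∈ (CW A κ).filter (fun w => A ^ κ < (EO.sm y (w - 1) : ℝ) ^ 2),
      1 / (w : ℝ) ≤ 2 / (κ * Real.log A) * ((1 / (w : ℝ)) * Real.log (EO.sm y (w - 1))) := by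
    intro w hw
    rw [mem_filter] at hw
    have h5 : κ * Real.log A < 2 * Real.log (EO.sm y (w - 1)) := by
      have h6 := Real.log_lt_log (Real.rpow_pos_of_pos hA0 κ) hw.2
      rwa [Real.log_rpow hA0, Real.log_pow] at h6
    have h7 : 1 ≤ 2 / (κ * Real.log A) * Real.log (EO.sm y (w - 1)) := by
      rw [div_mul_eq_mul_div, one_le_div (by positivity)]
      exact h5.le
    have h8 : (0 : ℝ) ≤ 1 / (w : ℝ) := by positivity
    calc 1 / (w : ℝ) = 1 / (w : ℝ) * 1 := (mul_one _).symm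
      _ ≤ 1 / (w : ℝ) * (2 / (κ * Real.log A) * Real.log (EO.sm y (w - 1))) :=
          mul_le_mul_of_nonneg_left h7 h8
      _ = _ := by ring
  refine (sum_le_sum h4).trans ?_
  rw [← mul_sum]
  have h9 : ∑ w ∈ (CW A κ).filter (fun w => A ^ κ < (EO.sm y (w - 1) : ℝ) ^ 2),
      (1 / (w : ℝ)) * Real.log (EO.sm y (w - 1)) ≤
      ∑ w ∈ CW A κ, (1 / (w : ℝ)) * Real.log (EO.sm y (w - 1)) := by
    refine sum_le_sum_of_subset_of_nonneg (filter_subset _ _) fun w _ _ => ?_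
    have := Real.log_nonneg (hsm (w - 1))
    positivity
  have h10 : 0 ≤ 2 / (κ * Real.log A) := by positivity
  calc 2 / (κ * Real.log A) * ∑ w ∈ (CW A κ).filter (fun w => A ^ κ < (EO.sm y (w - 1) : ℝ) ^ 2),
        (1 / (w : ℝ)) * Real.log (EO.sm y (w - 1))
      ≤ 2 / (κ * Real.log A) * (8 * Real.log A * (1 + Real.log y) ^ 2) :=
        mul_le_mul_of_nonneg_left (h9.trans h3) h10
    _ = 16 / κ * (1 + Real.log y) ^ 2 := by
        field_simp
        ring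

theorem rec_sum (κ : ℝ) (hκ : 0 < κ) (hκ1 : κ ≤ 1 / 100) : ∃ A0 : ℝ, ∀ A : ℝ, A0 ≤ A →
    ∀ y : ℕ, 1 ≤ y → (y : ℝ) ≤ A ^ (1 / 2 : ℝ) →
    ∑ w ∈ CW A κ, (1 / (w : ℝ)) * ∑ l ∈ (w - 1).primeFactors.filter (fun l => y < l), 1 / (l : ℝ) ≤
      8 * Real.log A / y := by
  obtain ⟨A1, hA11, h1⟩ := q2_bound κ hκ hκ1 2
  refine ⟨max A1 (Real.exp 1), fun A hA y hy hyA => ?_⟩
  have hA1 : A1 ≤ A := (le_max_left _ _).trans hA
  have hA2 : Real.exp 1 ≤ A := (le_max_right _ _).trans hA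
  have hA3 : 1 ≤ A := hA11.trans hA1
  have hA0 : 0 < A := by linarith
  have hlog : 1 ≤ Real.log A := by
    rw [Real.le_log_iff_exp_le hA0]
    exact hA2
  have hy1 : (1 : ℝ) ≤ y := by exact_mod_cast hy
  obtain ⟨N, hN⟩ : ∃ N : ℕ, N = ⌊Real.exp (A ^ (1 + κ))⌋₊ := ⟨_, rfl⟩
  have h2 : ∑ w ∈ CW A κ, (1 / (w : ℝ)) *
        ∑ l ∈ (w - 1).primeFactors.filter (fun l => y < l), 1 / (l : ℝ) ≤
      ∑ l ∈ ((Icc 1 N).filter (fun l : ℕ => (y : ℝ) < l)).filter Nat.Prime,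
        1 / (l : ℝ) * q2U A κ l := by
    have h8 : ∀ w ∈ CW A κ, (1 / (w : ℝ)) *
        ∑ l ∈ (w - 1).primeFactors.filter (fun l => y < l), 1 / (l : ℝ) ≤
        ∑ l ∈ ((Icc 1 N).filter (fun l : ℕ => (y : ℝ) < l)).filter Nat.Prime,
          (if l ∣ w - 1 then 1 / (l : ℝ) * (1 / (w : ℝ)) else 0) := by
      intro w hw
      replace hw := q2_mem hw
      rw [mul_sum, ← sum_filter]
      refine (sum_le_sum_of_subset_of_nonneg
        (t := (((Icc 1 N).filter (fun l : ℕ => (y : ℝ) < l)).filter Nat.Prime).filter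
        (fun l => l ∣ w - 1)) ?_ fun _ _ _ => by positivity).trans
        (le_of_eq (sum_congr rfl fun _ _ => mul_comm _ _))
      intro l hl
      rw [mem_filter, Nat.mem_primeFactors] at hl
      have hw1 := hw.1.one_lt
      have hle : l ≤ w - 1 := Nat.le_of_dvd (by omega) hl.1.2.1
      have hwf : w ≤ N := by
        rw [hN]
        exact Nat.le_floor hw.2.2
      rw [mem_filter, mem_filter, mem_filter, mem_Icc]
      exact ⟨⟨⟨⟨hl.1.1.one_lt.le, by omega⟩, by exact_mod_cast hl.2⟩, hl.1.1⟩, hl.1.2.1⟩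
    refine (sum_le_sum h8).trans (le_of_eq ?_)
    rw [sum_comm]
    refine sum_congr rfl fun l _ => ?_
    unfold q2U
    rw [mul_sum, ← sum_filter]
  refine h2.trans ?_
  have h3 : ∀ l ∈ ((Icc 1 N).filter (fun l : ℕ => (y : ℝ) < l)).filter Nat.Prime,
      1 / (l : ℝ) * q2U A κ l ≤ 2 * Real.log A * (1 / (l : ℝ) ^ 2) +
        (if A ^ 2 < (l : ℝ) then 2 * A ^ (1 + κ) * (1 / (l : ℝ) ^ 2) else 0) := by
    intro l hl
    rw [mem_filter] at hl
    have h4 := h1 A hA1 l 1 hl.2 le_rfl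
    rw [pow_one] at h4
    have hl0 : (0 : ℝ) < l := by exact_mod_cast hl.2.pos
    refine (mul_le_mul_of_nonneg_left h4 (by positivity)).trans (le_of_eq ?_)
    split_ifs
    · field_simp
    · rw [add_zero, add_zero]
      field_simp
  refine (sum_le_sum h3).trans ?_
  have h4 : ∑ l ∈ ((Icc 1 N).filter (fun l : ℕ => (y : ℝ) < l)).filter Nat.Prime,
      (2 * Real.log A * (1 / (l : ℝ) ^ 2) +
        (if A ^ 2 < (l : ℝ) then 2 * A ^ (1 + κ) * (1 / (l : ℝ) ^ 2) else 0)) ≤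
      2 * Real.log A * ∑ l ∈ (Icc 1 N).filter (fun l : ℕ => (y : ℝ) < l), 1 / (l : ℝ) ^ 2 +
      2 * A ^ (1 + κ) * ∑ l ∈ (Icc 1 N).filter (fun l : ℕ => A ^ 2 < (l : ℝ)), 1 / (l : ℝ) ^ 2 := by
    rw [sum_add_distrib, ← mul_sum, ← sum_filter, ← mul_sum]
    refine add_le_add (mul_le_mul_of_nonneg_left ?_ (by positivity))
      (mul_le_mul_of_nonneg_left ?_ (by positivity))
    · exact sum_le_sum_of_subset_of_nonneg (filter_subset _ _) fun _ _ _ => by positivity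
    · refine sum_le_sum_of_subset_of_nonneg ?_ fun _ _ _ => by positivity
      intro l hl
      rw [mem_filter, mem_filter, mem_filter] at hl
      rw [mem_filter]
      exact ⟨hl.1.1.1, hl.2⟩
  refine h4.trans ?_
  have h5 := LV_tail N (y : ℝ) hy1
  have h6 := LV_tail N (A ^ 2) (one_le_pow₀ hA3)
  have h7 : 2 * Real.log A * ∑ l ∈ (Icc 1 N).filter (fun l : ℕ => (y : ℝ) < l), 1 / (l : ℝ) ^ 2 ≤
      2 * Real.log A * (2 / y) := mul_le_mul_of_nonneg_left h5 (by linarith)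
  have h8 : 2 * A ^ (1 + κ) * ∑ l ∈ (Icc 1 N).filter (fun l : ℕ => A ^ 2 < (l : ℝ)),
      1 / (l : ℝ) ^ 2 ≤ 2 * A ^ (1 + κ) * (2 / A ^ 2) :=
    mul_le_mul_of_nonneg_left h6 (by positivity)
  have h9 : 2 * A ^ (1 + κ) * (2 / A ^ 2) ≤ 4 * Real.log A / y := by
    have hy0 : (0 : ℝ) < y := by linarith
    have h10 : (y : ℝ) * A ^ (1 + κ) ≤ A ^ 2 := by
      have h11 : (y : ℝ) * A ^ (1 + κ) ≤ A ^ (1 / 2 : ℝ) * A ^ (1 + κ) :=
        mul_le_mul_of_nonneg_right hyA (by positivity)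
      refine h11.trans ?_
      rw [← Real.rpow_add hA0, ← Real.rpow_natCast A 2]
      refine Real.rpow_le_rpow_of_exponent_le hA3 ?_
      push_cast
      linarith
    rw [show 2 * A ^ (1 + κ) * (2 / A ^ 2) = (4 * A ^ (1 + κ)) / A ^ 2 by ring,
      div_le_div_iff₀ (by positivity) hy0]
    have h12 : A ^ 2 ≤ Real.log A * A ^ 2 := le_mul_of_one_le_left (by positivity) hlog
    nlinarith
  have h13 : 2 * Real.log A * (2 / (y : ℝ)) = 4 * Real.log A / y := by ring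
  have h14 : 8 * Real.log A / (y : ℝ) = 4 * Real.log A / y + 4 * Real.log A / y := by ring
  linarith

end Pool.Agent.Lib.MP_79499b_co.QZ
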