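import Pool.Agent.Lib.MP_79499b_co.QZ.QS1

/-!
# QS3: small orders, and primes `w` with `w - 1` having a common factor with `v - 1`

`ord_sum`: `∑ 1/w ≤ Z^2 (B+1)^2 exp(-A)` over the `w ∈ CW A κ` with `¬ OrdBig Z B w`. Proof: such a `w` divides `p^i - 1 ≥ 1` for a
prime `p ≤ Z` and `1 ≤ i ≤ B`; a number `N ≥ 1` has at most `log2 N` prime factors, `log2 (p^i) ≤ i p`; so there are at most
`∑_{p ≤ Z} ∑_{i ≤ B} i p ≤ Z^2 (B+1)^2` such `w`, and `1/w ≤ exp(-A)`.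

`comp_sum`: for large `A`, `1 ≤ v ≤ exp A^(1+κ)`, `∑_{l ∣ v-1, l > y} 1/l ≤ δ`: the sum of `1/w` over the `w ∈ CW A κ` for which some
prime `l > y` divides `w - 1` and `v - 1` is at most `2 δ log A + A^(-1/2)`. (`v ≥ 2`.) Proof: at most the sum over the primes `l ∣ v-1`,
`l > y`, of `∑_{w ∈ CW, l ∣ w-1} 1/w`. For `l ≤ A^3` this is at most `log A/(l-1) ≤ 2 log A/l` (`cell_ap`): in total `2 δ log A`. For `l > A^3`
it is at most `2 A^(1+κ)/l ≤ 2 A^(κ-2)` (`cell_triv`), and there are at most `log2 v ≤ 2 A^(1+κ)` such `l`: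
`4 A^(2κ-1) ≤ A^(-1/2)`.
-/

set_option autoImplicit false

namespace Pool.Agent.Lib.MP_79499b_co.QZ

open Finset DZ
open scoped Classical

private theorem q3_two_pow {n : ℕ} (hn : n ≠ 0) : 2 ^ n.primeFactors.card ≤ n := by
  calc 2 ^ n.primeFactors.card = ∏ _p ∈ n.primeFactors, 2 := by rw [prod_const]
    _ ≤ ∏ p ∈ n.primeFactors, p :=
        prod_le_prod' fun p hp => (Nat.prime_of_mem_primeFactors hp).two_le
    _ ≤ n := Nat.le_of_dvd (Nat.pos_of_ne_zero hn) (Nat.prod_primeFactors_dvd n)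

private theorem q3_mem {A κ : ℝ} {w : ℕ} (h : w ∈ CW A κ) : Cell A κ w := by
  unfold CW at h
  exact (mem_filter.1 h).2

theorem ord_sum (κ A : ℝ) (Z B : ℕ) :
    ∑ w ∈ (CW A κ).filter (fun w => ¬ OrdBig Z B w), 1 / (w : ℝ) ≤
      (Z : ℝ) ^ 2 * ((B : ℝ) + 1) ^ 2 * Real.exp (-A) := by
  have h1 : (CW A κ).filter (fun w => ¬ OrdBig Z B w) ⊆
      (Icc 2 Z).biUnion (fun p => (Icc 1 B).biUnion (fun i => (p ^ i - 1).primeFactors)) := by
    intro w hw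
    rw [mem_filter] at hw
    have hc := q3_mem hw.1
    have h2 := hw.2
    unfold OrdBig at h2
    push Not at h2
    obtain ⟨p, hp, hpZ, i, hi1, hiB, hd⟩ := h2
    rw [mem_biUnion]
    refine ⟨p, mem_Icc.2 ⟨hp.two_le, hpZ⟩, ?_⟩
    rw [mem_biUnion]
    refine ⟨i, mem_Icc.2 ⟨hi1, hiB⟩, ?_⟩
    rw [Nat.mem_primeFactors]
    refine ⟨hc.1, hd, ?_⟩
    have h3 : 2 ≤ p ^ i := by
      calc 2 ≤ p := hp.two_le
        _ = p ^ 1 := (pow_one p).symm
        _ ≤ p ^ i := Nat.pow_le_pow_right hp.pos hi1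
    omega
  have h2 : ((CW A κ).filter (fun w => ¬ OrdBig Z B w)).card ≤ Z ^ 2 * (B + 1) ^ 2 := by
    refine (card_le_card h1).trans (card_biUnion_le.trans ?_)
    have h3 : ∀ p ∈ Icc 2 Z, ((Icc 1 B).biUnion (fun i => (p ^ i - 1).primeFactors)).card ≤
        Z * (B + 1) ^ 2 := by
      intro p hp
      rw [mem_Icc] at hp
      refine card_biUnion_le.trans ?_
      have h4 : ∀ i ∈ Icc 1 B, ((p ^ i - 1).primeFactors).card ≤ Z * (B + 1) := by
        intro i hi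
        rw [mem_Icc] at hi
        have h5 : 2 ≤ p ^ i := by
          calc 2 ≤ p := hp.1
            _ = p ^ 1 := (pow_one p).symm
            _ ≤ p ^ i := Nat.pow_le_pow_right (by omega) hi.1
        have h6 := q3_two_pow (n := p ^ i - 1) (by omega)
        have h7 : p ^ i ≤ 2 ^ (p * i) := by
          rw [pow_mul]
          exact Nat.pow_le_pow_left Nat.lt_two_pow_self.le i
        have h8 : 2 ^ (p ^ i - 1).primeFactors.card ≤ 2 ^ (p * i) := by omega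
        have h9 := (Nat.pow_le_pow_iff_right (by norm_num : 1 < 2)).1 h8
        calc (p ^ i - 1).primeFactors.card ≤ p * i := h9
          _ ≤ Z * (B + 1) := Nat.mul_le_mul hp.2 (by omega)
      refine (sum_le_sum h4).trans ?_
      rw [sum_const, Nat.card_Icc, Nat.add_sub_cancel, smul_eq_mul]
      calc B * (Z * (B + 1)) ≤ (B + 1) * (Z * (B + 1)) := Nat.mul_le_mul_right _ (by omega)
        _ = _ := by ring
    refine (sum_le_sum h3).trans ?_
    rw [sum_const, Nat.card_Icc, smul_eq_mul]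
    calc (Z + 1 - 2) * (Z * (B + 1) ^ 2) ≤ Z * (Z * (B + 1) ^ 2) :=
          Nat.mul_le_mul_right _ (by omega)
      _ = _ := by ring
  have h3 : ∀ w ∈ (CW A κ).filter (fun w => ¬ OrdBig Z B w), 1 / (w : ℝ) ≤ Real.exp (-A) := by
    intro w hw
    have hc := q3_mem (mem_filter.1 hw).1
    rw [Real.exp_neg, ← one_div]
    exact one_div_le_one_div_of_le (Real.exp_pos A) hc.2.1.le
  refine (sum_le_sum h3).trans ?_
  rw [sum_const, nsmul_eq_mul]
  refine mul_le_mul_of_nonneg_right ?_ (Real.exp_pos _).le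
  exact_mod_cast h2

private theorem q3_bound (κ : ℝ) (hκ : 0 < κ) (hκ1 : κ ≤ 1 / 100) : ∃ A0 : ℝ, 1 ≤ A0 ∧
    ∀ A : ℝ, A0 ≤ A → ∀ l : ℕ, l.Prime →
      ∑ w ∈ (CW A κ).filter (fun w => l ∣ w - 1), 1 / (w : ℝ) ≤
        2 * Real.log A * (1 / (l : ℝ)) + 2 * A ^ (1 + κ) / A ^ 3 := by
  obtain ⟨A1, h1⟩ := cell_ap κ hκ hκ1 3
  refine ⟨max A1 1, le_max_right _ _, fun A hA l hl => ?_⟩
  have hA1 : A1 ≤ A := (le_max_left _ _).trans hA
  have hA2 : 1 ≤ A := (le_max_right _ _).trans hA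
  have hA0 : 0 < A := by linarith
  have hlog : 0 ≤ Real.log A := Real.log_nonneg hA2
  have hl2 := hl.two_le
  have hl0 : (0 : ℝ) < l := by exact_mod_cast hl.pos
  rcases le_or_gt (l : ℝ) (A ^ 3) with h | h
  · have h2 := h1 A hA1 l hl.one_lt.le h
    rw [Nat.totient_prime hl, Nat.cast_sub hl.one_lt.le, Nat.cast_one] at h2
    have hl2' : (2 : ℝ) ≤ l := by exact_mod_cast hl2
    have h4 : Real.log A / ((l : ℝ) - 1) ≤ 2 * Real.log A * (1 / (l : ℝ)) := by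
      rw [mul_one_div, div_le_div_iff₀ (by linarith) hl0]
      nlinarith
    have h5 : 0 ≤ 2 * A ^ (1 + κ) / A ^ 3 := by positivity
    linarith
  · have h2 := cell_triv κ A hκ hA2 l hl.one_lt.le
    have h3 : 2 * A ^ (1 + κ) / (l : ℝ) ≤ 2 * A ^ (1 + κ) / A ^ 3 :=
      div_le_div_of_nonneg_left (by positivity) (by positivity) h.le
    have h4 : 0 ≤ 2 * Real.log A * (1 / (l : ℝ)) := by positivity
    linarith

theorem comp_sum (κ : ℝ) (hκ : 0 < κ) (hκ1 : κ ≤ 1 / 100) : ∃ A0 : ℝ, ∀ A : ℝ, A0 ≤ A →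
    ∀ (y v : ℕ) (δ : ℝ), 2 ≤ v → (v : ℝ) ≤ Real.exp (A ^ (1 + κ)) →
    ∑ l ∈ (v - 1).primeFactors.filter (fun l => y < l), 1 / (l : ℝ) ≤ δ →
    ∑ w ∈ (CW A κ).filter (fun w => ∃ l : ℕ, l.Prime ∧ y < l ∧ l ∣ w - 1 ∧ l ∣ v - 1),
      1 / (w : ℝ) ≤ 2 * δ * Real.log A + A ^ (-(1 / 2) : ℝ) := by
  obtain ⟨A1, hA11, h1⟩ := q3_bound κ hκ hκ1
  refine ⟨max A1 64, fun A hA y v δ hv hvA hδ => ?_⟩
  have hA1 : A1 ≤ A := (le_max_left _ _).trans hA
  have hA2 : 64 ≤ A := (le_max_right _ _).trans hA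
  have hA3 : 1 ≤ A := by linarith
  have hA0 : 0 < A := by linarith
  have hlog : 0 ≤ Real.log A := Real.log_nonneg hA3
  obtain ⟨P, hP⟩ : ∃ P, P = (v - 1).primeFactors.filter (fun l => y < l) := ⟨_, rfl⟩
  rw [← hP] at hδ
  have hcard : (P.card : ℝ) ≤ 2 * A ^ (1 + κ) := by
    have h2 : P.card ≤ (v - 1).primeFactors.card := by
      rw [hP]
      exact card_filter_le _ _
    have h3 := q3_two_pow (n := v - 1) (by omega)
    have h4 : 2 ^ P.card ≤ v :=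
      (Nat.pow_le_pow_right (by norm_num) h2).trans (h3.trans (by omega))
    have h5 : (2 : ℝ) ^ P.card ≤ Real.exp (A ^ (1 + κ)) := by
      refine le_trans ?_ hvA
      exact_mod_cast h4
    have h6 := Real.log_le_log (by positivity) h5
    rw [Real.log_exp, Real.log_pow] at h6
    have h7 := Real.log_two_gt_d9
    have h8 : (0 : ℝ) ≤ (P.card : ℝ) := by positivity
    nlinarith
  have h2 : ∑ w ∈ (CW A κ).filter (fun w => ∃ l : ℕ, l.Prime ∧ y < l ∧ l ∣ w - 1 ∧ l ∣ v - 1),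
      1 / (w : ℝ) ≤ ∑ l ∈ P, ∑ w ∈ (CW A κ).filter (fun w => l ∣ w - 1), 1 / (w : ℝ) := by
    have h3 : ∀ l ∈ P, ∑ w ∈ (CW A κ).filter (fun w => l ∣ w - 1), 1 / (w : ℝ) =
        ∑ w ∈ CW A κ, (if l ∣ w - 1 then 1 / (w : ℝ) else 0) := fun l _ => by rw [sum_filter]
    rw [sum_congr rfl h3, sum_comm]
    have h4 : ∀ w ∈ (CW A κ).filter (fun w => ∃ l : ℕ, l.Prime ∧ y < l ∧ l ∣ w - 1 ∧ l ∣ v - 1),
        1 / (w : ℝ) ≤ ∑ l ∈ P, (if l ∣ w - 1 then 1 / (w : ℝ) else 0) := by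
      intro w hw
      rw [mem_filter] at hw
      obtain ⟨l, hl, hly, hlw, hlv⟩ := hw.2
      have hlP : l ∈ P := by
        rw [hP, mem_filter, Nat.mem_primeFactors]
        exact ⟨⟨hl, hlv, by omega⟩, hly⟩
      have h5 := single_le_sum (f := fun l => if l ∣ w - 1 then 1 / (w : ℝ) else 0)
        (fun l _ => by positivity) hlP
      simp only [if_pos hlw] at h5
      exact h5
    refine (sum_le_sum h4).trans ?_
    refine sum_le_sum_of_subset_of_nonneg (filter_subset _ _) fun w _ _ => ?_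
    refine sum_nonneg fun l _ => ?_
    split_ifs <;> positivity
  refine h2.trans ?_
  have h3 : ∀ l ∈ P, ∑ w ∈ (CW A κ).filter (fun w => l ∣ w - 1), 1 / (w : ℝ) ≤
      2 * Real.log A * (1 / (l : ℝ)) + 2 * A ^ (1 + κ) / A ^ 3 := by
    intro l hl
    rw [hP, mem_filter, Nat.mem_primeFactors] at hl
    exact h1 A hA1 l hl.1.1
  refine (sum_le_sum h3).trans ?_
  rw [sum_add_distrib, ← mul_sum, sum_const, nsmul_eq_mul]
  have h4 : 2 * Real.log A * ∑ l ∈ P, 1 / (l : ℝ) ≤ 2 * Real.log A * δ :=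
    mul_le_mul_of_nonneg_left hδ (by linarith)
  have h5 : (P.card : ℝ) * (2 * A ^ (1 + κ) / A ^ 3) ≤ A ^ (-(1 / 2) : ℝ) := by
    have h6 : (P.card : ℝ) * (2 * A ^ (1 + κ) / A ^ 3) ≤
        2 * A ^ (1 + κ) * (2 * A ^ (1 + κ) / A ^ 3) :=
      mul_le_mul_of_nonneg_right hcard (by positivity)
    refine h6.trans ?_
    have h7 : 2 * A ^ (1 + κ) * (2 * A ^ (1 + κ) / A ^ 3) = 4 * A ^ (2 * κ - 1) := by
      have h8 : A ^ (2 * κ - 1) = A ^ (1 + κ) * A ^ (1 + κ) / A ^ 3 := by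
        rw [← Real.rpow_natCast A 3, ← Real.rpow_add hA0, ← Real.rpow_sub hA0]
        congr 1
        push_cast
        ring
      rw [h8]
      ring
    rw [h7]
    have h9 : A ^ (-(1 / 2) : ℝ) = A ^ (1 / 2 - 2 * κ) * A ^ (2 * κ - 1) := by
      rw [← Real.rpow_add hA0]
      congr 1
      ring
    rw [h9]
    refine mul_le_mul_of_nonneg_right ?_ (by positivity)
    calc (4 : ℝ) = 64 ^ (1 / 3 : ℝ) := by
          rw [show (64 : ℝ) = 4 ^ (3 : ℝ) by norm_num, ← Real.rpow_mul (by norm_num)]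
          norm_num
      _ ≤ A ^ (1 / 3 : ℝ) := Real.rpow_le_rpow (by norm_num) hA2 (by norm_num)
      _ ≤ A ^ (1 / 2 - 2 * κ) := Real.rpow_le_rpow_of_exponent_le hA3 (by linarith)
  linarith

end Pool.Agent.Lib.MP_79499b_co.QZ
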