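import Pool.Agent.Lib.MP_79499b_co.EO.S2
import Pool.Agent.Lib.MP_79499b_co.QZ.QS2
import Pool.Agent.Lib.MP_79499b_co.QZ.QS3
import Pool.Agent.Lib.MP_79499b_co.QZ.QS5

/-!
# QS6: almost all primes of a cell are usable

`us_compl`: for every `η > 0`, `x` large, `c < K`, `m` normal: `∑_{w ∈ CW (AC c) \ US c m} 1/w ≤ η LL x`.

Proof. `A = AC c ≥ AC 0 → ∞`, `y = yy x`, `2 ≤ y ≤ A^(1/2)` (`AC_yy`), `log A ≤ LL x`. Let `w` be in the cell, not usable.
(a) `(cy x w)^2 > A^κ`: `typ_sum` gives at most `C (1 + log y)^2 ≤ C (1 + 8 LLL x)^2`, `≤ η LL x/4` for large `x` (`log yy ≤ 8 log LL`).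
(b) `∑_{l ∣ w-1, l > y} 1/l > LL^(-4)`: by `rec_sum` and Markov `≤ LL^4 8 log A/y ≤ 8 LL^5/(LL^8 - 1) ≤ 1`.
(c) `¬ OrdBig (zD D x) (BB κ K x) w`: `ord_sum`: `≤ L^(2D) (exp(AC0^(1/2)) + 1)^2 exp(-AC0) ≤ 1`. (`AC 0 = L^(ex 0)`, so
`L^(2D) = exp(2 D LL)` and `LL ≤ AC0^(1/4)` for large `x`.)
(d) `w ∈ GW c` but `w ∉ US c m`: `¬ NP w (ry x w) m`, then `w` is counted in `Hs m ≤ 1`; or `¬ NP w (ry x w) q` for a prime `q ∣ m`, `q > zD`: the sum
is at most `∑_q Hs q ≤ 1`. (`GW c ⊆ GA`.)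
Total `≤ η LL/4 + 4 ≤ η LL`.

`comp_le`: for `x` large, `c < K`, `v ∈ GW c`: the sum of `1/w` over the `w ∈ CW (AC c)` with `w = v` or `ry x v`, `ry x w` not coprime is at most `1`.
Proof: `1/v ≤ exp(-AC 0) ≤ 1/2`; a prime `l` dividing `ry x v` and `ry x w` is `> y` (the rough part of `w - 1`: `cy` is the full
`y`-smooth part; `sm_facts` in EO/S2) and divides `v - 1`, `w - 1`; `comp_sum` with `δ = LL^(-4)`: `2 LL^(-4) log A + A^(-1/2) ≤ 1/2`.

`ry_prime`: for `w ≥ 2` a prime `l` divides `ry x w` iff `l ∣ w - 1` and `yy x < l`; `cy_mul`: `cy x w * ry x w = w - 1`.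
-/

set_option autoImplicit false

namespace Pool.Agent.Lib.MP_79499b_co.QZ

open Finset DZ
open scoped Classical

theorem cy_mul (x w : ℕ) (hw : 2 ≤ w) : cy x w * ry x w = w - 1 := by
  obtain ⟨-, -, h⟩ := EO.sm_facts (yy x) (w - 1) (by omega)
  exact Nat.mul_div_cancel' ⟨_, h.symm⟩

private theorem QS6_ry (x w : ℕ) (hw : 2 ≤ w) :
    ry x w = ∏ p ∈ (w - 1).primeFactors.filter (fun p => yy x < p),
      p ^ (w - 1).factorization p := by
  obtain ⟨h1, -, h⟩ := EO.sm_facts (yy x) (w - 1) (by omega)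
  unfold ry cy
  exact Nat.div_eq_of_eq_mul_right (by omega) h.symm

theorem ry_prime (x w l : ℕ) (hw : 2 ≤ w) (hl : l.Prime) :
    l ∣ ry x w ↔ l ∣ w - 1 ∧ yy x < l := by
  rw [QS6_ry x w hw]
  constructor
  · intro h
    obtain ⟨q, hq, hlq⟩ := (Nat.prime_iff.mp hl).exists_mem_finset_dvd h
    rw [mem_filter, Nat.mem_primeFactors] at hq
    have h1 := hl.dvd_of_dvd_pow hlq
    rw [Nat.prime_dvd_prime_iff_eq hl hq.1.1] at h1
    rw [h1]
    exact ⟨hq.1.2.1, hq.2⟩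
  · rintro ⟨h1, h2⟩
    have hmem : l ∈ (w - 1).primeFactors.filter (fun p => yy x < p) := by
      rw [mem_filter, Nat.mem_primeFactors]
      exact ⟨⟨hl, h1, by omega⟩, h2⟩
    refine dvd_trans ?_ (Finset.dvd_prod_of_mem _ hmem)
    refine dvd_pow_self l ?_
    have := hl.factorization_pos_of_dvd (by omega : w - 1 ≠ 0) h1
    omega

theorem cy_prime (x w l : ℕ) (hw : 2 ≤ w) (hl : l.Prime) (h : l ∣ cy x w) : l ≤ yy x := by
  obtain ⟨h1, h2, -⟩ := EO.sm_facts (yy x) (w - 1) (by omega)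
  refine h2 l ?_
  rw [Nat.mem_primeFactors]
  exact ⟨hl, h, by omega⟩

private theorem QS6_AC (κ : ℝ) (hκ : 0 < κ) (K : ℕ) (T : ℝ) : ∃ x0 : ℕ, ∀ x : ℕ, x0 ≤ x →
    3 ≤ x ∧ T ≤ AC κ K x 0 ∧ T ≤ LL x := by
  obtain ⟨x1, h1⟩ := Filter.eventually_atTop.mp ((AC_tend κ hκ K 0).eventually_ge_atTop T)
  obtain ⟨x2, h2⟩ := Filter.eventually_atTop.mp (LL_tend.eventually_ge_atTop T)
  refine ⟨max 3 (max x1 x2), fun x hx => ?_⟩
  simp only [max_le_iff] at hx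
  exact ⟨hx.1, h1 x hx.2.1, h2 x hx.2.2⟩

private theorem QS6_log (κ : ℝ) (hκ : 0 < κ) (K x c : ℕ) (hx : 3 ≤ x) (_h0 : 1 ≤ LL x) :
    Real.log (AC κ K x c) ≤ LL x := by
  obtain ⟨-, h⟩ := AC_top κ hκ K x c hx
  obtain ⟨h1, -⟩ := AC_mono κ hκ K x hx c c le_rfl
  exact Real.log_le_log (by linarith) h

/-- the last numerical fact -/
private theorem QS6_num (C η : ℝ) (hη : 0 < η) : ∃ T : ℝ, ∀ t : ℝ, T ≤ t →
    C * (1 + 8 * Real.log t) ^ 2 ≤ η * t / 4 := by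
  have e1 := (isLittleO_log_rpow_atTop (r := 1 / 2) (by norm_num)).bound
    (c := √(η / (|C| + 1)) / 32) (by positivity)
  have e2 := (tendsto_rpow_atTop (y := 1 / 2) (by norm_num)).eventually_ge_atTop
    (4 / √(η / (|C| + 1)))
  obtain ⟨T, hT⟩ := Filter.eventually_atTop.mp
    (e1.and (e2.and (Filter.eventually_ge_atTop (1 : ℝ))))
  refine ⟨T, fun t ht => ?_⟩
  obtain ⟨h1, h2, h3⟩ := hT t ht
  set b := √(η / (|C| + 1)) with hb
  have hC0 : 0 ≤ |C| := abs_nonneg C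
  have hb0 : 0 < b := by positivity
  have hb2 : b ^ 2 = η / (|C| + 1) := Real.sq_sqrt (by positivity)
  set u := t ^ (1 / 2 : ℝ) with hu
  have hu0 : 0 ≤ u := Real.rpow_nonneg (by linarith) _
  have hu2 : u ^ 2 = t := by
    rw [hu, ← Real.rpow_natCast, ← Real.rpow_mul (by linarith)]
    norm_num
  rw [Real.norm_of_nonneg (Real.log_nonneg h3), Real.norm_of_nonneg hu0] at h1
  rw [div_le_iff₀ hb0] at h2
  have hlog0 : 0 ≤ Real.log t := Real.log_nonneg h3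
  have h4 : 1 + 8 * Real.log t ≤ b * u / 2 := by linarith
  have h5 : (1 + 8 * Real.log t) ^ 2 ≤ (b * u / 2) ^ 2 := pow_le_pow_left₀ (by linarith) h4 2
  have h6 : (b * u / 2) ^ 2 = η / (|C| + 1) * t / 4 := by
    rw [div_pow, mul_pow, hb2, hu2]
    norm_num
  calc C * (1 + 8 * Real.log t) ^ 2 ≤ (|C| + 1) * (1 + 8 * Real.log t) ^ 2 :=
        mul_le_mul_of_nonneg_right (by linarith [le_abs_self C]) (sq_nonneg _)
    _ ≤ (|C| + 1) * (η / (|C| + 1) * t / 4) := by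
        rw [← h6]
        exact mul_le_mul_of_nonneg_left h5 (by linarith)
    _ = η * t / 4 := by
        field_simp

private theorem QS6_sub {S T : Finset ℕ} (f : ℕ → ℝ) (hf : ∀ w, 0 ≤ f w) (h : S ⊆ T) :
    ∑ w ∈ S, f w ≤ ∑ w ∈ T, f w :=
  Finset.sum_le_sum_of_subset_of_nonneg h fun w _ _ => hf w

private theorem QS6_union (S T : Finset ℕ) (f : ℕ → ℝ) (hf : ∀ w, 0 ≤ f w) :
    ∑ w ∈ S ∪ T, f w ≤ ∑ w ∈ S, f w + ∑ w ∈ T, f w := by
  rw [← Finset.sum_union_inter]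
  have : 0 ≤ ∑ w ∈ S ∩ T, f w := Finset.sum_nonneg fun w _ => hf w
  linarith

private theorem QS6_biUnion (Q : Finset ℕ) (S : ℕ → Finset ℕ) (f : ℕ → ℝ) (hf : ∀ w, 0 ≤ f w) :
    ∑ w ∈ Q.biUnion S, f w ≤ ∑ q ∈ Q, ∑ w ∈ S q, f w := by
  induction Q using Finset.induction_on with
  | empty => simp
  | insert a Q ha ih =>
    rw [Finset.biUnion_insert, Finset.sum_insert ha]
    exact (QS6_union _ _ f hf).trans (add_le_add_right ih _)

private noncomputable def QS6_F (x w : ℕ) : ℝ :=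
  ∑ l ∈ (w - 1).primeFactors.filter (fun l => yy x < l), 1 / (l : ℝ)

private theorem QS6_F_nonneg (x w : ℕ) : 0 ≤ QS6_F x w :=
  Finset.sum_nonneg fun l _ => by positivity

theorem us_compl (κ : ℝ) (hκ : 0 < κ) (hκ1 : κ ≤ 1 / 100) (K D : ℕ) (η : ℝ) (hη : 0 < η) :
    ∃ x0 : ℕ, ∀ x : ℕ, x0 ≤ x → ∀ c < K, ∀ m : ℕ, Nrm κ K D x m →
      ∑ w ∈ CW (AC κ K x c) κ \ US κ K D x c m, 1 / (w : ℝ) ≤ η * LL x := by
  obtain ⟨C, A1, hC, hA1⟩ := typ_sum κ hκ hκ1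
  obtain ⟨A2, hA2⟩ := rec_sum κ hκ hκ1
  obtain ⟨T1, hT1⟩ := QS6_num C η hη
  obtain ⟨x1, hx1⟩ := AC_yy κ hκ K 2
  obtain ⟨x2, hx2⟩ := AC_LL κ hκ K (2 * D)
  obtain ⟨x3, hx3⟩ := QS6_AC κ hκ K (max A1 (max A2 (max T1 (max 16 (16 / (3 * η))))))
  refine ⟨max x1 (max x2 x3), fun x hx c hc m hm => ?_⟩
  simp only [max_le_iff] at hx
  obtain ⟨hy2, hyA⟩ := hx1 x hx.1
  have hDL := hx2 x hx.2.1
  obtain ⟨h3x, hmaxA, hmaxL⟩ := hx3 x hx.2.2
  simp only [max_le_iff] at hmaxA hmaxL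
  obtain ⟨a1, a2, -, a3, -⟩ := hmaxA
  obtain ⟨-, -, t1, t2, t3⟩ := hmaxL
  obtain ⟨hA0, hAc⟩ := AC_mono κ hκ K x h3x 0 c (Nat.zero_le c)
  have hlogA := QS6_log κ hκ K x c h3x (by linarith)
  set A := AC κ K x c with hA
  set t := LL x with ht
  have hf : ∀ w : ℕ, 0 ≤ 1 / (w : ℝ) := fun w => by positivity
  have hyA' : (yy x : ℝ) ≤ A ^ (1 / 2 : ℝ) :=
    hyA.trans (Real.rpow_le_rpow (by linarith) hAc (by norm_num))
  have hyr : (2 : ℝ) ≤ yy x := by exact_mod_cast hy2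
  -- the size of yy
  have hyle : (yy x : ℝ) ≤ t ^ 8 := by
    unfold yy
    exact Nat.floor_le (by positivity)
  have ht8 : (1 : ℝ) ≤ t ^ 8 := one_le_pow₀ (by linarith)
  have hyge : t ^ 8 / 2 ≤ yy x := by
    have h1 : t ^ 8 < (yy x : ℝ) + 1 := by
      unfold yy
      exact Nat.lt_floor_add_one _
    have h2 : (2 : ℝ) ≤ t ^ 8 := by
      calc (2 : ℝ) ≤ t := by linarith
        _ = t ^ 1 := (pow_one t).symm
        _ ≤ t ^ 8 := pow_le_pow_right₀ (by linarith) (by norm_num)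
    linarith
  -- the five parts
  set Sa := (CW A κ).filter (fun w => A ^ κ < (EO.sm (yy x) (w - 1) : ℝ) ^ 2) with hSa
  set Sb := (CW A κ).filter (fun w => ¬ QS6_F x w ≤ (t ^ 4)⁻¹) with hSb
  set Sc := (CW A κ).filter (fun w => ¬ OrdBig (zD D x) (BB κ K x) w) with hSc
  set Sd := (GA κ K D x).filter (fun w => ¬ NP w (ry x w) m) with hSd
  set Se := (m.primeFactors.filter (fun q => zD D x < q)).biUnion (fun q =>
    (GA κ K D x).filter (fun w => ¬ NP w (ry x w) q)) with hSe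
  have hsub : CW A κ \ US κ K D x c m ⊆ Sa ∪ (Sb ∪ (Sc ∪ (Sd ∪ Se))) := by
    intro w hw
    rw [mem_sdiff] at hw
    obtain ⟨hw1, hw2⟩ := hw
    rw [mem_union, mem_union, mem_union, mem_union]
    by_cases ha : A ^ κ < (EO.sm (yy x) (w - 1) : ℝ) ^ 2
    · exact Or.inl (mem_filter.mpr ⟨hw1, ha⟩)
    refine Or.inr ?_
    by_cases hb : QS6_F x w ≤ (t ^ 4)⁻¹
    swap
    · exact Or.inl (mem_filter.mpr ⟨hw1, hb⟩)
    refine Or.inr ?_
    by_cases hcc : OrdBig (zD D x) (BB κ K x) w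
    swap
    · exact Or.inl (mem_filter.mpr ⟨hw1, hcc⟩)
    refine Or.inr ?_
    have hGW : w ∈ GW κ K D x c := by
      unfold GW
      rw [mem_filter]
      exact ⟨hw1, not_lt.mp ha, hb, hcc⟩
    have hGA : w ∈ GA κ K D x := by
      unfold GA
      rw [mem_biUnion]
      exact ⟨c, mem_range.mpr hc, hGW⟩
    by_cases hd : NP w (ry x w) m
    swap
    · exact Or.inl (mem_filter.mpr ⟨hGA, hd⟩)
    refine Or.inr ?_
    by_contra hcon
    refine hw2 ?_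
    unfold US
    rw [mem_filter]
    refine ⟨hGW, hd, fun q hq hqm hzq => ?_⟩
    by_contra hnp
    refine hcon ?_
    rw [hSe, mem_biUnion]
    refine ⟨q, ?_, mem_filter.mpr ⟨hGA, hnp⟩⟩
    rw [mem_filter, Nat.mem_primeFactors]
    exact ⟨⟨hq, hqm, hm.1⟩, hzq⟩
  have ba : ∑ w ∈ Sa, 1 / (w : ℝ) ≤ η * t / 4 := by
    refine (hA1 A (a1.trans hAc) (yy x) hy2 hyA').trans ?_
    refine le_trans ?_ (hT1 t t1)
    refine mul_le_mul_of_nonneg_left ?_ hC.le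
    have h1 : Real.log (yy x) ≤ 8 * Real.log t := by
      have := Real.log_le_log (by linarith) hyle
      rwa [Real.log_pow] at this
    have h0 : 0 ≤ Real.log (yy x) := Real.log_nonneg (by linarith)
    exact pow_le_pow_left₀ (by linarith) (by linarith) 2
  have bb : ∑ w ∈ Sb, 1 / (w : ℝ) ≤ 1 := by
    have h1 := hA2 A (a2.trans hAc) (yy x) (by omega) hyA'
    have h2 : ∑ w ∈ Sb, 1 / (w : ℝ) ≤ t ^ 4 * ∑ w ∈ CW A κ, (1 / (w : ℝ)) * QS6_F x w := by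
      have hnn : ∀ w : ℕ, 0 ≤ (1 / (w : ℝ)) * QS6_F x w := fun w =>
          mul_nonneg (hf w) (QS6_F_nonneg x w)
      have h3 := QS6_sub _ hnn (Finset.filter_subset (fun w => ¬ QS6_F x w ≤ (t ^ 4)⁻¹) (CW A κ))
      refine le_trans ?_ (mul_le_mul_of_nonneg_left h3 (by positivity))
      rw [Finset.mul_sum]
      refine Finset.sum_le_sum fun w hw => ?_
      have h4 := not_le.mp (mem_filter.mp hw).2
      have h5 : 1 ≤ t ^ 4 * QS6_F x w := by
        have h6 : 0 < t ^ 4 := by positivity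
        calc (1 : ℝ) = t ^ 4 * (t ^ 4)⁻¹ := (mul_inv_cancel₀ h6.ne').symm
          _ ≤ _ := mul_le_mul_of_nonneg_left h4.le h6.le
      calc 1 / (w : ℝ) = 1 / (w : ℝ) * 1 := (mul_one _).symm
        _ ≤ 1 / (w : ℝ) * (t ^ 4 * QS6_F x w) := mul_le_mul_of_nonneg_left h5 (hf w)
        _ = _ := by ring
    refine h2.trans ((mul_le_mul_of_nonneg_left h1 (by positivity)).trans ?_)
    have hyp : (0 : ℝ) < yy x := by linarith
    rw [← mul_div_assoc, div_le_one hyp]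
    refine le_trans ?_ hyge
    have h7 : t ^ 4 * (8 * Real.log A) ≤ t ^ 4 * (8 * t) :=
      mul_le_mul_of_nonneg_left (by linarith) (by positivity)
    have h8 : (16 : ℝ) ≤ t ^ 3 := by
      calc (16 : ℝ) ≤ t := t2
        _ = t ^ 1 := (pow_one t).symm
        _ ≤ t ^ 3 := pow_le_pow_right₀ (by linarith) (by norm_num)
    have h9 : t ^ 5 * 16 ≤ t ^ 5 * t ^ 3 := mul_le_mul_of_nonneg_left h8 (by positivity)
    nlinarith [h7, h9]
  have bc : ∑ w ∈ Sc, 1 / (w : ℝ) ≤ 1 := by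
    refine (ord_sum κ A (zD D x) (BB κ K x)).trans ?_
    set A0 := AC κ K x 0 with hA0def
    set r := A0 ^ (1 / 2 : ℝ) with hr
    have hr0 : 0 ≤ r := Real.rpow_nonneg (by linarith) _
    have hr2 : r ^ 2 = A0 := by
      rw [hr, ← Real.rpow_natCast, ← Real.rpow_mul (by linarith)]
      norm_num
    have hr4 : 4 ≤ r := by nlinarith
    have hL : Real.log x = Real.exp t := by
      rw [ht]
      unfold LL
      rw [Real.exp_log]
      have : (1 : ℝ) < x := by exact_mod_cast (by omega : 1 < x)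
      exact Real.log_pos this
    have hz : ((zD D x : ℕ) : ℝ) ^ 2 ≤ Real.exp r := by
      have h1 : ((zD D x : ℕ) : ℝ) ≤ Real.log x ^ D := by
        unfold zD
        exact Nat.floor_le (by rw [hL]; positivity)
      have h2 : ((zD D x : ℕ) : ℝ) ^ 2 ≤ (Real.log x ^ D) ^ 2 :=
        pow_le_pow_left₀ (Nat.cast_nonneg _) h1 2
      refine h2.trans ?_
      rw [hL, ← pow_mul, ← Real.exp_nat_mul]
      refine Real.exp_le_exp.mpr ?_
      have h3 : A0 ^ κ ≤ r := Real.rpow_le_rpow_of_exponent_le hA0 (by linarith)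
      push_cast
      linarith
    have hB : (((BB κ K x : ℕ) : ℝ) + 1) ^ 2 ≤ 4 * Real.exp (2 * r) := by
      have h1 : ((BB κ K x : ℕ) : ℝ) ≤ Real.exp r := by
        unfold BB
        exact Nat.floor_le (Real.exp_pos _).le
      have h2 : (1 : ℝ) ≤ Real.exp r := Real.one_le_exp hr0
      have h3 : (((BB κ K x : ℕ) : ℝ) + 1) ^ 2 ≤ (2 * Real.exp r) ^ 2 :=
        pow_le_pow_left₀ (by positivity) (by linarith) 2
      refine h3.trans (le_of_eq ?_)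
      rw [mul_pow, ← Real.exp_nat_mul]
      norm_num
    calc ((zD D x : ℕ) : ℝ) ^ 2 * (((BB κ K x : ℕ) : ℝ) + 1) ^ 2 * Real.exp (-A) ≤
          (Real.exp r * (4 * Real.exp (2 * r))) * Real.exp (-A0) := by
          refine mul_le_mul ?_ (Real.exp_le_exp.mpr (by linarith)) (Real.exp_pos _).le (by positivity)
          exact mul_le_mul hz hB (by positivity) (Real.exp_pos _).le
      _ = 4 * Real.exp (3 * r - A0) := by
          rw [show 3 * r - A0 = r + 2 * r + -A0 by ring, Real.exp_add, Real.exp_add]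
          ring
      _ ≤ 4 * Real.exp (-4) := by
          refine mul_le_mul_of_nonneg_left (Real.exp_le_exp.mpr ?_) (by norm_num)
          nlinarith
      _ ≤ 1 := by
          have h1 := Real.add_one_le_exp (4 : ℝ)
          have h2 : Real.exp (-4) * Real.exp 4 = 1 := by
            rw [← Real.exp_add]
            norm_num
          have h3 := Real.exp_pos (-4)
          nlinarith
  have bd : ∑ w ∈ Sd, 1 / (w : ℝ) ≤ 1 := hm.2.1
  have be : ∑ w ∈ Se, 1 / (w : ℝ) ≤ 1 := (QS6_biUnion _ _ _ hf).trans hm.2.2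
  have hηt : 4 ≤ η * t * (3 / 4) := by
    rw [div_le_iff₀ (by positivity)] at t3
    linarith
  refine (QS6_sub _ hf hsub).trans ?_
  have u1 := QS6_union Sa (Sb ∪ (Sc ∪ (Sd ∪ Se))) _ hf
  have u2 := QS6_union Sb (Sc ∪ (Sd ∪ Se)) _ hf
  have u3 := QS6_union Sc (Sd ∪ Se) _ hf
  have u4 := QS6_union Sd Se _ hf
  linarith

theorem comp_le (κ : ℝ) (hκ : 0 < κ) (hκ1 : κ ≤ 1 / 100) (K D : ℕ) :
    ∃ x0 : ℕ, ∀ x : ℕ, x0 ≤ x → ∀ c < K, ∀ v ∈ GW κ K D x c,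
      ∑ w ∈ (CW (AC κ K x c) κ).filter (fun w => w = v ∨ ¬ (ry x v).Coprime (ry x w)),
        1 / (w : ℝ) ≤ 1 := by
  obtain ⟨A1, hA1⟩ := comp_sum κ hκ hκ1
  obtain ⟨x3, hx3⟩ := QS6_AC κ hκ K (max A1 16)
  refine ⟨x3, fun x hx c hc v hv => ?_⟩
  obtain ⟨h3x, hmaxA, hmaxL⟩ := hx3 x hx
  simp only [max_le_iff] at hmaxA hmaxL
  obtain ⟨a1, a3⟩ := hmaxA
  obtain ⟨-, t2⟩ := hmaxL
  obtain ⟨hA0, hAc⟩ := AC_mono κ hκ K x h3x 0 c (Nat.zero_le c)
  have hlogA := QS6_log κ hκ K x c h3x (by linarith)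
  unfold GW at hv
  rw [mem_filter] at hv
  obtain ⟨hv1, -, hv2, -⟩ := hv
  set A := AC κ K x c with hA
  set t := LL x with ht
  have hf : ∀ w : ℕ, 0 ≤ 1 / (w : ℝ) := fun w => by positivity
  have hcell : Cell A κ v := (mem_filter.mp hv1).2
  have hv2' : 2 ≤ v := hcell.1.two_le
  have h1 := hA1 A (a1.trans hAc) (yy x) v ((t ^ 4)⁻¹) hv2' hcell.2.2 hv2
  have hsub : (CW A κ).filter (fun w => w = v ∨ ¬ (ry x v).Coprime (ry x w)) ⊆
      {v} ∪ (CW A κ).filter (fun w => ∃ l : ℕ, l.Prime ∧ yy x < l ∧ l ∣ w - 1 ∧ l ∣ v - 1) := by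
    intro w hw
    rw [mem_filter] at hw
    rw [mem_union, mem_singleton, mem_filter]
    rcases hw.2 with h | h
    · exact Or.inl h
    · refine Or.inr ⟨hw.1, ?_⟩
      rw [Nat.Prime.not_coprime_iff_dvd] at h
      obtain ⟨l, hl, hlv, hlw⟩ := h
      have hwc : Cell A κ w := (mem_filter.mp hw.1).2
      obtain ⟨g1, g2⟩ := (ry_prime x v l hv2' hl).mp hlv
      obtain ⟨g3, -⟩ := (ry_prime x w l hwc.1.two_le hl).mp hlw
      exact ⟨l, hl, g2, g3, g1⟩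
  refine (QS6_sub _ hf hsub).trans ((QS6_union _ _ _ hf).trans ?_)
  rw [Finset.sum_singleton]
  have hA16 : 16 ≤ A := a3.trans hAc
  have b1 : 1 / (v : ℝ) ≤ 1 / 16 := by
    have h2 : (16 : ℝ) ≤ v := by
      have := Real.add_one_le_exp A
      have := hcell.2.1
      linarith
    exact one_div_le_one_div_of_le (by norm_num) h2
  have b2 : 2 * (t ^ 4)⁻¹ * Real.log A ≤ 1 / 4 := by
    have h3 : 0 < t ^ 4 := by positivity
    have h4 : 2 * (t ^ 4)⁻¹ * Real.log A ≤ 2 * (t ^ 4)⁻¹ * t :=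
      mul_le_mul_of_nonneg_left hlogA (by positivity)
    refine h4.trans ?_
    have h5 : 2 * (t ^ 4)⁻¹ * t = 2 * t / t ^ 4 := by
      field_simp
    rw [h5, div_le_iff₀ h3]
    have h6 : (16 : ℝ) ≤ t ^ 3 := by
      calc (16 : ℝ) ≤ t := t2
        _ = t ^ 1 := (pow_one t).symm
        _ ≤ t ^ 3 := pow_le_pow_right₀ (by linarith) (by norm_num)
    nlinarith
  have b3 : A ^ (-(1 / 2) : ℝ) ≤ 1 / 4 := by
    rw [Real.rpow_neg (by linarith)]
    have h7 : (4 : ℝ) ≤ A ^ (1 / 2 : ℝ) := by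
      have h8 : (16 : ℝ) ^ (1 / 2 : ℝ) ≤ A ^ (1 / 2 : ℝ) :=
        Real.rpow_le_rpow (by norm_num) hA16 (by norm_num)
      have h9 : (16 : ℝ) ^ (1 / 2 : ℝ) = 4 := by
        rw [show (16 : ℝ) = 4 ^ (2 : ℝ) by norm_num, ← Real.rpow_mul (by norm_num)]
        norm_num
      linarith
    rw [← one_div]
    exact one_div_le_one_div_of_le (by norm_num) h7
  linarith

end Pool.Agent.Lib.MP_79499b_co.QZ
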