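import Pool.Agent.Lib.MP_79499b_co.QZ.QDefD
import Pool.Agent.Lib.MP_79499b_co.QZ.QE1
import Pool.Agent.Lib.MP_79499b_co.QZ.QA2
import Pool.Agent.Lib.MP_79499b_co.QZ.QS6

/-!
# QE2: a pair of usable primes excludes orders

`pair_excl`: `x` large, `n = m p` not discarded, `p > exp(L/(C1 LL))` prime, some cell `c < K` contains a `Pair` for `m`, `n`. Then `n` is not an
order (nilpotent groups).

Proof. `A = AC c`. Let `w1, w2` be the pair, `c_i = cy x w_i`, `r_i = ry x w_i`: `c_i r_i = w_i - 1` (`cy_mul`), primes of `r_i` are `> yy x ≥ 2s`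
(`AC_yy` with `N = 2s`), primes of `c_i` are `≤ yy x` (`cy_prime`), so `r_i` is odd and coprime to `c1 c2`; `c_i^2 ≤ A^κ` (`w_i` good), so
`c1 c2 ≤ A^κ` and `c_i < w_i - 1` (`w_i > exp A`), `r_i > 1`. So `CPair A κ c1 c2 w1 w2 r1 r2` and `Shape s c1 c2 w1 w2 r1 r2 n`.
`ND`: otherwise `BadN s κ A n`, which is excluded by `¬ Disc`: `n ≠ 0`; `Ω(n) ≤ C2 LL ≤ (AC 0)^κ ≤ A^κ` (`AC_LL`); no `p² ∣ n` for `p > ZA A ≥ ZA (AC 0)`;
`P = p > exp(L/(C1 LL)) ≥ exp(A^(1+7κ))` (`AC_small` with `C = C1`).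
Primes `q ∣ n`, `q > zD D x`: either `q ∣ m`, then `NP w_i r_i q` by the definition of `US`; or `q = p`, then `np_top` (`NP w_i r_i m`).
`OrdBig (zD D x) (BB κ K x) w_i` (`w_i` good), `gb s (zD D x) n ≤ BB κ K x` (not discarded), `zD D x ≤ L^D < exp(AC 0) < w_i`. `excl_B` applies.
-/

set_option autoImplicit false

namespace Pool.Agent.Lib.MP_79499b_co.QZ

open Finset DZ

private theorem QE2_cop {a b N : ℕ} (ha : ∀ l : ℕ, l.Prime → l ∣ a → N < l)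
    (hb : ∀ l : ℕ, l.Prime → l ∣ b → l ≤ N) : a.Coprime b := by
  by_contra hn
  obtain ⟨l, hl, h1, h2⟩ := Nat.Prime.not_coprime_iff_dvd.mp hn
  have h3 := ha l hl h1
  have h4 := hb l hl h2
  omega

private theorem QE2_one {x w : ℕ} {A κ : ℝ} (hw2 : 2 ≤ w) (hA : 1 ≤ A) (hκ1 : κ ≤ 1 / 100)
    (hw : Real.exp A < w) (hc : (cy x w : ℝ) ^ 2 ≤ A ^ κ) : 1 < ry x w := by
  have h1 := cy_mul x w hw2
  by_contra hr
  have hr' : ry x w ≤ 1 := by omega
  have h2 : w - 1 ≤ cy x w := by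
    rw [← h1]
    calc cy x w * ry x w ≤ cy x w * 1 := Nat.mul_le_mul_left _ hr'
      _ = cy x w := mul_one _
  have h3 : (w : ℝ) ≤ cy x w + 1 := by exact_mod_cast (by omega : w ≤ cy x w + 1)
  have h4 : A ^ κ ≤ A := by
    calc A ^ κ ≤ A ^ (1 : ℝ) := Real.rpow_le_rpow_of_exponent_le hA (by linarith)
      _ = A := Real.rpow_one _
  have h5 : (cy x w : ℝ) ≤ (cy x w : ℝ) ^ 2 := by
    rcases Nat.eq_zero_or_pos (cy x w) with h0 | h0
    · rw [h0]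
      norm_num
    · have : (1 : ℝ) ≤ cy x w := by exact_mod_cast h0
      nlinarith
  have h6 := Real.add_one_le_exp A
  linarith

theorem pair_excl (κ : ℝ) (hκ : 0 < κ) (hκ1 : κ ≤ 1 / 100) (K D s : ℕ) (hs : 2 ≤ s) (C1 C2 : ℝ)
    (hC1 : 0 < C1) : ∃ x0 : ℕ, ∀ x : ℕ, x0 ≤ x → ∀ n m p c : ℕ, ¬ Disc κ K D s C1 C2 x n →
      n = m * p → p.Prime → Real.exp (Real.log x / (C1 * LL x)) < p → c < K →
      Pair κ K D s x c m n → ¬ NilOrder n (2 * s) := by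
  obtain ⟨x1, hx1⟩ := AC_small κ hκ K C1 hC1
  obtain ⟨x2, hx2⟩ := AC_LL κ hκ K C2
  obtain ⟨x3, hx3⟩ := AC_LL κ hκ K D
  obtain ⟨x4, hx4⟩ := AC_yy κ hκ K (2 * s)
  refine ⟨max 3 (max x1 (max x2 (max x3 x4))), fun x hx n m p c hD hn hp hpL hc hP => ?_⟩
  simp only [max_le_iff] at hx
  obtain ⟨hx0, hxa, hxb, hxc, hxd⟩ := hx
  have hsm := hx1 x hxa c hc
  have hL2 := hx2 x hxb
  have hLD := hx3 x hxc
  obtain ⟨hyy, -⟩ := hx4 x hxd
  obtain ⟨hA0, hA0A⟩ := AC_mono κ hκ K x hx0 0 c (Nat.zero_le c)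
  unfold Disc at hD
  push Not at hD
  obtain ⟨hn0, -, hΩ, hsq, hgb, hbad, -⟩ := hD
  obtain ⟨w1, hw1, w2, hw2, hne, hcop, hd1, hd2⟩ := hP
  set A0 := AC κ K x 0 with hA0def
  set A := AC κ K x c with hAdef
  have hA1 : 1 ≤ A := hA0.trans hA0A
  unfold US GW CW at hw1 hw2
  simp only [mem_filter] at hw1 hw2
  obtain ⟨⟨⟨-, cell1⟩, hc1, -, ho1⟩, hm1, hq1⟩ := hw1
  obtain ⟨⟨⟨-, cell2⟩, hc2, -, ho2⟩, hm2, hq2⟩ := hw2
  have hp1 := cell1.1
  have hp2 := cell2.1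
  have e1 := cy_mul x w1 hp1.two_le
  have e2 := cy_mul x w2 hp2.two_le
  have eq1 : w1 = cy x w1 * ry x w1 + 1 := by
    rw [e1]
    have := hp1.two_le
    omega
  have eq2 : w2 = cy x w2 * ry x w2 + 1 := by
    rw [e2]
    have := hp2.two_le
    omega
  have hr1 : ∀ l : ℕ, l.Prime → l ∣ ry x w1 → yy x < l := fun l hl h =>
    ((ry_prime x w1 l hp1.two_le hl).mp h).2
  have hr2 : ∀ l : ℕ, l.Prime → l ∣ ry x w2 → yy x < l := fun l hl h =>
    ((ry_prime x w2 l hp2.two_le hl).mp h).2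
  have hcc : ∀ l : ℕ, l.Prime → l ∣ cy x w1 * cy x w2 → l ≤ yy x := by
    intro l hl h
    rcases hl.dvd_mul.mp h with h | h
    · exact cy_prime x w1 l hp1.two_le hl h
    · exact cy_prime x w2 l hp2.two_le hl h
  have hco1 : (ry x w1).Coprime (cy x w1 * cy x w2) := QE2_cop hr1 hcc
  have hco2 : (ry x w2).Coprime (cy x w1 * cy x w2) := QE2_cop hr2 hcc
  have hsmall : ((cy x w1 * cy x w2 : ℕ) : ℝ) ≤ A ^ κ := by
    push_cast
    nlinarith [sq_nonneg ((cy x w1 : ℝ) - cy x w2)]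
  have hodd : ∀ r : ℕ, (∀ l : ℕ, l.Prime → l ∣ r → yy x < l) → Odd r := by
    intro r hr
    rw [← Nat.not_even_iff_odd]
    intro h
    have := hr 2 Nat.prime_two h.two_dvd
    omega
  have hcp : CPair A κ (cy x w1) (cy x w2) w1 w2 (ry x w1) (ry x w2) :=
    ⟨cell1, cell2, hne, eq1, eq2, hco1, hco2, hcop, hsmall⟩
  have hS : Shape s (cy x w1) (cy x w2) w1 w2 (ry x w1) (ry x w2) n :=
    ⟨hp1, hp2, hne, eq1, eq2, hodd _ hr1, hodd _ hr2,
      QE2_one hp1.two_le hA1 hκ1 cell1.2.1 hc1, QE2_one hp2.two_le hA1 hκ1 cell2.2.1 hc2,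
      hco1, hco2, hcop, hd1, hd2⟩
  have hA0κ : A0 ^ κ ≤ A ^ κ := Real.rpow_le_rpow (by linarith) hA0A hκ.le
  have hND : ND (FW w1 w2) (s - 1) (ry x w1 * ry x w2) n := by
    by_contra hcon
    refine hbad c hc ⟨hn0, ?_, ?_, ⟨p, hp, ?_, ?_⟩, _, _, w1, w2, _, _, hcp, hd1, hd2, hcon⟩
    · exact hΩ.trans (hL2.trans hA0κ)
    · intro q hq hZ
      refine hsq q hq (lt_of_le_of_lt ?_ hZ)
      unfold ZA
      refine Real.exp_le_exp.mpr (mul_le_mul_of_nonneg_left ?_ (by norm_num))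
      exact Real.rpow_le_rpow (by linarith) hA0A (by norm_num)
    · rw [hn]
      exact dvd_mul_left _ _
    · exact lt_of_le_of_lt (Real.exp_le_exp.mpr hsm) hpL
  have hcop2s : ∀ r : ℕ, (∀ l : ℕ, l.Prime → l ∣ r → yy x < l) →
      ∀ l : ℕ, l.Prime → l ∣ r → l.Coprime (2 * s) := by
    intro r hr l hl hlr
    refine (Nat.Prime.coprime_iff_not_dvd hl).mpr fun h => ?_
    have h1 := Nat.le_of_dvd (by omega) h
    have h2 := hr l hl hlr
    omega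
  have hNP : ∀ q : ℕ, q.Prime → q ∣ n → zD D x < q → NP w1 (ry x w1) q ∧ NP w2 (ry x w2) q := by
    intro q hq hqn hzq
    rw [hn] at hqn
    rcases hq.dvd_mul.mp hqn with h | h
    · exact ⟨hq1 q hq h hzq, hq2 q hq h hzq⟩
    · rw [Nat.prime_dvd_prime_iff_eq hq hp] at h
      rw [h]
      exact ⟨np_top s w1 _ n m p (by omega) hp1 (hcop2s _ hr1) (Or.inl hd1) hn hm1,
        np_top s w2 _ n m p (by omega) hp2 (hcop2s _ hr2) (Or.inr hd2) hn hm2⟩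
  have hz : (zD D x : ℝ) ≤ Real.exp A := by
    have hL1 : 0 < Real.log x := by
      refine Real.log_pos ?_
      exact_mod_cast (by omega : 1 < x)
    have h1 : (zD D x : ℝ) ≤ Real.log x ^ D := by
      unfold zD
      exact Nat.floor_le (by positivity)
    have h2 : Real.log x ^ D = Real.exp ((D : ℝ) * LL x) := by
      rw [Real.exp_nat_mul]
      unfold LL
      rw [Real.exp_log hL1]
    rw [h2] at h1
    refine h1.trans (Real.exp_le_exp.mpr (hLD.trans ?_))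
    calc A0 ^ κ ≤ A0 ^ (1 : ℝ) := Real.rpow_le_rpow_of_exponent_le hA0 (by linarith)
      _ = A0 := Real.rpow_one _
      _ ≤ A := hA0A
  have hY1 : zD D x < w1 := by
    have := lt_of_le_of_lt hz cell1.2.1
    exact_mod_cast this
  have hY2 : zD D x < w2 := by
    have := lt_of_le_of_lt hz cell2.2.1
    exact_mod_cast this
  exact excl_B hs hn0 hY1 hY2 hgb ho1 ho2 hS hNP hND

end Pool.Agent.Lib.MP_79499b_co.QZ
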