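import Pool.Agent.Lib.MP_79499b_co.QZ.QDefD
import Pool.Agent.Lib.MP_79499b_co.QZ.QS5

/-!
# QE3: the cofactor of the top prime is normal

`nrm_of`: `x` large, `n < x` not discarded, with two prime factors `> zD D x` (`Two`). Then `n = m p` with a prime `p > exp(L/(C1 LL))` and `m` normal.

Proof. `n ≠ 0`; since not all prime factors are `≤ exp(L/(C1 LL))`, there is a prime `p ∣ n`, `p > exp(L/(C1 LL))`; `n = m p`, `m ≠ 0`. For `x` large
`exp(L/(C1 LL)) ≥ ZA (AC 0)` (`2 (AC 0)^(1/2) ≤ L/(C1 LL)`: `AC_small`, `AC 0 ≥ 1`), so `p² ∤ n`. Let `p' q' ∣ n` be the two primes `> zD` of `Two`; not both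
are `p`; say `q0` is one of them, `q0 ≠ p`; `q0 ∣ m p` so `q0 ∣ m`, `m = a q0`. `n = p (a q0)`, not discarded, so `Hs m ≤ LL^(-2) ≤ 1`.
For a prime `q ∣ m`, `q > zD`: `n = (n/q) (1 q)`, so `Hs q ≤ LL^(-2)`; the number of primes dividing `m` is at most `Ω(n) ≤ C2 LL`, so
`∑ Hs q ≤ C2 LL LL^(-2) ≤ 1` for large `x`.
-/

set_option autoImplicit false

namespace Pool.Agent.Lib.MP_79499b_co.QZ

open Finset DZ

theorem nrm_of (κ : ℝ) (hκ : 0 < κ) (hκ1 : κ ≤ 1 / 100) (K D s : ℕ) (hK : 1 ≤ K) (C1 C2 : ℝ)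
    (hC1 : 0 < C1) : ∃ x0 : ℕ, ∀ x : ℕ, x0 ≤ x → ∀ n : ℕ, ¬ Disc κ K D s C1 C2 x n →
      Two (zD D x) n → ∃ m p : ℕ, n = m * p ∧ p.Prime ∧
        Real.exp (Real.log x / (C1 * LL x)) < p ∧ Nrm κ K D x m := by
  classical
  obtain ⟨x1, h1⟩ := AC_small κ hκ K (2 * C1) (by positivity)
  obtain ⟨x2, h2⟩ := Filter.eventually_atTop.mp
    ((LL_tend.eventually_ge_atTop 1).and (LL_tend.eventually_ge_atTop C2))
  refine ⟨max (max x1 x2) 3, fun x hx n hD hT => ?_⟩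
  have hx1 : x1 ≤ x := (le_max_left _ _).trans ((le_max_left _ _).trans hx)
  have hx2 : x2 ≤ x := (le_max_right _ _).trans ((le_max_left _ _).trans hx)
  have hx3 : 3 ≤ x := (le_max_right _ _).trans hx
  have hA := h1 x hx1 0 (by omega)
  obtain ⟨hLL1, hLLC⟩ := h2 x hx2
  have hA1 := (AC_mono κ hκ K x hx3 0 0 le_rfl).1
  have hL0 : 0 < LL x := by linarith
  unfold Disc at hD
  push Not at hD
  obtain ⟨hn0, ⟨p, hp, hpn, hpx⟩, hOm, hsq, _, _, hH⟩ := hD
  have hZ : ZA (AC κ K x 0) < p := by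
    refine lt_of_le_of_lt ?_ hpx
    unfold ZA
    apply Real.exp_le_exp.mpr
    have h3 : AC κ K x 0 ^ (1 / 2 : ℝ) ≤ AC κ K x 0 ^ (1 + 7 * κ) :=
      Real.rpow_le_rpow_of_exponent_le hA1 (by linarith)
    have h4 : Real.log x / (2 * C1 * LL x) = Real.log x / (C1 * LL x) / 2 := by
      field_simp
    rw [h4] at hA
    linarith
  have hp2 : ¬ p ^ 2 ∣ n := hsq p hp hZ
  obtain ⟨m, hm⟩ := hpn
  have hnm : n = m * p := by rw [hm, mul_comm]
  have hm0 : m ≠ 0 := by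
    rintro rfl
    exact hn0 (by rw [hnm, zero_mul])
  have hmn : m ∣ n := ⟨p, hnm⟩
  -- a second large prime
  obtain ⟨q0, hq0, hq0z, hq0n, hq0p⟩ : ∃ q0 : ℕ, q0.Prime ∧ zD D x < q0 ∧ q0 ∣ n ∧ q0 ≠ p := by
    obtain ⟨p', q', hp', hq', hpz, hqz, hd⟩ := hT
    by_cases h5 : p' = p
    · by_cases h6 : q' = p
      · exfalso
        apply hp2
        rw [h5, h6] at hd
        rw [sq]
        exact hd
      · exact ⟨q', hq', hqz, (dvd_mul_left _ _).trans hd, h6⟩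
    · exact ⟨p', hp', hpz, (dvd_mul_right _ _).trans hd, h5⟩
  have hq0m : q0 ∣ m := by
    rw [hnm] at hq0n
    rcases hq0.dvd_mul.mp hq0n with h5 | h5
    · exact h5
    · exact absurd ((Nat.prime_dvd_prime_iff_eq hq0 hp).mp h5) hq0p
  refine ⟨m, p, hnm, hp, hpx, hm0, ?_, ?_⟩
  · obtain ⟨a, ha⟩ := hq0m
    have h5 := hH p a q0 (by rw [hm, ha, mul_comm q0 a]) hq0 hq0z
    rw [mul_comm a q0, ← ha] at h5
    refine h5.trans ?_
    exact inv_le_one_of_one_le₀ (one_le_pow₀ hLL1)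
  · have h6 : ∀ q ∈ m.primeFactors.filter (fun q => zD D x < q), Hs κ K D x q ≤ (LL x ^ 2)⁻¹ := by
      intro q hq
      rw [mem_filter, Nat.mem_primeFactors] at hq
      obtain ⟨⟨hqp, hqm, _⟩, hqz⟩ := hq
      obtain ⟨k, hk⟩ := hqm.trans hmn
      have h7 := hH k 1 q (by rw [one_mul, hk, mul_comm]) hqp hqz
      rwa [one_mul] at h7
    have h8 : ((m.primeFactors.filter (fun q => zD D x < q)).card : ℝ) ≤ C2 * LL x := by
      refine le_trans ?_ hOm
      have h9 : (m.primeFactors.filter (fun q => zD D x < q)).card ≤ n.primeFactorsList.length :=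
        (card_le_card (filter_subset _ _)).trans
          ((card_le_card (Nat.primeFactors_mono hmn hn0)).trans (List.toFinset_card_le _))
      exact_mod_cast h9
    calc ∑ q ∈ m.primeFactors.filter (fun q => zD D x < q), Hs κ K D x q
        ≤ ∑ _q ∈ m.primeFactors.filter (fun q => zD D x < q), (LL x ^ 2)⁻¹ := sum_le_sum h6
      _ = ((m.primeFactors.filter (fun q => zD D x < q)).card : ℝ) * (LL x ^ 2)⁻¹ := by
          rw [sum_const, nsmul_eq_mul]
      _ ≤ C2 * LL x * (LL x ^ 2)⁻¹ := by gcongr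
      _ ≤ LL x * LL x * (LL x ^ 2)⁻¹ := by gcongr
      _ = 1 := by
          field_simp

end Pool.Agent.Lib.MP_79499b_co.QZ
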