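import Pool.Agent.Lib.MP_79499b_co.QZ.QV5
import Pool.Agent.Lib.MP_79499b_co.QZ.QD4
import Pool.Agent.Lib.MP_79499b_co.QZ.QE2
import Pool.Agent.Lib.MP_79499b_co.QZ.QE3

/-!
# QF1: orders with two large prime factors are rare

`main_B`: for `s ≥ 2`, `ε > 0` there is `D` such that for `x` large the number of `n < x` which are orders (nilpotent groups, dimension `2s`) and have
two prime factors `> zD D x` (with multiplicity) is at most `x exp(-(rr s - ε) LL)`.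

Proof. Choose `κ ≤ 1/100` and `K` with `sg κ K s ≥ 1 + rr s - ε/4` (`sg → 1 + rr s` as `κ → 0`, `K → ∞`: first `κ`, then `K`), `B ≥ rr s + 1`,
`disc_few` gives `D`, `C1`, `C2`. An `n < x` which is an order with `Two` is discarded (`≤ x/L^B`), or by `nrm_of` `n = m p`, `m` normal, and by `pair_excl` no
cell has a `Pair`: `sieve_all` with `η = ε/4`: `≤ x exp(-(rr s - ε/2) LL)`. The sum is `≤ x exp(-(rr s - ε) LL)` for `x` large.
-/

set_option autoImplicit false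

namespace Pool.Agent.Lib.MP_79499b_co.QZ

open Finset DZ
open scoped Classical

/-- choice of the parameters -/
private theorem qf1_par (s : ℕ) (ε : ℝ) (hε : 0 < ε) : ∃ (κ : ℝ) (K : ℕ), 0 < κ ∧ κ ≤ 1 / 100 ∧
    1 ≤ K ∧ 1 + rr s - ε / 4 ≤ sg κ K s := by
  obtain ⟨r, hr⟩ : ∃ r : ℝ, r = rr s := ⟨_, rfl⟩
  have hr0 : 0 ≤ r := by
    rw [hr]
    exact Nat.cast_nonneg _
  obtain ⟨κ, hκ⟩ : ∃ κ : ℝ, κ = min (1 / 100) (ε / (64 * (1 + r))) := ⟨_, rfl⟩
  have hκ0 : 0 < κ := by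
    rw [hκ]
    exact lt_min (by norm_num) (by positivity)
  have hκ1 : κ ≤ 1 / 100 := by
    rw [hκ]
    exact min_le_left _ _
  have hκ2 : 8 * κ * (1 + r) ≤ ε / 8 := by
    have h1 : κ ≤ ε / (64 * (1 + r)) := by
      rw [hκ]
      exact min_le_right _ _
    rw [le_div_iff₀ (by positivity)] at h1
    linarith
  obtain ⟨K, hK⟩ := pow_unbounded_of_one_lt (8 * r / ε) (show 1 < 1 + κ by linarith)
  refine ⟨κ, K + 1, hκ0, hκ1, by omega, ?_⟩
  have hK2 : 8 * r / ε < (1 + κ) ^ (K + 1) := by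
    refine hK.trans_le ?_
    exact pow_le_pow_right₀ (by linarith) (by omega)
  have hP : 0 < (1 + κ) ^ (K + 1) := by positivity
  have hP1 : 1 ≤ (1 + κ) ^ (K + 1) := one_le_pow₀ (by linarith)
  have h2 : r * (1 / (1 + κ) ^ (K + 1)) ≤ ε / 8 := by
    rw [mul_one_div, div_le_iff₀ hP]
    rw [div_lt_iff₀ hε] at hK2
    nlinarith
  have hδ1 : 1 / (1 + κ) ^ (K + 1) ≤ 1 := by
    rw [div_le_one hP]
    exact hP1
  have hδ0 : 0 ≤ 1 / (1 + κ) ^ (K + 1) := by positivity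
  unfold sg
  rw [← hr]
  generalize 1 / (1 + κ) ^ (K + 1) = δ at h2 hδ0 hδ1 ⊢
  have h3 : 1 - 8 * κ ≤ 1 / (1 + 8 * κ) := by
    rw [le_div_iff₀ (by positivity)]
    nlinarith [mul_pos hκ0 hκ0]
  have h4 : 0 ≤ 1 + r * (1 - δ) := by
    have := mul_nonneg hr0 (sub_nonneg.2 hδ1)
    linarith
  have h5 : (1 - 8 * κ) * (1 + r * (1 - δ)) ≤ 1 / (1 + 8 * κ) * (1 + r * (1 - δ)) :=
    mul_le_mul_of_nonneg_right h3 h4
  have h6 : 0 ≤ κ * (r * δ) := mul_nonneg hκ0.le (mul_nonneg hr0 hδ0)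
  nlinarith

theorem main_B (s : ℕ) (hs : 2 ≤ s) (ε : ℝ) (hε : 0 < ε) : ∃ D x0 : ℕ, 1 ≤ D ∧ ∀ x : ℕ, x0 ≤ x →
    cnt x (fun n => NilOrder n (2 * s) ∧ Two (zD D x) n) ≤
      x * Real.exp (-((rr s - ε) * LL x)) := by
  obtain ⟨κ, K, hκ, hκ1, hK, hsg⟩ := qf1_par s ε hε
  obtain ⟨D, C1, C2, x1, hD, hC1, hC2, h1⟩ := disc_few κ hκ hκ1 K s (rr s + 1) hK hs
  obtain ⟨x2, h2⟩ := pair_excl κ hκ hκ1 K D s hs C1 C2 hC1
  obtain ⟨x3, h3⟩ := nrm_of κ hκ hκ1 K D s hK C1 C2 hC1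
  obtain ⟨x4, h4⟩ := sieve_all κ hκ hκ1 K D s (by omega) C1 (ε / 4) hC1 (by positivity)
  obtain ⟨x5, h5⟩ := Filter.eventually_atTop.mp
    ((LL_tend.eventually_ge_atTop (2 / ε)).and (log_tend.eventually_ge_atTop 1))
  refine ⟨D, max (max x1 x2) (max x3 (max x4 x5)), hD, fun x hx => ?_⟩
  simp only [max_le_iff] at hx
  obtain ⟨⟨hx1, hx2⟩, hx3, hx4, hx5⟩ := hx
  have g1 := h1 x hx1
  have g4 := h4 x hx4
  obtain ⟨g5, g6⟩ := h5 x hx5
  have hcov : cnt x (fun n => NilOrder n (2 * s) ∧ Two (zD D x) n) ≤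
      cnt x (fun n => Disc κ K D s C1 C2 x n ∨ ∃ m p : ℕ, n = m * p ∧ p.Prime ∧
        Real.exp (Real.log x / (C1 * LL x)) < p ∧ Nrm κ K D x m ∧
        ∀ c < K, ¬ Pair κ K D s x c m n) := by
    refine cnt_mono fun n _ hn => ?_
    by_cases hd : Disc κ K D s C1 C2 x n
    · exact Or.inl hd
    · obtain ⟨m, p, e1, e2, e3, e4⟩ := h3 x hx3 n hd hn.2
      refine Or.inr ⟨m, p, e1, e2, e3, e4, fun c hc hp => ?_⟩
      exact h2 x hx2 n m p c hd e1 e2 e3 hc hp hn.1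
  refine hcov.trans ((cnt_or x _ _).trans ?_)
  have hx0 : (0 : ℝ) ≤ x := Nat.cast_nonneg _
  have hlog : Real.log x = Real.exp (LL x) := by
    unfold LL
    rw [Real.exp_log (by linarith)]
  have ht0 : 0 < LL x := lt_of_lt_of_le (by positivity) g5
  have hdis : (x : ℝ) / Real.log x ^ (rr s + 1) = x * Real.exp (-((rr s + 1) * LL x)) := by
    rw [hlog, ← Real.exp_nat_mul, Real.exp_neg, div_eq_mul_inv]
    push_cast
    rfl
  rw [hdis] at g1
  refine (add_le_add g1 g4).trans ?_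
  have e1 : Real.exp (-((rr s + 1) * LL x)) ≤ Real.exp (-((rr s - ε / 2) * LL x)) := by
    apply Real.exp_le_exp.2
    nlinarith
  have e2 : Real.exp (-((sg κ K s - 1 - ε / 4) * LL x)) ≤ Real.exp (-((rr s - ε / 2) * LL x)) := by
    apply Real.exp_le_exp.2
    have : (rr s - ε / 2) * LL x ≤ (sg κ K s - 1 - ε / 4) * LL x :=
      mul_le_mul_of_nonneg_right (by linarith) ht0.le
    linarith
  have e3 : 2 * Real.exp (-((rr s - ε / 2) * LL x)) ≤ Real.exp (-((rr s - ε) * LL x)) := by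
    have e4 : Real.exp (-((rr s - ε) * LL x)) =
        Real.exp (ε / 2 * LL x) * Real.exp (-((rr s - ε / 2) * LL x)) := by
      rw [← Real.exp_add]
      congr 1
      ring
    rw [e4]
    apply mul_le_mul_of_nonneg_right _ (Real.exp_pos _).le
    have e5 : 1 ≤ ε / 2 * LL x := by
      have := mul_le_mul_of_nonneg_left g5 (show 0 ≤ ε / 2 by positivity)
      have e6 : ε / 2 * (2 / ε) = 1 := by field_simp
      linarith
    have := Real.add_one_le_exp (ε / 2 * LL x)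
    linarith
  calc (x : ℝ) * Real.exp (-((rr s + 1) * LL x)) +
      x * Real.exp (-((sg κ K s - 1 - ε / 4) * LL x)) ≤
      x * Real.exp (-((rr s - ε / 2) * LL x)) + x * Real.exp (-((rr s - ε / 2) * LL x)) :=
        add_le_add (mul_le_mul_of_nonneg_left e1 hx0) (mul_le_mul_of_nonneg_left e2 hx0)
    _ = x * (2 * Real.exp (-((rr s - ε / 2) * LL x))) := by ring
    _ ≤ x * Real.exp (-((rr s - ε) * LL x)) := mul_le_mul_of_nonneg_left e3 hx0

end Pool.Agent.Lib.MP_79499b_co.QZ
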