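import Pool.Agent.Lib.MP_79499b_co.EO.S2
import Pool.Agent.Lib.MP_79499b_co.DZ.LX
import Pool.Agent.Lib.MP_79499b_co.QZ.QDefC

/-!
# QF2: few integers have at most one large prime factor

`few_two`: for every `D ≥ 1`, `x` large: at most `x LL^2/L` integers `0 < n < x` do not have two prime factors (with multiplicity) `> zD D x = ⌊L^D⌋`.

Proof. `y = zD D x`. Let `d = sm y n`, `n = d u`, all prime factors of `u` are `> y` (`sm_facts`); `u = 1` or `u` prime (otherwise `u` has two prime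
factors). (a) `d ≥ x^(1/4)`: `sm_count` with `S = x^(1/4)`, `σ = 1/(D LL)`: `y^σ ≤ e`, `S^(-σ) = exp(-L/(4 D LL))`: at most `x/L`-many by far (`≤ x/(3L)`).
(b) `d < x^(1/4)`, `u` prime, `u < x/d`: Chebyshev (`LX_pi`: `π(x/d) ≤ 7 (x/d)/L` for `d ≤ x^(1/2)`), sum over the `y`-smooth `d ≤ x^(1/4)`: `∑ 1/d ≤ ∏_{p ≤ y} (1 - 1/p)^(-1)
≤ exp(C (1 + log(1 + log y)))`... this would be a power; use instead Mertens: `∏_{p ≤ y} (1-1/p)^(-1) ≤ exp(∑ 1/p + 2) ≤ C (1 + log y) ≤ C' LL`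
(`s1_msum`: `∑_{p ≤ y} 1/p ≤ log(1 + log y) + C`; `(1-t)^(-1) ≤ exp(t + 2 t^2)` for `t ≤ 1/2`, `∑ 1/p^2 ≤ 1`). So at most `7 C' x LL/L ≤ x LL^2/(3 L)`.
(c) `u = 1`, `d = n < x^(1/4)`: at most `x^(1/4) ≤ x/(3L)`.
-/

set_option autoImplicit false

namespace Pool.Agent.Lib.MP_79499b_co.QZ

open Finset DZ
open scoped Classical

private theorem QF2_inv {t : ℝ} (h0 : 0 ≤ t) (h1 : t ≤ 1 / 2) :
    (1 - t)⁻¹ ≤ Real.exp (t + 2 * t ^ 2) := by
  have h2 : (1 - t)⁻¹ ≤ 1 + (t + 2 * t ^ 2) := by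
    rw [inv_le_iff_one_le_mul₀ (by linarith)]
    nlinarith [mul_nonneg (sq_nonneg t) (show 0 ≤ 1 - 2 * t by linarith)]
  have := Real.add_one_le_exp (t + 2 * t ^ 2)
  linarith

private theorem QF2_sq (y : ℕ) (hy : 2 ≤ y) :
    ∑ p ∈ (Icc 1 y).filter Nat.Prime, ((p : ℝ)⁻¹) ^ 2 ≤ 1 := by
  have h1 := sum_Ioc_inv_sq_le_sub (α := ℝ) (k := 1) (n := y) one_ne_zero (by omega)
  have h2 : ∑ p ∈ (Icc 1 y).filter Nat.Prime, ((p : ℝ)⁻¹) ^ 2 ≤
      ∑ i ∈ Ioc 1 y, ((i : ℝ) ^ 2)⁻¹ := by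
    have h3 : ∑ p ∈ (Icc 1 y).filter Nat.Prime, ((p : ℝ)⁻¹) ^ 2 =
        ∑ p ∈ (Icc 1 y).filter Nat.Prime, ((p : ℝ) ^ 2)⁻¹ :=
      sum_congr rfl fun p _ => inv_pow _ _
    rw [h3]
    refine sum_le_sum_of_subset_of_nonneg ?_ fun _ _ _ => by positivity
    intro p hp
    rw [mem_filter, mem_Icc] at hp
    exact mem_Ioc.2 ⟨hp.2.one_lt, hp.1.2⟩
  have h4 : 0 ≤ ((y : ℝ))⁻¹ := by positivity
  norm_num at h1
  linarith

private theorem QF2_smooth : ∃ C : ℝ, 0 < C ∧ ∀ y M : ℕ, 2 ≤ y →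
    ∑ b ∈ (Icc 1 M).filter (fun b : ℕ => ∀ p ∈ b.primeFactors, p ≤ y), ((b : ℝ))⁻¹ ≤
      C * (1 + Real.log y) := by
  obtain ⟨C, hC0, hC⟩ := EO.s1_msum
  refine ⟨Real.exp (C + 2), Real.exp_pos _, fun y M hy => ?_⟩
  obtain ⟨T, hT⟩ : ∃ T : Finset ℕ, T = (Icc 1 y).filter Nat.Prime := ⟨_, rfl⟩
  have hTp : ∀ p ∈ T, p.Prime := fun p hp => by
    rw [hT] at hp
    exact (mem_filter.1 hp).2
  have hhalf : ∀ p ∈ T, ((p : ℝ))⁻¹ ≤ 1 / 2 := by
    intro p hp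
    have hp2 : (2 : ℝ) ≤ p := by exact_mod_cast (hTp p hp).two_le
    rw [one_div]
    exact inv_anti₀ (by norm_num) hp2
  have h1 := Sieve.sum_primeFactors_subset_le (fun n : ℕ => ((n : ℝ))⁻¹)
    (fun n => by positivity) (by simp)
    (fun m n => by push_cast; rw [mul_inv]) M T hTp
    (fun p hp => lt_of_le_of_lt (hhalf p hp) (by norm_num))
  have h2 : ∏ p ∈ T, (1 - ((p : ℝ))⁻¹)⁻¹ ≤
      Real.exp (∑ p ∈ T, (((p : ℝ))⁻¹ + 2 * (((p : ℝ))⁻¹) ^ 2)) := by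
    rw [Real.exp_sum]
    refine prod_le_prod (fun p hp => ?_) (fun p hp => QF2_inv (by positivity) (hhalf p hp))
    have := hhalf p hp
    exact inv_nonneg.2 (by linarith)
  have h3 : ∑ p ∈ T, (((p : ℝ))⁻¹ + 2 * (((p : ℝ))⁻¹) ^ 2) ≤
      Real.log (1 + Real.log y) + (C + 2) := by
    rw [sum_add_distrib, ← mul_sum, hT]
    have h4 := hC y hy
    have h5 := QF2_sq y hy
    linarith
  have hy0 : 0 ≤ Real.log y := Real.log_natCast_nonneg y
  have h6 : Real.exp (Real.log (1 + Real.log y) + (C + 2)) =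
      Real.exp (C + 2) * (1 + Real.log y) := by
    rw [Real.exp_add, Real.exp_log (by linarith)]
    ring
  have h7 : ∑ b ∈ (Icc 1 M).filter (fun b : ℕ => ∀ p ∈ b.primeFactors, p ≤ y), ((b : ℝ))⁻¹ ≤
      ∑ m ∈ Icc 1 M with m.primeFactors ⊆ T, ((m : ℝ))⁻¹ := by
    refine sum_le_sum_of_subset_of_nonneg ?_ fun _ _ _ => by positivity
    intro b hb
    rw [mem_filter] at hb ⊢
    refine ⟨hb.1, fun p hp => ?_⟩
    have hpp := Nat.prime_of_mem_primeFactors hp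
    rw [hT]
    exact mem_filter.2 ⟨mem_Icc.2 ⟨hpp.one_lt.le, hb.2 p hp⟩, hpp⟩
  rw [← h6]
  exact h7.trans (h1.trans (h2.trans (Real.exp_le_exp.2 h3)))

private theorem QF2_struct (y n : ℕ) (hn : n ≠ 0) (h : ¬ Two y n) :
    n = EO.sm y n ∨ ∃ p : ℕ, p.Prime ∧ n = p * EO.sm y n := by
  obtain ⟨g1, g2, g3⟩ := EO.sm_facts y n (Nat.one_le_iff_ne_zero.2 hn)
  obtain ⟨u, hu⟩ : ∃ u : ℕ, u =
      ∏ p ∈ n.primeFactors.filter (fun p => y < p), p ^ n.factorization p := ⟨_, rfl⟩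
  rw [← hu] at g3
  have hbig : ∀ q : ℕ, q.Prime → q ∣ u → y < q := by
    intro q hq hqu
    rw [hu] at hqu
    obtain ⟨p, hp, hpq⟩ := (Nat.prime_iff.mp hq).exists_mem_finset_dvd hqu
    rw [mem_filter, Nat.mem_primeFactors] at hp
    have h1 := hq.dvd_of_dvd_pow hpq
    rw [Nat.prime_dvd_prime_iff_eq hq hp.1.1] at h1
    rw [h1]
    exact hp.2
  by_cases hu1 : u = 1
  · left
    rw [hu1, mul_one] at g3
    exact g3.symm
  · right
    obtain ⟨p, hp, hpu⟩ := Nat.exists_prime_and_dvd hu1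
    obtain ⟨v, hv⟩ := hpu
    by_cases hv1 : v = 1
    · refine ⟨p, hp, ?_⟩
      rw [hv1, mul_one] at hv
      rw [← hv, mul_comm]
      exact g3.symm
    · exfalso
      obtain ⟨q, hq, hqv⟩ := Nat.exists_prime_and_dvd hv1
      refine h ⟨p, q, hp, hq, hbig p hp (hv ▸ dvd_mul_right p v),
        hbig q hq (hv ▸ hqv.mul_left p), ?_⟩
      have h1 : p * q ∣ u := by
        rw [hv]
        exact mul_dvd_mul_left p hqv
      exact h1.trans ⟨EO.sm y n, by rw [mul_comm]; exact g3.symm⟩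

private theorem QF2_pi (x : ℕ) (T : Finset ℕ) (hT : ∀ b ∈ T, 1 ≤ b) :
    cnt x (fun n => ∃ b ∈ T, ∃ p : ℕ, p.Prime ∧ n = p * b) ≤
      ∑ b ∈ T, (Nat.primeCounting (x / b) : ℝ) := by
  refine (cnt_exists x T (fun b n => ∃ p : ℕ, p.Prime ∧ n = p * b)).trans ?_
  refine sum_le_sum fun b hb => ?_
  have hb1 := hT b hb
  unfold EO.cnt
  rw [Nat.primeCounting, Nat.primeCounting', Nat.count_eq_card_filter_range]
  refine Nat.cast_le.mpr ?_
  refine (card_le_card ?_).trans (card_image_le (f := fun p => p * b))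
  intro n hn
  rw [mem_filter, mem_range] at hn
  obtain ⟨hnx, p, hp, rfl⟩ := hn
  rw [mem_image]
  refine ⟨p, ?_, rfl⟩
  rw [mem_filter, mem_range]
  refine ⟨?_, hp⟩
  exact Nat.lt_succ_of_le ((Nat.le_div_iff_mul_le (by omega)).2 hnx.le)

private theorem QF2_small (x B : ℕ) (P : ℕ → Prop) (h : ∀ n, P n → 1 ≤ n ∧ n ≤ B) :
    cnt x P ≤ B := by
  unfold EO.cnt
  refine Nat.cast_le.mpr ?_
  refine (card_le_card (t := Icc 1 B) ?_).trans ?_
  · intro n hn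
    rw [mem_filter] at hn
    exact mem_Icc.2 (h n hn.2)
  · rw [Nat.card_Icc]
    omega

theorem few_two (D : ℕ) (hD : 1 ≤ D) : ∃ x0 : ℕ, ∀ x : ℕ, x0 ≤ x →
    cnt x (fun n => n ≠ 0 ∧ ¬ Two (zD D x) n) ≤ x * LL x ^ 2 / Real.log x := by
  obtain ⟨C, hC0, hC⟩ := EO.sm_count
  obtain ⟨C', hC'0, hC'⟩ := QF2_smooth
  have hDR : (1 : ℝ) ≤ D := by exact_mod_cast hD
  have e1 := (isLittleO_log_rpow_atTop (show (0 : ℝ) < 1 / 2 by norm_num)).bound (one_pos)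
  have e1' := tendsto_natCast_atTop_atTop.eventually e1
  have e2 := LL_tend.eventually_ge_atTop (4 * D * (3 * C * (1 + D) + 1))
  have e3 := LL_tend.eventually_ge_atTop (21 * C' * (1 + D))
  have e4 := LL_tend.eventually_ge_atTop 4
  have e5 := LL_tend.eventually
    ((Real.isLittleO_pow_exp_atTop (n := 3)).bound (one_pos))
  obtain ⟨x0, hx0⟩ := Filter.eventually_atTop.1
    (LX_pi.and (e1'.and (e2.and (e3.and (e4.and e5)))))
  refine ⟨max 3 x0, fun x hx => ?_⟩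
  have hx3 : 3 ≤ x := (le_max_left _ _).trans hx
  obtain ⟨f0, f1, f2, f3, f4, f5⟩ := hx0 x ((le_max_right _ _).trans hx)
  have hxp : (0 : ℝ) < x := by exact_mod_cast (by omega : 0 < x)
  have hx1 : (1 : ℝ) < x := by exact_mod_cast (by omega : 1 < x)
  obtain ⟨L, hL⟩ : ∃ L : ℝ, L = Real.log x := ⟨_, rfl⟩
  have hLpos : 0 < L := by rw [hL]; exact Real.log_pos hx1
  obtain ⟨t, ht⟩ : ∃ t : ℝ, t = LL x := ⟨_, rfl⟩
  have hexpt : Real.exp t = L := by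
    rw [ht, hL]
    unfold LL
    exact Real.exp_log (by rw [← hL]; exact hLpos)
  rw [← ht] at f2 f3 f4 f5 ⊢
  rw [← hL]
  rw [← hL, Real.norm_of_nonneg hLpos.le, Real.norm_of_nonneg (by positivity), one_mul] at f1
  rw [Real.norm_of_nonneg (by positivity), Real.norm_of_nonneg (Real.exp_pos _).le, one_mul,
    hexpt] at f5
  have ht0 : 0 < t := by linarith
  -- the bound for small primes
  obtain ⟨y, hy⟩ : ∃ y : ℕ, y = zD D x := ⟨_, rfl⟩
  rw [← hy]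
  have hyL : (y : ℝ) ≤ L ^ D := by
    rw [hy, hL]
    unfold zD
    exact Nat.floor_le (by rw [← hL]; positivity)
  have hL2 : 2 ≤ L := by
    rw [← hexpt]
    have := Real.add_one_le_exp t
    linarith
  have hy2 : 2 ≤ y := by
    rw [hy]
    unfold zD
    refine Nat.le_floor ?_
    rw [← hL]
    calc ((2 : ℕ) : ℝ) ≤ L := by exact_mod_cast hL2
      _ = L ^ 1 := (pow_one L).symm
      _ ≤ L ^ D := pow_le_pow_right₀ (by linarith) hD
  have hyp : (0 : ℝ) < y := by exact_mod_cast (by omega : 0 < y)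
  have hlogy0 : 0 ≤ Real.log y := Real.log_natCast_nonneg y
  have hlogy : Real.log y ≤ D * t := by
    have h1 := Real.log_le_log hyp hyL
    rw [Real.log_pow, ← hexpt, Real.log_exp] at h1
    exact h1
  have hDt : 0 < D * t := by positivity
  -- (a)
  obtain ⟨S, hS⟩ : ∃ S : ℝ, S = (x : ℝ) ^ (1 / 4 : ℝ) := ⟨_, rfl⟩
  have hS1 : 1 ≤ S := by rw [hS]; exact Real.one_le_rpow hx1.le (by norm_num)
  have ha : cnt x (fun n => 1 ≤ n ∧ S ≤ (EO.sm y n : ℝ)) ≤ x * t ^ 2 / (3 * L) := by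
    have hσ : (0 : ℝ) < 1 / (D * t) := by positivity
    have hσ4 : 1 / (D * t) ≤ 1 / 4 := by
      apply one_div_le_one_div_of_le (by norm_num)
      nlinarith
    have h1 := hC y x S (1 / (D * t)) hy2 hS1 hσ hσ4
    refine h1.trans ?_
    have h2 : S ^ (-(1 / (D * t))) = Real.exp (-(L / (4 * (D * t)))) := by
      rw [hS, ← Real.rpow_mul hxp.le, Real.rpow_def_of_pos hxp, ← hL]
      congr 1
      field_simp
    have h3 : (y : ℝ) ^ (1 / (D * t)) ≤ 3 := by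
      have h4 : (y : ℝ) ^ (1 / (D * t)) ≤ Real.exp 1 := by
        rw [Real.rpow_def_of_pos hyp]
        apply Real.exp_le_exp.2
        rw [mul_one_div, div_le_one hDt]
        exact hlogy
      have := Real.exp_one_lt_d9
      linarith
    have h5 : Real.log (1 + Real.log y) ≤ D * t := by
      have h6 := Real.log_le_sub_one_of_pos (show 0 < 1 + Real.log y by linarith)
      linarith
    have h7 : C * (y : ℝ) ^ (1 / (D * t)) * (1 + Real.log (1 + Real.log y)) ≤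
        C * 3 * (1 + D * t) := by
      apply mul_le_mul (mul_le_mul_of_nonneg_left h3 hC0.le) (by linarith)
      · have := Real.log_nonneg (show 1 ≤ 1 + Real.log y by linarith)
        linarith
      · positivity
    have h8 : C * 3 * (1 + D * t) + t ≤ L / (4 * (D * t)) := by
      rw [le_div_iff₀ (by positivity)]
      have h9 : C * 3 * (1 + D * t) + t ≤ (3 * C * (1 + D) + 1) * t := by nlinarith
      calc (C * 3 * (1 + D * t) + t) * (4 * (D * t)) ≤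
            ((3 * C * (1 + D) + 1) * t) * (4 * (D * t)) :=
            mul_le_mul_of_nonneg_right h9 (by positivity)
        _ = (4 * D * (3 * C * (1 + D) + 1)) * t ^ 2 := by ring
        _ ≤ t * t ^ 2 := mul_le_mul_of_nonneg_right f2 (by positivity)
        _ = t ^ 3 := by ring
        _ ≤ L := f5
    rw [h2, ← Real.exp_add]
    have h10 : Real.exp (-(L / (4 * (D * t))) +
        C * (y : ℝ) ^ (1 / (D * t)) * (1 + Real.log (1 + Real.log y))) ≤ 1 / L := by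
      calc Real.exp (-(L / (4 * (D * t))) +
        C * (y : ℝ) ^ (1 / (D * t)) * (1 + Real.log (1 + Real.log y))) ≤ Real.exp (-t) :=
            Real.exp_le_exp.2 (by linarith)
        _ = 1 / L := by rw [Real.exp_neg, hexpt, one_div]
    calc (x : ℝ) * Real.exp (-(L / (4 * (D * t))) +
        C * (y : ℝ) ^ (1 / (D * t)) * (1 + Real.log (1 + Real.log y))) ≤ x * (1 / L) :=
          mul_le_mul_of_nonneg_left h10 hxp.le
      _ ≤ x * t ^ 2 / (3 * L) := by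
          rw [mul_one_div, div_le_div_iff₀ hLpos (by positivity)]
          have : 3 ≤ t ^ 2 := by nlinarith
          nlinarith [mul_pos hxp hLpos]
  -- (b)
  obtain ⟨M, hM⟩ : ∃ M : ℕ, M = ⌊S⌋₊ := ⟨_, rfl⟩
  have hMS : (M : ℝ) ≤ S := by rw [hM]; exact Nat.floor_le (by linarith)
  have hS2 : S ≤ (x : ℝ) ^ (1 / 2 : ℝ) := by
    rw [hS]
    exact Real.rpow_le_rpow_of_exponent_le hx1.le (by norm_num)
  obtain ⟨T, hT⟩ : ∃ T : Finset ℕ,
      T = (Icc 1 M).filter (fun b : ℕ => ∀ p ∈ b.primeFactors, p ≤ y) := ⟨_, rfl⟩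
  have hT1 : ∀ b ∈ T, 1 ≤ b ∧ b ≤ M := fun b hb => by
    rw [hT, mem_filter, mem_Icc] at hb
    exact hb.1
  have hb : cnt x (fun n => ∃ b ∈ T, ∃ p : ℕ, p.Prime ∧ n = p * b) ≤ x * t ^ 2 / (3 * L) := by
    refine (QF2_pi x T fun b hb => (hT1 b hb).1).trans ?_
    have h1 : ∑ b ∈ T, (Nat.primeCounting (x / b) : ℝ) ≤
        ∑ b ∈ T, 7 * x / L * ((b : ℝ))⁻¹ := by
      refine sum_le_sum fun b hb => ?_
      obtain ⟨b1, b2⟩ := hT1 b hb
      have hbx : (b : ℝ) ≤ (x : ℝ) ^ (1 / 2 : ℝ) := by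
        have : (b : ℝ) ≤ M := by exact_mod_cast b2
        linarith
      have h2 := f0 b b1 hbx
      rw [← hL] at h2
      refine h2.trans (le_of_eq ?_)
      rw [div_eq_mul_inv (x : ℝ) b]
      ring
    have h2 := hC' y M hy2
    rw [← hT] at h2
    have h3 : ∑ b ∈ T, 7 * x / L * ((b : ℝ))⁻¹ ≤ 7 * x / L * (C' * (1 + D * t)) := by
      rw [← mul_sum]
      refine mul_le_mul_of_nonneg_left (h2.trans ?_) (by positivity)
      exact mul_le_mul_of_nonneg_left (by linarith) hC'0.le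
    refine (h1.trans h3).trans ?_
    rw [div_mul_eq_mul_div, div_le_div_iff₀ hLpos (by positivity)]
    have h4 : 21 * C' * (1 + D * t) ≤ t ^ 2 := by
      calc 21 * C' * (1 + D * t) ≤ 21 * C' * ((1 + D) * t) :=
            mul_le_mul_of_nonneg_left (by nlinarith) (by positivity)
        _ = (21 * C' * (1 + D)) * t := by ring
        _ ≤ t * t := mul_le_mul_of_nonneg_right f3 ht0.le
        _ = t ^ 2 := by ring
    calc 7 * (x : ℝ) * (C' * (1 + D * t)) * (3 * L) = (x * L) * (21 * C' * (1 + D * t)) := by ring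
      _ ≤ (x * L) * t ^ 2 := mul_le_mul_of_nonneg_left h4 (by positivity)
      _ = x * t ^ 2 * L := by ring
  -- (c)
  have hc : cnt x (fun n => n ≠ 0 ∧ n ≤ M) ≤ x * t ^ 2 / (3 * L) := by
    refine (QF2_small x M (fun n => n ≠ 0 ∧ n ≤ M) fun n h =>
      ⟨Nat.one_le_iff_ne_zero.2 h.1, h.2⟩).trans (hMS.trans (hS2.trans ?_))
    rw [le_div_iff₀ (by positivity)]
    have hsq : (x : ℝ) ^ (1 / 2 : ℝ) * (x : ℝ) ^ (1 / 2 : ℝ) = x := by
      rw [← Real.rpow_add hxp]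
      norm_num
    have hs0 : 0 < (x : ℝ) ^ (1 / 2 : ℝ) := by positivity
    calc (x : ℝ) ^ (1 / 2 : ℝ) * (3 * L) ≤
          (x : ℝ) ^ (1 / 2 : ℝ) * (3 * (x : ℝ) ^ (1 / 2 : ℝ)) :=
          mul_le_mul_of_nonneg_left (by linarith) hs0.le
      _ = ((x : ℝ) ^ (1 / 2 : ℝ) * (x : ℝ) ^ (1 / 2 : ℝ)) * 3 := by ring
      _ = x * 3 := by rw [hsq]
      _ ≤ x * t ^ 2 := mul_le_mul_of_nonneg_left (by nlinarith) hxp.le
  -- union
  have hall : cnt x (fun n => n ≠ 0 ∧ ¬ Two y n) ≤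
      cnt x (fun n => (1 ≤ n ∧ S ≤ (EO.sm y n : ℝ)) ∨
        ((∃ b ∈ T, ∃ p : ℕ, p.Prime ∧ n = p * b) ∨ (n ≠ 0 ∧ n ≤ M))) := by
    refine cnt_mono fun n _ h => ?_
    obtain ⟨h0, h2⟩ := h
    by_cases hSn : S ≤ (EO.sm y n : ℝ)
    · exact Or.inl ⟨Nat.one_le_iff_ne_zero.2 h0, hSn⟩
    · right
      have hsmM : EO.sm y n ≤ M := by
        rw [hM]
        exact Nat.le_floor (not_le.1 hSn).le
      obtain ⟨g1, g2, _⟩ := EO.sm_facts y n (Nat.one_le_iff_ne_zero.2 h0)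
      rcases QF2_struct y n h0 h2 with h | ⟨p, hp, h⟩
      · right
        refine ⟨h0, ?_⟩
        rw [h]
        exact hsmM
      · left
        refine ⟨EO.sm y n, ?_, p, hp, h⟩
        rw [hT, mem_filter, mem_Icc]
        exact ⟨⟨g1, hsmM⟩, g2⟩
  have h1 := cnt_or x (fun n => 1 ≤ n ∧ S ≤ (EO.sm y n : ℝ))
    (fun n => (∃ b ∈ T, ∃ p : ℕ, p.Prime ∧ n = p * b) ∨ (n ≠ 0 ∧ n ≤ M))
  have h2 := cnt_or x (fun n => ∃ b ∈ T, ∃ p : ℕ, p.Prime ∧ n = p * b)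
    (fun n => n ≠ 0 ∧ n ≤ M)
  have h3 : x * t ^ 2 / L = x * t ^ 2 / (3 * L) + (x * t ^ 2 / (3 * L) + x * t ^ 2 / (3 * L)) := by
    field_simp
    ring
  rw [h3]
  linarith

end Pool.Agent.Lib.MP_79499b_co.QZ
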