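import Pool.Agent.Lib.MP_79499b_co.QZ.QF1
import Pool.Agent.Lib.MP_79499b_co.QZ.QF2

/-!
# QF3: Theorem T1

For even `m = 2s ≥ 4` and `ε > 0` there is `C` such that for `x ≥ 3` at most `C x/(log x)^(1-ε)` integers `n < x` are orders (nilpotent groups).
Proof: `rr s ≥ 1` (`s` and `2s` have at least two divisors, `2s` has more divisors than `s`: `2s` itself), `main_B` with `ε/2` (or `ε`), `few_two`, `n = 0`: at most 1; for
small `x` use the trivial bound `cnt ≤ x` (`(log x)^(1-ε)` is bounded on `3 ≤ x ≤ x0`).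
-/

set_option autoImplicit false

namespace Pool.Agent.Lib.MP_79499b_co.QZ

open Finset DZ
open scoped Classical

private theorem QF3_rr (s : ℕ) (hs : 2 ≤ s) : 1 ≤ rr s := by
  unfold rr
  have h1 : 2 ≤ s.divisors.card := by
    have h2 : ({1, s} : Finset ℕ) ⊆ s.divisors := by
      intro d hd
      rw [mem_insert, mem_singleton] at hd
      rw [Nat.mem_divisors]
      rcases hd with rfl | rfl
      · exact ⟨one_dvd _, by omega⟩
      · exact ⟨dvd_rfl, by omega⟩
    have h3 := card_le_card h2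
    rwa [card_pair (by omega)] at h3
  have h4 : s.divisors.card < (2 * s).divisors.card := by
    refine card_lt_card ?_
    rw [Finset.ssubset_iff_of_subset (Nat.divisors_subset_of_dvd (by omega) (dvd_mul_left s 2))]
    refine ⟨2 * s, ?_, ?_⟩
    · rw [Nat.mem_divisors]
      exact ⟨dvd_rfl, by omega⟩
    · rw [Nat.mem_divisors]
      intro h
      have := Nat.le_of_dvd (by omega) h.1
      omega
  rw [le_min_iff]
  omega

private theorem QF3_triv (x : ℕ) (P : ℕ → Prop) : cnt x P ≤ x := by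
  unfold EO.cnt
  refine Nat.cast_le.mpr ?_
  refine (card_filter_le _ _).trans ?_
  rw [card_range]

private theorem QF3_zero (x : ℕ) (P : ℕ → Prop) (h : ∀ n, P n → n = 0) : cnt x P ≤ 1 := by
  unfold EO.cnt
  refine (Nat.cast_le.mpr (card_le_card (t := {0}) ?_)).trans (by simp)
  intro n hn
  rw [mem_filter] at hn
  simp [h n hn.2]

theorem even_rate (s : ℕ) (hs : 2 ≤ s) (ε : ℝ) (hε : 0 < ε) : ∃ C : ℝ, 0 < C ∧ ∀ x : ℕ, 3 ≤ x →
    cnt x (fun n => NilOrder n (2 * s)) ≤ C * x / Real.log x ^ (1 - ε) := by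
  obtain ⟨D, x1, hD, hx1⟩ := main_B s hs ε hε
  obtain ⟨x2, hx2⟩ := few_two D hD
  have hrr : (1 : ℝ) ≤ rr s := by exact_mod_cast QF3_rr s hs
  have e1 := (isLittleO_pow_exp_pos_mul_atTop (k := 2) hε).bound one_pos
  have e2 := LL_tend.eventually e1
  have e3 := LL_tend.eventually_ge_atTop 0
  obtain ⟨x3, hx3⟩ := Filter.eventually_atTop.1 (e2.and e3)
  obtain ⟨x0, hx0⟩ : ∃ x0 : ℕ, x0 = max x1 (max x2 x3) := ⟨_, rfl⟩
  refine ⟨3 + x0, by positivity, fun x hx => ?_⟩
  have hxp : (0 : ℝ) < x := by exact_mod_cast (by omega : 0 < x)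
  have hx3R : (3 : ℝ) ≤ x := by exact_mod_cast hx
  obtain ⟨L, hL⟩ : ∃ L : ℝ, L = Real.log x := ⟨_, rfl⟩
  have hL1 : 1 ≤ L := by
    rw [hL, Real.le_log_iff_exp_le hxp]
    have := Real.exp_one_lt_d9
    linarith
  have hLpos : 0 < L := by linarith
  have hLx : L ≤ x := by
    have := Real.log_le_sub_one_of_pos hxp
    rw [hL]
    linarith
  rw [← hL]
  have hP : 0 < L ^ (1 - ε) := Real.rpow_pos_of_pos hLpos _
  have hPL : L ^ (1 - ε) ≤ L := by
    calc L ^ (1 - ε) ≤ L ^ (1 : ℝ) := Real.rpow_le_rpow_of_exponent_le hL1 (by linarith)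
      _ = L := Real.rpow_one L
  by_cases hsm : x < x0
  · refine (QF3_triv x _).trans ?_
    rw [le_div_iff₀ hP]
    have h1 : (x : ℝ) ≤ x0 := by exact_mod_cast hsm.le
    have h2 : L ^ (1 - ε) ≤ 3 + x0 := by linarith
    calc (x : ℝ) * L ^ (1 - ε) ≤ x * (3 + x0) := mul_le_mul_of_nonneg_left h2 hxp.le
      _ = (3 + x0) * x := by ring
  · have hge : x0 ≤ x := not_lt.1 hsm
    rw [hx0] at hge
    have g1 := hx1 x ((le_max_left _ _).trans hge)
    have g2 := hx2 x ((le_max_left _ _).trans ((le_max_right _ _).trans hge))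
    obtain ⟨g3, g4⟩ := hx3 x ((le_max_right _ _).trans ((le_max_right _ _).trans hge))
    rw [← hL] at g2
    obtain ⟨t, ht⟩ : ∃ t : ℝ, t = LL x := ⟨_, rfl⟩
    have hexpt : Real.exp t = L := by
      rw [ht, hL]
      unfold LL
      exact Real.exp_log (by rw [← hL]; exact hLpos)
    rw [← ht] at g1 g2 g3 g4
    rw [Real.norm_of_nonneg (by positivity), Real.norm_of_nonneg (Real.exp_pos _).le,
      one_mul] at g3
    have hpow : ∀ a : ℝ, L ^ a = Real.exp (a * t) := by
      intro a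
      rw [← hexpt, ← Real.exp_mul, mul_comm]
    have k1 : x * Real.exp (-((rr s - ε) * t)) ≤ x / L ^ (1 - ε) := by
      rw [hpow, div_eq_mul_inv, ← Real.exp_neg]
      refine mul_le_mul_of_nonneg_left (Real.exp_le_exp.2 ?_) hxp.le
      nlinarith
    have k2 : x * t ^ 2 / L ≤ x / L ^ (1 - ε) := by
      rw [div_le_div_iff₀ hLpos hP, mul_assoc]
      refine mul_le_mul_of_nonneg_left ?_ hxp.le
      have h1 : L = Real.exp (ε * t) * L ^ (1 - ε) := by
        rw [hpow, ← Real.exp_add]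
        rw [show ε * t + (1 - ε) * t = t by ring, hexpt]
      calc t ^ 2 * L ^ (1 - ε) ≤ Real.exp (ε * t) * L ^ (1 - ε) :=
            mul_le_mul_of_nonneg_right g3 hP.le
        _ = L := h1.symm
    have k3 : (1 : ℝ) ≤ x / L ^ (1 - ε) := by
      rw [le_div_iff₀ hP]
      linarith
    have k4 : cnt x (fun n => NilOrder n (2 * s)) ≤
        cnt x (fun n => (NilOrder n (2 * s) ∧ Two (zD D x) n) ∨
          ((n ≠ 0 ∧ ¬ Two (zD D x) n) ∨ n = 0)) := by
      refine cnt_mono fun n _ h => ?_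
      by_cases h1 : Two (zD D x) n
      · exact Or.inl ⟨h, h1⟩
      · by_cases h0 : n = 0
        · exact Or.inr (Or.inr h0)
        · exact Or.inr (Or.inl ⟨h0, h1⟩)
    have k5 := cnt_or x (fun n => NilOrder n (2 * s) ∧ Two (zD D x) n)
      (fun n => (n ≠ 0 ∧ ¬ Two (zD D x) n) ∨ n = 0)
    have k6 := cnt_or x (fun n => n ≠ 0 ∧ ¬ Two (zD D x) n) (fun n => n = 0)
    have k7 := QF3_zero x (fun n => n = 0) fun n h => h
    have k8 : 3 * (x / L ^ (1 - ε)) ≤ (3 + x0) * x / L ^ (1 - ε) := by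
      rw [← mul_div_assoc]
      refine div_le_div_of_nonneg_right ?_ hP.le
      have : (0 : ℝ) ≤ x0 := Nat.cast_nonneg _
      nlinarith
    linarith

end Pool.Agent.Lib.MP_79499b_co.QZ
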