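import Pool.Agent.Lib.MP_2f3286_ag.KSplit
import Pool.Agent.Lib.MP_79499b_co.Q38Transfer

/-!
# Primes `w ≡ 1 mod l` for which the order of a fixed integer `c ≥ 2` is even

For all `l ≥ 2`, `c ≥ 2` the primes `w ≡ 1 (mod l)` for which the order of `c` modulo `w` is even
have positive lower density in the weak sense
`∑_{w < Y} 1/w ≥ κ log log Y - C`, `κ > 0`.
-/

namespace Pool.Agent.Lib.MP_79499b_co.QZ.KK

open NumberField IsDedekindDomain Filter Topology Ideal Polynomial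
open Pool.Agent.Lib.MP_2f3286_ag

/-- A rational `N`-th root of `c²` does not exist if `c² < 2^N`. -/
theorem rat_pow_ne {N c : ℕ} (hc : 2 ≤ c) (hcN : c ^ 2 < 2 ^ N) (r : ℚ) : r ^ N ≠ (c : ℚ) ^ 2 := by
  intro h
  have h1 : (r ^ N).num = ((c : ℤ)) ^ 2 := by
    rw [h, Rat.num_pow]; rfl
  rw [Rat.num_pow] at h1
  have h2 : r.num.natAbs ^ N = c ^ 2 := by
    have := congrArg Int.natAbs h1
    rwa [Int.natAbs_pow, Int.natAbs_pow, Int.natAbs_natCast] at this
  have h3 : 2 ≤ r.num.natAbs := by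
    by_contra hlt
    push Not at hlt
    have h4 : r.num.natAbs ^ N ≤ 1 := pow_le_one₀ (Nat.zero_le _) (by omega)
    rw [h2] at h4
    nlinarith
  have h5 := Nat.pow_le_pow_left h3 N
  omega

/-- **K1**: in a cyclotomic field containing the `N`-th roots of unity, `c` is not an `N`-th power
as soon as `c² < 2^N`. -/
theorem cyclotomic_not_pow {M N : ℕ} [NeZero M] (hNM : N ∣ M) (F : Type*) [Field F] [NumberField F]
    [IsCyclotomicExtension {M} ℚ F] {c : ℕ} (hc : 2 ≤ c) (hcN : c ^ 2 < 2 ^ N) (y : F) :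
    y ^ N ≠ (c : F) := by
  intro hy
  have hN : 0 < N := Nat.pos_of_dvd_of_pos hNM (NeZero.pos M)
  have hc0 : (c : F) ≠ 0 := by
    rw [Nat.cast_ne_zero]; omega
  have hy0 : y ≠ 0 := by
    rintro rfl
    rw [zero_pow hN.ne'] at hy
    exact hc0 hy.symm
  have hirr : Irreducible (cyclotomic M ℚ) := cyclotomic.irreducible_rat (NeZero.pos M)
  have hgal : IsGalois ℚ F := IsCyclotomicExtension.isGalois {M} ℚ F
  have hcomm : IsMulCommutative (F ≃ₐ[ℚ] F) := IsCyclotomicExtension.isMulCommutative {M} ℚ F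
  set ζ : F := IsCyclotomicExtension.zeta M ℚ F with hζdef
  have hζ : IsPrimitiveRoot ζ M := IsCyclotomicExtension.zeta_spec M ℚ F
  let τ : F ≃ₐ[ℚ] F := IsCyclotomicExtension.fromZetaAut hζ.inv hirr
  have hτ : τ ζ = ζ⁻¹ := IsCyclotomicExtension.fromZetaAut_spec hζ.inv hirr
  -- `τ` inverts the `N`-th roots of unity
  have hinv : ∀ u : F, u ^ N = 1 → τ u = u⁻¹ := by
    intro u hu
    have hu' : u ^ M = 1 := by
      obtain ⟨k, rfl⟩ := hNM
      rw [pow_mul, hu, one_pow]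
    obtain ⟨i, -, rfl⟩ := hζ.eq_pow_of_pow_eq_one hu'
    rw [map_pow, hτ, inv_pow]
  have hroot : ∀ g : F ≃ₐ[ℚ] F, (g y / y) ^ N = 1 := by
    intro g
    rw [div_pow, ← map_pow, hy, map_natCast, div_self hc0]
  set t : F := τ y / y with ht
  have htN : t ^ N = 1 := hroot τ
  have ht0 : t ≠ 0 := by
    intro h
    rw [h, zero_pow hN.ne'] at htN
    exact zero_ne_one htN
  have hτy : τ y = t * y := by rw [ht, div_mul_cancel₀ _ hy0]
  have hfix : ∀ g : F ≃ₐ[ℚ] F, g (y ^ 2 * t) = y ^ 2 * t := by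
    intro g
    set u : F := g y / y with hu
    have huN : u ^ N = 1 := hroot g
    have hu0 : u ≠ 0 := by
      intro h
      rw [h, zero_pow hN.ne'] at huN
      exact zero_ne_one huN
    have hgy : g y = u * y := by rw [hu, div_mul_cancel₀ _ hy0]
    have h1 : τ (g y) = u⁻¹ * (t * y) := by
      rw [hgy, map_mul, hinv u huN, hτy]
    have h2 : g (τ y) = g t * (u * y) := by
      rw [hτy, map_mul, hgy]
    have h3 : τ (g y) = g (τ y) := by
      have := hcomm.is_comm.comm τ g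
      exact DFunLike.congr_fun this y
    rw [h1, h2] at h3
    have h4 : t = g t * u ^ 2 := by
      have h5 : u⁻¹ * (t * y) * (u * y⁻¹) = g t * (u * y) * (u * y⁻¹) := by rw [h3]
      field_simp at h5
      linear_combination h5
    rw [map_mul, map_pow, hgy]
    calc (u * y) ^ 2 * g t = y ^ 2 * (g t * u ^ 2) := by ring
      _ = y ^ 2 * t := by rw [← h4]
  obtain ⟨r, hr⟩ := (IsGalois.mem_range_algebraMap_iff_fixed (F := ℚ) (y ^ 2 * t)).mpr hfix
  have h1 : algebraMap ℚ F (r ^ N) = algebraMap ℚ F ((c : ℚ) ^ 2) := by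
    rw [map_pow, hr, mul_pow, htN, mul_one, ← pow_mul, mul_comm 2 N, pow_mul, hy, map_pow,
      map_natCast]
  exact rat_pow_ne hc hcN r ((algebraMap ℚ F).injective h1)

section primes

variable {F : Type*} [Field F] [NumberField F]

/-- the characteristic of the residue field -/
theorem exists_char (w : HeightOneSpectrum (𝓞 F)) :
    ∃ p f : ℕ, p.Prime ∧ 0 < f ∧ absNorm w.asIdeal = p ^ f ∧ (p : 𝓞 F) ∈ w.asIdeal := by
  have hmax := w.isMaximal
  let k := 𝓞 F ⧸ w.asIdeal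
  let : Field k := Ideal.Quotient.field w.asIdeal
  have hfin : Finite k := Ideal.finiteQuotientOfFreeOfNeBot w.asIdeal w.ne_bot
  let : Fintype k := Fintype.ofFinite k
  obtain ⟨p, hp⟩ := CharP.exists k
  obtain ⟨n, hpr, hn⟩ := FiniteField.card k p
  refine ⟨p, n, hpr, n.pos, ?_, ?_⟩
  · rw [Ideal.absNorm_apply, Submodule.cardQuot_apply, ← hn, Nat.card_eq_fintype_card]
  · rw [← Ideal.Quotient.eq_zero_iff_mem, map_natCast]
    exact CharP.cast_eq_zero k p

theorem char_unique {w : HeightOneSpectrum (𝓞 F)} {p q : ℕ} (hp : p.Prime) (hq : q.Prime)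
    (h1 : (p : 𝓞 F) ∈ w.asIdeal) (h2 : (q : 𝓞 F) ∈ w.asIdeal) : p = q := by
  by_contra hne
  have hc : IsCoprime (p : ℤ) (q : ℤ) :=
    Nat.isCoprime_iff_coprime.mpr ((Nat.coprime_primes hp hq).mpr hne)
  obtain ⟨a, b, hab⟩ := hc
  apply w.isPrime.ne_top
  rw [Ideal.eq_top_iff_one]
  have h3 : (1 : 𝓞 F) = (a : 𝓞 F) * p + b * q := by
    exact_mod_cast congrArg (Int.cast : ℤ → 𝓞 F) hab.symm
  rw [h3]
  exact add_mem (Ideal.mul_mem_left _ _ h1) (Ideal.mul_mem_left _ _ h2)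

theorem card_over_le (A : Finset (HeightOneSpectrum (𝓞 F))) {p : ℕ} (hp : p.Prime)
    (hA : ∀ w ∈ A, (p : 𝓞 F) ∈ w.asIdeal) : A.card ≤ Module.finrank ℤ (𝓞 F) := by
  classical
  have hinj : Set.InjOn (fun w : HeightOneSpectrum (𝓞 F) => w.asIdeal) A :=
    fun _ _ _ _ h => HeightOneSpectrum.ext h
  have h1 : ∏ I ∈ A.image (fun w : HeightOneSpectrum (𝓞 F) => w.asIdeal), I ∣
      Ideal.span {(p : 𝓞 F)} := by
    refine Finset.prod_primes_dvd _ ?_ ?_
    · intro I hI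
      obtain ⟨w, -, rfl⟩ := Finset.mem_image.mp hI
      exact w.prime
    · intro I hI
      obtain ⟨w, hw, rfl⟩ := Finset.mem_image.mp hI
      rw [Ideal.dvd_span_singleton]
      exact hA w hw
  rw [Finset.prod_image hinj] at h1
  have h2 : absNorm (∏ w ∈ A, w.asIdeal) ∣ p ^ Module.finrank ℤ (𝓞 F) := by
    have h3 := Ideal.absNorm_dvd_absNorm_of_le (Ideal.dvd_iff_le.mp h1)
    rw [Ideal.absNorm_span_singleton] at h3
    have h4 : Algebra.norm ℤ (p : 𝓞 F) = (p : ℤ) ^ Module.finrank ℤ (𝓞 F) := by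
      have := Algebra.norm_algebraMap (S := 𝓞 F) (p : ℤ)
      simpa using this
    rw [h4, Int.natAbs_pow, Int.natAbs_natCast] at h3
    exact h3
  have h5 : p ^ A.card ≤ absNorm (∏ w ∈ A, w.asIdeal) := by
    rw [map_prod, ← Finset.prod_const]
    refine Finset.prod_le_prod' fun w hw => ?_
    obtain ⟨q, f, hq, hf, hn, hqw⟩ := exists_char w
    have h6 := char_unique hp hq (hA w hw) hqw
    subst h6
    rw [hn]
    exact Nat.le_self_pow hf.ne' p
  have h6 := h5.trans (Nat.le_of_dvd (pow_pos hp.pos _) h2)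
  exact (Nat.pow_le_pow_iff_right hp.one_lt).mp h6

theorem dvd_sub_one {M : ℕ} [NeZero M] {ζ : F} (hζ : IsPrimitiveRoot ζ M)
    {w : HeightOneSpectrum (𝓞 F)} {p : ℕ} (hn : absNorm w.asIdeal = p)
    (hM : (M : 𝓞 F) ∉ w.asIdeal) : M ∣ p - 1 := by
  have hmax := w.isMaximal
  obtain ⟨ζ', hζ'⟩ : ∃ ζ' : 𝓞 F, (ζ' : F) = ζ :=
    ⟨⟨ζ, ⟨X ^ M - 1, monic_X_pow_sub_C 1 (NeZero.ne M), by simp [hζ.pow_eq_one]⟩⟩, rfl⟩
  have hζp : IsPrimitiveRoot ζ' M := by
    apply IsPrimitiveRoot.of_map_of_injective (f := algebraMap (𝓞 F) F) _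
      RingOfIntegers.coe_injective
    change IsPrimitiveRoot (ζ' : F) M
    rw [hζ']; exact hζ
  let k := 𝓞 F ⧸ w.asIdeal
  let : Field k := Ideal.Quotient.field w.asIdeal
  have hfin : Finite k := Ideal.finiteQuotientOfFreeOfNeBot w.asIdeal w.ne_bot
  let : Fintype k := Fintype.ofFinite k
  have hcard : Fintype.card k = p := by
    rw [← hn, Ideal.absNorm_apply, Submodule.cardQuot_apply, Nat.card_eq_fintype_card]
  let z : k := Ideal.Quotient.mk w.asIdeal ζ'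
  have hz : IsPrimitiveRoot z M := by
    refine ⟨?_, ?_⟩
    · change (Ideal.Quotient.mk w.asIdeal ζ') ^ M = 1
      rw [← map_pow, hζp.pow_eq_one, map_one]
    · intro i hi
      apply hζp.dvd_of_pow_eq_one
      refine eq_one_of_mem (N := M) ?_ w.asIdeal hM ?_
      · rw [← pow_mul, mul_comm, pow_mul, hζp.pow_eq_one, one_pow]
      · rw [← Ideal.Quotient.eq_zero_iff_mem, map_sub, map_pow, map_one, sub_eq_zero]
        exact hi
  have hz0 : z ≠ 0 := hz.ne_zero (NeZero.ne M)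
  have h1 : z ^ (p - 1) = 1 := by
    rw [← hcard]
    exact FiniteField.pow_card_sub_one_eq_one z hz0
  exact hz.dvd_of_pow_eq_one _ h1

theorem exists_root_mod {p c k : ℕ} (hp : p.Prime) (hodd : ¬ 2 ∣ orderOf (c : ZMod p))
    (hpc : ¬ p ∣ c) : ∃ r : ℕ, ((r : ZMod p)) ^ (2 ^ k) = c := by
  have : Fact p.Prime := ⟨hp⟩
  have hc0 : (c : ZMod p) ≠ 0 := by
    rwa [Ne, ZMod.natCast_eq_zero_iff]
  have ho : orderOf (c : ZMod p) ≠ 0 := by
    rw [Ne, orderOf_eq_zero_iff, not_not]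
    rw [isOfFinOrder_iff_pow_eq_one]
    exact ⟨p - 1, Nat.sub_pos_of_lt hp.one_lt, ZMod.pow_card_sub_one_eq_one hc0⟩
  have hcop : Nat.Coprime (2 ^ k) (orderOf (c : ZMod p)) :=
    Nat.Coprime.pow_left _ ((Nat.Prime.coprime_iff_not_dvd Nat.prime_two).mpr hodd)
  obtain ⟨u, -, hu⟩ := Nat.exists_mul_mod_eq_of_coprime 1 hcop ho
  refine ⟨c ^ u, ?_⟩
  rw [Nat.cast_pow, ← pow_mul, mul_comm, ← pow_mod_orderOf, hu, pow_mod_orderOf, pow_one]

theorem exists_root_ideal {w : HeightOneSpectrum (𝓞 F)} {p c k : ℕ} (hp : p.Prime)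
    (hpw : (p : 𝓞 F) ∈ w.asIdeal) (hcw : (c : 𝓞 F) ∉ w.asIdeal)
    (hodd : ¬ 2 ∣ orderOf (c : ZMod p)) : ∃ r : 𝓞 F, r ^ (2 ^ k) - (c : 𝓞 F) ∈ w.asIdeal := by
  have hpc : ¬ p ∣ c := by
    rintro ⟨a, rfl⟩
    apply hcw
    push_cast
    exact Ideal.mul_mem_right _ _ hpw
  obtain ⟨r, hr⟩ := exists_root_mod (k := k) hp hodd hpc
  refine ⟨(r : 𝓞 F), ?_⟩
  have h1 : (((r : ℤ) ^ (2 ^ k) - (c : ℤ) : ℤ) : ZMod p) = 0 := by
    push_cast
    rw [hr, sub_self]
  rw [ZMod.intCast_zmod_eq_zero_iff_dvd] at h1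
  obtain ⟨a, ha⟩ := h1
  have h2 : (r : 𝓞 F) ^ (2 ^ k) - (c : 𝓞 F) = (p : 𝓞 F) * (a : 𝓞 F) := by
    exact_mod_cast congrArg (Int.cast : ℤ → 𝓞 F) ha
  rw [h2]
  exact Ideal.mul_mem_right _ _ hpw

end primes

/-- pull-back of a summable series along a map with bounded fibres -/
theorem tsum_comp_le {ι : Type*} (π : ι → ℕ) {D : ℕ} (h : ℕ → ℝ) (h0 : ∀ n, 0 ≤ h n)
    (hs : Summable h) (hπ : ∀ (A : Finset ι) (n : ℕ), (∀ w ∈ A, π w = n) → h n ≠ 0 → A.card ≤ D) :
    Summable (fun w => h (π w)) ∧ ∑' w, h (π w) ≤ D * ∑' n, h n := by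
  classical
  have key : ∀ Q : Finset ι, ∑ w ∈ Q, h (π w) ≤ D * ∑' n, h n := by
    intro Q
    rw [Finset.sum_comp h π]
    calc ∑ b ∈ Q.image π, (Q.filter fun a => π a = b).card • h b
        ≤ ∑ b ∈ Q.image π, (D : ℝ) * h b := by
          refine Finset.sum_le_sum fun b _ => ?_
          rw [nsmul_eq_mul]
          by_cases hb : h b = 0
          · rw [hb, mul_zero, mul_zero]
          · refine mul_le_mul_of_nonneg_right ?_ (h0 b)
            exact_mod_cast hπ _ b (fun w hw => (Finset.mem_filter.mp hw).2) hb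
      _ = (D : ℝ) * ∑ b ∈ Q.image π, h b := by rw [Finset.mul_sum]
      _ ≤ D * ∑' n, h n :=
          mul_le_mul_of_nonneg_left (hs.sum_le_tsum _ fun n _ => h0 n) (Nat.cast_nonneg _)
  exact ⟨summable_of_sum_le (fun w => h0 _) key, Real.tsum_le_of_sum_le (fun w => h0 _) key⟩

theorem finite_mem (F : Type*) [Field F] [NumberField F] {a : 𝓞 F} (ha : a ≠ 0) :
    {w : HeightOneSpectrum (𝓞 F) | a ∈ w.asIdeal}.Finite := by
  have ha0 : (a : F) ≠ 0 := by
    intro h; exact ha (RingOfIntegers.ext h)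
  refine (finite_val_ne_one (k := F) (a := (a : F)) ha0).subset ?_
  intro w hw
  simp only [Set.mem_ofPred_eq] at hw ⊢
  intro h1
  exact (HeightOneSpectrum.valuation_eq_one_iff_notMem (K := F) w).mp h1 hw

/-- indicator of the primes `p ≡ 1 mod l` for which the order of `c` modulo `p` is even -/
noncomputable def ge (l c p : ℕ) : ℝ := if p % l = 1 ∧ 2 ∣ orderOf (c : ZMod p) then 1 else 0

theorem ge_nonneg (l c p : ℕ) : 0 ≤ ge l c p := by
  rw [ge]; split_ifs <;> norm_num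

theorem ge_abs (l c p : ℕ) : |ge l c p| ≤ 1 := by
  rw [ge]; split_ifs <;> norm_num

theorem psum_lower_aux {l c M : ℕ} [NeZero M] (hl : 2 ≤ l) (hc : 2 ≤ c)
    (hM : M = 2 ^ c * l) (F : Type*) [Field F] [NumberField F] [IsCyclotomicExtension {M} ℚ F] :
    ∃ D : ℝ, 0 < D ∧ ∃ C : ℝ,
    ∀ᶠ s : ℝ in 𝓝[>] 1, Real.log (1 / (s - 1)) ≤ D * Q38.psum (ge l c) s + C := by
  classical
  set N : ℕ := 2 ^ c with hN
  have hN0 : 0 < N := by positivity
  have hcN : c ^ 2 < 2 ^ N := by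
    have h1 : c < 2 ^ c := Nat.lt_two_pow_self
    have h2 : 2 * c ≤ 2 ^ c := by
      clear hM h1 hN hN0
      induction c, hc using Nat.le_induction with
      | base => norm_num
      | succ n hn ih => rw [pow_succ]; omega
    calc c ^ 2 < (2 ^ c) ^ 2 := Nat.pow_lt_pow_left h1 (by norm_num)
      _ = 2 ^ (2 * c) := by rw [← pow_mul, mul_comm]
      _ ≤ 2 ^ N := Nat.pow_le_pow_right (by norm_num) h2
  have hM0 : 0 < M := NeZero.pos M
  have hζ : IsPrimitiveRoot (IsCyclotomicExtension.zeta M ℚ F) M :=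
    IsCyclotomicExtension.zeta_spec M ℚ F
  have hζN : IsPrimitiveRoot ((IsCyclotomicExtension.zeta M ℚ F) ^ l) N :=
    hζ.pow hM0 (by rw [hM, mul_comm])
  have hc0 : (c : 𝓞 F) ≠ 0 := by
    rw [Nat.cast_ne_zero]; omega
  have hMc0 : ((M * c : ℕ) : 𝓞 F) ≠ 0 := by
    rw [Nat.cast_ne_zero]
    exact Nat.mul_ne_zero hM0.ne' (by omega)
  obtain ⟨d, hd, ⟨y, hy⟩, C1, hC1⟩ := kummer_split hN0 hζN (c : 𝓞 F) hc0
  have hd2 : 2 ≤ d := by
    by_contra hlt
    have hd1 : d = 1 := by omega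
    rw [hd1, pow_one] at hy
    refine cyclotomic_not_pow (M := M) (N := N) ⟨l, hM⟩ F hc hcN y ?_
    rw [hy]
    exact map_natCast (algebraMap (𝓞 F) F) c
  obtain ⟨C0, hC0⟩ := primeSum_asymp F
  set T : Finset (HeightOneSpectrum (𝓞 F)) := (finite_mem F hMc0).toFinset with hT
  have hTmem : ∀ w, w ∈ T ↔ ((M * c : ℕ) : 𝓞 F) ∈ w.asIdeal := by
    intro w
    rw [hT, Set.Finite.mem_toFinset]
    rfl
  choose p f hp hf hn hpw using fun w : HeightOneSpectrum (𝓞 F) => exists_char w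
  set Ω : Set (HeightOneSpectrum (𝓞 F)) := {w : HeightOneSpectrum (𝓞 F) |
    (c : 𝓞 F) ∉ w.asIdeal ∧ (N : 𝓞 F) ∉ w.asIdeal ∧ ∃ r : 𝓞 F, r ^ N - (c : 𝓞 F) ∈ w.asIdeal}
    with hΩ
  set D : ℕ := Module.finrank ℤ (𝓞 F) with hD
  have hfib : ∀ (h : ℕ → ℝ) (A : Finset (HeightOneSpectrum (𝓞 F))) (n : ℕ),
      (∀ w ∈ A, p w = n) → h n ≠ 0 → A.card ≤ D := by
    intro h A n hA _
    rcases A.eq_empty_or_nonempty with rfl | ⟨w, hw⟩
    · simp
    · refine card_over_le A (p := n) ?_ ?_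
      · rw [← hA w hw]; exact hp w
      · intro w' hw'
        rw [← hA w' hw']; exact hpw w'
  set h2 : ℕ → ℝ := fun n => (n : ℝ) ^ (-2 : ℝ) with hh2
  have h2s : Summable h2 := Q38.summable_rpow_neg (by norm_num)
  have h20 : ∀ n, 0 ≤ h2 n := fun n => by positivity
  obtain ⟨hs2, hb2⟩ := tsum_comp_le p h2 h20 h2s (hfib h2)
  refine ⟨2 * D + 1, by positivity, 2 * C0 + C1 + 2 * T.card + 2 * (D * ∑' n, h2 n), ?_⟩
  filter_upwards [hC0, hC1, self_mem_nhdsWithin] with s hs0 hs1 hs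
  have hs' : (1 : ℝ) < s := hs
  set h1 : ℕ → ℝ := fun n => if n.Prime then ge l c n * (n : ℝ) ^ (-s) else 0 with hh1
  have h1s : Summable h1 := Q38.summable_psum (ge_abs l c) hs'
  have h10 : ∀ n, 0 ≤ h1 n := fun n => by
    simp only [hh1]
    split_ifs
    · exact mul_nonneg (ge_nonneg _ _ _) (by positivity)
    · exact le_rfl
  obtain ⟨hsp, hbp⟩ := tsum_comp_le p h1 h10 h1s (hfib h1)
  have hpsum : ∑' n, h1 n = Q38.psum (ge l c) s := rfl
  have hxs := summable_xw F hs'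
  have hxΩ : Summable (Ω.indicator (xw F s)) := hxs.indicator Ω
  have hxT : HasSum (fun w : HeightOneSpectrum (𝓞 F) => if w ∈ T then (1 : ℝ) else 0) T.card := by
    have h3 : HasSum (fun w : HeightOneSpectrum (𝓞 F) => if w ∈ T then (1 : ℝ) else 0)
        (∑ w ∈ T, (if w ∈ T then (1 : ℝ) else 0)) :=
      hasSum_sum_of_ne_finset_zero (fun w hw => if_neg hw)
    have h4 : ∑ w ∈ T, (if w ∈ T then (1 : ℝ) else 0) = T.card := by
      rw [Finset.sum_congr rfl (fun w hw => if_pos hw)]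
      simp
    rwa [h4] at h3
  have hbound : ∀ w, xw F s w ≤ Ω.indicator (xw F s) w + (if w ∈ T then (1 : ℝ) else 0) +
      h2 (p w) + h1 (p w) := by
    intro w
    have e1 : 0 ≤ Ω.indicator (xw F s) w := Set.indicator_nonneg (fun w _ => xw_nonneg F s w) w
    have e2 : (0 : ℝ) ≤ (if w ∈ T then (1 : ℝ) else 0) := by split_ifs <;> norm_num
    have e3 := h20 (p w)
    have e4 := h10 (p w)
    by_cases hwT : w ∈ T
    · have h5 := xw_le_one F (by linarith : 0 ≤ s) w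
      rw [if_pos hwT]
      linarith
    by_cases hwΩ : w ∈ Ω
    · rw [Set.indicator_of_mem hwΩ]
      linarith
    have hpr := hp w
    have hp1 : (1 : ℝ) ≤ p w := by exact_mod_cast hpr.one_lt.le
    have hp0 : (0 : ℝ) < p w := by linarith
    have hwT' : ((M * c : ℕ) : 𝓞 F) ∉ w.asIdeal := fun h => hwT ((hTmem w).mpr h)
    have hMw : (M : 𝓞 F) ∉ w.asIdeal := by
      intro h
      apply hwT'
      rw [Nat.cast_mul]
      exact Ideal.mul_mem_right _ _ h
    have hcw : (c : 𝓞 F) ∉ w.asIdeal := by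
      intro h
      apply hwT'
      rw [Nat.cast_mul]
      exact Ideal.mul_mem_left _ _ h
    have hNw : (N : 𝓞 F) ∉ w.asIdeal := by
      intro h
      apply hMw
      rw [hM, Nat.cast_mul]
      exact Ideal.mul_mem_right _ _ h
    rcases Nat.lt_or_ge 1 (f w) with hf2 | hf1
    · have h5 : xw F s w ≤ h2 (p w) := by
        rw [xw, hn w, hh2]
        simp only
        rw [Nat.cast_pow, ← Real.rpow_natCast, ← Real.rpow_mul hp0.le]
        apply Real.rpow_le_rpow_of_exponent_le hp1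
        have h6 : (2 : ℝ) ≤ f w := by exact_mod_cast hf2
        nlinarith
      linarith
    · have hf1' : f w = 1 := le_antisymm hf1 (hf w)
      have hn1 : absNorm w.asIdeal = p w := by rw [hn w, hf1', pow_one]
      have h5 := dvd_sub_one hζ hn1 hMw
      have h6 : p w % l = 1 := by
        have h7 : l ∣ p w - 1 := (Dvd.intro_left N hM.symm).trans h5
        obtain ⟨a, ha⟩ := h7
        have h8 : p w = 1 + l * a := by
          have := hpr.one_lt
          omega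
        rw [h8, Nat.add_mul_mod_self_left, Nat.mod_eq_of_lt (by omega)]
      have h7 : 2 ∣ orderOf (c : ZMod (p w)) := by
        by_contra hodd
        exact hwΩ ⟨hcw, hNw, exists_root_ideal hpr (hpw w) hcw hodd⟩
      have h8 : h1 (p w) = xw F s w := by
        simp only [hh1]
        rw [if_pos hpr, ge, if_pos ⟨h6, h7⟩, one_mul, xw, hn1]
      linarith
  have hsum : ∑' w, xw F s w ≤ ∑' w : Ω, xw F s w + T.card + D * ∑' n, h2 n + D * ∑' n, h1 n := by
    have h5 : Summable (fun w => Ω.indicator (xw F s) w + (if w ∈ T then (1 : ℝ) else 0) +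
      h2 (p w) + h1 (p w)) := ((hxΩ.add hxT.summable).add hs2).add hsp
    refine (hxs.tsum_le_tsum hbound h5).trans ?_
    rw [((hxΩ.add hxT.summable).add hs2).tsum_add hsp, (hxΩ.add hxT.summable).tsum_add hs2,
      hxΩ.tsum_add hxT.summable, hxT.tsum_eq, tsum_subtype]
    linarith
  have hΩ0 : 0 ≤ ∑' w : Ω, xw F s w := tsum_nonneg fun w => xw_nonneg F s w
  have h5 := (abs_le.mp hs0).1
  have h6 : (2 : ℝ) * ∑' w : Ω, xw F s w ≤ (d : ℝ) * ∑' w : Ω, xw F s w :=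
    mul_le_mul_of_nonneg_right (by exact_mod_cast hd2) hΩ0
  have h7 : 0 ≤ ∑' n, h1 n := tsum_nonneg h10
  rw [hpsum] at hsum h7
  have h8 := h6.trans hs1
  linarith

theorem psum_lower {l c : ℕ} (hl : 2 ≤ l) (hc : 2 ≤ c) : ∃ D : ℝ, 0 < D ∧ ∃ C : ℝ,
    ∀ᶠ s : ℝ in 𝓝[>] 1, Real.log (1 / (s - 1)) ≤ D * Q38.psum (ge l c) s + C := by
  have h : NeZero (2 ^ c * l) := ⟨by positivity⟩
  have h' : NeZero (((2 ^ c * l : ℕ) : ℚ)) := ⟨by positivity⟩
  have h2 : IsCyclotomicExtension {2 ^ c * l} ℚ (CyclotomicField (2 ^ c * l) ℚ) := by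
    have h3 := CyclotomicField.isCyclotomicExtension (2 ^ c * l) ℚ
    convert h3 <;> rfl
  exact psum_lower_aux hl hc rfl (CyclotomicField (2 ^ c * l) ℚ)

theorem ge_fsum (l c Y : ℕ) : Q38.fsum (ge l c) Y =
    ∑ w ∈ (Finset.range Y).filter (fun w => w.Prime ∧ w % l = 1 ∧ 2 ∣ orderOf (c : ZMod w)),
      ((w : ℝ))⁻¹ := by
  rw [Q38.fsum, Finset.sum_filter, Finset.sum_filter]
  refine Finset.sum_congr rfl fun w _ => ?_
  by_cases h1 : w.Prime
  · by_cases h2 : w % l = 1 ∧ 2 ∣ orderOf (c : ZMod w)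
    · rw [if_pos h1, if_pos ⟨h1, h2⟩, ge, if_pos h2, one_div]
    · rw [if_pos h1, if_neg (fun h => h2 h.2), ge, if_neg h2, zero_div]
  · rw [if_neg h1, if_neg (fun h => h1 h.1)]

/-- **K2**: for `l ≥ 2` and `c ≥ 2` there is `κ > 0` with
`∑_{w < Y, w ≡ 1 mod l, ord_w(c) even} 1/w ≥ κ log log Y - C`. -/
theorem even_order_lower {l c : ℕ} (hl : 2 ≤ l) (hc : 2 ≤ c) :
    ∃ κ : ℝ, 0 < κ ∧ ∃ C : ℝ, ∀ Y : ℕ, 3 ≤ Y → κ * Real.log (Real.log Y) - C ≤
      ∑ w ∈ (Finset.range Y).filter (fun w => w.Prime ∧ w % l = 1 ∧ 2 ∣ orderOf (c : ZMod w)),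
        ((w : ℝ))⁻¹ := by
  obtain ⟨D, hD, C, hC⟩ := psum_lower hl hc
  obtain ⟨C1, hC10, hC1⟩ := Q38.exists_transfer
  have hsx : Tendsto (fun x : ℕ => Q38.sx x) atTop (𝓝[>] 1) := by
    rw [tendsto_nhdsWithin_iff]
    constructor
    · have h1 : Tendsto (fun x : ℕ => 1 / Real.log x) atTop (𝓝 0) := by
        have := (Real.tendsto_log_atTop.comp
          (tendsto_natCast_atTop_atTop (R := ℝ))).inv_tendsto_atTop
        refine this.congr (fun x => ?_)
        simp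
      have h2 := h1.const_add 1
      rw [add_zero] at h2
      exact h2
    · filter_upwards [eventually_ge_atTop 3] with x hx using (Q38.sx_mem hx).1
  obtain ⟨x₀, hx₀⟩ := eventually_atTop.mp (hsx.eventually hC)
  have hDi : 0 < D⁻¹ := inv_pos.mpr hD
  refine ⟨D⁻¹, hDi, D⁻¹ * |C| + C1 + D⁻¹ * |Real.log (Real.log (x₀ : ℕ))|, fun Y hY => ?_⟩
  rw [← ge_fsum]
  have hf0 : 0 ≤ Q38.fsum (ge l c) Y :=
    Finset.sum_nonneg fun p _ => div_nonneg (ge_nonneg _ _ _) (Nat.cast_nonneg _)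
  have hlogY := Q38.one_lt_log hY
  have e1 : 0 ≤ D⁻¹ * |C| := by positivity
  have e2 : 0 ≤ D⁻¹ * |Real.log (Real.log (x₀ : ℕ))| := by positivity
  rcases lt_or_ge Y x₀ with hlt | hge
  · have h1 : Real.log (Real.log Y) ≤ Real.log (Real.log x₀) := by
      apply Real.log_le_log (by linarith)
      apply Real.log_le_log (by positivity)
      exact_mod_cast hlt.le
    have h2 : D⁻¹ * Real.log (Real.log Y) ≤ D⁻¹ * |Real.log (Real.log (x₀ : ℕ))| :=
      mul_le_mul_of_nonneg_left (h1.trans (le_abs_self _)) hDi.le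
    linarith
  · have h1 := hx₀ Y hge
    have h2 : (1 : ℝ) / (Q38.sx Y - 1) = Real.log Y := by
      rw [Q38.sx, add_sub_cancel_left, one_div_one_div]
    rw [h2] at h1
    have h3 := (abs_le.mp (hC1 (ge l c) (ge_abs l c) Y hY)).1
    have h4 : D⁻¹ * Real.log (Real.log Y) ≤ Q38.psum (ge l c) (Q38.sx Y) + D⁻¹ * |C| := by
      have h5 : D⁻¹ * Real.log (Real.log Y) ≤
          D⁻¹ * (D * Q38.psum (ge l c) (Q38.sx Y) + |C|) :=
        mul_le_mul_of_nonneg_left (h1.trans (by have := le_abs_self C; linarith)) hDi.le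
      have h6 : D⁻¹ * (D * Q38.psum (ge l c) (Q38.sx Y) + |C|) =
          Q38.psum (ge l c) (Q38.sx Y) + D⁻¹ * |C| := by
        field_simp
      linarith
    linarith

/-- the primes `w ≡ 1 mod l`, `w > z`, modulo which `c` has even order have unbounded reciprocal
sums -/
theorem exists_finset_even_order {l c : ℕ} (hl : 2 ≤ l) (hc : 2 ≤ c) (z : ℕ) (B : ℝ) :
    ∃ W : Finset ℕ, (∀ w ∈ W, w.Prime ∧ w % l = 1 ∧ 2 ∣ orderOf (c : ZMod w) ∧ z < w) ∧
      B ≤ ∑ w ∈ W, ((w : ℝ))⁻¹ := by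
  classical
  obtain ⟨κ, hκ, C, hC⟩ := even_order_lower hl hc
  have h1 : Tendsto (fun Y : ℕ => κ * Real.log (Real.log Y) - C) atTop atTop := by
    have h2 : Tendsto (fun Y : ℕ => Real.log (Real.log Y)) atTop atTop :=
      Real.tendsto_log_atTop.comp (Real.tendsto_log_atTop.comp tendsto_natCast_atTop_atTop)
    exact tendsto_atTop_add_const_right _ _ (h2.const_mul_atTop hκ)
  obtain ⟨Y, hY3, hY⟩ := ((eventually_ge_atTop 3).and
    (h1.eventually_ge_atTop (B + ∑ w ∈ Finset.range (z + 1), ((w : ℝ))⁻¹))).exists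
  have h2 := hY.trans (hC Y hY3)
  set S := (Finset.range Y).filter (fun w => w.Prime ∧ w % l = 1 ∧ 2 ∣ orderOf (c : ZMod w))
    with hS
  refine ⟨S.filter (fun w => z < w), ?_, ?_⟩
  · intro w hw
    rw [Finset.mem_filter, hS, Finset.mem_filter] at hw
    exact ⟨hw.1.2.1, hw.1.2.2.1, hw.1.2.2.2, hw.2⟩
  · have h3 : ∑ w ∈ S, ((w : ℝ))⁻¹ ≤ ∑ w ∈ S.filter (fun w => z < w), ((w : ℝ))⁻¹ +
        ∑ w ∈ Finset.range (z + 1), ((w : ℝ))⁻¹ := by
      rw [← Finset.sum_filter_add_sum_filter_not S (fun w => z < w)]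
      refine add_le_add le_rfl ?_
      apply Finset.sum_le_sum_of_subset_of_nonneg
      · intro w hw
        rw [Finset.mem_filter] at hw
        rw [Finset.mem_range]
        omega
      · intro w _ _
        positivity
    linarith

end Pool.Agent.Lib.MP_79499b_co.QZ.KK
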