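import Pool.Agent.Lib.MP_79499b_co.QZ.QN1

/-!
# QN3: the exceptional pairs have a small sum

`exc_sum`: for large `A`, a finite set `S` of pairs `(w1, w2)` of primes of the cell, all exceptional, has
`∑ 1/(w1 w2) ≤ exp(-A/2)`.

Proof. `∑_{w ≤ exp A^(1+κ)} 1/w ≤ 1 + A^(1+κ)` (harmonic sum). The pairs with `w1 ∈ EW`: `1/w1 ≤ exp(-A)`, so the sum is at
most `|EW| exp(-A) (1 + A^(1+κ))`; the same for `w2 ∈ EW`. The pairs with `w1 w2 ∈ EW`: `(w1, w2) ↦ w1 w2` has at most two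
preimages (`w1 ≠ w2` or not: a number which is a product of two primes is so in at most 2 orders), and
`1/(w1 w2) ≤ exp(-A)`: at most `2 |EW| exp(-A)`. Total `≤ (4 + 2 A^(1+κ)) exp(A^(1/2) - A) ≤ exp(-A/2)` (`ew_card`).
-/

set_option autoImplicit false

namespace Pool.Agent.Lib.MP_79499b_co.QZ

open Finset DZ

private theorem qn3_harm (N : ℕ) : ∑ w ∈ Icc 1 N, (1 : ℝ) / (w : ℝ) ≤ 1 + Real.log N := by
  have h := harmonic_le_one_add_log N
  have h2 : ((harmonic N : ℚ) : ℝ) = ∑ w ∈ Icc 1 N, (1 : ℝ) / (w : ℝ) := by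
    rw [harmonic_eq_sum_Icc]
    push_cast
    refine Finset.sum_congr rfl (fun w _ => ?_)
    rw [one_div]
  rw [← h2]
  exact h

private theorem qn3_fib (S : Finset (ℕ × ℕ)) (hS : ∀ q ∈ S, q.1.Prime ∧ q.2.Prime) (b : ℕ) :
    (S.filter (fun q => q.1 * q.2 = b)).card ≤ 2 := by
  classical
  rcases (S.filter (fun q => q.1 * q.2 = b)).eq_empty_or_nonempty with he | ⟨⟨p, q⟩, hpq⟩
  · rw [he]; simp
  · rw [mem_filter] at hpq
    obtain ⟨hpS, hpb⟩ := hpq
    obtain ⟨hp, hq⟩ := hS _ hpS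
    have hsub : S.filter (fun q => q.1 * q.2 = b) ⊆ {(p, q), (q, p)} := by
      rintro ⟨a, c⟩ hac
      rw [mem_filter] at hac
      obtain ⟨haS, hab⟩ := hac
      obtain ⟨ha, hc⟩ := hS _ haS
      simp only at hp hq hpb ha hc hab
      rw [mem_insert, mem_singleton]
      have hd : a ∣ p * q := by rw [hpb, ← hab]; exact dvd_mul_right _ _
      rcases (Nat.Prime.dvd_mul ha).1 hd with h | h
      · have hap : a = p := (Nat.prime_dvd_prime_iff_eq ha hp).1 h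
        left
        have : c = q := by
          have h1 : p * c = p * q := by rw [hpb, ← hab, hap]
          exact Nat.eq_of_mul_eq_mul_left hp.pos h1
        rw [hap, this]
      · have haq : a = q := (Nat.prime_dvd_prime_iff_eq ha hq).1 h
        right
        have : c = p := by
          have h1 : q * c = q * p := by rw [mul_comm q p, hpb, ← hab, haq]
          exact Nat.eq_of_mul_eq_mul_left hq.pos h1
        rw [haq, this]
    exact (card_le_card hsub).trans (card_le_two)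

private theorem qn3_arith (κ A : ℝ) (hκ : 0 < κ) (hκ1 : κ ≤ 1 / 100) (hA : 2000 ≤ A) :
    Real.exp (A ^ (1 / 2 : ℝ)) * (Real.exp (-A) * (4 + 2 * A ^ (1 + κ))) ≤
      Real.exp (-(A / 2)) := by
  have hA0 : 0 < A := by linarith
  have hA1 : 1 ≤ A := by linarith
  have h1 : A ^ (1 + κ) ≤ A ^ (2 : ℝ) := Real.rpow_le_rpow_of_exponent_le hA1 (by linarith)
  have h1' : A ^ (1 + κ) ≤ A ^ (2 : ℕ) := by
    calc A ^ (1 + κ) ≤ A ^ (2 : ℝ) := h1
      _ = A ^ (2 : ℕ) := by norm_cast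
  have h2 : A ^ (1 / 2 : ℝ) ≤ A / 4 := by
    rw [← Real.sqrt_eq_rpow, Real.sqrt_le_left (by linarith)]
    nlinarith
  have h3 : (A / 4) ^ 3 / 6 ≤ Real.exp (A / 4) := by
    have := Real.pow_div_factorial_le_exp (A / 4) (by linarith) 3
    simpa [Nat.factorial] using this
  have h4 : 4 + 2 * A ^ (1 + κ) ≤ Real.exp (A / 4) := by
    refine le_trans ?_ h3
    have h5 : 4 + 2 * A ^ (2 : ℕ) ≤ (A / 4) ^ 3 / 6 := by nlinarith [sq_nonneg A, mul_pos hA0 hA0]
    have h6 : 4 + 2 * A ^ (1 + κ) ≤ 4 + 2 * A ^ (2 : ℕ) :=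
      add_le_add le_rfl (mul_le_mul_of_nonneg_left h1' (by norm_num))
    exact h6.trans h5
  calc Real.exp (A ^ (1 / 2 : ℝ)) * (Real.exp (-A) * (4 + 2 * A ^ (1 + κ)))
      ≤ Real.exp (A / 4) * (Real.exp (-A) * Real.exp (A / 4)) := by
        gcongr
    _ = Real.exp (-(A / 2)) := by
        rw [← Real.exp_add, ← Real.exp_add]
        congr 1
        ring

theorem exc_sum (κ : ℝ) (hκ : 0 < κ) (hκ1 : κ ≤ 1 / 100) : ∃ A0 : ℝ, ∀ A : ℝ, A0 ≤ A →
    ∀ S : Finset (ℕ × ℕ), (∀ q ∈ S, Cell A κ q.1 ∧ Cell A κ q.2 ∧ ExcP A κ q.1 q.2) →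
      ∑ q ∈ S, 1 / ((q.1 : ℝ) * q.2) ≤ Real.exp (-(A / 2)) := by
  classical
  obtain ⟨A1, hA1⟩ := ew_card κ hκ hκ1
  refine ⟨max A1 2000, fun A hA S hS => ?_⟩
  have hAA1 : A1 ≤ A := le_trans (le_max_left _ _) hA
  have hA2 : 2000 ≤ A := le_trans (le_max_right _ _) hA
  have hA0 : 0 < A := by linarith
  set E := EW A κ with hE
  have hEc : ((E.card : ℕ) : ℝ) ≤ Real.exp (A ^ (1 / 2 : ℝ)) := hA1 A hAA1
  set N := ⌊Real.exp (A ^ (1 + κ))⌋₊ with hN
  have hLp : 0 < A ^ (1 + κ) := Real.rpow_pos_of_pos hA0 _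
  have hU : ∑ w ∈ Icc 1 N, (1 : ℝ) / (w : ℝ) ≤ 1 + A ^ (1 + κ) := by
    refine (qn3_harm N).trans ?_
    have hNpos : 0 < N := Nat.floor_pos.2 (Real.one_le_exp hLp.le)
    have : Real.log (N : ℝ) ≤ A ^ (1 + κ) := by
      rw [Real.log_le_iff_le_exp (by exact_mod_cast hNpos)]
      exact Nat.floor_le (Real.exp_pos _).le
    linarith
  have hcellN : ∀ w : ℕ, Cell A κ w → w ∈ Icc 1 N := by
    intro w hw
    rw [mem_Icc]
    exact ⟨hw.1.pos, Nat.le_floor hw.2.2⟩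
  have hinv : ∀ w : ℕ, Cell A κ w → (1 : ℝ) / (w : ℝ) ≤ Real.exp (-A) := by
    intro w hw
    rw [Real.exp_neg, one_div]
    exact inv_anti₀ (Real.exp_pos _) hw.2.1.le
  have hinv1 : ∀ w : ℕ, Cell A κ w → (1 : ℝ) / (w : ℝ) ≤ 1 := by
    intro w hw
    rw [div_le_one (by exact_mod_cast hw.1.pos)]
    exact_mod_cast hw.1.one_lt.le
  set S1 := S.filter (fun q => q.1 ∈ E) with hS1
  set S2 := S.filter (fun q => q.2 ∈ E) with hS2
  set S3 := S.filter (fun q => q.1 * q.2 ∈ E) with hS3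
  set f : ℕ × ℕ → ℝ := fun q => 1 / ((q.1 : ℝ) * q.2) with hf
  have hf0 : ∀ q, 0 ≤ f q := fun q => by simp only [hf]; positivity
  have hfm : ∀ q : ℕ × ℕ, f q = (1 / (q.1 : ℝ)) * (1 / (q.2 : ℝ)) := fun q => by
    simp only [hf]; rw [one_div_mul_one_div]
  have hsub : S ⊆ S1 ∪ (S2 ∪ S3) := by
    intro q hq
    rw [mem_union, mem_union]
    rcases (hS q hq).2.2 with h | h | h
    · exact Or.inl (mem_filter.2 ⟨hq, h⟩)
    · exact Or.inr (Or.inl (mem_filter.2 ⟨hq, h⟩))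
    · exact Or.inr (Or.inr (mem_filter.2 ⟨hq, h⟩))
  have hle : ∑ q ∈ S, f q ≤ ∑ q ∈ S1, f q + (∑ q ∈ S2, f q + ∑ q ∈ S3, f q) := by
    have hun : ∀ P Q : Finset (ℕ × ℕ), ∑ q ∈ P ∪ Q, f q ≤ ∑ q ∈ P, f q + ∑ q ∈ Q, f q := by
      intro P Q
      have := Finset.sum_union_inter (s₁ := P) (s₂ := Q) (f := f)
      have h0 : 0 ≤ ∑ q ∈ P ∩ Q, f q := Finset.sum_nonneg (fun q _ => hf0 q)
      linarith
    calc ∑ q ∈ S, f q ≤ ∑ q ∈ S1 ∪ (S2 ∪ S3), f q :=
          Finset.sum_le_sum_of_subset_of_nonneg hsub (fun q _ _ => hf0 q)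
      _ ≤ ∑ q ∈ S1, f q + ∑ q ∈ S2 ∪ S3, f q := hun _ _
      _ ≤ _ := by linarith [hun S2 S3]
  have hb1 : ∑ q ∈ S1, f q ≤ (E.card : ℝ) * (Real.exp (-A) * (1 + A ^ (1 + κ))) := by
    calc ∑ q ∈ S1, f q ≤ ∑ q ∈ S1, Real.exp (-A) * (1 / (q.2 : ℝ)) := by
          refine Finset.sum_le_sum (fun q hq => ?_)
          rw [hfm]
          exact mul_le_mul_of_nonneg_right (hinv _ (hS q (mem_filter.1 hq).1).1) (by positivity)
      _ ≤ ∑ q ∈ E ×ˢ Icc 1 N, Real.exp (-A) * (1 / (q.2 : ℝ)) := by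
          refine Finset.sum_le_sum_of_subset_of_nonneg ?_ (fun q _ _ => by positivity)
          intro q hq
          obtain ⟨hqS, hqE⟩ := mem_filter.1 hq
          exact mem_product.2 ⟨hqE, hcellN _ (hS q hqS).2.1⟩
      _ = (E.card : ℝ) * (Real.exp (-A) * ∑ w ∈ Icc 1 N, (1 : ℝ) / (w : ℝ)) := by
          rw [Finset.sum_product]
          dsimp only
          simp only [Finset.sum_const, nsmul_eq_mul, Finset.mul_sum]
      _ ≤ _ := by gcongr
  have hb2 : ∑ q ∈ S2, f q ≤ (E.card : ℝ) * (Real.exp (-A) * (1 + A ^ (1 + κ))) := by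
    calc ∑ q ∈ S2, f q ≤ ∑ q ∈ S2, Real.exp (-A) * (1 / (q.1 : ℝ)) := by
          refine Finset.sum_le_sum (fun q hq => ?_)
          rw [hfm, mul_comm]
          exact mul_le_mul_of_nonneg_right (hinv _ (hS q (mem_filter.1 hq).1).2.1) (by positivity)
      _ ≤ ∑ q ∈ Icc 1 N ×ˢ E, Real.exp (-A) * (1 / (q.1 : ℝ)) := by
          refine Finset.sum_le_sum_of_subset_of_nonneg ?_ (fun q _ _ => by positivity)
          intro q hq
          obtain ⟨hqS, hqE⟩ := mem_filter.1 hq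
          exact mem_product.2 ⟨hcellN _ (hS q hqS).1, hqE⟩
      _ = (E.card : ℝ) * (Real.exp (-A) * ∑ w ∈ Icc 1 N, (1 : ℝ) / (w : ℝ)) := by
          rw [Finset.sum_product_right]
          dsimp only
          simp only [Finset.sum_const, nsmul_eq_mul, Finset.mul_sum]
      _ ≤ _ := by gcongr
  have hb3 : ∑ q ∈ S3, f q ≤ (E.card : ℝ) * (Real.exp (-A) * 2) := by
    have hc : S3.card ≤ 2 * E.card := by
      refine Finset.card_le_mul_card_image_of_maps_to (f := fun q : ℕ × ℕ => q.1 * q.2)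
        (fun q hq => (mem_filter.1 hq).2) 2 (fun b _ => ?_)
      exact qn3_fib S3 (fun q hq =>
        ⟨(hS q (mem_filter.1 hq).1).1.1, (hS q (mem_filter.1 hq).1).2.1.1⟩) b
    calc ∑ q ∈ S3, f q ≤ ∑ _q ∈ S3, Real.exp (-A) := by
          refine Finset.sum_le_sum (fun q hq => ?_)
          rw [hfm]
          have ha := hinv _ (hS q (mem_filter.1 hq).1).1
          have hb := hinv1 _ (hS q (mem_filter.1 hq).1).2.1
          calc (1 / (q.1 : ℝ)) * (1 / (q.2 : ℝ)) ≤ Real.exp (-A) * 1 := by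
                gcongr
            _ = Real.exp (-A) := mul_one _
      _ = (S3.card : ℝ) * Real.exp (-A) := by rw [Finset.sum_const, nsmul_eq_mul]
      _ ≤ ((2 * E.card : ℕ) : ℝ) * Real.exp (-A) := by
          gcongr
      _ = (E.card : ℝ) * (Real.exp (-A) * 2) := by push_cast; ring
  have htot : ∑ q ∈ S, f q ≤ (E.card : ℝ) * (Real.exp (-A) * (4 + 2 * A ^ (1 + κ))) := by
    have : (E.card : ℝ) * (Real.exp (-A) * (4 + 2 * A ^ (1 + κ))) =
      (E.card : ℝ) * (Real.exp (-A) * (1 + A ^ (1 + κ))) +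
      ((E.card : ℝ) * (Real.exp (-A) * (1 + A ^ (1 + κ))) +
        (E.card : ℝ) * (Real.exp (-A) * 2)) := by ring
    rw [this]
    linarith
  refine htot.trans (le_trans ?_ (qn3_arith κ A hκ hκ1 hA2))
  gcongr

end Pool.Agent.Lib.MP_79499b_co.QZ
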