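import Pool.Agent.Lib.MP_79499b_co.DZ.LC
import Pool.Agent.Lib.MP_79499b_co.QZ.QN3

/-!
# QM1: the integers attached to exceptional pairs

`exc_count`: for large `A` and `2 A^(1+κ) ≤ log x` the number of `n < x` for which some exceptional pair `w1, w2` of primes of the
cell, `w1 ≠ w2`, has `w1 ∣ n^s + 1`, `w2 ∣ ∑_{i<s} n^i` is at most `x exp(-A/3)`.

Proof. For a pair: `n^(2s) ≡ 1` modulo `w1` and `w2` (`n^s ≡ -1`, resp. `(n - 1) ∑ n^i = n^s - 1`), so by `cnt_root2` with `m = 2s`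
at most `4 s^2 (x/(w1 w2) + 1) ≤ 8 s^2 x/(w1 w2)`, as `w1 w2 ≤ exp(2 A^(1+κ)) ≤ x`. Sum over the exceptional pairs (a finite
set: all `w ≤ exp A^(1+κ)`): `8 s^2 x exp(-A/2) ≤ x exp(-A/3)` (`exc_sum`, `cnt_exists`).
-/

set_option autoImplicit false

namespace Pool.Agent.Lib.MP_79499b_co.QZ

open Finset DZ

private theorem QM1_root1 {s w n : ℕ} (h : w ∣ n ^ s + 1) : (n : ZMod w) ^ (2 * s) = 1 := by
  have h1 : ((n ^ s + 1 : ℕ) : ZMod w) = 0 := (ZMod.natCast_eq_zero_iff _ _).2 h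
  push_cast at h1
  have h2 : (n : ZMod w) ^ s = -1 := by linear_combination h1
  rw [mul_comm, pow_mul, h2]
  norm_num

private theorem QM1_root2 {s w n : ℕ} (h : w ∣ ∑ i ∈ range s, n ^ i) :
    (n : ZMod w) ^ (2 * s) = 1 := by
  have h1 : ((∑ i ∈ range s, n ^ i : ℕ) : ZMod w) = 0 := (ZMod.natCast_eq_zero_iff _ _).2 h
  push_cast at h1
  have h2 := geom_sum_mul (n : ZMod w) s
  rw [h1, zero_mul] at h2
  have h3 : (n : ZMod w) ^ s = 1 := by linear_combination -h2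
  rw [mul_comm, pow_mul, h3]
  norm_num

theorem exc_count (s : ℕ) (hs : 2 ≤ s) (κ : ℝ) (hκ : 0 < κ) (hκ1 : κ ≤ 1 / 100) :
    ∃ A0 : ℝ, ∀ A : ℝ, A0 ≤ A → ∀ x : ℕ, 2 * A ^ (1 + κ) ≤ Real.log x →
      cnt x (fun n => ∃ w1 w2 : ℕ, Cell A κ w1 ∧ Cell A κ w2 ∧ w1 ≠ w2 ∧ ExcP A κ w1 w2 ∧
        w1 ∣ n ^ s + 1 ∧ w2 ∣ ∑ i ∈ range s, n ^ i) ≤ x * Real.exp (-(A / 3)) := by
  classical
  obtain ⟨A1, hA1⟩ := exc_sum κ hκ hκ1
  refine ⟨max A1 (max 1 (6 * Real.log (8 * (s : ℝ) ^ 2))), ?_⟩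
  intro A hA x hx
  simp only [max_le_iff] at hA
  obtain ⟨hAa, hAb, hAc⟩ := hA
  have hApos : 0 < A ^ (1 + κ) := Real.rpow_pos_of_pos (by linarith) _
  have hxpos : (0 : ℝ) < x := by
    rcases Nat.eq_zero_or_pos x with h | h
    · rw [h] at hx
      simp only [Nat.cast_zero, Real.log_zero] at hx
      linarith
    · exact_mod_cast h
  have hxe : Real.exp (2 * A ^ (1 + κ)) ≤ x := by
    calc Real.exp (2 * A ^ (1 + κ)) ≤ Real.exp (Real.log x) := Real.exp_le_exp.2 hx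
      _ = x := Real.exp_log hxpos
  set N := ⌊Real.exp (A ^ (1 + κ))⌋₊ with hN
  set S : Finset (ℕ × ℕ) := (range (N + 1) ×ˢ range (N + 1)).filter
    (fun q => Cell A κ q.1 ∧ Cell A κ q.2 ∧ q.1 ≠ q.2 ∧ ExcP A κ q.1 q.2) with hS
  have hmemS : ∀ w1 w2 : ℕ, Cell A κ w1 → Cell A κ w2 → w1 ≠ w2 → ExcP A κ w1 w2 →
      (w1, w2) ∈ S := by
    intro w1 w2 h1 h2 h3 h4
    rw [hS, mem_filter, mem_product, mem_range, mem_range]
    refine ⟨⟨?_, ?_⟩, h1, h2, h3, h4⟩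
    · exact Nat.lt_succ_of_le (Nat.le_floor h1.2.2)
    · exact Nat.lt_succ_of_le (Nat.le_floor h2.2.2)
  have hcov : cnt x (fun n => ∃ w1 w2 : ℕ, Cell A κ w1 ∧ Cell A κ w2 ∧ w1 ≠ w2 ∧
      ExcP A κ w1 w2 ∧ w1 ∣ n ^ s + 1 ∧ w2 ∣ ∑ i ∈ range s, n ^ i) ≤
      cnt x (fun n => ∃ q ∈ S, (n : ZMod q.1) ^ (2 * s) = 1 ∧ (n : ZMod q.2) ^ (2 * s) = 1) := by
    refine cnt_mono fun n _ hn => ?_
    obtain ⟨w1, w2, h1, h2, h3, h4, h5, h6⟩ := hn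
    exact ⟨(w1, w2), hmemS w1 w2 h1 h2 h3 h4, QM1_root1 h5, QM1_root2 h6⟩
  refine hcov.trans ((cnt_exists x S (fun q n => (n : ZMod q.1) ^ (2 * s) = 1 ∧
    (n : ZMod q.2) ^ (2 * s) = 1)).trans ?_)
  have hterm : ∀ q ∈ S, cnt x (fun n => (n : ZMod q.1) ^ (2 * s) = 1 ∧
      (n : ZMod q.2) ^ (2 * s) = 1) ≤ 8 * (s : ℝ) ^ 2 * x * (1 / ((q.1 : ℝ) * q.2)) := by
    intro q hq
    rw [hS, mem_filter] at hq
    obtain ⟨-, h1, h2, h3, -⟩ := hq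
    have h4 := cnt_root2 (m := 2 * s) (by omega) h1.1 h2.1 h3 x
    refine h4.trans ?_
    have hq1 : (0 : ℝ) < q.1 := by exact_mod_cast h1.1.pos
    have hq2 : (0 : ℝ) < q.2 := by exact_mod_cast h2.1.pos
    have h5 : (q.1 : ℝ) * q.2 ≤ x := by
      calc (q.1 : ℝ) * q.2 ≤ Real.exp (A ^ (1 + κ)) * Real.exp (A ^ (1 + κ)) :=
            mul_le_mul h1.2.2 h2.2.2 hq2.le (Real.exp_pos _).le
        _ = Real.exp (2 * A ^ (1 + κ)) := by rw [← Real.exp_add]; ring_nf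
        _ ≤ x := hxe
    have h6 : 1 ≤ (x : ℝ) / ((q.1 : ℝ) * q.2) := by
      rw [one_le_div (mul_pos hq1 hq2)]
      exact h5
    push_cast
    have h7 : (x : ℝ) / ((q.1 : ℝ) * q.2) = x * (1 / ((q.1 : ℝ) * q.2)) := by
      rw [mul_one_div]
    rw [h7] at h6 ⊢
    nlinarith [sq_nonneg (s : ℝ)]
  refine (sum_le_sum hterm).trans ?_
  rw [← mul_sum]
  have hsum := hA1 A hAa S (by
    intro q hq
    rw [hS, mem_filter] at hq
    exact ⟨hq.2.1, hq.2.2.1, hq.2.2.2.2⟩)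
  refine (mul_le_mul_of_nonneg_left hsum (by positivity)).trans ?_
  have hs0 : (0 : ℝ) < 8 * (s : ℝ) ^ 2 := by
    have : (0 : ℝ) < s := by exact_mod_cast (by omega : 0 < s)
    positivity
  have h8 : 8 * (s : ℝ) ^ 2 ≤ Real.exp (A / 6) := by
    rw [← Real.log_le_iff_le_exp hs0]
    linarith
  have h9 : Real.exp (-(A / 3)) = Real.exp (A / 6) * Real.exp (-(A / 2)) := by
    rw [← Real.exp_add]; ring_nf
  rw [h9]
  have h10 := (Real.exp_pos (-(A / 2))).le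
  calc 8 * (s : ℝ) ^ 2 * x * Real.exp (-(A / 2))
      = (8 * (s : ℝ) ^ 2) * (x * Real.exp (-(A / 2))) := by ring
    _ ≤ Real.exp (A / 6) * (x * Real.exp (-(A / 2))) :=
        mul_le_mul_of_nonneg_right h8 (by positivity)
    _ = _ := by ring

end Pool.Agent.Lib.MP_79499b_co.QZ
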