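import Pool.Agent.Lib.MP_79499b_co.DZ.NLS
import Pool.Agent.Lib.MP_79499b_co.DZ.NPH
import Pool.Agent.Lib.MP_79499b_co.QZ.QDef

/-!
# QN1: few exceptional conductors

`ew_card`: `|EW A κ| ≤ exp A^(1/2)` for large `A`, `0 < κ ≤ 1/100`.

Proof (as in NSX.lean / NNumS.lean). `Q = QA A κ = ⌊exp A^(1-4κ)⌋ → ∞`, `B = hB Q`, `|B| ≥ Q/(4 log Q)` (`primes_half`),
`Z = ⌊exp(2 A^(1+κ))⌋`, `η = 1/(2 A^κ)`. `exc_card Z Q j B _ _ η` with `j = ⌈4 A^(1+κ)/log Q⌉ + 1`, `Q^j ≥ Z^2`: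
`log Q ≥ A^(1-4κ) - 1 ≥ A^(1-4κ)/2`, so `j ≤ 8 A^(5κ) + 2 ≤ A^(1/10)` and
`|EW| ≤ 12 Q^j j!/(η^(2j) |B|^j) ≤ 12 (j (2 A^κ)^2 4 log Q)^j ≤ 12 (16 A^(1/10) A^(2κ) A)^(A^(1/10)) ≤ exp A^(1/2)`
(`log` of the right side: `A^(1/10) (2 log A + log 16) + log 12 ≤ A^(1/2)` for large `A`).
-/

set_option autoImplicit false

namespace Pool.Agent.Lib.MP_79499b_co.QZ

open Finset DZ

private lemma QN1_asym (A : ℝ) (n : ℕ) (a b s t : ℝ) (ha : 0 < a) (hs : 0 < s) (hts : t < s) :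
    ∀ᶠ L : ℝ in Filter.atTop, A * L ^ n * Real.exp (b * L ^ t) ≤ Real.exp (a * L ^ s) := by
  have h1 : ∀ᶠ L : ℝ in Filter.atTop, A ≤ a / 3 * L ^ s :=
    ((tendsto_rpow_atTop hs).const_mul_atTop (by positivity)).eventually_ge_atTop A
  have h2 : ∀ᶠ L : ℝ in Filter.atTop, ‖Real.log L‖ ≤ (a / (3 * ((n : ℝ) + 1))) * ‖L ^ s‖ :=
    (isLittleO_log_rpow_atTop hs).bound (by positivity)
  have h3 : ∀ᶠ L : ℝ in Filter.atTop, |b| * L ^ (-(s - t)) ≤ a / 3 := by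
    have := (tendsto_rpow_neg_atTop (show 0 < s - t by linarith)).const_mul |b|
    rw [mul_zero] at this
    exact this.eventually_le_const (by positivity)
  filter_upwards [Filter.eventually_ge_atTop 1, h1, h2, h3] with L hL e1 e2 e3
  have hL0 : 0 < L := by linarith
  have hlog : 0 ≤ Real.log L := Real.log_nonneg hL
  rw [Real.norm_eq_abs, abs_of_nonneg hlog, Real.norm_eq_abs, abs_of_pos (by positivity)] at e2
  have f2 : (n : ℝ) * Real.log L ≤ a / 3 * L ^ s := by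
    calc (n : ℝ) * Real.log L ≤ ((n : ℝ) + 1) * ((a / (3 * ((n : ℝ) + 1))) * L ^ s) := by
          gcongr
          linarith
      _ = a / 3 * L ^ s := by field_simp
  have f3 : b * L ^ t ≤ a / 3 * L ^ s := by
    calc b * L ^ t ≤ |b| * L ^ t := by
          gcongr
          exact le_abs_self b
      _ = |b| * L ^ (-(s - t)) * L ^ s := by
          rw [mul_assoc, ← Real.rpow_add hL0]
          congr 2
          ring
      _ ≤ a / 3 * L ^ s := by gcongr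
  have f1 : A ≤ Real.exp (a / 3 * L ^ s) := by
    have := Real.add_one_le_exp (a / 3 * L ^ s)
    linarith
  have f4 : L ^ n = Real.exp (n * Real.log L) := by
    rw [Real.exp_nat_mul, Real.exp_log hL0]
  calc A * L ^ n * Real.exp (b * L ^ t) ≤
        Real.exp (a / 3 * L ^ s) * Real.exp (a / 3 * L ^ s) * Real.exp (a / 3 * L ^ s) := by
          rw [f4]
          gcongr
    _ = Real.exp (a * L ^ s) := by
        rw [← Real.exp_add, ← Real.exp_add]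
        congr 1
        ring

/-- the numerical part -/
private lemma QN1_num (A κ : ℝ) (Q : ℕ) (hA : 1 ≤ A) (hκ : 0 < κ) (hκ1 : κ ≤ 1 / 100)
    (hQ10 : (10 : ℝ) ≤ Q) (hQle : (Q : ℝ) ≤ Real.exp (A ^ (1 - 4 * κ)))
    (hQge : Real.exp (A ^ (1 - 4 * κ)) ≤ 2 * Q)
    (h144 : 144 * A ^ 2 * Real.exp (0 * A ^ (0 : ℝ)) ≤ Real.exp (1 * A ^ (1 / 100 : ℝ)))
    (h12 : 12 * A ^ 0 * Real.exp (9 * A ^ (3 / 50 : ℝ)) ≤ Real.exp (1 * A ^ (1 / 2 : ℝ))) :
    ∃ j : ℕ, Real.exp (4 * A ^ (1 + κ)) ≤ (Q : ℝ) ^ j ∧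
      12 * (Q : ℝ) ^ j * j.factorial / ((1 / (2 * A ^ κ)) ^ (2 * j) *
        ((Q : ℝ) / (4 * Real.log Q)) ^ j) ≤ Real.exp (A ^ (1 / 2 : ℝ)) := by
  have hA0 : 0 < A := by linarith
  have hQ0 : (0 : ℝ) < Q := by linarith
  have hlogQ : 0 < Real.log Q := Real.log_pos (by linarith)
  set u := A ^ (1 - 4 * κ) with hu
  have hu0 : 0 < u := by positivity
  have hul : u / 2 ≤ Real.log Q := by
    rw [Real.le_log_iff_exp_le hQ0]
    have e1 : Real.exp u = Real.exp (u / 2) * Real.exp (u / 2) := by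
      rw [← Real.exp_add]
      congr 1
      ring
    have e2 : 2 ≤ Real.exp (u / 2) := by
      by_contra h
      push Not at h
      have := Real.exp_pos (u / 2)
      nlinarith
    nlinarith
  have hlu : Real.log Q ≤ u := by
    rw [Real.log_le_iff_le_exp hQ0]
    exact hQle
  refine ⟨⌈4 * A ^ (1 + κ) / Real.log Q⌉₊, ?_, ?_⟩
  · set j : ℕ := ⌈4 * A ^ (1 + κ) / Real.log Q⌉₊ with hj
    have h16 : 4 * A ^ (1 + κ) / Real.log Q ≤ j := Nat.le_ceil _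
    rw [div_le_iff₀ hlogQ] at h16
    calc Real.exp (4 * A ^ (1 + κ)) ≤ Real.exp (j * Real.log Q) := Real.exp_le_exp.2 h16
      _ = (Q : ℝ) ^ j := by
          rw [Real.exp_nat_mul, Real.exp_log hQ0]
  · set j : ℕ := ⌈4 * A ^ (1 + κ) / Real.log Q⌉₊ with hj
    have h17 : (j : ℝ) < 4 * A ^ (1 + κ) / Real.log Q + 1 :=
      Nat.ceil_lt_add_one (by positivity)
    have h18 : 4 * A ^ (1 + κ) / Real.log Q ≤ 8 * A ^ (1 / 20 : ℝ) := by
      rw [div_le_iff₀ hlogQ]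
      have h19 : A ^ (1 + κ) = A ^ (5 * κ) * u := by
        rw [hu, ← Real.rpow_add hA0]
        congr 1
        ring
      have h20 : A ^ (5 * κ) ≤ A ^ (1 / 20 : ℝ) :=
        Real.rpow_le_rpow_of_exponent_le hA (by linarith)
      calc 4 * A ^ (1 + κ) = 8 * A ^ (5 * κ) * (u / 2) := by rw [h19]; ring
        _ ≤ 8 * A ^ (1 / 20 : ℝ) * Real.log Q := by gcongr
    have h1r : (1 : ℝ) ≤ A ^ (1 / 20 : ℝ) := Real.one_le_rpow hA (by norm_num)
    have hjC : (j : ℝ) ≤ 9 * A ^ (1 / 20 : ℝ) := by linarith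
    have hexpr : 12 * (Q : ℝ) ^ j * j.factorial /
        ((1 / (2 * A ^ κ)) ^ (2 * j) * ((Q : ℝ) / (4 * Real.log Q)) ^ j) =
        12 * (j.factorial * (16 * (A ^ κ) ^ 2 * Real.log Q) ^ j) := by
      have hAk : 0 < A ^ κ := by positivity
      have h23 : (1 / (2 * A ^ κ)) ^ (2 * j) * ((Q : ℝ) / (4 * Real.log Q)) ^ j =
          ((Q : ℝ) / (16 * (A ^ κ) ^ 2 * Real.log Q)) ^ j := by
        rw [pow_mul, ← mul_pow]
        congr 1
        field_simp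
        ring
      rw [h23, div_pow]
      have h24 : (Q : ℝ) ^ j ≠ 0 := (pow_pos hQ0 j).ne'
      field_simp
    rw [hexpr]
    have hfac : (j.factorial : ℝ) ≤ (j : ℝ) ^ j := by
      exact_mod_cast Nat.factorial_le_pow j
    have hbase : 16 * (A ^ κ) ^ 2 * (j * Real.log Q) ≤ Real.exp (A ^ (1 / 100 : ℝ)) := by
      have k1 : (A ^ κ) ^ 2 * (A ^ (1 / 20 : ℝ) * u) ≤ A ^ 2 := by
        rw [← Real.rpow_natCast (A ^ κ) 2, ← Real.rpow_mul hA0.le, hu, ← Real.rpow_add hA0,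
          ← Real.rpow_add hA0, ← Real.rpow_natCast A 2]
        apply Real.rpow_le_rpow_of_exponent_le hA
        push_cast
        linarith
      rw [zero_mul, Real.exp_zero, mul_one, one_mul] at h144
      calc 16 * (A ^ κ) ^ 2 * (j * Real.log Q) ≤
            16 * (A ^ κ) ^ 2 * (9 * A ^ (1 / 20 : ℝ) * u) := by gcongr
        _ = 144 * ((A ^ κ) ^ 2 * (A ^ (1 / 20 : ℝ) * u)) := by ring
        _ ≤ 144 * A ^ 2 := by gcongr
        _ ≤ _ := h144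
    calc 12 * ((j.factorial : ℝ) * (16 * (A ^ κ) ^ 2 * Real.log Q) ^ j)
        ≤ 12 * ((j : ℝ) ^ j * (16 * (A ^ κ) ^ 2 * Real.log Q) ^ j) := by gcongr
      _ = 12 * (16 * (A ^ κ) ^ 2 * (j * Real.log Q)) ^ j := by
          rw [← mul_pow]
          congr 2
          ring
      _ ≤ 12 * (Real.exp (A ^ (1 / 100 : ℝ))) ^ j := by gcongr
      _ = 12 * Real.exp (j * A ^ (1 / 100 : ℝ)) := by rw [← Real.exp_nat_mul]
      _ ≤ 12 * Real.exp (9 * A ^ (1 / 20 : ℝ) * A ^ (1 / 100 : ℝ)) := by gcongr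
      _ = 12 * A ^ 0 * Real.exp (9 * A ^ (3 / 50 : ℝ)) := by
          rw [pow_zero, mul_one, mul_assoc, ← Real.rpow_add hA0]
          norm_num
      _ ≤ Real.exp (1 * A ^ (1 / 2 : ℝ)) := h12
      _ = _ := by rw [one_mul]

theorem ew_card (κ : ℝ) (hκ : 0 < κ) (hκ1 : κ ≤ 1 / 100) : ∃ A0 : ℝ, ∀ A : ℝ, A0 ≤ A →
    ((EW A κ).card : ℝ) ≤ Real.exp (A ^ (1 / 2 : ℝ)) := by
  classical
  obtain ⟨Q0, hQ0⟩ := primes_half
  have hT : Filter.Tendsto (fun A : ℝ => ((QA A κ : ℕ) : ℝ)) Filter.atTop Filter.atTop :=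
    tendsto_natCast_atTop_atTop.comp (tendsto_nat_floor_atTop.comp (Real.tendsto_exp_atTop.comp
      (tendsto_rpow_atTop (by linarith))))
  have hev := ((Filter.eventually_ge_atTop (1 : ℝ)).and
      ((hT.eventually_ge_atTop (Q0 : ℝ)).and (hT.eventually_ge_atTop 10))).and
      ((QN1_asym 144 2 1 0 (1 / 100) 0 (by norm_num) (by norm_num) (by norm_num)).and
      (QN1_asym 12 0 1 9 (1 / 2) (3 / 50) (by norm_num) (by norm_num) (by norm_num)))
  obtain ⟨A0, hA0⟩ := Filter.eventually_atTop.mp hev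
  refine ⟨A0, fun A hAA => ?_⟩
  obtain ⟨⟨hA, hQ1, hQ10⟩, h144, h12⟩ := hA0 A hAA
  clear hA0 hAA hev hT
  have hApos : 0 < A := by linarith
  have hQle : (QA A κ : ℝ) ≤ Real.exp (A ^ (1 - 4 * κ)) := Nat.floor_le (Real.exp_pos _).le
  have hQge : Real.exp (A ^ (1 - 4 * κ)) ≤ 2 * (QA A κ : ℝ) := by
    have h1 : Real.exp (A ^ (1 - 4 * κ)) < (QA A κ : ℝ) + 1 :=
      Nat.lt_floor_add_one (Real.exp (A ^ (1 - 4 * κ)))
    linarith
  obtain ⟨j, hj1, hj2⟩ := QN1_num A κ (QA A κ) hA hκ hκ1 hQ10 hQle hQge h144 h12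
  set Q : ℕ := QA A κ with hQ
  have hBc : (Q : ℝ) / (4 * Real.log Q) ≤ ((hB Q).card : ℝ) := hQ0 Q (by exact_mod_cast hQ1)
  have hlogQ : 0 < Real.log Q := Real.log_pos (by linarith)
  have hQl : 0 < (Q : ℝ) / (4 * Real.log Q) := by positivity
  have hBpos : (0 : ℝ) < (hB Q).card := lt_of_lt_of_le hQl hBc
  set Z : ℕ := ⌊Real.exp (2 * A ^ (1 + κ))⌋₊ with hZ
  set η : ℝ := 1 / (2 * A ^ κ) with hη
  have hη0 : 0 < η := by rw [hη]; positivity
  have h1 := exc_card Z Q j (hB Q) (by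
    intro q hq
    unfold hB at hq
    rw [Finset.mem_filter, Finset.mem_Icc] at hq
    exact ⟨hq.2.1, hq.1.2⟩) (Finset.card_pos.1 (by exact_mod_cast hBpos)) η hη0 (EW A κ) (by
    intro W hW
    unfold EW at hW
    rw [Finset.mem_filter, Finset.mem_Icc] at hW
    obtain ⟨⟨hW1, hW2⟩, χ, hχ, hle⟩ := hW
    refine ⟨by omega, hW2, χ, hχ, ?_⟩
    have h3 : η * ((hB Q).card : ℝ) = ((hB Q).card : ℝ) / (2 * A ^ κ) := by
      rw [hη]; ring
    rw [h3]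
    exact hle)
  refine h1.trans (le_trans ?_ hj2)
  have hZ2 : (Z : ℝ) ^ 2 ≤ (Q : ℝ) ^ j := by
    have h2 : (Z : ℝ) ≤ Real.exp (2 * A ^ (1 + κ)) := Nat.floor_le (Real.exp_pos _).le
    calc (Z : ℝ) ^ 2 ≤ (Real.exp (2 * A ^ (1 + κ))) ^ 2 :=
          pow_le_pow_left₀ (Nat.cast_nonneg _) h2 2
      _ = Real.exp (4 * A ^ (1 + κ)) := by
          rw [← Real.exp_nat_mul]
          congr 1
          push_cast
          ring
      _ ≤ (Q : ℝ) ^ j := hj1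
  have hnum : 6 * ((Q : ℝ) ^ j + (Z : ℝ) ^ 2) * j.factorial ≤ 12 * (Q : ℝ) ^ j * j.factorial := by
    refine mul_le_mul_of_nonneg_right ?_ (Nat.cast_nonneg _)
    linarith
  refine div_le_div₀ (by positivity) hnum (by positivity) ?_
  exact mul_le_mul_of_nonneg_left (pow_le_pow_left₀ hQl.le hBc j) (by positivity)

end Pool.Agent.Lib.MP_79499b_co.QZ
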