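import Pool.Agent.Lib.MP_79499b_co.QZ.QDef

/-!
# QN5: numerical facts, II (as NNum.lean)

`e0 ≥ 1` fixed, `0 < κ ≤ 1/100`, `A` large, `1 ≤ i ≤ A^κ`, `Q = QA A κ = ⌊exp A^(1-4κ)⌋`, `m ≤ A^κ`, `1 ≤ T`,
`log T ≤ i (log i + 2 A^(1+κ))`, `√Q ≤ c`, `exp A^(1/2) ≤ Y`.
Take `j = ⌈i log(T Q + 1)/log(2Y)⌉ + 1`: `(T Q + 1)^i ≤ (2Y)^j`. `log T ≤ A^κ (κ log A + 2 A^(1+κ)) ≤ 3 A^(1+2κ)`,
`log(TQ + 1) ≤ 1 + log T + log Q ≤ 5 A^(1+2κ)`, so `j ≤ 5 A^(1+3κ)/A^(1/2) + 2 ≤ 6 A^(1/2+3κ)`. `A' = 2 4^i (1 + log T)^i` has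
`log A' ≤ log 2 + A^κ (log 4 + log(4 A^(1+2κ))) ≤ A^(2κ)`, `log √Q ≥ A^(1-4κ)/2 - 1`, so
`(A'/c)^(1/j) ≤ exp(-(A^(1-4κ)/4)/j) ≤ exp(-A^(1/2-7κ)/24) ≤ exp(-A^(2/5))` (`κ ≤ 1/100`: `1/2 - 7κ ≥ 43/100 > 2/5`). The factors
`2^i (2 e0 i + 1)^i 2^(2 e0 i m)` are at most `exp(C A^(2κ) log A) ≤ exp(A^(1/10))`. Total
`≤ exp(A^(1/10)) (j + 2 j Y exp(-A^(2/5))) ≤ Y exp(-A^(1/3))`, since `j ≤ A` and `Y ≥ exp A^(1/2)`.
-/

set_option autoImplicit false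

namespace Pool.Agent.Lib.MP_79499b_co.QZ

open Finset DZ

private lemma QN5_asym (A : ℝ) (n : ℕ) (a b s t : ℝ) (ha : 0 < a) (hs : 0 < s) (hts : t < s) :
    ∀ᶠ L : ℝ in Filter.atTop, A * L ^ n * Real.exp (b * L ^ t) ≤ Real.exp (a * L ^ s) := by
  have h1 : ∀ᶠ L : ℝ in Filter.atTop, A ≤ a / 3 * L ^ s :=
    ((tendsto_rpow_atTop hs).const_mul_atTop (by positivity)).eventually_ge_atTop A
  have h2 : ∀ᶠ L : ℝ in Filter.atTop, ‖Real.log L‖ ≤ (a / (3 * ((n : ℝ) + 1))) * ‖L ^ s‖ :=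
    (isLittleO_log_rpow_atTop hs).bound (by positivity)
  have h3 : ∀ᶠ L : ℝ in Filter.atTop, |b| * L ^ (-(s - t)) ≤ a / 3 := by
    have := (tendsto_rpow_neg_atTop (show 0 < s - t by linarith)).const_mul |b|
    rw [mul_zero] at this
    exact this.eventually_le_const (by positivity)
  filter_upwards [Filter.eventually_ge_atTop 1, h1, h2, h3] with L hL e1 e2 e3
  have hL0 : 0 < L := by linarith
  have hlog : 0 ≤ Real.log L := Real.log_nonneg hL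
  rw [Real.norm_eq_abs, abs_of_nonneg hlog, Real.norm_eq_abs, abs_of_pos (by positivity)] at e2
  have f2 : (n : ℝ) * Real.log L ≤ a / 3 * L ^ s := by
    calc (n : ℝ) * Real.log L ≤ ((n : ℝ) + 1) * ((a / (3 * ((n : ℝ) + 1))) * L ^ s) := by
          gcongr
          linarith
      _ = a / 3 * L ^ s := by field_simp
  have f3 : b * L ^ t ≤ a / 3 * L ^ s := by
    calc b * L ^ t ≤ |b| * L ^ t := by
          gcongr
          exact le_abs_self b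
      _ = |b| * L ^ (-(s - t)) * L ^ s := by
          rw [mul_assoc, ← Real.rpow_add hL0]
          congr 2
          ring
      _ ≤ a / 3 * L ^ s := by gcongr
  have f1 : A ≤ Real.exp (a / 3 * L ^ s) := by
    have := Real.add_one_le_exp (a / 3 * L ^ s)
    linarith
  have f4 : L ^ n = Real.exp (n * Real.log L) := by
    rw [Real.exp_nat_mul, Real.exp_log hL0]
  calc A * L ^ n * Real.exp (b * L ^ t) ≤
        Real.exp (a / 3 * L ^ s) * Real.exp (a / 3 * L ^ s) * Real.exp (a / 3 * L ^ s) := by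
          rw [f4]
          gcongr
    _ = Real.exp (a * L ^ s) := by
        rw [← Real.exp_add, ← Real.exp_add]
        congr 1
        ring

/-- the choice of `j` -/
private lemma QN5_j (i T Q Y : ℕ) (b : ℝ) (hb0 : 0 ≤ b) (hT : 1 ≤ T) (hQ : 1 ≤ Q) (l : ℝ)
    (hl : 0 < l) (hY : Real.exp l ≤ Y) (hb : i * Real.log (T * Q + 1) ≤ b * l) :
    ∃ j : ℕ, 1 ≤ j ∧ (j : ℝ) ≤ b + 2 ∧ (T * Q + 1) ^ i ≤ (2 * Y) ^ j := by
  have hY0 : (0 : ℝ) < Y := (Real.exp_pos l).trans_le hY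
  have hY2 : l ≤ Real.log (2 * Y) := by
    rw [Real.le_log_iff_exp_le (by positivity)]
    linarith
  refine ⟨⌈b⌉₊ + 1, by omega, ?_, ?_⟩
  · push_cast
    have := (Nat.ceil_lt_add_one hb0).le
    linarith
  · have h1 : ((T : ℝ) * Q + 1) ^ i ≤ (2 * (Y : ℝ)) ^ (⌈b⌉₊ + 1) := by
      have e1 : ((T : ℝ) * Q + 1) ^ i = Real.exp (i * Real.log (T * Q + 1)) := by
        rw [Real.exp_nat_mul, Real.exp_log (by positivity)]
      have e2 : (2 * (Y : ℝ)) ^ (⌈b⌉₊ + 1) = Real.exp ((⌈b⌉₊ + 1 : ℕ) * Real.log (2 * Y)) := by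
        rw [Real.exp_nat_mul, Real.exp_log (by positivity)]
      rw [e1, e2]
      apply Real.exp_le_exp.mpr
      refine hb.trans ?_
      have e3 : b ≤ ((⌈b⌉₊ + 1 : ℕ) : ℝ) := by
        push_cast
        have := Nat.le_ceil b
        linarith
      gcongr
    exact_mod_cast h1

/-- the logarithms -/
private lemma QN5_log (A κ : ℝ) (hA : 1 ≤ A) (hκ : 0 < κ) (hκ1 : κ ≤ 1 / 100) (i T Q : ℕ)
    (hi : 1 ≤ i) (hiA : (i : ℝ) ≤ A ^ κ) (hT : 1 ≤ T) (hQ : 1 ≤ Q)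
    (hTl : Real.log T ≤ i * (Real.log i + 2 * A ^ (1 + κ)))
    (hQl : Real.log Q ≤ A ^ (1 - 4 * κ)) :
    Real.log (T * Q + 1) ≤ 5 * A ^ (51 / 50 : ℝ) ∧ 1 + Real.log T ≤ 4 * A ^ (51 / 50 : ℝ) := by
  have hA0 : 0 < A := by linarith
  have hi' : (1 : ℝ) ≤ i := by exact_mod_cast hi
  have hT' : (1 : ℝ) ≤ T := by exact_mod_cast hT
  have hQ' : (1 : ℝ) ≤ Q := by exact_mod_cast hQ
  have hv : 1 ≤ A ^ (51 / 50 : ℝ) := Real.one_le_rpow hA (by norm_num)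
  have h1 : Real.log i ≤ A ^ (1 + κ) := by
    have e1 : Real.log i ≤ i - 1 := Real.log_le_sub_one_of_pos (by linarith)
    have e2 : A ^ κ ≤ A ^ (1 + κ) := Real.rpow_le_rpow_of_exponent_le hA (by linarith)
    linarith
  have h2 : Real.log T ≤ 3 * A ^ (51 / 50 : ℝ) := by
    calc Real.log T ≤ i * (Real.log i + 2 * A ^ (1 + κ)) := hTl
      _ ≤ A ^ κ * (A ^ (1 + κ) + 2 * A ^ (1 + κ)) := by gcongr
      _ = 3 * (A ^ κ * A ^ (1 + κ)) := by ring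
      _ = 3 * A ^ (κ + (1 + κ)) := by rw [← Real.rpow_add hA0]
      _ ≤ 3 * A ^ (51 / 50 : ℝ) := by
          have := Real.rpow_le_rpow_of_exponent_le hA (show κ + (1 + κ) ≤ 51 / 50 by linarith)
          linarith
  have h3 : Real.log Q ≤ A ^ (51 / 50 : ℝ) :=
    hQl.trans (Real.rpow_le_rpow_of_exponent_le hA (by linarith))
  constructor
  · have h4 : Real.log (T * Q + 1) ≤ Real.log (2 * (T * Q)) := by
      apply Real.log_le_log (by positivity)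
      have : (1 : ℝ) ≤ T * Q := one_le_mul_of_one_le_of_one_le hT' hQ'
      linarith
    have h5 : Real.log (2 * ((T : ℝ) * Q)) = Real.log 2 + (Real.log T + Real.log Q) := by
      rw [Real.log_mul (by norm_num) (by positivity), Real.log_mul (by positivity) (by positivity)]
    have h6 : Real.log 2 ≤ 1 := by
      have := Real.log_two_lt_d9
      linarith
    linarith
  · linarith

/-- the small power -/
private lemma QN5_E (A : ℝ) (j : ℕ) (hA : 1 ≤ A) (B c Q : ℝ) (hB0 : 0 ≤ B)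
    (hB : 2 * B ≤ Real.exp (1 / 4 * A ^ (24 / 25 : ℝ)))
    (hQ : Real.exp (A ^ (24 / 25 : ℝ)) / 2 ≤ Q) (hc : √Q ≤ c)
    (hj : 1 ≤ j) (hj2 : (j : ℝ) ≤ 7 * A ^ (53 / 100 : ℝ)) :
    (B / c) ^ ((1 : ℝ) / j) ≤ Real.exp (-(1 / 28 * A ^ (43 / 100 : ℝ))) := by
  have hA0 : 0 < A := by linarith
  have hj0 : (0 : ℝ) < j := by exact_mod_cast hj
  set u := A ^ (24 / 25 : ℝ) with hu
  have hc1 : Real.exp (1 / 2 * u) / 2 ≤ c := by
    refine le_trans ?_ hc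
    apply Real.le_sqrt_of_sq_le
    refine le_trans ?_ hQ
    have : Real.exp u = Real.exp (1 / 2 * u) * Real.exp (1 / 2 * u) := by
      rw [← Real.exp_add]
      congr 1
      ring
    rw [this]
    have := Real.exp_pos (1 / 2 * u)
    nlinarith
  have hc0 : 0 < c := lt_of_lt_of_le (by positivity) hc1
  have h1 : B / c ≤ Real.exp (-(1 / 4 * u)) := by
    rw [div_le_iff₀ hc0]
    calc B = (2 * B) / 2 := by ring
      _ ≤ Real.exp (1 / 4 * u) / 2 := by gcongr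
      _ = Real.exp (-(1 / 4 * u)) * (Real.exp (1 / 2 * u) / 2) := by
          rw [← mul_div_assoc, ← Real.exp_add]
          congr 2
          ring
      _ ≤ Real.exp (-(1 / 4 * u)) * c := by gcongr
  calc (B / c) ^ ((1 : ℝ) / j) ≤ (Real.exp (-(1 / 4 * u))) ^ ((1 : ℝ) / j) :=
        Real.rpow_le_rpow (by positivity) h1 (by positivity)
    _ = Real.exp (-(1 / 4 * u) * (1 / j)) := (Real.exp_mul _ _).symm
    _ ≤ Real.exp (-(1 / 28 * A ^ (43 / 100 : ℝ))) := by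
        apply Real.exp_le_exp.mpr
        have h2 : 1 / 28 * A ^ (43 / 100 : ℝ) ≤ 1 / 4 * u * (1 / j) := by
          rw [mul_one_div, le_div_iff₀ hj0]
          calc 1 / 28 * A ^ (43 / 100 : ℝ) * j ≤
                1 / 28 * A ^ (43 / 100 : ℝ) * (7 * A ^ (53 / 100 : ℝ)) := by gcongr
            _ = 1 / 4 * (A ^ (43 / 100 : ℝ) * A ^ (53 / 100 : ℝ)) := by ring
            _ = 1 / 4 * u := by
                rw [← Real.rpow_add hA0, hu]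
                norm_num
        linarith

/-- the factor -/
private lemma QN5_fac (A κ : ℝ) (hA : 1 ≤ A) (hκ : 0 < κ) (hκ1 : κ ≤ 1 / 100) (e0 i m : ℕ)
    (hiA : (i : ℝ) ≤ A ^ κ) (hmA : (m : ℝ) ≤ A ^ κ) :
    (2 : ℝ) ^ i * ((2 * (e0 : ℝ) * i + 1) ^ i * 2 ^ (2 * e0 * i * m)) ≤
      Real.exp ((1 + 4 * e0) * A ^ (1 / 50 : ℝ)) := by
  have hA0 : 0 < A := by linarith
  have h1 : A ^ κ ≤ A ^ (1 / 100 : ℝ) := Real.rpow_le_rpow_of_exponent_le hA hκ1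
  have h2 : A ^ (1 / 100 : ℝ) * A ^ (1 / 100 : ℝ) = A ^ (1 / 50 : ℝ) := by
    rw [← Real.rpow_add hA0]
    norm_num
  have h3 : A ^ (1 / 100 : ℝ) ≤ A ^ (1 / 50 : ℝ) :=
    Real.rpow_le_rpow_of_exponent_le hA (by norm_num)
  have hi1 : (i : ℝ) ≤ A ^ (1 / 100 : ℝ) := hiA.trans h1
  have hm1 : (m : ℝ) ≤ A ^ (1 / 100 : ℝ) := hmA.trans h1
  have he : (2 : ℝ) ≤ Real.exp 1 := by
    have := Real.add_one_le_exp (1 : ℝ)
    linarith
  have g1 : (2 : ℝ) ^ i ≤ Real.exp i := by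
    calc (2 : ℝ) ^ i ≤ (Real.exp 1) ^ i := by gcongr
      _ = Real.exp i := by
          rw [← Real.exp_nat_mul, mul_one]
  have g2 : (2 * (e0 : ℝ) * i + 1) ^ i ≤ Real.exp (i * (2 * (e0 : ℝ) * i)) := by
    calc (2 * (e0 : ℝ) * i + 1) ^ i ≤ (Real.exp (2 * (e0 : ℝ) * i)) ^ i := by
          have := Real.add_one_le_exp (2 * (e0 : ℝ) * i)
          gcongr
      _ = Real.exp (i * (2 * (e0 : ℝ) * i)) := by
          rw [← Real.exp_nat_mul]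
  have g3 : (2 : ℝ) ^ (2 * e0 * i * m) ≤ Real.exp (2 * e0 * i * m) := by
    calc (2 : ℝ) ^ (2 * e0 * i * m) ≤ (Real.exp 1) ^ (2 * e0 * i * m) := by gcongr
      _ = Real.exp (2 * e0 * i * m) := by
          rw [← Real.exp_nat_mul, mul_one]
          push_cast
          rfl
  calc (2 : ℝ) ^ i * ((2 * (e0 : ℝ) * i + 1) ^ i * 2 ^ (2 * e0 * i * m)) ≤
        Real.exp i * (Real.exp (i * (2 * (e0 : ℝ) * i)) * Real.exp (2 * e0 * i * m)) := by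
          gcongr
    _ = Real.exp (i + (i * (2 * (e0 : ℝ) * i) + 2 * e0 * i * m)) := by
        rw [← Real.exp_add, ← Real.exp_add]
    _ ≤ Real.exp ((1 + 4 * e0) * A ^ (1 / 50 : ℝ)) := by
        apply Real.exp_le_exp.mpr
        have k1 : (i : ℝ) * (2 * (e0 : ℝ) * i) ≤ 2 * e0 * A ^ (1 / 50 : ℝ) := by
          calc (i : ℝ) * (2 * (e0 : ℝ) * i) ≤
                A ^ (1 / 100 : ℝ) * (2 * (e0 : ℝ) * A ^ (1 / 100 : ℝ)) := by gcongr
            _ = 2 * e0 * (A ^ (1 / 100 : ℝ) * A ^ (1 / 100 : ℝ)) := by ring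
            _ = _ := by rw [h2]
        have k2 : 2 * (e0 : ℝ) * i * m ≤ 2 * e0 * A ^ (1 / 50 : ℝ) := by
          calc 2 * (e0 : ℝ) * i * m ≤
                2 * e0 * A ^ (1 / 100 : ℝ) * A ^ (1 / 100 : ℝ) := by gcongr
            _ = 2 * e0 * (A ^ (1 / 100 : ℝ) * A ^ (1 / 100 : ℝ)) := by ring
            _ = _ := by rw [h2]
        have k3 : (i : ℝ) ≤ A ^ (1 / 50 : ℝ) := hi1.trans h3
        linarith

theorem numA_rare (e0 : ℕ) (he0 : 1 ≤ e0) (κ : ℝ) (hκ : 0 < κ) (hκ1 : κ ≤ 1 / 100) :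
    ∃ A0 : ℝ, ∀ A : ℝ, A0 ≤ A → ∀ i : ℕ, 1 ≤ i → (i : ℝ) ≤ A ^ κ →
      ∀ (T : ℕ) (c : ℝ) (Y m : ℕ), 1 ≤ T → Real.log T ≤ i * (Real.log i + 2 * A ^ (1 + κ)) →
      √(QA A κ : ℝ) ≤ c → Real.exp (A ^ (1 / 2 : ℝ)) ≤ Y → (m : ℝ) ≤ A ^ κ →
      ∃ j : ℕ, 1 ≤ j ∧ (T * QA A κ + 1) ^ i ≤ (2 * Y) ^ j ∧
        2 ^ i * ((2 * (e0 : ℝ) * i + 1) ^ i * 2 ^ (2 * e0 * i * m) *
          (j + 2 * j * Y * (2 * 4 ^ i * (1 + Real.log T) ^ i / c) ^ ((1 : ℝ) / j))) ≤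
          Y * Real.exp (-(A ^ (1 / 3 : ℝ))) := by
  have he0' : (1 : ℝ) ≤ e0 := by exact_mod_cast he0
  have hev := ((Filter.eventually_ge_atTop (1 : ℝ)).and
      ((QN5_asym 16 2 1 0 (1 / 100) 0 (by norm_num) (by norm_num) (by norm_num)).and
      (QN5_asym 4 0 (1 / 4) 1 (24 / 25) (1 / 50) (by norm_num) (by norm_num) (by norm_num)))).and
      ((QN5_asym 14 1 1 (2 + 4 * e0) (1 / 2) (1 / 3) (by norm_num) (by norm_num)
        (by norm_num)).and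
      (QN5_asym 28 1 (1 / 28) (2 + 4 * e0) (43 / 100) (1 / 3) (by norm_num) (by norm_num)
        (by norm_num)))
  obtain ⟨A0, hA0⟩ := Filter.eventually_atTop.mp hev
  refine ⟨A0, fun A hAA => ?_⟩
  obtain ⟨⟨hA, h16, h4⟩, h14, h28⟩ := hA0 A hAA
  clear hA0 hAA hev
  intro i hi hiA T c Y m hT hTl hc hY hm
  have hApos : 0 < A := by linarith
  have hQdef : QA A κ = ⌊Real.exp (A ^ (1 - 4 * κ))⌋₊ := rfl
  rw [hQdef] at hc ⊢
  have hQe : A ^ (24 / 25 : ℝ) ≤ A ^ (1 - 4 * κ) :=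
    Real.rpow_le_rpow_of_exponent_le hA (by linarith)
  have hu1 : 1 ≤ A ^ (24 / 25 : ℝ) := Real.one_le_rpow hA (by norm_num)
  have hexp2 : 2 ≤ Real.exp (A ^ (1 - 4 * κ)) := by
    have := Real.add_one_le_exp (A ^ (1 - 4 * κ))
    linarith
  have hQle : (⌊Real.exp (A ^ (1 - 4 * κ))⌋₊ : ℝ) ≤ Real.exp (A ^ (1 - 4 * κ)) :=
    Nat.floor_le (Real.exp_pos _).le
  have hQge : Real.exp (A ^ (24 / 25 : ℝ)) / 2 ≤ (⌊Real.exp (A ^ (1 - 4 * κ))⌋₊ : ℝ) := by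
    have h1 := Nat.lt_floor_add_one (Real.exp (A ^ (1 - 4 * κ)))
    have h2 := Real.exp_le_exp.mpr hQe
    linarith
  have hQ1' : (1 : ℝ) ≤ (⌊Real.exp (A ^ (1 - 4 * κ))⌋₊ : ℝ) := by
    have h1 := Nat.lt_floor_add_one (Real.exp (A ^ (1 - 4 * κ)))
    have h2 : (1 : ℝ) < (⌊Real.exp (A ^ (1 - 4 * κ))⌋₊ : ℝ) + 1 := by linarith
    have h3 : 0 < ⌊Real.exp (A ^ (1 - 4 * κ))⌋₊ := by
      by_contra h
      have h4 : ⌊Real.exp (A ^ (1 - 4 * κ))⌋₊ = 0 := by omega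
      rw [h4, Nat.cast_zero] at h2
      linarith
    exact_mod_cast h3
  generalize ⌊Real.exp (A ^ (1 - 4 * κ))⌋₊ = Q at *
  have hQ1 : 1 ≤ Q := by exact_mod_cast hQ1'
  have hQl : Real.log Q ≤ A ^ (1 - 4 * κ) := by
    rw [Real.log_le_iff_le_exp (by linarith)]
    exact hQle
  obtain ⟨g1, g2⟩ := QN5_log A κ hA hκ hκ1 i T Q hi hiA hT hQ1 hTl hQl
  have hi1 : (i : ℝ) ≤ A ^ (1 / 100 : ℝ) :=
    hiA.trans (Real.rpow_le_rpow_of_exponent_le hA hκ1)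
  have hb : i * Real.log (T * Q + 1) ≤ (5 * A ^ (53 / 100 : ℝ)) * A ^ (1 / 2 : ℝ) := by
    calc i * Real.log (T * Q + 1) ≤ A ^ (1 / 100 : ℝ) * (5 * A ^ (51 / 50 : ℝ)) := by
          gcongr
          apply Real.log_nonneg
          have : (0 : ℝ) ≤ (T : ℝ) * Q := by positivity
          linarith
      _ = 5 * (A ^ (1 / 100 : ℝ) * A ^ (51 / 50 : ℝ)) := by ring
      _ = 5 * (A ^ (53 / 100 : ℝ) * A ^ (1 / 2 : ℝ)) := by
          rw [← Real.rpow_add hApos, ← Real.rpow_add hApos]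
          norm_num
      _ = _ := by ring
  obtain ⟨j, hj1, hj2, hj3⟩ := QN5_j i T Q Y (5 * A ^ (53 / 100 : ℝ)) (by positivity) hT hQ1
    (A ^ (1 / 2 : ℝ)) (by positivity) hY hb
  have hq1 : 1 ≤ A ^ (53 / 100 : ℝ) := Real.one_le_rpow hA (by norm_num)
  have hj4 : (j : ℝ) ≤ 7 * A ^ (53 / 100 : ℝ) := by linarith
  have hj5 : (j : ℝ) ≤ 7 * A := by
    refine hj4.trans ?_
    have : A ^ (53 / 100 : ℝ) ≤ A := by
      calc A ^ (53 / 100 : ℝ) ≤ A ^ (1 : ℝ) := Real.rpow_le_rpow_of_exponent_le hA (by norm_num)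
        _ = A := Real.rpow_one A
    linarith
  have hlT : 0 ≤ Real.log T := Real.log_natCast_nonneg T
  have hB0 : 0 ≤ 2 * 4 ^ i * (1 + Real.log T) ^ i := by positivity
  have hB : 2 * (2 * 4 ^ i * (1 + Real.log T) ^ i) ≤ Real.exp (1 / 4 * A ^ (24 / 25 : ℝ)) := by
    have e1 : A ^ (51 / 50 : ℝ) ≤ A ^ 2 := by
      rw [← Real.rpow_natCast A 2]
      exact Real.rpow_le_rpow_of_exponent_le hA (by norm_num)
    have e2 : 4 * (1 + Real.log T) ≤ Real.exp (A ^ (1 / 100 : ℝ)) := by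
      rw [zero_mul, Real.exp_zero, mul_one, one_mul] at h16
      linarith
    have e3 : 4 ^ i * (1 + Real.log T) ^ i ≤ Real.exp (A ^ (1 / 50 : ℝ)) := by
      calc 4 ^ i * (1 + Real.log T) ^ i = (4 * (1 + Real.log T)) ^ i := by rw [mul_pow]
        _ ≤ (Real.exp (A ^ (1 / 100 : ℝ))) ^ i := by gcongr
        _ = Real.exp (i * A ^ (1 / 100 : ℝ)) := by rw [← Real.exp_nat_mul]
        _ ≤ Real.exp (A ^ (1 / 100 : ℝ) * A ^ (1 / 100 : ℝ)) := by gcongr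
        _ = Real.exp (A ^ (1 / 50 : ℝ)) := by
            rw [← Real.rpow_add hApos]
            norm_num
    calc 2 * (2 * 4 ^ i * (1 + Real.log T) ^ i) = 4 * (4 ^ i * (1 + Real.log T) ^ i) := by ring
      _ ≤ 4 * Real.exp (A ^ (1 / 50 : ℝ)) := by gcongr
      _ = 4 * A ^ 0 * Real.exp (1 * A ^ (1 / 50 : ℝ)) := by rw [pow_zero, mul_one, one_mul]
      _ ≤ _ := h4
  have hE := QN5_E A j hA _ c Q hB0 hB hQge hc hj1 hj4
  have hF := QN5_fac A κ hA hκ hκ1 e0 i m hiA hm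
  have hc0 : 0 ≤ c := (Real.sqrt_nonneg _).trans hc
  refine ⟨j, hj1, hj3, ?_⟩
  have hE0 : 0 ≤ (2 * 4 ^ i * (1 + Real.log T) ^ i / c) ^ ((1 : ℝ) / j) := by positivity
  generalize (2 * 4 ^ i * (1 + Real.log T) ^ i / c) ^ ((1 : ℝ) / j) = E at *
  have hY0 : (0 : ℝ) < Y := (Real.exp_pos _).trans_le hY
  set w := A ^ (1 / 3 : ℝ) with hw
  set D := Real.exp ((1 + 4 * e0) * A ^ (1 / 50 : ℝ)) with hD
  have hDw : D * Real.exp w ≤ Real.exp ((2 + 4 * e0) * w) := by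
    rw [hD, ← Real.exp_add]
    apply Real.exp_le_exp.mpr
    have : A ^ (1 / 50 : ℝ) ≤ w := Real.rpow_le_rpow_of_exponent_le hA (by norm_num)
    nlinarith
  have hD0 : 0 < D := Real.exp_pos _
  rw [pow_one, one_mul] at h14
  rw [pow_one] at h28
  have e1 : 2 ^ i * ((2 * (e0 : ℝ) * i + 1) ^ i * 2 ^ (2 * e0 * i * m) * (j + 2 * j * Y * E)) ≤
      D * (7 * A) * (1 + 2 * (Y * E)) := by
    calc 2 ^ i * ((2 * (e0 : ℝ) * i + 1) ^ i * 2 ^ (2 * e0 * i * m) * (j + 2 * j * Y * E)) =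
          (2 ^ i * ((2 * (e0 : ℝ) * i + 1) ^ i * 2 ^ (2 * e0 * i * m))) * j *
            (1 + 2 * (Y * E)) := by ring
      _ ≤ D * (7 * A) * (1 + 2 * (Y * E)) := by gcongr
  refine e1.trans ?_
  have e2 : D * (7 * A) * 1 ≤ Y * Real.exp (-w) / 2 := by
    have f1 : 14 * A * D ≤ Real.exp (A ^ (1 / 2 : ℝ)) * Real.exp (-w) := by
      rw [Real.exp_neg, ← div_eq_mul_inv, le_div_iff₀ (Real.exp_pos _)]
      calc 14 * A * D * Real.exp w = 14 * A * (D * Real.exp w) := by ring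
        _ ≤ 14 * A * Real.exp ((2 + 4 * e0) * w) := by gcongr
        _ ≤ _ := h14
    have f2 : Real.exp (A ^ (1 / 2 : ℝ)) * Real.exp (-w) ≤ Y * Real.exp (-w) := by gcongr
    linarith
  have e3 : D * (7 * A) * (2 * (Y * E)) ≤ Y * Real.exp (-w) / 2 := by
    have f1 : 28 * A * D * Real.exp (-(1 / 28 * A ^ (43 / 100 : ℝ))) ≤ Real.exp (-w) := by
      rw [Real.exp_neg (1 / 28 * A ^ (43 / 100 : ℝ)), ← div_eq_mul_inv,
        div_le_iff₀ (Real.exp_pos _), Real.exp_neg, inv_mul_eq_div, le_div_iff₀ (Real.exp_pos _)]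
      calc 28 * A * D * Real.exp w = 28 * A * (D * Real.exp w) := by ring
        _ ≤ 28 * A * Real.exp ((2 + 4 * e0) * w) := by gcongr
        _ ≤ _ := h28
    calc D * (7 * A) * (2 * (Y * E)) ≤
          D * (7 * A) * (2 * (Y * Real.exp (-(1 / 28 * A ^ (43 / 100 : ℝ))))) := by gcongr
      _ = Y * (28 * A * D * Real.exp (-(1 / 28 * A ^ (43 / 100 : ℝ)))) / 2 := by ring
      _ ≤ Y * Real.exp (-w) / 2 := by gcongr
  calc D * (7 * A) * (1 + 2 * (Y * E)) = D * (7 * A) * 1 + D * (7 * A) * (2 * (Y * E)) := by ring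
    _ ≤ Y * Real.exp (-w) := by linarith

end Pool.Agent.Lib.MP_79499b_co.QZ
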