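import Pool.Agent.Lib.MP_79499b_co.DZ.NRar
import Pool.Agent.Lib.MP_79499b_co.QZ.QN2
import Pool.Agent.Lib.MP_79499b_co.QZ.QN4
import Pool.Agent.Lib.MP_79499b_co.QZ.QN5

/-!
# QN6: bad primes are rare

Copy the proof of `rare_prime` (NRar.lean) with `X1 x` replaced by `exp A`: `i = c1 c2 ≤ A^κ`, `g = exp(A/i)/2`,
`(2g)^i = exp A < w_i` (`gap_KF`), `Q = QA A κ`, `Q^(2 e0 i) ≤ g` (`numA_q`), `𝒬 = SpS Q w1 w2 r1 r2`, `|𝒬| ≥ √Q` (`split_A`),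
`Q < exp A < w_i`, `T = (i r1 r2)^i`, `log T ≤ i (log i + 2 A^(1+κ))`, `j` from `numA_rare`, `bad_all`.
-/

set_option autoImplicit false

open NumberField
open scoped Pointwise

namespace Pool.Agent.Lib.MP_79499b_co.QZ

open Finset DZ

private theorem qn6_comm (F : Type) [Field F] [NumberField F] [IsGalois ℚ F]
    (hcomm : ∀ σ τ : F ≃ₐ[ℚ] F, σ * τ = τ * σ) (D : Subgroup (F ≃ₐ[ℚ] F))
    (σ τ : (IntermediateField.fixedField D) ≃ₐ[ℚ] (IntermediateField.fixedField D)) :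
    σ * τ = τ * σ := by
  obtain ⟨s, hs, -⟩ := lf_lift F hcomm D σ
  obtain ⟨t, ht, -⟩ := lf_lift F hcomm D τ
  refine AlgEquiv.ext fun x => Subtype.ext ?_
  rw [AlgEquiv.mul_apply, AlgEquiv.mul_apply, ← hs, ← ht, ← ht, ← hs]
  have h := AlgEquiv.congr_fun (hcomm s t) (x : F)
  rw [AlgEquiv.mul_apply, AlgEquiv.mul_apply] at h
  exact h

private theorem qn6_log (i r : ℕ) (hi : 1 ≤ i) (hr : 1 ≤ r) :
    Real.log (((i * r) ^ i : ℕ) : ℝ) = i * (Real.log i + Real.log r) := by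
  have hi' : (i : ℝ) ≠ 0 := by
    have : (0 : ℝ) < i := by exact_mod_cast hi
    exact this.ne'
  have hr' : (r : ℝ) ≠ 0 := by
    have : (0 : ℝ) < r := by exact_mod_cast hr
    exact this.ne'
  rw [Nat.cast_pow, Nat.cast_mul, Real.log_pow, Real.log_mul hi' hr']

theorem rareA (e0 : ℕ) (he0 : 1 ≤ e0) (κ : ℝ) (hκ : 0 < κ) (hκ1 : κ ≤ 1 / 100) :
    ∃ A0 : ℝ, ∀ A : ℝ, A0 ≤ A → ∀ c1 c2 w1 w2 r1 r2 : ℕ, CPair A κ c1 c2 w1 w2 r1 r2 →
      ¬ ExcP A κ w1 w2 → ∀ a : ℕ, a ≠ 0 → (a.primeFactorsList.length : ℝ) ≤ A ^ κ →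
      ∀ Y : ℕ, Real.exp (A ^ (1 / 2 : ℝ)) ≤ Y → ∀ R : Finset ℕ,
      (∀ p ∈ R, p.Prime ∧ p ≤ 2 * Y ∧ ¬ p ∣ a ∧ ¬ p ∣ w1 * w2 ∧
        BadP (KF (FW w1 w2) (r1 * r2)) e0 a p) →
      (R.card : ℝ) ≤ Y * Real.exp (-(A ^ (1 / 3 : ℝ))) := by
  classical
  obtain ⟨xq, hxq⟩ := numA_q e0 he0 κ hκ hκ1
  obtain ⟨xr, hxr⟩ := numA_rare e0 he0 κ hκ hκ1
  obtain ⟨xs, hxs⟩ := split_A κ hκ hκ1
  refine ⟨max xq (max xr xs), ?_⟩
  intro A hA c1 c2 w1 w2 r1 r2 hG hEx a ha hOm Y hY R hR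
  have hScard := hxs A ((le_max_right _ _).trans ((le_max_right _ _).trans hA)) c1 c2 w1 w2 r1 r2
    hG hEx
  obtain ⟨hw1, hw2, hne, e1, e2, hcr1, hcr2, hrr, hsmall⟩ := hG
  have p1 := hw1.1
  have p2 := hw2.1
  have hc1 : 1 ≤ c1 := by
    rcases Nat.eq_zero_or_pos c1 with h | h
    · rw [h, zero_mul, zero_add] at e1
      exact absurd e1 p1.one_lt.ne'
    · exact h
  have hc2 : 1 ≤ c2 := by
    rcases Nat.eq_zero_or_pos c2 with h | h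
    · rw [h, zero_mul, zero_add] at e2
      exact absurd e2 p2.one_lt.ne'
    · exact h
  have hi1 : 1 ≤ c1 * c2 := Nat.mul_pos hc1 hc2
  obtain ⟨hQ1, hQ2, hQ3, -, -⟩ := hxq A ((le_max_left _ _).trans hA) (c1 * c2) hi1 hsmall
  have hrare := hxr A ((le_max_left _ _).trans ((le_max_right _ _).trans hA)) (c1 * c2) hi1 hsmall
  have hr1 : 1 ≤ r1 := by
    rcases Nat.eq_zero_or_pos r1 with h | h
    · rw [h, mul_zero, zero_add] at e1
      exact absurd e1 p1.one_lt.ne'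
    · exact h
  have hr2 : 1 ≤ r2 := by
    rcases Nat.eq_zero_or_pos r2 with h | h
    · rw [h, mul_zero, zero_add] at e2
      exact absurd e2 p2.one_lt.ne'
    · exact h
  have : NeZero (w1 * w2) := ⟨(Nat.mul_pos p1.pos p2.pos).ne'⟩
  have hgalF : IsGalois ℚ (CyclotomicField (w1 * w2) ℚ) := cyc_galois (w1 * w2)
  have hcommF := cyc_comm (w1 * w2)
  have hgalK : IsGalois ℚ (KF (CyclotomicField (w1 * w2) ℚ) (r1 * r2)) :=
    lf_galois _ hcommF _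
  obtain ⟨cc, hcc⟩ := cyc_conj (w1 * w2)
  obtain ⟨ccL, hccL⟩ := lf_conj _ hcommF (Mgp (CyclotomicField (w1 * w2) ℚ) (r1 * r2)) cc hcc
  have hnib := nib_sub _ hcommF (Mgp (CyclotomicField (w1 * w2) ℚ) (r1 * r2)) 1
    (nib_cyc w1 w2 p1 p2 hne)
  rw [cyc_card w1 w2 c1 c2 r1 r2 p1 p2 hne e1 e2 hcr1 hcr2 hrr, mul_one] at hnib
  have hfin := KF_finrank w1 w2 c1 c2 r1 r2 p1 p2 hne e1 e2 hcr1 hcr2 hrr
  set g : ℝ := Real.exp (A / ((c1 * c2 : ℕ) : ℝ)) / 2 with hg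
  have hg0 : 0 ≤ g := by positivity
  have hicast : (0 : ℝ) < ((c1 * c2 : ℕ) : ℝ) := by exact_mod_cast hi1
  have h2g : (2 * g) ^ (c1 * c2) = Real.exp A := by
    have h1 : 2 * g = Real.exp (A / ((c1 * c2 : ℕ) : ℝ)) := by rw [hg]; ring
    rw [h1, ← Real.exp_nat_mul, mul_div_cancel₀ _ hicast.ne']
  have hgap := gap_KF w1 w2 c1 c2 r1 r2 p1 p2 hne e1 e2 hcr1 hcr2 hrr g hg0
    (by rw [h2g]; exact hw1.2.1) (by rw [h2g]; exact hw2.2.1)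
  set Q := QA A κ with hQdef
  set S := SpS Q w1 w2 r1 r2 with hS
  have hS0 : S.Nonempty := by
    rw [← Finset.card_pos]
    have h1 : (1 : ℝ) ≤ √(Q : ℝ) := Real.one_le_sqrt.mpr (by exact_mod_cast hQ3)
    have h2 : (1 : ℝ) ≤ (S.card : ℝ) := h1.trans hScard
    exact_mod_cast h2
  have hSq : ∀ q ∈ S, q.Prime ∧ q ≤ Q ∧ Q < 2 * q ∧
      SplitIn (KF (CyclotomicField (w1 * w2) ℚ) (r1 * r2)) q := by
    intro q hq
    rw [hS] at hq
    unfold SpS at hq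
    rw [Finset.mem_filter, Finset.mem_Icc] at hq
    obtain ⟨⟨-, hqQ⟩, hqp, hq2, hqa, hqb⟩ := hq
    refine ⟨hqp, hqQ, hq2, split_KF w1 w2 r1 r2 q p1 p2 hne hqp ?_ hqa hqb⟩
    intro hdvd
    have hlt : (q : ℝ) < Real.exp A := lt_of_le_of_lt (by exact_mod_cast hqQ) hQ2
    rcases (Nat.Prime.dvd_mul hqp).mp hdvd with h | h
    · rw [(Nat.prime_dvd_prime_iff_eq hqp p1).mp h] at hlt
      exact absurd (hlt.trans hw1.2.1) (lt_irrefl _)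
    · rw [(Nat.prime_dvd_prime_iff_eq hqp p2).mp h] at hlt
      exact absurd (hlt.trans hw2.2.1) (lt_irrefl _)
  set T : ℕ := ((c1 * c2) * (r1 * r2)) ^ (c1 * c2) with hT
  have hr12 : 1 ≤ r1 * r2 := Nat.mul_pos hr1 hr2
  have hT1 : 1 ≤ T := Nat.one_le_pow _ _ (Nat.mul_pos hi1 hr12)
  have hlogT : Real.log T ≤ ((c1 * c2 : ℕ) : ℝ) *
      (Real.log ((c1 * c2 : ℕ) : ℝ) + 2 * A ^ (1 + κ)) := by
    rw [hT, qn6_log _ _ hi1 hr12]
    refine mul_le_mul_of_nonneg_left ?_ hicast.le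
    have h1 : Real.log ((r1 * r2 : ℕ) : ℝ) ≤ 2 * A ^ (1 + κ) := by
      have hr1w : (r1 : ℝ) ≤ Real.exp (A ^ (1 + κ)) := by
        refine le_trans ?_ hw1.2.2
        have : r1 ≤ w1 := by rw [e1]; nlinarith
        exact_mod_cast this
      have hr2w : (r2 : ℝ) ≤ Real.exp (A ^ (1 + κ)) := by
        refine le_trans ?_ hw2.2.2
        have : r2 ≤ w2 := by rw [e2]; nlinarith
        exact_mod_cast this
      have hr1p : (0 : ℝ) < r1 := by exact_mod_cast hr1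
      have hr2p : (0 : ℝ) < r2 := by exact_mod_cast hr2
      rw [Nat.cast_mul, Real.log_mul hr1p.ne' hr2p.ne']
      have a1 := Real.log_le_log hr1p hr1w
      have a2 := Real.log_le_log hr2p hr2w
      rw [Real.log_exp] at a1 a2
      linarith
    linarith
  obtain ⟨j, hj, hYj, hfinal⟩ := hrare T (S.card : ℝ) Y a.primeFactorsList.length hT1 hlogT
    hScard hY hOm
  have hbad := bad_all (KF (CyclotomicField (w1 * w2) ℚ) (r1 * r2))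
    (qn6_comm _ hcommF _) ccL hccL ((r1 * r2 : ℕ) : ℝ) (Nat.cast_nonneg _) hnib g hgap e0 Q
    (by rw [hfin]; exact hQ1) S hS0 hSq T hT1
    (by rw [hfin, hT]; push_cast; exact le_rfl) Y j hj (by rw [hfin]; exact hYj) a ha R
    (fun p hp => by
      obtain ⟨b1, b2, b3, b4, b5⟩ := hR p hp
      exact ⟨b1, b2, b3, unram_KF w1 w2 (r1 * r2) p p1 p2 hne b1 b4, b5⟩)
  rw [hfin] at hbad
  exact hbad.trans hfinal

end Pool.Agent.Lib.MP_79499b_co.QZ
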