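import Pool.Agent.Lib.MP_79499b_co.QZ.QS1

/-!
# QS4: the numbers of roots on average over a cell

`rho1_eq`, `rho2_eq`: for a prime `w > s`, `s ≥ 1`: `rho1 s w = gcd(2s, w-1) - gcd(s, w-1)` (stated as a sum), `rho2 s w + 1 = gcd(s, w-1)`.
Proof. The number of `t mod w` with `t^k = 1` is `gcd(k, w-1)` (the unit group is cyclic of order `w - 1`;
`IsCyclic.card_pow_eq_one_eq_gcd`-style). The solutions of `t^(2s) = 1` are those of `t^s = 1` and those of `t^s = -1`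
(disjoint, as `w > 2`; for `w = 2`, `s = 1`: gcd(2,1) = 1 = gcd(1,1), but `t = 1` solves `t + 1 = 0`: therefore `w ≥ 3` is assumed).
`∑_{i<s} t^i = 0` iff `t ≠ 1` and `t^s = 1` (at `t = 1` the sum is `s ≠ 0` mod `w`).

`rho1_le`, `rho2_le`: at most `s` roots.

`rho_low`: with `gcd(k, w-1) = ∑_{e ∣ k, e ∣ w-1} φ(e)` (`Nat.sum_totient` for the gcd) and `mert_cell` (`b = 1`, `Q = e ∣ 2s`, `e ≤ 2s ≤ A`,
`K' = 1`): `∑_{w ∈ CW} gcd(k, w-1)/w = ∑_{e ∣ k} φ(e) (κ log A/φ(e) + O(1/A)) = τ(k) κ log A + O(1)`.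
-/

set_option autoImplicit false

namespace Pool.Agent.Lib.MP_79499b_co.QZ

open Finset DZ

private theorem qs4_card (w : ℕ) (hw : w.Prime) (P : ZMod w → Prop) [DecidablePred P] :
    ((range w).filter (fun t : ℕ => P (t : ZMod w))).card =
      Nat.card {t : ZMod w // P t} := by
  have : Fact w.Prime := ⟨hw⟩
  have : NeZero w := ⟨hw.ne_zero⟩
  rw [Nat.card_eq_fintype_card, Fintype.card_subtype]
  refine Finset.card_bij (fun t _ => (t : ZMod w)) ?_ ?_ ?_
  · intro t ht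
    rw [mem_filter] at ht
    rw [mem_filter]
    exact ⟨mem_univ _, ht.2⟩
  · intro t ht t' ht' h
    rw [mem_filter, mem_range] at ht ht'
    have h1 := congrArg ZMod.val h
    rwa [ZMod.val_natCast_of_lt ht.1, ZMod.val_natCast_of_lt ht'.1] at h1
  · intro t ht
    rw [mem_filter] at ht
    refine ⟨t.val, ?_, ZMod.natCast_zmod_val t⟩
    rw [mem_filter, mem_range]
    refine ⟨ZMod.val_lt t, ?_⟩
    rw [ZMod.natCast_zmod_val]
    exact ht.2

private theorem qs4_count (k w : ℕ) (hk : 1 ≤ k) (hw : w.Prime) :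
    Nat.card {t : ZMod w // t ^ k = 1} = Nat.gcd k (w - 1) := by
  have : Fact w.Prime := ⟨hw⟩
  have h1 : Nat.card (ZMod w)ˣ = w - 1 := by
    rw [Nat.card_eq_fintype_card, ZMod.card_units_eq_totient, Nat.totient_prime hw]
  have h2 := IsCyclic.card_powMonoidHom_ker (ZMod w)ˣ k
  rw [h1, Nat.gcd_comm] at h2
  rw [← h2]
  refine Nat.card_congr ⟨fun t => ⟨Units.mk0 t.1 ?_, ?_⟩, fun u => ⟨(u.1 : ZMod w), ?_⟩, ?_, ?_⟩
  · intro h0
    have h3 := t.2
    rw [h0, zero_pow (by omega)] at h3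
    exact zero_ne_one h3
  · rw [MonoidHom.mem_ker, powMonoidHom_apply]
    ext
    rw [Units.val_pow_eq_pow_val, Units.val_mk0, Units.val_one]
    exact t.2
  · have h3 := u.2
    rw [MonoidHom.mem_ker, powMonoidHom_apply] at h3
    have h4 := congrArg (fun v : (ZMod w)ˣ => (v : ZMod w)) h3
    simpa using h4
  · intro t
    rfl
  · intro u
    apply Subtype.ext
    apply Units.ext
    rfl

private theorem qs4_cnt (k w : ℕ) (hk : 1 ≤ k) (hw : w.Prime) :
    ((range w).filter (fun t : ℕ => ((t : ZMod w)) ^ k = 1)).card = Nat.gcd k (w - 1) := by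
  rw [← qs4_count k w hk hw]
  exact qs4_card w hw (fun t => t ^ k = 1)

private theorem qs4_r1 (s w t : ℕ) : w ∣ t ^ s + 1 ↔ ((t : ZMod w)) ^ s + 1 = 0 := by
  rw [← ZMod.natCast_eq_zero_iff]
  push_cast
  rfl

private theorem qs4_r2 (s w t : ℕ) :
    w ∣ ∑ i ∈ range s, t ^ i ↔ ∑ i ∈ range s, ((t : ZMod w)) ^ i = 0 := by
  rw [← ZMod.natCast_eq_zero_iff]
  push_cast
  rfl

theorem rho1_eq (s w : ℕ) (hs : 1 ≤ s) (hw : w.Prime) (h3 : 3 ≤ w) :
    rho1 s w + Nat.gcd s (w - 1) = Nat.gcd (2 * s) (w - 1) := by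
  have : Fact w.Prime := ⟨hw⟩
  rw [← qs4_cnt s w hs hw, ← qs4_cnt (2 * s) w (by omega) hw]
  unfold rho1
  have hne : (1 : ZMod w) ≠ -1 := by
    intro h
    have h4 : ((2 : ℕ) : ZMod w) = 0 := by
      push_cast
      linear_combination h
    rw [ZMod.natCast_eq_zero_iff] at h4
    have := Nat.le_of_dvd (by norm_num) h4
    omega
  rw [← Finset.card_union_of_disjoint]
  · congr 1
    ext t
    rw [mem_union, mem_filter, mem_filter, mem_filter, ← and_or_left, qs4_r1]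
    refine and_congr_right fun _ => ?_
    have h5 : ((t : ZMod w)) ^ (2 * s) = 1 ↔
        (((t : ZMod w)) ^ s + 1) * (((t : ZMod w)) ^ s - 1) = 0 := by
      rw [show (((t : ZMod w)) ^ s + 1) * (((t : ZMod w)) ^ s - 1) = ((t : ZMod w)) ^ (2 * s) - 1 by ring,
        sub_eq_zero]
    rw [h5, mul_eq_zero, sub_eq_zero]
  · rw [Finset.disjoint_filter]
    intro t _ h6 h7
    rw [qs4_r1, h7] at h6
    exact hne (by linear_combination h6)

theorem rho2_eq (s w : ℕ) (hs : 1 ≤ s) (hw : w.Prime) (h3 : s < w) :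
    rho2 s w + 1 = Nat.gcd s (w - 1) := by
  have : Fact w.Prime := ⟨hw⟩
  rw [← qs4_cnt s w hs hw]
  unfold rho2
  have h1 : (1 : ℕ) ∉ (range w).filter (fun t => w ∣ ∑ i ∈ range s, t ^ i) := by
    rw [mem_filter]
    rintro ⟨-, h⟩
    have h4 : ∑ i ∈ range s, (1 : ℕ) ^ i = s := by simp
    rw [h4] at h
    have := Nat.le_of_dvd (by omega) h
    omega
  rw [← Finset.card_insert_of_notMem h1]
  congr 1
  ext t
  rw [mem_insert, mem_filter, mem_filter, mem_range, qs4_r2]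
  have h5 : ((t : ZMod w)) ^ s = 1 ↔
      (∑ i ∈ range s, ((t : ZMod w)) ^ i) * (((t : ZMod w)) - 1) = 0 := by
    rw [geom_sum_mul, sub_eq_zero]
  constructor
  · rintro (h | h)
    · refine ⟨by rw [h]; exact hw.one_lt, ?_⟩
      rw [h]
      simp
    · refine ⟨h.1, ?_⟩
      rw [h5, h.2, zero_mul]
  · rintro ⟨h, h'⟩
    rw [h5, mul_eq_zero] at h'
    rcases h' with h' | h'
    · exact Or.inr ⟨h, h'⟩
    · left
      have h6 : ((t : ℕ) : ZMod w) = ((1 : ℕ) : ZMod w) := by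
        rw [Nat.cast_one]
        exact sub_eq_zero.1 h'
      have h7 := congrArg ZMod.val h6
      rwa [ZMod.val_natCast_of_lt h, ZMod.val_natCast_of_lt hw.one_lt] at h7

theorem rho1_le (s w : ℕ) (hs : 1 ≤ s) (hw : w.Prime) : rho1 s w ≤ s := by
  by_cases h3 : 3 ≤ w
  · have h1 := rho1_eq s w hs hw h3
    have h2 : Nat.gcd (2 * s) (w - 1) ≤ 2 * Nat.gcd s (w - 1) := by
      have h4 := Nat.gcd_mul_right_dvd_mul_gcd (w - 1) 2 s
      have h5 : 0 < Nat.gcd (w - 1) 2 * Nat.gcd (w - 1) s :=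
        Nat.mul_pos (Nat.gcd_pos_of_pos_right _ (by norm_num)) (Nat.gcd_pos_of_pos_right _ hs)
      have h6 := Nat.le_of_dvd h5 h4
      have h7 : Nat.gcd (w - 1) 2 ≤ 2 := Nat.gcd_le_right _ (by norm_num)
      rw [Nat.gcd_comm (w - 1) (2 * s), Nat.gcd_comm (w - 1) s] at h6
      exact h6.trans (Nat.mul_le_mul_right _ h7)
    have h8 : Nat.gcd s (w - 1) ≤ s := Nat.gcd_le_left _ hs
    omega
  · have h2 : w = 2 := by
      have := hw.two_le
      omega
    subst h2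
    have h4 : rho1 s 2 ≤ ({1} : Finset ℕ).card := by
      unfold rho1
      refine card_le_card ?_
      intro t ht
      rw [mem_filter, mem_range] at ht
      rw [mem_singleton]
      have h5 : t ≠ 0 := by
        rintro rfl
        have h6 := ht.2
        rw [zero_pow (by omega)] at h6
        omega
      omega
    rw [card_singleton] at h4
    omega

theorem rho2_le (s w : ℕ) (hs : 1 ≤ s) (hw : w.Prime) : rho2 s w ≤ s := by
  have : Fact w.Prime := ⟨hw⟩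
  have h1 : rho2 s w ≤ ((range w).filter (fun t : ℕ => ((t : ZMod w)) ^ s = 1)).card := by
    unfold rho2
    refine card_le_card ?_
    intro t ht
    rw [mem_filter] at ht ⊢
    refine ⟨ht.1, ?_⟩
    have h2 := (qs4_r2 s w t).1 ht.2
    have h3 := geom_sum_mul ((t : ZMod w)) s
    rw [h2, zero_mul] at h3
    exact (sub_eq_zero.1 h3.symm)
  rw [qs4_cnt s w hs hw] at h1
  exact h1.trans (Nat.gcd_le_left _ hs)

private theorem qs4_mem {A κ : ℝ} {w : ℕ} (hw : w ∈ CW A κ) : 1 ≤ w ∧ Cell A κ w := by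
  classical
  unfold CW at hw
  exact ⟨(mem_Icc.1 (Finset.mem_filter.1 hw).1).1, (Finset.mem_filter.1 hw).2⟩

private theorem qs4_tot (k n : ℕ) (hk : 1 ≤ k) :
    (Nat.gcd k n : ℝ) = ∑ e ∈ k.divisors, if e ∣ n then (e.totient : ℝ) else 0 := by
  rw [← sum_filter]
  have h1 : k.divisors.filter (fun e => e ∣ n) = (Nat.gcd k n).divisors := by
    ext e
    rw [mem_filter, Nat.mem_divisors, Nat.mem_divisors, Nat.dvd_gcd_iff]
    have : Nat.gcd k n ≠ 0 := (Nat.gcd_pos_of_pos_left _ hk).ne'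
    constructor
    · rintro ⟨⟨h2, -⟩, h3⟩
      exact ⟨⟨h2, h3⟩, this⟩
    · rintro ⟨⟨h2, h3⟩, -⟩
      exact ⟨⟨h2, by omega⟩, h3⟩
  rw [h1]
  exact_mod_cast (Nat.sum_totient _).symm

private theorem qs4_G (κ : ℝ) (hκ : 0 < κ) (hκ1 : κ ≤ 1 / 100) (k : ℕ) (hk : 1 ≤ k) :
    ∃ A0 : ℝ, ∀ A : ℝ, A0 ≤ A →
    |∑ w ∈ CW A κ, (Nat.gcd k (w - 1) : ℝ) / w - (k.divisors.card : ℝ) * (κ * Real.log A)| ≤ k := by
  obtain ⟨A1, hA1⟩ := mert_cell κ hκ hκ1 1 0
  refine ⟨max A1 k, fun A hA => ?_⟩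
  have hAk : (k : ℝ) ≤ A := (le_max_right _ _).trans hA
  have h1 : ∑ w ∈ CW A κ, (Nat.gcd k (w - 1) : ℝ) / w =
      ∑ e ∈ k.divisors, (e.totient : ℝ) *
        ∑ w ∈ (CW A κ).filter (fun w => w ≡ 1 [MOD e]), 1 / (w : ℝ) := by
    have h2 : ∀ w ∈ CW A κ, (Nat.gcd k (w - 1) : ℝ) / w =
        ∑ e ∈ k.divisors, (e.totient : ℝ) * (if w ≡ 1 [MOD e] then 1 / (w : ℝ) else 0) := by
      intro w hw
      have hw1 : 1 ≤ w := by
        exact (qs4_mem hw).1
      rw [qs4_tot k (w - 1) hk, sum_div]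
      refine sum_congr rfl fun e _ => ?_
      have h3 : e ∣ w - 1 ↔ w ≡ 1 [MOD e] := by
        rw [← Nat.modEq_iff_dvd' hw1]
        exact ⟨Nat.ModEq.symm, Nat.ModEq.symm⟩
      by_cases h4 : e ∣ w - 1
      · rw [if_pos h4, if_pos (h3.1 h4)]
        ring
      · rw [if_neg h4, if_neg (fun h5 => h4 (h3.2 h5))]
        ring
    rw [sum_congr rfl h2, sum_comm]
    refine sum_congr rfl fun e _ => ?_
    rw [← mul_sum, sum_filter]
  have h2 : (k.divisors.card : ℝ) * (κ * Real.log A) =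
      ∑ e ∈ k.divisors, (e.totient : ℝ) * (κ * Real.log A / e.totient) := by
    have h3 : ∀ e ∈ k.divisors, (e.totient : ℝ) * (κ * Real.log A / e.totient) = κ * Real.log A := by
      intro e he
      have h4 : (0 : ℝ) < e.totient := by
        exact_mod_cast Nat.totient_pos.2 (Nat.pos_of_mem_divisors he)
      field_simp
    rw [sum_congr rfl h3, sum_const, nsmul_eq_mul]
  rw [h1, h2, ← sum_sub_distrib]
  have h5 : (k : ℝ) = ∑ e ∈ k.divisors, (e.totient : ℝ) := by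
    exact_mod_cast (Nat.sum_totient k).symm
  refine (abs_sum_le_sum_abs _ _).trans ?_
  rw [h5]
  refine sum_le_sum fun e he => ?_
  rw [← mul_sub, abs_mul, Nat.abs_cast]
  have he1 : 1 ≤ e := Nat.pos_of_mem_divisors he
  have he2 : (e : ℝ) ≤ A ^ 1 := by
    rw [pow_one]
    have : e ≤ k := Nat.divisor_le he
    exact le_trans (by exact_mod_cast this) hAk
  have h6 := hA1 A ((le_max_left _ _).trans hA) e 1 he1 he2 (Nat.coprime_one_left e)
  rw [pow_zero, inv_one] at h6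
  calc (e.totient : ℝ) * _ ≤ e.totient * 1 := mul_le_mul_of_nonneg_left h6 (Nat.cast_nonneg _)
    _ = e.totient := mul_one _

theorem rho_low (κ : ℝ) (hκ : 0 < κ) (hκ1 : κ ≤ 1 / 100) (s : ℕ) (hs : 1 ≤ s) :
    ∃ C A0 : ℝ, 0 < C ∧ ∀ A : ℝ, A0 ≤ A →
    (((2 * s).divisors.card : ℝ) - s.divisors.card) * (κ * Real.log A) - C ≤
      ∑ w ∈ CW A κ, (rho1 s w : ℝ) / w ∧
    ((s.divisors.card : ℝ) - 1) * (κ * Real.log A) - C ≤ ∑ w ∈ CW A κ, (rho2 s w : ℝ) / w := by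
  obtain ⟨A1, hA1⟩ := qs4_G κ hκ hκ1 1 le_rfl
  obtain ⟨A2, hA2⟩ := qs4_G κ hκ hκ1 s hs
  obtain ⟨A3, hA3⟩ := qs4_G κ hκ hκ1 (2 * s) (by omega)
  refine ⟨3 * s + 1, max (max A1 A2) (max A3 (s + 3)), by positivity, fun A hA => ?_⟩
  have hA1' := hA1 A (((le_max_left _ _).trans (le_max_left _ _)).trans hA)
  have hA2' := hA2 A (((le_max_right _ _).trans (le_max_left _ _)).trans hA)
  have hA3' := hA3 A (((le_max_left _ _).trans (le_max_right _ _)).trans hA)
  have hAs : (s : ℝ) + 3 ≤ A := ((le_max_right _ _).trans (le_max_right _ _)).trans hA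
  have hs0 : (1 : ℝ) ≤ s := by exact_mod_cast hs
  have hcell : ∀ w ∈ CW A κ, w.Prime ∧ s + 3 ≤ w := by
    intro w hw
    have hw' := (qs4_mem hw).2
    refine ⟨hw'.1, ?_⟩
    have h1 : Real.exp A < w := hw'.2.1
    have h2 := Real.add_one_le_exp A
    have h3 : ((s + 3 : ℕ) : ℝ) ≤ w := by
      push_cast
      linarith
    exact_mod_cast h3
  rw [abs_le] at hA1' hA2' hA3'
  have e1 : ∑ w ∈ CW A κ, (rho1 s w : ℝ) / w =
      ∑ w ∈ CW A κ, (Nat.gcd (2 * s) (w - 1) : ℝ) / w - ∑ w ∈ CW A κ, (Nat.gcd s (w - 1) : ℝ) / w := by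
    rw [← sum_sub_distrib]
    refine sum_congr rfl fun w hw => ?_
    obtain ⟨hp, h3⟩ := hcell w hw
    rw [← sub_div]
    congr 1
    rw [eq_sub_iff_add_eq]
    exact_mod_cast rho1_eq s w hs hp (by omega)
  have e2 : ∑ w ∈ CW A κ, (rho2 s w : ℝ) / w =
      ∑ w ∈ CW A κ, (Nat.gcd s (w - 1) : ℝ) / w - ∑ w ∈ CW A κ, (Nat.gcd 1 (w - 1) : ℝ) / w := by
    rw [← sum_sub_distrib]
    refine sum_congr rfl fun w hw => ?_
    obtain ⟨hp, h3⟩ := hcell w hw
    rw [← sub_div]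
    congr 1
    rw [eq_sub_iff_add_eq, Nat.gcd_one_left]
    exact_mod_cast rho2_eq s w hs hp (by omega)
  have e3 : (Nat.divisors 1).card = 1 := by
    rw [Nat.divisors_one, card_singleton]
  rw [e3] at hA1'
  push_cast at hA1' hA3'
  rw [e1, e2]
  constructor
  · linarith [hA2'.2, hA3'.1]
  · linarith [hA1'.2, hA2'.1]

end Pool.Agent.Lib.MP_79499b_co.QZ
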