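import Pool.Agent.Lib.MP_79499b_co.QZ.QS4
import Pool.Agent.Lib.MP_79499b_co.QZ.QS6

/-!
# QS7: the sieve dimension of one cell

`cell_low`: for every `η > 0`, `x` large, `c < K`, `m` normal: `∑_{w ∈ US c m} rho1 s w/w ≥ (τ(2s) - τ(s)) κ log (AC c) - η LL x`, and for
`v ∈ US c m`: `∑ rho2 s w/w ≥ (τ(s) - 1) κ log (AC c) - η LL x` over the `w ∈ US c m`, `w ≠ v`, with `ry x v`, `ry x w` coprime.
Proof: `rho_low` minus `s` times `us_compl` (with `η/(2s)`) and `comp_le`; `rho1, rho2 ≤ s`.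

`cell_up`: `∑_{w ∈ CW (AC c)} 1/w ≤ LL x` for large `x` (`cell_le`, `log (AC c) ≤ LL x`).
-/

set_option autoImplicit false

namespace Pool.Agent.Lib.MP_79499b_co.QZ

open Finset DZ
open scoped Classical

private lemma QS7_union {f : ℕ → ℝ} (hf : ∀ w, 0 ≤ f w) (A B : Finset ℕ) :
    ∑ w ∈ A ∪ B, f w ≤ ∑ w ∈ A, f w + ∑ w ∈ B, f w := by
  rw [← Finset.sum_union_inter]
  have := sum_nonneg (s := A ∩ B) (fun w _ => hf w)
  linarith

private lemma QS7_s (S : Finset ℕ) (s : ℕ) (r : ℕ → ℕ) (hr : ∀ w ∈ S, r w ≤ s) :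
    ∑ w ∈ S, (r w : ℝ) / w ≤ s * ∑ w ∈ S, 1 / (w : ℝ) := by
  rw [mul_sum]
  apply sum_le_sum
  intro w hw
  rw [mul_one_div]
  have : (r w : ℝ) ≤ s := by exact_mod_cast hr w hw
  gcongr

private lemma QS7_prime (A κ : ℝ) (w : ℕ) (h : w ∈ CW A κ) : w.Prime := by
  unfold CW at h
  rw [mem_filter] at h
  exact h.2.1

theorem cell_up (κ : ℝ) (hκ : 0 < κ) (hκ1 : κ ≤ 1 / 100) (K : ℕ) :
    ∃ x0 : ℕ, ∀ x : ℕ, x0 ≤ x → ∀ c < K, ∑ w ∈ CW (AC κ K x c) κ, 1 / (w : ℝ) ≤ LL x := by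
  obtain ⟨A0, hA0⟩ := cell_le κ hκ hκ1
  obtain ⟨x1, hx1⟩ := Filter.eventually_atTop.mp ((AC_tend κ hκ K 0).eventually_ge_atTop A0)
  refine ⟨max 3 x1, fun x hx c hc => ?_⟩
  have h3 : 3 ≤ x := (le_max_left _ _).trans hx
  have h1 := hx1 x ((le_max_right _ _).trans hx)
  obtain ⟨m1, m2⟩ := AC_mono κ hκ K x h3 0 c (Nat.zero_le c)
  refine (hA0 (AC κ K x c) (h1.trans m2)).trans ?_
  have m3 : 0 < AC κ K x c := by linarith
  exact Real.log_le_log m3 (AC_top κ hκ K x c h3).2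

theorem cell_low (κ : ℝ) (hκ : 0 < κ) (hκ1 : κ ≤ 1 / 100) (K D s : ℕ) (hs : 1 ≤ s) (η : ℝ)
    (hη : 0 < η) : ∃ x0 : ℕ, ∀ x : ℕ, x0 ≤ x → ∀ c < K, ∀ m : ℕ, Nrm κ K D x m →
      (((2 * s).divisors.card : ℝ) - s.divisors.card) * (κ * Real.log (AC κ K x c)) - η * LL x ≤
        ∑ w ∈ US κ K D x c m, (rho1 s w : ℝ) / w ∧
      ∀ v ∈ US κ K D x c m,
      ((s.divisors.card : ℝ) - 1) * (κ * Real.log (AC κ K x c)) - η * LL x ≤
        ∑ w ∈ (US κ K D x c m).filter (fun w => w ≠ v ∧ (ry x v).Coprime (ry x w)),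
          (rho2 s w : ℝ) / w := by
  have hs' : (1 : ℝ) ≤ s := by exact_mod_cast hs
  obtain ⟨C, A0, hC, hA0⟩ := rho_low κ hκ hκ1 s hs
  obtain ⟨x1, hx1⟩ := us_compl κ hκ hκ1 K D (η / (2 * s)) (by positivity)
  obtain ⟨x2, hx2⟩ := comp_le κ hκ hκ1 K D
  obtain ⟨x3, hx3⟩ := Filter.eventually_atTop.mp ((AC_tend κ hκ K 0).eventually_ge_atTop A0)
  obtain ⟨x4, hx4⟩ := Filter.eventually_atTop.mp
    (LL_tend.eventually_ge_atTop ((C + s) / (η / 2)))
  refine ⟨max 3 (max (max x1 x2) (max x3 x4)), fun x hx c hc m hm => ?_⟩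
  have h3 : 3 ≤ x := (le_max_left _ _).trans hx
  have hx' := (le_max_right _ _).trans hx
  have hxa := (le_max_left _ _).trans hx'
  have hxb := (le_max_right _ _).trans hx'
  have g1 := hx1 x ((le_max_left _ _).trans hxa) c hc m hm
  have g2 := hx2 x ((le_max_right _ _).trans hxa) c hc
  have g3 := hx3 x ((le_max_left _ _).trans hxb)
  have g4 := hx4 x ((le_max_right _ _).trans hxb)
  rw [div_le_iff₀ (by positivity)] at g4
  obtain ⟨m1, m2⟩ := AC_mono κ hκ K x h3 0 c (Nat.zero_le c)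
  obtain ⟨r1, r2⟩ := hA0 (AC κ K x c) (g3.trans m2)
  set A := AC κ K x c with hA
  have hsub : GW κ K D x c ⊆ CW A κ := by
    unfold GW
    exact filter_subset _ _
  have hsub2 : US κ K D x c m ⊆ GW κ K D x c := by
    unfold US
    exact filter_subset _ _
  have g1' : (s : ℝ) * ∑ w ∈ CW A κ \ US κ K D x c m, 1 / (w : ℝ) ≤ η / 2 * LL x := by
    calc (s : ℝ) * ∑ w ∈ CW A κ \ US κ K D x c m, 1 / (w : ℝ) ≤ s * (η / (2 * s) * LL x) := by
          gcongr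
      _ = η / 2 * LL x := by
          field_simp
  constructor
  · have e1 : ∑ w ∈ CW A κ, (rho1 s w : ℝ) / w ≤ ∑ w ∈ US κ K D x c m, (rho1 s w : ℝ) / w +
        ∑ w ∈ CW A κ \ US κ K D x c m, (rho1 s w : ℝ) / w := by
      rw [← sum_sdiff (hsub2.trans hsub), add_comm]
    have e2 : ∑ w ∈ CW A κ \ US κ K D x c m, (rho1 s w : ℝ) / w ≤
        s * ∑ w ∈ CW A κ \ US κ K D x c m, 1 / (w : ℝ) :=
      QS7_s _ s _ fun w hw => rho1_le s w hs (QS7_prime A κ w (mem_sdiff.1 hw).1)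
    linarith
  · intro v hv
    have e0 : CW A κ ⊆
        ((US κ K D x c m).filter (fun w => w ≠ v ∧ (ry x v).Coprime (ry x w)) ∪
          (CW A κ \ US κ K D x c m)) ∪
        (CW A κ).filter (fun w => w = v ∨ ¬ (ry x v).Coprime (ry x w)) := by
      intro w hw
      rw [mem_union, mem_union, mem_filter, mem_sdiff, mem_filter]
      by_cases k1 : w ∈ US κ K D x c m
      · by_cases k2 : w = v ∨ ¬ (ry x v).Coprime (ry x w)
        · exact Or.inr ⟨hw, k2⟩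
        · push Not at k2
          exact Or.inl (Or.inl ⟨k1, k2⟩)
      · exact Or.inl (Or.inr ⟨hw, k1⟩)
    have hf : ∀ w : ℕ, 0 ≤ (rho2 s w : ℝ) / w := fun w => by positivity
    have e1 := sum_le_sum_of_subset_of_nonneg (f := fun w : ℕ => (rho2 s w : ℝ) / w) e0
      (fun w _ _ => hf w)
    have e2 := QS7_union hf
      ((US κ K D x c m).filter (fun w => w ≠ v ∧ (ry x v).Coprime (ry x w)) ∪
          (CW A κ \ US κ K D x c m))
      ((CW A κ).filter (fun w => w = v ∨ ¬ (ry x v).Coprime (ry x w)))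
    have e3 := QS7_union hf
      ((US κ K D x c m).filter (fun w => w ≠ v ∧ (ry x v).Coprime (ry x w)))
      (CW A κ \ US κ K D x c m)
    have e4 : ∑ w ∈ CW A κ \ US κ K D x c m, (rho2 s w : ℝ) / w ≤
        s * ∑ w ∈ CW A κ \ US κ K D x c m, 1 / (w : ℝ) :=
      QS7_s _ s _ fun w hw => rho2_le s w hs (QS7_prime A κ w (mem_sdiff.1 hw).1)
    have e5 : ∑ w ∈ (CW A κ).filter (fun w => w = v ∨ ¬ (ry x v).Coprime (ry x w)),
        (rho2 s w : ℝ) / w ≤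
        s * ∑ w ∈ (CW A κ).filter (fun w => w = v ∨ ¬ (ry x v).Coprime (ry x w)), 1 / (w : ℝ) :=
      QS7_s _ s _ fun w hw => rho2_le s w hs (QS7_prime A κ w (mem_filter.1 hw).1)
    have e6 : (s : ℝ) * ∑ w ∈ (CW A κ).filter (fun w => w = v ∨ ¬ (ry x v).Coprime (ry x w)),
        1 / (w : ℝ) ≤ s * 1 := by
      have := g2 v (hsub2 hv)
      gcongr
    linarith

end Pool.Agent.Lib.MP_79499b_co.QZ
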