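import Pool.Agent.Lib.MP_79499b_co.DZ.A5
import Pool.Agent.Lib.MP_79499b_co.QZ.QDefT
import Pool.Agent.Lib.MP_79499b_co.QZ.QS4

/-!
# QT1: primes `w ≡ hh s mod MM s`

`s ≥ 1`, `c0 = v_2(2s) ≥ 1`, `cb = c0 + 1`, `2s = 2^c0 so`, `so` odd, `MM = 2^(c0+2) so`, `hh = 1 + 2^(c0+1) so`.
`hh_facts`: `hh` is coprime to `MM` (it is odd, and `≡ 1` modulo every prime of `so`), `8 ∣ MM`, `2 s ∣ MM`, `1 ≤ MM`.
`w_shape`: a prime `w ≡ hh mod MM` is `2^cb r + 1` with `r` odd, and `2 s ∣ (w-1)/2`: `w - 1 ≡ 2^cb so mod 2^(cb+1) so`, so `w - 1 = 2^cb so r'` with `r'` odd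
(and `w ≥ 2`).
`rho_w`: for `w > s` (and `w ≥ 3`): `rho1 s w = s`, `rho2 s w = s - 1`: `gcd(2s, w-1) = 2s`, `gcd(s, w-1) = s` (`rho1_eq`, `rho2_eq`).
`nr_top`: `w` as above, `w ∣ n^s + 1` or `w ∣ ∑_{i<s} n^i`, `n = m p`, `m` a nonresidue mod `w`: then `p` is a nonresidue mod `w` (`NR w p`). Proof:
`n^(2s) = 1` in `ZMod w`, so `n^((w-1)/2) = 1` and `n` is a square `≠ 0` (`ZMod.euler_criterion`); if `p` were a square then `m = n/p` would be one
(`p ≠ 0`).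
`semi_w`: two different such primes `w1, w2` with `w_i > 2^cb + 1`, conditions as in `nr_top`: `w1 w2 ∣ p^j + 1` for some `j`: `selfconj_pow` (A5) with
`c_1 = c_2 = 2^cb`, `r_i` odd `> 1`.
-/

set_option autoImplicit false

namespace Pool.Agent.Lib.MP_79499b_co.QZ

open Finset DZ

private theorem qt1_s (s : ℕ) (hs : 1 ≤ s) : s = 2 ^ s.factorization 2 * so s ∧ Odd (so s) ∧
    cb s = s.factorization 2 + 2 ∧ 1 ≤ so s := by
  have h0 : s ≠ 0 := by omega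
  have h1 : 2 ^ s.factorization 2 * so s = s := Nat.ordProj_mul_ordCompl_eq_self s 2
  have h2 : ¬ 2 ∣ so s := Nat.not_dvd_ordCompl Nat.prime_two h0
  have h3 : Odd (so s) := by
    rw [← Nat.not_even_iff_odd]
    intro h
    exact h2 h.two_dvd
  refine ⟨h1.symm, h3, ?_, h3.pos⟩
  unfold cb
  rw [Nat.factorization_mul (by norm_num) h0, Finsupp.add_apply,
    Nat.Prime.factorization_self Nat.prime_two]
  omega

theorem hh_facts (s : ℕ) (hs : 1 ≤ s) :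
    (hh s).Coprime (MM s) ∧ 8 ∣ MM s ∧ 2 * s ∣ MM s ∧ 1 ≤ MM s := by
  obtain ⟨h1, h2, h3, h4⟩ := qt1_s s hs
  have hM : MM s = 2 ^ (cb s + 1) * so s := rfl
  have hh' : hh s = 1 + 2 ^ cb s * so s := rfl
  refine ⟨?_, ?_, ?_, ?_⟩
  · rw [hM]
    refine Nat.Coprime.mul_right ?_ ?_
    · refine Nat.Coprime.pow_right _ ?_
      rw [Nat.coprime_two_right, hh', h3, Nat.odd_iff]
      have e : 1 + 2 ^ (s.factorization 2 + 2) * so s =
          1 + 2 * (2 ^ (s.factorization 2 + 1) * so s) := by ring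
      rw [e]
      omega
    · rw [hh', Nat.coprime_add_mul_right_left]
      exact Nat.coprime_one_left _
  · rw [hM, h3]
    refine Dvd.dvd.mul_right ?_ _
    have e : 2 ^ (s.factorization 2 + 2 + 1) = 8 * 2 ^ s.factorization 2 := by ring
    rw [e]
    exact dvd_mul_right _ _
  · rw [hM, h3]
    refine ⟨4, ?_⟩
    conv_rhs => rw [h1]
    ring
  · rw [hM]
    exact Nat.mul_pos (by positivity) h4

theorem w_shape (s w : ℕ) (hs : 1 ≤ s) (hw : w.Prime) (h : w ≡ hh s [MOD MM s]) :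
    (∃ r : ℕ, Odd r ∧ w = 2 ^ cb s * r + 1) ∧ 2 * s ∣ (w - 1) / 2 ∧ 3 ≤ w := by
  obtain ⟨h1, h2, h3, h4⟩ := qt1_s s hs
  have hM : MM s = 2 * (2 ^ cb s * so s) := by
    have : MM s = 2 ^ (cb s + 1) * so s := rfl
    rw [this]
    ring
  have hh' : hh s = 1 + 2 ^ cb s * so s := rfl
  have hb : 4 ≤ 2 ^ cb s * so s := by
    rw [h3]
    have e : 2 ^ (s.factorization 2 + 2) * so s = 4 * (2 ^ s.factorization 2 * so s) := by ring
    rw [e, ← h1]
    omega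
  have hlt : hh s < MM s := by
    rw [hM, hh']
    omega
  have hmod : w % MM s = hh s := by
    have h5 : w % MM s = hh s % MM s := h
    rw [h5, Nat.mod_eq_of_lt hlt]
  have hdiv := Nat.div_add_mod w (MM s)
  rw [hmod] at hdiv
  obtain ⟨q, hq⟩ : ∃ q, q = w / MM s := ⟨_, rfl⟩
  rw [← hq] at hdiv
  have hw1 : w = 2 ^ cb s * (so s * (1 + 2 * q)) + 1 := by
    rw [← hdiv, hM, hh']
    ring
  refine ⟨⟨so s * (1 + 2 * q), h2.mul (by rw [Nat.odd_iff]; omega), hw1⟩, ?_, ?_⟩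
  · refine ⟨1 + 2 * q, ?_⟩
    have e : w = 2 * (2 * s * (1 + 2 * q)) + 1 := by
      rw [hw1, h3]
      conv_rhs => rw [h1]
      ring
    omega
  · rw [← hdiv, hh']
    omega

theorem rho_w (s w : ℕ) (hs : 1 ≤ s) (hw : w.Prime) (hsw : s < w) (h : w ≡ hh s [MOD MM s]) :
    rho1 s w = s ∧ rho2 s w = s - 1 := by
  obtain ⟨-, h2, h3⟩ := w_shape s w hs hw h
  have h4 : 2 * s ∣ w - 1 := by
    have h5 : (w - 1) / 2 ∣ w - 1 := by
      have hodd : w % 2 = 1 := (hw.eq_two_or_odd).resolve_left (by omega)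
      exact ⟨2, by omega⟩
    exact h2.trans h5
  have h5 : s ∣ w - 1 := (dvd_mul_left s 2).trans h4
  have e1 := rho1_eq s w hs hw h3
  have e2 := rho2_eq s w hs hw hsw
  rw [Nat.gcd_eq_left h4, Nat.gcd_eq_left h5] at e1
  rw [Nat.gcd_eq_left h5] at e2
  omega

theorem nr_top (s w n m p : ℕ) (hs : 1 ≤ s) (hw : w.Prime) (h : w ≡ hh s [MOD MM s])
    (hd : w ∣ n ^ s + 1 ∨ w ∣ ∑ i ∈ range s, n ^ i) (hn : n = m * p)
    (hm : ¬ IsSquare (m : ZMod w)) : NR w p := by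
  have hF : Fact w.Prime := ⟨hw⟩
  obtain ⟨-, h2, h3⟩ := w_shape s w hs hw h
  have hodd : w % 2 = 1 := (hw.eq_two_or_odd).resolve_left (by omega)
  have hhalf : (w - 1) / 2 = w / 2 := by omega
  rw [hhalf] at h2
  have hn1 : (n : ZMod w) ^ (2 * s) = 1 := by
    rcases hd with hd | hd
    · have h4 : ((n : ZMod w)) ^ s + 1 = 0 := by
        rw [← ZMod.natCast_eq_zero_iff] at hd
        push_cast at hd
        exact hd
      rw [mul_comm, pow_mul, eq_neg_of_add_eq_zero_left h4]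
      ring
    · have h4 : ∑ i ∈ range s, ((n : ZMod w)) ^ i = 0 := by
        rw [← ZMod.natCast_eq_zero_iff] at hd
        push_cast at hd
        exact hd
      have h5 := geom_sum_mul ((n : ZMod w)) s
      rw [h4, zero_mul] at h5
      have h6 : (n : ZMod w) ^ s = 1 := sub_eq_zero.1 h5.symm
      rw [mul_comm, pow_mul, h6, one_pow]
  have hn0 : (n : ZMod w) ≠ 0 := by
    intro h0
    rw [h0, zero_pow (by omega)] at hn1
    exact zero_ne_one hn1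
  have hsq : IsSquare (n : ZMod w) := by
    rw [ZMod.euler_criterion w hn0]
    obtain ⟨k, hk⟩ := h2
    rw [hk, pow_mul, hn1, one_pow]
  intro hp
  apply hm
  have hnm : (n : ZMod w) = (m : ZMod w) * (p : ZMod w) := by
    rw [hn]
    push_cast
    ring
  have hp0 : (p : ZMod w) ≠ 0 := by
    intro h0
    rw [h0, mul_zero] at hnm
    exact hn0 hnm
  have e : (m : ZMod w) = (n : ZMod w) / (p : ZMod w) := by
    rw [hnm, mul_div_assoc, div_self hp0, mul_one]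
  rw [e]
  exact hsq.div hp

theorem semi_w (s w1 w2 n m p : ℕ) (hs : 1 ≤ s) (hw1 : w1.Prime) (hw2 : w2.Prime) (hne : w1 ≠ w2)
    (h1 : w1 ≡ hh s [MOD MM s]) (h2 : w2 ≡ hh s [MOD MM s]) (hb1 : 2 ^ cb s + 1 < w1)
    (hb2 : 2 ^ cb s + 1 < w2) (d1 : w1 ∣ n ^ s + 1) (d2 : w2 ∣ ∑ i ∈ range s, n ^ i)
    (hn : n = m * p) (hm1 : ¬ IsSquare (m : ZMod w1)) (hm2 : ¬ IsSquare (m : ZMod w2)) :
    ∃ j : ℕ, w1 * w2 ∣ p ^ j + 1 := by
  have n1 := nr_top s w1 n m p hs hw1 h1 (Or.inl d1) hn hm1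
  have n2 := nr_top s w2 n m p hs hw2 h2 (Or.inr d2) hn hm2
  obtain ⟨⟨r1, o1, e1⟩, -, -⟩ := w_shape s w1 hs hw1 h1
  obtain ⟨⟨r2, o2, e2⟩, -, -⟩ := w_shape s w2 hs hw2 h2
  have k1 : 1 < r1 := by
    by_contra hcon
    have : r1 ≤ 1 := by omega
    have h5 : 2 ^ cb s * r1 ≤ 2 ^ cb s * 1 := Nat.mul_le_mul_left _ this
    omega
  have k2 : 1 < r2 := by
    by_contra hcon
    have : r2 ≤ 1 := by omega
    have h5 : 2 ^ cb s * r2 ≤ 2 ^ cb s * 1 := Nat.mul_le_mul_left _ this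
    omega
  exact selfconj_pow hw1 hw2 hne e1 e2 o1 o2 k1 k2 rfl n1 n2

end Pool.Agent.Lib.MP_79499b_co.QZ
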