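import Pool.Agent.Lib.MP_79499b_co.PCCount
import Pool.Agent.Lib.MP_79499b_co.PCPrimes
import Pool.Agent.Lib.MP_79499b_co.QZ.QS4

/-!
# QT10: primes in a set of residue classes

`cls_primes`: `q ≥ 1`, `S` a set of classes coprime to `q`: for `η > 0` and `x` large the number of primes `p < x` with `p % q ∈ S` is at most
`(|S|/φ(q) + η) x/log x`. Proof: `primes_ap` for each class of `S`.

`prime_count2`: `s ≥ 2`, `t ≥ 1`, `W` a finite set of primes `w > s`, `w ∤ t`, `w ≥ 3`, with `2^(v_2(2s)) ∣ w - 1` and `gcd(s, w-1) > 1`, and `B ≤ ∑_W 1/w ≤ B + 1`, `B ≥ 0`. For `η > 0` and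
`x` large the number of primes `q < x` such that NOT (some `w1 ≠ w2` in `W` have `w1 ∣ (t q)^s + 1`, `w2 ∣ ∑_{i<s} (t q)^i`) is at most
`((1 + 6 s (B + 1)) exp(-B) + η) x/log x`.
Proof. Let `Q = ∏ W`. The primes `q ∈ W` are finitely many (negligible: directly). For a prime `q ∤ Q` either (I) no `w ∈ W` divides `(t q)^s + 1`, or (II) some `v ∈ W`
does and no `w ≠ v` divides `∑ (t q)^i`. The classes `q mod Q` (units) in case (I) are `∏_w (w - 1 - rho1 s w)` in number (Chinese remainder; `t` is a unit, the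
roots are units), i.e. the proportion `∏ (1 - rho1/(w-1)) ≤ exp(-∑ 1/(w-1)) ≤ exp(-B)`: `rho1 s w ≥ 1` since `gcd(2s, w-1) > gcd(s, w-1)` (`v_2(w-1) ≥ v_2(2s) > v_2(s)`). In case (II) for a given `v`:
the proportion is at most `(s/(v-1)) exp(-∑_{w≠v} 1/(w-1)) ≤ (2s/v) exp(-B + 1)`, as `rho2 s w = gcd(s, w-1) - 1 ≥ 1`. Sum over `v`: `2 s (B+1) e exp(-B) ≤ 6 s (B+1) exp(-B)`.
Apply `cls_primes` to the union of the sets of classes.
-/

set_option autoImplicit false

namespace Pool.Agent.Lib.MP_79499b_co.QZ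

open Finset DZ
open scoped Classical
open Filter Topology
open Pool.Agent.Lib.MP_79499b_co.PC (primes_ap)

theorem cls_primes (q : ℕ) (hq : 1 ≤ q) (S : Finset ℕ) (hS : ∀ a ∈ S, a < q ∧ a.Coprime q)
    (η : ℝ) (hη : 0 < η) : ∃ x0 : ℕ, ∀ x : ℕ, x0 ≤ x →
      (((range x).filter (fun p => p.Prime ∧ p % q ∈ S)).card : ℝ) ≤
        ((S.card : ℝ) / q.totient + η) * (x / Real.log x) := by
  have hall : ∀ a ∈ S, ∀ᶠ x : ℕ in atTop,
      (((range x).filter (fun p => p.Prime ∧ p % q = a % q)).card : ℝ) ≤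
        (1 / (q.totient : ℝ) + η / (S.card + 1)) * (x / Real.log x) := by
    intro a ha
    have h := (primes_ap (by omega : 0 < q) (hS a ha).2).eventually (gt_mem_nhds
      (show 1 / (q.totient : ℝ) < 1 / (q.totient : ℝ) + η / (S.card + 1) by
        have : 0 < η / ((S.card : ℝ) + 1) := by positivity
        linarith))
    filter_upwards [h, eventually_ge_atTop 3] with x hx hx3
    have hx0 : (0 : ℝ) < x := by positivity
    have hx3' : (3 : ℝ) ≤ x := by exact_mod_cast hx3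
    have hlog : 0 < Real.log x := Real.log_pos (by linarith)
    rw [div_lt_iff₀ hx0] at hx
    rw [← mul_div_assoc, le_div_iff₀ hlog]
    exact hx.le
  have hall2 := (Filter.eventually_all_finset S).mpr hall
  rw [Filter.eventually_atTop] at hall2
  obtain ⟨x0, hx0⟩ := hall2
  refine ⟨x0, fun x hx => ?_⟩
  have h1 := hx0 x hx
  have hX : 0 ≤ (x : ℝ) / Real.log x := div_nonneg (by positivity) (Real.log_natCast_nonneg x)
  have hsub : (range x).filter (fun p => p.Prime ∧ p % q ∈ S) ⊆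
      S.biUnion (fun a => (range x).filter (fun p => p.Prime ∧ p % q = a % q)) := by
    intro p hp
    rw [Finset.mem_filter] at hp
    rw [Finset.mem_biUnion]
    refine ⟨p % q, hp.2.2, ?_⟩
    rw [Finset.mem_filter]
    exact ⟨hp.1, hp.2.1, (Nat.mod_mod _ _).symm⟩
  have h2 : (((range x).filter (fun p => p.Prime ∧ p % q ∈ S)).card : ℝ) ≤
      ∑ a ∈ S, (((range x).filter (fun p => p.Prime ∧ p % q = a % q)).card : ℝ) := by
    exact_mod_cast (Finset.card_le_card hsub).trans Finset.card_biUnion_le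
  refine h2.trans ((Finset.sum_le_sum h1).trans ?_)
  rw [Finset.sum_const, nsmul_eq_mul, ← mul_assoc]
  refine mul_le_mul_of_nonneg_right ?_ hX
  have h3 : (S.card : ℝ) * (η / (S.card + 1)) ≤ η := by
    rw [← mul_div_assoc, div_le_iff₀ (by positivity)]
    nlinarith
  have e : (S.card : ℝ) * (1 / (q.totient : ℝ) + η / (S.card + 1)) =
      (S.card : ℝ) / q.totient + (S.card : ℝ) * (η / (S.card + 1)) := by ring
  rw [e]
  linarith

private theorem qt10_r1 (s w t : ℕ) : w ∣ t ^ s + 1 ↔ ((t : ZMod w)) ^ s + 1 = 0 := by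
  rw [← ZMod.natCast_eq_zero_iff]
  push_cast
  rfl

private theorem qt10_r2 (s w t : ℕ) :
    w ∣ ∑ i ∈ range s, t ^ i ↔ ∑ i ∈ range s, ((t : ZMod w)) ^ i = 0 := by
  rw [← ZMod.natCast_eq_zero_iff]
  push_cast
  rfl

private theorem qt10_inv {w t r : ℕ} (hw : w.Prime) (hwt : ¬ w ∣ t) (hr : (r : ZMod w) ≠ 0) :
    ∃ b, b < w ∧ b ≠ 0 ∧ ((t * b : ℕ) : ZMod w) = r := by
  have : Fact w.Prime := ⟨hw⟩
  have ht0 : (t : ZMod w) ≠ 0 := by
    rw [Ne, ZMod.natCast_eq_zero_iff]; exact hwt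
  refine ⟨((r : ZMod w) * (t : ZMod w)⁻¹).val, ZMod.val_lt _, ?_, ?_⟩
  · intro h0
    rw [ZMod.val_eq_zero] at h0
    rcases mul_eq_zero.mp h0 with h1 | h1
    · exact hr h1
    · exact ht0 (inv_eq_zero.mp h1)
  · push_cast
    rw [ZMod.natCast_zmod_val]
    field_simp

private theorem qt10_root1 {s t w : ℕ} (hs : 1 ≤ s) (hw : w.Prime) (h3 : 3 ≤ w)
    (hwt : ¬ w ∣ t) (h2 : 2 ^ (2 * s).factorization 2 ∣ w - 1) :
    ∃ b, b < w ∧ b ≠ 0 ∧ w ∣ (t * b) ^ s + 1 := by
  have hFw : Fact w.Prime := ⟨hw⟩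
  have e1 := rho1_eq s w hs hw h3
  have hne : Nat.gcd s (w - 1) ≠ Nat.gcd (2 * s) (w - 1) := by
    intro he
    have h4 : 2 ^ (2 * s).factorization 2 ∣ Nat.gcd (2 * s) (w - 1) :=
      Nat.dvd_gcd (Nat.ordProj_dvd _ _) h2
    rw [← he] at h4
    have h5 : 2 ^ (2 * s).factorization 2 ∣ s := h4.trans (Nat.gcd_dvd_left _ _)
    have h6 : (2 * s).factorization 2 = s.factorization 2 + 1 := by
      rw [Nat.factorization_mul (by norm_num) (by omega), Finsupp.add_apply,
        Nat.Prime.factorization_self Nat.prime_two]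
      omega
    rw [h6] at h5
    exact Nat.pow_succ_factorization_not_dvd (by omega) Nat.prime_two h5
  have hpos : 0 < rho1 s w := by omega
  unfold rho1 at hpos
  obtain ⟨r, hr⟩ := Finset.card_pos.mp hpos
  rw [Finset.mem_filter, qt10_r1] at hr
  have hr0 : (r : ZMod w) ≠ 0 := by
    intro h0
    have h5 := hr.2
    rw [h0, zero_pow (by omega), zero_add] at h5
    exact one_ne_zero h5
  obtain ⟨b, hb1, hb2, hb3⟩ := qt10_inv hw hwt hr0
  refine ⟨b, hb1, hb2, ?_⟩
  rw [qt10_r1, hb3]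
  exact hr.2

private theorem qt10_root2 {s t w : ℕ} (hs : 1 ≤ s) (hw : w.Prime) (hsw : s < w)
    (hwt : ¬ w ∣ t) (hg : 1 < Nat.gcd s (w - 1)) :
    ∃ b, b < w ∧ b ≠ 0 ∧ w ∣ ∑ i ∈ range s, (t * b) ^ i := by
  have hFw : Fact w.Prime := ⟨hw⟩
  have e1 := rho2_eq s w hs hw hsw
  have hpos : 0 < rho2 s w := by omega
  unfold rho2 at hpos
  obtain ⟨r, hr⟩ := Finset.card_pos.mp hpos
  rw [Finset.mem_filter, qt10_r2] at hr
  have hr0 : (r : ZMod w) ≠ 0 := by
    intro h0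
    have h5 := hr.2
    obtain ⟨s', rfl⟩ : ∃ s', s = s' + 1 := ⟨s - 1, by omega⟩
    rw [h0, Finset.sum_range_succ', pow_zero] at h5
    rw [Finset.sum_eq_zero (fun i _ => zero_pow (Nat.succ_ne_zero i)), zero_add] at h5
    exact one_ne_zero h5
  obtain ⟨b, hb1, hb2, hb3⟩ := qt10_inv hw hwt hr0
  refine ⟨b, hb1, hb2, ?_⟩
  rw [qt10_r2, hb3]
  exact hr.2

private theorem qt10_card1 {s t w : ℕ} (hs : 1 ≤ s) (hw : w.Prime) (hwt : ¬ w ∣ t) :
    ((range w).filter (fun b => b ≠ 0 ∧ w ∣ (t * b) ^ s + 1)).card ≤ s := by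
  have hFw : Fact w.Prime := ⟨hw⟩
  refine le_trans ?_ (rho1_le s w hs hw)
  unfold rho1
  have ht0 : (t : ZMod w) ≠ 0 := by
    rw [Ne, ZMod.natCast_eq_zero_iff]; exact hwt
  refine Finset.card_le_card_of_injOn (fun b => ((t * b : ℕ) : ZMod w).val) ?_ ?_
  · intro b hb
    have hb' : b ∈ (range w).filter (fun b => b ≠ 0 ∧ w ∣ (t * b) ^ s + 1) := hb
    rw [Finset.mem_filter] at hb'
    show ((t * b : ℕ) : ZMod w).val ∈ (range w).filter (fun t => w ∣ t ^ s + 1)
    rw [Finset.mem_filter, Finset.mem_range]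
    refine ⟨ZMod.val_lt _, ?_⟩
    rw [qt10_r1, ZMod.natCast_zmod_val, ← qt10_r1]
    exact hb'.2.2
  · intro b hb b' hb' h
    have hb1 : b ∈ (range w).filter (fun b => b ≠ 0 ∧ w ∣ (t * b) ^ s + 1) := hb
    have hb1' : b' ∈ (range w).filter (fun b => b ≠ 0 ∧ w ∣ (t * b) ^ s + 1) := hb'
    rw [Finset.mem_filter, Finset.mem_range] at hb1 hb1'
    have h1 : ((t * b : ℕ) : ZMod w) = ((t * b' : ℕ) : ZMod w) := ZMod.val_injective w h
    push_cast at h1
    have h2 : (b : ZMod w) = (b' : ZMod w) := mul_left_cancel₀ ht0 h1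
    have h3 := congrArg ZMod.val h2
    rwa [ZMod.val_natCast_of_lt hb1.1, ZMod.val_natCast_of_lt hb1'.1] at h3

private theorem qt10_cardc {w : ℕ} (P : ℕ → Prop) [DecidablePred P] (h2 : 2 ≤ w)
    (h : ∃ b, b < w ∧ b ≠ 0 ∧ P b) :
    ((range w).filter (fun b => b ≠ 0 ∧ ¬ P b)).card ≤ w - 2 := by
  obtain ⟨b₀, hb₀, hb₀0, hb₀d⟩ := h
  have h1 : (range w).filter (fun b => b ≠ 0 ∧ ¬ P b) ⊆ ((range w).erase 0).erase b₀ := by
    intro b hb
    rw [Finset.mem_filter] at hb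
    rw [Finset.mem_erase, Finset.mem_erase]
    refine ⟨?_, hb.2.1, hb.1⟩
    rintro rfl
    exact hb.2.2 hb₀d
  have h2 := Finset.card_le_card h1
  rw [Finset.card_erase_of_mem, Finset.card_erase_of_mem, Finset.card_range] at h2
  · omega
  · exact Finset.mem_range.mpr (by omega)
  · exact Finset.mem_erase.mpr ⟨hb₀0, Finset.mem_range.mpr hb₀⟩

private theorem qt10_step (Bs : ℕ → Finset ℕ) (W : Finset ℕ) :
    (∀ w ∈ W, w.Prime ∧ ∀ b ∈ Bs w, b < w ∧ b ≠ 0) → ∀ M a : ℕ, 0 < M → a.Coprime M →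
      (∀ w ∈ W, w.Coprime M) → ∀ η : ℝ, 0 < η → ∀ᶠ x : ℕ in atTop,
        (((range x).filter (fun q => q.Prime ∧ q % M = a % M ∧
          ∀ w ∈ W, q % w ∈ Bs w)).card : ℝ) ≤
          (1 / (M.totient : ℝ) * (∏ w ∈ W, (((Bs w).card : ℝ) / ((w : ℝ) - 1))) + η) *
            (x / Real.log x) := by
  induction W using Finset.induction_on with
  | empty =>
    intro _ M a hM ha _ η hη
    have h := (primes_ap hM ha).eventually (gt_mem_nhds
      (show 1 / (M.totient : ℝ) < 1 / (M.totient : ℝ) + η by linarith))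
    filter_upwards [h, eventually_ge_atTop 3] with x hx hx3
    have hx0 : (0 : ℝ) < x := by positivity
    have hx3' : (3 : ℝ) ≤ x := by exact_mod_cast hx3
    have hlog : 0 < Real.log x := Real.log_pos (by linarith)
    rw [div_lt_iff₀ hx0] at hx
    rw [Finset.prod_empty, mul_one, ← mul_div_assoc, le_div_iff₀ hlog]
    refine le_trans (le_of_eq ?_) hx.le
    congr 3
    ext q
    simp
  | insert w W hwW ih =>
    intro hW M a hM ha hcop η hη
    have hw : w.Prime := (hW w (Finset.mem_insert_self _ _)).1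
    have hBw := (hW w (Finset.mem_insert_self _ _)).2
    have hwM : w.Coprime M := hcop w (Finset.mem_insert_self _ _)
    obtain ⟨B, hB⟩ : ∃ B : Finset ℕ, B = Bs w := ⟨_, rfl⟩
    rw [← hB] at hBw
    have hMw : 0 < M * w := Nat.mul_pos hM hw.pos
    have hc : ∀ b : ℕ, ∃ c : ℕ, c ≡ a [MOD M] ∧ c ≡ b [MOD w] := fun b => by
      obtain ⟨c, hc⟩ := Nat.chineseRemainder hwM.symm a b
      exact ⟨c, hc.1, hc.2⟩
    choose c hc1 hc2 using hc
    have hccop : ∀ b ∈ B, (c b).Coprime (M * w) := by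
      intro b hb
      have hb' := hBw b hb
      refine Nat.Coprime.mul_right ?_ ?_
      · have := (hc1 b).gcd_eq
        rw [Nat.Coprime, this]
        exact ha
      · have := (hc2 b).gcd_eq
        rw [Nat.Coprime, this]
        rw [Nat.gcd_comm]
        exact (Nat.Prime.coprime_iff_not_dvd hw).mpr (fun h =>
          absurd (Nat.le_of_dvd (Nat.pos_of_ne_zero hb'.2) h) (by omega))
    have hev : ∀ b ∈ B, ∀ᶠ x : ℕ in atTop,
        (((range x).filter (fun q => q.Prime ∧ q % (M * w) = c b % (M * w) ∧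
          ∀ w ∈ W, q % w ∈ Bs w)).card : ℝ) ≤
          (1 / ((M * w).totient : ℝ) * (∏ w ∈ W, (((Bs w).card : ℝ) / ((w : ℝ) - 1))) +
            η / w) * (x / Real.log x) := by
      intro b hb
      refine ih (fun w' hw' => hW w' (Finset.mem_insert_of_mem hw')) (M * w) (c b) hMw
        (hccop b hb) ?_ (η / w) (by have := hw.pos; positivity)
      intro w' hw'
      refine Nat.Coprime.mul_right (hcop w' (Finset.mem_insert_of_mem hw')) ?_
      rw [Nat.coprime_primes (hW w' (Finset.mem_insert_of_mem hw')).1 hw]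
      rintro rfl
      exact hwW hw'
    have hall := (Filter.eventually_all_finset B).mpr hev
    filter_upwards [hall] with x hx
    have hX : 0 ≤ (x : ℝ) / Real.log x := div_nonneg (by positivity) (Real.log_natCast_nonneg x)
    have hsub : (range x).filter (fun q => q.Prime ∧ q % M = a % M ∧
          ∀ w' ∈ insert w W, q % w' ∈ Bs w') ⊆
        B.biUnion (fun b => (range x).filter (fun q => q.Prime ∧
          q % (M * w) = c b % (M * w) ∧ ∀ w ∈ W, q % w ∈ Bs w)) := by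
      intro q hq
      rw [Finset.mem_filter] at hq
      obtain ⟨hqx, hqp, hqM, hqW⟩ := hq
      rw [Finset.mem_biUnion]
      refine ⟨q % w, ?_, ?_⟩
      · rw [hB]
        exact hqW w (Finset.mem_insert_self _ _)
      · rw [Finset.mem_filter]
        refine ⟨hqx, hqp, ?_, fun w' hw' => hqW w' (Finset.mem_insert_of_mem hw')⟩
        refine (Nat.modEq_and_modEq_iff_modEq_mul hwM.symm).mp ⟨?_, ?_⟩
        · exact Nat.ModEq.trans hqM (hc1 (q % w)).symm
        · exact (Nat.mod_modEq q w).symm.trans (hc2 (q % w)).symm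
    have hcard : (((range x).filter (fun q => q.Prime ∧ q % M = a % M ∧
          ∀ w' ∈ insert w W, q % w' ∈ Bs w')).card : ℝ) ≤ ∑ b ∈ B,
          (((range x).filter (fun q => q.Prime ∧
          q % (M * w) = c b % (M * w) ∧ ∀ w ∈ W, q % w ∈ Bs w)).card : ℝ) := by
      exact_mod_cast (Finset.card_le_card hsub).trans Finset.card_biUnion_le
    set P : ℝ := ∏ w ∈ W, (((Bs w).card : ℝ) / ((w : ℝ) - 1)) with hP
    have hw2 : (2 : ℝ) ≤ w := by exact_mod_cast hw.two_le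
    have hw10 : ((w - 1 : ℕ) : ℝ) = (w : ℝ) - 1 := by
      rw [Nat.cast_sub hw.one_lt.le]; norm_num
    have htot : ((M * w).totient : ℝ) = (M.totient : ℝ) * ((w : ℝ) - 1) := by
      rw [Nat.totient_mul hwM.symm, Nat.totient_prime hw]
      push_cast
      rw [hw10]
    have hMt : (0 : ℝ) < M.totient := by exact_mod_cast Nat.totient_pos.mpr hM
    have hBle : (B.card : ℝ) ≤ w := by
      have h1 : B ⊆ range w := fun b hb => Finset.mem_range.mpr (hBw b hb).1
      have h2 := Finset.card_le_card h1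
      rw [Finset.card_range] at h2
      exact_mod_cast h2
    calc _ ≤ ∑ b ∈ B, (((range x).filter (fun q => q.Prime ∧
          q % (M * w) = c b % (M * w) ∧ ∀ w ∈ W, q % w ∈ Bs w)).card : ℝ) := hcard
      _ ≤ ∑ b ∈ B, (1 / ((M * w).totient : ℝ) * P + η / w) * (x / Real.log x) :=
          Finset.sum_le_sum hx
      _ = (B.card * (1 / ((M * w).totient : ℝ) * P) + B.card * (η / w)) *
            (x / Real.log x) := by
          rw [Finset.sum_const, nsmul_eq_mul]
          ring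
      _ ≤ (1 / (M.totient : ℝ) * ((((Bs w).card : ℝ) / ((w : ℝ) - 1)) * P) + η) *
            (x / Real.log x) := by
          refine mul_le_mul_of_nonneg_right (add_le_add (le_of_eq ?_) ?_) hX
          · rw [htot, ← hB]
            have : (w : ℝ) - 1 ≠ 0 := by linarith
            field_simp
          · rw [← mul_div_assoc, div_le_iff₀ (by linarith)]
            nlinarith
      _ = (1 / (M.totient : ℝ) * (∏ w ∈ insert w W, (((Bs w).card : ℝ) / ((w : ℝ) - 1))) +
            η) * (x / Real.log x) := by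
          rw [Finset.prod_insert hwW]

private theorem qt10_step1 (Bs : ℕ → Finset ℕ) (W : Finset ℕ)
    (h : ∀ w ∈ W, w.Prime ∧ ∀ b ∈ Bs w, b < w ∧ b ≠ 0) (c : ℝ)
    (hc : ∏ w ∈ W, (((Bs w).card : ℝ) / ((w : ℝ) - 1)) ≤ c) (η : ℝ) (hη : 0 < η) :
    ∀ᶠ x : ℕ in atTop,
        (((range x).filter (fun q => q.Prime ∧ ∀ w ∈ W, q % w ∈ Bs w)).card : ℝ) ≤
          (c + η) * (x / Real.log x) := by
  have h1 := qt10_step Bs W h 1 0 one_pos (by simp) (fun w _ => Nat.coprime_one_right w) η hη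
  filter_upwards [h1] with x hx
  have hX : 0 ≤ (x : ℝ) / Real.log x := div_nonneg (by positivity) (Real.log_natCast_nonneg x)
  have hset : (range x).filter (fun q => q.Prime ∧ ∀ w ∈ W, q % w ∈ Bs w) =
      (range x).filter (fun q => q.Prime ∧ q % 1 = 0 % 1 ∧ ∀ w ∈ W, q % w ∈ Bs w) := by
    ext q
    simp [Nat.mod_one]
  rw [hset]
  refine hx.trans (mul_le_mul_of_nonneg_right ?_ hX)
  rw [Nat.totient_one, Nat.cast_one, div_one, one_mul]
  linarith

private theorem qt10_frac {w k : ℕ} (hw : w.Prime) (hk : k ≤ w - 2) :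
    (k : ℝ) / ((w : ℝ) - 1) ≤ Real.exp (-((w : ℝ))⁻¹) := by
  have h2 : (2 : ℝ) ≤ w := by exact_mod_cast hw.two_le
  have hk' : (k : ℝ) ≤ (w : ℝ) - 2 := by
    have h5 : (k : ℝ) ≤ ((w - 2 : ℕ) : ℝ) := by exact_mod_cast hk
    rw [Nat.cast_sub hw.two_le] at h5
    exact_mod_cast h5
  have h3 := Real.add_one_le_exp (-((w : ℝ))⁻¹)
  refine le_trans ?_ h3
  rw [div_le_iff₀ (by linarith)]
  have h4 : ((w : ℝ))⁻¹ * ((w : ℝ) - 1) ≤ 1 := by
    rw [inv_mul_le_iff₀ (by linarith)]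
    linarith
  nlinarith

private theorem qt10_prod (W : Finset ℕ) (g : ℕ → ℕ)
    (h : ∀ w ∈ W, w.Prime ∧ g w ≤ w - 2) :
    ∏ w ∈ W, ((g w : ℝ) / ((w : ℝ) - 1)) ≤ Real.exp (-∑ w ∈ W, ((w : ℝ))⁻¹) := by
  rw [← Finset.sum_neg_distrib, Real.exp_sum]
  refine Finset.prod_le_prod (fun w hw => ?_) (fun w hw => qt10_frac (h w hw).1 (h w hw).2)
  have : (2 : ℝ) ≤ w := by exact_mod_cast (h w hw).1.two_le
  apply div_nonneg (Nat.cast_nonneg _)
  linarith

theorem prime_count2 (s t : ℕ) (hs : 2 ≤ s) (ht : 1 ≤ t) (W : Finset ℕ)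
    (hW : ∀ w ∈ W, w.Prime ∧ s < w ∧ ¬ w ∣ t ∧ 2 ^ (2 * s).factorization 2 ∣ w - 1 ∧
      1 < Nat.gcd s (w - 1)) (B : ℝ) (hB0 : 0 ≤ B) (hB1 : B ≤ ∑ w ∈ W, ((w : ℝ))⁻¹)
    (hB2 : ∑ w ∈ W, ((w : ℝ))⁻¹ ≤ B + 1) (η : ℝ) (hη : 0 < η) : ∃ x0 : ℕ, ∀ x : ℕ, x0 ≤ x →
      (((range x).filter (fun q => q.Prime ∧ ¬ ∃ w1 ∈ W, ∃ w2 ∈ W, w1 ≠ w2 ∧
        w1 ∣ (t * q) ^ s + 1 ∧ w2 ∣ ∑ i ∈ range s, (t * q) ^ i)).card : ℝ) ≤
        ((1 + 6 * s * (B + 1)) * Real.exp (-B) + η) * (x / Real.log x) := by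
  obtain ⟨B1, hB1'⟩ : ∃ B1 : ℕ → Finset ℕ, B1 = fun w =>
      (range w).filter (fun b => b ≠ 0 ∧ ¬ w ∣ (t * b) ^ s + 1) := ⟨_, rfl⟩
  obtain ⟨R, hR⟩ : ∃ R : ℕ → Finset ℕ, R = fun w =>
      (range w).filter (fun b => b ≠ 0 ∧ w ∣ (t * b) ^ s + 1) := ⟨_, rfl⟩
  obtain ⟨B3, hB3⟩ : ∃ B3 : ℕ → Finset ℕ, B3 = fun w =>
      (range w).filter (fun b => b ≠ 0 ∧ ¬ w ∣ ∑ i ∈ range s, (t * b) ^ i) := ⟨_, rfl⟩
  obtain ⟨η1, hη1⟩ : ∃ η1 : ℝ, η1 = η / (2 * (W.card + 1)) := ⟨_, rfl⟩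
  have hη1p : 0 < η1 := by rw [hη1]; positivity
  have hp : ∀ w ∈ W, w.Prime := fun w hw => (hW w hw).1
  have h3 : ∀ w ∈ W, 3 ≤ w := fun w hw => by
    have := (hW w hw).2.1
    omega
  -- case I
  have c1 : ∀ w ∈ W, (B1 w).card ≤ w - 2 := by
    intro w hw
    obtain ⟨a1, a2, a3, a4, a5⟩ := hW w hw
    rw [hB1']
    exact qt10_cardc (fun b => w ∣ (t * b) ^ s + 1) (by have := h3 w hw; omega)
      (qt10_root1 (by omega) a1 (h3 w hw) a3 a4)
  have c3 : ∀ w ∈ W, (B3 w).card ≤ w - 2 := by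
    intro w hw
    obtain ⟨a1, a2, a3, a4, a5⟩ := hW w hw
    rw [hB3]
    exact qt10_cardc (fun b => w ∣ ∑ i ∈ range s, (t * b) ^ i) (by have := h3 w hw; omega)
      (qt10_root2 (by omega) a1 a2 a3 a5)
  have c2 : ∀ w ∈ W, (R w).card ≤ s := by
    intro w hw
    obtain ⟨a1, a2, a3, a4, a5⟩ := hW w hw
    rw [hR]
    exact qt10_card1 (by omega) a1 a3
  have hI := qt10_step1 B1 W (fun w hw => ⟨hp w hw, fun b hb => by
      rw [hB1'] at hb
      have hb' := Finset.mem_filter.mp hb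
      exact ⟨Finset.mem_range.mp hb'.1, hb'.2.1⟩⟩) (Real.exp (-B))
    ((qt10_prod W (fun w => (B1 w).card) (fun w hw => ⟨hp w hw, c1 w hw⟩)).trans
      (Real.exp_le_exp.mpr (by linarith))) η1 hη1p
  have hII : ∀ v ∈ W, ∀ᶠ x : ℕ in atTop,
        (((range x).filter (fun q => q.Prime ∧ ∀ w ∈ W, q % w ∈
          (if w = v then R v else B3 w))).card : ℝ) ≤
          (2 * s * ((v : ℝ))⁻¹ * Real.exp (1 - B) + η1) * (x / Real.log x) := by
    intro v hv
    refine qt10_step1 (fun w => if w = v then R v else B3 w) W (fun w hw => ⟨hp w hw, ?_⟩)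
      (2 * s * ((v : ℝ))⁻¹ * Real.exp (1 - B)) ?_ η1 hη1p
    · intro b hb
      by_cases hwv : w = v
      · subst hwv
        rw [if_pos rfl, hR] at hb
        have hb' := Finset.mem_filter.mp hb
        exact ⟨Finset.mem_range.mp hb'.1, hb'.2.1⟩
      · rw [if_neg hwv, hB3] at hb
        have hb' := Finset.mem_filter.mp hb
        exact ⟨Finset.mem_range.mp hb'.1, hb'.2.1⟩
    · rw [← Finset.mul_prod_erase W _ hv]
      have hv2 : (3 : ℝ) ≤ v := by exact_mod_cast h3 v hv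
      have e1 : (((if v = v then R v else B3 v).card : ℕ) : ℝ) / ((v : ℝ) - 1) ≤
          2 * s * ((v : ℝ))⁻¹ := by
        rw [if_pos rfl]
        have h5 : ((R v).card : ℝ) ≤ s := by exact_mod_cast c2 v hv
        rw [div_le_iff₀ (by linarith)]
        have h6 : (1 : ℝ) ≤ 2 * ((v : ℝ))⁻¹ * ((v : ℝ) - 1) := by
          have h7 : ((v : ℝ))⁻¹ * v = 1 := inv_mul_cancel₀ (by linarith)
          have h8 : ((v : ℝ))⁻¹ ≤ 1 / 2 := by
            rw [← one_div]
            exact one_div_le_one_div_of_le (by norm_num) (by linarith)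
          nlinarith
        have hs0 : (0 : ℝ) ≤ s := Nat.cast_nonneg _
        calc ((R v).card : ℝ) ≤ s * 1 := by rw [mul_one]; exact h5
          _ ≤ s * (2 * ((v : ℝ))⁻¹ * ((v : ℝ) - 1)) := mul_le_mul_of_nonneg_left h6 hs0
          _ = _ := by ring
      have e2 : ∏ w ∈ W.erase v, ((((if w = v then R v else B3 w).card : ℕ) : ℝ) /
          ((w : ℝ) - 1)) ≤ Real.exp (1 - B) := by
        have e3 := qt10_prod (W.erase v) (fun w => (if w = v then R v else B3 w).card)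
          (fun w hw => ?_)
        · refine e3.trans (Real.exp_le_exp.mpr ?_)
          have e4 : ∑ w ∈ W.erase v, ((w : ℝ))⁻¹ = ∑ w ∈ W, ((w : ℝ))⁻¹ - ((v : ℝ))⁻¹ := by
            rw [← Finset.add_sum_erase W _ hv]
            ring
          have e5 : ((v : ℝ))⁻¹ ≤ 1 := inv_le_one_of_one_le₀ (by linarith)
          rw [e4]
          linarith
        · have hw' := Finset.mem_erase.mp hw
          refine ⟨hp w hw'.2, ?_⟩
          show (if w = v then R v else B3 w).card ≤ w - 2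
          rw [if_neg hw'.1]
          exact c3 w hw'.2
      refine mul_le_mul e1 e2 ?_ (by positivity)
      refine Finset.prod_nonneg fun w hw => div_nonneg (Nat.cast_nonneg _) ?_
      have : (2 : ℝ) ≤ w := by exact_mod_cast (hp w (Finset.mem_of_mem_erase hw)).two_le
      linarith
  have hII' := (Filter.eventually_all_finset W).mpr hII
  have hlogx : Tendsto (fun x : ℕ => Real.log (x : ℝ) / x) atTop (𝓝 0) := by
    have := (Real.isLittleO_log_id_atTop.tendsto_div_nhds_zero).comp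
      (tendsto_natCast_atTop_atTop (R := ℝ))
    simpa [Function.comp_def] using this
  have hsmall := hlogx.eventually (gt_mem_nhds (show (0 : ℝ) < η / (2 * (W.card + 1)) by
    positivity))
  have hfin := hI.and (hII'.and (hsmall.and (eventually_ge_atTop 3)))
  rw [Filter.eventually_atTop] at hfin
  obtain ⟨x0, hx0⟩ := hfin
  refine ⟨x0, fun x hx => ?_⟩
  obtain ⟨hxI, hxII, hxs, hx3⟩ := hx0 x hx
  have hxp : (0 : ℝ) < x := by positivity
  have hx3' : (3 : ℝ) ≤ x := by exact_mod_cast hx3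
  have hlog : 0 < Real.log x := Real.log_pos (by linarith)
  obtain ⟨X, hXdef⟩ : ∃ X : ℝ, X = (x : ℝ) / Real.log x := ⟨_, rfl⟩
  have hX0 : 0 ≤ X := by rw [hXdef]; positivity
  have hone : (1 : ℝ) ≤ η1 * X := by
    rw [← hη1, div_lt_iff₀ hxp] at hxs
    rw [hXdef, ← mul_div_assoc, le_div_iff₀ hlog]
    linarith
  rw [← hXdef] at hxI hxII ⊢
  have hsub : (range x).filter (fun q => q.Prime ∧ ¬ ∃ w1 ∈ W, ∃ w2 ∈ W, w1 ≠ w2 ∧
        w1 ∣ (t * q) ^ s + 1 ∧ w2 ∣ ∑ i ∈ range s, (t * q) ^ i) ⊆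
      (W ∪ (range x).filter (fun q => q.Prime ∧ ∀ w ∈ W, q % w ∈ B1 w)) ∪
        W.biUnion (fun v => (range x).filter (fun q => q.Prime ∧ ∀ w ∈ W, q % w ∈
          (if w = v then R v else B3 w))) := by
    intro q hq
    rw [Finset.mem_filter] at hq
    obtain ⟨hqx, hqp, hqn⟩ := hq
    rw [Finset.mem_union, Finset.mem_union, Finset.mem_biUnion]
    by_cases hqW : q ∈ W
    · exact Or.inl (Or.inl hqW)
    have hq0 : ∀ w ∈ W, q % w ≠ 0 := by
      intro w hw h0
      have h5 := Nat.dvd_of_mod_eq_zero h0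
      have h6 := (Nat.prime_dvd_prime_iff_eq (hp w hw) hqp).mp h5
      rw [h6] at hw
      exact hqW hw
    have hm1 : ∀ w : ℕ, w ∣ (t * (q % w)) ^ s + 1 ↔ w ∣ (t * q) ^ s + 1 := by
      intro w
      rw [qt10_r1, qt10_r1]
      push_cast
      rw [ZMod.natCast_mod]
    have hm2 : ∀ w : ℕ, w ∣ ∑ i ∈ range s, (t * (q % w)) ^ i ↔
        w ∣ ∑ i ∈ range s, (t * q) ^ i := by
      intro w
      rw [qt10_r2, qt10_r2]
      push_cast
      rw [ZMod.natCast_mod]
    by_cases hex : ∃ v ∈ W, v ∣ (t * q) ^ s + 1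
    · right
      obtain ⟨v, hv, hvd⟩ := hex
      refine ⟨v, hv, ?_⟩
      rw [Finset.mem_filter]
      refine ⟨hqx, hqp, fun w hw => ?_⟩
      by_cases hwv : w = v
      · subst hwv
        rw [if_pos rfl, hR]
        refine Finset.mem_filter.mpr ⟨Finset.mem_range.mpr (Nat.mod_lt _ (hp w hw).pos),
          hq0 w hw, ?_⟩
        rw [hm1]
        exact hvd
      · rw [if_neg hwv, hB3]
        refine Finset.mem_filter.mpr ⟨Finset.mem_range.mpr (Nat.mod_lt _ (hp w hw).pos),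
          hq0 w hw, ?_⟩
        rw [hm2]
        intro h7
        exact hqn ⟨v, hv, w, hw, fun h => hwv h.symm, hvd, h7⟩
    · left
      right
      push Not at hex
      rw [Finset.mem_filter]
      refine ⟨hqx, hqp, fun w hw => ?_⟩
      rw [hB1']
      refine Finset.mem_filter.mpr ⟨Finset.mem_range.mpr (Nat.mod_lt _ (hp w hw).pos),
        hq0 w hw, ?_⟩
      rw [hm1]
      exact hex w hw
  have hcard : (((range x).filter (fun q => q.Prime ∧ ¬ ∃ w1 ∈ W, ∃ w2 ∈ W, w1 ≠ w2 ∧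
        w1 ∣ (t * q) ^ s + 1 ∧ w2 ∣ ∑ i ∈ range s, (t * q) ^ i)).card : ℝ) ≤
      (W.card + (((range x).filter (fun q => q.Prime ∧ ∀ w ∈ W, q % w ∈ B1 w)).card : ℝ)) +
        ∑ v ∈ W, (((range x).filter (fun q => q.Prime ∧ ∀ w ∈ W, q % w ∈
          (if w = v then R v else B3 w))).card : ℝ) := by
    have h5 := (Finset.card_le_card hsub).trans (Finset.card_union_le _ _)
    have h6 := h5.trans (add_le_add (Finset.card_union_le _ _) Finset.card_biUnion_le)
    exact_mod_cast h6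
  refine hcard.trans ?_
  have h7 : ∑ v ∈ W, (((range x).filter (fun q => q.Prime ∧ ∀ w ∈ W, q % w ∈
          (if w = v then R v else B3 w))).card : ℝ) ≤
      (2 * s * (B + 1) * Real.exp (1 - B) + W.card * η1) * X := by
    refine (Finset.sum_le_sum hxII).trans ?_
    rw [← Finset.sum_mul, Finset.sum_add_distrib, ← Finset.sum_mul, ← Finset.mul_sum,
      Finset.sum_const, nsmul_eq_mul]
    refine mul_le_mul_of_nonneg_right (add_le_add ?_ le_rfl) hX0
    refine mul_le_mul_of_nonneg_right ?_ (Real.exp_pos _).le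
    exact mul_le_mul_of_nonneg_left hB2 (by positivity)
  have h8 : (W.card : ℝ) ≤ W.card * η1 * X := by
    have : (0 : ℝ) ≤ W.card := Nat.cast_nonneg _
    nlinarith
  have h9 : Real.exp (1 - B) ≤ 3 * Real.exp (-B) := by
    have e : (1 : ℝ) - B = 1 + -B := by ring
    rw [e, Real.exp_add]
    have := Real.exp_one_lt_d9
    exact mul_le_mul_of_nonneg_right (by linarith) (Real.exp_pos _).le
  have h10 : (2 * W.card + 1) * η1 ≤ η := by
    rw [hη1, ← mul_div_assoc, div_le_iff₀ (by positivity)]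
    nlinarith
  have h11 : 2 * s * (B + 1) * Real.exp (1 - B) ≤ 6 * s * (B + 1) * Real.exp (-B) := by
    have : (0 : ℝ) ≤ 2 * s * (B + 1) := by positivity
    calc 2 * s * (B + 1) * Real.exp (1 - B) ≤ 2 * s * (B + 1) * (3 * Real.exp (-B)) :=
          mul_le_mul_of_nonneg_left h9 this
      _ = _ := by ring
  calc (W.card + (((range x).filter (fun q => q.Prime ∧ ∀ w ∈ W, q % w ∈ B1 w)).card : ℝ)) +
        ∑ v ∈ W, (((range x).filter (fun q => q.Prime ∧ ∀ w ∈ W, q % w ∈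
          (if w = v then R v else B3 w))).card : ℝ)
      ≤ (W.card * η1 * X + (Real.exp (-B) + η1) * X) +
        (2 * s * (B + 1) * Real.exp (1 - B) + W.card * η1) * X :=
        add_le_add (add_le_add h8 hxI) h7
    _ = (Real.exp (-B) + 2 * s * (B + 1) * Real.exp (1 - B) + (2 * W.card + 1) * η1) * X := by
        ring
    _ ≤ (Real.exp (-B) + 6 * s * (B + 1) * Real.exp (-B) + η) * X := by
        refine mul_le_mul_of_nonneg_right ?_ hX0
        linarith
    _ = _ := by ring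

end Pool.Agent.Lib.MP_79499b_co.QZ
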