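import Pool.Agent.Lib.MP_79499b_co.QZ.QKum
import Pool.Agent.Lib.MP_79499b_co.Q38MertensAP
import Pool.Agent.Lib.MP_79499b_co.DZ.LM

/-!
# QT9: primes modulo which `t` has an order with a prescribed power of 2

`matched`: for `t ≥ 2`, `l ≥ 2` and `c0` there is `j > c0` such that for all `z`, `B` there is a finite set `W` of primes `w > z`, `w ≡ 1 mod l`, with
`v_2(ord_w(t)) = j` and `∑_W 1/w ≥ B`.

Proof. `KK.even_order_lower` (QKum.lean) for `l` and `c = t^(2^c0) ≥ 2`: `∑_{w < Y, w ≡ 1 (l), ord_w(c) even} 1/w ≥ κ log log Y - C`, `κ > 0`, for `Y ≥ 3`. If `w ∤ t` then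
`ord_w(t^(2^c0)) = ord_w(t)/gcd(ord_w(t), 2^c0)`, so it is even iff `v_2(ord_w(t)) > c0` (`orderOf_pow`); the `w ∣ t` are finitely many (their orders are 0, which is even:
remove them, they are `≤ t`). If `v_2(ord_w(t)) = j` then `2^j ∣ w - 1`. `mertens_one_mod` (Q38MertensAP) for the modulus `2^J`: `∑_{w < Y, w ≡ 1 (2^J)} 1/w ≤ (1/φ(2^J)) log log Y + C_J`
(if the file only has a lower bound, use `Q38` / `primes_ap`, or: subtract from the upper bound for all primes the lower bounds `(1/φ) log log Y - C` for the other classes;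
or simply `SW`/`DZ.LM_main` with `N1` fixed). Choose `J` with `2^(1-J) ≤ κ/2`. Then
`∑_{c0 < j < J} ∑_{w < Y, w ≡ 1 (l), v_2(ord) = j} 1/w ≥ (κ/2) log log Y - C'`, which tends to infinity with `Y`; so for one `j` (pigeonhole: finitely many functions, nondecreasing
in `Y`, whose sum is unbounded) the sum over `w < Y` is unbounded, also after removing the `w ≤ z`.
-/

set_option autoImplicit false

namespace Pool.Agent.Lib.MP_79499b_co.QZ

open Finset

/-- few primes are `≡ 1 mod 2^J` -/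
private theorem QT9_up (δ : ℝ) (hδ : 0 < δ) : ∃ J : ℕ, 1 ≤ J ∧ ∃ C : ℝ, ∀ Y : ℕ, 3 ≤ Y →
    ∑ w ∈ (range Y).filter (fun w => w.Prime ∧ w ≡ 1 [MOD 2 ^ J]), ((w : ℝ))⁻¹ ≤
      δ * Real.log (Real.log Y) + C := by
  obtain ⟨C₁, hC₁, hmain⟩ := DZ.LM_main 1
  obtain ⟨J', hJ'⟩ := pow_unbounded_of_one_lt (4 / δ) (one_lt_two (α := ℝ))
  obtain ⟨J, hJ⟩ : ∃ J : ℕ, J = J' + 1 := ⟨_, rfl⟩
  have hφ : (2 ^ J : ℕ).totient = 2 ^ J' := by
    rw [hJ, Nat.totient_prime_pow_succ Nat.prime_two]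
    simp
  obtain ⟨F, hF⟩ : ∃ F : ℝ, F = (2 : ℝ) ^ J' := ⟨_, rfl⟩
  have hF0 : 0 < F := by rw [hF]; positivity
  have hφF : (((2 ^ J : ℕ).totient : ℕ) : ℝ) = F := by
    rw [hφ, hF]
    push_cast
    rfl
  have h4F : 2 / F ≤ δ := by
    rw [div_le_iff₀ hF0]
    rw [← hF, div_lt_iff₀ hδ] at hJ'
    linarith
  -- the starting point
  have hlog : Filter.Tendsto (fun n : ℕ => Real.log (n : ℝ)) Filter.atTop Filter.atTop :=
    Real.tendsto_log_atTop.comp tendsto_natCast_atTop_atTop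
  obtain ⟨N1, hN13, hN1⟩ := ((Filter.eventually_ge_atTop 3).and
    (hlog.eventually_ge_atTop (C₁ * ((2 ^ J : ℕ) : ℝ) * F))).exists
  have hlogN : 1 < Real.log N1 := by
    have h1 : (3 : ℝ) ≤ N1 := by exact_mod_cast hN13
    rw [Real.lt_log_iff_exp_lt (by linarith)]
    have := Real.exp_one_lt_d9
    linarith
  obtain ⟨C0, hC0⟩ : ∃ C0 : ℝ, C0 = ∑ w ∈ range (N1 + 1), ((w : ℝ))⁻¹ := ⟨_, rfl⟩
  have hC00 : 0 ≤ C0 := by
    rw [hC0]
    exact Finset.sum_nonneg fun w _ => by positivity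
  have hE0 : 0 ≤ 2 * (N1 * DZ.LMf N1) / F := by
    have := DZ.LMf_nonneg N1
    positivity
  refine ⟨J, by omega, C0 + 2 * (N1 * DZ.LMf N1) / F, fun Y hY => ?_⟩
  have hYr : (3 : ℝ) ≤ Y := by exact_mod_cast hY
  have hlY : 1 < Real.log Y := by
    rw [Real.lt_log_iff_exp_lt (by linarith)]
    have := Real.exp_one_lt_d9
    linarith
  have hllY : 0 ≤ Real.log (Real.log Y) := Real.log_nonneg hlY.le
  rcases Nat.lt_or_ge (Y - 1) N1 with h | h
  · have h1 : ∑ w ∈ (range Y).filter (fun w => w.Prime ∧ w ≡ 1 [MOD 2 ^ J]), ((w : ℝ))⁻¹ ≤ C0 := by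
      rw [hC0]
      refine Finset.sum_le_sum_of_subset_of_nonneg ?_ fun w _ _ => by positivity
      intro w hw
      rw [mem_filter, mem_range] at hw
      rw [mem_range]
      omega
    have h2 : 0 ≤ δ * Real.log (Real.log Y) := by positivity
    linarith
  · have hm := hmain N1 (Y - 1) (2 ^ J) 1 (by omega) h (Nat.one_le_two_pow)
      (Nat.coprime_one_left _)
    obtain ⟨hS, -⟩ := @DZ.LM_sum N1 (Y - 1) (by omega) h
    obtain ⟨S, hSdef⟩ : ∃ S : ℝ, S = ∑ n ∈ Ioc N1 (Y - 1), DZ.LMf n := ⟨_, rfl⟩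
    rw [← hSdef, hφF, pow_one] at hm
    rw [← hSdef] at hS
    have hS0 : 0 ≤ S := by
      rw [hSdef]
      exact Finset.sum_nonneg fun n _ => DZ.LMf_nonneg n
    have hS1 : S ≤ Real.log (Real.log Y) := by
      have h1 : 0 ≤ Real.log (Real.log N1) := Real.log_nonneg hlogN.le
      have h2 : Real.log (Real.log ((Y - 1 : ℕ) : ℝ)) ≤ Real.log (Real.log Y) := by
        have h3 : (1 : ℝ) < ((Y - 1 : ℕ) : ℝ) := by exact_mod_cast (by omega : 1 < Y - 1)
        have h4 : ((Y - 1 : ℕ) : ℝ) ≤ Y := by exact_mod_cast Nat.sub_le Y 1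
        exact Real.log_le_log (Real.log_pos h3) (Real.log_le_log (by linarith) h4)
      linarith
    have hcoef : C₁ * ((2 ^ J : ℕ) : ℝ) / Real.log N1 ≤ 1 / F := by
      rw [div_le_div_iff₀ (by linarith) hF0]
      linarith
    have hE1 : 0 ≤ 2 * (N1 * DZ.LMf N1) + S := by
      have := DZ.LMf_nonneg N1
      positivity
    have h5 := (abs_le.1 hm).2
    have h6 : C₁ * ((2 ^ J : ℕ) : ℝ) / Real.log N1 * (2 * (N1 * DZ.LMf N1) + S) ≤
        1 / F * (2 * (N1 * DZ.LMf N1) + S) := mul_le_mul_of_nonneg_right hcoef hE1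
    have h7 : ∑ w ∈ (range Y).filter (fun w => w.Prime ∧ w ≡ 1 [MOD 2 ^ J]), ((w : ℝ))⁻¹ ≤
        C0 + ∑ w ∈ (Ioc N1 (Y - 1)).filter (fun w => w.Prime ∧ w ≡ 1 [MOD 2 ^ J]),
          1 / (w : ℝ) := by
      have h8 : (range Y).filter (fun w => w.Prime ∧ w ≡ 1 [MOD 2 ^ J]) ⊆
          range (N1 + 1) ∪ (Ioc N1 (Y - 1)).filter (fun w => w.Prime ∧ w ≡ 1 [MOD 2 ^ J]) := by
        intro w hw
        rw [mem_filter, mem_range] at hw
        rw [mem_union, mem_range, mem_filter, mem_Ioc]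
        rcases Nat.lt_or_ge w (N1 + 1) with h9 | h9
        · exact Or.inl h9
        · exact Or.inr ⟨⟨by omega, by omega⟩, hw.2⟩
      refine (Finset.sum_le_sum_of_subset_of_nonneg h8 fun w _ _ => by positivity).trans ?_
      have h10 := Finset.sum_union_inter (s₁ := range (N1 + 1))
        (s₂ := (Ioc N1 (Y - 1)).filter (fun w => w.Prime ∧ w ≡ 1 [MOD 2 ^ J]))
        (f := fun w : ℕ => ((w : ℝ))⁻¹)
      have h11 : 0 ≤ ∑ w ∈ range (N1 + 1) ∩ (Ioc N1 (Y - 1)).filter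
          (fun w => w.Prime ∧ w ≡ 1 [MOD 2 ^ J]), ((w : ℝ))⁻¹ :=
        Finset.sum_nonneg fun w _ => by positivity
      have h12 : ∑ w ∈ (Ioc N1 (Y - 1)).filter (fun w => w.Prime ∧ w ≡ 1 [MOD 2 ^ J]),
          ((w : ℝ))⁻¹ = ∑ w ∈ (Ioc N1 (Y - 1)).filter (fun w => w.Prime ∧ w ≡ 1 [MOD 2 ^ J]),
          1 / (w : ℝ) := Finset.sum_congr rfl fun w _ => (one_div _).symm
      rw [hC0]
      linarith
    have h13 : 2 / F * S ≤ δ * Real.log (Real.log Y) :=
      (mul_le_mul_of_nonneg_right h4F hS0).trans (mul_le_mul_of_nonneg_left hS1 hδ.le)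
    have h14 : 1 / F * (2 * (N1 * DZ.LMf N1) + S) + S / F =
        2 * (N1 * DZ.LMf N1) / F + 2 / F * S := by
      field_simp
      ring
    linarith

private theorem QT9_val {w t c0 : ℕ} (hw : w.Prime) (ht : ¬ w ∣ t)
    (h : 2 ∣ orderOf ((t ^ 2 ^ c0 : ℕ) : ZMod w)) :
    c0 < (orderOf (t : ZMod w)).factorization 2 ∧ orderOf (t : ZMod w) ∣ w - 1 := by
  have : Fact w.Prime := ⟨hw⟩
  have ht0 : (t : ZMod w) ≠ 0 := by
    rwa [Ne, ZMod.natCast_eq_zero_iff]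
  have hdvd : orderOf (t : ZMod w) ∣ w - 1 :=
    orderOf_dvd_of_pow_eq_one (ZMod.pow_card_sub_one_eq_one ht0)
  have ho : orderOf (t : ZMod w) ≠ 0 := by
    intro h0
    rw [h0] at hdvd
    have := Nat.eq_zero_of_zero_dvd hdvd
    have := hw.two_le
    omega
  refine ⟨?_, hdvd⟩
  by_contra hcon
  push Not at hcon
  rw [Nat.cast_pow, orderOf_pow' _ (pow_ne_zero _ two_ne_zero)] at h
  obtain ⟨a, ha⟩ : ∃ a : ℕ, a = orderOf (t : ZMod w) := ⟨_, rfl⟩
  rw [← ha] at h ho hcon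
  have h1 : 2 ^ a.factorization 2 ∣ Nat.gcd a (2 ^ c0) :=
    Nat.dvd_gcd (Nat.ordProj_dvd a 2) (pow_dvd_pow 2 hcon)
  have h2 : 2 * Nat.gcd a (2 ^ c0) ∣ a := by
    obtain ⟨r, hr⟩ := h
    have h3 : Nat.gcd a (2 ^ c0) ∣ a := Nat.gcd_dvd_left _ _
    have h4 := Nat.div_mul_cancel h3
    rw [hr] at h4
    exact ⟨r, by rw [mul_right_comm]; exact h4.symm⟩
  have h5 : 2 ^ (a.factorization 2 + 1) ∣ a := by
    rw [pow_succ, mul_comm]
    exact (Nat.mul_dvd_mul_left 2 h1).trans h2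
  exact Nat.pow_succ_factorization_not_dvd ho Nat.prime_two h5

theorem matched (t l c0 : ℕ) (ht : 2 ≤ t) (hl : 2 ≤ l) : ∃ j : ℕ, c0 < j ∧ ∀ (z : ℕ) (B : ℝ),
    ∃ W : Finset ℕ, (∀ w ∈ W, w.Prime ∧ w % l = 1 ∧ z < w ∧
      (orderOf (t : ZMod w)).factorization 2 = j) ∧ B ≤ ∑ w ∈ W, ((w : ℝ))⁻¹ := by
  classical
  obtain ⟨κ, hκ, C, hC⟩ := KK.even_order_lower (l := l) (c := t ^ 2 ^ c0) hl
    (ht.trans (Nat.le_self_pow (by positivity) t))
  obtain ⟨J, hJ1, C2, hC2⟩ := QT9_up (κ / 2) (by positivity)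
  obtain ⟨F, hF⟩ : ∃ F : ℕ → ℕ → Finset ℕ, F = fun j Y => (range Y).filter (fun w => w.Prime ∧
    w % l = 1 ∧ (orderOf (t : ZMod w)).factorization 2 = j) := ⟨_, rfl⟩
  -- one of the sums is unbounded
  have hunb : ∃ j ∈ Ioo c0 J, ∀ M : ℝ, ∃ Y : ℕ, M < ∑ w ∈ F j Y, ((w : ℝ))⁻¹ := by
    by_contra hcon
    push Not at hcon
    choose! M hM using hcon
    obtain ⟨C3, hC3⟩ : ∃ C3 : ℝ, C3 = ∑ w ∈ range (t + 1), ((w : ℝ))⁻¹ + ∑ j ∈ Ioo c0 J, M j :=
      ⟨_, rfl⟩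
    have hall : ∀ Y : ℕ, 3 ≤ Y → κ / 2 * Real.log (Real.log Y) ≤ C + C3 + C2 := by
      intro Y hY
      have h1 := hC Y hY
      have h2 := hC2 Y hY
      have hsub : (range Y).filter (fun w => w.Prime ∧ w % l = 1 ∧
          2 ∣ orderOf ((t ^ 2 ^ c0 : ℕ) : ZMod w)) ⊆ range (t + 1) ∪ ((Ioo c0 J).biUnion
          (fun j => F j Y) ∪ (range Y).filter (fun w => w.Prime ∧ w ≡ 1 [MOD 2 ^ J])) := by
        intro w hw
        rw [mem_filter, mem_range] at hw
        obtain ⟨hwY, hwp, hwl, hwo⟩ := hw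
        rw [mem_union, mem_union, mem_range, mem_biUnion]
        by_cases hwt : w ∣ t
        · left
          have := Nat.le_of_dvd (by omega) hwt
          omega
        · right
          obtain ⟨g1, g2⟩ := QT9_val hwp hwt hwo
          rcases Nat.lt_or_ge ((orderOf (t : ZMod w)).factorization 2) J with h3 | h3
          · left
            refine ⟨(orderOf (t : ZMod w)).factorization 2, mem_Ioo.2 ⟨g1, h3⟩, ?_⟩
            rw [hF]
            show w ∈ (range Y).filter (fun w' => w'.Prime ∧ w' % l = 1 ∧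
              (orderOf (t : ZMod w')).factorization 2 = (orderOf (t : ZMod w)).factorization 2)
            rw [mem_filter, mem_range]
            exact ⟨hwY, hwp, hwl, rfl⟩
          · right
            rw [mem_filter, mem_range]
            refine ⟨hwY, hwp, ?_⟩
            have h4 : 2 ^ J ∣ w - 1 :=
              ((pow_dvd_pow 2 h3).trans (Nat.ordProj_dvd _ 2)).trans g2
            exact ((Nat.modEq_iff_dvd' hwp.one_lt.le).2 h4).symm
      have h5 := Finset.sum_le_sum_of_subset_of_nonneg (f := fun w : ℕ => ((w : ℝ))⁻¹) hsub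
        fun w _ _ => by positivity
      have hun : ∀ A B : Finset ℕ, ∑ w ∈ A ∪ B, ((w : ℝ))⁻¹ ≤
          ∑ w ∈ A, ((w : ℝ))⁻¹ + ∑ w ∈ B, ((w : ℝ))⁻¹ := by
        intro A B
        have h10 := Finset.sum_union_inter (s₁ := A) (s₂ := B) (f := fun w : ℕ => ((w : ℝ))⁻¹)
        have h11 : 0 ≤ ∑ w ∈ A ∩ B, ((w : ℝ))⁻¹ := Finset.sum_nonneg fun w _ => by positivity
        linarith
      have h6 : ∑ w ∈ (Ioo c0 J).biUnion (fun j => F j Y), ((w : ℝ))⁻¹ ≤ ∑ j ∈ Ioo c0 J, M j := by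
        have h7 : ∀ T : Finset ℕ, ∑ w ∈ T.biUnion (fun j => F j Y), ((w : ℝ))⁻¹ ≤
            ∑ j ∈ T, ∑ w ∈ F j Y, ((w : ℝ))⁻¹ := by
          intro T
          induction T using Finset.induction_on with
          | empty => simp
          | insert a T ha ih =>
            rw [Finset.biUnion_insert, Finset.sum_insert ha]
            exact (hun _ _).trans (add_le_add_right ih _)
        refine (h7 _).trans (Finset.sum_le_sum fun j hj => hM j hj Y)
      have h8 := hun (range (t + 1)) ((Ioo c0 J).biUnion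
          (fun j => F j Y) ∪ (range Y).filter (fun w => w.Prime ∧ w ≡ 1 [MOD 2 ^ J]))
      have h9 := hun ((Ioo c0 J).biUnion (fun j => F j Y))
        ((range Y).filter (fun w => w.Prime ∧ w ≡ 1 [MOD 2 ^ J]))
      linarith
    have htend : Filter.Tendsto (fun Y : ℕ => κ / 2 * Real.log (Real.log Y))
        Filter.atTop Filter.atTop :=
      (Real.tendsto_log_atTop.comp (Real.tendsto_log_atTop.comp
        tendsto_natCast_atTop_atTop)).const_mul_atTop (by positivity)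
    obtain ⟨Y, hY3, hY⟩ := ((Filter.eventually_ge_atTop 3).and
      (htend.eventually_gt_atTop (C + C3 + C2))).exists
    have := hall Y hY3
    linarith
  obtain ⟨j, hj, hunb⟩ := hunb
  refine ⟨j, (mem_Ioo.1 hj).1, fun z B => ?_⟩
  obtain ⟨Y, hY⟩ := hunb (B + ∑ w ∈ range (z + 1), ((w : ℝ))⁻¹)
  refine ⟨(F j Y).filter (fun w => z < w), ?_, ?_⟩
  · intro w hw
    rw [mem_filter, hF] at hw
    have h1 := mem_filter.1 hw.1
    exact ⟨h1.2.1, h1.2.2.1, hw.2, h1.2.2.2⟩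
  · have h1 := Finset.sum_filter_add_sum_filter_not (F j Y) (fun w => z < w)
      (fun w : ℕ => ((w : ℝ))⁻¹)
    have h2 : ∑ w ∈ (F j Y).filter (fun w => ¬ z < w), ((w : ℝ))⁻¹ ≤
        ∑ w ∈ range (z + 1), ((w : ℝ))⁻¹ := by
      refine Finset.sum_le_sum_of_subset_of_nonneg ?_ fun w _ _ => by positivity
      intro w hw
      rw [mem_filter] at hw
      rw [mem_range]
      omega
    linarith

end Pool.Agent.Lib.MP_79499b_co.QZ
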