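import Pool.Agent.Lib.MP_79499b_co.QZ.QA3
import Pool.Agent.Lib.MP_79499b_co.QZ.QT9
import Pool.Agent.Lib.MP_79499b_co.QZ.QT10

/-!
# QT11: `n = t q` with `t` fixed

`excl_fixed`: `s ≥ 2`, `t ≥ 2`, `j > v_2(2s)`; there is `z` such that for different primes `w1, w2 > z`, `v_2(ord_{w_i}(t)) = j`, a prime `q > t`, `n = t q`,
`w1 ∣ n^s + 1`, `w2 ∣ ∑ n^i`, `n` is not an order.
Proof: `excl_A` with `Y = t`, `B = gb s t (t q)`, which does not depend on `q > t` (`EO.sm t (t q) = t` since all primes dividing `t` are `≤ t < q`), `z = t^(B+1) + s + 2`: `OrdBig t B w` for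
`w > z`: a prime `p ≤ t` and `i ≤ B` give `0 < p^i - 1 < w`. The primes dividing `n` and `> t`: only `q`. Let `o_i` be the odd part of `w_i - 1`, `J = 2^(j-1) o_1 o_2`. Modulo `w_i`: `n^(2s) = 1`, so
`ord(n)` divides `gcd(2s, w_i - 1)`, whose 2-part divides `2^(j-1)` and whose odd part divides `o_i`: `n^J = 1`. `ord(t) = 2^j u`, `u` odd, `u ∣ o_i`: `t^(2^(j-1) u) = -1` (its square is 1 and it
is not 1, in the field `ZMod w_i`), and `J/(2^(j-1) u)` is an odd integer, so `t^J = -1`. `n^J = t^J q^J`, so `q^J = -1` modulo `w_1` and `w_2`: `w1 w2 ∣ q^J + 1`.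

`fixed_even`: `s ≥ 2`, `t ≥ 2`, `η > 0`, `x` large: at most `η x/log x` orders `n < x` are of the form `t q`, `q` prime.
Proof. `c0 = v_2(2s)`, `l = 2^(c0) so`.. take `l = 2 s ≥ 4`: `matched t (2s) c0` gives `j > c0`. Choose `B` with `(1 + 6 s (B+1)) exp(-B) ≤ η/4`, `z` from `excl_fixed` (also `z ≥ t, s`), `W` from `matched` with
`∑_W ≥ B`; remove elements until `∑_W 1/w ≤ B + 1` (each `1/w ≤ 1`). `w ≡ 1 mod 2s`: `2^(c0) ∣ w - 1`, `gcd(s, w-1) = s > 1`, `w ∤ t`. For an order `n = t q < x`, `q > t`: no pair in `W`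
(`excl_fixed`), and `q < x`: `prime_count2` with `η/4`. The `q ≤ t` are finitely many (a constant is `≤ (η/2) x/log x` for large `x`).
-/

set_option autoImplicit false

namespace Pool.Agent.Lib.MP_79499b_co.QZ

open Finset DZ
open scoped Classical

private theorem QT11_one {w s j J' t q : ℕ} (hw : w.Prime) (hj : (2 * s).factorization 2 < j)
    (hs : s ≠ 0) (hdvd : (w - 1) / 2 ^ (w - 1).factorization 2 ∣ J') (hJ' : Odd J')
    (hord : (orderOf (t : ZMod w)).factorization 2 = j)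
    (hn : ((t * q : ℕ) : ZMod w) ^ (2 * s) = 1) : w ∣ q ^ (2 ^ (j - 1) * J') + 1 := by
  have : Fact w.Prime := ⟨hw⟩
  have hw1 : w - 1 ≠ 0 := by
    have := hw.two_le
    omega
  obtain ⟨n, hndef⟩ : ∃ n : ZMod w, n = ((t * q : ℕ) : ZMod w) := ⟨_, rfl⟩
  rw [← hndef] at hn
  have hn0 : n ≠ 0 := by
    rintro rfl
    rw [zero_pow (by omega)] at hn
    exact zero_ne_one hn
  have ht0 : (t : ZMod w) ≠ 0 := by
    intro h
    apply hn0
    rw [hndef, Nat.cast_mul, h, zero_mul]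
  -- a divisor of `w - 1` with small 2-part
  have key : ∀ D : ℕ, D ∣ w - 1 → D / 2 ^ D.factorization 2 ∣ J' := by
    intro D hD
    exact (Nat.ordCompl_dvd_ordCompl_of_dvd hD 2).trans hdvd
  have hn1 : n ^ (2 ^ (j - 1) * J') = 1 := by
    have d1 : orderOf n ∣ 2 * s := orderOf_dvd_of_pow_eq_one hn
    have d2 : orderOf n ∣ w - 1 := orderOf_dvd_of_pow_eq_one (ZMod.pow_card_sub_one_eq_one hn0)
    have d3 : orderOf n ∣ 2 ^ (j - 1) * J' := by
      have h1 : (orderOf n).factorization 2 ≤ j - 1 := by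
        have h2 : (orderOf n).factorization ≤ (2 * s).factorization :=
          (Nat.factorization_le_iff_dvd (by
            intro h0
            rw [h0] at d1
            have := Nat.eq_zero_of_zero_dvd d1
            omega) (by omega)).2 d1
        have h3 := h2 2
        omega
      rw [← Nat.ordProj_mul_ordCompl_eq_self (orderOf n) 2]
      exact Nat.mul_dvd_mul (pow_dvd_pow 2 h1) (key _ d2)
    exact orderOf_dvd_iff_pow_eq_one.1 d3
  have ht1 : (t : ZMod w) ^ (2 ^ (j - 1) * J') = -1 := by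
    have d2 : orderOf (t : ZMod w) ∣ w - 1 :=
      orderOf_dvd_of_pow_eq_one (ZMod.pow_card_sub_one_eq_one ht0)
    obtain ⟨D, hD⟩ : ∃ D : ℕ, D = orderOf (t : ZMod w) := ⟨_, rfl⟩
    rw [← hD] at d2 hord
    have hD0 : D ≠ 0 := by
      intro h0
      rw [h0] at d2
      exact hw1 (Nat.eq_zero_of_zero_dvd d2)
    obtain ⟨u, hu⟩ : ∃ u : ℕ, u = D / 2 ^ D.factorization 2 := ⟨_, rfl⟩
    have hDu : 2 ^ j * u = D := by
      have := Nat.ordProj_mul_ordCompl_eq_self D 2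
      rw [← hu, hord] at this
      exact this
    have hu0 : 0 < u := by
      rcases Nat.eq_zero_or_pos u with h | h
      · rw [h, mul_zero] at hDu
        exact absurd hDu.symm hD0
      · exact h
    obtain ⟨r, hr⟩ : u ∣ J' := by
      rw [hu]
      exact key _ d2
    have hrodd : Odd r := by
      rw [hr] at hJ'
      exact (Nat.odd_mul.1 hJ').2
    obtain ⟨y, hy⟩ : ∃ y : ZMod w, y = (t : ZMod w) ^ (2 ^ (j - 1) * u) := ⟨_, rfl⟩
    have hj1 : 2 ^ j = 2 * 2 ^ (j - 1) := by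
      rw [← pow_succ']
      congr 1
      omega
    have hyy : y * y = 1 := by
      rw [hy, ← pow_add]
      have : 2 ^ (j - 1) * u + 2 ^ (j - 1) * u = D := by
        rw [← hDu, hj1]
        ring
      rw [this, hD]
      exact pow_orderOf_eq_one _
    have hy1 : y ≠ 1 := by
      intro h
      rw [hy] at h
      have h1 := orderOf_dvd_of_pow_eq_one h
      rw [← hD, ← hDu] at h1
      have h2 := Nat.le_of_dvd (Nat.mul_pos (by positivity) hu0) h1
      rw [hj1] at h2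
      have h3 : 0 < 2 ^ (j - 1) * u := Nat.mul_pos (by positivity) hu0
      nlinarith
    have hym : y = -1 := (mul_self_eq_one_iff.1 hyy).resolve_left hy1
    rw [hr, ← mul_assoc, pow_mul, ← hy, hym]
    exact hrodd.neg_one_pow
  rw [← ZMod.natCast_eq_zero_iff]
  push_cast
  rw [hndef, Nat.cast_mul, mul_pow, ht1] at hn1
  linear_combination -hn1

private theorem QT11_mf {α : Type} (p : α → Prop) (inst : DecidablePred p) (S : Finset α) (a : α) :
    a ∈ @Finset.filter α p inst S ↔ a ∈ S ∧ p a := Finset.mem_filter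

private theorem QT11_odd {w : ℕ} (hw : 2 < w) : Odd ((w - 1) / 2 ^ (w - 1).factorization 2) := by
  rw [← Nat.not_even_iff_odd, even_iff_two_dvd]
  exact Nat.not_dvd_ordCompl Nat.prime_two (by omega)

private theorem QT11_sm {t q : ℕ} (ht : t ≠ 0) (hq : q.Prime) (htq : t < q) :
    EO.sm t (t * q) = t := by
  unfold EO.sm
  have h1 : (t * q).primeFactors.filter (fun p => p ≤ t) = t.primeFactors := by
    rw [Nat.primeFactors_mul ht hq.ne_zero, hq.primeFactors]
    ext p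
    rw [mem_filter, mem_union, mem_singleton]
    constructor
    · rintro ⟨h | h, h2⟩
      · exact h
      · omega
    · intro h
      exact ⟨Or.inl h, Nat.le_of_dvd (Nat.pos_of_ne_zero ht) (Nat.dvd_of_mem_primeFactors h)⟩
  rw [h1]
  have h2 : ∀ p ∈ t.primeFactors, p ^ (t * q).factorization p = p ^ t.factorization p := by
    intro p hp
    have h3 : p ≤ t := Nat.le_of_dvd (Nat.pos_of_ne_zero ht) (Nat.dvd_of_mem_primeFactors hp)
    rw [Nat.factorization_mul ht hq.ne_zero, Finsupp.add_apply, hq.factorization,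
      Finsupp.single_apply, if_neg (by omega), add_zero]
  rw [Finset.prod_congr rfl h2]
  exact Nat.prod_factorization_pow_eq_self ht

theorem excl_fixed (s t j : ℕ) (hs : 2 ≤ s) (ht : 2 ≤ t) (hj : (2 * s).factorization 2 < j) :
    ∃ z : ℕ, ∀ w1 w2 q : ℕ, w1.Prime → w2.Prime → w1 ≠ w2 → z < w1 → z < w2 → q.Prime → t < q →
      (orderOf (t : ZMod w1)).factorization 2 = j → (orderOf (t : ZMod w2)).factorization 2 = j →
      w1 ∣ (t * q) ^ s + 1 → w2 ∣ ∑ i ∈ range s, (t * q) ^ i → ¬ NilOrder (t * q) (2 * s) := by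
  obtain ⟨B, hB⟩ : ∃ B : ℕ, B = (t ^ (2 * (s - 1))) ^ 2 ^ t.primeFactors.card := ⟨_, rfl⟩
  refine ⟨t ^ (B + 1) + s + 2, fun w1 w2 q hw1 hw2 hne hz1 hz2 hq htq ho1 ho2 d1 d2 => ?_⟩
  have ht0 : t ≠ 0 := by omega
  have hgb : gb s t (t * q) ≤ B := by
    unfold gb
    rw [QT11_sm ht0 hq htq, hB]
  have htB : t ≤ t ^ (B + 1) := Nat.le_self_pow (by omega) t
  have hOB : ∀ w : ℕ, t ^ (B + 1) + s + 2 < w → OrdBig t B w := by
    intro w hw p hp hpt i hi1 hi2 hdvd
    have h1 : 2 ≤ p := hp.two_le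
    have h2 : 2 ≤ p ^ i := h1.trans (Nat.le_self_pow (by omega) p)
    have h3 := Nat.le_of_dvd (by omega) hdvd
    have h4 : p ^ i ≤ t ^ (B + 1) :=
      (Nat.pow_le_pow_left hpt i).trans (Nat.pow_le_pow_right (by omega) (by omega))
    omega
  refine excl_A hs (Nat.mul_ne_zero ht0 hq.ne_zero) hw1 hw2 hne (by omega) (by omega)
    (by omega) (by omega) hgb (hOB w1 hz1) (hOB w2 hz2) d1 d2 ?_
  intro p hp hpd htp
  have hpq : p = q := by
    rcases (Nat.Prime.dvd_mul hp).1 hpd with h | h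
    · have := Nat.le_of_dvd (by omega) h
      omega
    · exact (Nat.prime_dvd_prime_iff_eq hp hq).1 h
  subst hpq
  refine ⟨2 ^ (j - 1) * (((w1 - 1) / 2 ^ (w1 - 1).factorization 2) *
    ((w2 - 1) / 2 ^ (w2 - 1).factorization 2)), ?_⟩
  have hodd := (QT11_odd (w := w1) (by omega)).mul (QT11_odd (w := w2) (by omega))
  have hn1 : ((t * p : ℕ) : ZMod w1) ^ (2 * s) = 1 := by
    have h1 : (((t * p) ^ s + 1 : ℕ) : ZMod w1) = 0 := (ZMod.natCast_eq_zero_iff _ _).2 d1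
    rw [Nat.cast_add, Nat.cast_one, Nat.cast_pow] at h1
    have h2 : ((t * p : ℕ) : ZMod w1) ^ s = -1 := by linear_combination h1
    rw [mul_comm 2 s, pow_mul, h2]
    ring
  have hn2 : ((t * p : ℕ) : ZMod w2) ^ (2 * s) = 1 := by
    have h1 : ((∑ i ∈ range s, (t * p) ^ i : ℕ) : ZMod w2) = 0 :=
      (ZMod.natCast_eq_zero_iff _ _).2 d2
    rw [Nat.cast_sum] at h1
    have h3 := geom_sum_mul ((t * p : ℕ) : ZMod w2) s
    have h4 : ∑ i ∈ range s, ((t * p : ℕ) : ZMod w2) ^ i = 0 := by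
      rw [← h1]
      exact Finset.sum_congr rfl fun i _ => (Nat.cast_pow _ _).symm
    rw [h4, zero_mul] at h3
    have h2 : ((t * p : ℕ) : ZMod w2) ^ s = 1 := by linear_combination -h3
    rw [mul_comm 2 s, pow_mul, h2]
    ring
  have e1 := QT11_one hw1 hj (by omega) (dvd_mul_right _ _) hodd ho1 hn1
  have e2 := QT11_one hw2 hj (by omega) (dvd_mul_left _ _) hodd ho2 hn2
  exact Nat.Coprime.mul_dvd_of_dvd_of_dvd ((Nat.coprime_primes hw1 hw2).2 hne) e1 e2

/-- a subset with the sum in `[B, B+1]` -/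
private theorem QT11_sub (W : Finset ℕ) (B : ℝ) (hB0 : 0 ≤ B)
    (hB : B ≤ ∑ w ∈ W, ((w : ℝ))⁻¹) :
    ∃ W' ⊆ W, B ≤ ∑ w ∈ W', ((w : ℝ))⁻¹ ∧ ∑ w ∈ W', ((w : ℝ))⁻¹ ≤ B + 1 := by
  induction W using Finset.induction_on with
  | empty =>
    refine ⟨∅, Finset.Subset.refl _, hB, ?_⟩
    rw [Finset.sum_empty]
    linarith
  | insert a W ha ih =>
    by_cases h : B ≤ ∑ w ∈ W, ((w : ℝ))⁻¹
    · obtain ⟨W', h1, h2, h3⟩ := ih h
      exact ⟨W', h1.trans (Finset.subset_insert _ _), h2, h3⟩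
    · refine ⟨insert a W, Finset.Subset.refl _, hB, ?_⟩
      push Not at h
      rw [Finset.sum_insert ha]
      have h1 : ((a : ℝ))⁻¹ ≤ 1 := Nat.cast_inv_le_one a
      linarith

private theorem QT11_B (s : ℕ) (η : ℝ) (hη : 0 < η) : ∃ B : ℝ, 0 ≤ B ∧
    (1 + 6 * s * (B + 1)) * Real.exp (-B) ≤ η / 4 := by
  have h1 := Real.tendsto_pow_mul_exp_neg_atTop_nhds_zero 1
  have h0 := Real.tendsto_pow_mul_exp_neg_atTop_nhds_zero 0
  have h2 : Filter.Tendsto (fun B : ℝ => (1 + 6 * (s : ℝ)) * (B ^ 0 * Real.exp (-B)) +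
      6 * s * (B ^ 1 * Real.exp (-B))) Filter.atTop (nhds ((1 + 6 * (s : ℝ)) * 0 + 6 * s * 0)) :=
    (h0.const_mul _).add (h1.const_mul _)
  rw [mul_zero, mul_zero, add_zero] at h2
  have h3 : ∀ᶠ B : ℝ in Filter.atTop, (1 + 6 * (s : ℝ)) * (B ^ 0 * Real.exp (-B)) +
      6 * s * (B ^ 1 * Real.exp (-B)) < η / 4 := h2.eventually_lt_const (by positivity)
  obtain ⟨B, hB0, hB⟩ := ((Filter.eventually_ge_atTop (0 : ℝ)).and h3).exists
  refine ⟨B, hB0, le_trans (le_of_eq ?_) hB.le⟩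
  ring

theorem fixed_even (s t : ℕ) (hs : 2 ≤ s) (ht : 2 ≤ t) (η : ℝ) (hη : 0 < η) :
    ∃ x0 : ℕ, ∀ x : ℕ, x0 ≤ x →
      cnt x (fun n => NilOrder n (2 * s) ∧ ∃ q : ℕ, q.Prime ∧ n = t * q) ≤
        η * (x / Real.log x) := by
  obtain ⟨j, hj, hmat⟩ := matched t (2 * s) ((2 * s).factorization 2) ht (by omega)
  obtain ⟨z, hz⟩ := excl_fixed s t j hs ht hj
  obtain ⟨B, hB0, hB⟩ := QT11_B s η hη
  obtain ⟨W0, hW0, hW0B⟩ := hmat (z + t + s) B
  obtain ⟨W, hWsub, hWB1, hWB2⟩ := QT11_sub W0 B hB0 hW0B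
  have hW : ∀ w ∈ W, w.Prime ∧ s < w ∧ ¬ w ∣ t ∧ 2 ^ (2 * s).factorization 2 ∣ w - 1 ∧
      1 < Nat.gcd s (w - 1) := by
    intro w hw
    obtain ⟨h1, h2, h3, -⟩ := hW0 w (hWsub hw)
    have h4 : 2 * s ∣ w - 1 := by
      rw [← Nat.modEq_iff_dvd' h1.one_lt.le]
      show 1 % (2 * s) = w % (2 * s)
      rw [h2, Nat.mod_eq_of_lt (by omega)]
    refine ⟨h1, by omega, fun h => ?_, (Nat.ordProj_dvd _ 2).trans h4, ?_⟩
    · have := Nat.le_of_dvd (by omega) h
      omega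
    · rw [Nat.gcd_eq_left ((Dvd.intro_left 2 rfl : s ∣ 2 * s).trans h4)]
      omega
  obtain ⟨x1, hx1⟩ := prime_count2 s t hs (by omega) W hW B hB0 hWB1 hWB2 (η / 4) (by positivity)
  -- the constant
  have hlim : Filter.Tendsto (fun x : ℕ => (x : ℝ) / Real.log x) Filter.atTop Filter.atTop := by
    have h1 : Filter.Tendsto (fun y : ℝ => y / Real.log y) Filter.atTop Filter.atTop := by
      have h2 := (Real.isLittleO_log_id_atTop).tendsto_div_nhds_zero
      have h3 : Filter.Tendsto (fun y : ℝ => (Real.log y / id y)⁻¹) Filter.atTop Filter.atTop := by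
        apply Filter.Tendsto.inv_tendsto_nhdsGT_zero
        rw [tendsto_nhdsWithin_iff]
        refine ⟨h2, ?_⟩
        filter_upwards [Filter.eventually_gt_atTop (1 : ℝ)] with y hy
        exact div_pos (Real.log_pos hy) (by simpa using (by linarith : (0 : ℝ) < y))
      refine h3.congr fun y => ?_
      rw [inv_div]
      rfl
    exact h1.comp tendsto_natCast_atTop_atTop
  obtain ⟨x2, hx2⟩ := Filter.eventually_atTop.mp
    (hlim.eventually_ge_atTop (((t : ℝ) + 1) * (2 / η)))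
  refine ⟨max x1 x2, fun x hx => ?_⟩
  have g1 := hx1 x ((le_max_left _ _).trans hx)
  have g2 := hx2 x ((le_max_right _ _).trans hx)
  obtain ⟨G, hG⟩ : ∃ G : Finset ℕ, G = (range x).filter (fun q => q.Prime ∧
    ¬ ∃ w1 ∈ W, ∃ w2 ∈ W, w1 ≠ w2 ∧ w1 ∣ (t * q) ^ s + 1 ∧
      w2 ∣ ∑ i ∈ range s, (t * q) ^ i) := ⟨_, rfl⟩
  rw [← hG] at g1
  have hsub : ∀ n : ℕ, (n ∈ range x ∧ NilOrder n (2 * s) ∧ ∃ q : ℕ, q.Prime ∧ n = t * q) →
      n ∈ (range (t + 1) ∪ G).image (fun q => t * q) := by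
    intro n hn
    rw [mem_range] at hn
    obtain ⟨hnx, hnil, q, hq, rfl⟩ := hn
    rw [mem_image]
    refine ⟨q, ?_, rfl⟩
    rw [mem_union, mem_range]
    rcases Nat.lt_or_ge q (t + 1) with h | h
    · exact Or.inl h
    · right
      rw [hG, mem_filter, mem_range]
      refine ⟨lt_of_le_of_lt (Nat.le_mul_of_pos_left q (by omega)) hnx, hq, ?_⟩
      rintro ⟨w1, hw1, w2, hw2, hne, d1, d2⟩
      obtain ⟨a1, -, a3, a4⟩ := hW0 w1 (hWsub hw1)
      obtain ⟨b1, -, b3, b4⟩ := hW0 w2 (hWsub hw2)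
      exact hz w1 w2 q a1 b1 hne (by omega) (by omega) hq (by omega) a4 b4 d1 d2 hnil
  have hcard : cnt x (fun n => NilOrder n (2 * s) ∧ ∃ q : ℕ, q.Prime ∧ n = t * q) ≤
      ((t : ℝ) + 1) + G.card := by
    unfold cnt
    refine le_trans (Nat.cast_le.2 (((card_le_card fun n hn =>
      hsub n ((QT11_mf _ _ _ _).1 hn)).trans card_image_le).trans (card_union_le _ _))) ?_
    rw [card_range]
    push_cast
    exact le_refl _
  have h5 : ((t : ℝ) + 1) ≤ η / 2 * (x / Real.log x) := by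
    have h6 := mul_le_mul_of_nonneg_left g2 (show 0 ≤ η / 2 by positivity)
    have h7 : η / 2 * (((t : ℝ) + 1) * (2 / η)) = (t : ℝ) + 1 := by
      field_simp
    linarith
  have h0 : 0 ≤ (x : ℝ) / Real.log x := by
    have := Real.log_natCast_nonneg x
    positivity
  have h8 : ((1 + 6 * s * (B + 1)) * Real.exp (-B) + η / 4) * (x / Real.log x) ≤
      η / 2 * (x / Real.log x) := mul_le_mul_of_nonneg_right (by linarith) h0
  linarith

end Pool.Agent.Lib.MP_79499b_co.QZ
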