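import Pool.Agent.Lib.MP_79499b_co.QZ.QA3
import Pool.Agent.Lib.MP_79499b_co.QZ.QT1
import Pool.Agent.Lib.MP_79499b_co.EO.S2

/-!
# QT6: a pair excludes orders with a good cofactor

`cof_excl`: `s ≥ 2`, `x` large, `GoodCof s D x m`, `n = m p`, `p` prime, `p > zD D x`, `PairT s D x m n`. Then `n` is not an order (nilpotent groups).

Proof: `excl_A` (QA3) with `Y = zD D x`, `B = B2 x`. `w1, w2 ∈ WM`: primes `> exp L^(1/10) > zD, 2^cb + 1`, `OrdBig (zD D x) (B2 x) w_i`. Primes `q ∣ n`,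
`q > zD`: `q = p` (the primes of `m` are `≤ zD`), and `w1 w2 ∣ p^j + 1` by `semi_w`. `gb s (zD D x) n ≤ B2 x`: `EO.sm (zD D x) n = m` (`n = m p`, `p > zD`, primes of
`m` are `≤ zD`), `gb = (m^(2(s-1)))^(2^ω(m))`, `log gb ≤ 2 (s-1) LL^2 2^(LL/40) = 2 (s-1) LL^2 L^(log 2/40) ≤ L^(1/20) - 1` for large `x` (`log 2/40 < 1/50`),
and `⌊exp(L^(1/20))⌋ ≥ exp(L^(1/20) - 1)`.
-/

set_option autoImplicit false

namespace Pool.Agent.Lib.MP_79499b_co.QZ

open Finset DZ

private theorem qt6_n1 (D : ℕ) (N : ℝ) : ∀ᶠ L : ℝ in Filter.atTop,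
    L ^ D < Real.exp (L ^ (1 / 10 : ℝ)) ∧ N < Real.exp (L ^ (1 / 10 : ℝ)) := by
  have h1 : Filter.Tendsto (fun L : ℝ => L ^ (1 / 10 : ℝ)) Filter.atTop Filter.atTop :=
    tendsto_rpow_atTop (by norm_num)
  have h2 := (Real.tendsto_exp_div_pow_atTop (10 * D)).comp h1
  have h3 := (Real.tendsto_exp_atTop).comp h1
  filter_upwards [h2.eventually_gt_atTop 1, h3.eventually_gt_atTop N,
    Filter.eventually_ge_atTop (1 : ℝ)] with L e1 e2 e3
  simp only [Function.comp] at e1 e2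
  refine ⟨?_, e2⟩
  have hL0 : 0 < L := by linarith
  have h4 : (L ^ (1 / 10 : ℝ)) ^ (10 * D) = L ^ D := by
    rw [← Real.rpow_natCast, ← Real.rpow_mul hL0.le, ← Real.rpow_natCast L D]
    congr 1
    push_cast
    ring
  rw [h4, lt_div_iff₀ (by positivity), one_mul] at e1
  exact e1

private theorem qt6_n2 (C : ℝ) : ∀ᶠ t : ℝ in Filter.atTop,
    C * t ^ 2 * Real.exp (t / 50) ≤ Real.exp (t / 20) := by
  have h1 : Filter.Tendsto (fun t : ℝ => 3 / 100 * t) Filter.atTop Filter.atTop :=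
    Filter.Tendsto.const_mul_atTop (by norm_num) Filter.tendsto_id
  have h2 := (Real.tendsto_exp_div_pow_atTop 2).comp h1
  filter_upwards [h2.eventually_ge_atTop (C * (100 / 3) ^ 2), Filter.eventually_ge_atTop (1 : ℝ)]
    with t e1 e2
  simp only [Function.comp] at e1
  have h3 : 0 < (3 / 100 * t) ^ 2 := by positivity
  rw [le_div_iff₀ h3] at e1
  have h4 : C * (100 / 3) ^ 2 * (3 / 100 * t) ^ 2 = C * t ^ 2 := by ring
  rw [h4] at e1
  have h5 : Real.exp (t / 20) = Real.exp (3 / 100 * t) * Real.exp (t / 50) := by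
    rw [← Real.exp_add]
    congr 1
    ring
  rw [h5]
  exact mul_le_mul_of_nonneg_right e1 (Real.exp_pos _).le

/-- the smooth part of `m p` -/
private theorem qt6_sm {Y m p : ℕ} (hm : m ≠ 0) (hp : p.Prime) (hY : Y < p)
    (h : ∀ q : ℕ, q.Prime → q ∣ m → q ≤ Y) : EO.sm Y (m * p) = m := by
  have h1 : (m * p).primeFactors.filter (fun q => q ≤ Y) = m.primeFactors := by
    ext q
    rw [mem_filter, Nat.mem_primeFactors, Nat.mem_primeFactors]
    constructor
    · rintro ⟨⟨hq, hd, -⟩, hqY⟩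
      refine ⟨hq, ?_, hm⟩
      rcases hq.dvd_mul.mp hd with h2 | h2
      · exact h2
      · have := (Nat.prime_dvd_prime_iff_eq hq hp).mp h2
        omega
    · rintro ⟨hq, hd, -⟩
      exact ⟨⟨hq, hd.mul_right p, mul_ne_zero hm hp.ne_zero⟩, h q hq hd⟩
  unfold EO.sm
  rw [h1]
  have h2 : ∏ q ∈ m.primeFactors, q ^ (m * p).factorization q =
      ∏ q ∈ m.primeFactors, q ^ m.factorization q := by
    apply prod_congr rfl
    intro q hq
    rw [Nat.mem_primeFactors] at hq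
    have hqY := h q hq.1 hq.2.1
    rw [Nat.factorization_mul hm hp.ne_zero]
    have h3 : p.factorization q = 0 := by
      apply Nat.factorization_eq_zero_of_not_dvd
      intro hd
      have := (Nat.prime_dvd_prime_iff_eq hq.1 hp).mp hd
      omega
    rw [Finsupp.add_apply, h3, add_zero]
  rw [h2]
  exact Nat.prod_factorization_pow_eq_self hm

private theorem qt6_wm {s D x m w : ℕ} (h : w ∈ WM s D x m) : w.Prime ∧
    Real.exp (Real.log x ^ (1 / 10 : ℝ)) < w ∧ w ≡ hh s [MOD MM s] ∧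
    ¬ IsSquare (m : ZMod w) ∧ OrdBig (zD D x) (B2 x) w := by
  simp only [WM, mem_filter] at h
  obtain ⟨h1, h2, h3, h4⟩ := h
  unfold RQ at h1
  rw [mem_biUnion] at h1
  obtain ⟨i, hi, hw⟩ := h1
  rw [mem_Bl] at hw
  simp only [II, mem_filter] at hi
  refine ⟨hw.2, ?_, h2, h3, h4⟩
  have h5 : ((2 : ℝ)) ^ i < w := by exact_mod_cast hw.1.1
  linarith [hi.2.1]

/-- the bound for the orbits -/
private theorem qt6_gb {s x m : ℕ} (hm : m ≠ 0) (hmL : (m : ℝ) ≤ Real.exp (LL x ^ 2))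
    (hω : (m.primeFactors.card : ℝ) ≤ LL x / 40) (hL : 1 ≤ Real.log x)
    (hn : 2 * (s : ℝ) * LL x ^ 2 * Real.exp (LL x / 50) ≤ Real.exp (LL x / 20)) :
    (m ^ (2 * (s - 1))) ^ 2 ^ m.primeFactors.card ≤ B2 x := by
  unfold B2
  apply Nat.le_floor
  have hexp : Real.log x = Real.exp (LL x) := by
    unfold LL
    rw [Real.exp_log (by linarith)]
  have hpow : Real.log x ^ (1 / 20 : ℝ) = Real.exp (LL x / 20) := by
    rw [hexp, ← Real.exp_mul]
    congr 1
    ring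
  rw [hpow]
  have hω0 : (0 : ℝ) ≤ (m.primeFactors.card : ℝ) := Nat.cast_nonneg _
  have h2ω : (2 : ℝ) ^ m.primeFactors.card ≤ Real.exp (LL x / 50) := by
    have h1 : (2 : ℝ) ^ m.primeFactors.card =
        Real.exp (m.primeFactors.card * Real.log 2) := by
      rw [Real.exp_nat_mul, Real.exp_log (by norm_num)]
    rw [h1]
    apply Real.exp_le_exp.2
    have h2 := Real.log_two_lt_d9
    have h3 : (m.primeFactors.card : ℝ) * Real.log 2 ≤ (m.primeFactors.card : ℝ) * (4 / 5) :=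
      mul_le_mul_of_nonneg_left (by linarith) hω0
    linarith
  have hm1 : (0 : ℝ) ≤ m := Nat.cast_nonneg _
  push_cast
  calc (((m : ℝ) ^ (2 * (s - 1))) ^ 2 ^ m.primeFactors.card)
      ≤ ((Real.exp (LL x ^ 2)) ^ (2 * (s - 1))) ^ 2 ^ m.primeFactors.card := by
        apply pow_le_pow_left₀ (by positivity)
        exact pow_le_pow_left₀ hm1 hmL _
    _ = Real.exp (((2 * (s - 1) : ℕ) : ℝ) * ((2 : ℝ) ^ m.primeFactors.card) * LL x ^ 2) := by
        rw [← pow_mul, ← Real.exp_nat_mul]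
        congr 1
        push_cast
        ring
    _ ≤ Real.exp (Real.exp (LL x / 20)) := by
        apply Real.exp_le_exp.2
        refine le_trans ?_ hn
        have h4 : ((2 * (s - 1) : ℕ) : ℝ) ≤ 2 * (s : ℝ) := by
          have : 2 * (s - 1) ≤ 2 * s := by omega
          exact_mod_cast this
        calc ((2 * (s - 1) : ℕ) : ℝ) * ((2 : ℝ) ^ m.primeFactors.card) * LL x ^ 2
            ≤ (2 * (s : ℝ)) * Real.exp (LL x / 50) * LL x ^ 2 := by
              apply mul_le_mul_of_nonneg_right _ (sq_nonneg _)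
              exact mul_le_mul h4 h2ω (by positivity) (by positivity)
          _ = 2 * (s : ℝ) * LL x ^ 2 * Real.exp (LL x / 50) := by ring

theorem cof_excl (s D : ℕ) (hs : 2 ≤ s) : ∃ x0 : ℕ, ∀ x : ℕ, x0 ≤ x → ∀ m p n : ℕ,
    GoodCof s D x m → n = m * p → p.Prime → zD D x < p → PairT s D x m n →
    ¬ NilOrder n (2 * s) := by
  obtain ⟨x1, h1⟩ := Filter.eventually_atTop.mp
    ((log_tend.eventually (qt6_n1 D (2 ^ cb s + 1))).and
      ((LL_tend.eventually (qt6_n2 (2 * (s : ℝ)))).and (log_tend.eventually_ge_atTop 1)))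
  refine ⟨x1, fun x hx m p n hG hn hp hpz hP => ?_⟩
  obtain ⟨⟨e1, e2⟩, e3, e4⟩ := h1 x hx
  obtain ⟨hm0, hmL, hmz, hω, -⟩ := hG
  obtain ⟨w1, hw1, w2, hw2, hne, d1, d2⟩ := hP
  obtain ⟨a1, a2, a3, a4, a5⟩ := qt6_wm hw1
  obtain ⟨b1, b2, b3, b4, b5⟩ := qt6_wm hw2
  have hzD : ((zD D x : ℕ) : ℝ) ≤ Real.log x ^ D := by
    unfold zD
    exact Nat.floor_le (by positivity)
  have hz1 : zD D x < w1 := by
    have : ((zD D x : ℕ) : ℝ) < w1 := by linarith
    exact_mod_cast this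
  have hz2 : zD D x < w2 := by
    have : ((zD D x : ℕ) : ℝ) < w2 := by linarith
    exact_mod_cast this
  have hc1 : 2 ^ cb s + 1 < w1 := by
    have : ((2 : ℝ)) ^ cb s + 1 < w1 := by linarith
    exact_mod_cast this
  have hc2 : 2 ^ cb s + 1 < w2 := by
    have : ((2 : ℝ)) ^ cb s + 1 < w2 := by linarith
    exact_mod_cast this
  have hcb : 1 ≤ 2 ^ cb s := Nat.one_le_two_pow
  have hsm : EO.sm (zD D x) n = m := by
    rw [hn]
    exact qt6_sm hm0 hp hpz hmz
  have hgb : gb s (zD D x) n ≤ B2 x := by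
    unfold gb
    rw [hsm]
    exact qt6_gb hm0 hmL hω e4 e3
  refine excl_A (Y := zD D x) (B := B2 x) hs ?_ a1 b1 hne (by omega) (by omega) hz1 hz2 hgb a5 b5
    d1 d2 ?_
  · rw [hn]
    exact mul_ne_zero hm0 hp.ne_zero
  · intro q hq hqn hqz
    rw [hn] at hqn
    rcases hq.dvd_mul.mp hqn with h2 | h2
    · exact absurd (hmz q hq h2) (not_le.2 hqz)
    · rw [(Nat.prime_dvd_prime_iff_eq hq hp).mp h2]
      exact semi_w s w1 w2 n m p (by omega) a1 b1 hne a3 b3 hc1 hc2 d1 d2 hn a4 b4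

end Pool.Agent.Lib.MP_79499b_co.QZ
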