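import Pool.Agent.Lib.MP_79499b_co.QZ.QT5
import Pool.Agent.Lib.MP_79499b_co.QZ.QT6

/-!
# QT7: the orders with a good cofactor are rare

`good_cof_few`: `s ≥ 2`, `x` large: the number of orders `n < x` (nilpotent groups, dimension `2s`), `n = m p`, `p > exp(L/2)`.. (every prime `p` here), `GoodCof m`, is at most
`x exp(-(1 + 1/(7 φ(MM s))) LL)`.

Proof. `m ≤ exp LL^2`. Those with `p ≤ exp(L/2) = x^(1/2)` have `n ≤ exp(LL^2) x^(1/2)`: negligible. For `p > x^(1/2)`, fixed `m`: `p < X := x/m + 1`, `X ≥ p > exp(L/2)`, `X ≤ x`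
(for `m = 1`.. `m ≥ 2` because `a ≠ 1`, so `X ≤ x/2 + 1 ≤ x`), `X ≤ 2x/m`; `p` has no prime factor `≤ exp L^(th2) < x^(1/2)`; `p > zD`, so by `cof_excl` there is no `PairT`. `cof_sieve`: at most
`(2x/m) exp(-(1 + 1/(6φ)) LL)`. Sum over `m ≤ exp LL^2`: `∑ 1/m ≤ 1 + LL^2`.
-/

set_option autoImplicit false

namespace Pool.Agent.Lib.MP_79499b_co.QZ

open Finset DZ
open scoped Classical

private theorem QT7_harm (y : ℝ) (hy : 1 ≤ y) :
    ∑ w ∈ Finset.Icc 1 ⌊y⌋₊, (1 : ℝ) / (w : ℝ) ≤ 1 + Real.log y := by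
  have h1 := harmonic_le_one_add_log ⌊y⌋₊
  rw [harmonic_eq_sum_Icc] at h1
  push_cast at h1
  have h2 : 0 < ⌊y⌋₊ := Nat.floor_pos.2 hy
  have h3 : Real.log ((⌊y⌋₊ : ℕ) : ℝ) ≤ Real.log y :=
    Real.log_le_log (by exact_mod_cast h2) (Nat.floor_le (by linarith))
  have h4 : ∑ w ∈ Finset.Icc 1 ⌊y⌋₊, (1 : ℝ) / (w : ℝ) = ∑ w ∈ Finset.Icc 1 ⌊y⌋₊, ((w : ℝ))⁻¹ :=
    Finset.sum_congr rfl fun w _ => one_div _
  rw [h4]
  linarith

private theorem QT7_ev (C δ : ℝ) (hδ : 0 < δ) :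
    ∀ᶠ t : ℝ in Filter.atTop, C * t ^ 2 ≤ Real.exp (δ * t) := by
  have h := (isLittleO_pow_exp_pos_mul_atTop 2 hδ).bound
    (show (0 : ℝ) < 1 / (|C| + 1) by positivity)
  filter_upwards [h, Filter.eventually_ge_atTop 0] with t h1 h2
  rw [Real.norm_eq_abs, abs_of_nonneg (by positivity), Real.norm_eq_abs,
    abs_of_pos (Real.exp_pos _)] at h1
  calc C * t ^ 2 ≤ (|C| + 1) * t ^ 2 := by
        gcongr
        linarith [le_abs_self C]
    _ ≤ (|C| + 1) * (1 / (|C| + 1) * Real.exp (δ * t)) := by gcongr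
    _ = Real.exp (δ * t) := by
        have : |C| + 1 ≠ 0 := by positivity
        field_simp

private theorem QT7_one (x m : ℕ) (hm : 1 ≤ m) (P Q : ℕ → Prop)
    (h : ∀ n, n < x → P n → ∃ p, n = m * p ∧ Q p) : cnt x P ≤ cnt (x / m + 1) Q := by
  unfold EO.cnt
  refine Nat.cast_le.mpr ?_
  refine (card_le_card ?_).trans (card_image_le (f := fun p => m * p))
  intro n hn
  rw [mem_filter, mem_range] at hn
  obtain ⟨hnx, hP⟩ := hn
  obtain ⟨p, rfl, hQ⟩ := h n hnx hP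
  rw [mem_image]
  refine ⟨p, ?_, rfl⟩
  rw [mem_filter, mem_range]
  refine ⟨?_, hQ⟩
  have : p ≤ x / m := (Nat.le_div_iff_mul_le (by omega)).2 (by rw [mul_comm]; exact hnx.le)
  omega

private theorem QT7_small (x : ℕ) (B : ℝ) (hB : 0 ≤ B) (P : ℕ → Prop)
    (h : ∀ n, P n → 1 ≤ n ∧ (n : ℝ) ≤ B) : cnt x P ≤ B := by
  have h1 : cnt x P ≤ (⌊B⌋₊ : ℝ) := by
    unfold EO.cnt
    refine Nat.cast_le.mpr ?_
    refine (card_le_card (t := Icc 1 ⌊B⌋₊) ?_).trans ?_
    · intro n hn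
      rw [mem_filter] at hn
      obtain ⟨h1, h2⟩ := h n hn.2
      exact mem_Icc.2 ⟨h1, Nat.le_floor h2⟩
    · rw [Nat.card_Icc]
      omega
  exact h1.trans (Nat.floor_le hB)

theorem good_cof_few (s D : ℕ) (hs : 2 ≤ s) : ∃ x0 : ℕ, ∀ x : ℕ, x0 ≤ x →
    cnt x (fun n => NilOrder n (2 * s) ∧ ∃ m p : ℕ, n = m * p ∧ p.Prime ∧ GoodCof s D x m) ≤
      x * Real.exp (-((1 + 1 / (7 * ((MM s).totient : ℝ))) * LL x)) := by
  obtain ⟨x1, hx1⟩ := cof_sieve s D hs
  obtain ⟨x2, hx2⟩ := cof_excl s D hs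
  obtain ⟨φ, hφ⟩ : ∃ φ : ℝ, φ = ((MM s).totient : ℝ) := ⟨_, rfl⟩
  have hφ1 : 1 ≤ φ := by
    rw [hφ]
    have h1 : 0 < (MM s).totient := by
      apply Nat.totient_pos.2
      unfold MM so
      apply Nat.mul_pos (by positivity)
      exact Nat.div_pos (Nat.le_of_dvd (by omega) (Nat.ordProj_dvd s 2)) (by positivity)
    exact_mod_cast h1
  have hφ0 : 0 < φ := by linarith
  have hth : th2 s = 1 - 1 / (40 * φ) := by
    rw [hφ]
    rfl
  rw [← hφ]
  simp only [← hφ] at hx1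
  obtain ⟨δ, hδ⟩ : ∃ δ : ℝ, δ = 1 / (42 * φ) := ⟨_, rfl⟩
  have hδ0 : 0 < δ := by
    rw [hδ]
    positivity
  have hδe : 1 / (6 * φ) = 1 / (7 * φ) + δ := by
    rw [hδ]
    field_simp
    norm_num
  obtain ⟨x3, hx3⟩ := Filter.eventually_atTop.1 (LL_tend.eventually
    ((Filter.eventually_ge_atTop 1).and ((Filter.eventually_ge_atTop (40 * φ)).and
      ((QT7_ev (8 + 2 * (D + 1)) 1 one_pos).and (QT7_ev 8 δ hδ0)))))
  refine ⟨max 3 (max x1 (max x2 x3)), fun x hx => ?_⟩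
  have hx3' : 3 ≤ x := (le_max_left _ _).trans hx
  have hx' := (le_max_right _ _).trans hx
  have hxx1 := (le_max_left _ _).trans hx'
  have hx'' := (le_max_right _ _).trans hx'
  have g1 := hx1 x hxx1
  have g2 := hx2 x ((le_max_left _ _).trans hx'')
  obtain ⟨t1, t2, t3, t4⟩ := hx3 x ((le_max_right _ _).trans hx'')
  have hxp : (0 : ℝ) < x := by exact_mod_cast (by omega : 0 < x)
  have hx1' : (1 : ℝ) < x := by exact_mod_cast (by omega : 1 < x)
  obtain ⟨L, hL⟩ : ∃ L : ℝ, L = Real.log x := ⟨_, rfl⟩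
  have hLpos : 0 < L := by rw [hL]; exact Real.log_pos hx1'
  obtain ⟨t, ht⟩ : ∃ t : ℝ, t = LL x := ⟨_, rfl⟩
  have hexpt : Real.exp t = L := by
    rw [ht, hL]
    unfold LL
    exact Real.exp_log (by rw [← hL]; exact hLpos)
  have hexpL : Real.exp L = x := by
    rw [hL]
    exact Real.exp_log hxp
  rw [← ht] at t1 t2 t3 t4 ⊢
  rw [← ht, ← hL] at g1
  rw [one_mul, hexpt] at t3
  have ht0 : 0 < t := by linarith
  have htt : t ≤ t ^ 2 := by nlinarith
  have ht21 : 1 ≤ t ^ 2 := by nlinarith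
  have k1 : (D + 1) * t ≤ L / 2 := by
    have : ((D : ℝ) + 1) * t ≤ (D + 1) * t ^ 2 := by gcongr
    nlinarith
  have hD0 : (0 : ℝ) ≤ (D : ℝ) * t ^ 2 := by positivity
  have k2 : t ^ 2 + 2 * t + 1 ≤ L / 2 := by nlinarith
  -- small facts
  have hzD : ∀ p : ℕ, Real.exp (L / 2) < p → zD D x < p := by
    intro p hp
    have h1 : (zD D x : ℝ) ≤ L ^ D := by
      unfold zD
      rw [← hL]
      exact Nat.floor_le (by positivity)
    have h2 : L ^ D ≤ Real.exp (L / 2) := by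
      rw [← hexpt, ← Real.exp_nat_mul, hexpt]
      apply Real.exp_le_exp.2
      nlinarith
    have h3 : (zD D x : ℝ) < p := by linarith
    exact_mod_cast h3
  have hLth : L ^ (th2 s) ≤ L / 2 := by
    have h1 : L ^ (th2 s) = Real.exp (t * (th2 s)) := by
      rw [← hexpt, ← Real.exp_mul]
    have h2 : L / 2 ≥ Real.exp (t - 1) := by
      rw [Real.exp_sub, hexpt]
      have h3 : 2 ≤ Real.exp 1 := by
        have := Real.add_one_le_exp (1 : ℝ)
        linarith
      gcongr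
    rw [h1]
    refine le_trans (Real.exp_le_exp.2 ?_) h2
    rw [hth]
    have h3 : 1 ≤ t * (1 / (40 * φ)) := by
      rw [mul_one_div, le_div_iff₀ (by positivity)]
      linarith
    nlinarith
  obtain ⟨M, hM⟩ : ∃ M : ℕ, M = ⌊Real.exp (t ^ 2)⌋₊ := ⟨_, rfl⟩
  obtain ⟨T, hT⟩ : ∃ T : Finset ℕ, T = (Icc 1 M).filter (fun m => GoodCof s D x m) := ⟨_, rfl⟩
  obtain ⟨E, hE⟩ : ∃ E : ℝ, E = Real.exp (-((1 + 1 / (6 * φ)) * t)) := ⟨_, rfl⟩
  have hE0 : 0 < E := by
    rw [hE]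
    exact Real.exp_pos _
  -- one cofactor
  have hone : ∀ m ∈ T, cnt x (fun n => NilOrder n (2 * s) ∧
      ∃ p : ℕ, n = m * p ∧ p.Prime ∧ Real.exp (L / 2) < p) ≤ 2 * x * E * (1 / (m : ℝ)) := by
    intro m hm
    rw [hT, mem_filter, mem_Icc] at hm
    obtain ⟨⟨hm1, hmM⟩, hgood⟩ := hm
    have hm0 : (0 : ℝ) < m := by exact_mod_cast hm1
    by_cases hex : ∃ n, n < x ∧ (NilOrder n (2 * s) ∧
      ∃ p : ℕ, n = m * p ∧ p.Prime ∧ Real.exp (L / 2) < p)
    · obtain ⟨n, hnx, hn, p, hnp, hp, hpL⟩ := hex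
      have hpX : p < x / m + 1 := by
        have : p ≤ x / m := (Nat.le_div_iff_mul_le (by omega)).2
          (by rw [mul_comm, ← hnp]; exact hnx.le)
        omega
      have hm2 : 2 ≤ m := by
        by_contra hcon
        have hm1' : m = 1 := by omega
        obtain ⟨-, -, -, -, e, a, k, hdec, ha, -⟩ := hgood
        obtain ⟨hd, -⟩ := hdec
        rw [hm1'] at hd
        have h1 : a ∣ 1 := by
          rw [hd]
          exact Dvd.dvd.mul_right (Dvd.intro_left e rfl) _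
        exact ha (Nat.dvd_one.1 h1)
      have hmx : m ≤ x := by
        have h1 : m ≤ n := by
          rw [hnp]
          exact Nat.le_mul_of_pos_right m hp.pos
        omega
      have hX1 : Real.exp (L / 2) ≤ ((x / m + 1 : ℕ) : ℝ) := by
        have : (p : ℝ) < ((x / m + 1 : ℕ) : ℝ) := by exact_mod_cast hpX
        linarith
      have hX2 : x / m + 1 ≤ x := by
        have h1 : x / m ≤ x / 2 := Nat.div_le_div_left hm2 (by norm_num)
        omega
      have h3 := g1 m hgood (x / m + 1) hX1 hX2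
      rw [← hE] at h3
      refine (QT7_one x m hm1 _ _ ?_).trans (h3.trans ?_)
      · rintro n' hn' ⟨hNil, p', hnp', hp', hpL'⟩
        refine ⟨p', hnp', ?_, ?_⟩
        · intro u hu huL hup
          have h4 := (Nat.prime_dvd_prime_iff_eq hu hp').1 hup
          rw [h4] at huL
          have h5 := Real.exp_le_exp.2 hLth
          linarith
        · intro hPair
          rw [← hnp'] at hPair
          exact g2 m p' n' hgood hnp' hp' (hzD p' hpL') hPair hNil
      · have h4 : ((x / m + 1 : ℕ) : ℝ) ≤ 2 * x / m := by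
          push_cast
          have h5 : ((x / m : ℕ) : ℝ) ≤ x / m := Nat.cast_div_le
          have h6 : (1 : ℝ) ≤ x / m := by
            rw [one_le_div hm0]
            exact_mod_cast hmx
          have h7 : 2 * (x : ℝ) / m = x / m + x / m := by ring
          rw [h7]
          linarith
        calc ((x / m + 1 : ℕ) : ℝ) * E ≤ 2 * x / m * E := by gcongr
          _ = 2 * x * E * (1 / (m : ℝ)) := by ring
    · have h0 : cnt x (fun n => NilOrder n (2 * s) ∧
          ∃ p : ℕ, n = m * p ∧ p.Prime ∧ Real.exp (L / 2) < p) ≤ cnt x (fun _ => False) := by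
        refine cnt_mono fun n hn h => ?_
        exact hex ⟨n, hn, h⟩
      rw [cnt_false] at h0
      refine h0.trans ?_
      positivity
  -- the decomposition
  have hall : cnt x (fun n => NilOrder n (2 * s) ∧ ∃ m p : ℕ, n = m * p ∧ p.Prime ∧
      GoodCof s D x m) ≤ cnt x (fun n => (1 ≤ n ∧ (n : ℝ) ≤ Real.exp (t ^ 2) * Real.exp (L / 2)) ∨
        ∃ m ∈ T, NilOrder n (2 * s) ∧ ∃ p : ℕ, n = m * p ∧ p.Prime ∧ Real.exp (L / 2) < p) := by
    refine cnt_mono fun n _ h => ?_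
    obtain ⟨hN, m, p, hnp, hp, hgood⟩ := h
    have hg := hgood
    obtain ⟨hm0, hmt, -⟩ := hg
    rw [← ht] at hmt
    by_cases hpL : Real.exp (L / 2) < p
    · right
      refine ⟨m, ?_, hN, p, hnp, hp, hpL⟩
      rw [hT, mem_filter, mem_Icc]
      refine ⟨⟨Nat.one_le_iff_ne_zero.2 hm0, ?_⟩, hgood⟩
      rw [hM]
      exact Nat.le_floor hmt
    · left
      refine ⟨?_, ?_⟩
      · rw [hnp]
        exact Nat.mul_pos (Nat.pos_of_ne_zero hm0) hp.pos
      · rw [hnp]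
        push_cast
        have := not_lt.1 hpL
        gcongr
  refine hall.trans ((cnt_or _ _ _).trans ?_)
  have hA := QT7_small x (Real.exp (t ^ 2) * Real.exp (L / 2)) (by positivity)
    (fun n => 1 ≤ n ∧ (n : ℝ) ≤ Real.exp (t ^ 2) * Real.exp (L / 2)) (fun n h => h)
  have hB := (cnt_exists x T (fun m n => NilOrder n (2 * s) ∧ ∃ p : ℕ, n = m * p ∧ p.Prime ∧
    Real.exp (L / 2) < p)).trans (sum_le_sum hone)
  have hB2 : ∑ m ∈ T, 2 * x * E * (1 / (m : ℝ)) ≤ 2 * x * E * (1 + t ^ 2) := by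
    rw [← mul_sum]
    have h1 : ∑ m ∈ T, 1 / (m : ℝ) ≤ ∑ m ∈ Icc 1 M, 1 / (m : ℝ) := by
      rw [hT]
      exact sum_le_sum_of_subset_of_nonneg (filter_subset _ _) (fun m _ _ => by positivity)
    have h2 := QT7_harm (Real.exp (t ^ 2)) (Real.one_le_exp (by positivity))
    rw [Real.log_exp, ← hM] at h2
    have h3 := h1.trans h2
    gcongr
  have hC : Real.exp (t ^ 2) * Real.exp (L / 2) ≤
      x * Real.exp (-((1 + 1 / (7 * φ)) * t)) / 2 := by
    have h1 : 2 * (Real.exp (t ^ 2) * Real.exp (L / 2)) ≤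
        x * Real.exp (-((1 + 1 / (7 * φ)) * t)) := by
      have h2 : (2 : ℝ) ≤ Real.exp 1 := by
        have := Real.add_one_le_exp (1 : ℝ)
        linarith
      calc 2 * (Real.exp (t ^ 2) * Real.exp (L / 2)) ≤
            Real.exp 1 * (Real.exp (t ^ 2) * Real.exp (L / 2)) := by gcongr
        _ = Real.exp (1 + (t ^ 2 + L / 2)) := by
            rw [← Real.exp_add, ← Real.exp_add]
        _ ≤ Real.exp (L + -((1 + 1 / (7 * φ)) * t)) := by
            apply Real.exp_le_exp.2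
            have h3 : 1 / (7 * φ) ≤ 1 := by
              rw [div_le_one (by positivity)]
              linarith
            have h4 : (1 + 1 / (7 * φ)) * t ≤ 2 * t := by
              have : 1 + 1 / (7 * φ) ≤ 2 := by linarith
              gcongr
            linarith
        _ = x * Real.exp (-((1 + 1 / (7 * φ)) * t)) := by
            rw [Real.exp_add, hexpL]
    linarith
  have hD2 : 2 * x * E * (1 + t ^ 2) ≤ x * Real.exp (-((1 + 1 / (7 * φ)) * t)) / 2 := by
    have h1 : E * (4 * (1 + t ^ 2)) ≤ Real.exp (-((1 + 1 / (7 * φ)) * t)) := by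
      calc E * (4 * (1 + t ^ 2)) ≤ E * (8 * t ^ 2) :=
            mul_le_mul_of_nonneg_left (by linarith) hE0.le
        _ ≤ E * Real.exp (δ * t) := by gcongr
        _ = Real.exp (-((1 + 1 / (7 * φ)) * t)) := by
            rw [hE, ← Real.exp_add, hδe]
            congr 1
            ring
    have h2 : (x : ℝ) * (E * (4 * (1 + t ^ 2))) ≤ x * Real.exp (-((1 + 1 / (7 * φ)) * t)) := by
      gcongr
    linarith
  linarith

end Pool.Agent.Lib.MP_79499b_co.QZ
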