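import Pool.Agent.Lib.MP_79499b_co.DZ.LM
import Pool.Agent.Lib.MP_79499b_co.DZ.LS
import Pool.Agent.Lib.MP_79499b_co.DZ.LSz
import Pool.Agent.Lib.MP_79499b_co.QZ.QDefT

/-!
# QT2: the bad conductors

`bd_card`: `|BDc s x| ≤ L^10` for large `x`. Proof: for `i ∈ II`, `Q = ⌊exp LL^3⌋`, `Q^2 ≤ 2^i` (`2 LL^3 ≤ L^(1/10)`), `few` (DZ/LS.lean) with `P = 2^i`,
`j = 1`: at most `24/τ^2 = 24 L^8` bad `q ≤ Q`; the number of `i ∈ II` is at most `2 L` (`2^i ≤ exp L`).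

`bd_large`: for large `x` every `q ∈ BDc s x` is `> L^20`. Proof (Siegel-Walfisz): let `2 ≤ q ≤ L^20`, `χ` primitive mod `q` (so `χ ≠ 1`),
`P = 2^i`, `i ∈ II`, `log P ≥ L^(1/10)`. `LM_main` with a large `k`, `N1 = P`, `N2 = 2P`, `Q = q`: for each class `b` coprime to `q`
`|∑_{p ∈ Bl P, p ≡ b} 1/p - S/φ(q)| ≤ C₁ q/(log P)^k (2 + S)`, `S = ∑_{P<n≤2P} LMf n ≤ 1`, `P LMf P ≤ 1`. Multiply by `χ b` and sum over the classes `b`
coprime to `q`: `∑_b χ b = 0`, so `‖SP P χ‖ ≤ q · 3 C₁ q/(log P)^k ≤ 3 C₁ L^40 L^(-k/10) < L^(-4)` for `k = 450`.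

`bm_sum`: for large `x`: `∑_{a ∈ Bm} 1/a ≤ L^(-9)`: `a d = q ∈ BDc`, `1 ≤ d ≤ M = MM s`, `1/a = d/q ≤ M/L^20`, and there are at most `M L^10` pairs `(q, d)`, each `a`
comes from one.
-/

set_option autoImplicit false

namespace Pool.Agent.Lib.MP_79499b_co.QZ

open Finset DZ Filter
open scoped Classical

private theorem QT2_LL : ∀ᶠ x : ℕ in atTop, 2 * LL x ^ 3 ≤ Real.log x ^ (1 / 10 : ℝ) := by
  filter_upwards [LL_small 30 (show (0 : ℝ) < 1 / 1024 by norm_num),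
    LL_tend.eventually_ge_atTop 1] with x h1 h2
  have h3 : (2 * LL x ^ 3) ^ 10 ≤ Real.log x := by
    have h4 : (2 * LL x ^ 3) ^ 10 = 1024 * LL x ^ 30 := by
      rw [mul_pow, ← pow_mul]
      norm_num
    rw [h4]
    linarith
  have h4 := Real.rpow_le_rpow (by positivity) h3 (show (0 : ℝ) ≤ 1 / 10 by norm_num)
  rwa [← Real.rpow_natCast, ← Real.rpow_mul (by positivity),
    show ((10 : ℕ) : ℝ) * (1 / 10) = 1 by norm_num, Real.rpow_one] at h4

private theorem QT2_II {s x : ℕ} (hL : 1 ≤ Real.log (x : ℝ)) :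
    ((II s x).card : ℝ) ≤ 2 * Real.log x := by
  have h1 : II s x ⊆ range ⌊2 * Real.log (x : ℝ)⌋₊ := by
    intro i hi
    unfold II at hi
    rw [mem_filter] at hi
    rw [mem_range]
    have h2 : th2 s ≤ 1 := by
      unfold th2
      have : (0 : ℝ) ≤ 1 / (40 * ((MM s).totient : ℝ)) := by positivity
      linarith
    have h3 : Real.log x ^ th2 s ≤ Real.log x := by
      have := Real.rpow_le_rpow_of_exponent_le hL h2
      rwa [Real.rpow_one] at this
    have h4 : ((i : ℝ) + 1) * Real.log 2 ≤ Real.log x := by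
      have h5 := Real.log_le_log (by positivity) hi.2.2
      rw [Real.log_exp, Real.log_pow] at h5
      push_cast at h5
      linarith
    have h5 := Real.log_two_gt_d9
    have h6 : ((i + 1 : ℕ) : ℝ) ≤ 2 * Real.log x := by
      push_cast
      have : (0 : ℝ) ≤ i := Nat.cast_nonneg i
      nlinarith
    exact Nat.le_floor h6
  calc ((II s x).card : ℝ) ≤ ((range ⌊2 * Real.log (x : ℝ)⌋₊).card : ℝ) :=
        Nat.cast_le.2 (card_le_card h1)
    _ = (⌊2 * Real.log (x : ℝ)⌋₊ : ℝ) := by rw [card_range]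
    _ ≤ 2 * Real.log x := Nat.floor_le (by linarith)

theorem bd_card (s : ℕ) : ∃ x0 : ℕ, ∀ x : ℕ, x0 ≤ x → ((BDc s x).card : ℝ) ≤ Real.log x ^ 10 := by
  rw [← eventually_atTop]
  filter_upwards [QT2_LL, log_tend.eventually_ge_atTop 100] with x hLL hlog
  have hlx : 0 < Real.log (x : ℝ) := by linarith
  set L := Real.log (x : ℝ) with hL
  have hτ : 0 < tau x := by unfold tau; positivity
  have h1 : BDc s x ⊆ (II s x).biUnion (fun i => (Icc 1 ⌊Real.exp (LL x ^ 3)⌋₊).filter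
      (fun q => Bd (2 ^ i) (tau x) q)) := by
    intro q hq
    unfold BDc at hq
    rw [mem_filter, mem_Icc] at hq
    obtain ⟨h2, i, hi, hb⟩ := hq
    rw [mem_biUnion]
    exact ⟨i, hi, mem_filter.2 ⟨mem_Icc.2 ⟨by omega, h2.2⟩, hb⟩⟩
  have h2 : ((BDc s x).card : ℝ) ≤ ∑ i ∈ II s x, (((Icc 1 ⌊Real.exp (LL x ^ 3)⌋₊).filter
      (fun q => Bd (2 ^ i) (tau x) q)).card : ℝ) := by
    have := (card_le_card h1).trans card_biUnion_le
    exact_mod_cast this
  have h3 : ∀ i ∈ II s x, (((Icc 1 ⌊Real.exp (LL x ^ 3)⌋₊).filter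
      (fun q => Bd (2 ^ i) (tau x) q)).card : ℝ) ≤ 24 * L ^ 8 := by
    intro i hi
    unfold II at hi
    rw [mem_filter] at hi
    have hQ : ⌊Real.exp (LL x ^ 3)⌋₊ ^ 2 ≤ (2 ^ i) ^ 1 := by
      rw [pow_one]
      have h4 : (⌊Real.exp (LL x ^ 3)⌋₊ : ℝ) ≤ Real.exp (LL x ^ 3) :=
        Nat.floor_le (Real.exp_pos _).le
      have h5 : ((⌊Real.exp (LL x ^ 3)⌋₊ ^ 2 : ℕ) : ℝ) ≤ ((2 ^ i : ℕ) : ℝ) := by
        push_cast
        calc (⌊Real.exp (LL x ^ 3)⌋₊ : ℝ) ^ 2 ≤ Real.exp (LL x ^ 3) ^ 2 :=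
              pow_le_pow_left₀ (Nat.cast_nonneg _) h4 2
          _ = Real.exp (2 * LL x ^ 3) := by
              rw [← Real.exp_nat_mul]
              norm_num
          _ ≤ Real.exp (L ^ (1 / 10 : ℝ)) := Real.exp_le_exp.2 hLL
          _ ≤ 2 ^ i := hi.2.1
      exact_mod_cast h5
    have h6 := few (2 ^ i) ⌊Real.exp (LL x ^ 3)⌋₊ 1 Nat.one_le_two_pow le_rfl hQ (tau x) hτ
    refine h6.trans (le_of_eq ?_)
    unfold tau
    rw [← hL]
    simp only [Nat.factorial_one, Nat.cast_one, pow_one, mul_one]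
    rw [inv_pow, div_inv_eq_mul, ← pow_mul]
    norm_num
  have h4 : ((II s x).card : ℝ) ≤ 2 * L := QT2_II (by linarith)
  calc ((BDc s x).card : ℝ) ≤ ∑ i ∈ II s x, 24 * L ^ 8 := h2.trans (sum_le_sum h3)
    _ = (II s x).card * (24 * L ^ 8) := by rw [sum_const, nsmul_eq_mul]
    _ ≤ (2 * L) * (24 * L ^ 8) := mul_le_mul_of_nonneg_right h4 (by positivity)
    _ = 48 * L ^ 9 := by ring
    _ ≤ L * L ^ 9 := mul_le_mul_of_nonneg_right (by linarith) (by positivity)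
    _ = L ^ 10 := by ring

/-- the sum over a block by residue classes -/
private theorem QT2_SP (P q : ℕ) [NeZero q] (χ : DirichletCharacter ℂ q) :
    SP P χ = ∑ a : ZMod q, χ a * ((∑ p ∈ (Bl P).filter (fun p : ℕ => (p : ZMod q) = a),
      1 / (p : ℝ) : ℝ) : ℂ) := by
  unfold SP
  rw [← sum_fiberwise (Bl P) (fun p : ℕ => (p : ZMod q))]
  refine sum_congr rfl fun a _ => ?_
  push_cast
  rw [mul_sum]
  refine sum_congr rfl fun p hp => ?_
  rw [mem_filter] at hp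
  rw [hp.2]
  ring

private theorem QT2_bound (P q : ℕ) [NeZero q] (χ : DirichletCharacter ℂ q) (hχ : χ ≠ 1)
    (c E : ℝ) (hE : ∀ a : ZMod q, IsUnit a →
      |∑ p ∈ (Bl P).filter (fun p : ℕ => (p : ZMod q) = a), 1 / (p : ℝ) - c| ≤ E) (hE0 : 0 ≤ E) :
    ‖SP P χ‖ ≤ q * E := by
  have h0 : ∑ a : ZMod q, χ a = 0 := MulChar.sum_eq_zero_of_ne_one hχ
  have h1 : SP P χ = ∑ a : ZMod q, χ a * ((∑ p ∈ (Bl P).filter (fun p : ℕ => (p : ZMod q) = a),
      1 / (p : ℝ) - c : ℝ) : ℂ) := by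
    rw [QT2_SP]
    have h2 : ∑ a : ZMod q, χ a * (c : ℂ) = 0 := by rw [← sum_mul, h0, zero_mul]
    rw [← sub_zero (∑ a : ZMod q, χ a * _), ← h2, ← sum_sub_distrib]
    refine sum_congr rfl fun a _ => ?_
    push_cast
    ring
  rw [h1]
  refine (norm_sum_le _ _).trans ?_
  have h3 : ∀ a ∈ (univ : Finset (ZMod q)), ‖χ a * ((∑ p ∈ (Bl P).filter
      (fun p : ℕ => (p : ZMod q) = a), 1 / (p : ℝ) - c : ℝ) : ℂ)‖ ≤ E := by
    intro a _
    by_cases ha : IsUnit a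
    · rw [norm_mul, Complex.norm_real, Real.norm_eq_abs]
      calc ‖χ a‖ * |∑ p ∈ (Bl P).filter (fun p : ℕ => (p : ZMod q) = a), 1 / (p : ℝ) - c| ≤
          1 * E := mul_le_mul (DirichletCharacter.norm_le_one χ a) (hE a ha) (abs_nonneg _)
            zero_le_one
        _ = E := one_mul E
    · rw [MulChar.map_nonunit χ ha, zero_mul, norm_zero]
      exact hE0
  refine (sum_le_sum h3).trans (le_of_eq ?_)
  rw [sum_const, card_univ, ZMod.card, nsmul_eq_mul]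

theorem bd_large (s : ℕ) : ∃ x0 : ℕ, ∀ x : ℕ, x0 ≤ x → ∀ q ∈ BDc s x,
    Real.log x ^ 20 < (q : ℝ) := by
  obtain ⟨C₁, hC₁, hmain⟩ := LM_main 450
  rw [← eventually_atTop]
  filter_upwards [log_tend.eventually_gt_atTop (3 * C₁), log_tend.eventually_ge_atTop 100] with
    x hC hlog
  intro q hq
  by_contra hcon
  push Not at hcon
  have hlx : 0 < Real.log (x : ℝ) := by linarith
  set L := Real.log (x : ℝ) with hL
  unfold BDc at hq
  rw [mem_filter, mem_Icc] at hq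
  obtain ⟨⟨hq2, -⟩, i, hi, χ, hχ, hτ⟩ := hq
  unfold II at hi
  rw [mem_filter] at hi
  obtain ⟨P, hP⟩ : ∃ P : ℕ, P = 2 ^ i := ⟨_, rfl⟩
  rw [← hP] at hτ
  have hPr : Real.exp (L ^ (1 / 10 : ℝ)) ≤ P := by
    rw [hP]
    push_cast
    exact hi.2.1
  have hL10 : 1 ≤ L ^ (1 / 10 : ℝ) := Real.one_le_rpow (by linarith) (by norm_num)
  have hP0 : (0 : ℝ) < P := lt_of_lt_of_le (Real.exp_pos _) hPr
  have hlogP : L ^ (1 / 10 : ℝ) ≤ Real.log P := by
    rw [← Real.log_exp (L ^ (1 / 10 : ℝ))]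
    exact Real.log_le_log (Real.exp_pos _) hPr
  have hlogP1 : 1 ≤ Real.log P := hL10.trans hlogP
  have hP2 : 2 ≤ P := by
    by_contra h
    have h1 : (P : ℝ) ≤ 1 := by exact_mod_cast (by omega : P ≤ 1)
    have h2 := Real.log_nonpos hP0.le h1
    linarith
  have hpow : L ^ 45 ≤ Real.log P ^ 450 := by
    calc L ^ 45 = (L ^ (1 / 10 : ℝ)) ^ 450 := by
          rw [← Real.rpow_natCast (L ^ (1 / 10 : ℝ)), ← Real.rpow_mul hlx.le,
            ← Real.rpow_natCast L]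
          norm_num
      _ ≤ Real.log P ^ 450 := pow_le_pow_left₀ (by positivity) hlogP _
  haveI : NeZero q := ⟨by omega⟩
  have hχ1 : χ ≠ 1 := by
    intro h
    rw [h] at hχ
    rw [DirichletCharacter.isPrimitive_def, DirichletCharacter.conductor_one] at hχ
    omega
  have hf : ∀ n : ℕ, P ≤ n → LMf n ≤ 1 / P := by
    intro n hn
    have hn' : (P : ℝ) ≤ n := by exact_mod_cast hn
    have hn0 : (0 : ℝ) < n := hP0.trans_le hn'
    have h1 : 1 ≤ Real.log n := hlogP1.trans (Real.log_le_log hP0 hn')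
    unfold LMf
    apply one_div_le_one_div_of_le hP0
    nlinarith
  have hS : ∑ n ∈ Ioc P (2 * P), LMf n ≤ 1 := by
    calc ∑ n ∈ Ioc P (2 * P), LMf n ≤ ∑ n ∈ Ioc P (2 * P), 1 / (P : ℝ) :=
          sum_le_sum fun n hn => hf n (mem_Ioc.1 hn).1.le
      _ = 1 := by
          rw [sum_const, Nat.card_Ioc, show 2 * P - P = P by omega, nsmul_eq_mul]
          field_simp
  have hPf : (P : ℝ) * LMf P ≤ 1 := by
    have h1 := mul_le_mul_of_nonneg_left (hf P le_rfl) hP0.le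
    have h2 : (P : ℝ) * (1 / P) = 1 := by field_simp
    linarith
  have hq0 : (0 : ℝ) < q := by exact_mod_cast (by omega : 0 < q)
  have hE : ∀ a : ZMod q, IsUnit a →
      |∑ p ∈ (Bl P).filter (fun p : ℕ => (p : ZMod q) = a), 1 / (p : ℝ) -
        (∑ n ∈ Ioc P (2 * P), LMf n) / q.totient| ≤ 3 * C₁ * q / L ^ 45 := by
    intro a ha
    have hco : a.val.Coprime q := by
      have h1 := (ZMod.isUnit_iff_coprime a.val q).1 (by rwa [ZMod.natCast_zmod_val])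
      exact h1
    have h1 := hmain P (2 * P) q a.val hP2 (by omega) (by omega) hco
    have h2 : (Ioc P (2 * P)).filter (fun w => w.Prime ∧ w ≡ a.val [MOD q]) =
        (Bl P).filter (fun p : ℕ => (p : ZMod q) = a) := by
      unfold Bl
      rw [filter_filter]
      refine filter_congr fun p _ => ?_
      rw [← ZMod.natCast_eq_natCast_iff, ZMod.natCast_zmod_val]
    rw [h2] at h1
    refine h1.trans ?_
    have h3 : C₁ * q / Real.log P ^ 450 ≤ C₁ * q / L ^ 45 :=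
      div_le_div_of_nonneg_left (by positivity) (by positivity) hpow
    have h4 : 2 * ((P : ℝ) * LMf P) + ∑ n ∈ Ioc P (2 * P), LMf n ≤ 3 := by linarith
    have h5 : 0 ≤ 2 * ((P : ℝ) * LMf P) + ∑ n ∈ Ioc P (2 * P), LMf n := by
      have h6 := LMf_nonneg P
      have h7 : 0 ≤ ∑ n ∈ Ioc P (2 * P), LMf n := sum_nonneg fun n _ => LMf_nonneg n
      positivity
    calc C₁ * q / Real.log P ^ 450 * (2 * ((P : ℝ) * LMf P) + ∑ n ∈ Ioc P (2 * P), LMf n) ≤
          C₁ * q / L ^ 45 * 3 := mul_le_mul h3 h4 h5 (by positivity)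
      _ = 3 * C₁ * q / L ^ 45 := by ring
  have h1 := QT2_bound P q χ hχ1 _ _ hE (by positivity)
  have h2 : (q : ℝ) * (3 * C₁ * q / L ^ 45) ≤ 3 * C₁ / L ^ 5 := by
    have h3 : (q : ℝ) * q ≤ L ^ 40 := by
      calc (q : ℝ) * q ≤ L ^ 20 * L ^ 20 := mul_le_mul hcon hcon hq0.le (by positivity)
        _ = L ^ 40 := by ring
    have h4 : (q : ℝ) * (3 * C₁ * q / L ^ 45) = 3 * C₁ * (q * q) / L ^ 45 := by ring
    rw [h4, div_le_div_iff₀ (by positivity) (by positivity)]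
    calc 3 * C₁ * (q * q) * L ^ 5 ≤ 3 * C₁ * L ^ 40 * L ^ 5 := by gcongr
      _ = 3 * C₁ * L ^ 45 := by ring
  have h3 : 3 * C₁ / L ^ 5 < (L ^ 4)⁻¹ := by
    rw [div_lt_iff₀ (by positivity)]
    have h4 : (L ^ 4)⁻¹ * L ^ 5 = L := by field_simp
    rw [h4]
    exact hC
  unfold tau at hτ
  rw [← hL] at hτ
  linarith

theorem bm_sum (s : ℕ) : ∃ x0 : ℕ, ∀ x : ℕ, x0 ≤ x →
    ∑ a ∈ Bm s x, 1 / (a : ℝ) ≤ (Real.log x ^ 9)⁻¹ := by
  obtain ⟨x1, h1⟩ := bd_card s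
  obtain ⟨x2, h2⟩ := bd_large s
  rw [← eventually_atTop]
  filter_upwards [eventually_ge_atTop x1, eventually_ge_atTop x2,
    log_tend.eventually_ge_atTop ((MM s : ℝ) ^ 2), log_tend.eventually_ge_atTop 100] with
    x hx1 hx2 hM hlog
  have hlx : 0 < Real.log (x : ℝ) := by linarith
  have hcard := h1 x hx1
  have hlarge := h2 x hx2
  set L := Real.log (x : ℝ) with hL
  have h3 : ∀ a ∈ Bm s x, 1 / (a : ℝ) ≤ MM s / L ^ 20 := by
    intro a ha
    unfold Bm at ha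
    rw [mem_filter, mem_Icc] at ha
    obtain ⟨⟨ha1, -⟩, d, hd, had⟩ := ha
    rw [mem_Icc] at hd
    have h4 := hlarge _ had
    push_cast at h4
    have ha0 : (0 : ℝ) < a := by exact_mod_cast ha1
    have hd0 : (0 : ℝ) < d := by exact_mod_cast hd.1
    have hdM : (d : ℝ) ≤ MM s := by exact_mod_cast hd.2
    rw [div_le_div_iff₀ ha0 (by positivity), one_mul]
    nlinarith
  have h4 : (Bm s x).card ≤ (BDc s x).card * MM s := by
    have h5 : Bm s x ⊆ (BDc s x ×ˢ Icc 1 (MM s)).image (fun p => p.1 / p.2) := by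
      intro a ha
      unfold Bm at ha
      rw [mem_filter] at ha
      obtain ⟨-, d, hd, had⟩ := ha
      rw [mem_image]
      refine ⟨(a * d, d), mem_product.2 ⟨had, hd⟩, ?_⟩
      exact Nat.mul_div_cancel _ (by rw [mem_Icc] at hd; omega)
    refine (card_le_card h5).trans (card_image_le.trans ?_)
    rw [card_product, Nat.card_Icc, Nat.add_sub_cancel]
  have h5 : ((Bm s x).card : ℝ) ≤ L ^ 10 * MM s := by
    have h6 : ((Bm s x).card : ℝ) ≤ (BDc s x).card * MM s := by exact_mod_cast h4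
    exact h6.trans (mul_le_mul_of_nonneg_right hcard (Nat.cast_nonneg _))
  calc ∑ a ∈ Bm s x, 1 / (a : ℝ) ≤ ∑ a ∈ Bm s x, MM s / L ^ 20 := sum_le_sum h3
    _ = (Bm s x).card * (MM s / L ^ 20) := by rw [sum_const, nsmul_eq_mul]
    _ ≤ L ^ 10 * MM s * (MM s / L ^ 20) := mul_le_mul_of_nonneg_right h5 (by positivity)
    _ = (MM s : ℝ) ^ 2 / L ^ 10 := by
        field_simp
    _ ≤ L / L ^ 10 := by
        apply div_le_div_of_nonneg_right hM (by positivity)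
    _ = (L ^ 9)⁻¹ := by
        field_simp

end Pool.Agent.Lib.MP_79499b_co.QZ
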