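import Pool.Agent.Lib.MP_79499b_co.EO.S2
import Pool.Agent.Lib.MP_79499b_co.DZ.LX
import Pool.Agent.Lib.MP_79499b_co.QZ.QT2

/-!
# QT8: the other cofactors

`dec_exists`: every `m ≥ 1` has a decomposition `Dec s m e a k` (`s ≥ 1`): `m = b k^2`, `b` squarefree (`Nat.sq_mul_squarefree`), `e = gcd(b, 2s)`, `a = b/e`.
`cof_sum`: a finite set `T` of `m`, `1 ≤ m ≤ x^(1/2)`: the number of `n < x` of the form `n = m p`, `m ∈ T`, `p` prime, is at most `7 (x/L) ∑_{m ∈ T} 1/m` (`LX_pi`).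
`sm_large`: `x` large: `∑ 1/m ≤ exp(-LL/(2D))` over the `zD D x`-smooth `m ≤ x` with `m > exp LL^2`: `rankin_tail` with `y = zD D x`, `S = exp LL^2`, `σ = 1/(D LL + 1)` (`y^σ ≤ e`):
`exp(-LL^2/(D LL + 1)) exp(C e (1 + log(1 + log y)))`, `1 + log y ≤ 2 D LL`-ish.
`sm_omega`: `x` large: `∑ 1/m ≤ exp(-LL/50)` over the `zD D x`-smooth `1 ≤ m ≤ x` with more than `LL/40` prime divisors: `∑ e^(ω(m))/m ≤ ∏_{p ≤ y} (1 + e/(p-1))
≤ exp(e ∑_{p ≤ y} 1/(p-1)) ≤ exp(e (log(1 + log y) + C))` (`Sieve.sum_primeFactors_subset_le` or an Euler product over `Nat.primesBelow`; `e^(ω)` is multiplicative), divide by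
`exp(LL/40)`.
`rest_few`: `D ≥ 1`, `s ≥ 1`: there is `c > 0` such that for `x` large at most `x exp(-(1+c) LL)` integers `0 < n < x` have not two prime factors `> zD D x` and are neither `m p` with `p` prime and
`GoodCof m` nor `e k^2 p` with `e ∣ 2s`, `p` prime.
Proof. `y = zD D x`, `d = sm y n`, `n = d u`, `u = 1` or `u` prime (as in QF2). `n` with `d ≥ x^(1/2)`: `sm_count` (`S = x^(1/2)`, `σ = 1/(D LL + 1)`): at most `x/L^2`. `u = 1`,
`n = d < x^(1/2)`: at most `x^(1/2)`. Otherwise `n = d p`, `d < x^(1/2)`, `d` smooth. If `d > exp LL^2`: `cof_sum`, `sm_large`. If `ω(d) > LL/40`: `cof_sum`, `sm_omega`. Otherwise take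
`Dec s d e a k`: `a = 1` gives `n = e k^2 p`: excluded; `a ∉ Bm` gives `GoodCof d`: excluded; `a ∈ Bm`: `∑ 1/d ≤ ∑_{e ∣ 2s} ∑_{a ∈ Bm} ∑_k 1/(e a k^2) ≤ 2 τ(2s) L^(-9)` (`bm_sum`), `cof_sum`.
So the total is at most `7 (x/L)(exp(-LL/(2D)) + exp(-LL/50) + 2 τ(2s) L^(-9)) + x/L^2 + x^(1/2)`; `c = min(1/(3D), 1/60)`.
-/

set_option autoImplicit false

namespace Pool.Agent.Lib.MP_79499b_co.QZ

open Finset DZ
open scoped Classical

private theorem QT8_mf {α : Type} (p : α → Prop) (inst : DecidablePred p) (S : Finset α) (a : α) :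
    a ∈ @Finset.filter α p inst S ↔ a ∈ S ∧ p a := Finset.mem_filter

theorem dec_exists (s m : ℕ) (hs : 1 ≤ s) (hm : m ≠ 0) : ∃ e a k : ℕ, Dec s m e a k := by
  obtain ⟨b, k, hbk, hsq⟩ := Nat.sq_mul_squarefree m
  have hea : Nat.gcd b (2 * s) * (b / Nat.gcd b (2 * s)) = b :=
    Nat.mul_div_cancel' (Nat.gcd_dvd_left _ _)
  refine ⟨Nat.gcd b (2 * s), b / Nat.gcd b (2 * s), k, ?_, ?_, Nat.gcd_dvd_right _ _, ?_⟩
  · rw [hea, ← hbk, mul_comm]
  · rw [hea]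
    exact hsq
  · by_contra hc
    obtain ⟨p, hp, hpa, hps⟩ := Nat.Prime.not_coprime_iff_dvd.1 hc
    have h1 : p ∣ b := by
      rw [← hea]
      exact hpa.mul_left _
    have h2 : p ∣ Nat.gcd b (2 * s) := Nat.dvd_gcd h1 hps
    have h3 : p * p ∣ b := by
      rw [← hea]
      exact mul_dvd_mul h2 hpa
    exact hp.not_isUnit (hsq p h3)

theorem cof_sum : ∃ x0 : ℕ, ∀ x : ℕ, x0 ≤ x → ∀ T : Finset ℕ,
    (∀ m ∈ T, 1 ≤ m ∧ (m : ℝ) ≤ (x : ℝ) ^ (1 / 2 : ℝ)) →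
    cnt x (fun n => ∃ m ∈ T, ∃ p : ℕ, p.Prime ∧ n = m * p) ≤
      7 * (x / Real.log x) * ∑ m ∈ T, 1 / (m : ℝ) := by
  obtain ⟨x0, hx0⟩ := Filter.eventually_atTop.1 LX_pi
  refine ⟨x0, fun x hx T hT => ?_⟩
  refine (cnt_exists x T (fun m n => ∃ p : ℕ, p.Prime ∧ n = m * p)).trans ?_
  rw [mul_sum]
  refine sum_le_sum fun m hm => ?_
  obtain ⟨hm1, hm2⟩ := hT m hm
  have h1 := hx0 x hx m hm1 hm2
  refine le_trans ?_ (h1.trans (le_of_eq ?_))
  · unfold EO.cnt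
    rw [Nat.primeCounting, Nat.primeCounting', Nat.count_eq_card_filter_range]
    refine Nat.cast_le.mpr ?_
    refine (card_le_card ?_).trans (card_image_le (f := fun p => m * p))
    intro n hn
    obtain ⟨hnx, p, hp, rfl⟩ := (QT8_mf _ _ _ _).1 hn
    rw [mem_range] at hnx
    rw [mem_image]
    refine ⟨p, ?_, rfl⟩
    rw [mem_filter, mem_range]
    refine ⟨?_, hp⟩
    refine Nat.lt_succ_of_le ((Nat.le_div_iff_mul_le (by omega)).2 ?_)
    rw [mul_comm]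
    exact hnx.le
  · ring

/-- logarithms are small -/
private theorem QT8_log (A B : ℝ) (D : ℕ) (hA : 0 ≤ A) (hB : 0 < B) :
    ∀ᶠ t : ℝ in Filter.atTop, A * (1 + Real.log (1 + D * t)) ≤ B * t := by
  have h1 := (Real.isLittleO_log_id_atTop).bound (show 0 < B / (2 * (A + 1)) by positivity)
  filter_upwards [h1, Filter.eventually_ge_atTop (1 : ℝ),
    Filter.eventually_ge_atTop (2 * (A + 1) * (1 + Real.log (1 + D)) / B)] with t h1 h2 h3
  have ht0 : 0 < t := by linarith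
  rw [id, Real.norm_of_nonneg (Real.log_nonneg h2), Real.norm_of_nonneg ht0.le] at h1
  have hD0 : (0 : ℝ) ≤ D := Nat.cast_nonneg D
  have h4 : Real.log (1 + D * t) ≤ Real.log (1 + D) + Real.log t := by
    rw [← Real.log_mul (by positivity) ht0.ne']
    exact Real.log_le_log (by positivity) (by nlinarith)
  have h5 : 0 ≤ Real.log (1 + D) := Real.log_nonneg (by linarith)
  have hlog0 : 0 ≤ Real.log t := Real.log_nonneg h2
  rw [div_le_iff₀ hB] at h3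
  have h6 : (A + 1) * Real.log t ≤ B * t / 2 := by
    have h7 := mul_le_mul_of_nonneg_left h1 (show 0 ≤ A + 1 by linarith)
    have h8 : (A + 1) * (B / (2 * (A + 1)) * t) = B * t / 2 := by
      field_simp
    linarith
  calc A * (1 + Real.log (1 + D * t)) ≤ (A + 1) * (1 + (Real.log (1 + D) + Real.log t)) := by
        refine mul_le_mul (by linarith) (by linarith) ?_ (by linarith)
        have : 0 ≤ Real.log (1 + D * t) := Real.log_nonneg (by nlinarith)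
        linarith
    _ = (A + 1) * (1 + Real.log (1 + D)) + (A + 1) * Real.log t := by ring
    _ ≤ B * t := by linarith

/-- the parameters -/
private theorem QT8_par (D x : ℕ) (hD : 1 ≤ D) (hx : 3 ≤ x) (ht : 4 ≤ LL x) :
    2 ≤ zD D x ∧ 0 < 1 / (D * LL x) ∧ 1 / (D * LL x) ≤ 1 / 4 ∧
      ((zD D x : ℕ) : ℝ) ^ (1 / (D * LL x)) ≤ 3 ∧
      Real.log (1 + Real.log (zD D x : ℕ)) ≤ Real.log (1 + D * LL x) ∧
      0 ≤ Real.log (1 + Real.log (zD D x : ℕ)) ∧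
      Real.exp (LL x) = Real.log x ∧ LL x ^ 3 ≤ 6 * Real.log x := by
  have hDR : (1 : ℝ) ≤ D := by exact_mod_cast hD
  have hx1 : (1 : ℝ) < x := by exact_mod_cast (by omega : 1 < x)
  obtain ⟨L, hL⟩ : ∃ L : ℝ, L = Real.log x := ⟨_, rfl⟩
  have hLpos : 0 < L := by rw [hL]; exact Real.log_pos hx1
  obtain ⟨t, htt⟩ : ∃ t : ℝ, t = LL x := ⟨_, rfl⟩
  have hexpt : Real.exp t = L := by
    rw [htt, hL]
    unfold LL
    exact Real.exp_log (by rw [← hL]; exact hLpos)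
  rw [← htt] at ht ⊢
  rw [← hL]
  have ht0 : 0 < t := by linarith
  have hDt : 0 < D * t := by positivity
  obtain ⟨y, hy⟩ : ∃ y : ℕ, y = zD D x := ⟨_, rfl⟩
  rw [← hy]
  have hyL : (y : ℝ) ≤ L ^ D := by
    rw [hy, hL]
    unfold zD
    exact Nat.floor_le (by rw [← hL]; positivity)
  have hL2 : 2 ≤ L := by
    rw [← hexpt]
    have := Real.add_one_le_exp t
    linarith
  have hy2 : 2 ≤ y := by
    rw [hy]
    unfold zD
    refine Nat.le_floor ?_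
    rw [← hL]
    calc ((2 : ℕ) : ℝ) ≤ L := by exact_mod_cast hL2
      _ = L ^ 1 := (pow_one L).symm
      _ ≤ L ^ D := pow_le_pow_right₀ (by linarith) hD
  have hyp : (0 : ℝ) < y := by exact_mod_cast (by omega : 0 < y)
  have hlogy0 : 0 ≤ Real.log y := Real.log_natCast_nonneg y
  have hlogy : Real.log y ≤ D * t := by
    have h1 := Real.log_le_log hyp hyL
    rw [Real.log_pow, ← hexpt, Real.log_exp] at h1
    exact h1
  refine ⟨hy2, by positivity, ?_, ?_, Real.log_le_log (by linarith) (by linarith),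
    Real.log_nonneg (by linarith), hexpt, ?_⟩
  · apply one_div_le_one_div_of_le (by norm_num)
    nlinarith
  · have h4 : (y : ℝ) ^ (1 / (D * t)) ≤ Real.exp 1 := by
      rw [Real.rpow_def_of_pos hyp]
      apply Real.exp_le_exp.2
      rw [mul_one_div, div_le_one hDt]
      exact hlogy
    have := Real.exp_one_lt_d9
    linarith
  · have := Real.pow_div_factorial_le_exp t ht0.le 3
    rw [hexpt] at this
    have h6 : ((Nat.factorial 3 : ℕ) : ℝ) = 6 := by norm_num [Nat.factorial]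
    rw [h6, div_le_iff₀ (by norm_num)] at this
    linarith

theorem sm_large (D : ℕ) (hD : 1 ≤ D) : ∃ x0 : ℕ, ∀ x : ℕ, x0 ≤ x →
    ∑ m ∈ (Icc 1 x).filter (fun m : ℕ => (∀ q ∈ m.primeFactors, q ≤ zD D x) ∧
      Real.exp (LL x ^ 2) < (m : ℝ)), 1 / (m : ℝ) ≤ Real.exp (-(LL x / (2 * D))) := by
  obtain ⟨C, hC0, hC⟩ := EO.rankin_tail
  have hDR : (1 : ℝ) ≤ D := by exact_mod_cast hD
  obtain ⟨x0, hx0⟩ := Filter.eventually_atTop.1
    ((LL_tend.eventually (QT8_log (C * 3) (1 / (2 * D)) D (by positivity) (by positivity))).and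
      (LL_tend.eventually_ge_atTop 4))
  refine ⟨max 3 x0, fun x hx => ?_⟩
  obtain ⟨f1, f2⟩ := hx0 x ((le_max_right _ _).trans hx)
  obtain ⟨p1, p2, p3, p4, p5, p6, p7, -⟩ := QT8_par D x hD ((le_max_left _ _).trans hx) f2
  obtain ⟨t, ht⟩ : ∃ t : ℝ, t = LL x := ⟨_, rfl⟩
  rw [← ht] at f1 f2 p2 p3 p4 p5 p7 ⊢
  have ht0 : 0 < t := by linarith
  have h1 := hC (zD D x) x (Real.exp (t ^ 2)) (1 / (D * t)) p1 (Real.one_le_exp (by positivity))
    p2 p3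
  have h2 : ∑ m ∈ (Icc 1 x).filter (fun m : ℕ => (∀ q ∈ m.primeFactors, q ≤ zD D x) ∧
      Real.exp (t ^ 2) < (m : ℝ)), 1 / (m : ℝ) ≤
      ∑ j ∈ (Icc 1 x).filter (fun j : ℕ => (∀ p ∈ j.primeFactors, p ≤ zD D x) ∧
        Real.exp (t ^ 2) ≤ (j : ℝ)), (1 : ℝ) / j := by
    refine sum_le_sum_of_subset_of_nonneg ?_ fun _ _ _ => by positivity
    intro m hm
    rw [mem_filter] at hm ⊢
    exact ⟨hm.1, hm.2.1, hm.2.2.le⟩
  refine h2.trans (h1.trans ?_)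
  rw [← Real.exp_mul, ← Real.exp_add]
  refine Real.exp_le_exp.2 ?_
  have h3 : t ^ 2 * -(1 / (D * t)) = -(t / D) := by
    field_simp
  have h4 : C * ((zD D x : ℕ) : ℝ) ^ (1 / (D * t)) *
      (1 + Real.log (1 + Real.log (zD D x : ℕ))) ≤ C * 3 * (1 + Real.log (1 + D * t)) := by
    refine mul_le_mul (mul_le_mul_of_nonneg_left p4 hC0.le) (by linarith) (by linarith)
      (by positivity)
  have h5 : t / D = 2 * (1 / (2 * D) * t) := by
    field_simp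
  have h6 : t / (2 * D) = 1 / (2 * D) * t := by
    field_simp
  rw [h3, h6, h5]
  linarith

private theorem QT8_euler (M : ℕ) (T : Finset ℕ) (hT : ∀ p ∈ T, p.Prime) :
    ∑ m ∈ (Icc 1 M).filter (fun m : ℕ => m.primeFactors ⊆ T),
      Real.exp (m.primeFactors.card : ℝ) * ((m : ℝ))⁻¹ ≤
      ∏ p ∈ T, (1 + Real.exp 1 * (((p : ℝ))⁻¹ / (1 - ((p : ℝ))⁻¹))) := by
  have hmaps : ∀ e ∈ (Finset.Icc 1 M).filter (fun e : ℕ => e.primeFactors ⊆ T),
      e.primeFactors ∈ T.powerset := by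
    intro e he
    exact Finset.mem_powerset.mpr (Finset.mem_filter.mp he).2
  rw [← Finset.sum_fiberwise_of_maps_to hmaps, Finset.prod_one_add]
  refine Finset.sum_le_sum fun S hS => ?_
  have hS' := Finset.mem_powerset.mp hS
  have hlt : ∀ p ∈ S, ((p : ℝ))⁻¹ < 1 := by
    intro p hp
    have h1 : (1 : ℝ) < p := by exact_mod_cast (hT p (hS' hp)).one_lt
    exact inv_lt_one_of_one_lt₀ h1
  have h := Sieve.sum_primeFactors_eq_le (fun n : ℕ => ((n : ℝ))⁻¹)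
    (fun n => by positivity) (by simp)
    (fun m n => by push_cast; rw [mul_inv]) M S
    (fun p hp => hT p (hS' hp)) hlt
  rw [Finset.prod_mul_distrib, Finset.prod_const, ← Real.exp_nat_mul, mul_one]
  calc ∑ m ∈ ((Icc 1 M).filter (fun m : ℕ => m.primeFactors ⊆ T)).filter
        (fun m => m.primeFactors = S), Real.exp (m.primeFactors.card : ℝ) * ((m : ℝ))⁻¹
      = Real.exp (S.card : ℝ) * ∑ m ∈ ((Icc 1 M).filter (fun m : ℕ => m.primeFactors ⊆ T)).filter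
        (fun m => m.primeFactors = S), ((m : ℝ))⁻¹ := by
        rw [mul_sum]
        refine sum_congr rfl fun m hm => ?_
        rw [(mem_filter.1 hm).2]
    _ ≤ Real.exp (S.card : ℝ) * ∏ p ∈ S, (((p : ℝ))⁻¹ / (1 - ((p : ℝ))⁻¹)) := by
        refine mul_le_mul_of_nonneg_left ?_ (Real.exp_pos _).le
        refine le_trans ?_ h
        apply Finset.sum_le_sum_of_subset_of_nonneg
        · intro e he
          have he := Finset.mem_filter.mp he
          exact Finset.mem_filter.mpr ⟨(Finset.mem_filter.mp he.1).1, he.2⟩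
        · intro _ _ _
          positivity

private theorem QT8_sq (y : ℕ) (hy : 1 ≤ y) : ∑ k ∈ Icc 1 y, ((k : ℝ) ^ 2)⁻¹ ≤ 2 := by
  have h1 := sum_Ioc_inv_sq_le_sub (α := ℝ) (k := 1) (n := y) one_ne_zero hy
  have h2 : Icc 1 y = insert 1 (Ioc 1 y) := by
    ext k
    rw [mem_insert, mem_Icc, mem_Ioc]
    omega
  rw [h2, sum_insert (by simp)]
  have h4 : 0 ≤ ((y : ℝ))⁻¹ := by positivity
  norm_num at h1 ⊢
  linarith

private theorem QT8_omega : ∃ C : ℝ, 0 < C ∧ ∀ y M : ℕ, 2 ≤ y →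
    ∑ m ∈ (Icc 1 M).filter (fun m : ℕ => ∀ p ∈ m.primeFactors, p ≤ y),
      Real.exp (m.primeFactors.card : ℝ) * ((m : ℝ))⁻¹ ≤
      Real.exp (C * (1 + Real.log (1 + Real.log y))) := by
  obtain ⟨C, hC0, hC⟩ := EO.s1_msum
  refine ⟨3 * (C + 5), by positivity, fun y M hy => ?_⟩
  obtain ⟨T, hT⟩ : ∃ T : Finset ℕ, T = (Icc 1 y).filter Nat.Prime := ⟨_, rfl⟩
  have hTp : ∀ p ∈ T, p.Prime := fun p hp => by
    rw [hT] at hp
    exact (mem_filter.1 hp).2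
  have h1 := QT8_euler M T hTp
  have h2 : ∏ p ∈ T, (1 + Real.exp 1 * (((p : ℝ))⁻¹ / (1 - ((p : ℝ))⁻¹))) ≤
      Real.exp (∑ p ∈ T, (3 * ((p : ℝ))⁻¹ + 6 * ((p : ℝ) ^ 2)⁻¹)) := by
    rw [Real.exp_sum]
    refine prod_le_prod (fun p hp => ?_) (fun p hp => ?_)
    · have hp2 : (2 : ℝ) ≤ p := by exact_mod_cast (hTp p hp).two_le
      have h3 : ((p : ℝ))⁻¹ ≤ 1 := inv_le_one_of_one_le₀ (by linarith)
      have h4 : 0 ≤ 1 - ((p : ℝ))⁻¹ := by linarith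
      positivity
    · have hp2 : (2 : ℝ) ≤ p := by exact_mod_cast (hTp p hp).two_le
      have h3 : Real.exp 1 ≤ 3 := by
        have := Real.exp_one_lt_d9
        linarith
      have h5 : ((p : ℝ))⁻¹ / (1 - ((p : ℝ))⁻¹) ≤ ((p : ℝ))⁻¹ + 2 * ((p : ℝ) ^ 2)⁻¹ := by
        have h6 : ((p : ℝ))⁻¹ / (1 - ((p : ℝ))⁻¹) = 1 / (p - 1) := by
          have : (p : ℝ) - 1 ≠ 0 := by linarith
          have : (1 : ℝ) - ((p : ℝ))⁻¹ ≠ 0 := by
            have : ((p : ℝ))⁻¹ ≤ 1 / 2 := by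
              rw [one_div]
              exact inv_anti₀ (by norm_num) hp2
            linarith
          field_simp
        have h7 : ((p : ℝ))⁻¹ + 2 * ((p : ℝ) ^ 2)⁻¹ = (p + 2) / p ^ 2 := by
          field_simp
        rw [h6, h7, div_le_div_iff₀ (by linarith) (by positivity)]
        nlinarith
      have h8 : 0 ≤ ((p : ℝ))⁻¹ / (1 - ((p : ℝ))⁻¹) := by
        have h3 : ((p : ℝ))⁻¹ ≤ 1 := inv_le_one_of_one_le₀ (by linarith)
        have h4 : 0 ≤ 1 - ((p : ℝ))⁻¹ := by linarith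
        positivity
      have h9 := Real.add_one_le_exp (3 * ((p : ℝ))⁻¹ + 6 * ((p : ℝ) ^ 2)⁻¹)
      have h10 : Real.exp 1 * (((p : ℝ))⁻¹ / (1 - ((p : ℝ))⁻¹)) ≤
          3 * (((p : ℝ))⁻¹ + 2 * ((p : ℝ) ^ 2)⁻¹) :=
        mul_le_mul h3 h5 h8 (by norm_num)
      linarith
  have h3 : ∑ p ∈ T, (3 * ((p : ℝ))⁻¹ + 6 * ((p : ℝ) ^ 2)⁻¹) ≤
      3 * (C + 5) * (1 + Real.log (1 + Real.log y)) := by
    rw [sum_add_distrib, ← mul_sum, ← mul_sum]
    have h4 := hC y hy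
    rw [← hT] at h4
    have h5 : ∑ p ∈ T, ((p : ℝ) ^ 2)⁻¹ ≤ 2 := by
      refine le_trans (sum_le_sum_of_subset_of_nonneg ?_ fun _ _ _ => by positivity)
        (QT8_sq y (by omega))
      rw [hT]
      exact filter_subset _ _
    have hy0 : 0 ≤ Real.log y := Real.log_natCast_nonneg y
    have h6 : 0 ≤ Real.log (1 + Real.log y) := Real.log_nonneg (by linarith)
    nlinarith [mul_nonneg hC0 h6]
  have h7 : ∑ m ∈ (Icc 1 M).filter (fun m : ℕ => ∀ p ∈ m.primeFactors, p ≤ y),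
      Real.exp (m.primeFactors.card : ℝ) * ((m : ℝ))⁻¹ ≤
      ∑ m ∈ (Icc 1 M).filter (fun m : ℕ => m.primeFactors ⊆ T),
      Real.exp (m.primeFactors.card : ℝ) * ((m : ℝ))⁻¹ := by
    refine sum_le_sum_of_subset_of_nonneg ?_ fun _ _ _ => by positivity
    intro b hb
    rw [mem_filter] at hb ⊢
    refine ⟨hb.1, fun p hp => ?_⟩
    have hpp := Nat.prime_of_mem_primeFactors hp
    rw [hT]
    exact mem_filter.2 ⟨mem_Icc.2 ⟨hpp.one_lt.le, hb.2 p hp⟩, hpp⟩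
  exact h7.trans (h1.trans (h2.trans (Real.exp_le_exp.2 h3)))

theorem sm_omega (D : ℕ) (hD : 1 ≤ D) : ∃ x0 : ℕ, ∀ x : ℕ, x0 ≤ x →
    ∑ m ∈ (Icc 1 x).filter (fun m : ℕ => (∀ q ∈ m.primeFactors, q ≤ zD D x) ∧
      LL x / 40 < (m.primeFactors.card : ℝ)), 1 / (m : ℝ) ≤ Real.exp (-(LL x / 50)) := by
  obtain ⟨C, hC0, hC⟩ := QT8_omega
  obtain ⟨x0, hx0⟩ := Filter.eventually_atTop.1
    ((LL_tend.eventually (QT8_log C (1 / 200) D hC0.le (by positivity))).and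
      (LL_tend.eventually_ge_atTop 4))
  refine ⟨max 3 x0, fun x hx => ?_⟩
  obtain ⟨f1, f2⟩ := hx0 x ((le_max_right _ _).trans hx)
  obtain ⟨p1, p2, p3, p4, p5, p6, p7, -⟩ := QT8_par D x hD ((le_max_left _ _).trans hx) f2
  obtain ⟨t, ht⟩ : ∃ t : ℝ, t = LL x := ⟨_, rfl⟩
  rw [← ht] at f1 f2 p2 p3 p4 p5 p7 ⊢
  have h1 := hC (zD D x) x p1
  have h2 : ∑ m ∈ (Icc 1 x).filter (fun m : ℕ => (∀ q ∈ m.primeFactors, q ≤ zD D x) ∧
      t / 40 < (m.primeFactors.card : ℝ)), 1 / (m : ℝ) ≤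
      Real.exp (-(t / 40)) *
        ∑ m ∈ (Icc 1 x).filter (fun m : ℕ => ∀ p ∈ m.primeFactors, p ≤ zD D x),
        Real.exp (m.primeFactors.card : ℝ) * ((m : ℝ))⁻¹ := by
    rw [mul_sum]
    calc ∑ m ∈ (Icc 1 x).filter (fun m : ℕ => (∀ q ∈ m.primeFactors, q ≤ zD D x) ∧
          t / 40 < (m.primeFactors.card : ℝ)), 1 / (m : ℝ)
        ≤ ∑ m ∈ (Icc 1 x).filter (fun m : ℕ => (∀ q ∈ m.primeFactors, q ≤ zD D x) ∧
          t / 40 < (m.primeFactors.card : ℝ)),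
          Real.exp (-(t / 40)) * (Real.exp (m.primeFactors.card : ℝ) * ((m : ℝ))⁻¹) := by
          refine sum_le_sum fun m hm => ?_
          have h3 := (mem_filter.1 hm).2.2
          rw [one_div, ← mul_assoc, ← Real.exp_add]
          refine le_mul_of_one_le_left (by positivity) (Real.one_le_exp (by linarith))
      _ ≤ _ := by
          refine sum_le_sum_of_subset_of_nonneg ?_ fun _ _ _ => by positivity
          intro m hm
          rw [mem_filter] at hm ⊢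
          exact ⟨hm.1, hm.2.1⟩
  refine h2.trans ((mul_le_mul_of_nonneg_left h1 (Real.exp_pos _).le).trans ?_)
  rw [← Real.exp_add]
  refine Real.exp_le_exp.2 ?_
  have h4 : C * (1 + Real.log (1 + Real.log (zD D x : ℕ))) ≤ C * (1 + Real.log (1 + D * t)) :=
    mul_le_mul_of_nonneg_left (by linarith) hC0.le
  linarith

private theorem QT8_struct (y n : ℕ) (hn : n ≠ 0) (h : ¬ Two y n) :
    n = EO.sm y n ∨ ∃ p : ℕ, p.Prime ∧ n = EO.sm y n * p := by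
  obtain ⟨g1, g2, g3⟩ := EO.sm_facts y n (Nat.one_le_iff_ne_zero.2 hn)
  obtain ⟨u, hu⟩ : ∃ u : ℕ, u =
      ∏ p ∈ n.primeFactors.filter (fun p => y < p), p ^ n.factorization p := ⟨_, rfl⟩
  rw [← hu] at g3
  have hbig : ∀ q : ℕ, q.Prime → q ∣ u → y < q := by
    intro q hq hqu
    rw [hu] at hqu
    obtain ⟨p, hp, hpq⟩ := (Nat.prime_iff.mp hq).exists_mem_finset_dvd hqu
    rw [mem_filter, Nat.mem_primeFactors] at hp
    have h1 := hq.dvd_of_dvd_pow hpq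
    rw [Nat.prime_dvd_prime_iff_eq hq hp.1.1] at h1
    rw [h1]
    exact hp.2
  by_cases hu1 : u = 1
  · left
    rw [hu1, mul_one] at g3
    exact g3.symm
  · right
    obtain ⟨p, hp, hpu⟩ := Nat.exists_prime_and_dvd hu1
    obtain ⟨v, hv⟩ := hpu
    by_cases hv1 : v = 1
    · refine ⟨p, hp, ?_⟩
      rw [hv1, mul_one] at hv
      rw [← hv]
      exact g3.symm
    · exfalso
      obtain ⟨q, hq, hqv⟩ := Nat.exists_prime_and_dvd hv1
      refine h ⟨p, q, hp, hq, hbig p hp (hv ▸ dvd_mul_right p v),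
        hbig q hq (hv ▸ hqv.mul_left p), ?_⟩
      have h1 : p * q ∣ u := by
        rw [hv]
        exact mul_dvd_mul_left p hqv
      exact h1.trans ⟨EO.sm y n, by rw [mul_comm]; exact g3.symm⟩

private theorem QT8_small (x B : ℕ) (P : ℕ → Prop) (h : ∀ n, P n → 1 ≤ n ∧ n ≤ B) :
    cnt x P ≤ B := by
  unfold EO.cnt
  refine Nat.cast_le.mpr ?_
  refine (card_le_card (t := Icc 1 B) ?_).trans ?_
  · intro n hn
    exact mem_Icc.2 (h n ((QT8_mf _ _ _ _).1 hn).2)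
  · rw [Nat.card_Icc]
    omega

/-- the cofactors with a bad squarefree part -/
private theorem QT8_bad (s x : ℕ) (hs : 1 ≤ s) (T : Finset ℕ)
    (hT : ∀ m ∈ T, 1 ≤ m ∧ m ≤ x ∧ ∃ e a k : ℕ, Dec s m e a k ∧ a ∈ Bm s x) :
    ∑ m ∈ T, 1 / (m : ℝ) ≤ 2 * ((2 * s).divisors.card : ℝ) * ∑ a ∈ Bm s x, 1 / (a : ℝ) := by
  rcases T.eq_empty_or_nonempty with h0 | ⟨m0, hm0⟩
  · rw [h0, sum_empty]
    have : 0 ≤ ∑ a ∈ Bm s x, 1 / (a : ℝ) := sum_nonneg fun _ _ => by positivity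
    positivity
  have hx1 : 1 ≤ x := (hT m0 hm0).1.trans (hT m0 hm0).2.1
  choose! e a k hdec ha using fun m hm => (hT m hm).2.2
  obtain ⟨φ, hφ⟩ : ∃ φ : ℕ → ℕ × ℕ × ℕ, φ = fun m => (e m, a m, k m) := ⟨_, rfl⟩
  have hval : ∀ m ∈ T, m = (φ m).1 * (φ m).2.1 * (φ m).2.2 ^ 2 := by
    intro m hm
    rw [hφ]
    exact (hdec m hm).1
  have hinj : Set.InjOn φ T := by
    intro m hm m' hm' h
    rw [hval m hm, hval m' hm', h]
  have h1 : ∑ m ∈ T, 1 / (m : ℝ) = ∑ z ∈ T.image φ,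
      (1 / (z.1 : ℝ)) * ((1 / (z.2.1 : ℝ)) * ((z.2.2 : ℝ) ^ 2)⁻¹) := by
    rw [sum_image hinj]
    refine sum_congr rfl fun m hm => ?_
    have h2 : (m : ℝ) = ((φ m).1 : ℝ) * ((φ m).2.1 : ℝ) * ((φ m).2.2 : ℝ) ^ 2 := by
      exact_mod_cast hval m hm
    rw [h2, one_div, mul_inv, mul_inv, one_div, one_div, mul_assoc]
  have h3 : T.image φ ⊆ (2 * s).divisors ×ˢ (Bm s x ×ˢ Icc 1 x) := by
    intro z hz
    obtain ⟨m, hm, rfl⟩ := mem_image.1 hz
    obtain ⟨d1, d2, d3, d4⟩ := hdec m hm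
    obtain ⟨m1, m2, -⟩ := hT m hm
    rw [hφ]
    simp only [mem_product]
    refine ⟨Nat.mem_divisors.2 ⟨d3, by omega⟩, ha m hm, ?_⟩
    have hea : 0 < e m * a m := by
      rcases Nat.eq_zero_or_pos (e m * a m) with h | h
      · rw [h, zero_mul] at d1
        omega
      · exact h
    have hk : k m ≠ 0 := by
      intro h
      rw [h] at d1
      simp at d1
      omega
    rw [mem_Icc]
    refine ⟨Nat.one_le_iff_ne_zero.2 hk, ?_⟩
    calc k m ≤ k m ^ 2 := Nat.le_self_pow (by norm_num) _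
      _ ≤ e m * a m * k m ^ 2 := Nat.le_mul_of_pos_left _ hea
      _ = m := d1.symm
      _ ≤ x := m2
  rw [h1]
  refine (sum_le_sum_of_subset_of_nonneg h3 fun _ _ _ => by positivity).trans ?_
  rw [sum_product]
  have h4 : ∀ u ∈ (2 * s).divisors, ∑ z ∈ Bm s x ×ˢ Icc 1 x,
      (1 / (u : ℝ)) * ((1 / (z.1 : ℝ)) * ((z.2 : ℝ) ^ 2)⁻¹) ≤
      2 * ∑ a ∈ Bm s x, 1 / (a : ℝ) := by
    intro u hu
    have hu1 : (1 : ℝ) / u ≤ 1 := by
      have : 1 ≤ u := Nat.pos_of_mem_divisors hu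
      have h5 : (1 : ℝ) ≤ u := by exact_mod_cast this
      rw [div_le_one (by linarith)]
      exact h5
    rw [← mul_sum, sum_product]
    have h6 : ∑ z1 ∈ Bm s x, ∑ z2 ∈ Icc 1 x, (1 / (z1 : ℝ)) * ((z2 : ℝ) ^ 2)⁻¹ =
        (∑ a ∈ Bm s x, 1 / (a : ℝ)) * ∑ k ∈ Icc 1 x, ((k : ℝ) ^ 2)⁻¹ := by
      rw [sum_mul_sum]
    rw [h6]
    have h7 := QT8_sq x hx1
    have h8 : 0 ≤ ∑ a ∈ Bm s x, 1 / (a : ℝ) := sum_nonneg fun _ _ => by positivity
    have h9 : 0 ≤ ∑ k ∈ Icc 1 x, ((k : ℝ) ^ 2)⁻¹ := sum_nonneg fun _ _ => by positivity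
    have h10 : (∑ a ∈ Bm s x, 1 / (a : ℝ)) * ∑ k ∈ Icc 1 x, ((k : ℝ) ^ 2)⁻¹ ≤
        (∑ a ∈ Bm s x, 1 / (a : ℝ)) * 2 := mul_le_mul_of_nonneg_left h7 h8
    calc (1 / (u : ℝ)) * ((∑ a ∈ Bm s x, 1 / (a : ℝ)) * ∑ k ∈ Icc 1 x, ((k : ℝ) ^ 2)⁻¹)
        ≤ 1 * ((∑ a ∈ Bm s x, 1 / (a : ℝ)) * ∑ k ∈ Icc 1 x, ((k : ℝ) ^ 2)⁻¹) :=
          mul_le_mul_of_nonneg_right hu1 (mul_nonneg h8 h9)
      _ ≤ 2 * ∑ a ∈ Bm s x, 1 / (a : ℝ) := by linarith
  refine (sum_le_card_nsmul _ _ _ h4).trans (le_of_eq ?_)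
  rw [nsmul_eq_mul]
  ring

theorem rest_few (s D : ℕ) (hs : 1 ≤ s) (hD : 1 ≤ D) : ∃ (c : ℝ) (x0 : ℕ), 0 < c ∧
    ∀ x : ℕ, x0 ≤ x →
    cnt x (fun n => n ≠ 0 ∧ ¬ Two (zD D x) n ∧
      (¬ ∃ m p : ℕ, n = m * p ∧ p.Prime ∧ GoodCof s D x m) ∧
      ¬ ∃ e k p : ℕ, e ∣ 2 * s ∧ p.Prime ∧ n = e * k ^ 2 * p) ≤
      x * Real.exp (-((1 + c) * LL x)) := by
  obtain ⟨C, hC0, hC⟩ := EO.sm_count
  obtain ⟨xa, hxa⟩ := cof_sum
  obtain ⟨xb, hxb⟩ := sm_large D hD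
  obtain ⟨xc, hxc⟩ := sm_omega D hD
  obtain ⟨xd, hxd⟩ := bm_sum s
  have hDR : (1 : ℝ) ≤ D := by exact_mod_cast hD
  obtain ⟨τ, hτ⟩ : ∃ τ : ℝ, τ = ((2 * s).divisors.card : ℝ) := ⟨_, rfl⟩
  have hτ0 : 0 ≤ τ := by rw [hτ]; positivity
  obtain ⟨c, hc⟩ : ∃ c : ℝ, c = min (1 / (3 * (D : ℝ))) (1 / 60) := ⟨_, rfl⟩
  have hc0 : 0 < c := by rw [hc]; exact lt_min (by positivity) (by norm_num)
  have hc1 : c ≤ 1 / (3 * D) := by rw [hc]; exact min_le_left _ _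
  have hc2 : c ≤ 1 / 60 := by rw [hc]; exact min_le_right _ _
  obtain ⟨xe, hxe⟩ := Filter.eventually_atTop.1
    ((LL_tend.eventually (QT8_log (C * 3) 1 D (by positivity) one_pos)).and
      (LL_tend.eventually_ge_atTop (1200 + 36 * D + 70 * τ)))
  refine ⟨c, max (max (max xa xb) (max xc xd)) (max 3 xe), hc0, fun x hx => ?_⟩
  simp only [max_le_iff] at hx
  obtain ⟨⟨⟨ha, hb⟩, hcc, hd⟩, h3x, he⟩ := hx
  obtain ⟨f1, f2⟩ := hxe x he
  have hcof := hxa x ha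
  have hlg := hxb x hb
  have hom := hxc x hcc
  have hbm := hxd x hd
  obtain ⟨t, ht⟩ : ∃ t : ℝ, t = LL x := ⟨_, rfl⟩
  have ht1200 : 1200 ≤ t := by rw [ht]; nlinarith
  have ht36 : 36 * D ≤ t := by rw [ht]; nlinarith
  have ht70 : 70 * τ ≤ t := by rw [ht]; nlinarith
  obtain ⟨p1, p2, p3, p4, p5, p6, p7, p8⟩ := QT8_par D x hD h3x (by rw [← ht]; linarith)
  rw [← ht] at f1 f2 p2 p3 p4 p5 p7 p8 hlg hom ⊢
  have ht0 : 0 < t := by linarith
  obtain ⟨L, hL⟩ : ∃ L : ℝ, L = Real.log x := ⟨_, rfl⟩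
  rw [← hL] at p7 p8 hcof hbm
  have hL0 : 0 < L := by rw [← p7]; exact Real.exp_pos _
  have hx0 : (0 : ℝ) < x := by exact_mod_cast (by omega : 0 < x)
  have hx1 : (1 : ℝ) < x := by exact_mod_cast (by omega : 1 < x)
  obtain ⟨y, hy⟩ : ∃ y : ℕ, y = zD D x := ⟨_, rfl⟩
  rw [← hy] at p1 p4 p5 p6 hlg hom ⊢
  obtain ⟨r, hr⟩ : ∃ r : ℝ, r = (x : ℝ) ^ (1 / 2 : ℝ) := ⟨_, rfl⟩
  have hr0 : 0 < r := by rw [hr]; positivity
  have hrexp : r = Real.exp (L / 2) := by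
    rw [hr, Real.rpow_def_of_pos hx0, ← hL]
    congr 1
    ring
  have hxexp : (x : ℝ) = Real.exp L := by rw [hL, Real.exp_log hx0]
  -- the sets
  obtain ⟨T1, hT1⟩ : ∃ T1 : Finset ℕ, T1 = (Icc 1 x).filter (fun m : ℕ =>
    ((∀ q ∈ m.primeFactors, q ≤ y) ∧ Real.exp (t ^ 2) < (m : ℝ)) ∧ (m : ℝ) ≤ r) := ⟨_, rfl⟩
  obtain ⟨T2, hT2⟩ : ∃ T2 : Finset ℕ, T2 = (Icc 1 x).filter (fun m : ℕ =>
    ((∀ q ∈ m.primeFactors, q ≤ y) ∧ t / 40 < (m.primeFactors.card : ℝ)) ∧ (m : ℝ) ≤ r) :=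
    ⟨_, rfl⟩
  obtain ⟨T3, hT3⟩ : ∃ T3 : Finset ℕ, T3 = (Icc 1 x).filter (fun m : ℕ =>
    (∃ e a k : ℕ, Dec s m e a k ∧ a ∈ Bm s x) ∧ (m : ℝ) ≤ r) := ⟨_, rfl⟩
  have s1 : ∑ m ∈ T1, 1 / (m : ℝ) ≤ Real.exp (-(t / (2 * D))) := by
    refine le_trans (sum_le_sum_of_subset_of_nonneg ?_ fun _ _ _ => by positivity) hlg
    intro m hm
    rw [hT1, mem_filter] at hm
    rw [mem_filter]
    exact ⟨hm.1, hm.2.1⟩
  have s2 : ∑ m ∈ T2, 1 / (m : ℝ) ≤ Real.exp (-(t / 50)) := by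
    refine le_trans (sum_le_sum_of_subset_of_nonneg ?_ fun _ _ _ => by positivity) hom
    intro m hm
    rw [hT2, mem_filter] at hm
    rw [mem_filter]
    exact ⟨hm.1, hm.2.1⟩
  have s3 : ∑ m ∈ T3, 1 / (m : ℝ) ≤ 2 * τ * (L ^ 9)⁻¹ := by
    have h1 := QT8_bad s x hs T3 (by
      intro m hm
      rw [hT3, mem_filter, mem_Icc] at hm
      exact ⟨hm.1.1, hm.1.2, hm.2.1⟩)
    rw [← hτ] at h1
    exact h1.trans (mul_le_mul_of_nonneg_left hbm (by positivity))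
  have q1 := hcof T1 (by
    intro m hm
    rw [hT1, mem_filter, mem_Icc] at hm
    rw [← hr]
    exact ⟨hm.1.1, hm.2.2⟩)
  have q2 := hcof T2 (by
    intro m hm
    rw [hT2, mem_filter, mem_Icc] at hm
    rw [← hr]
    exact ⟨hm.1.1, hm.2.2⟩)
  have q3 := hcof T3 (by
    intro m hm
    rw [hT3, mem_filter, mem_Icc] at hm
    rw [← hr]
    exact ⟨hm.1.1, hm.2.2⟩)
  have q4 := hC y x r (1 / (D * t)) p1 (by
    rw [hr]
    exact Real.one_le_rpow hx1.le (by norm_num)) p2 p3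
  have q5 := QT8_small x ⌊r⌋₊ (fun n => 1 ≤ n ∧ n ≤ ⌊r⌋₊) (fun n h => h)
  have hcover : cnt x (fun n => n ≠ 0 ∧ ¬ Two y n ∧
      (¬ ∃ m p : ℕ, n = m * p ∧ p.Prime ∧ GoodCof s D x m) ∧
      ¬ ∃ e k p : ℕ, e ∣ 2 * s ∧ p.Prime ∧ n = e * k ^ 2 * p) ≤
      cnt x (fun n => (1 ≤ n ∧ r ≤ (EO.sm y n : ℝ)) ∨ ((1 ≤ n ∧ n ≤ ⌊r⌋₊) ∨
        ((∃ m ∈ T1, ∃ p : ℕ, p.Prime ∧ n = m * p) ∨ ((∃ m ∈ T2, ∃ p : ℕ, p.Prime ∧ n = m * p) ∨
          (∃ m ∈ T3, ∃ p : ℕ, p.Prime ∧ n = m * p))))) := by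
    refine cnt_mono fun n hnx hn => ?_
    obtain ⟨hn0, hn1, hn2, hn3⟩ := hn
    have hn1' : 1 ≤ n := Nat.one_le_iff_ne_zero.2 hn0
    by_cases c1 : r ≤ (EO.sm y n : ℝ)
    · exact Or.inl ⟨hn1', c1⟩
    right
    push Not at c1
    rcases QT8_struct y n hn0 hn1 with h1 | ⟨p, hp, h1⟩
    · left
      refine ⟨hn1', ?_⟩
      rw [h1]
      exact Nat.le_floor c1.le
    right
    obtain ⟨g1, g2, -⟩ := EO.sm_facts y n hn1'
    obtain ⟨d, hd⟩ : ∃ d : ℕ, d = EO.sm y n := ⟨_, rfl⟩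
    rw [← hd] at c1 h1 g1 g2
    have hdx : d ≤ x := by
      have h2 : d ≤ d * p := Nat.le_mul_of_pos_right _ hp.pos
      omega
    by_cases c2 : Real.exp (t ^ 2) < (d : ℝ)
    · left
      refine ⟨d, ?_, p, hp, h1⟩
      rw [hT1, mem_filter, mem_Icc]
      exact ⟨⟨g1, hdx⟩, ⟨g2, c2⟩, c1.le⟩
    right
    by_cases c3 : t / 40 < (d.primeFactors.card : ℝ)
    · left
      refine ⟨d, ?_, p, hp, h1⟩
      rw [hT2, mem_filter, mem_Icc]
      exact ⟨⟨g1, hdx⟩, ⟨g2, c3⟩, c1.le⟩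
    right
    push Not at c2 c3
    obtain ⟨e, a, k, hdec⟩ := dec_exists s d hs (by omega)
    have ha1 : a ≠ 1 := by
      rintro rfl
      apply hn3
      refine ⟨e, k, p, hdec.2.2.1, hp, ?_⟩
      rw [h1]
      have := hdec.1
      rw [mul_one] at this
      rw [← this]
    by_cases c4 : a ∈ Bm s x
    · refine ⟨d, ?_, p, hp, h1⟩
      rw [hT3, mem_filter, mem_Icc]
      exact ⟨⟨g1, hdx⟩, ⟨e, a, k, hdec, c4⟩, c1.le⟩
    · exfalso
      apply hn2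
      refine ⟨d, p, h1, hp, by omega, by rw [← ht]; exact c2, ?_, by rw [← ht]; exact c3,
        e, a, k, hdec, ha1, c4⟩
      intro q hq hqd
      rw [← hy]
      exact g2 q (Nat.mem_primeFactors.2 ⟨hq, hqd, by omega⟩)
  refine hcover.trans ?_
  refine (cnt_or x _ _).trans ?_
  refine (add_le_add_right (cnt_or x _ _) _).trans ?_
  refine (add_le_add_right (add_le_add_right (cnt_or x _ _) _) _).trans ?_
  refine (add_le_add_right (add_le_add_right (add_le_add_right (cnt_or x _ _) _) _) _).trans ?_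
  -- numerics
  have hxL : (x : ℝ) / L = x * Real.exp (-t) := by
    rw [← p7, Real.exp_neg]
    rfl
  obtain ⟨Z, hZ⟩ : ∃ Z : ℝ, Z = x * Real.exp (-((1 + c) * t)) := ⟨_, rfl⟩
  have hexp2 : (5 : ℝ) ≤ Real.exp 2 := by
    have e2 := Real.exp_one_gt_d9
    have e3 : Real.exp 2 = Real.exp 1 * Real.exp 1 := by
      rw [← Real.exp_add]
      norm_num
    rw [e3]
    nlinarith
  have hexp4 : (35 : ℝ) ≤ Real.exp 4 := by
    have e3 : Real.exp 4 = Real.exp 2 * Real.exp 2 := by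
      rw [← Real.exp_add]
      norm_num
    have e2 := Real.exp_one_gt_d9
    have e4 : Real.exp 2 = Real.exp 1 * Real.exp 1 := by
      rw [← Real.exp_add]
      norm_num
    have e5 : (7 : ℝ) ≤ Real.exp 2 := by
      rw [e4]
      nlinarith
    rw [e3]
    nlinarith
  have hct : c * t ≤ t / 60 := by nlinarith
  have hL36 : 6 * D * t ^ 2 ≤ L := by
    have h1 : 36 * D * t ^ 2 ≤ t ^ 3 := by
      calc 36 * D * t ^ 2 ≤ t * t ^ 2 := mul_le_mul_of_nonneg_right ht36 (by positivity)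
        _ = t ^ 3 := by ring
    linarith
  have hLt : 4 * t ≤ L := by nlinarith
  have key : ∀ u : ℝ, (1 + c) * t + 2 ≤ u → x * Real.exp (-u) ≤ Z / 5 := by
    intro u hu
    rw [le_div_iff₀ (by norm_num), hZ]
    calc x * Real.exp (-u) * 5 ≤ x * Real.exp (-u) * Real.exp 2 :=
          mul_le_mul_of_nonneg_left hexp2 (by positivity)
      _ = x * Real.exp (-u + 2) := by rw [mul_assoc, ← Real.exp_add]
      _ ≤ x * Real.exp (-((1 + c) * t)) :=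
          mul_le_mul_of_nonneg_left (Real.exp_le_exp.2 (by linarith)) hx0.le
  have key2 : ∀ (v w : ℝ), 0 ≤ w → w ≤ Real.exp (-v) → c * t + 4 ≤ v →
      7 * (x / L) * w ≤ Z / 5 := by
    intro v w hw0 hw hv
    rw [le_div_iff₀ (by norm_num), hZ, hxL]
    calc 7 * (x * Real.exp (-t)) * w * 5 = x * (35 * (Real.exp (-t) * w)) := by ring
      _ ≤ x * (Real.exp 4 * (Real.exp (-t) * Real.exp (-v))) := by
          refine mul_le_mul_of_nonneg_left ?_ hx0.le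
          refine mul_le_mul hexp4 ?_ (by positivity) (by positivity)
          exact mul_le_mul_of_nonneg_left hw (Real.exp_pos _).le
      _ = x * Real.exp (4 + (-t + -v)) := by rw [Real.exp_add, Real.exp_add]
      _ ≤ x * Real.exp (-((1 + c) * t)) :=
          mul_le_mul_of_nonneg_left (Real.exp_le_exp.2 (by linarith)) hx0.le
  have r1 : cnt x (fun n => 1 ≤ n ∧ r ≤ (EO.sm y n : ℝ)) ≤ Z / 5 := by
    refine q4.trans ?_
    have h1 : r ^ (-(1 / (D * t))) * Real.exp (C * (y : ℝ) ^ (1 / (D * t)) *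
        (1 + Real.log (1 + Real.log y))) ≤ Real.exp (-(2 * t)) := by
      rw [hrexp, ← Real.exp_mul, ← Real.exp_add]
      refine Real.exp_le_exp.2 ?_
      have h4 : C * (y : ℝ) ^ (1 / (D * t)) * (1 + Real.log (1 + Real.log y)) ≤
          C * 3 * (1 + Real.log (1 + D * t)) := by
        refine mul_le_mul (mul_le_mul_of_nonneg_left p4 hC0.le) (by linarith) (by linarith)
          (by positivity)
      have h5 : 3 * t ≤ L / 2 * (1 / (D * t)) := by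
        have h6 : L / 2 * (1 / (D * t)) = L / (2 * D * t) := by
          field_simp
        rw [h6, le_div_iff₀ (by positivity)]
        calc 3 * t * (2 * D * t) = 6 * D * t ^ 2 := by ring
          _ ≤ L := hL36
      linarith
    refine (mul_le_mul_of_nonneg_left h1 hx0.le).trans (key _ ?_)
    nlinarith
  have r2 : cnt x (fun n => 1 ≤ n ∧ n ≤ ⌊r⌋₊) ≤ Z / 5 := by
    refine q5.trans ((Nat.floor_le hr0.le).trans ?_)
    refine le_trans (le_of_eq ?_) (key (L / 2) ?_)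
    · rw [hrexp, hxexp, ← Real.exp_add]
      congr 1
      ring
    · nlinarith
  have r3 := q1.trans (key2 (t / (2 * D)) _ (sum_nonneg fun _ _ => by positivity) s1 (by
    have h1 : c * t ≤ 1 / (3 * D) * t := mul_le_mul_of_nonneg_right hc1 ht0.le
    have h2 : t / (2 * D) = 1 / (3 * D) * t + t / (6 * D) := by
      field_simp
      ring
    have h3 : 4 ≤ t / (6 * D) := by
      rw [le_div_iff₀ (by positivity)]
      linarith
    linarith))
  have r4 := q2.trans (key2 (t / 50) _ (sum_nonneg fun _ _ => by positivity) s2 (by linarith))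
  have r5 := q3.trans (key2 (8 * t) _ (sum_nonneg fun _ _ => by positivity) (s3.trans (by
    have h1 : (L ^ 9)⁻¹ = Real.exp (-(9 * t)) := by
      rw [← p7, Real.exp_neg, ← Real.exp_nat_mul]
      norm_num
    rw [h1]
    have h2 : 2 * τ ≤ Real.exp t := by
      have := Real.add_one_le_exp t
      linarith
    calc 2 * τ * Real.exp (-(9 * t)) ≤ Real.exp t * Real.exp (-(9 * t)) :=
          mul_le_mul_of_nonneg_right h2 (Real.exp_pos _).le
      _ = Real.exp (-(8 * t)) := by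
          rw [← Real.exp_add]
          congr 1
          ring)) (by linarith))
  rw [← hZ]
  linarith

end Pool.Agent.Lib.MP_79499b_co.QZ
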