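import Pool.Agent.Lib.MP_79499b_co.QZ.QF1
import Pool.Agent.Lib.MP_79499b_co.QZ.QT7
import Pool.Agent.Lib.MP_79499b_co.QZ.QT8
import Pool.Agent.Lib.MP_79499b_co.QZ.QT11
import Pool.Agent.Lib.MP_79499b_co.PCTail

/-!
# QT12: Theorem T2

`rr_two`: if `s ≥ 2` is not prime and not a power of 2 then `rr s ≥ 2`: `s` has at least 3 divisors; `s` has an odd prime factor `l`, and `2^(v+1)`, `2^(v+1) l` (`v = v_2(s)`) divide `2s` but not `s`.

`even_nonprime`: if `rr s ≥ 2`, `s ≥ 2`: for `η > 0`, `x` large, at most `η x/log x` non-prime `2 ≤ n < x` are orders (nilpotent groups, dimension `2s`).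
Proof. `main_B` with `ε = 1/2`: `D`, orders with `Two`: `≤ x exp(-(3/2) LL) = x/L^(3/2)`. The others: `good_cof_few`; `rest_few`; and `n = e k^2 p`, `e ∣ 2s`, `p` prime: by `PC.tail` (`l = 2s`) those with `k ≥ S₀` are
at most `(η/4) x/log x`; for `k < S₀` the number `t = e k^2` takes finitely many values; `t ≥ 2` (if `t = 1` then `n = p` is prime; `t = 0` gives `n = 0`): `fixed_even` for each, with a small `η`. `Q38.cnt` in `tail` is the same count
(`cnt_eq` in Q38Deduce).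
-/

set_option autoImplicit false

namespace Pool.Agent.Lib.MP_79499b_co.QZ

open Finset DZ
open scoped Classical

theorem rr_two (s : ℕ) (hs : 2 ≤ s) (h1 : ¬ s.Prime) (h2 : ∀ k : ℕ, s ≠ 2 ^ k) : 2 ≤ rr s := by
  have hs0 : s ≠ 0 := by omega
  have hmf1 : s.minFac ≠ 1 := by
    intro h
    rw [Nat.minFac_eq_one_iff] at h
    omega
  have hmfs : s.minFac ≠ s := by
    intro h
    apply h1
    rw [← h]
    exact Nat.minFac_prime (by omega)
  have ha : 3 ≤ s.divisors.card := by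
    have hsub : ({1, s.minFac, s} : Finset ℕ) ⊆ s.divisors := by
      intro d hd
      rw [mem_insert, mem_insert, mem_singleton] at hd
      rw [Nat.mem_divisors]
      refine ⟨?_, hs0⟩
      rcases hd with rfl | rfl | rfl
      · exact one_dvd _
      · exact Nat.minFac_dvd s
      · exact dvd_rfl
    have hcard : ({1, s.minFac, s} : Finset ℕ).card = 3 := by
      rw [card_insert_of_notMem, card_insert_of_notMem, card_singleton]
      · rw [mem_singleton]
        exact hmfs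
      · rw [mem_insert, mem_singleton]
        push Not
        exact ⟨fun h => hmf1 h.symm, by omega⟩
    rw [← hcard]
    exact card_le_card hsub
  have hb : s.divisors.card + 2 ≤ (2 * s).divisors.card := by
    obtain ⟨v, m, hm, hsm⟩ := Nat.exists_eq_two_pow_mul_odd hs0
    have hm1 : m ≠ 1 := by
      intro h
      rw [h, mul_one] at hsm
      exact h2 v hsm
    have hm0 : m ≠ 0 := by
      intro h
      rw [h, mul_zero] at hsm
      omega
    have hpow : ¬ 2 ^ (v + 1) ∣ s := by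
      intro h
      rw [hsm, pow_succ, Nat.mul_dvd_mul_iff_left (by positivity)] at h
      exact (Nat.not_even_iff_odd.mpr hm) (even_iff_two_dvd.mpr h)
    have hne : 2 ^ (v + 1) ≠ 2 * s := by
      intro h
      rw [hsm, pow_succ] at h
      have h4 : 0 < 2 ^ v * 2 := by positivity
      have h5 : 2 ^ v * 2 * 1 = 2 ^ v * 2 * m := by
        rw [mul_one]
        calc 2 ^ v * 2 = 2 * (2 ^ v * m) := h
          _ = 2 ^ v * 2 * m := by ring
      exact hm1 (Nat.eq_of_mul_eq_mul_left h4 h5).symm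
    have hn1 : 2 ^ (v + 1) ∉ s.divisors := fun h => hpow (Nat.dvd_of_mem_divisors h)
    have hn2 : 2 * s ∉ s.divisors := by
      intro h
      have := Nat.le_of_dvd (by omega) (Nat.dvd_of_mem_divisors h)
      omega
    have hsub : insert (2 ^ (v + 1)) (insert (2 * s) s.divisors) ⊆ (2 * s).divisors := by
      intro d hd
      rw [mem_insert, mem_insert] at hd
      rw [Nat.mem_divisors]
      refine ⟨?_, by omega⟩
      rcases hd with rfl | rfl | hd
      · rw [hsm, pow_succ, mul_comm (2 ^ v) 2]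
        exact Nat.mul_dvd_mul_left 2 (Dvd.intro _ rfl)
      · exact dvd_rfl
      · exact (Nat.dvd_of_mem_divisors hd).trans (Dvd.intro_left _ rfl)
    have hc := card_le_card hsub
    rw [card_insert_of_notMem, card_insert_of_notMem hn2] at hc
    · exact hc
    · rw [mem_insert]
      push Not
      exact ⟨hne, hn1⟩
  unfold rr
  rw [le_min_iff]
  constructor <;> omega

private theorem qt12_small (c δ : ℝ) (hc : 0 < c) (hδ : 0 < δ) : ∃ x0 : ℕ, ∀ x : ℕ, x0 ≤ x →
    0 ≤ LL x ∧ x * Real.exp (-((1 + c) * LL x)) ≤ δ * (x / Real.log x) := by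
  have hL : Filter.Tendsto (fun x : ℕ => Real.log (x : ℝ)) Filter.atTop Filter.atTop :=
    Real.tendsto_log_atTop.comp tendsto_natCast_atTop_atTop
  have hLL : Filter.Tendsto (fun x : ℕ => LL x) Filter.atTop Filter.atTop :=
    Real.tendsto_log_atTop.comp hL
  obtain ⟨x0, h0⟩ := Filter.eventually_atTop.1 ((hL.eventually_gt_atTop 0).and
    ((hLL.eventually_ge_atTop 0).and (hLL.eventually_ge_atTop (-Real.log δ / c))))
  refine ⟨x0, fun x hx => ?_⟩
  obtain ⟨g1, g2, g3⟩ := h0 x hx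
  refine ⟨g2, ?_⟩
  have e1 : Real.exp (LL x) = Real.log x := Real.exp_log g1
  have e2 : Real.exp (-((1 + c) * LL x)) = (Real.log x)⁻¹ * Real.exp (-(c * LL x)) := by
    rw [← e1, ← Real.exp_neg, ← Real.exp_add]
    congr 1
    ring
  have e3 : Real.exp (-(c * LL x)) ≤ δ := by
    rw [← Real.le_log_iff_exp_le hδ]
    rw [div_le_iff₀ hc] at g3
    linarith
  rw [e2]
  have hx0 : (0 : ℝ) ≤ x := Nat.cast_nonneg x
  calc (x : ℝ) * ((Real.log x)⁻¹ * Real.exp (-(c * LL x))) ≤ x * ((Real.log x)⁻¹ * δ) := by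
        apply mul_le_mul_of_nonneg_left _ hx0
        exact mul_le_mul_of_nonneg_left e3 (inv_pos.mpr g1).le
    _ = δ * (x / Real.log x) := by
        rw [div_eq_mul_inv]
        ring

theorem even_nonprime (s : ℕ) (hs : 2 ≤ s) (h : 2 ≤ rr s) (η : ℝ) (hη : 0 < η) :
    ∃ x0 : ℕ, ∀ x : ℕ, x0 ≤ x →
      cnt x (fun n => 2 ≤ n ∧ ¬ n.Prime ∧ NilOrder n (2 * s)) ≤ η * (x / Real.log x) := by
  obtain ⟨D, x1, hD, hB⟩ := main_B s hs (1 / 2) (by norm_num)
  obtain ⟨x2, hG⟩ := good_cof_few s D hs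
  obtain ⟨c, x3, hc, hR⟩ := rest_few s D (by omega) hD
  obtain ⟨S₀, x4, hT⟩ := PC.tail (l := 2 * s) (by omega) (show 0 < η / 8 by positivity)
  set T : Finset ℕ := (((2 * s).divisors ×ˢ range S₀).image (fun ek => ek.1 * ek.2 ^ 2)).filter
    (fun t => 2 ≤ t) with hTdef
  set δ : ℝ := η / (8 * (T.card + 1)) with hδ
  have hδ0 : 0 < δ := by positivity
  have hF : ∀ t : ℕ, ∃ x0 : ℕ, 2 ≤ t → ∀ x : ℕ, x0 ≤ x →
      cnt x (fun n => NilOrder n (2 * s) ∧ ∃ q : ℕ, q.Prime ∧ n = t * q) ≤ δ * (x / Real.log x) := by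
    intro t
    by_cases ht : 2 ≤ t
    · obtain ⟨x0, h0⟩ := fixed_even s t hs ht δ hδ0
      exact ⟨x0, fun _ => h0⟩
    · exact ⟨0, fun h' => absurd h' ht⟩
  choose f hf using hF
  have hφ : (0 : ℝ) < 1 / (7 * ((MM s).totient : ℝ)) := by
    have hMM : 0 < MM s := by
      unfold MM so
      have h3 : 2 ^ s.factorization 2 ∣ s := Nat.ordProj_dvd s 2
      have h4 : 0 < s / 2 ^ s.factorization 2 := Nat.div_pos (Nat.le_of_dvd (by omega) h3) (by positivity)
      positivity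
    have : 0 < (MM s).totient := Nat.totient_pos.mpr hMM
    positivity
  obtain ⟨y1, hy1⟩ := qt12_small (1 / 2) (η / 8) (by norm_num) (by positivity)
  obtain ⟨y2, hy2⟩ := qt12_small _ (η / 8) hφ (by positivity)
  obtain ⟨y3, hy3⟩ := qt12_small c (η / 8) hc (by positivity)
  refine ⟨max (max (max x1 x2) (max x3 x4)) (max (max y1 y2) (max y3 (max 3 (T.sup f)))), fun x hx => ?_⟩
  simp only [max_le_iff] at hx
  obtain ⟨⟨⟨hx1, hx2⟩, hx3, hx4⟩, ⟨hx5, hx6⟩, hx7, hx8, hx9⟩ := hx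
  have hlog : 0 < Real.log x := Real.log_pos (by
    have : 1 < x := by omega
    exact_mod_cast this)
  have hxL : (0 : ℝ) ≤ x / Real.log x := by positivity
  -- the decomposition
  set P1 : ℕ → Prop := fun n => NilOrder n (2 * s) ∧ Two (zD D x) n with hP1
  set P2 : ℕ → Prop := fun n => NilOrder n (2 * s) ∧ ∃ m p : ℕ, n = m * p ∧ p.Prime ∧ GoodCof s D x m with hP2
  set P3 : ℕ → Prop := fun n => n ≠ 0 ∧ ¬ Two (zD D x) n ∧
      (¬ ∃ m p : ℕ, n = m * p ∧ p.Prime ∧ GoodCof s D x m) ∧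
      ¬ ∃ e k p : ℕ, e ∣ 2 * s ∧ p.Prime ∧ n = e * k ^ 2 * p with hP3
  set P4 : ℕ → Prop := fun n => ∃ e k q : ℕ, e ∣ 2 * s ∧ S₀ ≤ k ∧ q.Prime ∧ n = e * k ^ 2 * q with hP4
  set P5 : ℕ → Prop := fun n => ∃ t ∈ T, NilOrder n (2 * s) ∧ ∃ q : ℕ, q.Prime ∧ n = t * q with hP5
  have hdec : ∀ n, n < x → (2 ≤ n ∧ ¬ n.Prime ∧ NilOrder n (2 * s)) →
      (P1 n ∨ (P2 n ∨ (P3 n ∨ (P4 n ∨ P5 n)))) := by
    rintro n - ⟨hn2, hnp, hno⟩
    by_cases h1 : Two (zD D x) n
    · exact Or.inl ⟨hno, h1⟩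
    by_cases h2 : ∃ m p : ℕ, n = m * p ∧ p.Prime ∧ GoodCof s D x m
    · exact Or.inr (Or.inl ⟨hno, h2⟩)
    by_cases h3 : ∃ e k p : ℕ, e ∣ 2 * s ∧ p.Prime ∧ n = e * k ^ 2 * p
    swap
    · exact Or.inr (Or.inr (Or.inl ⟨by omega, h1, h2, h3⟩))
    obtain ⟨e, k, p, he, hp, hn⟩ := h3
    by_cases hk : S₀ ≤ k
    · exact Or.inr (Or.inr (Or.inr (Or.inl ⟨e, k, p, he, hk, hp, hn⟩)))
    · refine Or.inr (Or.inr (Or.inr (Or.inr ⟨e * k ^ 2, ?_, hno, p, hp, hn⟩)))
      rw [hTdef, mem_filter, mem_image]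
      refine ⟨⟨(e, k), ?_, rfl⟩, ?_⟩
      · rw [mem_product, mem_range, Nat.mem_divisors]
        exact ⟨⟨he, by omega⟩, by omega⟩
      · by_contra hlt
        have h01 : e * k ^ 2 = 0 ∨ e * k ^ 2 = 1 := by omega
        rcases h01 with h0 | h0
        · rw [h0, zero_mul] at hn
          omega
        · rw [h0, one_mul] at hn
          rw [hn] at hnp
          exact hnp hp
  have hA := cnt_mono (x := x) hdec
  have h12 := cnt_or x P1 (fun n => P2 n ∨ (P3 n ∨ (P4 n ∨ P5 n)))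
  have h23 := cnt_or x P2 (fun n => P3 n ∨ (P4 n ∨ P5 n))
  have h34 := cnt_or x P3 (fun n => P4 n ∨ P5 n)
  have h45 := cnt_or x P4 P5
  have b1 : cnt x P1 ≤ η / 8 * (x / Real.log x) := by
    refine (hB x hx1).trans ?_
    obtain ⟨z1, z2⟩ := hy1 x hx5
    refine le_trans ?_ z2
    apply mul_le_mul_of_nonneg_left _ (Nat.cast_nonneg x)
    apply Real.exp_le_exp.mpr
    have hrr : (2 : ℝ) ≤ rr s := by exact_mod_cast h
    have : (1 + 1 / 2) * LL x ≤ ((rr s : ℝ) - 1 / 2) * LL x :=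
      mul_le_mul_of_nonneg_right (by linarith) z1
    linarith
  have b2 : cnt x P2 ≤ η / 8 * (x / Real.log x) := (hG x hx2).trans (hy2 x hx6).2
  have b3 : cnt x P3 ≤ η / 8 * (x / Real.log x) := (hR x hx3).trans (hy3 x hx7).2
  have b4 : cnt x P4 ≤ η / 8 * (x / Real.log x) := by
    have e := hT x hx4
    rw [Q38.cnt_eq] at e
    exact e
  have b5 : cnt x P5 ≤ η / 8 * (x / Real.log x) := by
    refine (cnt_exists x T _).trans ?_
    have h6 : ∀ t ∈ T, cnt x (fun n => NilOrder n (2 * s) ∧ ∃ q : ℕ, q.Prime ∧ n = t * q) ≤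
        δ * (x / Real.log x) := by
      intro t ht
      have ht2 : 2 ≤ t := by
        rw [hTdef, mem_filter] at ht
        exact ht.2
      exact hf t ht2 x ((le_sup ht).trans hx9)
    refine (sum_le_sum h6).trans ?_
    rw [sum_const, nsmul_eq_mul, ← mul_assoc]
    apply mul_le_mul_of_nonneg_right _ hxL
    rw [hδ, ← mul_div_assoc, div_le_iff₀ (by positivity)]
    have : (0 : ℝ) ≤ T.card := Nat.cast_nonneg _
    nlinarith
  have hfin : 0 ≤ η / 8 * (x / Real.log x) := by positivity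
  have e : η * (x / Real.log x) = 8 * (η / 8 * (x / Real.log x)) := by ring
  rw [e]
  linarith

end Pool.Agent.Lib.MP_79499b_co.QZ
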