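import Pool.Agent.Lib.MP_79499b_co.QZ.QF1
import Pool.Agent.Lib.MP_79499b_co.QZ.QT7
import Pool.Agent.Lib.MP_79499b_co.QZ.QT8

/-!
# QT13: the quantitative form of Theorem T2

If `rr s ≥ 2`, all but `C x/(log x)^(1+c)` of the orders `0 < n < x` (nilpotent groups, dimension `2s`) have the form
`e k^2 p`, `e ∣ 2s`, `p` prime.
Proof: `main_B` with `ε = 1/2`, `good_cof_few`, `rest_few`.
-/

set_option autoImplicit false

namespace Pool.Agent.Lib.MP_79499b_co.QZ

open Finset DZ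
open scoped Classical

private theorem QT13_or (x : ℕ) (P Q R S : ℕ → Prop) (h : ∀ n, P n → Q n ∨ R n ∨ S n) :
    cnt x P ≤ cnt x Q + cnt x R + cnt x S := by
  unfold EO.cnt
  have h1 : (range x).filter P ⊆ ((range x).filter Q ∪ (range x).filter R) ∪
      (range x).filter S := by
    intro n hn
    rw [mem_filter] at hn
    rw [mem_union, mem_union, mem_filter, mem_filter, mem_filter]
    rcases h n hn.2 with h2 | h2 | h2
    · exact Or.inl (Or.inl ⟨hn.1, h2⟩)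
    · exact Or.inl (Or.inr ⟨hn.1, h2⟩)
    · exact Or.inr ⟨hn.1, h2⟩
  have h2 := (card_le_card h1).trans ((card_union_le _ _).trans
    (Nat.add_le_add_right (card_union_le _ _) _))
  exact_mod_cast h2

private theorem QT13_triv (x : ℕ) (P : ℕ → Prop) : cnt x P ≤ x := by
  unfold EO.cnt
  refine Nat.cast_le.mpr ?_
  refine (card_filter_le _ _).trans ?_
  rw [card_range]

theorem even_shape (s : ℕ) (hs : 2 ≤ s) (h : 2 ≤ rr s) : ∃ c C : ℝ, 0 < c ∧ 0 ≤ C ∧
    ∀ x : ℕ, 3 ≤ x → cnt x (fun n => n ≠ 0 ∧ NilOrder n (2 * s) ∧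
      ¬ ∃ e k p : ℕ, e ∣ 2 * s ∧ p.Prime ∧ n = e * k ^ 2 * p) ≤
      C * (x / Real.log x ^ (1 + c)) := by
  obtain ⟨D, x1, hD, h1⟩ := main_B s hs (1 / 2) (by norm_num)
  obtain ⟨x2, h2⟩ := good_cof_few s D hs
  obtain ⟨c3, x3, hc3, h3⟩ := rest_few s D (by omega) hD
  obtain ⟨c2, hc2⟩ : ∃ c2 : ℝ, c2 = 1 / (7 * ((MM s).totient : ℝ)) := ⟨_, rfl⟩
  have hMM : 1 ≤ MM s := (hh_facts s (by omega)).2.2.2
  have hφ : (0 : ℝ) < ((MM s).totient : ℝ) := by
    exact_mod_cast Nat.totient_pos.mpr hMM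
  have hc2p : 0 < c2 := by
    rw [hc2]
    positivity
  obtain ⟨c, hc⟩ : ∃ c : ℝ, c = min (1 / 2) (min c2 c3) := ⟨_, rfl⟩
  have hcp : 0 < c := by
    rw [hc]
    exact lt_min (by norm_num) (lt_min hc2p hc3)
  have hca : c ≤ 1 / 2 := by rw [hc]; exact min_le_left _ _
  have hcb : c ≤ c2 := by rw [hc]; exact (min_le_right _ _).trans (min_le_left _ _)
  have hcc : c ≤ c3 := by rw [hc]; exact (min_le_right _ _).trans (min_le_right _ _)
  obtain ⟨x0, hx0⟩ : ∃ x0 : ℕ, x0 = max x1 (max x2 (max x3 3)) := ⟨_, rfl⟩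
  have hlog3 : ∀ x : ℕ, 3 ≤ x → 1 ≤ Real.log x := by
    intro x hx
    have hxR : (3 : ℝ) ≤ x := by exact_mod_cast hx
    rw [Real.le_log_iff_exp_le (by linarith)]
    have := Real.exp_one_lt_d9
    linarith
  have hx03 : 3 ≤ x0 := by
    rw [hx0]
    exact (le_max_right _ _).trans ((le_max_right _ _).trans (le_max_right _ _))
  have hP0 : 0 < Real.log x0 ^ (1 + c) :=
    Real.rpow_pos_of_pos (lt_of_lt_of_le one_pos (hlog3 x0 hx03)) _
  refine ⟨c, 3 + Real.log x0 ^ (1 + c), hcp, by positivity, fun x hx => ?_⟩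
  have hxp : (0 : ℝ) < x := by exact_mod_cast (by omega : 0 < x)
  have hL1 := hlog3 x hx
  have hLp : 0 < Real.log x := by linarith
  have hP : 0 < Real.log x ^ (1 + c) := Real.rpow_pos_of_pos hLp _
  by_cases hsm : x < x0
  · refine (QT13_triv x _).trans ?_
    have hle : Real.log x ^ (1 + c) ≤ Real.log x0 ^ (1 + c) :=
      Real.rpow_le_rpow hLp.le (Real.log_le_log hxp (by exact_mod_cast hsm.le)) (by linarith)
    rw [mul_div_assoc', le_div_iff₀ hP]
    calc (x : ℝ) * Real.log x ^ (1 + c) ≤ x * (3 + Real.log x0 ^ (1 + c)) :=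
          mul_le_mul_of_nonneg_left (by linarith) hxp.le
      _ = (3 + Real.log x0 ^ (1 + c)) * x := by ring
  · have hge : x0 ≤ x := not_lt.1 hsm
    rw [hx0] at hge
    have g1 := h1 x ((le_max_left _ _).trans hge)
    have g2 := h2 x ((le_max_left _ _).trans ((le_max_right _ _).trans hge))
    have g3 := h3 x ((le_max_left _ _).trans ((le_max_right _ _).trans
      ((le_max_right _ _).trans hge)))
    rw [← hc2] at g2
    have hLL : 0 ≤ LL x := Real.log_nonneg hL1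
    have hkey : ∀ a : ℝ, 1 + c ≤ a → x * Real.exp (-(a * LL x)) ≤ x / Real.log x ^ (1 + c) := by
      intro a ha
      rw [div_eq_mul_inv, Real.rpow_def_of_pos hLp, ← Real.exp_neg]
      refine mul_le_mul_of_nonneg_left (Real.exp_le_exp.mpr ?_) hxp.le
      unfold LL
      unfold LL at hLL
      nlinarith
    have hrr : (2 : ℝ) ≤ rr s := by exact_mod_cast h
    have k1 := g1.trans (hkey (rr s - 1 / 2) (by linarith))
    have k2 := g2.trans (hkey (1 + c2) (by linarith))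
    have k3 := g3.trans (hkey (1 + c3) (by linarith))
    have hor := QT13_or x (fun n => n ≠ 0 ∧ NilOrder n (2 * s) ∧
      ¬ ∃ e k p : ℕ, e ∣ 2 * s ∧ p.Prime ∧ n = e * k ^ 2 * p)
      (fun n => NilOrder n (2 * s) ∧ Two (zD D x) n)
      (fun n => NilOrder n (2 * s) ∧ ∃ m p : ℕ, n = m * p ∧ p.Prime ∧ GoodCof s D x m)
      (fun n => n ≠ 0 ∧ ¬ Two (zD D x) n ∧
        (¬ ∃ m p : ℕ, n = m * p ∧ p.Prime ∧ GoodCof s D x m) ∧
        ¬ ∃ e k p : ℕ, e ∣ 2 * s ∧ p.Prime ∧ n = e * k ^ 2 * p)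
      (by
        rintro n ⟨n1, n2, n3⟩
        by_cases t1 : Two (zD D x) n
        · exact Or.inl ⟨n2, t1⟩
        by_cases t2 : ∃ m p : ℕ, n = m * p ∧ p.Prime ∧ GoodCof s D x m
        · exact Or.inr (Or.inl ⟨n2, t2⟩)
        · exact Or.inr (Or.inr ⟨n1, t1, t2, n3⟩))
    have hdiv : 0 < x / Real.log x ^ (1 + c) := by positivity
    calc _ ≤ _ := hor
      _ ≤ 3 * (x / Real.log x ^ (1 + c)) := by linarith
      _ ≤ (3 + Real.log x0 ^ (1 + c)) * (x / Real.log x ^ (1 + c)) :=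
          mul_le_mul_of_nonneg_right (by linarith) hdiv.le

end Pool.Agent.Lib.MP_79499b_co.QZ
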