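import Pool.Agent.Lib.MP_79499b_co.DZ.LU
import Pool.Agent.Lib.MP_79499b_co.QZ.QT1
import Pool.Agent.Lib.MP_79499b_co.QZ.QT2

/-!
# QT3: real characters over the range

`real_sum`: `x` large, `a > 1` odd, squarefree, coprime to `2s`, `a ≤ exp LL^2`, `a ∉ Bm s x`: `|∑_{w ∈ RQ, w ≡ hh mod MM} J(w | a)/w| ≤ 1`.

Proof. `M = MM s`, `h = hh s`. The primes `w ∈ RQ` are larger than `a M` (`exp L^(1/10) > M exp LL^2`), so coprime to `a M`. For a Dirichlet character `ψ`
mod `M` let `χ` be the character mod `a M` with `χ(n) = J(n | a) ψ(n)` for `n` coprime to `a M` (`a`, `M` coprime, since the primes of `M` divide `2s`; the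
Jacobi symbol is a real character mod `a`; `changeLevel`). `χ` is induced by a primitive character `χ*` mod `f ∣ a M`.
`a ∣ f`: let `l ∣ a` be a prime and suppose `l ∤ f`. Then `f ∣ (a/l) M`. Take `u` with `u ≡ 1 mod (a/l) M` and `u` a nonresidue mod `l` (Chinese
remainder; `l` odd, `l ∤ (a/l) M`). Then `u ≡ 1 mod f`, so `χ(u) = χ*(u) = 1`, but `χ(u) = J(u | l) J(u | a/l) ψ(u) = -1`: contradiction. As `a` is
squarefree, `a ∣ f`. So `f = a d`, `d ∣ M`, `2 ≤ a ≤ f ≤ a M ≤ exp LL^3`, and since `a ∉ Bm`, `f ∉ BDc`: `‖SP (2^i) χ*‖ < τ = L^(-4)` for all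
`i ∈ II`. `χ*(w) = χ(w)` for the `w ∈ RQ`. The blocks are disjoint (`Bl_disj` in DZ/LT.lean) and `|II| ≤ 2 L`, so `‖∑_{w ∈ RQ} χ(w)/w‖ ≤ 2 L^(-3)`.
Finally `1_{w ≡ h mod M} = (1/φ(M)) ∑_ψ conj ψ(h) ψ(w)` (orthogonality: `DirichletCharacter.sum_char_inv_mul_char_eq`), so the sum in question is at most
`2 L^(-3) ≤ 1`.
-/

set_option autoImplicit false

namespace Pool.Agent.Lib.MP_79499b_co.QZ

open Finset DZ
open scoped Classical NumberTheorySymbols

private theorem QT3_jmod (a n : ℕ) : J(((n % a : ℕ) : ℤ) | a) = J((n : ℤ) | a) := by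
  rw [Int.natCast_mod, ← jacobiSym.mod_left]

/-- the Jacobi symbol as a Dirichlet character -/
private noncomputable def QT3_J (a : ℕ) (ha : a ≠ 0) : DirichletCharacter ℂ a where
  toFun z := ((J(((z.val : ℕ) : ℤ) | a) : ℤ) : ℂ)
  map_one' := by
    rw [ZMod.val_one_eq_one_mod, QT3_jmod, Nat.cast_one, jacobiSym.one_left, Int.cast_one]
  map_mul' x y := by
    rw [ZMod.val_mul, QT3_jmod, Nat.cast_mul, jacobiSym.mul_left, Int.cast_mul]
  map_nonunit' z hz := by
    have : NeZero a := ⟨ha⟩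
    rw [Int.cast_eq_zero, jacobiSym.eq_zero_iff]
    refine ⟨ha, fun h => hz ?_⟩
    rw [Int.gcd_natCast_natCast] at h
    rw [← ZMod.natCast_zmod_val z, ZMod.isUnit_iff_coprime]
    exact h

private theorem QT3_J_apply (a : ℕ) (ha : a ≠ 0) (n : ℕ) :
    QT3_J a ha (n : ZMod a) = ((J((n : ℤ) | a) : ℤ) : ℂ) := by
  show ((J(((((n : ZMod a)).val : ℕ) : ℤ) | a) : ℤ) : ℂ) = _
  rw [ZMod.val_natCast, QT3_jmod]

/-- the product with a character modulo `M` -/
private noncomputable def QT3_chi (a M : ℕ) (ha : a ≠ 0) (ψ : DirichletCharacter ℂ M) :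
    DirichletCharacter ℂ (a * M) :=
  DirichletCharacter.changeLevel (Dvd.intro M rfl) (QT3_J a ha) *
    DirichletCharacter.changeLevel (Dvd.intro_left a rfl) ψ

private theorem QT3_chi_apply (a M : ℕ) (ha : a ≠ 0) (ψ : DirichletCharacter ℂ M) (n : ℕ)
    (hn : n.Coprime (a * M)) :
    QT3_chi a M ha ψ (n : ZMod (a * M)) = ((J((n : ℤ) | a) : ℤ) : ℂ) * ψ (n : ZMod M) := by
  unfold QT3_chi
  rw [MulChar.mul_apply, LU_change _ _ hn, LU_change _ _ hn, QT3_J_apply]

private theorem QT3_cond (a M : ℕ) (ha : a ≠ 0) (hsq : Squarefree a) (hodd : ¬ 2 ∣ a)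
    (hco : a.Coprime M) (ψ : DirichletCharacter ℂ M) : a ∣ (QT3_chi a M ha ψ).conductor := by
  obtain ⟨hd, χ0, hχ⟩ := (QT3_chi a M ha ψ).factorsThrough_conductor
  set f := (QT3_chi a M ha ψ).conductor with hf
  have hprod : ∏ p ∈ a.primeFactors, p ∣ f := by
    refine Finset.prod_primes_dvd f (fun p hp => (Nat.prime_of_mem_primeFactors hp).prime)
      (fun l hl => ?_)
    have hlp := Nat.prime_of_mem_primeFactors hl
    obtain ⟨b, hb⟩ := Nat.dvd_of_mem_primeFactors hl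
    by_contra hlf
    have hb0 : b ≠ 0 := by
      rintro rfl
      rw [mul_zero] at hb
      exact ha hb
    have hlb : ¬ l ∣ b := by
      rintro ⟨c, rfl⟩
      have h1 : IsUnit l := hsq l ⟨c, by rw [hb, mul_assoc]⟩
      exact hlp.one_lt.ne' (Nat.isUnit_iff.mp h1)
    have hlM : ¬ l ∣ M := by
      intro h
      have h1 : l ∣ Nat.gcd a M := Nat.dvd_gcd ⟨b, hb⟩ h
      rw [hco] at h1
      exact hlp.one_lt.ne' (Nat.dvd_one.mp h1)
    have hl2 : l ≠ 2 := by
      rintro rfl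
      exact hodd ⟨b, hb⟩
    have hfl : f.Coprime l := ((Nat.Prime.coprime_iff_not_dvd hlp).mpr hlf).symm
    have hfb : f ∣ b * M := by
      refine hfl.dvd_of_dvd_mul_left ?_
      rw [← mul_assoc, ← hb]
      exact hd
    have := Fact.mk hlp
    obtain ⟨c, hc⟩ := LU_nsq (w := l) hl2
    have hcop : (b * M).Coprime l := by
      refine ((Nat.Prime.coprime_iff_not_dvd hlp).mpr fun h => ?_).symm
      rcases (Nat.Prime.dvd_mul hlp).mp h with h | h
      · exact hlb h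
      · exact hlM h
    obtain ⟨u, hu1, hu2⟩ := Nat.chineseRemainder hcop 1 c.val
    have hul : (u : ZMod l) = c := by
      rw [(ZMod.natCast_eq_natCast_iff u c.val l).2 hu2, ZMod.natCast_zmod_val]
    have hubM : u.Coprime (b * M) := by
      rw [Nat.Coprime, hu1.gcd_eq, Nat.gcd_one_left]
    have hulc : u.Coprime l := by
      rw [Nat.coprime_comm, hlp.coprime_iff_not_dvd]
      intro hd
      have h4 : (u : ZMod l) = 0 := (ZMod.natCast_eq_zero_iff u l).2 hd
      rw [← hul, h4] at hc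
      exact hc IsSquare.zero
    have hucop : u.Coprime (a * M) := by
      rw [hb, mul_assoc]
      exact Nat.Coprime.mul_right hulc hubM
    have e1 : QT3_chi a M ha ψ (u : ZMod (a * M)) = 1 := by
      rw [hχ, LU_change _ _ hucop, (ZMod.natCast_eq_natCast_iff u 1 f).2 (hu1.of_dvd hfb),
        Nat.cast_one, map_one]
    have e3 : (u : ZMod M) = 1 := by
      rw [(ZMod.natCast_eq_natCast_iff u 1 M).2 (hu1.of_dvd (dvd_mul_left M b)), Nat.cast_one]
    have e4 : J((u : ℤ) | l) = -1 := by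
      rw [← jacobiSym.legendreSym.to_jacobiSym, legendreSym.eq_neg_one_iff]
      rw [Int.cast_natCast, hul]
      exact hc
    have e5 : J((u : ℤ) | b) = 1 := by
      have h1 : u % b = 1 % b := hu1.of_dvd (dvd_mul_right b M)
      rw [← QT3_jmod b u, h1, QT3_jmod, Nat.cast_one, jacobiSym.one_left]
    have e6 : J((u : ℤ) | a) = -1 := by
      rw [hb, jacobiSym.mul_right' _ hlp.ne_zero hb0, e4, e5, mul_one]
    rw [QT3_chi_apply a M ha ψ u hucop, e3, map_one, e6] at e1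
    norm_num at e1
  rwa [Nat.prod_primeFactors_of_squarefree hsq] at hprod

private theorem QT3_block (a M P : ℕ) (ha : a ≠ 0) (hM : M ≠ 0) (hsq : Squarefree a)
    (hodd : ¬ 2 ∣ a) (hco : a.Coprime M) (hP : ∀ p ∈ Bl P, p.Coprime (a * M))
    (ψ : DirichletCharacter ℂ M) (τ : ℝ) (hbad : ∀ d ∈ Icc 1 M, ¬ Bd P τ (a * d)) :
    ‖∑ p ∈ Bl P, ((J((p : ℤ) | a) : ℤ) : ℂ) * ψ (p : ZMod M) / (p : ℂ)‖ < τ := by
  by_contra hcon
  rw [not_lt] at hcon
  obtain ⟨d, hd⟩ := QT3_cond a M ha hsq hodd hco ψ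
  have hdM : d ∣ M := by
    have h1 := (QT3_chi a M ha ψ).conductor_dvd_level
    rw [hd] at h1
    exact Nat.dvd_of_mul_dvd_mul_left (Nat.pos_of_ne_zero ha) h1
  have hd1 : d ∈ Icc 1 M := by
    rw [mem_Icc]
    exact ⟨Nat.pos_of_dvd_of_pos hdM (Nat.pos_of_ne_zero hM),
      Nat.le_of_dvd (Nat.pos_of_ne_zero hM) hdM⟩
  refine hbad d hd1 ?_
  rw [← hd]
  refine ⟨(QT3_chi a M ha ψ).primitiveCharacter,
    (QT3_chi a M ha ψ).primitiveCharacter_isPrimitive, ?_⟩
  refine hcon.trans (le_of_eq ?_)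
  congr 1
  unfold SP
  refine sum_congr rfl fun p hp => ?_
  have h1 := hP p hp
  rw [← QT3_chi_apply a M ha ψ p h1]
  congr 1
  conv_lhs => rw [← (QT3_chi a M ha ψ).changeLevel_primitiveCharacter]
  exact LU_change _ _ h1

private theorem QT3_II (s x : ℕ) (hL : 1 ≤ Real.log x) :
    ((II s x).card : ℝ) ≤ 2 * Real.log x := by
  have h1 : II s x ⊆ range ⌊2 * Real.log x⌋₊ := by
    intro i hi
    unfold II at hi
    rw [mem_filter] at hi
    obtain ⟨-, -, h2⟩ := hi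
    rw [mem_range]
    refine Nat.lt_of_succ_le (Nat.le_floor ?_)
    have h3 : th2 s ≤ 1 := by
      unfold th2
      have : 0 ≤ 1 / (40 * ((MM s).totient : ℝ)) := by positivity
      linarith
    have h4 : Real.log x ^ (th2 s) ≤ Real.log x := by
      calc Real.log x ^ (th2 s) ≤ Real.log x ^ (1 : ℝ) :=
            Real.rpow_le_rpow_of_exponent_le hL h3
        _ = Real.log x := Real.rpow_one _
    have h5 : (2 : ℝ) ^ (i + 1) ≤ Real.exp (Real.log x) := h2.trans (Real.exp_le_exp.mpr h4)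
    have h6 := Real.log_le_log (by positivity) h5
    rw [Real.log_exp, Real.log_pow] at h6
    have h7 := Real.log_two_gt_d9
    push_cast at h6 ⊢
    nlinarith
  have h2 : ((II s x).card : ℝ) ≤ (⌊2 * Real.log x⌋₊ : ℝ) := by
    have := card_le_card h1
    rw [card_range] at this
    exact_mod_cast this
  exact h2.trans (Nat.floor_le (by positivity))

private theorem QT3_RQ (s x : ℕ) (F : ℕ → ℂ) :
    ∑ w ∈ RQ s x, F w = ∑ i ∈ II s x, ∑ w ∈ Bl (2 ^ i), F w := by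
  unfold RQ
  rw [sum_biUnion]
  intro i _ j _ hij
  exact Bl_disj (Set.mem_univ i) (Set.mem_univ j) hij

private theorem QT3_orth (M h : ℕ) [NeZero M] (hh : h.Coprime M) (R : Finset ℕ) (F : ℕ → ℂ) :
    (M.totient : ℂ) * ∑ w ∈ R.filter (fun w => w ≡ h [MOD M]), F w =
      ∑ ψ : DirichletCharacter ℂ M, ψ (h : ZMod M)⁻¹ * ∑ w ∈ R, F w * ψ (w : ZMod M) := by
  have h1 : IsUnit (h : ZMod M) := (ZMod.isUnit_iff_coprime h M).mpr hh
  have h2 : ∀ w : ℕ, ∑ ψ : DirichletCharacter ℂ M, ψ (h : ZMod M)⁻¹ * ψ (w : ZMod M) =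
      if (h : ZMod M) = (w : ZMod M) then (M.totient : ℂ) else 0 := fun w =>
    DirichletCharacter.sum_char_inv_mul_char_eq ℂ h1 (w : ZMod M)
  calc (M.totient : ℂ) * ∑ w ∈ R.filter (fun w => w ≡ h [MOD M]), F w =
        ∑ w ∈ R, F w * (if (h : ZMod M) = (w : ZMod M) then (M.totient : ℂ) else 0) := by
        rw [sum_filter, mul_sum]
        refine sum_congr rfl fun w _ => ?_
        by_cases hw : w ≡ h [MOD M]
        · rw [if_pos hw, if_pos ((ZMod.natCast_eq_natCast_iff h w M).2 hw.symm)]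
          ring
        · rw [if_neg hw, if_neg (fun h3 => hw ((ZMod.natCast_eq_natCast_iff h w M).1 h3).symm)]
          ring
    _ = ∑ w ∈ R, ∑ ψ : DirichletCharacter ℂ M,
          ψ (h : ZMod M)⁻¹ * (F w * ψ (w : ZMod M)) := by
        refine sum_congr rfl fun w _ => ?_
        rw [← h2 w, mul_sum]
        refine sum_congr rfl fun ψ _ => ?_
        ring
    _ = _ := by
        rw [sum_comm]
        refine sum_congr rfl fun ψ _ => ?_
        rw [mul_sum]

theorem real_sum (s : ℕ) (hs : 1 ≤ s) : ∃ x0 : ℕ, ∀ x : ℕ, x0 ≤ x → ∀ a : ℕ, 1 < a →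
    Squarefree a → a.Coprime (2 * s) → (a : ℝ) ≤ Real.exp (LL x ^ 2) → a ∉ Bm s x →
    |∑ w ∈ (RQ s x).filter (fun w => w ≡ hh s [MOD MM s]),
      ((J((w : ℤ) | a) : ℤ) : ℝ) / (w : ℝ)| ≤ 1 := by
  obtain ⟨hcop, -, -, hM1⟩ := hh_facts s hs
  set M := MM s with hMdef
  have : NeZero M := ⟨by omega⟩
  set N : ℝ := (Fintype.card (DirichletCharacter ℂ M) : ℝ) with hN
  have hlit := (isLittleO_log_rpow_atTop (r := 1 / 30) (by norm_num)).bound
    (c := 1) (by norm_num)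
  obtain ⟨x1, hx1⟩ := Filter.eventually_atTop.mp (log_tend.eventually hlit)
  obtain ⟨x2, hx2⟩ := Filter.eventually_atTop.mp
    (LL_tend.eventually_ge_atTop (max 2 (Real.log M)))
  obtain ⟨x3, hx3⟩ := Filter.eventually_atTop.mp
    (log_tend.eventually_ge_atTop (2 * (N + 1)))
  refine ⟨max x1 (max x2 x3), fun x hx a ha1 hsq hac hale haB => ?_⟩
  simp only [max_le_iff] at hx
  have g1 := hx1 x hx.1
  obtain ⟨g2, g2'⟩ := max_le_iff.mp (hx2 x hx.2.1)
  have g3 := hx3 x hx.2.2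
  have hN0 : 0 ≤ N := Nat.cast_nonneg _
  set L := Real.log x with hL
  set t := LL x with ht
  have hL2 : 2 ≤ L := by linarith
  have hM0 : (0 : ℝ) < M := by exact_mod_cast hM1
  have hLt : Real.log L = t := rfl
  -- numerical facts
  have n1 : t ^ 3 ≤ L ^ (1 / 10 : ℝ) := by
    rw [hLt, Real.norm_of_nonneg (by linarith : (0 : ℝ) ≤ t),
      Real.norm_of_nonneg (Real.rpow_nonneg (by linarith) _), one_mul] at g1
    calc t ^ 3 ≤ (L ^ (1 / 30 : ℝ)) ^ 3 := pow_le_pow_left₀ (by linarith) g1 3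
      _ = L ^ (1 / 10 : ℝ) := by
          rw [← Real.rpow_natCast, ← Real.rpow_mul (by linarith)]
          norm_num
  have n2 : (a : ℝ) * M ≤ Real.exp (t ^ 3) := by
    have h1 : (M : ℝ) ≤ Real.exp t := by
      rw [← Real.exp_log hM0]
      exact Real.exp_le_exp.mpr g2'
    calc (a : ℝ) * M ≤ Real.exp (t ^ 2) * Real.exp t :=
          mul_le_mul hale h1 hM0.le (Real.exp_pos _).le
      _ = Real.exp (t ^ 2 + t) := (Real.exp_add _ _).symm
      _ ≤ Real.exp (t ^ 3) := by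
          refine Real.exp_le_exp.mpr ?_
          nlinarith [mul_nonneg (by linarith : (0 : ℝ) ≤ t) (by linarith : (0 : ℝ) ≤ t - 2)]
  have ha0 : a ≠ 0 := by omega
  have hodd : ¬ 2 ∣ a := by
    intro h
    have h1 : 2 ∣ Nat.gcd a (2 * s) := Nat.dvd_gcd h (dvd_mul_right 2 s)
    rw [hac] at h1
    omega
  have hcoM : a.Coprime M := by
    rw [hMdef]
    unfold MM
    refine Nat.Coprime.mul_right ?_ ?_
    · exact Nat.Coprime.pow_right _ (Nat.Coprime.coprime_mul_right_right hac)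
    · have h1 : a.Coprime s := Nat.Coprime.coprime_mul_left_right hac
      unfold so
      exact Nat.Coprime.coprime_dvd_right (Nat.div_dvd_of_dvd (Nat.ordProj_dvd s 2)) h1
  -- no bad conductor
  have hbad : ∀ i ∈ II s x, ∀ d ∈ Icc 1 M, ¬ Bd (2 ^ i) (tau x) (a * d) := by
    intro i hi d hd hB
    refine haB ?_
    have hd' := mem_Icc.mp hd
    have had : ((a * d : ℕ) : ℝ) ≤ Real.exp (t ^ 3) := by
      push_cast
      refine le_trans ?_ n2
      have : (d : ℝ) ≤ M := by exact_mod_cast hd'.2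
      exact mul_le_mul_of_nonneg_left this (Nat.cast_nonneg _)
    have hale3 : (a : ℝ) ≤ Real.exp (t ^ 3) := by
      refine le_trans ?_ n2
      have : (1 : ℝ) ≤ M := by exact_mod_cast hM1
      calc (a : ℝ) = a * 1 := (mul_one _).symm
        _ ≤ a * M := mul_le_mul_of_nonneg_left this (Nat.cast_nonneg _)
    unfold Bm
    rw [mem_filter, mem_Icc]
    refine ⟨⟨ha1.le, Nat.le_floor hale3⟩, d, hd, ?_⟩
    unfold BDc
    rw [mem_filter, mem_Icc]
    refine ⟨⟨?_, Nat.le_floor had⟩, i, hi, hB⟩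
    calc 2 ≤ a * 1 := by omega
      _ ≤ a * d := Nat.mul_le_mul_left a hd'.1
  -- the blocks
  have hPco : ∀ i ∈ II s x, ∀ p ∈ Bl (2 ^ i), p.Coprime (a * M) := by
    intro i hi p hp
    unfold II at hi
    rw [mem_filter] at hi
    obtain ⟨⟨hp1, -⟩, hp2⟩ := mem_Bl.mp hp
    rw [Nat.Prime.coprime_iff_not_dvd hp2]
    intro hdvd
    have h1 : p ≤ a * M := Nat.le_of_dvd (Nat.mul_pos (by omega) hM1) hdvd
    have h2 : (p : ℝ) ≤ (a : ℝ) * M := by exact_mod_cast h1
    have h3 : ((2 ^ i : ℕ) : ℝ) < p := by exact_mod_cast hp1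
    push_cast at h3
    have h4 := hi.2.1
    have h5 : Real.exp (t ^ 3) ≤ Real.exp (L ^ (1 / 10 : ℝ)) := Real.exp_le_exp.mpr n1
    linarith
  have hτ0 : 0 < tau x := by
    unfold tau
    positivity
  have hsum : ∀ ψ : DirichletCharacter ℂ M,
      ‖∑ w ∈ RQ s x, ((J((w : ℤ) | a) : ℤ) : ℂ) / (w : ℂ) * ψ (w : ZMod M)‖ ≤
        2 * L * tau x := by
    intro ψ
    rw [QT3_RQ]
    refine (norm_sum_le _ _).trans ?_
    have h1 : ∀ i ∈ II s x,
        ‖∑ w ∈ Bl (2 ^ i), ((J((w : ℤ) | a) : ℤ) : ℂ) / (w : ℂ) * ψ (w : ZMod M)‖ ≤ tau x := by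
      intro i hi
      have h2 := QT3_block a M (2 ^ i) ha0 (by omega) hsq hodd hcoM (hPco i hi) ψ (tau x)
        (hbad i hi)
      refine le_trans (le_of_eq ?_) h2.le
      congr 1
      refine sum_congr rfl fun p _ => ?_
      ring
    refine (sum_le_sum h1).trans ?_
    rw [sum_const, nsmul_eq_mul]
    exact mul_le_mul_of_nonneg_right (QT3_II s x (by linarith)) hτ0.le
  -- orthogonality
  set S : ℝ := ∑ w ∈ (RQ s x).filter (fun w => w ≡ hh s [MOD M]),
      ((J((w : ℤ) | a) : ℤ) : ℝ) / (w : ℝ) with hS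
  have hSC : ((S : ℝ) : ℂ) = ∑ w ∈ (RQ s x).filter (fun w => w ≡ hh s [MOD M]),
      ((J((w : ℤ) | a) : ℤ) : ℂ) / (w : ℂ) := by
    rw [hS]
    push_cast
    rfl
  have horth := QT3_orth M (hh s) hcop (RQ s x) (fun w => ((J((w : ℤ) | a) : ℤ) : ℂ) / (w : ℂ))
  rw [← hSC] at horth
  have hnorm : ‖(M.totient : ℂ) * (S : ℂ)‖ ≤ N * (2 * L * tau x) := by
    rw [horth]
    refine (norm_sum_le _ _).trans ?_
    have h1 : ∀ ψ ∈ (Finset.univ : Finset (DirichletCharacter ℂ M)),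
        ‖ψ (hh s : ZMod M)⁻¹ *
          ∑ w ∈ RQ s x, ((J((w : ℤ) | a) : ℤ) : ℂ) / (w : ℂ) * ψ (w : ZMod M)‖ ≤
          2 * L * tau x := by
      intro ψ _
      rw [norm_mul]
      calc ‖ψ (hh s : ZMod M)⁻¹‖ *
            ‖∑ w ∈ RQ s x, ((J((w : ℤ) | a) : ℤ) : ℂ) / (w : ℂ) * ψ (w : ZMod M)‖ ≤
            1 * (2 * L * tau x) :=
            mul_le_mul (DirichletCharacter.norm_le_one ψ _) (hsum ψ) (norm_nonneg _) (by norm_num)
        _ = 2 * L * tau x := one_mul _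
    refine (sum_le_sum h1).trans ?_
    rw [sum_const, nsmul_eq_mul, card_univ]
  rw [norm_mul, Complex.norm_real, Complex.norm_natCast, Real.norm_eq_abs] at hnorm
  have hφ : (1 : ℝ) ≤ M.totient := by exact_mod_cast Nat.totient_pos.mpr hM1
  have h5 : |S| ≤ M.totient * |S| := by
    calc |S| = 1 * |S| := (one_mul _).symm
      _ ≤ M.totient * |S| := mul_le_mul_of_nonneg_right hφ (abs_nonneg _)
  refine h5.trans (hnorm.trans ?_)
  have h6 : 2 * L * tau x = 2 * (L ^ 3)⁻¹ := by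
    show 2 * L * (L ^ 4)⁻¹ = _
    have : L ≠ 0 := by linarith
    field_simp
  rw [h6, mul_comm N, mul_assoc, mul_comm _ N, ← mul_assoc, ← div_eq_mul_inv,
    div_le_one (by positivity)]
  have h7 : L ≤ L ^ 3 := by
    calc L = L ^ 1 := (pow_one L).symm
      _ ≤ L ^ 3 := pow_le_pow_right₀ (by linarith) (by norm_num)
  linarith

end Pool.Agent.Lib.MP_79499b_co.QZ
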