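import Pool.Agent.Lib.MP_79499b_co.QZ.QT3
import Pool.Agent.Lib.MP_79499b_co.QZ.QS3

/-!
# QT4: many sieving primes for a good cofactor

`wm_low`: `s ≥ 1`, `x` large, `GoodCof s D x m`: `∑_{w ∈ WM s D x m} 1/w ≥ LL/(4 φ(MM s))`.

Proof. `M = MM s`, `h = hh s`. (1) `∑_{w ∈ RQ, w ≡ h} 1/w ≥ (1/φ(M)) (th2 s - 1/10) LL - 1`: `RQ` contains all primes of `(N1, N2]`, `N1 = 2^(i0)`,
`N2 = 2^(i1+1)`, where `i0 ≤ i1` are the smallest and the largest element of `II`; `2^(i0) < 2 exp L^(1/10)`, `2^(i1+2) > exp L^(th2)`; `LM_main` (`Q = M`, `b = h`) and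
`LM_sum`: `log log N2 - log log N1 ≥ (th2 - 1/10) LL - 1/2`. `th2 ≥ 39/40` (`φ(M) ≥ 1`).
(2) Let `m = e a k^2` (`Dec`), `w ∈ RQ`, `w ≡ h mod M`; `w > m`, so `w ∤ m`. `m` is a nonresidue mod `w` iff `J(m | w) = -1`, and
`J(m | w) = J(e | w) J(a | w)`. `J(e | w) = ε` is the same for all these `w`: `e ∣ 2 s` is squarefree, `J(2 | w)` depends on `w mod 8`, `8 ∣ M`; for an odd prime
`l ∣ s`, `w ≡ h ≡ 1 mod 4 l`-ish: `w ≡ 1 mod 4` and `w ≡ 1 mod l`, so `J(l | w) = J(w | l) = 1`. `J(a | w) = J(w | a)` (`w ≡ 1 mod 4`, quadratic reciprocity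
for Jacobi symbols, `a` odd). So `∑_{w : m nonresidue} 1/w = (1/2) ∑ 1/w - (ε/2) ∑ J(w | a)/w ≥ (1/2)(..) - 1` by `real_sum` (`a ≠ 1`, `a` coprime to `2s`
is odd, `a ≤ m ≤ exp LL^2`).
(3) The `w ∈ RQ` without `OrdBig (zD D x) (B2 x) w`: as in `ord_sum` (QS3): there are at most `zD^2 (B2+1)^2` of them, each `> exp L^(1/10)`: the sum of `1/w` is
at most `L^(2D) (exp(L^(1/20)) + 1)^2 exp(-L^(1/10)) ≤ 1`.
Total `≥ (1/2)(39/40 - 1/10) LL/φ(M) - 4 ≥ LL/(4 φ(M))`.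
-/

set_option autoImplicit false

namespace Pool.Agent.Lib.MP_79499b_co.QZ

open Finset DZ
open scoped Classical NumberTheorySymbols

private theorem qt4_MM (s : ℕ) (hs : 1 ≤ s) : MM s = 8 * s := by
  have h2 : (2 * s).factorization 2 = s.factorization 2 + 1 := by
    rw [Nat.factorization_mul (by norm_num) (by omega), Finsupp.add_apply,
      Nat.Prime.factorization_self Nat.prime_two]
    ring
  have h3 := Nat.ordProj_mul_ordCompl_eq_self s 2
  unfold MM cb so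
  rw [h2]
  calc 2 ^ (s.factorization 2 + 1 + 1 + 1) * (s / 2 ^ s.factorization 2)
      = 8 * (2 ^ s.factorization 2 * (s / 2 ^ s.factorization 2)) := by ring
    _ = 8 * s := by rw [h3]

private theorem qt4_hh4 (s : ℕ) (hs : 1 ≤ s) : hh s % 4 = 1 := by
  have h2 : 2 ≤ cb s := by
    unfold cb
    rw [Nat.factorization_mul (by norm_num) (by omega), Finsupp.add_apply,
      Nat.Prime.factorization_self Nat.prime_two]
    omega
  unfold hh
  obtain ⟨k, hk⟩ : ∃ k, cb s = k + 2 := ⟨cb s - 2, by omega⟩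
  rw [hk, pow_add]
  have : 1 + 2 ^ k * 2 ^ 2 * so s = 1 + 4 * (2 ^ k * so s) := by ring
  rw [this]
  omega

private theorem qt4_phi (s : ℕ) (hs : 1 ≤ s) : (1 : ℝ) ≤ ((MM s).totient : ℝ) := by
  obtain ⟨-, -, -, h⟩ := hh_facts s hs
  exact_mod_cast Nat.totient_pos.2 (by omega)

private theorem qt4_th2 (s : ℕ) (hs : 1 ≤ s) : 39 / 40 ≤ th2 s ∧ th2 s ≤ 1 := by
  have h := qt4_phi s hs
  unfold th2
  have h1 : 1 / (40 * ((MM s).totient : ℝ)) ≤ 1 / 40 :=
    one_div_le_one_div_of_le (by norm_num) (by linarith)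
  have h2 : 0 ≤ 1 / (40 * ((MM s).totient : ℝ)) := by positivity
  constructor <;> linarith

/-- the primes of an interval between powers of two belong to `RQ` -/
private theorem qt4_mem {s x i0 j0 w : ℕ} (hw : w.Prime)
    (ha : Real.exp (Real.log x ^ (1 / 10 : ℝ)) ≤ 2 ^ i0)
    (hb : (2 : ℝ) ^ j0 ≤ Real.exp (Real.log x ^ (th2 s)))
    (hbx : Real.exp (Real.log x ^ (th2 s)) ≤ x) (h1 : 2 ^ i0 < w) (h2 : w ≤ 2 ^ j0) :
    w ∈ RQ s x := by
  have hw0 : w - 1 ≠ 0 := by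
    have := hw.two_le
    omega
  have e1 := Nat.pow_log_le_self 2 hw0
  have e2 := Nat.lt_pow_succ_log_self (by norm_num : 1 < 2) (w - 1)
  have e3 : i0 ≤ Nat.log 2 (w - 1) := Nat.le_log_of_pow_le (by norm_num) (by omega)
  have e4 : Nat.log 2 (w - 1) < j0 := Nat.log_lt_of_lt_pow hw0 (by omega)
  revert e1 e2 e3 e4
  generalize Nat.log 2 (w - 1) = i
  intro e1 e2 e3 e4
  unfold RQ
  rw [mem_biUnion]
  refine ⟨i, ?_, ?_⟩
  · simp only [II, mem_filter, mem_range]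
    have e5 : (2 : ℝ) ^ (i + 1) ≤ Real.exp (Real.log x ^ (th2 s)) := by
      refine le_trans ?_ hb
      exact pow_le_pow_right₀ (by norm_num) (by omega)
    refine ⟨?_, ?_, e5⟩
    · have e6 : (2 : ℝ) ^ (i + 1) ≤ x := e5.trans hbx
      have e7 : 2 ^ (i + 1) ≤ x := by exact_mod_cast e6
      have e8 : i + 1 < 2 ^ (i + 1) := Nat.lt_two_pow_self
      omega
    · refine ha.trans ?_
      exact pow_le_pow_right₀ (by norm_num) e3
  · rw [mem_Bl]
    refine ⟨⟨by omega, ?_⟩, hw⟩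
    rw [Nat.succ_eq_add_one, pow_succ] at e2
    omega

/-- the numerical part -/
private theorem qt4_num (C M φ : ℝ) : ∀ᶠ t : ℝ in Filter.atTop,
    60 ≤ t ∧ C * M * (2 + t) * φ ≤ Real.exp (t / 10) := by
  have h1 : Filter.Tendsto (fun t : ℝ => 1 / 10 * t) Filter.atTop Filter.atTop :=
    Filter.Tendsto.const_mul_atTop (by norm_num) Filter.tendsto_id
  have h2 := (Real.tendsto_exp_div_pow_atTop 1).comp h1
  filter_upwards [h2.eventually_ge_atTop (20 * |C * M * φ|), Filter.eventually_ge_atTop (60 : ℝ)]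
    with t e1 e2
  simp only [Function.comp, pow_one] at e1
  refine ⟨e2, ?_⟩
  rw [le_div_iff₀ (by linarith)] at e1
  have e3 : t / 10 = 1 / 10 * t := by ring
  rw [e3]
  refine le_trans ?_ e1
  calc C * M * (2 + t) * φ = C * M * φ * (2 + t) := by ring
    _ ≤ |C * M * φ| * (2 * t) := by
        apply mul_le_mul (le_abs_self _) (by linarith) (by linarith) (abs_nonneg _)
    _ = 20 * |C * M * φ| * (1 / 10 * t) := by ring

theorem rq_low (s : ℕ) (hs : 1 ≤ s) : ∃ x0 : ℕ, ∀ x : ℕ, x0 ≤ x →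
    (4 / 5 : ℝ) * LL x / (MM s).totient ≤
      ∑ w ∈ (RQ s x).filter (fun w => w ≡ hh s [MOD MM s]), 1 / (w : ℝ) := by
  obtain ⟨C₁, hC₁, hmain⟩ := LM_main 1
  obtain ⟨hcop, -, -, hM1⟩ := hh_facts s hs
  obtain ⟨ht1, ht2⟩ := qt4_th2 s hs
  have hφ := qt4_phi s hs
  obtain ⟨x1, hx1⟩ := Filter.eventually_atTop.mp
    ((LL_tend.eventually (qt4_num C₁ (MM s) ((MM s).totient))).and
      ((log_tend.eventually_ge_atTop 1).and (Filter.eventually_ge_atTop 3)))
  refine ⟨x1, fun x hx => ?_⟩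
  obtain ⟨⟨h60, hnum⟩, hL1, hx3⟩ := hx1 x hx
  obtain ⟨t, ht⟩ : ∃ t, t = LL x := ⟨_, rfl⟩
  have hL : Real.log x = Real.exp t := by
    rw [ht]
    unfold LL
    rw [Real.exp_log (by linarith)]
  have hx0 : (0 : ℝ) < x := by exact_mod_cast (by omega : 0 < x)
  have hp1 : Real.log x ^ (1 / 10 : ℝ) = Real.exp (t / 10) := by
    rw [hL, ← Real.exp_mul]
    congr 1
    ring
  have hp2 : Real.log x ^ (th2 s) = Real.exp (th2 s * t) := by
    rw [hL, ← Real.exp_mul]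
    congr 1
    ring
  rw [← ht] at h60 hnum ⊢
  -- sizes
  have hA : 6 ≤ Real.exp (t / 10) := by
    have := Real.add_one_le_exp (t / 10)
    linarith
  have hB : Real.exp (t / 10) + 6 ≤ Real.exp (th2 s * t) := by
    have h1 : Real.exp (t / 10 + 1) ≤ Real.exp (th2 s * t) := by
      apply Real.exp_le_exp.2
      nlinarith
    rw [Real.exp_add] at h1
    have h2 := Real.exp_one_gt_d9
    nlinarith
  have hbx : Real.exp (Real.log x ^ (th2 s)) ≤ x := by
    have h1 : Real.log x ^ (th2 s) ≤ Real.log x := by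
      have := Real.rpow_le_rpow_of_exponent_le hL1 ht2
      rwa [Real.rpow_one] at this
    calc Real.exp (Real.log x ^ (th2 s)) ≤ Real.exp (Real.log x) := Real.exp_le_exp.2 h1
      _ = x := Real.exp_log hx0
  obtain ⟨a, haD⟩ : ∃ a, a = Real.exp (Real.exp (t / 10)) := ⟨_, rfl⟩
  obtain ⟨b, hbD⟩ : ∃ b, b = Real.exp (Real.exp (th2 s * t)) := ⟨_, rfl⟩
  have ha7 : 7 ≤ a := by
    have := Real.add_one_le_exp (Real.exp (t / 10))
    rw [haD]
    linarith
  have hab : 5 * a ≤ b := by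
    have h1 : Real.exp (Real.exp (t / 10) + 6) ≤ b := by
      rw [hbD]
      exact Real.exp_le_exp.2 hB
    rw [Real.exp_add, ← haD] at h1
    have h2 := Real.add_one_le_exp (6 : ℝ)
    nlinarith
  -- the ends
  obtain ⟨i0, hi0⟩ : ∃ i0, i0 = Nat.clog 2 ⌈a⌉₊ := ⟨_, rfl⟩
  obtain ⟨j0, hj0⟩ : ∃ j0, j0 = Nat.log 2 ⌊b⌋₊ := ⟨_, rfl⟩
  have hN1a : a ≤ 2 ^ i0 := by
    have h1 := Nat.le_pow_clog (b := 2) (by norm_num) ⌈a⌉₊
    rw [← hi0] at h1
    have h2 : ((⌈a⌉₊ : ℕ) : ℝ) ≤ 2 ^ i0 := by exact_mod_cast h1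
    exact (Nat.le_ceil a).trans h2
  have hceil : 1 < ⌈a⌉₊ := by
    rw [Nat.lt_ceil]
    push_cast
    linarith
  have hN1b : (2 : ℝ) ^ i0 ≤ 2 * a := by
    have h1 := Nat.pow_pred_clog_lt_self (b := 2) (by norm_num) hceil
    have h2 := Nat.clog_pos (b := 2) (by norm_num) hceil
    rw [← hi0] at h1 h2
    rw [Nat.lt_ceil] at h1
    push_cast at h1
    obtain ⟨k, hk⟩ : ∃ k, i0 = k + 1 := ⟨i0 - 1, by omega⟩
    rw [hk, Nat.pred_succ] at h1
    rw [hk, pow_succ]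
    linarith
  have hb0 : ⌊b⌋₊ ≠ 0 := by
    have : 1 ≤ ⌊b⌋₊ := Nat.le_floor (by push_cast; linarith)
    omega
  have hN2a : (2 : ℝ) ^ j0 ≤ b := by
    have h1 := Nat.pow_log_le_self 2 hb0
    rw [← hj0] at h1
    have h2 : (2 : ℝ) ^ j0 ≤ ((⌊b⌋₊ : ℕ) : ℝ) := by exact_mod_cast h1
    exact h2.trans (Nat.floor_le (by linarith))
  have hN2b : b < 2 * 2 ^ j0 := by
    have h1 := Nat.lt_pow_succ_log_self (by norm_num : 1 < 2) ⌊b⌋₊
    rw [← hj0, Nat.succ_eq_add_one, pow_succ] at h1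
    have h2 := Nat.lt_floor_add_one b
    have h3 : ((⌊b⌋₊ : ℕ) : ℝ) + 1 ≤ 2 ^ j0 * 2 := by exact_mod_cast h1
    linarith
  have hN12 : 2 ^ i0 ≤ 2 ^ j0 := by
    have h1 : (2 : ℝ) ^ i0 ≤ 2 ^ j0 := by linarith
    exact_mod_cast h1
  have h2N1 : 2 ≤ 2 ^ i0 := by
    have h1 : (2 : ℝ) ≤ 2 ^ i0 := by linarith
    exact_mod_cast h1
  have hsub : (Ioc (2 ^ i0) (2 ^ j0)).filter (fun w => w.Prime ∧ w ≡ hh s [MOD MM s]) ⊆
      (RQ s x).filter (fun w => w ≡ hh s [MOD MM s]) := by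
    intro w hw
    rw [mem_filter, mem_Ioc] at hw
    rw [mem_filter]
    refine ⟨qt4_mem hw.2.1 ?_ ?_ hbx hw.1.1 hw.1.2, hw.2.2⟩
    · rw [hp1, ← haD]
      exact hN1a
    · rw [hp2, ← hbD]
      exact hN2a
  refine le_trans ?_ (sum_le_sum_of_subset_of_nonneg hsub (fun w _ _ => by positivity))
  have hmn := hmain (2 ^ i0) (2 ^ j0) (MM s) (hh s) h2N1 hN12 hM1 hcop
  obtain ⟨hF1, hF2⟩ := @LM_sum (2 ^ i0) (2 ^ j0) h2N1 hN12
  revert hmn hF1 hF2
  have hF0 : 0 ≤ ∑ n ∈ Ioc (2 ^ i0) (2 ^ j0), LMf n := sum_nonneg fun n _ => LMf_nonneg n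
  revert hF0
  generalize ∑ n ∈ Ioc (2 ^ i0) (2 ^ j0), LMf n = F
  generalize ∑ w ∈ (Ioc (2 ^ i0) (2 ^ j0)).filter (fun w => w.Prime ∧ w ≡ hh s [MOD MM s]),
    1 / (w : ℝ) = W
  intro hF0 hmn hF1 hF2
  push_cast at hF1 hF2 hmn
  rw [pow_one] at hmn
  -- logarithms
  have hla : Real.log a = Real.exp (t / 10) := by rw [haD, Real.log_exp]
  have hlb : Real.log b = Real.exp (th2 s * t) := by rw [hbD, Real.log_exp]
  have hN1pos : (0 : ℝ) < 2 ^ i0 := by positivity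
  have hN2pos : (0 : ℝ) < 2 ^ j0 := by positivity
  have hlN1 : Real.exp (t / 10) ≤ Real.log (2 ^ i0) := by
    rw [← hla]
    exact Real.log_le_log (by linarith) hN1a
  have hlN1' : 1 ≤ Real.log ((2 : ℝ) ^ i0) := by linarith
  have hFup : F ≤ t := by
    have h1 : Real.log (Real.log ((2 : ℝ) ^ j0)) ≤ t := by
      have h2 : Real.log ((2 : ℝ) ^ j0) ≤ Real.exp (th2 s * t) := by
        rw [← hlb]
        exact Real.log_le_log hN2pos hN2a
      have h3 : 0 < Real.log ((2 : ℝ) ^ j0) := by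
        have h4 : Real.log ((2 : ℝ) ^ i0) ≤ Real.log ((2 : ℝ) ^ j0) :=
          Real.log_le_log hN1pos (by exact_mod_cast hN12)
        linarith
      have h5 := Real.log_le_log h3 h2
      rw [Real.log_exp] at h5
      nlinarith
    have h6 : 0 ≤ Real.log (Real.log ((2 : ℝ) ^ i0)) := Real.log_nonneg hlN1'
    linarith
  have hFlo : 7 / 8 * t - 3 ≤ F := by
    have h1 : Real.log (Real.log ((2 : ℝ) ^ i0 + 1)) ≤ t / 10 + 2 := by
      have h2 : (2 : ℝ) ^ i0 + 1 ≤ a * Real.exp 2 := by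
        have h3 := Real.add_one_le_exp (2 : ℝ)
        nlinarith
      have h4 : Real.log ((2 : ℝ) ^ i0 + 1) ≤ Real.exp (t / 10) + 2 := by
        have h5 := Real.log_le_log (by linarith) h2
        rw [Real.log_mul (by linarith) (Real.exp_pos 2).ne', Real.log_exp, hla] at h5
        exact h5
      have h6 : Real.exp (t / 10) + 2 ≤ Real.exp (t / 10 + 2) := by
        rw [Real.exp_add]
        have h3 := Real.add_one_le_exp (2 : ℝ)
        nlinarith
      have h7 : 0 < Real.log ((2 : ℝ) ^ i0 + 1) := Real.log_pos (by linarith)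
      have h8 := Real.log_le_log h7 (h4.trans h6)
      rwa [Real.log_exp] at h8
    have h2 : th2 s * t - 1 ≤ Real.log (Real.log ((2 : ℝ) ^ j0 + 1)) := by
      have h3 : b / Real.exp 1 ≤ (2 : ℝ) ^ j0 + 1 := by
        rw [div_le_iff₀ (Real.exp_pos 1)]
        have := Real.exp_one_gt_d9
        nlinarith
      have h4 : Real.exp (th2 s * t) - 1 ≤ Real.log ((2 : ℝ) ^ j0 + 1) := by
        have h5 := Real.log_le_log (div_pos (by linarith) (Real.exp_pos 1)) h3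
        rw [Real.log_div (by linarith) (Real.exp_pos 1).ne', Real.log_exp, hlb] at h5
        exact h5
      have h6 : Real.exp (th2 s * t - 1) ≤ Real.exp (th2 s * t) - 1 := by
        have h7 : Real.exp (th2 s * t) = Real.exp (th2 s * t - 1) * Real.exp 1 := by
          rw [← Real.exp_add]
          congr 1
          ring
        have h8 : 1 ≤ Real.exp (th2 s * t - 1) := Real.one_le_exp (by nlinarith)
        have h9 := Real.exp_one_gt_d9
        rw [h7]
        nlinarith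
      have h10 := Real.log_le_log (Real.exp_pos _) (h6.trans h4)
      rwa [Real.log_exp] at h10
    nlinarith
  -- the error
  have hNf : (2 : ℝ) ^ i0 * LMf (2 ^ i0) ≤ 1 := by
    unfold LMf
    push_cast
    have h12 : (2 : ℝ) ^ i0 * (1 / (2 ^ i0 * Real.log (2 ^ i0))) = 1 / Real.log (2 ^ i0) := by
      field_simp
    rw [h12, div_le_one (by linarith)]
    exact hlN1'
  have hφ0 : (0 : ℝ) < (MM s).totient := by linarith
  have herr : C₁ * (MM s) / Real.log (2 ^ i0) * (2 * (2 ^ i0 * LMf (2 ^ i0)) + F) ≤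
      1 / (MM s).totient := by
    have h1 : C₁ * (MM s) / Real.log (2 ^ i0) ≤ C₁ * (MM s) / Real.exp (t / 10) :=
      div_le_div_of_nonneg_left (by positivity) (Real.exp_pos _) hlN1
    have h2 : 2 * ((2 : ℝ) ^ i0 * LMf (2 ^ i0)) + F ≤ 2 + t := by linarith
    have h3 : 0 ≤ 2 * ((2 : ℝ) ^ i0 * LMf (2 ^ i0)) + F := by
      have := LMf_nonneg (2 ^ i0)
      positivity
    refine (mul_le_mul h1 h2 h3 (by positivity)).trans ?_
    rw [div_mul_eq_mul_div, div_le_div_iff₀ (Real.exp_pos _) hφ0, one_mul]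
    exact hnum
  have h1 := (abs_le.1 (hmn.trans herr)).1
  have h2 : (4 / 5 : ℝ) * t / (MM s).totient + 1 / (MM s).totient ≤ F / (MM s).totient := by
    rw [← add_div]
    apply div_le_div_of_nonneg_right _ hφ0.le
    linarith
  linarith

private theorem qt4_two_pow {n : ℕ} (hn : n ≠ 0) : 2 ^ n.primeFactors.card ≤ n := by
  calc 2 ^ n.primeFactors.card = ∏ _p ∈ n.primeFactors, 2 := by rw [prod_const]
    _ ≤ ∏ p ∈ n.primeFactors, p :=
        prod_le_prod' fun p hp => (Nat.prime_of_mem_primeFactors hp).two_le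
    _ ≤ n := Nat.le_of_dvd (Nat.pos_of_ne_zero hn) (Nat.prod_primeFactors_dvd n)

/-- primes of small order are few -/
private theorem qt4_ord (R : Finset ℕ) (A : ℝ) (Z B : ℕ)
    (hR : ∀ w ∈ R, w.Prime ∧ Real.exp A < w ∧ ¬ OrdBig Z B w) :
    ∑ w ∈ R, 1 / (w : ℝ) ≤ (Z : ℝ) ^ 2 * ((B : ℝ) + 1) ^ 2 * Real.exp (-A) := by
  have h1 : R ⊆
      (Icc 2 Z).biUnion (fun p => (Icc 1 B).biUnion (fun i => (p ^ i - 1).primeFactors)) := by
    intro w hw
    obtain ⟨hc, -, h2⟩ := hR w hw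
    unfold OrdBig at h2
    push Not at h2
    obtain ⟨p, hp, hpZ, i, hi1, hiB, hd⟩ := h2
    rw [mem_biUnion]
    refine ⟨p, mem_Icc.2 ⟨hp.two_le, hpZ⟩, ?_⟩
    rw [mem_biUnion]
    refine ⟨i, mem_Icc.2 ⟨hi1, hiB⟩, ?_⟩
    rw [Nat.mem_primeFactors]
    refine ⟨hc, hd, ?_⟩
    have h3 : 2 ≤ p ^ i := by
      calc 2 ≤ p := hp.two_le
        _ = p ^ 1 := (pow_one p).symm
        _ ≤ p ^ i := Nat.pow_le_pow_right hp.pos hi1
    omega
  have h2 : R.card ≤ Z ^ 2 * (B + 1) ^ 2 := by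
    refine (card_le_card h1).trans (card_biUnion_le.trans ?_)
    have h3 : ∀ p ∈ Icc 2 Z, ((Icc 1 B).biUnion (fun i => (p ^ i - 1).primeFactors)).card ≤
        Z * (B + 1) ^ 2 := by
      intro p hp
      rw [mem_Icc] at hp
      refine card_biUnion_le.trans ?_
      have h4 : ∀ i ∈ Icc 1 B, ((p ^ i - 1).primeFactors).card ≤ Z * (B + 1) := by
        intro i hi
        rw [mem_Icc] at hi
        have h5 : 2 ≤ p ^ i := by
          calc 2 ≤ p := hp.1
            _ = p ^ 1 := (pow_one p).symm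
            _ ≤ p ^ i := Nat.pow_le_pow_right (by omega) hi.1
        have h6 := qt4_two_pow (n := p ^ i - 1) (by omega)
        have h7 : p ^ i ≤ 2 ^ (p * i) := by
          rw [pow_mul]
          exact Nat.pow_le_pow_left Nat.lt_two_pow_self.le i
        have h8 : 2 ^ (p ^ i - 1).primeFactors.card ≤ 2 ^ (p * i) := by omega
        have h9 := (Nat.pow_le_pow_iff_right (by norm_num : 1 < 2)).1 h8
        calc (p ^ i - 1).primeFactors.card ≤ p * i := h9
          _ ≤ Z * (B + 1) := Nat.mul_le_mul hp.2 (by omega)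
      refine (sum_le_sum h4).trans ?_
      rw [sum_const, Nat.card_Icc, Nat.add_sub_cancel, smul_eq_mul]
      calc B * (Z * (B + 1)) ≤ (B + 1) * (Z * (B + 1)) := Nat.mul_le_mul_right _ (by omega)
        _ = _ := by ring
    refine (sum_le_sum h3).trans ?_
    rw [sum_const, Nat.card_Icc, smul_eq_mul]
    calc (Z + 1 - 2) * (Z * (B + 1) ^ 2) ≤ Z * (Z * (B + 1) ^ 2) :=
          Nat.mul_le_mul_right _ (by omega)
      _ = _ := by ring
  have h3 : ∀ w ∈ R, 1 / (w : ℝ) ≤ Real.exp (-A) := by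
    intro w hw
    rw [Real.exp_neg, ← one_div]
    exact one_div_le_one_div_of_le (Real.exp_pos A) (hR w hw).2.1.le
  refine (sum_le_sum h3).trans ?_
  rw [sum_const, nsmul_eq_mul]
  refine mul_le_mul_of_nonneg_right ?_ (Real.exp_pos _).le
  exact_mod_cast h2

private theorem qt4_rq {s x w : ℕ} (h : w ∈ RQ s x) :
    w.Prime ∧ Real.exp (Real.log x ^ (1 / 10 : ℝ)) < w := by
  unfold RQ at h
  rw [mem_biUnion] at h
  obtain ⟨i, hi, hw⟩ := h
  rw [mem_Bl] at hw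
  simp only [II, mem_filter] at hi
  refine ⟨hw.2, ?_⟩
  have h5 : ((2 : ℝ)) ^ i < w := by exact_mod_cast hw.1.1
  linarith [hi.2.1]

/-- the symbol of the cofactor -/
private theorem qt4_symbol {s m e a k w : ℕ} (hs : 1 ≤ s) (hw : w.Prime) (hdec : Dec s m e a k)
    (h : w ≡ hh s [MOD MM s]) (hm0 : m ≠ 0) (hmw : m < w) :
    J((m : ℤ) | w) = J((e : ℤ) | hh s % (4 * e)) * J((w : ℤ) | a) := by
  obtain ⟨hm, hsq, he, ha⟩ := hdec
  have hk0 : k ≠ 0 := by
    rintro rfl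
    exact hm0 (by rw [hm]; simp)
  have hw4 : w % 4 = 1 := by
    have h8 : 4 ∣ MM s := by
      rw [qt4_MM s hs]
      exact ⟨2 * s, by ring⟩
    have h1 : w ≡ hh s [MOD 4] := h.of_dvd h8
    rw [h1, qt4_hh4 s hs]
  have hwodd : Odd w := Nat.odd_iff.2 (by omega)
  have hkw : (k : ℤ).gcd w = 1 := by
    rw [Int.gcd_natCast_natCast]
    apply Nat.Coprime.symm
    rw [hw.coprime_iff_not_dvd]
    intro hd
    have h1 : w ∣ m := by
      rw [hm]
      exact Dvd.dvd.mul_left (hd.trans (dvd_pow_self k (by norm_num))) _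
    exact absurd (Nat.le_of_dvd (Nat.pos_of_ne_zero hm0) h1) (not_le.2 hmw)
  have haodd : Odd a := by
    have h1 : a.Coprime 2 := ha.coprime_dvd_right (dvd_mul_right 2 s)
    exact (Nat.coprime_two_right).1 h1
  have h1 : (m : ℤ) = (e : ℤ) * (a : ℤ) * (k : ℤ) ^ 2 := by
    rw [hm]
    push_cast
    ring
  rw [h1, jacobiSym.mul_left, jacobiSym.mul_left, jacobiSym.sq_one' hkw, mul_one]
  congr 1
  · have h4e : 4 * e ∣ MM s := by
      rw [qt4_MM s hs]
      obtain ⟨c, hc⟩ := he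
      exact ⟨c, by rw [mul_assoc, ← hc]; ring⟩
    have h2 : w % (4 * e) = hh s % (4 * e) := h.of_dvd h4e
    rw [jacobiSym.mod_right' e hwodd, h2]
  · exact (jacobiSym.quadratic_reciprocity_one_mod_four hw4 haodd).symm

/-- numbers -/
private theorem qt4_num2 (D : ℕ) (φ : ℝ) : ∀ᶠ t : ℝ in Filter.atTop,
    10 * φ ≤ t ∧ t ^ 2 ≤ Real.exp (t / 10) ∧ 1 ≤ t ∧
      2 * D * t + 2 + 2 * Real.exp (t / 20) ≤ Real.exp (t / 10) := by
  have h1 : Filter.Tendsto (fun t : ℝ => 1 / 20 * t) Filter.atTop Filter.atTop :=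
    Filter.Tendsto.const_mul_atTop (by norm_num) Filter.tendsto_id
  have h2 := (Real.tendsto_exp_div_pow_atTop 1).comp h1
  filter_upwards [h2.eventually_ge_atTop (40 * (D : ℝ) + 80),
    Filter.eventually_ge_atTop (10 * φ), Filter.eventually_ge_atTop (20 : ℝ)] with t e1 e2 e3
  simp only [Function.comp, pow_one] at e1
  rw [le_div_iff₀ (by linarith)] at e1
  have e4 : Real.exp (t / 10) = Real.exp (1 / 20 * t) * Real.exp (1 / 20 * t) := by
    rw [← Real.exp_add]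
    congr 1
    ring
  have e5 : Real.exp (t / 20) = Real.exp (1 / 20 * t) := by
    congr 1
    ring
  have hD : (0 : ℝ) ≤ D := Nat.cast_nonneg _
  have e6 : (2 * D + 4) * t ≤ Real.exp (1 / 20 * t) := by nlinarith
  have e7 : 4 * t ≤ Real.exp (1 / 20 * t) := by nlinarith
  refine ⟨e2, ?_, by linarith, ?_⟩
  · rw [e4]
    nlinarith
  · rw [e4, e5]
    have e8 : 4 ≤ Real.exp (1 / 20 * t) := by linarith
    nlinarith

theorem wm_low (s D : ℕ) (hs : 1 ≤ s) : ∃ x0 : ℕ, ∀ x : ℕ, x0 ≤ x → ∀ m : ℕ,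
    GoodCof s D x m → LL x / (4 * (MM s).totient) ≤ ∑ w ∈ WM s D x m, 1 / (w : ℝ) := by
  obtain ⟨x1, hx1⟩ := rq_low s hs
  obtain ⟨x2, hx2⟩ := real_sum s hs
  have hφ := qt4_phi s hs
  obtain ⟨x3, hx3⟩ := Filter.eventually_atTop.mp
    ((LL_tend.eventually (qt4_num2 D ((MM s).totient))).and (log_tend.eventually_ge_atTop 1))
  refine ⟨max x1 (max x2 x3), fun x hx m hG => ?_⟩
  simp only [max_le_iff] at hx
  obtain ⟨hxa, hxb, hxc⟩ := hx
  have g1 := hx1 x hxa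
  obtain ⟨⟨n1, n2, n3, n4⟩, hL1⟩ := hx3 x hxc
  obtain ⟨hm0, hmL, hmz, hω, e, a, k, hdec, ha1, haB⟩ := hG
  have hdec' := hdec
  obtain ⟨hm, hsq, he, hac⟩ := hdec'
  have hk0 : k ≠ 0 := by
    rintro rfl
    exact hm0 (by rw [hm]; simp)
  have hea0 : e * a ≠ 0 := hsq.ne_zero
  have ha0 : a ≠ 0 := fun h => hea0 (by rw [h, mul_zero])
  have ham : a ≤ m := by
    apply Nat.le_of_dvd (Nat.pos_of_ne_zero hm0)
    rw [hm]
    exact Dvd.intro_left e rfl |>.mul_right _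
  have hsqa : Squarefree a := hsq.squarefree_of_dvd (dvd_mul_left a e)
  have g2 := hx2 x hxb a (by omega) hsqa hac
    (le_trans (by exact_mod_cast ham) hmL) haB
  obtain ⟨t, ht⟩ : ∃ t, t = LL x := ⟨_, rfl⟩
  have hL : Real.log x = Real.exp t := by
    rw [ht]
    unfold LL
    rw [Real.exp_log (by linarith)]
  have hp1 : Real.log x ^ (1 / 10 : ℝ) = Real.exp (t / 10) := by
    rw [hL, ← Real.exp_mul]
    congr 1
    ring
  have hp2 : Real.log x ^ (1 / 20 : ℝ) = Real.exp (t / 20) := by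
    rw [hL, ← Real.exp_mul]
    congr 1
    ring
  rw [← ht] at g1 n1 n2 n3 n4 hmL ⊢
  obtain ⟨R, hR⟩ : ∃ R, R = (RQ s x).filter (fun w => w ≡ hh s [MOD MM s]) := ⟨_, rfl⟩
  rw [← hR] at g1 g2
  have hRm : ∀ w ∈ R, w.Prime ∧ Real.exp (Real.exp (t / 10)) < w ∧ w ≡ hh s [MOD MM s] ∧
      m < w ∧ w ∈ RQ s x := by
    intro w hw
    rw [hR, mem_filter] at hw
    obtain ⟨h1, h2⟩ := qt4_rq hw.1
    rw [hp1] at h2
    refine ⟨h1, h2, hw.2, ?_, hw.1⟩
    have h3 : (m : ℝ) < w := by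
      refine lt_of_le_of_lt (hmL.trans ?_) h2
      exact Real.exp_le_exp.2 n2
    exact_mod_cast h3
  -- nonresidues
  obtain ⟨ε, hε⟩ : ∃ ε : ℤ, ε = J((e : ℤ) | hh s % (4 * e)) := ⟨_, rfl⟩
  have hε1 : |(ε : ℝ)| ≤ 1 := by
    rcases jacobiSym.trichotomy (e : ℤ) (hh s % (4 * e)) with h | h | h <;>
      rw [hε, h] <;> norm_num
  have hval : ∀ w ∈ R, (if ¬ IsSquare (m : ZMod w) then (1 : ℝ) / w else 0) =
      1 / 2 * (1 / (w : ℝ)) - 1 / 2 * ((ε : ℝ) * (((J((w : ℤ) | a) : ℤ) : ℝ) / (w : ℝ))) := by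
    intro w hw
    obtain ⟨h1, h2, h3, h4, -⟩ := hRm w hw
    haveI : Fact w.Prime := ⟨h1⟩
    have hsym := qt4_symbol hs h1 hdec h3 hm0 h4
    rw [← hε] at hsym
    have hgcd : (m : ℤ).gcd w = 1 := by
      rw [Int.gcd_natCast_natCast]
      apply Nat.Coprime.symm
      rw [h1.coprime_iff_not_dvd]
      intro hd
      exact absurd (Nat.le_of_dvd (Nat.pos_of_ne_zero hm0) hd) (not_le.2 h4)
    have hiff := ZMod.nonsquare_iff_jacobiSym_eq_neg_one (a := (m : ℤ)) (p := w)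
    have hcast : (((m : ℤ)) : ZMod w) = (m : ZMod w) := by push_cast; rfl
    rw [hcast] at hiff
    have hreal : (ε : ℝ) * (((J((w : ℤ) | a) : ℤ) : ℝ) / (w : ℝ)) =
        ((J((m : ℤ) | w) : ℤ) : ℝ) / w := by
      rw [hsym]
      push_cast
      ring
    rw [hreal]
    rcases jacobiSym.eq_one_or_neg_one hgcd with h5 | h5
    · rw [if_neg (by rw [not_not]; by_contra hc; rw [← hiff, h5] at hc; exact absurd hc (by norm_num)), h5]
      push_cast
      ring
    · rw [if_pos (hiff.1 h5), h5]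
      push_cast
      ring
  have hsum1 : ∑ w ∈ R.filter (fun w => ¬ IsSquare (m : ZMod w)), 1 / (w : ℝ) =
      1 / 2 * ∑ w ∈ R, 1 / (w : ℝ) -
        1 / 2 * ((ε : ℝ) * ∑ w ∈ R, ((J((w : ℤ) | a) : ℤ) : ℝ) / (w : ℝ)) := by
    rw [sum_filter, sum_congr rfl hval, sum_sub_distrib, mul_sum, mul_sum, mul_sum]
  have hJ : |(ε : ℝ) * ∑ w ∈ R, ((J((w : ℤ) | a) : ℤ) : ℝ) / (w : ℝ)| ≤ 1 := by
    rw [abs_mul]
    calc |(ε : ℝ)| * |∑ w ∈ R, ((J((w : ℤ) | a) : ℤ) : ℝ) / (w : ℝ)| ≤ 1 * 1 :=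
          mul_le_mul hε1 g2 (abs_nonneg _) (by norm_num)
      _ = 1 := by norm_num
  -- small orders
  have hord := qt4_ord (R.filter (fun w => ¬ OrdBig (zD D x) (B2 x) w)) (Real.exp (t / 10))
    (zD D x) (B2 x) (fun w hw => by
      rw [mem_filter] at hw
      obtain ⟨h1, h2, -⟩ := hRm w hw.1
      exact ⟨h1, h2, hw.2⟩)
  have hord1 : ((zD D x : ℕ) : ℝ) ^ 2 * (((B2 x : ℕ) : ℝ) + 1) ^ 2 *
      Real.exp (-Real.exp (t / 10)) ≤ 1 := by
    have h1 : ((zD D x : ℕ) : ℝ) ≤ Real.exp (D * t) := by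
      unfold zD
      refine (Nat.floor_le (by positivity)).trans ?_
      rw [hL, ← Real.exp_nat_mul]
    have h2 : ((B2 x : ℕ) : ℝ) + 1 ≤ Real.exp (Real.exp (t / 20) + 1) := by
      unfold B2
      rw [hp2]
      have h3 := Nat.floor_le (Real.exp_pos (Real.exp (t / 20))).le
      have h4 : 1 ≤ Real.exp (Real.exp (t / 20)) := Real.one_le_exp (Real.exp_pos _).le
      rw [Real.exp_add]
      have h5 := Real.exp_one_gt_d9
      nlinarith
    have h3 : ((zD D x : ℕ) : ℝ) ^ 2 ≤ Real.exp (2 * D * t) := by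
      refine (pow_le_pow_left₀ (Nat.cast_nonneg _) h1 2).trans (le_of_eq ?_)
      rw [← Real.exp_nat_mul]
      congr 1
      push_cast
      ring
    have h4 : (((B2 x : ℕ) : ℝ) + 1) ^ 2 ≤ Real.exp (2 * Real.exp (t / 20) + 2) := by
      refine (pow_le_pow_left₀ (by positivity) h2 2).trans (le_of_eq ?_)
      rw [← Real.exp_nat_mul]
      congr 1
      push_cast
      ring
    calc ((zD D x : ℕ) : ℝ) ^ 2 * (((B2 x : ℕ) : ℝ) + 1) ^ 2 * Real.exp (-Real.exp (t / 10))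
        ≤ Real.exp (2 * D * t) * Real.exp (2 * Real.exp (t / 20) + 2) *
            Real.exp (-Real.exp (t / 10)) := by
          apply mul_le_mul_of_nonneg_right _ (Real.exp_pos _).le
          exact mul_le_mul h3 h4 (by positivity) (Real.exp_pos _).le
      _ ≤ 1 := by
          rw [← Real.exp_add, ← Real.exp_add, Real.exp_le_one_iff]
          linarith
  -- the set
  have hWM : R.filter (fun w => ¬ IsSquare (m : ZMod w)) ⊆
      WM s D x m ∪ R.filter (fun w => ¬ OrdBig (zD D x) (B2 x) w) := by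
    intro w hw
    rw [mem_filter] at hw
    obtain ⟨h1, h2, h3, h4, h5⟩ := hRm w hw.1
    rw [mem_union]
    by_cases ho : OrdBig (zD D x) (B2 x) w
    · left
      unfold WM
      rw [mem_filter]
      exact ⟨h5, h3, hw.2, ho⟩
    · right
      rw [mem_filter]
      exact ⟨hw.1, ho⟩
  have hle : ∑ w ∈ R.filter (fun w => ¬ IsSquare (m : ZMod w)), 1 / (w : ℝ) ≤
      ∑ w ∈ WM s D x m, 1 / (w : ℝ) +
        ∑ w ∈ R.filter (fun w => ¬ OrdBig (zD D x) (B2 x) w), 1 / (w : ℝ) := by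
    refine (sum_le_sum_of_subset_of_nonneg hWM (fun w _ _ => by positivity)).trans ?_
    rw [← sum_union_inter]
    have : 0 ≤ ∑ w ∈ WM s D x m ∩ R.filter (fun w => ¬ OrdBig (zD D x) (B2 x) w), 1 / (w : ℝ) :=
      sum_nonneg (fun w _ => by positivity)
    linarith
  rw [hsum1] at hle
  have hJ2 := (abs_le.1 hJ).2
  have hφ0 : (0 : ℝ) < (MM s).totient := by linarith
  have hfin : t / (4 * (MM s).totient) + 3 / 2 ≤ 1 / 2 * ((4 / 5 : ℝ) * t / (MM s).totient) := by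
    have h1 : 10 ≤ t / (MM s).totient := by
      rw [le_div_iff₀ hφ0]
      exact n1
    have h2 : t / (4 * (MM s).totient) = 1 / 4 * (t / (MM s).totient) := by
      field_simp
    have h3 : (4 / 5 : ℝ) * t / (MM s).totient = 4 / 5 * (t / (MM s).totient) := by ring
    rw [h2, h3]
    linarith
  linarith [hord.trans hord1]

end Pool.Agent.Lib.MP_79499b_co.QZ
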