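import Pool.Agent.Lib.MP_79499b_co.QZ.QV1
import Pool.Agent.Lib.MP_79499b_co.QZ.QT4
import Pool.Agent.Lib.MP_79499b_co.Q38Primes

/-!
# QT5: the sieve for a good cofactor

`cof_sieve`: `s ≥ 2`, `x` large, `GoodCof s D x m`, `X ≥ exp(L/2)`, `X ≤ x` (natural number): the number of `n < X` without prime factor `≤ exp L^(th2)` such that
`m n` has no `PairT` is at most `X exp(-(1 + 1/(6 φ(MM s))) LL)`.

Proof (as QV2-QV4, but simpler). `φ = φ(MM s)`, `z = ⌊exp L^(th2)⌋`, `W = WM s D x m`, `S = ∑_W 1/w ≥ LL/(4φ)`. The `w ∈ W` are primes `≤ z`, `> m`,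
`> s`, with `rho1 s w = s`, `rho2 s w = s - 1` (`rho_w`). If `n` is counted, then either (I) no `w ∈ W` divides `(m n)^s + 1`, or (II) some `v ∈ W` does and no
`w ∈ W`, `w ≠ v`, divides `∑ (m n)^i`.
(I): `brun_cls` with `V = 1`, `ρ = 0`, `U` all primes `u ≤ z`, `E u n`: `u ∣ n` or (`u ∈ W` and `u ∣ (m n)^s + 1`): `e(u) = 1` for `u ∉ W` and `1 + s` for `u ∈ W`
(`m` is a unit mod `u`, the classes are different). `G ≥ th2 LL - C + s S` (Mertens), `G ≤ (s+1)(LL + C)`, `D' = (s+1) exp(L^(th2))`, `r = 2 ⌈3 (s+2) LL⌉` as in QV3: the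
number is at most `5 X e^(-G)`.
(II): for `v ∈ W`: `brun_cls` with `V = v`, at most `s` classes `ρ` mod `v` (`cls_V` for `T = {v}`), `U` the primes `u ≤ z`, `u ≠ v`, `E u n`: `u ∣ n` or (`u ∈ W` and
`u ∣ ∑ (m n)^i`): `G ≥ th2 LL - C + (s-1) S` (`1/v` tiny): at most `s · 5 (X/v) e^(-G)`. Sum over `v ∈ W`: `∑ 1/v ≤ 2 LL` (`v ≤ x`).
Total `≤ C' LL X exp(-(th2 + (s-1)/(4φ)) LL) ≤ X exp(-(1 + 1/(6φ)) LL)`, since `th2 + (s-1)/(4φ) ≥ 1 + 1/(4φ) - 1/(40φ) > 1 + 1/(5φ)` for `s ≥ 2`.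
-/

set_option autoImplicit false

namespace Pool.Agent.Lib.MP_79499b_co.QZ

open Finset DZ
open scoped Classical

private theorem QT5_fc {p q : ℕ → Prop} (i1 : DecidablePred p) (i2 : DecidablePred q)
    (S : Finset ℕ) (h : ∀ n ∈ S, p n ↔ q n) :
    (@Finset.filter ℕ p i1 S).card = (@Finset.filter ℕ q i2 S).card := by
  refine congrArg Finset.card (Finset.ext fun a => ?_)
  rw [Finset.mem_filter, Finset.mem_filter]
  constructor
  · rintro ⟨h1, h2⟩
    exact ⟨h1, (h a h1).1 h2⟩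
  · rintro ⟨h1, h2⟩
    exact ⟨h1, (h a h1).2 h2⟩

private theorem QT5_inj (u k : ℕ) (hu : 0 < u) (hk : k.Coprime u) (P Q : ℕ → Prop)
    (h : ∀ t < u, Q t → P ((k * t) % u)) :
    ((range u).filter Q).card ≤ ((range u).filter P).card := by
  refine card_le_card_of_injOn (fun t => (k * t) % u) ?_ ?_
  · intro t ht
    rw [mem_coe, mem_filter, mem_range] at ht
    rw [mem_coe, mem_filter, mem_range]
    exact ⟨Nat.mod_lt _ hu, h t ht.1 ht.2⟩
  · intro a ha b hb hab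
    rw [mem_coe, mem_filter, mem_range] at ha hb
    have h1 : k * a ≡ k * b [MOD u] := hab
    have h2 : a ≡ b [MOD u] := Nat.ModEq.cancel_left_of_coprime hk.symm h1
    exact Nat.ModEq.eq_of_lt_of_lt h2 ha.1 hb.1

private theorem QT5_count (u m : ℕ) (hu : u.Prime) (hm : ¬ u ∣ m) (P : ℕ → Prop)
    (hP : ∀ n, P (n % u) ↔ P n) (h0 : ¬ P 0) :
    ((range u).filter (fun n => u ∣ n ∨ P (m * n))).card = 1 + ((range u).filter P).card := by
  have hcop : m.Coprime u := ((Nat.Prime.coprime_iff_not_dvd hu).mpr hm).symm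
  have h1 : (range u).filter (fun n => u ∣ n ∨ P (m * n)) =
      insert 0 ((range u).filter (fun n => P (m * n))) := by
    ext n
    rw [mem_filter, mem_insert, mem_filter, mem_range]
    constructor
    · rintro ⟨h1, h2 | h2⟩
      · exact Or.inl (Nat.eq_zero_of_dvd_of_lt h2 h1)
      · exact Or.inr ⟨h1, h2⟩
    · rintro (h | h)
      · rw [h]
        exact ⟨hu.pos, Or.inl (dvd_zero u)⟩
      · exact ⟨h.1, Or.inr h.2⟩
  have h2 : 0 ∉ (range u).filter (fun n => P (m * n)) := by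
    rw [mem_filter, mul_zero]
    exact fun h => h0 h.2
  rw [h1, card_insert_of_notMem h2, add_comm]
  congr 1
  obtain ⟨m', -, hm'⟩ := Nat.exists_mul_mod_eq_one_of_coprime hcop hu.one_lt
  have hmm : m * m' ≡ 1 [MOD u] := by
    rw [Nat.ModEq, hm', Nat.mod_eq_of_lt hu.one_lt]
  apply le_antisymm
  · exact QT5_inj u m hu.pos hcop _ _ (fun t _ ht => (hP _).mpr ht)
  · refine QT5_inj u m' hu.pos ?_ _ _ (fun t ht hQ => ?_)
    · refine ((Nat.Prime.coprime_iff_not_dvd hu).mpr fun h => ?_).symm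
      have h3 : m * m' ≡ 0 [MOD u] := (Nat.modEq_zero_iff_dvd.mpr (dvd_mul_of_dvd_right h m))
      have h4 : 1 ≡ 0 [MOD u] := hmm.symm.trans h3
      exact hu.one_lt.ne' (Nat.dvd_one.mp (Nat.modEq_zero_iff_dvd.mp h4))
    · have h3 : m * ((m' * t) % u) ≡ t [MOD u] := by
        have h4 : m * ((m' * t) % u) ≡ m * (m' * t) [MOD u] :=
          (Nat.mod_modEq (m' * t) u).mul_left m
        have h5 : m * (m' * t) ≡ 1 * t [MOD u] := by
          rw [← mul_assoc]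
          exact hmm.mul_right t
        rw [one_mul] at h5
        exact h4.trans h5
      have h6 : (m * ((m' * t) % u)) % u = t % u := h3
      show P (m * ((m' * t) % u))
      rw [← hP, h6, hP]
      exact hQ

private theorem QT5_P1 (s u n : ℕ) : u ∣ (n % u) ^ s + 1 ↔ u ∣ n ^ s + 1 :=
  (((Nat.mod_modEq n u).pow s).add_right 1).dvd_iff dvd_rfl

private theorem QT5_P2 (s u n : ℕ) :
    u ∣ ∑ i ∈ range s, (n % u) ^ i ↔ u ∣ ∑ i ∈ range s, n ^ i := by
  rw [← ZMod.natCast_eq_zero_iff, ← ZMod.natCast_eq_zero_iff]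
  push_cast
  simp only [ZMod.natCast_mod]

private theorem QT5_c1 (s u m : ℕ) (hs : 1 ≤ s) (hu : u.Prime) (hm : ¬ u ∣ m) :
    ((range u).filter (fun n => u ∣ n ∨ (fun a : ℕ => u ∣ a ^ s + 1) (m * n))).card =
      1 + rho1 s u := by
  have h := QT5_count u m hu hm (fun t => u ∣ t ^ s + 1) (fun n => QT5_P1 s u n) (by
    rw [zero_pow (by omega), zero_add]
    exact fun h => hu.one_lt.ne' (Nat.dvd_one.mp h))
  have h2 : rho1 s u = ((range u).filter (fun t => u ∣ t ^ s + 1)).card := by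
    unfold rho1
    exact QT5_fc _ _ _ fun n _ => Iff.rfl
  rw [h2]
  refine Eq.trans ?_ (h.trans ?_)
  · exact QT5_fc _ _ _ fun n _ => Iff.rfl
  · exact congrArg (fun k => 1 + k) (QT5_fc _ _ _ fun n _ => Iff.rfl)

private theorem QT5_c2 (s u m : ℕ) (hs : 1 ≤ s) (hu : u.Prime) (hm : ¬ u ∣ m) :
    ((range u).filter (fun n => u ∣ n ∨ (fun a : ℕ => u ∣ ∑ i ∈ range s, a ^ i) (m * n))).card =
      1 + rho2 s u := by
  have h := QT5_count u m hu hm (fun t => u ∣ ∑ i ∈ range s, t ^ i) (fun n => QT5_P2 s u n) (by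
    obtain ⟨k, rfl⟩ : ∃ k, s = k + 1 := ⟨s - 1, by omega⟩
    rw [sum_range_succ', pow_zero]
    have : ∑ i ∈ range k, (0 : ℕ) ^ (i + 1) = 0 := by
      refine sum_eq_zero fun i _ => ?_
      rw [zero_pow (by omega)]
    rw [this, zero_add]
    exact fun h => hu.one_lt.ne' (Nat.dvd_one.mp h))
  have h2 : rho2 s u = ((range u).filter (fun t => u ∣ ∑ i ∈ range s, t ^ i)).card := by
    unfold rho2
    exact QT5_fc _ _ _ fun n _ => Iff.rfl
  rw [h2]
  refine Eq.trans ?_ (h.trans ?_)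
  · exact QT5_fc _ _ _ fun n _ => Iff.rfl
  · exact congrArg (fun k => 1 + k) (QT5_fc _ _ _ fun n _ => Iff.rfl)

/-- the primes of the sieve -/
private noncomputable def QT5_PP (s x : ℕ) : Finset ℕ :=
  (Icc 1 ⌊Real.exp (Real.log x ^ (th2 s))⌋₊).filter (fun u => u.Prime)

private theorem QT5_memPP (s x u : ℕ) : u ∈ QT5_PP s x ↔
    u.Prime ∧ (u : ℝ) ≤ Real.exp (Real.log x ^ (th2 s)) := by
  unfold QT5_PP
  rw [mem_filter, mem_Icc]
  constructor
  · rintro ⟨⟨h1, h2⟩, h3⟩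
    exact ⟨h3, (Nat.le_floor_iff (Real.exp_pos _).le).1 h2⟩
  · rintro ⟨h1, h2⟩
    exact ⟨⟨h1.one_lt.le, (Nat.le_floor_iff (Real.exp_pos _).le).2 h2⟩, h1⟩

private theorem QT5_PP_eq (s x : ℕ) : ∑ u ∈ QT5_PP s x, 1 / (u : ℝ) =
    Q38.msum 1 0 (⌊Real.exp (Real.log x ^ (th2 s))⌋₊ + 1) := by
  unfold Q38.msum
  refine sum_congr ?_ fun u _ => one_div _
  ext u
  unfold QT5_PP
  rw [mem_filter, mem_filter, mem_Icc, mem_range]
  constructor
  · rintro ⟨h1, h2⟩
    exact ⟨by omega, h2, Nat.mod_one u⟩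
  · rintro ⟨h1, h2, -⟩
    exact ⟨⟨h2.one_lt.le, by omega⟩, h2⟩

private theorem QT5_phi (s : ℕ) (hs : 1 ≤ s) : (1 : ℝ) ≤ ((MM s).totient : ℝ) := by
  obtain ⟨-, -, -, h1⟩ := hh_facts s hs
  have h2 : 0 < (MM s).totient := Nat.totient_pos.2 h1
  exact_mod_cast h2

private theorem QT5_th (s : ℕ) (hs : 1 ≤ s) : 0 < th2 s ∧ th2 s < 1 := by
  have h1 := QT5_phi s hs
  unfold th2
  constructor
  · have h2 : 1 / (40 * ((MM s).totient : ℝ)) ≤ 1 / 40 := by
      apply one_div_le_one_div_of_le (by norm_num)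
      linarith
    linarith
  · have h2 : 0 < 1 / (40 * ((MM s).totient : ℝ)) := by positivity
    linarith

private theorem QT5_ev (θ : ℝ) (hθ1 : θ < 1) (C : ℝ) (hC : 0 < C) : ∃ x0 : ℕ,
    ∀ x : ℕ, x0 ≤ x → 3 ≤ x ∧ 1 ≤ LL x ∧ C * LL x * Real.log x ^ θ ≤ Real.log x / 2 := by
  have hδ : 0 < 1 - θ := by linarith
  have h2 : ∀ᶠ L : ℝ in Filter.atTop, ‖Real.log L‖ ≤ (1 / (2 * C)) * ‖L ^ (1 - θ)‖ :=
    (isLittleO_log_rpow_atTop hδ).bound (by positivity)
  obtain ⟨x1, h1⟩ := Filter.eventually_atTop.mp (LL_tend.eventually_ge_atTop (1 : ℝ))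
  obtain ⟨x2, h2⟩ := Filter.eventually_atTop.mp (log_tend.eventually h2)
  obtain ⟨x3, h3⟩ := Filter.eventually_atTop.mp (log_tend.eventually_ge_atTop (1 : ℝ))
  refine ⟨max 3 (max x1 (max x2 x3)), fun x hx => ?_⟩
  simp only [max_le_iff] at hx
  have g1 := h1 x hx.2.1
  have g2 := h2 x hx.2.2.1
  have g3 := h3 x hx.2.2.2
  refine ⟨hx.1, g1, ?_⟩
  have hLL : LL x = Real.log (Real.log x) := rfl
  rw [← hLL] at g2
  obtain ⟨L, hL⟩ : ∃ L : ℝ, L = Real.log x := ⟨_, rfl⟩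
  rw [← hL] at g2 g3 ⊢
  have hL0 : 0 < L := by linarith
  rw [Real.norm_of_nonneg (by linarith), Real.norm_of_nonneg (Real.rpow_nonneg hL0.le _)] at g2
  have h4 : L ^ (1 - θ) * L ^ θ = L := by
    rw [← Real.rpow_add hL0, sub_add_cancel, Real.rpow_one]
  have hθ0 : 0 ≤ L ^ θ := Real.rpow_nonneg hL0.le _
  calc C * LL x * L ^ θ ≤ C * (1 / (2 * C) * L ^ (1 - θ)) * L ^ θ := by
        gcongr
    _ = (L ^ (1 - θ) * L ^ θ) / 2 := by
        field_simp
    _ = L / 2 := by rw [h4]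

private theorem QT5_mert (s : ℕ) (hs : 1 ≤ s) : ∃ C : ℝ, 0 ≤ C ∧ ∃ x0 : ℕ, ∀ x : ℕ,
    x0 ≤ x → th2 s * LL x - C ≤ ∑ u ∈ QT5_PP s x, 1 / (u : ℝ) ∧
      ∑ u ∈ QT5_PP s x, 1 / (u : ℝ) ≤ LL x + C := by
  obtain ⟨C1, hC1⟩ := Q38.mertens_all
  obtain ⟨C2, hC20, hC2⟩ := Q38.msum_one_le
  obtain ⟨hθ0, hθ1⟩ := QT5_th s hs
  have hA : Filter.Tendsto (fun x : ℕ => Real.log (x : ℝ) ^ (th2 s)) Filter.atTop Filter.atTop :=
    (tendsto_rpow_atTop hθ0).comp log_tend
  obtain ⟨x1, h1⟩ := Filter.eventually_atTop.mp (hA.eventually_ge_atTop (2 : ℝ))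
  obtain ⟨x3, h3⟩ := Filter.eventually_atTop.mp (log_tend.eventually_ge_atTop (1 : ℝ))
  refine ⟨|C1| + C2 + 1, by positivity, max x1 x3, fun x hx => ?_⟩
  rw [max_le_iff] at hx
  rw [QT5_PP_eq]
  have hA2' := h1 x hx.1
  have hL1 := h3 x hx.2
  obtain ⟨A, hA⟩ : ∃ A : ℝ, A = Real.log x ^ (th2 s) := ⟨_, rfl⟩
  obtain ⟨z, hz⟩ : ∃ z : ℕ, z = ⌊Real.exp A⌋₊ := ⟨_, rfl⟩
  have hlogA : Real.log A = th2 s * LL x := by
    rw [hA, Real.log_rpow (by linarith)]
    rfl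
  rw [← hA] at hA2' ⊢
  rw [← hz]
  have he : A + 1 ≤ Real.exp A := Real.add_one_le_exp A
  have hz1 : Real.exp A < ((z + 1 : ℕ) : ℝ) := by
    push_cast
    rw [hz]
    exact Nat.lt_floor_add_one _
  have hz2 : ((z + 1 : ℕ) : ℝ) ≤ Real.exp A + 1 := by
    push_cast
    have : (z : ℝ) ≤ Real.exp A := by
      rw [hz]
      exact Nat.floor_le (Real.exp_pos _).le
    linarith
  have hz3 : 3 ≤ z + 1 := by
    have : (2 : ℝ) < ((z + 1 : ℕ) : ℝ) := by linarith
    have : 2 < z + 1 := by exact_mod_cast this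
    omega
  have h1 := hC1 _ hz3
  have h2 := hC2 _ hz3
  have hlog1 : A ≤ Real.log ((z + 1 : ℕ) : ℝ) := by
    have := Real.log_le_log (Real.exp_pos A) hz1.le
    rwa [Real.log_exp] at this
  have hlog2 : Real.log ((z + 1 : ℕ) : ℝ) ≤ A * 2 := by
    have h3 : ((z + 1 : ℕ) : ℝ) ≤ Real.exp (A * 2) := by
      have h4 : Real.exp (A * 2) = Real.exp A * Real.exp A := by
        rw [← Real.exp_add]
        congr 1
        ring
      rw [h4]
      nlinarith
    have := Real.log_le_log (by linarith [Real.exp_pos A]) h3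
    rwa [Real.log_exp] at this
  have hll1 : Real.log A ≤ Real.log (Real.log ((z + 1 : ℕ) : ℝ)) :=
    Real.log_le_log (by linarith) hlog1
  have hll2 : Real.log (Real.log ((z + 1 : ℕ) : ℝ)) ≤ Real.log A + 1 := by
    have h3 := Real.log_le_log (by linarith) hlog2
    rw [Real.log_mul (by linarith) (by norm_num)] at h3
    have h4 : Real.log 2 ≤ 1 := by
      have := Real.log_two_lt_d9
      linarith
    linarith
  have hLL0 : 0 ≤ LL x := Real.log_nonneg hL1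
  have hlA : Real.log A ≤ LL x := by
    rw [hlogA]
    nlinarith
  rw [← hlogA]
  have := le_abs_self C1
  have := abs_nonneg C1
  constructor <;> linarith

private theorem QT5_W (s D : ℕ) : ∃ x0 : ℕ, ∀ x : ℕ, x0 ≤ x → ∀ m w : ℕ,
    w ∈ WM s D x m → w ∈ QT5_PP s x ∧ s < w ∧ w ≡ hh s [MOD MM s] ∧ ¬ w ∣ m := by
  have hA : Filter.Tendsto (fun x : ℕ => Real.exp (Real.log (x : ℝ) ^ (1 / 10 : ℝ)))
      Filter.atTop Filter.atTop :=
    Real.tendsto_exp_atTop.comp ((tendsto_rpow_atTop (by norm_num)).comp log_tend)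
  obtain ⟨x1, h1⟩ := Filter.eventually_atTop.mp (hA.eventually_ge_atTop (s : ℝ))
  refine ⟨x1, fun x hx m w hw => ?_⟩
  have hs := h1 x hx
  unfold WM RQ II at hw
  rw [mem_filter, mem_biUnion] at hw
  obtain ⟨⟨i, hi, hwi⟩, hw1, hw2, -⟩ := hw
  rw [mem_filter] at hi
  rw [mem_Bl] at hwi
  obtain ⟨-, hi1, hi2⟩ := hi
  have h2 : ((2 ^ i : ℕ) : ℝ) < w := by exact_mod_cast hwi.1.1
  have h3 : (w : ℝ) ≤ ((2 * 2 ^ i : ℕ) : ℝ) := by exact_mod_cast hwi.1.2
  push_cast at h2 h3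
  refine ⟨?_, ?_, hw1, ?_⟩
  · rw [QT5_memPP]
    refine ⟨hwi.2, h3.trans ?_⟩
    rw [← pow_succ']
    exact hi2
  · have h4 : (s : ℝ) < w := by linarith
    exact_mod_cast h4
  · intro h
    apply hw2
    rw [(ZMod.natCast_eq_zero_iff m w).mpr h]
    exact ⟨0, by rw [mul_zero]⟩

private theorem QT5_gen (s D : ℕ) (hs : 2 ≤ s) : ∃ (C : ℝ) (x0 : ℕ), 0 ≤ C ∧ ∀ x : ℕ, x0 ≤ x →
    ∀ m : ℕ, GoodCof s D x m → ∀ X : ℕ, Real.exp (Real.log x / 2) ≤ X →
    ∀ (r : ℕ) (P : ℕ → ℕ → Prop), r ≤ s → (∀ u n : ℕ, P u (n % u) ↔ P u n) →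
    (∀ w ∈ WM s D x m, ((range w).filter (fun n => w ∣ n ∨ P w (m * n))).card = 1 + r) →
    ∀ V : ℕ, (V = 1 ∨ V ∈ WM s D x m) → ∀ ρ : ℕ,
    cnt X (fun n => n % V = ρ ∧ ∀ u ∈ (QT5_PP s x).filter (fun u => ¬ u ∣ V),
      ¬ (u ∣ n ∨ (u ∈ WM s D x m ∧ P u (m * n)))) ≤
      5 * (X / V) * Real.exp (-((th2 s + r / (4 * ((MM s).totient : ℝ))) * LL x - C)) := by
  obtain ⟨hθ0, hθ1⟩ := QT5_th s (by omega)
  have hφ1 := QT5_phi s (by omega)
  obtain ⟨CM, hCM0, x2, hx2⟩ := QT5_mert s (by omega)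
  obtain ⟨C, hCdef⟩ : ∃ C : ℝ, C = 1 + 2 + (6 * ((s : ℝ) + 2) + 2) * (s + 1) + (s + 2) := ⟨_, rfl⟩
  have hC0 : 0 < C := by rw [hCdef]; positivity
  obtain ⟨x1, hx1⟩ := QT5_ev (th2 s) hθ1 C hC0
  obtain ⟨x3, hx3⟩ := QT5_W s D
  obtain ⟨x4, hx4⟩ := wm_low s D (by omega)
  obtain ⟨x5, hx5⟩ := Filter.eventually_atTop.mp
    (LL_tend.eventually_ge_atTop (((s : ℝ) + 1) * CM))
  obtain ⟨x6, hx6⟩ := Filter.eventually_atTop.mp (log_tend.eventually_ge_atTop (1 : ℝ))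
  refine ⟨CM + 1 + s, max (max x1 x2) (max (max x3 x4) (max x5 x6)), by positivity,
    fun x hx m hm X hX r P hr hPm hPc V hV ρ => ?_⟩
  simp only [max_le_iff] at hx
  obtain ⟨k3, kt, kC⟩ := hx1 x hx.1.1
  obtain ⟨hM1, hM2⟩ := hx2 x hx.1.2
  have hW := hx3 x hx.2.1.1 m
  have hlow := hx4 x hx.2.1.2 m hm
  have hCMt := hx5 x hx.2.2.1
  have hL1 := hx6 x hx.2.2.2
  obtain ⟨t, htdef⟩ : ∃ t : ℝ, t = LL x := ⟨_, rfl⟩
  obtain ⟨A, hAdef⟩ : ∃ A : ℝ, A = Real.log x ^ (th2 s) := ⟨_, rfl⟩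
  have hA1 : 1 ≤ A := by
    rw [hAdef]
    exact Real.one_le_rpow hL1 hθ0.le
  have hPPA : ∀ u ∈ QT5_PP s x, u.Prime ∧ (u : ℝ) ≤ Real.exp A := by
    intro u hu
    rw [QT5_memPP] at hu
    rw [hAdef]
    exact hu
  rw [← htdef] at kt kC hM1 hM2 hlow hCMt ⊢
  rw [← hAdef] at kC
  have hs1 : (1 : ℝ) ≤ s := by exact_mod_cast (by omega : 1 ≤ s)
  -- the modulus
  have hVp : V = 1 ∨ V.Prime := by
    rcases hV with h | h
    · exact Or.inl h
    · exact Or.inr ((QT5_memPP s x V).1 (hW V h).1).1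
  have hV0 : 0 < V := by
    rcases hVp with h | h
    · omega
    · exact h.pos
  have hVle : (V : ℝ) ≤ Real.exp A := by
    rcases hV with h | h
    · rw [h, Nat.cast_one]
      exact Real.one_le_exp (by linarith)
    · exact (hPPA V (hW V h).1).2
  have hVone : ∀ u : ℕ, u.Prime → u ∣ V → u = V := by
    intro u hu huV
    rcases hVp with h | h
    · rw [h] at huV
      exact absurd (Nat.dvd_one.1 huV) hu.one_lt.ne'
    · exact (Nat.prime_dvd_prime_iff_eq hu h).1 huV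
  obtain ⟨U, hU⟩ : ∃ U : Finset ℕ, U = (QT5_PP s x).filter (fun u => ¬ u ∣ V) := ⟨_, rfl⟩
  obtain ⟨E, hE⟩ : ∃ E : ℕ → ℕ → Prop,
    E = fun u n => u ∣ n ∨ (u ∈ WM s D x m ∧ P u (m * n)) := ⟨_, rfl⟩
  have hUm : ∀ u, u ∈ U ↔ u ∈ QT5_PP s x ∧ ¬ u ∣ V := by
    intro u
    rw [hU, mem_filter]
  have hgoal : (fun n => n % V = ρ ∧ ∀ u ∈ (QT5_PP s x).filter (fun u => ¬ u ∣ V),
      ¬ (u ∣ n ∨ (u ∈ WM s D x m ∧ P u (m * n)))) = (fun n => n % V = ρ ∧ ∀ u ∈ U, ¬ E u n) := by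
    rw [hU, hE]
  rw [hgoal]
  -- the number of classes
  have he : ∀ u ∈ QT5_PP s x, (((range u).filter (E u)).card : ℝ) =
      1 + (if u ∈ WM s D x m then (r : ℝ) else 0) := by
    intro u hu
    have hup := (hPPA u hu).1
    by_cases huW : u ∈ WM s D x m
    · rw [if_pos huW]
      have h1 : ((range u).filter (E u)).card = 1 + r := by
        rw [← hPc u huW]
        refine QT5_fc _ _ _ fun n _ => ?_
        rw [hE]
        constructor
        · rintro (h | ⟨-, h⟩)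
          · exact Or.inl h
          · exact Or.inr h
        · rintro (h | h)
          · exact Or.inl h
          · exact Or.inr ⟨huW, h⟩
      rw [h1]
      push_cast
      ring
    · rw [if_neg huW, add_zero]
      have h1 : (range u).filter (E u) = {0} := by
        ext n
        rw [mem_filter, mem_range, mem_singleton]
        constructor
        · rintro ⟨h1, h2⟩
          rw [hE] at h2
          rcases h2 with h | ⟨h, -⟩
          · exact Nat.eq_zero_of_dvd_of_lt h h1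
          · exact absurd h huW
        · intro h
          rw [h]
          refine ⟨hup.pos, ?_⟩
          rw [hE]
          exact Or.inl (dvd_zero u)
      rw [h1, card_singleton, Nat.cast_one]
  have hrs : (r : ℝ) ≤ s := by exact_mod_cast hr
  have hr0 : (0 : ℝ) ≤ r := Nat.cast_nonneg r
  have hele : ∀ u ∈ QT5_PP s x, (((range u).filter (E u)).card : ℝ) ≤ (s : ℝ) + 1 := by
    intro u hu
    rw [he u hu]
    split_ifs
    · linarith
    · linarith
  obtain ⟨G, hG⟩ : ∃ G : ℝ, G = ∑ u ∈ U, (((range u).filter (E u)).card : ℝ) / u := ⟨_, rfl⟩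
  have hUsub : U ⊆ QT5_PP s x := fun u hu => ((hUm u).1 hu).1
  have gu1 : G ≤ (s + 2) * t := by
    rw [hG]
    calc ∑ u ∈ U, (((range u).filter (E u)).card : ℝ) / u ≤
          ∑ u ∈ U, ((s : ℝ) + 1) * (1 / (u : ℝ)) := by
          refine sum_le_sum fun u hu => ?_
          rw [div_eq_mul_one_div]
          exact mul_le_mul_of_nonneg_right (hele u (hUsub hu)) (by positivity)
      _ = ((s : ℝ) + 1) * ∑ u ∈ U, 1 / (u : ℝ) := by rw [mul_sum]
      _ ≤ ((s : ℝ) + 1) * ∑ u ∈ QT5_PP s x, 1 / (u : ℝ) := by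
          refine mul_le_mul_of_nonneg_left ?_ (by positivity)
          exact sum_le_sum_of_subset_of_nonneg hUsub fun u _ _ => by positivity
      _ ≤ ((s : ℝ) + 1) * (t + CM) := mul_le_mul_of_nonneg_left hM2 (by positivity)
      _ ≤ (s + 2) * t := by linarith
  have gu2 : ∑ u ∈ U, (((range u).filter (E u)).card : ℝ) ≤ (s + 1) * Real.exp A := by
    calc ∑ u ∈ U, (((range u).filter (E u)).card : ℝ) ≤ ∑ u ∈ U, ((s : ℝ) + 1) :=
          sum_le_sum fun u hu => hele u (hUsub hu)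
      _ = (U.card : ℝ) * ((s : ℝ) + 1) := by rw [sum_const, nsmul_eq_mul]
      _ ≤ Real.exp A * ((s : ℝ) + 1) := by
          refine mul_le_mul_of_nonneg_right ?_ (by positivity)
          have h1 : U.card ≤ ⌊Real.exp (Real.log x ^ (th2 s))⌋₊ := by
            refine (card_le_card hUsub).trans ?_
            unfold QT5_PP
            refine (card_filter_le _ _).trans ?_
            rw [Nat.card_Icc]
            omega
          rw [← hAdef] at h1
          have h2 : ((⌊Real.exp A⌋₊ : ℕ) : ℝ) ≤ Real.exp A :=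
            Nat.floor_le (Real.exp_pos _).le
          exact le_trans (by exact_mod_cast h1) h2
      _ = (s + 1) * Real.exp A := by ring
  -- the lower bound
  have hone : ∀ (S : Finset ℕ), S ⊆ QT5_PP s x →
      ∑ u ∈ S, 1 / (u : ℝ) ≤ ∑ u ∈ S.filter (fun u => ¬ u ∣ V), 1 / (u : ℝ) + 1 := by
    intro S hS
    have h1 : ∑ u ∈ S.filter (fun u => u ∣ V), 1 / (u : ℝ) ≤ 1 := by
      have h2 : S.filter (fun u => u ∣ V) ⊆ {V} := by
        intro u hu
        rw [mem_filter] at hu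
        rw [mem_singleton]
        exact hVone u (hPPA u (hS hu.1)).1 hu.2
      calc ∑ u ∈ S.filter (fun u => u ∣ V), 1 / (u : ℝ) ≤ ∑ u ∈ ({V} : Finset ℕ), 1 / (u : ℝ) :=
            sum_le_sum_of_subset_of_nonneg h2 fun u _ _ => by positivity
        _ = 1 / (V : ℝ) := sum_singleton _ _
        _ ≤ 1 := by
            have h3 : (1 : ℝ) ≤ V := by exact_mod_cast hV0
            rw [div_le_one (by linarith)]
            exact h3
    have h2 := sum_filter_add_sum_filter_not S (fun u => u ∣ V) (fun u : ℕ => 1 / (u : ℝ))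
    linarith
  have gl : (th2 s + r / (4 * ((MM s).totient : ℝ))) * t - (CM + 1 + s) ≤ G := by
    have h1 : G = ∑ u ∈ U, 1 / (u : ℝ) + r * ∑ u ∈ (WM s D x m).filter (fun u => ¬ u ∣ V), 1 / (u : ℝ) := by
      rw [hG, mul_sum]
      have h2 : ∑ u ∈ (WM s D x m).filter (fun u => ¬ u ∣ V), (r : ℝ) * (1 / (u : ℝ)) =
          ∑ u ∈ U, (if u ∈ WM s D x m then (r : ℝ) * (1 / (u : ℝ)) else 0) := by
        rw [← sum_filter]
        refine sum_congr ?_ fun _ _ => rfl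
        ext u
        rw [mem_filter, mem_filter, hUm]
        constructor
        · rintro ⟨h1, h2⟩
          exact ⟨⟨(hW u h1).1, h2⟩, h1⟩
        · rintro ⟨⟨h1, h2⟩, h3⟩
          exact ⟨h3, h2⟩
      rw [h2, ← sum_add_distrib]
      refine sum_congr rfl fun u hu => ?_
      rw [he u (hUsub hu)]
      split_ifs
      · ring
      · ring
    have h2 := hone (QT5_PP s x) (fun _ h => h)
    rw [← hU] at h2
    have h3 := hone (WM s D x m) (fun u hu => (hW u hu).1)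
    have h4 : (r : ℝ) * (t / (4 * ((MM s).totient : ℝ))) ≤
        r * (∑ u ∈ (WM s D x m).filter (fun u => ¬ u ∣ V), 1 / (u : ℝ) + 1) :=
      mul_le_mul_of_nonneg_left (hlow.trans h3) hr0
    have h5 : (r : ℝ) * (t / (4 * ((MM s).totient : ℝ))) = r / (4 * ((MM s).totient : ℝ)) * t := by
      ring
    rw [h1]
    rw [h5] at h4
    nlinarith
  -- Brun
  obtain ⟨q, hq⟩ : ∃ q : ℕ, q = ⌈3 * ((s : ℝ) + 2) * t⌉₊ := ⟨_, rfl⟩
  have hq1 : 3 * ((s : ℝ) + 2) * t ≤ q := by rw [hq]; exact Nat.le_ceil _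
  have hq2 : (q : ℝ) ≤ 3 * ((s : ℝ) + 2) * t + 1 := by
    rw [hq]
    exact (Nat.ceil_lt_add_one (by positivity)).le
  have hr' : Even (2 * q) := even_two_mul q
  obtain ⟨D', hD'⟩ : ∃ D' : ℝ, D' = (s + 1) * Real.exp A := ⟨_, rfl⟩
  have hD'1 : 1 ≤ D' := by
    rw [hD']
    have h1 := Real.add_one_le_exp A
    nlinarith
  have hlogD : D' ≤ Real.exp ((s + 1) * A) := by
    rw [hD']
    have h1 := Real.add_one_le_exp (s : ℝ)
    calc ((s : ℝ) + 1) * Real.exp A ≤ Real.exp s * Real.exp A :=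
          mul_le_mul_of_nonneg_right h1 (Real.exp_pos _).le
      _ = Real.exp (s + A) := (Real.exp_add _ _).symm
      _ ≤ Real.exp ((s + 1) * A) := Real.exp_le_exp.2 (by nlinarith)
  rw [← hD'] at gu2
  have h1 := brun_cls hV0 U (fun u hu => (hPPA u (hUsub hu)).1)
    (fun u hu => ((Nat.Prime.coprime_iff_not_dvd (hPPA u (hUsub hu)).1).2
      ((hUm u).1 hu).2).symm) E
    (fun u hu n => by
      have hm' : (m * (n % u)) % u = (m * n) % u := (Nat.mod_modEq n u).mul_left m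
      have h2 : P u (m * (n % u)) ↔ P u (m * n) := by
        rw [← hPm u (m * (n % u)), hm', hPm u]
      rw [hE]
      show (u ∣ n % u ∨ _) ↔ _
      rw [Nat.dvd_mod_iff dvd_rfl, h2]) hr' X ρ hG.symm hD'1 gu2
  refine h1.trans ?_
  have hV0' : (0 : ℝ) < V := by exact_mod_cast hV0
  have hXV : Real.exp (C * t * A - A) ≤ X / V := by
    have h4 : Real.exp (C * t * A) ≤ X := (Real.exp_le_exp.2 kC).trans hX
    rw [le_div_iff₀ hV0', Real.exp_sub]
    calc Real.exp (C * t * A) / Real.exp A * V ≤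
          Real.exp (C * t * A) / Real.exp A * Real.exp A :=
          mul_le_mul_of_nonneg_left hVle (by positivity)
      _ = Real.exp (C * t * A) := by field_simp
      _ ≤ X := h4
  have hmain : 3 * D' ^ (2 * q) ≤ (X / V) * Real.exp (-G) := by
    have h2 : (3 : ℝ) ≤ Real.exp 2 := by
      have := Real.add_one_le_exp (2 : ℝ)
      linarith
    have h3 : D' ^ (2 * q) ≤ Real.exp ((2 * q : ℕ) * ((s + 1) * A)) := by
      rw [Real.exp_nat_mul]
      exact pow_le_pow_left₀ (by linarith) hlogD _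
    calc 3 * D' ^ (2 * q) ≤ Real.exp 2 * Real.exp ((2 * q : ℕ) * ((s + 1) * A)) :=
          mul_le_mul h2 h3 (by positivity) (by positivity)
      _ = Real.exp (2 + (2 * q : ℕ) * ((s + 1) * A)) := (Real.exp_add _ _).symm
      _ ≤ Real.exp (C * t * A - A + -G) := by
          refine Real.exp_le_exp.2 ?_
          push_cast
          have e1 : (2 : ℝ) ≤ 2 * (t * A) := by nlinarith
          have e2 : (2 * (q : ℝ)) * ((s + 1) * A) ≤ (6 * (s + 2) + 2) * (s + 1) * (t * A) := by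
            have e3 : 2 * (q : ℝ) ≤ (6 * (s + 2) + 2) * t := by nlinarith
            calc (2 * (q : ℝ)) * ((s + 1) * A) ≤ ((6 * (s + 2) + 2) * t) * ((s + 1) * A) :=
                  mul_le_mul_of_nonneg_right e3 (by positivity)
              _ = (6 * (s + 2) + 2) * (s + 1) * (t * A) := by ring
          have e4 : G ≤ (s + 2) * (t * A) := by
            refine gu1.trans ?_
            have : t ≤ t * A := by nlinarith
            exact mul_le_mul_of_nonneg_left this (by positivity)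
          have e5 : A ≤ t * A := by nlinarith
          have e6 : C * t * A = (t * A) + 2 * (t * A) +
              (6 * (s + 2) + 2) * (s + 1) * (t * A) + (s + 2) * (t * A) := by
            rw [hCdef]
            ring
          linarith
      _ = Real.exp (C * t * A - A) * Real.exp (-G) := Real.exp_add _ _
      _ ≤ (X / V) * Real.exp (-G) := mul_le_mul_of_nonneg_right hXV (Real.exp_pos _).le
  have hXV1 : 1 ≤ (X : ℝ) / V := by
    refine le_trans ?_ hXV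
    refine Real.one_le_exp ?_
    have e5 : A ≤ t * A := by nlinarith
    have e6 : C * t * A = (t * A) + (2 + (6 * (s + 2) + 2) * (s + 1) + (s + 2)) * (t * A) := by
      rw [hCdef]
      ring
    have e7 : 0 ≤ (2 + (6 * ((s : ℝ) + 2) + 2) * (s + 1) + (s + 2)) * (t * A) := by positivity
    linarith
  have hG0 : 0 ≤ G := by
    rw [hG]
    exact Finset.sum_nonneg fun u _ => by positivity
  have h8 : Real.exp (8 * G) / 8 ^ (2 * q + 1) ≤ Real.exp (-G) := by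
    rw [div_le_iff₀ (by positivity)]
    have e1 : Real.exp 2 ≤ 8 := by
      have e2 := Real.exp_one_lt_d9
      have e3 : Real.exp 2 = Real.exp 1 * Real.exp 1 := by
        rw [← Real.exp_add]
        norm_num
      have e4 := Real.exp_pos 1
      rw [e3]
      nlinarith
    have e5 : Real.exp (9 * G) ≤ 8 ^ (2 * q + 1) := by
      calc Real.exp (9 * G) ≤ Real.exp ((2 * q + 1 : ℕ) * 2) := by
            refine Real.exp_le_exp.2 ?_
            push_cast
            nlinarith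
        _ = Real.exp 2 ^ (2 * q + 1) := Real.exp_nat_mul _ _
        _ ≤ 8 ^ (2 * q + 1) := pow_le_pow_left₀ (Real.exp_pos _).le e1 _
    calc Real.exp (8 * G) = Real.exp (-G) * Real.exp (9 * G) := by
          rw [← Real.exp_add]
          congr 1
          ring
      _ ≤ Real.exp (-G) * 8 ^ (2 * q + 1) := mul_le_mul_of_nonneg_left e5 (Real.exp_pos _).le
  have hfin : ((X : ℝ) / V + 1) * (Real.exp (-G) + Real.exp (8 * G) / 8 ^ (2 * q + 1)) +
      3 * D' ^ (2 * q) ≤ 5 * (X / V) * Real.exp (-G) := by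
    calc ((X : ℝ) / V + 1) * (Real.exp (-G) + Real.exp (8 * G) / 8 ^ (2 * q + 1)) +
          3 * D' ^ (2 * q) ≤
          ((X : ℝ) / V + X / V) * (Real.exp (-G) + Real.exp (-G)) + (X / V) * Real.exp (-G) := by
          refine add_le_add ?_ hmain
          refine mul_le_mul (by linarith) (by linarith) (by positivity) (by positivity)
      _ = 5 * (X / V) * Real.exp (-G) := by ring
  refine hfin.trans ?_
  refine mul_le_mul_of_nonneg_left (Real.exp_le_exp.2 (by linarith)) (by positivity)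

private theorem QT5_fin (a b c d : ℝ) (hd : 0 < d) (hb : 0 ≤ b) : ∃ x0 : ℕ, ∀ x : ℕ, x0 ≤ x →
    Real.exp a * (5 + b * (LL x + c)) ≤ Real.exp (d * LL x) := by
  have h1 : Filter.Tendsto (fun t : ℝ => Real.exp (d * t) / (1 * t + (|c| + 1))) Filter.atTop
      Filter.atTop := by
    have h2 : Filter.Tendsto (fun t : ℝ => Real.exp (d * t) / t ^ 2) Filter.atTop Filter.atTop := by
      have h3 := (Real.tendsto_exp_div_pow_atTop 2).comp
        (Filter.tendsto_id.const_mul_atTop hd : Filter.Tendsto (fun t : ℝ => d * t) _ _)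
      have h4 := h3.const_mul_atTop (r := d ^ 2) (by positivity)
      refine h4.congr' ?_
      filter_upwards [Filter.eventually_gt_atTop (0 : ℝ)] with t ht
      show d ^ 2 * (Real.exp (d * t) / (d * t) ^ 2) = _
      field_simp
    refine Filter.tendsto_atTop_mono' _ ?_ h2
    filter_upwards [Filter.eventually_ge_atTop (|c| + 3)] with t ht
    have hc := abs_nonneg c
    apply div_le_div_of_nonneg_left (Real.exp_pos _).le (by linarith)
    nlinarith
  obtain ⟨x1, hx1⟩ := Filter.eventually_atTop.mp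
    (LL_tend.eventually (h1.eventually_ge_atTop (Real.exp a * (5 + b))))
  obtain ⟨x2, hx2⟩ := Filter.eventually_atTop.mp (LL_tend.eventually_ge_atTop (1 : ℝ))
  refine ⟨max x1 x2, fun x hx => ?_⟩
  rw [max_le_iff] at hx
  have g1 := hx1 x hx.1
  have g2 := hx2 x hx.2
  have hc := abs_nonneg c
  have hc2 := le_abs_self c
  rw [le_div_iff₀ (by linarith)] at g1
  refine le_trans ?_ g1
  rw [mul_assoc]
  refine mul_le_mul_of_nonneg_left ?_ (Real.exp_pos _).le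
  nlinarith

theorem cof_sieve (s D : ℕ) (hs : 2 ≤ s) : ∃ x0 : ℕ, ∀ x : ℕ, x0 ≤ x → ∀ m : ℕ,
    GoodCof s D x m → ∀ X : ℕ, Real.exp (Real.log x / 2) ≤ X → X ≤ x →
    cnt X (fun n => (∀ u : ℕ, u.Prime → (u : ℝ) ≤ Real.exp (Real.log x ^ (th2 s)) → ¬ u ∣ n) ∧
      ¬ PairT s D x m (m * n)) ≤
      X * Real.exp (-((1 + 1 / (6 * ((MM s).totient : ℝ))) * LL x)) := by
  obtain ⟨C, x1, hC0, hx1⟩ := QT5_gen s D hs
  obtain ⟨x2, hx2⟩ := QT5_W s D
  obtain ⟨CM, hCM0, x3, hx3⟩ := QT5_mert s (by omega)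
  have hφ1 := QT5_phi s (by omega)
  obtain ⟨φ, hφ⟩ : ∃ φ : ℝ, φ = ((MM s).totient : ℝ) := ⟨_, rfl⟩
  rw [← hφ] at hφ1
  have hs1 : (1 : ℝ) ≤ (s : ℝ) - 1 := by
    have : (2 : ℝ) ≤ s := by exact_mod_cast hs
    linarith
  obtain ⟨x4, hx4⟩ := QT5_fin C (5 * s) CM (7 / (120 * φ)) (by positivity) (by positivity)
  obtain ⟨x5, hx5⟩ := Filter.eventually_atTop.mp (LL_tend.eventually_ge_atTop (1 : ℝ))
  refine ⟨max (max x1 x2) (max x3 (max x4 x5)), fun x hx m hm X hX hXx => ?_⟩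
  simp only [max_le_iff] at hx
  have hgen := hx1 x hx.1.1 m hm X hX
  have hW := hx2 x hx.1.2 m
  obtain ⟨-, hM2⟩ := hx3 x hx.2.1
  have hfin := hx4 x hx.2.2.1
  have ht1 := hx5 x hx.2.2.2
  rw [← hφ] at hgen ⊢
  obtain ⟨W, hWdef⟩ : ∃ W : Finset ℕ, W = WM s D x m := ⟨_, rfl⟩
  rw [← hWdef] at hgen hW
  obtain ⟨t, ht⟩ : ∃ t : ℝ, t = LL x := ⟨_, rfl⟩
  rw [← ht] at hgen hM2 hfin ht1 ⊢
  have hWp : ∀ w ∈ W, w.Prime := fun w hw => ((QT5_memPP s x w).1 (hW w hw).1).1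
  -- the two sieves
  have hI := hgen s (fun u n => u ∣ n ^ s + 1) le_rfl (fun u n => QT5_P1 s u n)
    (fun w hw => by
      refine (QT5_fc _ _ _ fun n _ => Iff.rfl).trans
        ((QT5_c1 s w m (by omega) (hWp w hw) (hW w hw).2.2.2).trans ?_)
      rw [(rho_w s w (by omega) (hWp w hw) (hW w hw).2.1 (hW w hw).2.2.1).1]) 1 (Or.inl rfl) 0
  have hII := hgen (s - 1) (fun u n => u ∣ ∑ i ∈ range s, n ^ i) (by omega)
    (fun u n => QT5_P2 s u n)
    (fun w hw => by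
      refine (QT5_fc _ _ _ fun n _ => Iff.rfl).trans
        ((QT5_c2 s w m (by omega) (hWp w hw) (hW w hw).2.2.2).trans ?_)
      rw [(rho_w s w (by omega) (hWp w hw) (hW w hw).2.1 (hW w hw).2.2.1).2])
  rw [Nat.cast_one, div_one] at hI
  rw [Nat.cast_sub (by omega), Nat.cast_one] at hII
  obtain ⟨G, hG⟩ : ∃ G : ℝ, G = (th2 s + ((s : ℝ) - 1) / (4 * φ)) * t - C := ⟨_, rfl⟩
  rw [← hG] at hII
  have hI' : cnt X (fun n => n % 1 = 0 ∧ ∀ u ∈ (QT5_PP s x).filter (fun u => ¬ u ∣ 1),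
      ¬ (u ∣ n ∨ (u ∈ W ∧ u ∣ (m * n) ^ s + 1))) ≤ 5 * X * Real.exp (-G) := by
    refine hI.trans (mul_le_mul_of_nonneg_left (Real.exp_le_exp.2 ?_) (by positivity))
    rw [hG]
    have h1 : ((s : ℝ) - 1) / (4 * φ) ≤ s / (4 * φ) :=
      div_le_div_of_nonneg_right (by linarith) (by positivity)
    nlinarith
  -- the classes mod v
  have hcls : ∀ v ∈ W, ∃ Cls : Finset ℕ, (∀ ρ, ρ ∈ Cls ↔ ρ < v ∧ v ∣ (m * ρ) ^ s + 1) ∧
      (Cls.card : ℝ) ≤ s := by
    intro v hv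
    refine ⟨(range v).filter (fun ρ => v ∣ (m * ρ) ^ s + 1), fun ρ => by
      rw [mem_filter, mem_range], ?_⟩
    have h1 := cls_V s m (by omega) {v} (fun u hu => by
      rw [mem_singleton] at hu
      rw [hu]
      exact ⟨hWp v hv, (hW v hv).2.2.2⟩)
    rw [card_singleton, pow_one, prod_singleton] at h1
    have h2 : ((range v).filter (fun ρ => v ∣ (m * ρ) ^ s + 1)).card ≤ s := by
      refine le_trans (le_of_eq (QT5_fc _ _ _ fun ρ _ => ?_)) h1
      constructor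
      · intro h u hu
        rw [mem_singleton] at hu
        rw [hu]
        exact h
      · intro h
        exact h v (mem_singleton_self v)
    exact_mod_cast h2
  have hv : ∀ v ∈ W, cnt X (fun n => v ∣ (m * n) ^ s + 1 ∧
      ∀ u ∈ (QT5_PP s x).filter (fun u => ¬ u ∣ v),
      ¬ (u ∣ n ∨ (u ∈ W ∧ u ∣ ∑ i ∈ range s, (m * n) ^ i))) ≤
      s * (5 * (X / v) * Real.exp (-G)) := by
    intro v hv
    obtain ⟨Cls, hCls, hCc⟩ := hcls v hv
    have hv0 := (hWp v hv).pos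
    calc cnt X (fun n => v ∣ (m * n) ^ s + 1 ∧
          ∀ u ∈ (QT5_PP s x).filter (fun u => ¬ u ∣ v),
          ¬ (u ∣ n ∨ (u ∈ W ∧ u ∣ ∑ i ∈ range s, (m * n) ^ i))) ≤
          cnt X (fun n => ∃ ρ ∈ Cls, n % v = ρ ∧
            ∀ u ∈ (QT5_PP s x).filter (fun u => ¬ u ∣ v),
            ¬ (u ∣ n ∨ (u ∈ W ∧ u ∣ ∑ i ∈ range s, (m * n) ^ i))) := by
          refine EO.cnt_mono fun n _ hn => ⟨n % v, ?_, rfl, hn.2⟩
          rw [hCls]
          refine ⟨Nat.mod_lt _ hv0, ?_⟩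
          have h2 : (m * (n % v)) ^ s + 1 ≡ (m * n) ^ s + 1 [MOD v] :=
            (((Nat.mod_modEq n v).mul_left m).pow s).add_right 1
          exact (h2.dvd_iff dvd_rfl).2 hn.1
      _ ≤ ∑ ρ ∈ Cls, cnt X (fun n => n % v = ρ ∧
            ∀ u ∈ (QT5_PP s x).filter (fun u => ¬ u ∣ v),
            ¬ (u ∣ n ∨ (u ∈ W ∧ u ∣ ∑ i ∈ range s, (m * n) ^ i))) := EO.cnt_exists X Cls _
      _ ≤ ∑ _ρ ∈ Cls, 5 * (X / v) * Real.exp (-G) :=
          sum_le_sum fun ρ _ => hII v (Or.inr hv) ρ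
      _ = Cls.card * (5 * (X / v) * Real.exp (-G)) := by rw [sum_const, nsmul_eq_mul]
      _ ≤ s * (5 * (X / v) * Real.exp (-G)) :=
          mul_le_mul_of_nonneg_right hCc (by positivity)
  -- the cover
  have hcov : cnt X (fun n =>
      (∀ u : ℕ, u.Prime → (u : ℝ) ≤ Real.exp (Real.log x ^ (th2 s)) → ¬ u ∣ n) ∧
      ¬ PairT s D x m (m * n)) ≤
      cnt X (fun n => (n % 1 = 0 ∧ ∀ u ∈ (QT5_PP s x).filter (fun u => ¬ u ∣ 1),
        ¬ (u ∣ n ∨ (u ∈ W ∧ u ∣ (m * n) ^ s + 1))) ∨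
        ∃ v ∈ W, v ∣ (m * n) ^ s + 1 ∧ ∀ u ∈ (QT5_PP s x).filter (fun u => ¬ u ∣ v),
          ¬ (u ∣ n ∨ (u ∈ W ∧ u ∣ ∑ i ∈ range s, (m * n) ^ i))) := by
    refine EO.cnt_mono fun n _ hn => ?_
    obtain ⟨n1, n2⟩ := hn
    by_cases h : ∃ v ∈ W, v ∣ (m * n) ^ s + 1
    · obtain ⟨v, hvW, hvd⟩ := h
      refine Or.inr ⟨v, hvW, hvd, fun u hu hcon => ?_⟩
      rw [mem_filter, QT5_memPP] at hu
      rcases hcon with h1 | ⟨h1, h2⟩
      · exact n1 u hu.1.1 hu.1.2 h1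
      · apply n2
        rw [hWdef] at hvW h1
        refine ⟨v, hvW, u, h1, ?_, hvd, h2⟩
        intro hvu
        apply hu.2
        rw [hvu]
    · refine Or.inl ⟨Nat.mod_one n, fun u hu hcon => ?_⟩
      rw [mem_filter, QT5_memPP] at hu
      rcases hcon with h1 | ⟨h1, h2⟩
      · exact n1 u hu.1.1 hu.1.2 h1
      · exact h ⟨u, h1, h2⟩
  have hWsum : ∑ v ∈ W, 1 / (v : ℝ) ≤ t + CM := by
    refine le_trans (sum_le_sum_of_subset_of_nonneg (fun v hv => (hW v hv).1)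
      fun u _ _ => by positivity) hM2
  have htot : cnt X (fun n =>
      (∀ u : ℕ, u.Prime → (u : ℝ) ≤ Real.exp (Real.log x ^ (th2 s)) → ¬ u ∣ n) ∧
      ¬ PairT s D x m (m * n)) ≤ (5 + 5 * s * (t + CM)) * X * Real.exp (-G) := by
    refine hcov.trans ((EO.cnt_or X _ _).trans ?_)
    have h1 : cnt X (fun n => ∃ v ∈ W, v ∣ (m * n) ^ s + 1 ∧
        ∀ u ∈ (QT5_PP s x).filter (fun u => ¬ u ∣ v),
          ¬ (u ∣ n ∨ (u ∈ W ∧ u ∣ ∑ i ∈ range s, (m * n) ^ i))) ≤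
        5 * s * (t + CM) * X * Real.exp (-G) := by
      refine (EO.cnt_exists X W _).trans ?_
      calc ∑ v ∈ W, cnt X (fun n => v ∣ (m * n) ^ s + 1 ∧
            ∀ u ∈ (QT5_PP s x).filter (fun u => ¬ u ∣ v),
            ¬ (u ∣ n ∨ (u ∈ W ∧ u ∣ ∑ i ∈ range s, (m * n) ^ i))) ≤
            ∑ v ∈ W, s * (5 * (X / v) * Real.exp (-G)) := sum_le_sum hv
        _ = (5 * s * X * Real.exp (-G)) * ∑ v ∈ W, 1 / (v : ℝ) := by
            rw [mul_sum]
            refine sum_congr rfl fun v _ => ?_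
            ring
        _ ≤ (5 * s * X * Real.exp (-G)) * (t + CM) :=
            mul_le_mul_of_nonneg_left hWsum (by positivity)
        _ = 5 * s * (t + CM) * X * Real.exp (-G) := by ring
    linarith
  refine htot.trans ?_
  have hGe : Real.exp C * Real.exp (-((th2 s + ((s : ℝ) - 1) / (4 * φ)) * t)) = Real.exp (-G) := by
    rw [← Real.exp_add, hG]
    congr 1
    ring
  have hexp : (7 / (120 * φ)) * t - (th2 s + ((s : ℝ) - 1) / (4 * φ)) * t ≤
      -((1 + 1 / (6 * φ)) * t) := by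
    have h1 : 1 / (4 * φ) ≤ ((s : ℝ) - 1) / (4 * φ) :=
      div_le_div_of_nonneg_right hs1 (by positivity)
    have h2 : th2 s = 1 - 1 / (40 * φ) := by
      unfold th2
      rw [← hφ]
    have h3 : 7 / (120 * φ) - (1 - 1 / (40 * φ) + 1 / (4 * φ)) = -(1 + 1 / (6 * φ)) := by
      field_simp
      ring
    have h4 : 7 / (120 * φ) - (th2 s + ((s : ℝ) - 1) / (4 * φ)) ≤ -(1 + 1 / (6 * φ)) := by
      rw [h2]
      linarith
    nlinarith
  calc (5 + 5 * s * (t + CM)) * X * Real.exp (-G) =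
        X * ((Real.exp C * (5 + 5 * s * (t + CM))) *
          Real.exp (-((th2 s + ((s : ℝ) - 1) / (4 * φ)) * t))) := by
        rw [← hGe]
        ring
    _ ≤ X * (Real.exp (7 / (120 * φ) * t) *
          Real.exp (-((th2 s + ((s : ℝ) - 1) / (4 * φ)) * t))) := by
        refine mul_le_mul_of_nonneg_left ?_ (Nat.cast_nonneg _)
        exact mul_le_mul_of_nonneg_right hfin (Real.exp_pos _).le
    _ = X * Real.exp (7 / (120 * φ) * t - (th2 s + ((s : ℝ) - 1) / (4 * φ)) * t) := by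
        rw [← Real.exp_add]
        rfl
    _ ≤ X * Real.exp (-((1 + 1 / (6 * φ)) * t)) :=
        mul_le_mul_of_nonneg_left (Real.exp_le_exp.2 hexp) (Nat.cast_nonneg _)

end Pool.Agent.Lib.MP_79499b_co.QZ
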