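import Pool.Agent.Lib.MP_79499b_co.DZ.LR
import Pool.Agent.Lib.MP_79499b_co.DZ.LC
import Pool.Agent.Lib.MP_79499b_co.QZ.QDefC

/-!
# QV1: Brun's sieve in a residue class; the number of classes

`brun_cls`: `U` a finite set of primes not dividing `V > 0`, `E u` a condition on `n mod u`, `G = ∑_{u ∈ U} e(u)/u`, `e(u)` the number of classes `n mod u`
with `E u n`, `∑ e(u) ≤ D'`. The number of `n < X`, `n ≡ ρ mod V` without `E u n` for all `u ∈ U` is at most
`(X/V + 1)(e^(-G) + e^(8G)/8^(r+1)) + 3 D'^r`, `r` even.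
Proof (as `brun_cnt`, `cnt_class` in DZ/LR.lean). Write `n = ρ' + V t`, `ρ' = n % V`, `t < X/V + 1`; `Q38.brun` with `M = 1`, `q u = u`,
`P u t ↔ E u (ρ' + V t)`; as `V` is a unit modulo `u`, `t ↦ ρ' + V t` permutes the classes, so the number of classes is `e(u)`.

`cls_V`: `T` a finite set of primes not dividing `m`, `s ≥ 1`: the number of `ρ < ∏_{v ∈ T} v` with `v ∣ (m ρ)^s + 1` for all `v ∈ T` is at most `s^|T|`.
Proof: induction on `T` (Chinese remainder: `ρ ↦ (ρ % v, ρ % ∏_{T'})` is injective), and for one prime `v` the congruence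
`(m t)^s = -1` has at most `s` solutions `t` in the field `ZMod v` (`m` is a unit; nonzero polynomial of degree `s`).
-/

set_option autoImplicit false

namespace Pool.Agent.Lib.MP_79499b_co.QZ

open Finset DZ
open scoped Classical

private theorem qv1_mem {α : Type*} {p : α → Prop} {inst : DecidablePred p} {S : Finset α} {a : α} :
    a ∈ @Finset.filter α p inst S ↔ a ∈ S ∧ p a := @Finset.mem_filter α p inst S a

private theorem qv1_perm {V u ρ : ℕ} (hu : u.Prime) (hcop : V.Coprime u) (E : ℕ → Prop)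
    (hE : ∀ n : ℕ, E (n % u) ↔ E n) :
    ((range u).filter (fun t => E (ρ + V * t))).card = ((range u).filter E).card := by
  have hinj : Set.InjOn (fun t : ℕ => (ρ + V * t) % u) (range u : Finset ℕ) := by
    intro a ha b hb hab
    rw [coe_range, Set.mem_Iio] at ha hb
    have h1 : (ρ + V * a) ≡ (ρ + V * b) [MOD u] := hab
    have h2 : V * a ≡ V * b [MOD u] := Nat.ModEq.add_left_cancel' ρ h1
    have h3 : a ≡ b [MOD u] := Nat.ModEq.cancel_left_of_coprime (by rwa [Nat.gcd_comm]) h2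
    exact Nat.ModEq.eq_of_lt_of_lt h3 ha hb
  have himg : (range u).image (fun t : ℕ => (ρ + V * t) % u) = range u := by
    refine Finset.eq_of_subset_of_card_le ?_ ?_
    · intro y hy
      rw [mem_image] at hy
      obtain ⟨t, _, rfl⟩ := hy
      rw [mem_range]
      exact Nat.mod_lt _ hu.pos
    · rw [card_image_of_injOn hinj]
  have h1 : (range u).filter E =
      ((range u).filter (fun t => E (ρ + V * t))).image (fun t : ℕ => (ρ + V * t) % u) := by
    nth_rewrite 1 [← himg]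
    rw [filter_image]
    congr 1
    refine filter_congr fun t _ => ?_
    exact hE _
  rw [h1, card_image_of_injOn]
  exact hinj.mono (by
    rw [coe_subset]
    exact filter_subset _ _)

theorem brun_cls {V : ℕ} (hV : 0 < V) (U : Finset ℕ) (hU : ∀ u ∈ U, u.Prime)
    (hcop : ∀ u ∈ U, V.Coprime u) (E : ℕ → ℕ → Prop)
    (hE : ∀ u ∈ U, ∀ n : ℕ, E u (n % u) ↔ E u n) {r : ℕ} (hr : Even r) (X ρ : ℕ) {G D' : ℝ}
    (hG : ∑ u ∈ U, (((range u).filter (E u)).card : ℝ) / u = G) (hD1 : 1 ≤ D')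
    (hD : ∑ u ∈ U, (((range u).filter (E u)).card : ℝ) ≤ D') :
    cnt X (fun n => n % V = ρ ∧ ∀ u ∈ U, ¬ E u n) ≤
      ((X : ℝ) / V + 1) * (Real.exp (-G) + Real.exp (8 * G) / 8 ^ (r + 1)) + 3 * D' ^ r := by
  have hc1 : ∀ u ∈ U, ((range u).filter (fun t => E u (ρ + V * t))).card =
      ((range u).filter (E u)).card := fun u hu => qv1_perm (hU u hu) (hcop u hu) (E u) (hE u hu)
  have hb := Q38.brun (M := 1) one_pos (P := fun u t => E u (ρ + V * t)) (q := fun u => u) U
    (fun u hu => (hU u hu).pos) (fun u _ => by simp)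
    (fun u hu v hv huv => (Nat.coprime_primes (hU u hu) (hU v hv)).2 huv)
    (fun u hu n => by
      have h1 : (ρ + V * (n % u)) % u = (ρ + V * n) % u :=
        (Nat.ModEq.refl ρ).add ((Nat.ModEq.refl V).mul (Nat.mod_modEq n u))
      show E u (ρ + V * (n % u)) ↔ E u (ρ + V * n)
      rw [← hE u hu (ρ + V * (n % u)), h1, hE u hu]) hr (X / V + 1) (G := G) (D := D')
    (by
      rw [← hG]
      refine sum_congr rfl fun u hu => ?_
      rw [hc1 u hu]) hD1
    (by
      refine le_trans (le_of_eq ?_) hD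
      refine sum_congr rfl fun u hu => ?_
      rw [hc1 u hu])
  rw [Nat.cast_one, div_one] at hb
  have h1 : cnt X (fun n => n % V = ρ ∧ ∀ u ∈ U, ¬ E u n) ≤
      cnt (X / V + 1) (fun t => 1 ∣ t ∧ ∀ u ∈ U, ¬ E u (ρ + V * t)) := by
    refine cnt_inj (fun n => n / V) ?_ ?_
    · intro n hn hn'
      refine ⟨Nat.lt_succ_of_le (Nat.div_le_div_right hn.le), one_dvd _, ?_⟩
      intro u hu
      have h2 : ρ + V * (n / V) = n := by
        rw [← hn'.1]
        exact Nat.mod_add_div n V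
      rw [h2]
      exact hn'.2 u hu
    · intro a b _ _ ha hb hab
      rw [← Nat.mod_add_div a V, ← Nat.mod_add_div b V, ha.1, hb.1, hab]
  refine h1.trans ?_
  have h2 : cnt (X / V + 1) (fun t => 1 ∣ t ∧ ∀ u ∈ U, ¬ E u (ρ + V * t)) ≤
      ((X / V + 1 : ℕ) : ℝ) * (Real.exp (-G) + Real.exp (8 * G) / 8 ^ (r + 1)) + 3 * D' ^ r := by
    refine le_trans (le_of_eq ?_) hb
    unfold EO.cnt
    congr 2
    ext n
    rw [qv1_mem, qv1_mem]
  refine h2.trans (add_le_add_left (mul_le_mul_of_nonneg_right ?_ (by positivity)) _)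
  push_cast
  have := @Nat.cast_div_le ℝ _ _ _ X V
  linarith

private theorem qv1_one (s m v : ℕ) (hs : 1 ≤ s) (hv : v.Prime) (hm : ¬ v ∣ m) :
    ((range v).filter (fun ρ => v ∣ (m * ρ) ^ s + 1)).card ≤ s := by
  have : Fact v.Prime := ⟨hv⟩
  have hm0 : (m : ZMod v) ≠ 0 := by
    rw [Ne, ZMod.natCast_eq_zero_iff]
    exact hm
  have h1 : ((range v).filter (fun ρ => v ∣ (m * ρ) ^ s + 1)).card ≤
      (Polynomial.nthRoots s (-1 : ZMod v)).toFinset.card := by
    refine card_le_card_of_injOn (fun n : ℕ => (m : ZMod v) * (n : ZMod v)) ?_ ?_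
    · intro n hn
      have hn' := qv1_mem.1 (mem_coe.1 hn)
      rw [mem_coe, Multiset.mem_toFinset, Polynomial.mem_nthRoots (by omega)]
      have h2 := (ZMod.natCast_eq_zero_iff _ _).2 hn'.2
      push_cast at h2
      exact eq_neg_of_add_eq_zero_left h2
    · intro a ha b hb hab
      have ha' := qv1_mem.1 (mem_coe.1 ha)
      have hb' := qv1_mem.1 (mem_coe.1 hb)
      rw [mem_range] at ha' hb'
      have h2 : (a : ZMod v) = (b : ZMod v) := mul_left_cancel₀ hm0 hab
      have h3 := congrArg ZMod.val h2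
      rwa [ZMod.val_natCast_of_lt ha'.1, ZMod.val_natCast_of_lt hb'.1] at h3
  exact h1.trans ((Multiset.toFinset_card_le _).trans (Polynomial.card_nthRoots s _))

theorem cls_V (s m : ℕ) (hs : 1 ≤ s) (T : Finset ℕ) (hT : ∀ v ∈ T, v.Prime ∧ ¬ v ∣ m) :
    ((range (∏ v ∈ T, v)).filter (fun ρ => ∀ v ∈ T, v ∣ (m * ρ) ^ s + 1)).card ≤ s ^ T.card := by
  induction T using Finset.induction_on with
  | empty =>
    rw [prod_empty, card_empty, pow_zero]
    exact (card_filter_le _ _).trans (by rw [card_range])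
  | insert a T ha ih =>
    have hap := (hT a (mem_insert_self _ _))
    have hT' : ∀ v ∈ T, v.Prime ∧ ¬ v ∣ m := fun v hv => hT v (mem_insert_of_mem hv)
    have ih' := ih hT'
    rw [prod_insert ha, card_insert_of_notMem ha, pow_succ, mul_comm (s ^ T.card)]
    obtain ⟨P, hP⟩ : ∃ P : ℕ, P = ∏ v ∈ T, v := ⟨_, rfl⟩
    rw [← hP] at ih' ⊢
    have hP0 : 0 < P := by
      rw [hP]
      exact prod_pos fun v hv => (hT' v hv).1.pos
    have hcopP : a.Coprime P := by
      rw [hP]
      refine Nat.Coprime.prod_right fun v hv => ?_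
      rw [Nat.coprime_primes hap.1 (hT' v hv).1]
      rintro rfl
      exact ha hv
    refine le_trans ?_ (Nat.mul_le_mul (qv1_one s m a hs hap.1 hap.2) ih')
    rw [← card_product]
    refine card_le_card_of_injOn (fun n : ℕ => (n % a, n % P)) ?_ ?_
    · intro n hn
      have hn' := qv1_mem.1 (mem_coe.1 hn)
      have hmod : ∀ v M : ℕ, v ∣ M → v ∣ (m * n) ^ s + 1 → v ∣ (m * (n % M)) ^ s + 1 := by
        intro v M hvM h
        have h1 : (m * (n % M)) ^ s + 1 ≡ (m * n) ^ s + 1 [MOD v] :=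
          ((((Nat.ModEq.refl m).mul (Nat.mod_modEq n M)).pow s).add_right 1).of_dvd hvM
        exact (h1.dvd_iff dvd_rfl).2 h
      rw [mem_coe, mem_product, qv1_mem, qv1_mem, mem_range, mem_range]
      refine ⟨⟨Nat.mod_lt _ hap.1.pos, ?_⟩, Nat.mod_lt _ hP0, ?_⟩
      · exact hmod a a dvd_rfl (hn'.2 a (mem_insert_self _ _))
      · intro v hv
        refine hmod v P ?_ (hn'.2 v (mem_insert_of_mem hv))
        rw [hP]
        exact dvd_prod_of_mem _ hv
    · intro x hx y hy hxy
      have hx' := qv1_mem.1 (mem_coe.1 hx)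
      have hy' := qv1_mem.1 (mem_coe.1 hy)
      rw [mem_range] at hx' hy'
      simp only [Prod.mk.injEq] at hxy
      have h1 : x ≡ y [MOD a * P] := (Nat.modEq_and_modEq_iff_modEq_mul hcopP).1 hxy
      exact Nat.ModEq.eq_of_lt_of_lt h1 hx'.1 hy'.1

end Pool.Agent.Lib.MP_79499b_co.QZ
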