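import Pool.Agent.Lib.MP_79499b_co.QZ.QDefV
import Pool.Agent.Lib.MP_79499b_co.QZ.QS7
import Pool.Agent.Lib.MP_79499b_co.Q38Primes

/-!
# QV2: the sieve dimension

`e(u) = #{n < u : EE u n}`. Let `m` be normal, `f` an assignment. The cells are disjoint, so a prime `u` is in `US c m` for at most one `c`.
`usable_ndvd`: `w ∈ US c m` does not divide `m`: otherwise `m = 0 = 0^l` in `ZMod w` for any prime `l ∣ ry x w`, and `ry x w > 1` since
`(cy x w)^2 ≤ (AC c)^κ`, `cy x w < w - 1`.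
`e_up`: `e(u) ≤ s + 1`: one class `n ≡ 0`, and if `u ∈ US c m`, at most `s` classes (`rho1_le`, `rho2_le` after multiplying by the unit `m`).
`EE_mod`: `EE u` depends on `n mod u` only.
`G_low`: for every `η > 0`, `x` large: `∑_{u ∈ UV} e(u)/u ≥ (sg κ K s - η) LL`.
Proof. For `u ∈ UV`: `e(u) ≥ 1`, and `e(u) = 1 + rho1 s u` if `u ∈ US c m`, `f c = none` (the roots of `(m n)^s = -1` are not `0`; `n ↦ m n` is a
bijection modulo `u`), `e(u) = 1 + rho2 s u` if `u ∈ US c m`, `f c = some v`, `u ≠ v`, `ry x v`, `ry x u` coprime. The `u ∈ US c m`, `c < K`, are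
`≤ exp(AC (c+1)) ≤ exp(AC K)`, and those in a cell with `f c = none` do not divide `VV` (the assigned primes are in other cells).
So the sum is at least `∑_{u ≤ zK} 1/u - ∑_{u ∣ VV} 1/u + ∑_{c : none} ∑_{US c m} rho1/u + ∑_{c : some v} ∑ rho2/u`. Mertens (lower bound for
`∑_{u ≤ z} 1/u`: `Q38.mertens_all` / `Q38.mertens_two`): the first sum is `≥ log (AC K) - C = LL/(1+8κ) - C`; the second is at most `K exp(-AC 0)`; by
`cell_low` (with `η/(2K+2)`) and `rr s ≤ τ(2s) - τ(s)`, `rr s ≤ τ(s) - 1` each cell contributes at least `rr s κ log(AC c) - η LL/(2K+2)`, and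
`∑_c κ log (AC c) = (1/(1+8κ))(1 - 1/(1+κ)^K) LL` (`AC_sum`).
`G_up`: `∑ e(u)/u ≤ (s+1) ∑_{u ≤ zK} 1/u ≤ (s + 2) LL` for large `x`, and `∑ e(u) ≤ (s+1) zK ≤ (s+1) exp(AC K)`.
-/

set_option autoImplicit false

namespace Pool.Agent.Lib.MP_79499b_co.QZ

open Finset DZ
open scoped Classical

private theorem QV2_inj (u k : ℕ) (hu : 0 < u) (hk : k.Coprime u) (P Q : ℕ → Prop)
    (h : ∀ t < u, Q t → P ((k * t) % u)) :
    ((range u).filter Q).card ≤ ((range u).filter P).card := by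
  refine card_le_card_of_injOn (fun t => (k * t) % u) ?_ ?_
  · intro t ht
    rw [mem_coe, mem_filter, mem_range] at ht
    rw [mem_coe, mem_filter, mem_range]
    exact ⟨Nat.mod_lt _ hu, h t ht.1 ht.2⟩
  · intro a ha b hb hab
    rw [mem_coe, mem_filter, mem_range] at ha hb
    have h1 : k * a ≡ k * b [MOD u] := hab
    have h2 : a ≡ b [MOD u] := Nat.ModEq.cancel_left_of_coprime hk.symm h1
    exact Nat.ModEq.eq_of_lt_of_lt h2 ha.1 hb.1

private theorem QV2_count (u m : ℕ) (hu : u.Prime) (hm : ¬ u ∣ m) (P : ℕ → Prop)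
    (hP : ∀ n, P (n % u) ↔ P n) (h0 : ¬ P 0) :
    ((range u).filter (fun n => u ∣ n ∨ P (m * n))).card = 1 + ((range u).filter P).card := by
  have hcop : m.Coprime u := ((Nat.Prime.coprime_iff_not_dvd hu).mpr hm).symm
  have h1 : (range u).filter (fun n => u ∣ n ∨ P (m * n)) =
      insert 0 ((range u).filter (fun n => P (m * n))) := by
    ext n
    rw [mem_filter, mem_insert, mem_filter, mem_range]
    constructor
    · rintro ⟨h1, h2 | h2⟩
      · exact Or.inl (Nat.eq_zero_of_dvd_of_lt h2 h1)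
      · exact Or.inr ⟨h1, h2⟩
    · rintro (h | h)
      · rw [h]
        exact ⟨hu.pos, Or.inl (dvd_zero u)⟩
      · exact ⟨h.1, Or.inr h.2⟩
  have h2 : 0 ∉ (range u).filter (fun n => P (m * n)) := by
    rw [mem_filter, mul_zero]
    exact fun h => h0 h.2
  rw [h1, card_insert_of_notMem h2, add_comm]
  congr 1
  obtain ⟨m', -, hm'⟩ := Nat.exists_mul_mod_eq_one_of_coprime hcop hu.one_lt
  have hmm : m * m' ≡ 1 [MOD u] := by
    rw [Nat.ModEq, hm', Nat.mod_eq_of_lt hu.one_lt]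
  apply le_antisymm
  · exact QV2_inj u m hu.pos hcop _ _ (fun t _ ht => (hP _).mpr ht)
  · refine QV2_inj u m' hu.pos ?_ _ _ (fun t ht hQ => ?_)
    · refine ((Nat.Prime.coprime_iff_not_dvd hu).mpr fun h => ?_).symm
      have h3 : m * m' ≡ 0 [MOD u] := (Nat.modEq_zero_iff_dvd.mpr (dvd_mul_of_dvd_right h m))
      have h4 : 1 ≡ 0 [MOD u] := hmm.symm.trans h3
      exact hu.one_lt.ne' (Nat.dvd_one.mp (Nat.modEq_zero_iff_dvd.mp h4))
    · have h3 : m * ((m' * t) % u) ≡ t [MOD u] := by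
        have h4 : m * ((m' * t) % u) ≡ m * (m' * t) [MOD u] :=
          (Nat.mod_modEq (m' * t) u).mul_left m
        have h5 : m * (m' * t) ≡ 1 * t [MOD u] := by
          rw [← mul_assoc]
          exact hmm.mul_right t
        rw [one_mul] at h5
        exact h4.trans h5
      have h6 : (m * ((m' * t) % u)) % u = t % u := h3
      show P (m * ((m' * t) % u))
      rw [← hP, h6, hP]
      exact hQ

private theorem QV2_P1 (s u n : ℕ) : u ∣ (n % u) ^ s + 1 ↔ u ∣ n ^ s + 1 :=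
  (((Nat.mod_modEq n u).pow s).add_right 1).dvd_iff dvd_rfl

private theorem QV2_P2 (s u n : ℕ) :
    u ∣ ∑ i ∈ range s, (n % u) ^ i ↔ u ∣ ∑ i ∈ range s, n ^ i := by
  rw [← ZMod.natCast_eq_zero_iff, ← ZMod.natCast_eq_zero_iff]
  push_cast
  simp only [ZMod.natCast_mod]

private theorem QV2_cell {κ : ℝ} {K D x c m w : ℕ} (h : w ∈ US κ K D x c m) :
    w ∈ GW κ K D x c ∧ w ∈ CW (AC κ K x c) κ ∧ Cell (AC κ K x c) κ w := by
  have h1 : w ∈ GW κ K D x c := (mem_filter.mp h).1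
  have h2 : w ∈ CW (AC κ K x c) κ := (mem_filter.mp h1).1
  exact ⟨h1, h2, (mem_filter.mp h2).2⟩

private theorem QV2_uniq (κ : ℝ) (hκ : 0 < κ) (K D x m : ℕ) (hx : 3 ≤ x) (c c' u : ℕ) (hc : c < K)
    (hc' : c' < K) (h : u ∈ US κ K D x c m) (h' : u ∈ US κ K D x c' m) : c = c' := by
  have key : ∀ c c' : ℕ, c < K → c < c' → u ∈ US κ K D x c m → u ∈ US κ K D x c' m → False := by
    intro c c' hc hcc h h'
    obtain ⟨-, -, h1⟩ := QV2_cell h
    obtain ⟨-, -, h2⟩ := QV2_cell h'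
    have h3 := h1.2.2
    have h4 := h2.2.1
    rw [← AC_succ κ hκ K x c hc hx] at h3
    have h5 := (AC_mono κ hκ K x hx (c + 1) c' hcc).2
    have h6 := Real.exp_le_exp.mpr h5
    linarith
  rcases lt_trichotomy c c' with h1 | h1 | h1
  · exact (key c c' hc h1 h h').elim
  · exact h1
  · exact (key c' c hc' h1 h' h).elim

private theorem QV2_AC (κ : ℝ) (hκ : 0 < κ) (K : ℕ) (T : ℝ) : ∃ x0 : ℕ, ∀ x : ℕ, x0 ≤ x →
    3 ≤ x ∧ T ≤ AC κ K x 0 ∧ T ≤ LL x := by
  obtain ⟨x1, h1⟩ := Filter.eventually_atTop.mp ((AC_tend κ hκ K 0).eventually_ge_atTop T)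
  obtain ⟨x2, h2⟩ := Filter.eventually_atTop.mp (LL_tend.eventually_ge_atTop T)
  refine ⟨max 3 (max x1 x2), fun x hx => ?_⟩
  simp only [max_le_iff] at hx
  exact ⟨hx.1, h1 x hx.2.1, h2 x hx.2.2⟩

theorem usable_ndvd (κ : ℝ) (hκ : 0 < κ) (hκ1 : κ ≤ 1 / 100) (K D : ℕ) : ∃ x0 : ℕ, ∀ x : ℕ,
    x0 ≤ x → ∀ c m w : ℕ, w ∈ US κ K D x c m → ¬ w ∣ m ∧ 1 < ry x w := by
  obtain ⟨x0, hx0⟩ := QV2_AC κ hκ K 2
  refine ⟨x0, fun x hx c m w hw => ?_⟩
  obtain ⟨h3x, hA2, -⟩ := hx0 x hx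
  obtain ⟨-, hAc⟩ := AC_mono κ hκ K x h3x 0 c (Nat.zero_le c)
  obtain ⟨hG, -, hcell⟩ := QV2_cell hw
  have hA : 2 ≤ AC κ K x c := hA2.trans hAc
  have hsmall : (cy x w : ℝ) ^ 2 ≤ AC κ K x c ^ κ := (mem_filter.mp hG).2.1
  have hw2 : 2 ≤ w := hcell.1.two_le
  have hmul := cy_mul x w hw2
  have hry : 1 < ry x w := by
    by_contra hcon
    rw [not_lt] at hcon
    have h1 : w - 1 ≤ cy x w := by
      rw [← hmul]
      calc cy x w * ry x w ≤ cy x w * 1 := Nat.mul_le_mul_left _ hcon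
        _ = cy x w := mul_one _
    have h2 : ((w - 1 : ℕ) : ℝ) ≤ cy x w := by exact_mod_cast h1
    rw [Nat.cast_sub (by omega), Nat.cast_one] at h2
    have h3 := Real.add_one_le_exp (AC κ K x c)
    have h4 := hcell.2.1
    have h5 : AC κ K x c ≤ cy x w := by linarith
    have h6 : AC κ K x c ^ κ ≤ AC κ K x c := by
      calc AC κ K x c ^ κ ≤ AC κ K x c ^ (1 : ℝ) :=
            Real.rpow_le_rpow_of_exponent_le (by linarith) (by linarith)
        _ = AC κ K x c := Real.rpow_one _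
    nlinarith
  refine ⟨fun hwm => ?_, hry⟩
  obtain ⟨l, hl, hlr⟩ := Nat.exists_prime_and_dvd hry.ne'
  have hNP := (mem_filter.mp hw).2.1
  refine hNP l hl hlr ⟨0, ?_⟩
  rw [(ZMod.natCast_eq_zero_iff m w).mpr hwm, zero_pow hl.ne_zero]

theorem EE_mod (κ : ℝ) (K D s x m : ℕ) (f : ℕ → Option ℕ) (u n : ℕ) :
    EE κ K D s x m f u (n % u) ↔ EE κ K D s x m f u n := by
  have h1 : u ∣ n % u ↔ u ∣ n := Nat.dvd_mod_iff dvd_rfl
  have hm : (m * (n % u)) % u = (m * n) % u := by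
    exact (Nat.mod_modEq n u).mul_left m
  have h2 : u ∣ (m * (n % u)) ^ s + 1 ↔ u ∣ (m * n) ^ s + 1 := by
    rw [← QV2_P1 s u (m * (n % u)), hm, QV2_P1]
  have h3 : u ∣ ∑ i ∈ range s, (m * (n % u)) ^ i ↔ u ∣ ∑ i ∈ range s, (m * n) ^ i := by
    rw [← QV2_P2 s u (m * (n % u)), hm, QV2_P2]
  unfold EE
  rw [h1, h2, h3]

private theorem QV2_c1 (s u m : ℕ) (hs : 1 ≤ s) (hu : u.Prime) (hm : ¬ u ∣ m) :
    ((range u).filter (fun n => u ∣ n ∨ u ∣ (m * n) ^ s + 1)).card = 1 + rho1 s u := by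
  have h := QV2_count u m hu hm (fun t => u ∣ t ^ s + 1) (fun n => QV2_P1 s u n) (by
    rw [zero_pow (by omega), zero_add]
    exact fun h => hu.one_lt.ne' (Nat.dvd_one.mp h))
  have h2 : rho1 s u = ((range u).filter (fun t => u ∣ t ^ s + 1)).card := by
    unfold rho1
    congr
  rw [h2]
  convert h

private theorem QV2_c2 (s u m : ℕ) (hs : 1 ≤ s) (hu : u.Prime) (hm : ¬ u ∣ m) :
    ((range u).filter (fun n => u ∣ n ∨ u ∣ ∑ i ∈ range s, (m * n) ^ i)).card =
      1 + rho2 s u := by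
  have h := QV2_count u m hu hm (fun t => u ∣ ∑ i ∈ range s, t ^ i) (fun n => QV2_P2 s u n) (by
    obtain ⟨k, rfl⟩ : ∃ k, s = k + 1 := ⟨s - 1, by omega⟩
    rw [sum_range_succ', pow_zero]
    have : ∑ i ∈ range k, (0 : ℕ) ^ (i + 1) = 0 := by
      refine sum_eq_zero fun i _ => ?_
      rw [zero_pow (by omega)]
    rw [this, zero_add]
    exact fun h => hu.one_lt.ne' (Nat.dvd_one.mp h))
  have h2 : rho2 s u = ((range u).filter (fun t => u ∣ ∑ i ∈ range s, t ^ i)).card := by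
    unfold rho2
    congr
  rw [h2]
  convert h

theorem e_up (κ : ℝ) (hκ : 0 < κ) (hκ1 : κ ≤ 1 / 100) (K D s : ℕ) (hs : 1 ≤ s) : ∃ x0 : ℕ,
    ∀ x : ℕ, x0 ≤ x → ∀ (m : ℕ) (f : ℕ → Option ℕ) (u : ℕ), u.Prime →
      ((range u).filter (EE κ K D s x m f u)).card ≤ s + 1 := by
  obtain ⟨x1, hx1⟩ := usable_ndvd κ hκ hκ1 K D
  refine ⟨max 3 x1, fun x hx m f u hu => ?_⟩
  rw [max_le_iff] at hx
  have h3 := hx.1
  by_cases h : ∃ c < K, u ∈ US κ K D x c m
  · obtain ⟨c, hc, huc⟩ := h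
    obtain ⟨hum, -⟩ := hx1 x hx.2 c m u huc
    cases hf : f c with
    | none =>
      have h4 : ((range u).filter (EE κ K D s x m f u)).card ≤
          ((range u).filter (fun n => u ∣ n ∨ u ∣ (m * n) ^ s + 1)).card := by
        refine card_le_card fun n hn => ?_
        rw [mem_filter] at hn ⊢
        refine ⟨hn.1, ?_⟩
        rcases hn.2 with h5 | ⟨c', hc', huc', h5⟩
        · exact Or.inl h5
        · have := QV2_uniq κ hκ K D x m h3 c c' u hc hc' huc huc'
          subst this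
          rcases h5 with h5 | ⟨v, hv, -⟩
          · exact Or.inr h5.2
          · rw [hf] at hv
            exact absurd hv (by simp)
      rw [QV2_c1 s u m hs hu hum] at h4
      have := rho1_le s u hs hu
      omega
    | some v =>
      have h4 : ((range u).filter (EE κ K D s x m f u)).card ≤
          ((range u).filter (fun n => u ∣ n ∨ u ∣ ∑ i ∈ range s, (m * n) ^ i)).card := by
        refine card_le_card fun n hn => ?_
        rw [mem_filter] at hn ⊢
        refine ⟨hn.1, ?_⟩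
        rcases hn.2 with h5 | ⟨c', hc', huc', h5⟩
        · exact Or.inl h5
        · have := QV2_uniq κ hκ K D x m h3 c c' u hc hc' huc huc'
          subst this
          rcases h5 with h5 | ⟨v, -, -, -, h6⟩
          · rw [hf] at h5
            exact absurd h5.1 (by simp)
          · exact Or.inr h6
      rw [QV2_c2 s u m hs hu hum] at h4
      have := rho2_le s u hs hu
      omega
  · have h4 : ((range u).filter (EE κ K D s x m f u)).card ≤ ({0} : Finset ℕ).card := by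
      refine card_le_card fun n hn => ?_
      rw [mem_filter, mem_range] at hn
      rw [mem_singleton]
      rcases hn.2 with h5 | ⟨c', hc', huc', h5⟩
      · exact Nat.eq_zero_of_dvd_of_lt h5 hn.1
      · exact absurd ⟨c', hc', huc'⟩ h
    rw [card_singleton] at h4
    omega

/-- the primes up to the sifting limit -/
private noncomputable def QV2_PP (κ : ℝ) (K x : ℕ) : Finset ℕ :=
  (Icc 1 (zK κ K x)).filter (fun u => u.Prime)

private theorem QV2_PP_eq (κ : ℝ) (K x : ℕ) :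
    ∑ u ∈ QV2_PP κ K x, 1 / (u : ℝ) = Q38.msum 1 0 (zK κ K x + 1) := by
  unfold Q38.msum QV2_PP
  have h : (Icc 1 (zK κ K x)).filter (fun u => u.Prime) =
      (range (zK κ K x + 1)).filter (fun p => p.Prime ∧ p % 1 = 0) := by
    ext u
    rw [mem_filter, mem_filter, mem_Icc, mem_range]
    constructor
    · rintro ⟨h1, h2⟩
      exact ⟨by omega, h2, Nat.mod_one u⟩
    · rintro ⟨h1, h2, -⟩
      exact ⟨⟨h2.one_lt.le, by omega⟩, h2⟩
  rw [h]
  refine sum_congr ?_ fun u _ => one_div _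
  congr

private theorem QV2_mert (κ : ℝ) (hκ : 0 < κ) (K : ℕ) : ∃ C : ℝ, 0 ≤ C ∧ ∃ x0 : ℕ, ∀ x : ℕ,
    x0 ≤ x → Real.log (AC κ K x K) - C ≤ ∑ u ∈ QV2_PP κ K x, 1 / (u : ℝ) ∧
      ∑ u ∈ QV2_PP κ K x, 1 / (u : ℝ) ≤ LL x + C := by
  obtain ⟨C1, hC1⟩ := Q38.mertens_all
  obtain ⟨C2, hC20, hC2⟩ := Q38.msum_one_le
  obtain ⟨x0, hx0⟩ := QV2_AC κ hκ K 2
  refine ⟨|C1| + C2 + 1, by positivity, x0, fun x hx => ?_⟩
  obtain ⟨h3x, hA2, hL2⟩ := hx0 x hx
  obtain ⟨hA1, hAK⟩ := AC_mono κ hκ K x h3x 0 K (Nat.zero_le K)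
  rw [QV2_PP_eq]
  set A := AC κ K x K with hA
  have hA2' : 2 ≤ A := hA2.trans hAK
  have he : A + 1 ≤ Real.exp A := Real.add_one_le_exp A
  have hz1 : Real.exp A < ((zK κ K x + 1 : ℕ) : ℝ) := by
    push_cast
    exact Nat.lt_floor_add_one _
  have hz2 : ((zK κ K x + 1 : ℕ) : ℝ) ≤ Real.exp A + 1 := by
    push_cast
    have : ((zK κ K x : ℕ) : ℝ) ≤ Real.exp A := Nat.floor_le (Real.exp_pos _).le
    linarith
  have hz3 : 3 ≤ zK κ K x + 1 := by
    have : (2 : ℝ) < ((zK κ K x + 1 : ℕ) : ℝ) := by linarith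
    have : 2 < zK κ K x + 1 := by exact_mod_cast this
    omega
  have h1 := hC1 _ hz3
  have h2 := hC2 _ hz3
  have hlog1 : A ≤ Real.log ((zK κ K x + 1 : ℕ) : ℝ) := by
    have := Real.log_le_log (Real.exp_pos A) hz1.le
    rwa [Real.log_exp] at this
  have hlog2 : Real.log ((zK κ K x + 1 : ℕ) : ℝ) ≤ A * 2 := by
    have h3 : ((zK κ K x + 1 : ℕ) : ℝ) ≤ Real.exp (A * 2) := by
      have h4 : Real.exp (A * 2) = Real.exp A * Real.exp A := by
        rw [← Real.exp_add]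
        congr 1
        ring
      rw [h4]
      nlinarith
    have := Real.log_le_log (by linarith [Real.exp_pos A]) h3
    rwa [Real.log_exp] at this
  have hll1 : Real.log A ≤ Real.log (Real.log ((zK κ K x + 1 : ℕ) : ℝ)) :=
    Real.log_le_log (by linarith) hlog1
  have hll2 : Real.log (Real.log ((zK κ K x + 1 : ℕ) : ℝ)) ≤ Real.log A + 1 := by
    have h3 := Real.log_le_log (by linarith) hlog2
    rw [Real.log_mul (by linarith) (by norm_num)] at h3
    have h4 : Real.log 2 ≤ 1 := by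
      have := Real.log_two_lt_d9
      linarith
    linarith
  have hlA : Real.log A ≤ LL x :=
    Real.log_le_log (by linarith) (AC_top κ hκ K x K h3x).2
  have := le_abs_self C1
  have := abs_nonneg C1
  constructor <;> linarith

private theorem QV2_UV_sub (κ : ℝ) (K x : ℕ) (f : ℕ → Option ℕ) : UV κ K x f ⊆ QV2_PP κ K x := by
  intro u hu
  unfold UV at hu
  rw [mem_filter] at hu
  unfold QV2_PP
  rw [mem_filter]
  exact ⟨hu.1, hu.2.1⟩

theorem G_up (κ : ℝ) (hκ : 0 < κ) (hκ1 : κ ≤ 1 / 100) (K D s : ℕ) (hs : 1 ≤ s) : ∃ x0 : ℕ,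
    ∀ x : ℕ, x0 ≤ x → ∀ (m : ℕ) (f : ℕ → Option ℕ),
      ∑ u ∈ UV κ K x f, (((range u).filter (EE κ K D s x m f u)).card : ℝ) / u ≤
        (s + 2) * LL x ∧
      ∑ u ∈ UV κ K x f, (((range u).filter (EE κ K D s x m f u)).card : ℝ) ≤
        (s + 1) * Real.exp (AC κ K x K) := by
  obtain ⟨x1, hx1⟩ := e_up κ hκ hκ1 K D s hs
  obtain ⟨C, hC0, x2, hx2⟩ := QV2_mert κ hκ K
  obtain ⟨x3, hx3⟩ := QV2_AC κ hκ K (((s : ℝ) + 1) * C)
  refine ⟨max x1 (max x2 x3), fun x hx m f => ?_⟩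
  simp only [max_le_iff] at hx
  have he := hx1 x hx.1 m f
  obtain ⟨-, hM⟩ := hx2 x hx.2.1
  obtain ⟨-, -, hL⟩ := hx3 x hx.2.2
  have hcard : ∀ u ∈ UV κ K x f,
      (((range u).filter (EE κ K D s x m f u)).card : ℝ) ≤ (s : ℝ) + 1 := by
    intro u hu
    have hu' : u.Prime := (mem_filter.mp hu).2.1
    exact_mod_cast he u hu'
  constructor
  · calc ∑ u ∈ UV κ K x f, (((range u).filter (EE κ K D s x m f u)).card : ℝ) / u ≤
          ∑ u ∈ UV κ K x f, ((s : ℝ) + 1) * (1 / (u : ℝ)) := by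
          refine sum_le_sum fun u hu => ?_
          rw [div_eq_mul_one_div]
          exact mul_le_mul_of_nonneg_right (hcard u hu) (by positivity)
      _ = ((s : ℝ) + 1) * ∑ u ∈ UV κ K x f, 1 / (u : ℝ) := by rw [mul_sum]
      _ ≤ ((s : ℝ) + 1) * ∑ u ∈ QV2_PP κ K x, 1 / (u : ℝ) := by
          refine mul_le_mul_of_nonneg_left ?_ (by positivity)
          exact sum_le_sum_of_subset_of_nonneg (QV2_UV_sub κ K x f) fun u _ _ => by positivity
      _ ≤ ((s : ℝ) + 1) * (LL x + C) := mul_le_mul_of_nonneg_left hM (by positivity)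
      _ ≤ (s + 2) * LL x := by linarith
  · calc ∑ u ∈ UV κ K x f, (((range u).filter (EE κ K D s x m f u)).card : ℝ) ≤
          ∑ u ∈ UV κ K x f, ((s : ℝ) + 1) := sum_le_sum hcard
      _ = ((UV κ K x f).card : ℝ) * ((s : ℝ) + 1) := by rw [sum_const, nsmul_eq_mul]
      _ ≤ Real.exp (AC κ K x K) * ((s : ℝ) + 1) := by
          refine mul_le_mul_of_nonneg_right ?_ (by positivity)
          have h1 : (UV κ K x f).card ≤ zK κ K x := by
            unfold UV
            refine (card_filter_le _ _).trans ?_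
            rw [Nat.card_Icc]
            omega
          have h2 : ((zK κ K x : ℕ) : ℝ) ≤ Real.exp (AC κ K x K) :=
            Nat.floor_le (Real.exp_pos _).le
          exact le_trans (by exact_mod_cast h1) h2
      _ = (s + 1) * Real.exp (AC κ K x K) := by ring

/-- the primes of the cell `c` which contribute -/
private noncomputable def QV2_S (κ : ℝ) (K D x m : ℕ) (f : ℕ → Option ℕ) (c : ℕ) : Finset ℕ :=
  match f c with
  | none => US κ K D x c m
  | some v => (US κ K D x c m).filter (fun w => w ≠ v ∧ (ry x v).Coprime (ry x w))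

/-- their contribution -/
private def QV2_r (s : ℕ) (f : ℕ → Option ℕ) (c u : ℕ) : ℕ :=
  match f c with
  | none => rho1 s u
  | some _ => rho2 s u

private theorem QV2_S_sub (κ : ℝ) (K D x m : ℕ) (f : ℕ → Option ℕ) (c : ℕ) :
    QV2_S κ K D x m f c ⊆ US κ K D x c m := by
  unfold QV2_S
  cases f c with
  | none => exact fun _ h => h
  | some v => exact filter_subset _ _

private theorem QV2_S_ne (κ : ℝ) (K D x m : ℕ) (f : ℕ → Option ℕ) (c u : ℕ)
    (h : u ∈ QV2_S κ K D x m f c) : f c ≠ some u := by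
  intro hf
  unfold QV2_S at h
  rw [hf] at h
  exact (mem_filter.mp h).2.1 rfl

private theorem QV2_S_e (κ : ℝ) (K D s x m : ℕ) (hs : 1 ≤ s) (f : ℕ → Option ℕ) (c u : ℕ)
    (hc : c < K) (h : u ∈ QV2_S κ K D x m f c) (hu : u.Prime) (hum : ¬ u ∣ m) :
    1 + QV2_r s f c u ≤ ((range u).filter (EE κ K D s x m f u)).card := by
  unfold QV2_S at h
  unfold QV2_r
  cases hf : f c with
  | none =>
    rw [hf] at h
    show 1 + rho1 s u ≤ _
    rw [← QV2_c1 s u m hs hu hum]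
    refine card_le_card fun n hn => ?_
    rw [mem_filter] at hn ⊢
    refine ⟨hn.1, ?_⟩
    rcases hn.2 with h1 | h1
    · exact Or.inl h1
    · exact Or.inr ⟨c, hc, h, Or.inl ⟨hf, h1⟩⟩
  | some v =>
    rw [hf] at h
    obtain ⟨h2, h3, h4⟩ := mem_filter.mp h
    show 1 + rho2 s u ≤ _
    rw [← QV2_c2 s u m hs hu hum]
    refine card_le_card fun n hn => ?_
    rw [mem_filter] at hn ⊢
    refine ⟨hn.1, ?_⟩
    rcases hn.2 with h1 | h1
    · exact Or.inl h1
    · exact Or.inr ⟨c, hc, h2, Or.inr ⟨v, hf, h3, h4, h1⟩⟩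

/-- a prime divisor of `VV` is an assigned prime -/
private theorem QV2_VV (κ : ℝ) (K D x m : ℕ) (f : ℕ → Option ℕ) (hf : Asg κ K D x m f) (u : ℕ)
    (hu : u.Prime) (h : u ∣ VV K f) : ∃ c < K, f c = some u := by
  unfold VV at h
  obtain ⟨c, hc, hcu⟩ := (Nat.prime_iff.mp hu).exists_mem_finset_dvd h
  rw [mem_range] at hc
  refine ⟨c, hc, ?_⟩
  cases hfc : f c with
  | none =>
    rw [hfc] at hcu
    exact absurd (Nat.dvd_one.mp hcu) hu.one_lt.ne'
  | some v =>
    rw [hfc] at hcu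
    have hv := hf c hc v hfc
    have hvp : v.Prime := (QV2_cell hv).2.2.1
    have : u = v := (Nat.prime_dvd_prime_iff_eq hu hvp).mp hcu
    rw [this]

private theorem QV2_US_zK (κ : ℝ) (hκ : 0 < κ) (K D x m c u : ℕ) (hx : 3 ≤ x) (hc : c < K)
    (h : u ∈ US κ K D x c m) : u ∈ QV2_PP κ K x := by
  obtain ⟨-, -, hcell⟩ := QV2_cell h
  unfold QV2_PP
  rw [mem_filter, mem_Icc]
  refine ⟨⟨hcell.1.one_lt.le, ?_⟩, hcell.1⟩
  unfold zK
  refine Nat.le_floor ?_
  have h1 := hcell.2.2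
  rw [← AC_succ κ hκ K x c hc hx] at h1
  exact h1.trans (Real.exp_le_exp.mpr (AC_mono κ hκ K x hx (c + 1) K hc).2)

theorem G_low (κ : ℝ) (hκ : 0 < κ) (hκ1 : κ ≤ 1 / 100) (K D s : ℕ) (hs : 1 ≤ s) (η : ℝ)
    (hη : 0 < η) : ∃ x0 : ℕ, ∀ x : ℕ, x0 ≤ x → ∀ m : ℕ, Nrm κ K D x m → ∀ f : ℕ → Option ℕ,
      Asg κ K D x m f →
      (sg κ K s - η) * LL x ≤
        ∑ u ∈ UV κ K x f, (((range u).filter (EE κ K D s x m f u)).card : ℝ) / u := by
  obtain ⟨x1, hx1⟩ := usable_ndvd κ hκ hκ1 K D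
  obtain ⟨C, hC0, x2, hx2⟩ := QV2_mert κ hκ K
  obtain ⟨x3, hx3⟩ := QV2_AC κ hκ K (2 * (C + K) / η)
  obtain ⟨x4, hx4⟩ := cell_low κ hκ hκ1 K D s hs (η / (2 * (K + 1))) (by positivity)
  refine ⟨max x1 (max x2 (max x3 x4)), fun x hx m hm f hf => ?_⟩
  simp only [max_le_iff] at hx
  have hnd := hx1 x hx.1
  obtain ⟨hM, -⟩ := hx2 x hx.2.1
  obtain ⟨h3x, -, hL⟩ := hx3 x hx.2.2.1
  have hcl := hx4 x hx.2.2.2
  set t := LL x with ht
  have ht0 : 0 ≤ t := le_trans (by positivity) hL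
  set e : ℕ → ℝ := fun u => (((range u).filter (EE κ K D s x m f u)).card : ℝ) with he
  show _ ≤ ∑ u ∈ UV κ K x f, e u / u
  have hUVp : ∀ u ∈ UV κ K x f, u.Prime := fun u hu => (mem_filter.mp hu).2.1
  have he1 : ∀ u ∈ UV κ K x f, 1 ≤ e u := by
    intro u hu
    have : 0 < ((range u).filter (EE κ K D s x m f u)).card := by
      refine card_pos.mpr ⟨0, ?_⟩
      rw [mem_filter, mem_range]
      exact ⟨(hUVp u hu).pos, Or.inl (dvd_zero u)⟩
    show (1 : ℝ) ≤ (((range u).filter (EE κ K D s x m f u)).card : ℝ)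
    exact_mod_cast this
  -- the cells
  have hSsub : ∀ c < K, QV2_S κ K D x m f c ⊆ UV κ K x f := by
    intro c hc u hu
    have h1 := QV2_S_sub κ K D x m f c hu
    have h2 := QV2_US_zK κ hκ K D x m c u h3x hc h1
    unfold QV2_PP at h2
    rw [mem_filter] at h2
    unfold UV
    rw [mem_filter]
    refine ⟨h2.1, h2.2, fun hV => ?_⟩
    obtain ⟨c', hc', hfc⟩ := QV2_VV κ K D x m f hf u h2.2 hV
    have h3 := hf c' hc' u hfc
    have h4 := QV2_uniq κ hκ K D x m h3x c c' u hc hc' h1 h3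
    rw [← h4] at hfc
    exact QV2_S_ne κ K D x m f c u hu hfc
  have hdisj : ∀ c ∈ range K, ∀ c' ∈ range K, c ≠ c' →
      Disjoint (QV2_S κ K D x m f c) (QV2_S κ K D x m f c') := by
    intro c hc c' hc' hne
    rw [mem_range] at hc hc'
    rw [Finset.disjoint_left]
    intro u hu hu'
    exact hne (QV2_uniq κ hκ K D x m h3x c c' u hc hc' (QV2_S_sub κ K D x m f c hu)
      (QV2_S_sub κ K D x m f c' hu'))
  have hsplit : ∑ u ∈ UV κ K x f, e u / u = ∑ u ∈ UV κ K x f, 1 / (u : ℝ) +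
      ∑ u ∈ UV κ K x f, (e u - 1) / u := by
    rw [← sum_add_distrib]
    refine sum_congr rfl fun u _ => ?_
    ring
  have hpart2 : ∑ c ∈ range K, ∑ u ∈ QV2_S κ K D x m f c, (QV2_r s f c u : ℝ) / u ≤
      ∑ u ∈ UV κ K x f, (e u - 1) / u := by
    have h1 : ∑ u ∈ (range K).biUnion (QV2_S κ K D x m f), (e u - 1) / u ≤
        ∑ u ∈ UV κ K x f, (e u - 1) / u := by
      refine sum_le_sum_of_subset_of_nonneg ?_ ?_
      · intro u hu
        rw [mem_biUnion] at hu
        obtain ⟨c, hc, hu⟩ := hu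
        exact hSsub c (mem_range.mp hc) hu
      · intro u hu _
        have := he1 u hu
        exact div_nonneg (by linarith) (Nat.cast_nonneg _)
    rw [sum_biUnion hdisj] at h1
    refine le_trans ?_ h1
    refine sum_le_sum fun c hc => sum_le_sum fun u hu => ?_
    rw [mem_range] at hc
    have h2 := QV2_S_sub κ K D x m f c hu
    have h3 := QV2_S_e κ K D s x m hs f c u hc hu (QV2_cell h2).2.2.1 (hnd c m u h2).1
    refine div_le_div_of_nonneg_right ?_ (Nat.cast_nonneg _)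
    have h4 : ((1 + QV2_r s f c u : ℕ) : ℝ) ≤ e u := by
      show ((1 + QV2_r s f c u : ℕ) : ℝ) ≤ (((range u).filter (EE κ K D s x m f u)).card : ℝ)
      exact_mod_cast h3
    push_cast at h4
    linarith
  have hpart1 : Real.log (AC κ K x K) - C - K ≤ ∑ u ∈ UV κ K x f, 1 / (u : ℝ) := by
    have h1 : ∑ u ∈ QV2_PP κ K x, 1 / (u : ℝ) ≤ ∑ u ∈ UV κ K x f, 1 / (u : ℝ) +
        ∑ u ∈ (QV2_PP κ K x).filter (fun u => u ∣ VV K f), 1 / (u : ℝ) := by
      have h2 : UV κ K x f = (QV2_PP κ K x).filter (fun u => ¬ u ∣ VV K f) := by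
        unfold UV QV2_PP
        rw [filter_filter]
      rw [h2, add_comm, sum_filter_add_sum_filter_not]
    have h3 : ∑ u ∈ (QV2_PP κ K x).filter (fun u => u ∣ VV K f), 1 / (u : ℝ) ≤ K := by
      have h4 : (QV2_PP κ K x).filter (fun u => u ∣ VV K f) ⊆
          (range K).image (fun c => (f c).getD 1) := by
        intro u hu
        rw [mem_filter] at hu
        unfold QV2_PP at hu
        rw [mem_filter] at hu
        obtain ⟨c, hc, hfc⟩ := QV2_VV κ K D x m f hf u hu.1.2 hu.2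
        rw [mem_image]
        refine ⟨c, mem_range.mpr hc, ?_⟩
        rw [hfc]
        rfl
      have h5 : ((QV2_PP κ K x).filter (fun u => u ∣ VV K f)).card ≤ K := by
        refine (card_le_card h4).trans (card_image_le.trans ?_)
        rw [card_range]
      calc ∑ u ∈ (QV2_PP κ K x).filter (fun u => u ∣ VV K f), 1 / (u : ℝ) ≤
            ∑ u ∈ (QV2_PP κ K x).filter (fun u => u ∣ VV K f), (1 : ℝ) := by
            refine sum_le_sum fun u hu => ?_
            rw [mem_filter] at hu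
            unfold QV2_PP at hu
            rw [mem_filter] at hu
            have h6 : (1 : ℝ) ≤ u := by exact_mod_cast hu.1.2.one_lt.le
            rw [div_le_one (by linarith)]
            exact h6
        _ = (((QV2_PP κ K x).filter (fun u => u ∣ VV K f)).card : ℝ) := by simp
        _ ≤ K := by exact_mod_cast h5
    linarith
  -- each cell
  have hcell : ∀ c ∈ range K, (rr s : ℝ) * (κ * Real.log (AC κ K x c)) -
      η / (2 * (K + 1)) * t ≤ ∑ u ∈ QV2_S κ K D x m f c, (QV2_r s f c u : ℝ) / u := by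
    intro c hc
    rw [mem_range] at hc
    obtain ⟨h1, h2⟩ := hcl c hc m hm
    have hAc := (AC_mono κ hκ K x h3x c c le_rfl).1
    have hlog : 0 ≤ κ * Real.log (AC κ K x c) := mul_nonneg hκ.le (Real.log_nonneg hAc)
    have hd1 : s.divisors.card ≤ (2 * s).divisors.card :=
      card_le_card (Nat.divisors_subset_of_dvd (by omega) (dvd_mul_left s 2))
    have hd2 : 1 ≤ s.divisors.card := card_pos.mpr ⟨1, by
      rw [Nat.mem_divisors]
      exact ⟨one_dvd s, by omega⟩⟩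
    have hr1 : (rr s : ℝ) ≤ ((2 * s).divisors.card : ℝ) - s.divisors.card := by
      have h3 : rr s ≤ (2 * s).divisors.card - s.divisors.card := min_le_left _ _
      have h4 : ((rr s : ℕ) : ℝ) ≤ (((2 * s).divisors.card - s.divisors.card : ℕ) : ℝ) := by
        exact_mod_cast h3
      rwa [Nat.cast_sub hd1] at h4
    have hr2 : (rr s : ℝ) ≤ (s.divisors.card : ℝ) - 1 := by
      have h3 : rr s ≤ s.divisors.card - 1 := min_le_right _ _
      have h4 : ((rr s : ℕ) : ℝ) ≤ ((s.divisors.card - 1 : ℕ) : ℝ) := by exact_mod_cast h3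
      rwa [Nat.cast_sub hd2, Nat.cast_one] at h4
    unfold QV2_S QV2_r
    cases hfc : f c with
    | none =>
      show _ ≤ ∑ u ∈ US κ K D x c m, ((rho1 s u : ℕ) : ℝ) / u
      refine le_trans ?_ h1
      have := mul_le_mul_of_nonneg_right hr1 hlog
      linarith
    | some v =>
      have hv := hf c hc v hfc
      show _ ≤ ∑ u ∈ (US κ K D x c m).filter (fun w => w ≠ v ∧ (ry x v).Coprime (ry x w)),
        ((rho2 s u : ℕ) : ℝ) / u
      refine le_trans ?_ (h2 v hv)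
      have := mul_le_mul_of_nonneg_right hr2 hlog
      linarith
  have hsum := sum_le_sum hcell
  rw [sum_sub_distrib, ← mul_sum, AC_sum κ hκ K x h3x, sum_const, card_range, nsmul_eq_mul] at hsum
  have hlogK : Real.log (AC κ K x K) = 1 / (1 + 8 * κ) * t := by
    rw [log_AC κ K x K h3x, Nat.sub_self, pow_zero, mul_one]
  rw [hsplit]
  have hK0 : (0 : ℝ) ≤ K := Nat.cast_nonneg K
  have h5 : (K : ℝ) * (η / (2 * (K + 1)) * t) ≤ η / 2 * t := by
    have h6 : (K : ℝ) * (η / (2 * (K + 1))) ≤ η / 2 := by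
      rw [← mul_div_assoc, div_le_div_iff₀ (by positivity) (by norm_num)]
      nlinarith
    calc (K : ℝ) * (η / (2 * (K + 1)) * t) = (K : ℝ) * (η / (2 * (K + 1))) * t := by ring
      _ ≤ η / 2 * t := mul_le_mul_of_nonneg_right h6 ht0
  have h7 : C + K ≤ η / 2 * t := by
    rw [div_le_iff₀ hη] at hL
    linarith
  have h8 : (sg κ K s - η) * t = 1 / (1 + 8 * κ) * t +
      (rr s : ℝ) * (1 / (1 + 8 * κ) * (1 - 1 / (1 + κ) ^ K) * t) - η * t := by
    unfold sg
    ring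
  rw [h8]
  linarith

end Pool.Agent.Lib.MP_79499b_co.QZ
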