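import Pool.Agent.Lib.MP_79499b_co.QZ.QV1
import Pool.Agent.Lib.MP_79499b_co.QZ.QV2

/-!
# QV3: the sieve for one assignment

`sieve_one`: for every `C1, η > 0`, `x` large, `m` normal, `f` an assignment, `X ≥ exp(L/(C1 LL))`:
`#{n < X : Cnd n} ≤ 5 X ∏_{c<K} (1 or s/v) exp(-(sg - η) LL)`.

Proof. `T` the set of the assigned primes `v` (different for different cells: disjoint cells), `V = VV K f = ∏ T`, `V ≤ exp(K AC K)`. If `Cnd n` then
`n mod V` is in one of at most `s^|T|` classes (`cls_V`; `v ∤ m` by `usable_ndvd`), and `¬ EE u n` for `u ∈ UV`. For each class `brun_cls` with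
`U = UV`, `E = EE`, `G ≥ (sg - η) LL` (`G_low`), `G ≤ (s+2) LL`, `D' = (s+1) exp(AC K)` (`G_up`; `≥ 1`), `r = 2 ⌈3 (s+2) LL⌉`: `8^r ≥ exp(2 · 6 (s+2) LL) ≥ e^(9G)`, so
`e^(8G)/8^(r+1) ≤ e^(-G)`. `X/V ≥ exp(L/(C1 LL) - K AC K) ≥ 1`, and `3 D'^r = exp(O(LL (AC K + 1))) ≤ (X/V) exp(-(s+2) LL) ≤ (X/V) e^(-G)` for large `x`,
because `AC K = L^(1/(1+8κ))` (`AC_top`) and `L/(C1 LL)` dominates `LL L^(1/(1+8κ))`. So each class has at most
`(X/V + 1) 2 e^(-G) + (X/V) e^(-G) ≤ 5 (X/V) e^(-G)` elements. `s^|T|/V = ∏_c (1 or s/v)`.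
-/

set_option autoImplicit false

namespace Pool.Agent.Lib.MP_79499b_co.QZ

open Finset DZ
open scoped Classical

private theorem QV3_ev (κ : ℝ) (hκ : 0 < κ) (K : ℕ) (C : ℝ) (hC : 0 < C) : ∃ x0 : ℕ,
    ∀ x : ℕ, x0 ≤ x → 3 ≤ x ∧ 1 ≤ LL x ∧ C * LL x * AC κ K x K ≤ Real.log x / LL x := by
  obtain ⟨θ, hθ⟩ : ∃ θ : ℝ, θ = 1 / (1 + 8 * κ) := ⟨_, rfl⟩
  have hθ1 : θ < 1 := by
    rw [hθ, div_lt_one (by positivity)]
    linarith
  have hδ : 0 < (1 - θ) / 2 := by linarith
  have h2 : ∀ᶠ L : ℝ in Filter.atTop, ‖Real.log L‖ ≤ (1 / (C + 1)) * ‖L ^ ((1 - θ) / 2)‖ :=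
    (isLittleO_log_rpow_atTop hδ).bound (by positivity)
  obtain ⟨x1, h1⟩ := Filter.eventually_atTop.mp (LL_tend.eventually_ge_atTop (1 : ℝ))
  obtain ⟨x2, h2⟩ := Filter.eventually_atTop.mp (log_tend.eventually h2)
  refine ⟨max 3 (max x1 x2), fun x hx => ?_⟩
  simp only [max_le_iff] at hx
  have g1 := h1 x hx.2.1
  have g2 := h2 x hx.2.2
  obtain ⟨e1, e2⟩ := AC_top κ hκ K x K hx.1
  have hL0 : 0 < Real.log x := by
    have := (AC_mono κ hκ K x hx.1 K K le_rfl).1
    linarith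
  refine ⟨hx.1, g1, ?_⟩
  rw [e1, ← hθ]
  have hLL : LL x = Real.log (Real.log x) := rfl
  obtain ⟨L, hL⟩ : ∃ L : ℝ, L = Real.log x := ⟨_, rfl⟩
  obtain ⟨t, ht⟩ : ∃ t : ℝ, t = LL x := ⟨_, rfl⟩
  rw [← hLL, ← ht, ← hL, Real.norm_of_nonneg (by rw [ht]; linarith),
    Real.norm_of_nonneg (Real.rpow_nonneg (by rw [hL]; exact hL0.le) _)] at g2
  rw [← hL, ← ht]
  rw [← hL] at hL0
  rw [← ht] at g1
  obtain ⟨u, hu⟩ : ∃ u : ℝ, u = L ^ ((1 - θ) / 2) := ⟨_, rfl⟩
  have hu0 : 0 ≤ u := by rw [hu]; exact Real.rpow_nonneg hL0.le _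
  rw [← hu] at g2
  have hu2 : u ^ 2 * L ^ θ = L := by
    rw [hu, ← Real.rpow_natCast, ← Real.rpow_mul hL0.le, ← Real.rpow_add hL0]
    have : (1 - θ) / 2 * ((2 : ℕ) : ℝ) + θ = 1 := by
      push_cast
      ring
    rw [this, Real.rpow_one]
  rw [le_div_iff₀ (by linarith)]
  have hθ0 : 0 ≤ L ^ θ := Real.rpow_nonneg hL0.le _
  have h3 : C * t * t ≤ u ^ 2 := by
    have h4 : (C + 1) * t ≤ u := by
      rw [one_div, ← div_eq_inv_mul, le_div_iff₀ (by positivity)] at g2
      linarith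
    have h5 : ((C + 1) * t) ^ 2 ≤ u ^ 2 := pow_le_pow_left₀ (by positivity) h4 2
    refine le_trans ?_ h5
    nlinarith [sq_nonneg t, mul_nonneg hC.le (sq_nonneg t), sq_nonneg (C * t)]
  calc C * t * L ^ θ * t = (C * t * t) * L ^ θ := by ring
    _ ≤ u ^ 2 * L ^ θ := mul_le_mul_of_nonneg_right h3 hθ0
    _ = L := hu2

private theorem QV3_US (κ : ℝ) (K D x c m w : ℕ) (hw : w ∈ US κ K D x c m) :
    w.Prime ∧ Real.exp (AC κ K x c) < w ∧ (w : ℝ) ≤ Real.exp (AC κ K x c ^ (1 + κ)) := by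
  unfold US at hw
  rw [mem_filter] at hw
  have h1 := hw.1
  unfold GW at h1
  rw [mem_filter] at h1
  have h2 := h1.1
  unfold CW at h2
  rw [mem_filter] at h2
  exact h2.2

private theorem QV3_disj (κ : ℝ) (hκ : 0 < κ) (K D x m : ℕ) (h3 : 3 ≤ x) (c d v : ℕ) (hcd : c < d)
    (hd : d < K) (hc : v ∈ US κ K D x c m) (hv : v ∈ US κ K D x d m) : False := by
  obtain ⟨-, -, a1⟩ := QV3_US κ K D x c m v hc
  obtain ⟨-, a2, -⟩ := QV3_US κ K D x d m v hv
  rw [← AC_succ κ hκ K x c (by omega) h3] at a1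
  have a3 := (AC_mono κ hκ K x h3 (c + 1) d hcd).2
  have a4 := Real.exp_le_exp.2 a3
  linarith

private theorem QV3_mf {α : Type} (p : α → Prop) (inst : DecidablePred p) (S : Finset α) (a : α) :
    a ∈ @Finset.filter α p inst S ↔ a ∈ S ∧ p a := Finset.mem_filter

/-- the set of the assigned primes -/
private def QV3T (K : ℕ) (f : ℕ → Option ℕ) : Finset ℕ := (range K).biUnion (fun c => (f c).toFinset)

private theorem QV3_mem (K : ℕ) (f : ℕ → Option ℕ) (v : ℕ) :
    v ∈ QV3T K f ↔ ∃ c < K, f c = some v := by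
  unfold QV3T
  rw [mem_biUnion]
  constructor
  · rintro ⟨c, hc, hv⟩
    rw [Option.mem_toFinset, Option.mem_def] at hv
    exact ⟨c, mem_range.1 hc, hv⟩
  · rintro ⟨c, hc, hv⟩
    exact ⟨c, mem_range.2 hc, by rw [Option.mem_toFinset, Option.mem_def]; exact hv⟩

private theorem QV3_prod {M : Type} [CommMonoid M] (κ : ℝ) (hκ : 0 < κ) (K D x m : ℕ) (h3 : 3 ≤ x)
    (f : ℕ → Option ℕ) (hf : Asg κ K D x m f) (g : ℕ → M) :
    ∏ v ∈ QV3T K f, g v = ∏ c ∈ range K, (match f c with | none => (1 : M) | some v => g v) := by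
  unfold QV3T
  rw [Finset.prod_biUnion]
  · refine Finset.prod_congr rfl fun c _ => ?_
    cases f c with
    | none => simp
    | some v => simp
  · intro c hc d hd hcd
    rw [Finset.mem_coe, mem_range] at hc hd
    rw [Function.onFun, Finset.disjoint_left]
    intro v hv hv'
    rw [Option.mem_toFinset, Option.mem_def] at hv hv'
    have h1 := hf c hc v hv
    have h2 := hf d hd v hv'
    rcases lt_or_gt_of_ne hcd with h | h
    · exact QV3_disj κ hκ K D x m h3 c d v h hd h1 h2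
    · exact QV3_disj κ hκ K D x m h3 d c v h hc h2 h1

theorem sieve_one (κ : ℝ) (hκ : 0 < κ) (hκ1 : κ ≤ 1 / 100) (K D s : ℕ) (hs : 1 ≤ s) (C1 η : ℝ)
    (hC1 : 0 < C1) (hη : 0 < η) : ∃ x0 : ℕ, ∀ x : ℕ, x0 ≤ x → ∀ m : ℕ, Nrm κ K D x m →
      ∀ f : ℕ → Option ℕ, Asg κ K D x m f → ∀ X : ℕ,
      Real.exp (Real.log x / (C1 * LL x)) ≤ X →
      cnt X (Cnd κ K D s x m f) ≤ 5 * X *
        (∏ c ∈ range K, (match f c with | none => (1 : ℝ) | some v => (s : ℝ) / v)) *
        Real.exp (-((sg κ K s - η) * LL x)) := by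
  -- the constants
  obtain ⟨C, hCdef⟩ : ∃ C : ℝ, C = K + 2 + (6 * ((s : ℝ) + 2) + 2) * (s + 1) + (s + 2) := ⟨_, rfl⟩
  have hC0 : 0 < C := by rw [hCdef]; positivity
  obtain ⟨x1, hx1⟩ := QV3_ev κ hκ K (C1 * C) (by positivity)
  obtain ⟨x2, hx2⟩ := usable_ndvd κ hκ hκ1 K D
  obtain ⟨x3, hx3⟩ := G_up κ hκ hκ1 K D s hs
  obtain ⟨x4, hx4⟩ := G_low κ hκ hκ1 K D s hs η hη
  refine ⟨max (max x1 x2) (max x3 x4), fun x hx m hm f hf X hX => ?_⟩
  simp only [max_le_iff] at hx
  obtain ⟨k3, kt, kC⟩ := hx1 x hx.1.1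
  have hnd := hx2 x hx.1.2
  obtain ⟨gu1, gu2⟩ := hx3 x hx.2.1 m f
  have gl := hx4 x hx.2.2 m hm f hf
  obtain ⟨t, htdef⟩ : ∃ t : ℝ, t = LL x := ⟨_, rfl⟩
  obtain ⟨A, hAdef⟩ : ∃ A : ℝ, A = AC κ K x K := ⟨_, rfl⟩
  obtain ⟨G, hG⟩ : ∃ G : ℝ, G = ∑ u ∈ UV κ K x f,
    (((range u).filter (EE κ K D s x m f u)).card : ℝ) / u := ⟨_, rfl⟩
  have hA1 : 1 ≤ A := by rw [hAdef]; exact (AC_mono κ hκ K x k3 K K le_rfl).1
  rw [← hG, ← htdef] at gu1 gl
  rw [← hAdef] at gu2 kC
  rw [← htdef] at kC hX kt ⊢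
  have hs1 : (1 : ℝ) ≤ s := by exact_mod_cast hs
  -- the modulus
  obtain ⟨V, hVdef⟩ : ∃ V : ℕ, V = ∏ v ∈ QV3T K f, v := ⟨_, rfl⟩
  have hTmem : ∀ v ∈ QV3T K f, v.Prime ∧ ¬ v ∣ m ∧ (v : ℝ) ≤ Real.exp A := by
    intro v hv
    obtain ⟨c, hc, hcv⟩ := (QV3_mem K f v).1 hv
    have h1 := hf c hc v hcv
    obtain ⟨g1, -, g3⟩ := QV3_US κ K D x c m v h1
    refine ⟨g1, (hnd c m v h1).1, g3.trans ?_⟩
    rw [← AC_succ κ hκ K x c hc k3, hAdef]
    exact Real.exp_le_exp.2 (AC_mono κ hκ K x k3 (c + 1) K hc).2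
  have hVV : VV K f = V := by
    have h1 := QV3_prod κ hκ K D x m k3 f hf (fun v => v)
    rw [hVdef, h1]
    unfold VV
    refine Finset.prod_congr rfl fun c _ => ?_
    cases f c with
    | none => rfl
    | some v => rfl
  have hV0 : 0 < V := by
    rw [hVdef]
    exact Finset.prod_pos fun v hv => (hTmem v hv).1.pos
  have hTcard : (QV3T K f).card ≤ K := by
    unfold QV3T
    refine (Finset.card_biUnion_le).trans ?_
    have h1 : ∀ c ∈ range K, ((f c).toFinset).card ≤ 1 := by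
      intro c _
      cases f c with
      | none => simp
      | some v => simp
    refine (Finset.sum_le_card_nsmul _ _ _ h1).trans ?_
    simp
  have hVle : (V : ℝ) ≤ Real.exp (K * A) := by
    rw [hVdef, Nat.cast_prod]
    calc ∏ v ∈ QV3T K f, (v : ℝ) ≤ ∏ _v ∈ QV3T K f, Real.exp A :=
          Finset.prod_le_prod (fun _ _ => Nat.cast_nonneg _) fun v hv => (hTmem v hv).2.2
      _ = Real.exp ((QV3T K f).card * A) := by rw [Finset.prod_const, Real.exp_nat_mul]
      _ ≤ Real.exp (K * A) := by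
          refine Real.exp_le_exp.2 (mul_le_mul_of_nonneg_right ?_ (by linarith))
          exact_mod_cast hTcard
  -- Brun in a class
  obtain ⟨q, hq⟩ : ∃ q : ℕ, q = ⌈3 * ((s : ℝ) + 2) * t⌉₊ := ⟨_, rfl⟩
  have hq1 : 3 * ((s : ℝ) + 2) * t ≤ q := by rw [hq]; exact Nat.le_ceil _
  have hq2 : (q : ℝ) ≤ 3 * ((s : ℝ) + 2) * t + 1 := by
    rw [hq]
    exact (Nat.ceil_lt_add_one (by positivity)).le
  have hr : Even (2 * q) := even_two_mul q
  obtain ⟨D', hD'⟩ : ∃ D' : ℝ, D' = (s + 1) * Real.exp A := ⟨_, rfl⟩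
  have hD'1 : 1 ≤ D' := by
    rw [hD']
    have h1 := Real.add_one_le_exp A
    nlinarith
  have hlogD : D' ≤ Real.exp ((s + 1) * A) := by
    rw [hD']
    have h1 := Real.add_one_le_exp (s : ℝ)
    calc ((s : ℝ) + 1) * Real.exp A ≤ Real.exp s * Real.exp A :=
          mul_le_mul_of_nonneg_right h1 (Real.exp_pos _).le
      _ = Real.exp (s + A) := (Real.exp_add _ _).symm
      _ ≤ Real.exp ((s + 1) * A) := Real.exp_le_exp.2 (by nlinarith)
  rw [← hD'] at gu2
  have hcls : ∀ ρ : ℕ, cnt X (fun n => n % V = ρ ∧ ∀ u ∈ UV κ K x f, ¬ EE κ K D s x m f u n) ≤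
      5 * (X / V) * Real.exp (-G) := by
    intro ρ
    have h1 := brun_cls hV0 (UV κ K x f) (by
        intro u hu
        unfold UV at hu
        exact (mem_filter.1 hu).2.1) (by
        intro u hu
        unfold UV at hu
        have h2 := (mem_filter.1 hu).2
        rw [hVV] at h2
        exact ((Nat.Prime.coprime_iff_not_dvd h2.1).2 h2.2).symm) (EE κ K D s x m f)
        (fun u _ n => EE_mod κ K D s x m f u n) hr X ρ hG.symm hD'1 gu2
    refine h1.trans ?_
    have hXV : Real.exp (C * t * A - K * A) ≤ X / V := by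
      have h2 : C * t * A ≤ Real.log x / (C1 * t) := by
        have h3 : Real.log x / (C1 * t) = Real.log x / t / C1 := by
          rw [div_div, mul_comm]
        rw [h3, le_div_iff₀ hC1]
        calc C * t * A * C1 = C1 * C * t * A := by ring
          _ ≤ Real.log x / t := kC
      have h4 : Real.exp (C * t * A) ≤ X := (Real.exp_le_exp.2 h2).trans hX
      have hV0' : (0 : ℝ) < V := by exact_mod_cast hV0
      rw [le_div_iff₀ hV0', Real.exp_sub]
      calc Real.exp (C * t * A) / Real.exp (K * A) * V ≤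
            Real.exp (C * t * A) / Real.exp (K * A) * Real.exp (K * A) :=
            mul_le_mul_of_nonneg_left hVle (by positivity)
        _ = Real.exp (C * t * A) := by field_simp
        _ ≤ X := h4
    have htA : t * A = t * A := rfl
    have hmain : 3 * D' ^ (2 * q) ≤ (X / V) * Real.exp (-G) := by
      have h2 : (3 : ℝ) ≤ Real.exp 2 := by
        have := Real.add_one_le_exp (2 : ℝ)
        linarith
      have h3 : D' ^ (2 * q) ≤ Real.exp ((2 * q : ℕ) * ((s + 1) * A)) := by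
        rw [Real.exp_nat_mul]
        exact pow_le_pow_left₀ (by linarith) hlogD _
      calc 3 * D' ^ (2 * q) ≤ Real.exp 2 * Real.exp ((2 * q : ℕ) * ((s + 1) * A)) :=
            mul_le_mul h2 h3 (by positivity) (by positivity)
        _ = Real.exp (2 + (2 * q : ℕ) * ((s + 1) * A)) := (Real.exp_add _ _).symm
        _ ≤ Real.exp (C * t * A - K * A + -G) := by
            refine Real.exp_le_exp.2 ?_
            push_cast
            have e1 : (2 : ℝ) ≤ 2 * (t * A) := by nlinarith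
            have e2 : (2 * (q : ℝ)) * ((s + 1) * A) ≤ (6 * (s + 2) + 2) * (s + 1) * (t * A) := by
              have e3 : 2 * (q : ℝ) ≤ (6 * (s + 2) + 2) * t := by nlinarith
              calc (2 * (q : ℝ)) * ((s + 1) * A) ≤ ((6 * (s + 2) + 2) * t) * ((s + 1) * A) :=
                    mul_le_mul_of_nonneg_right e3 (by positivity)
                _ = (6 * (s + 2) + 2) * (s + 1) * (t * A) := by ring
            have e4 : G ≤ (s + 2) * (t * A) := by
              refine gu1.trans ?_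
              have : t ≤ t * A := by nlinarith
              exact mul_le_mul_of_nonneg_left this (by positivity)
            have e5 : K * A ≤ K * (t * A) := by
              have : A ≤ t * A := by nlinarith
              exact mul_le_mul_of_nonneg_left this (Nat.cast_nonneg _)
            have e6 : C * t * A = K * (t * A) + 2 * (t * A) +
                (6 * (s + 2) + 2) * (s + 1) * (t * A) + (s + 2) * (t * A) := by
              rw [hCdef]
              ring
            have e7 : 0 ≤ t * A := by positivity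
            have e8 : K * A - K * (t * A) ≤ 0 := by linarith
            linarith
        _ = Real.exp (C * t * A - K * A) * Real.exp (-G) := Real.exp_add _ _
        _ ≤ (X / V) * Real.exp (-G) := mul_le_mul_of_nonneg_right hXV (Real.exp_pos _).le
    have hXV1 : 1 ≤ (X : ℝ) / V := by
      refine le_trans ?_ hXV
      refine Real.one_le_exp ?_
      have e5 : K * A ≤ K * (t * A) := by
        have : A ≤ t * A := by nlinarith
        exact mul_le_mul_of_nonneg_left this (Nat.cast_nonneg _)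
      have e6 : C * t * A = K * (t * A) + (2 + (6 * (s + 2) + 2) * (s + 1) + (s + 2)) * (t * A) := by
        rw [hCdef]
        ring
      have e7 : 0 ≤ (2 + (6 * ((s : ℝ) + 2) + 2) * (s + 1) + (s + 2)) * (t * A) := by positivity
      linarith
    have hG0 : 0 ≤ G := by
      rw [hG]
      exact Finset.sum_nonneg fun u _ => by positivity
    have h8 : Real.exp (8 * G) / 8 ^ (2 * q + 1) ≤ Real.exp (-G) := by
      rw [div_le_iff₀ (by positivity)]
      have e1 : Real.exp 2 ≤ 8 := by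
        have e2 := Real.exp_one_lt_d9
        have e3 : Real.exp 2 = Real.exp 1 * Real.exp 1 := by
          rw [← Real.exp_add]
          norm_num
        have e4 := Real.exp_pos 1
        rw [e3]
        nlinarith
      have e5 : Real.exp (9 * G) ≤ 8 ^ (2 * q + 1) := by
        calc Real.exp (9 * G) ≤ Real.exp ((2 * q + 1 : ℕ) * 2) := by
              refine Real.exp_le_exp.2 ?_
              push_cast
              nlinarith
          _ = Real.exp 2 ^ (2 * q + 1) := Real.exp_nat_mul _ _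
          _ ≤ 8 ^ (2 * q + 1) := pow_le_pow_left₀ (Real.exp_pos _).le e1 _
      calc Real.exp (8 * G) = Real.exp (-G) * Real.exp (9 * G) := by
            rw [← Real.exp_add]
            congr 1
            ring
        _ ≤ Real.exp (-G) * 8 ^ (2 * q + 1) := mul_le_mul_of_nonneg_left e5 (Real.exp_pos _).le
    calc ((X : ℝ) / V + 1) * (Real.exp (-G) + Real.exp (8 * G) / 8 ^ (2 * q + 1)) +
          3 * D' ^ (2 * q) ≤
          ((X : ℝ) / V + X / V) * (Real.exp (-G) + Real.exp (-G)) + (X / V) * Real.exp (-G) := by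
          refine add_le_add ?_ hmain
          refine mul_le_mul (by linarith) (by linarith) (by positivity) (by positivity)
      _ = 5 * (X / V) * Real.exp (-G) := by ring
  -- the classes
  obtain ⟨Cls, hClsm, hClscard⟩ : ∃ Cls : Finset ℕ,
      (∀ ρ, ρ ∈ Cls ↔ ρ < V ∧ ∀ v ∈ QV3T K f, v ∣ (m * ρ) ^ s + 1) ∧
      Cls.card ≤ s ^ (QV3T K f).card := by
    refine ⟨_, fun ρ => ?_, cls_V s m hs (QV3T K f) fun v hv =>
      ⟨(hTmem v hv).1, (hTmem v hv).2.1⟩⟩
    refine (QV3_mf _ _ _ _).trans ?_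
    rw [mem_range, ← hVdef]
  have hcover : cnt X (Cnd κ K D s x m f) ≤ cnt X (fun n => ∃ ρ ∈ Cls, n % V = ρ ∧
      ∀ u ∈ UV κ K x f, ¬ EE κ K D s x m f u n) := by
    refine cnt_mono fun n _ hn => ?_
    obtain ⟨n1, n2⟩ := hn
    refine ⟨n % V, ?_, rfl, ?_⟩
    · rw [hClsm]
      refine ⟨Nat.mod_lt _ hV0, fun v hv => ?_⟩
      obtain ⟨c, hc, hcv⟩ := (QV3_mem K f v).1 hv
      have h1 := ((n2 c hc).2 v hcv).1
      have hvV : v ∣ V := by
        rw [hVdef]
        exact Finset.dvd_prod_of_mem _ hv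
      have h2 : (m * (n % V)) ^ s + 1 ≡ (m * n) ^ s + 1 [MOD v] :=
        ((((Nat.mod_modEq n V).of_dvd hvV).mul_left m).pow s).add_right 1
      exact (h2.dvd_iff dvd_rfl).2 h1
    · intro u hu hE
      unfold UV at hu
      rw [mem_filter, mem_Icc] at hu
      rcases hE with hE | ⟨c, hc, hus, hE⟩
      · exact n1 u hu.2.1 hu.1.2 hE
      · rcases hE with ⟨h1, h2⟩ | ⟨v, h1, h2, h3, h4⟩
        · exact (n2 c hc).1 h1 u hus h2
        · exact ((n2 c hc).2 v h1).2 u hus h2 h3 h4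
  have hprod : (∏ c ∈ range K, (match f c with | none => (1 : ℝ) | some v => (s : ℝ) / v)) =
      (s : ℝ) ^ (QV3T K f).card / V := by
    rw [← QV3_prod κ hκ K D x m k3 f hf (fun v => (s : ℝ) / v), Finset.prod_div_distrib,
      Finset.prod_const, hVdef, Nat.cast_prod]
  have hV0' : (0 : ℝ) < V := by exact_mod_cast hV0
  rw [hprod]
  calc cnt X (Cnd κ K D s x m f) ≤ ∑ ρ ∈ Cls, cnt X (fun n => n % V = ρ ∧
      ∀ u ∈ UV κ K x f, ¬ EE κ K D s x m f u n) := hcover.trans (cnt_exists X Cls _)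
    _ ≤ ∑ _ρ ∈ Cls, 5 * (X / V) * Real.exp (-G) := Finset.sum_le_sum fun ρ _ => hcls ρ
    _ = Cls.card * (5 * (X / V) * Real.exp (-G)) := by rw [Finset.sum_const, nsmul_eq_mul]
    _ ≤ (s : ℝ) ^ (QV3T K f).card * (5 * (X / V) * Real.exp (-((sg κ K s - η) * t))) := by
        refine mul_le_mul (by exact_mod_cast hClscard) ?_ (by positivity) (by positivity)
        refine mul_le_mul_of_nonneg_left (Real.exp_le_exp.2 (by linarith)) (by positivity)
    _ = 5 * X * ((s : ℝ) ^ (QV3T K f).card / V) * Real.exp (-((sg κ K s - η) * t)) := by ring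

end Pool.Agent.Lib.MP_79499b_co.QZ
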