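import Pool.Agent.Lib.MP_79499b_co.QZ.QV3

/-!
# QV4: the sum over the assignments

`sieve_m`: `x` large, `m` normal, `X ≥ exp(L/(C1 LL))`: the number of `n < X` without prime factors `≤ zK` such that no cell `c < K` has a `Pair` for
`m`, `m n`, is at most `5 X (1 + s LL)^K exp(-(sg - η) LL)`.

Proof. For such `n` define `f c = some v` if `c < K` and some `v ∈ US c m` divides `(m n)^s + 1` (choose one), otherwise `none`. It is an assignment and
`Cnd f n` holds: for `f c = some v`, `w ∈ US c m`, `w ≠ v`, `ry x v`, `ry x w` coprime: `w ∤ ∑ (m n)^i` since there is no `Pair`. So the number is at most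
the sum over all functions `f` with `f c ∈ {none} ∪ US c m` for `c < K`, `f c = none` for `c ≥ K`, of `sieve_one`:
`5 X exp(..) ∏_{c<K} (1 + ∑_{v ∈ US c m} s/v) ≤ 5 X exp(..) (1 + s LL)^K` (`Finset.prod_univ_sum` / `Finset.prod_sum`; `US c m ⊆ CW`, `cell_up`).
-/

set_option autoImplicit false

namespace Pool.Agent.Lib.MP_79499b_co.QZ

open Finset DZ
open scoped Classical

/-- the weight of an assigned value -/
private noncomputable def QV4_F (s : ℕ) (o : Option ℕ) : ℝ :=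
  match o with
  | none => (1 : ℝ)
  | some v => (s : ℝ) / v

/-- extension of a dependent function on `range K` by `none` -/
private def QV4_ext (K : ℕ) (g : (c : ℕ) → c ∈ range K → Option ℕ) (c : ℕ) : Option ℕ :=
  if h : c ∈ range K then g c h else none

private theorem QV4_ext_eq (K : ℕ) (g : (c : ℕ) → c ∈ range K → Option ℕ) (c : ℕ)
    (h : c ∈ range K) : QV4_ext K g c = g c h := by
  unfold QV4_ext
  rw [dif_pos h]

/-- the assignments -/
private noncomputable def QV4_S (κ : ℝ) (K D x m : ℕ) :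
    Finset ((c : ℕ) → c ∈ range K → Option ℕ) :=
  (range K).pi (fun c => insertNone (US κ K D x c m))

private theorem QV4_asg (κ : ℝ) (K D x m : ℕ) (g : (c : ℕ) → c ∈ range K → Option ℕ)
    (hg : g ∈ QV4_S κ K D x m) : Asg κ K D x m (QV4_ext K g) := by
  unfold QV4_S at hg
  rw [Finset.mem_pi] at hg
  intro c hc v hv
  rw [QV4_ext_eq K g c (mem_range.2 hc)] at hv
  have h1 := hg c (mem_range.2 hc)
  rw [hv] at h1
  exact some_mem_insertNone.1 h1

private theorem QV4_cover (κ : ℝ) (K D s x m n : ℕ)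
    (h1 : ∀ u : ℕ, u.Prime → u ≤ zK κ K x → ¬ u ∣ n)
    (h2 : ∀ c < K, ¬ Pair κ K D s x c m (m * n)) :
    ∃ g ∈ QV4_S κ K D x m, Cnd κ K D s x m (QV4_ext K g) n := by
  obtain ⟨f0, hf0⟩ : ∃ f0 : ℕ → Option ℕ, ∀ c, (f0 c = none → ∀ w ∈ US κ K D x c m,
      ¬ w ∣ (m * n) ^ s + 1) ∧ ∀ v, f0 c = some v → v ∈ US κ K D x c m ∧
        v ∣ (m * n) ^ s + 1 := by
    have h3 : ∀ c : ℕ, ∃ o : Option ℕ, (o = none → ∀ w ∈ US κ K D x c m,
        ¬ w ∣ (m * n) ^ s + 1) ∧ ∀ v, o = some v → v ∈ US κ K D x c m ∧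
          v ∣ (m * n) ^ s + 1 := by
      intro c
      by_cases h : ∃ v ∈ US κ K D x c m, v ∣ (m * n) ^ s + 1
      · obtain ⟨v, hv, hd⟩ := h
        refine ⟨some v, fun h => ?_, fun v' hv' => ?_⟩
        · exact absurd h (Option.some_ne_none v)
        · obtain rfl := Option.some.inj hv'
          exact ⟨hv, hd⟩
      · refine ⟨none, fun _ w hw hd => h ⟨w, hw, hd⟩, fun v hv => ?_⟩
        exact absurd hv.symm (Option.some_ne_none v)
    choose f0 hf0 using h3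
    exact ⟨f0, hf0⟩
  refine ⟨fun c _ => f0 c, ?_, h1, ?_⟩
  · unfold QV4_S
    rw [Finset.mem_pi]
    intro c _
    rcases ho : f0 c with _ | v
    · exact none_mem_insertNone
    · exact some_mem_insertNone.2 ((hf0 c).2 v ho).1
  · intro c hc
    have he : QV4_ext K (fun c _ => f0 c) c = f0 c := QV4_ext_eq K _ c (mem_range.2 hc)
    rw [he]
    refine ⟨(hf0 c).1, fun v hv => ?_⟩
    obtain ⟨hvU, hvd⟩ := (hf0 c).2 v hv
    refine ⟨hvd, fun w hw hwv hco hwd => ?_⟩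
    exact h2 c hc ⟨v, hvU, w, hw, fun h => hwv h.symm, hco, hvd, hwd⟩

private theorem QV4_sum (κ : ℝ) (K D s x m : ℕ) :
    ∑ g ∈ QV4_S κ K D x m, ∏ c ∈ range K, QV4_F s (QV4_ext K g c) =
      ∏ c ∈ range K, (1 + ∑ v ∈ US κ K D x c m, (s : ℝ) / v) := by
  have h1 : ∏ c ∈ range K, (1 + ∑ v ∈ US κ K D x c m, (s : ℝ) / v) =
      ∏ c ∈ range K, ∑ o ∈ insertNone (US κ K D x c m), QV4_F s o := by
    refine prod_congr rfl fun c _ => ?_
    rw [sum_insertNone]
    rfl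
  rw [h1, Finset.prod_sum]
  unfold QV4_S
  refine sum_congr rfl fun g _ => ?_
  rw [← prod_attach]
  refine prod_congr rfl fun c _ => ?_
  rw [QV4_ext_eq K g c.1 c.2]

theorem sieve_m (κ : ℝ) (hκ : 0 < κ) (hκ1 : κ ≤ 1 / 100) (K D s : ℕ) (hs : 1 ≤ s) (C1 η : ℝ)
    (hC1 : 0 < C1) (hη : 0 < η) : ∃ x0 : ℕ, ∀ x : ℕ, x0 ≤ x → ∀ m : ℕ, Nrm κ K D x m →
      ∀ X : ℕ, Real.exp (Real.log x / (C1 * LL x)) ≤ X →
      cnt X (fun n => (∀ u : ℕ, u.Prime → u ≤ zK κ K x → ¬ u ∣ n) ∧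
        ∀ c < K, ¬ Pair κ K D s x c m (m * n)) ≤
      5 * X * (1 + s * LL x) ^ K * Real.exp (-((sg κ K s - η) * LL x)) := by
  obtain ⟨x1, hx1⟩ := sieve_one κ hκ hκ1 K D s hs C1 η hC1 hη
  obtain ⟨x2, hx2⟩ := cell_up κ hκ hκ1 K
  refine ⟨max x1 x2, fun x hx m hm X hX => ?_⟩
  have g1 := hx1 x ((le_max_left _ _).trans hx) m hm
  have g2 := hx2 x ((le_max_right _ _).trans hx)
  have hsub : ∀ c < K, 1 + ∑ v ∈ US κ K D x c m, (s : ℝ) / v ≤ 1 + s * LL x := by
    intro c hc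
    have h1 : US κ K D x c m ⊆ CW (AC κ K x c) κ := by
      intro w hw
      unfold US at hw
      have h2 := (mem_filter.1 hw).1
      unfold GW at h2
      exact (mem_filter.1 h2).1
    have h3 : ∑ v ∈ US κ K D x c m, (s : ℝ) / v = s * ∑ v ∈ US κ K D x c m, 1 / (v : ℝ) := by
      rw [mul_sum]
      refine sum_congr rfl fun v _ => ?_
      rw [mul_one_div]
    have h4 : ∑ v ∈ US κ K D x c m, 1 / (v : ℝ) ≤ LL x :=
      (sum_le_sum_of_subset_of_nonneg h1 fun w _ _ => by positivity).trans (g2 c hc)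
    rw [h3]
    have h5 := mul_le_mul_of_nonneg_left h4 (Nat.cast_nonneg (α := ℝ) s)
    linarith
  have hnn : ∀ c ∈ range K, 0 ≤ 1 + ∑ v ∈ US κ K D x c m, (s : ℝ) / v := by
    intro c _
    have : 0 ≤ ∑ v ∈ US κ K D x c m, (s : ℝ) / v := sum_nonneg fun v _ => by positivity
    linarith
  calc cnt X (fun n => (∀ u : ℕ, u.Prime → u ≤ zK κ K x → ¬ u ∣ n) ∧
        ∀ c < K, ¬ Pair κ K D s x c m (m * n))
      ≤ cnt X (fun n => ∃ g ∈ QV4_S κ K D x m, Cnd κ K D s x m (QV4_ext K g) n) :=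
        cnt_mono fun n _ h => QV4_cover κ K D s x m n h.1 h.2
    _ ≤ ∑ g ∈ QV4_S κ K D x m, cnt X (Cnd κ K D s x m (QV4_ext K g)) := cnt_exists _ _ _
    _ ≤ ∑ g ∈ QV4_S κ K D x m, 5 * X * (∏ c ∈ range K, QV4_F s (QV4_ext K g c)) *
          Real.exp (-((sg κ K s - η) * LL x)) :=
        sum_le_sum fun g hg => g1 (QV4_ext K g) (QV4_asg κ K D x m g hg) X hX
    _ = 5 * X * (∏ c ∈ range K, (1 + ∑ v ∈ US κ K D x c m, (s : ℝ) / v)) *
          Real.exp (-((sg κ K s - η) * LL x)) := by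
        rw [← sum_mul, ← mul_sum, QV4_sum]
    _ ≤ 5 * X * (1 + s * LL x) ^ K * Real.exp (-((sg κ K s - η) * LL x)) := by
        refine mul_le_mul_of_nonneg_right ?_ (Real.exp_pos _).le
        refine mul_le_mul_of_nonneg_left ?_ (by positivity)
        refine (prod_le_prod hnn fun c hc => hsub c (mem_range.1 hc)).trans (le_of_eq ?_)
        rw [prod_const, card_range]

end Pool.Agent.Lib.MP_79499b_co.QZ
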