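import Pool.Agent.Lib.MP_79499b_co.QZ.QV4

/-!
# QV5: the sum over the cofactors

`sieve_all`: `x` large: the number of `n < x`, `n = m p`, `p > exp(L/(C1 LL))` prime, `m` normal, without `Pair` in the cells `c < K`, is at most
`x exp(-(sg - 1 - η) LL)`.

Proof. For fixed `m ≥ 1` the `p` satisfy `p < X := x/m + 1` (natural division), `X ≥ p > exp(L/(C1 LL))` if there is such a `p`, and `X ≤ 2x/m`
(`m ≤ x`); `p > exp(L/(C1 LL)) > zK` for large `x` is prime, so it has no prime factor `≤ zK`. `sieve_m` with `η/2`, sum over `1 ≤ m < x`: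
`∑ 1/m ≤ 1 + L ≤ 2 exp(LL)`: at most `20 x (1 + s LL)^K exp(-(sg - 1 - η/2) LL) ≤ x exp(-(sg - 1 - η) LL)`.
-/

set_option autoImplicit false

namespace Pool.Agent.Lib.MP_79499b_co.QZ

open Finset DZ
open scoped Classical

private theorem QV5_harm (N : ℕ) : ∑ a ∈ Icc 1 N, (1 : ℝ) / a ≤ 1 + Real.log N := by
  have h := harmonic_le_one_add_log N
  rw [harmonic_eq_sum_Icc] at h
  push_cast at h
  simpa [one_div] using h

private theorem QV5_num (s K : ℕ) (η : ℝ) (hη : 0 < η) : ∃ T : ℝ, ∀ t : ℝ, T ≤ t →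
    20 * (1 + s * t) ^ K ≤ Real.exp (η * t / 2) := by
  have h1 := (Real.tendsto_exp_div_pow_atTop K)
  have hc : 0 < 2 / η := by positivity
  have h2 : Filter.Tendsto (fun t : ℝ => η / 2 * t) Filter.atTop Filter.atTop :=
    Filter.Tendsto.const_mul_atTop (by positivity) Filter.tendsto_id
  have h3 := (h1.comp h2).eventually_ge_atTop (20 * (((s : ℝ) + 1) * (2 / η)) ^ K)
  obtain ⟨T, hT⟩ := Filter.eventually_atTop.mp (h3.and (Filter.eventually_ge_atTop (1 : ℝ)))
  refine ⟨T, fun t ht => ?_⟩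
  obtain ⟨h4, h5⟩ := hT t ht
  simp only [Function.comp] at h4
  have h6 : 0 < (η / 2 * t) ^ K := by positivity
  rw [le_div_iff₀ h6] at h4
  have h7 : 20 * (((s : ℝ) + 1) * (2 / η)) ^ K * (η / 2 * t) ^ K =
      20 * (((s : ℝ) + 1) * t) ^ K := by
    rw [mul_assoc, ← mul_pow]
    congr 2
    field_simp
  rw [h7] at h4
  have h8 : (1 + (s : ℝ) * t) ^ K ≤ (((s : ℝ) + 1) * t) ^ K := by
    refine pow_le_pow_left₀ (by positivity) ?_ K
    linarith
  have h9 : η / 2 * t = η * t / 2 := by ring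
  rw [h9] at h4
  linarith

private theorem QV5_AC (κ : ℝ) (hκ : 0 < κ) (K : ℕ) (C1 : ℝ) (hC1 : 0 < C1) (T : ℝ) : ∃ x0 : ℕ,
    ∀ x : ℕ, x0 ≤ x → 3 ≤ x ∧ 1 ≤ Real.log x ∧ T ≤ LL x ∧
      AC κ K x K ≤ Real.log x / (C1 * LL x) := by
  have hδ : 0 < 8 * κ / (1 + 8 * κ) := by positivity
  have h1 := (isLittleO_log_rpow_atTop hδ).bound (c := 1 / C1) (by positivity)
  obtain ⟨x1, hx1⟩ := Filter.eventually_atTop.mp (log_tend.eventually h1)
  obtain ⟨x2, hx2⟩ := Filter.eventually_atTop.mp (LL_tend.eventually_ge_atTop (max T 1))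
  obtain ⟨x3, hx3⟩ := Filter.eventually_atTop.mp (log_tend.eventually_ge_atTop 1)
  refine ⟨max 3 (max x1 (max x2 x3)), fun x hx => ?_⟩
  simp only [max_le_iff] at hx
  have g1 := hx1 x hx.2.1
  obtain ⟨g2, g2'⟩ := max_le_iff.mp (hx2 x hx.2.2.1)
  have g3 := hx3 x hx.2.2.2
  refine ⟨hx.1, g3, g2, ?_⟩
  have hL0 : 0 < Real.log x := by linarith
  rw [(AC_top κ hκ K x K hx.1).1]
  have hLL0 : 0 < LL x := by linarith
  rw [le_div_iff₀ (by positivity)]
  have g4 : LL x ≤ 1 / C1 * Real.log x ^ (8 * κ / (1 + 8 * κ)) := by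
    have g5 : ‖Real.log (Real.log x)‖ = LL x := by
      rw [Real.norm_of_nonneg]
      · rfl
      · exact hLL0.le
    rw [g5, Real.norm_of_nonneg (Real.rpow_nonneg hL0.le _)] at g1
    exact g1
  have g6 : C1 * LL x ≤ Real.log x ^ (8 * κ / (1 + 8 * κ)) := by
    have := mul_le_mul_of_nonneg_left g4 hC1.le
    rwa [← mul_assoc, mul_one_div_cancel hC1.ne', one_mul] at this
  calc Real.log x ^ (1 / (1 + 8 * κ)) * (C1 * LL x) ≤
        Real.log x ^ (1 / (1 + 8 * κ)) * Real.log x ^ (8 * κ / (1 + 8 * κ)) :=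
        mul_le_mul_of_nonneg_left g6 (Real.rpow_nonneg hL0.le _)
    _ = Real.log x := by
        rw [← Real.rpow_add hL0]
        have : 1 / (1 + 8 * κ) + 8 * κ / (1 + 8 * κ) = 1 := by
          field_simp
        rw [this, Real.rpow_one]

private theorem QV5_cnt {x X : ℕ} {P Q : ℕ → Prop} (g : ℕ → ℕ)
    (h1 : ∀ n < x, P n → g n < X ∧ Q (g n))
    (h2 : ∀ n < x, P n → ∀ n' < x, P n' → g n = g n' → n = n') : cnt x P ≤ cnt X Q := by
  unfold cnt
  refine Nat.cast_le.mpr (card_le_card_of_injOn g ?_ ?_)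
  · intro n hn
    rw [mem_coe, mem_filter, mem_range] at hn ⊢
    exact h1 n hn.1 hn.2
  · intro n hn n' hn' h
    rw [mem_coe, mem_filter, mem_range] at hn hn'
    exact h2 n hn.1 hn.2 n' hn'.1 hn'.2 h

theorem sieve_all (κ : ℝ) (hκ : 0 < κ) (hκ1 : κ ≤ 1 / 100) (K D s : ℕ) (hs : 1 ≤ s) (C1 η : ℝ)
    (hC1 : 0 < C1) (hη : 0 < η) : ∃ x0 : ℕ, ∀ x : ℕ, x0 ≤ x →
      cnt x (fun n => ∃ m p : ℕ, n = m * p ∧ p.Prime ∧
        Real.exp (Real.log x / (C1 * LL x)) < p ∧ Nrm κ K D x m ∧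
        ∀ c < K, ¬ Pair κ K D s x c m n) ≤ x * Real.exp (-((sg κ K s - 1 - η) * LL x)) := by
  obtain ⟨x1, hx1⟩ := sieve_m κ hκ hκ1 K D s hs C1 (η / 2) hC1 (by positivity)
  obtain ⟨T, hT⟩ := QV5_num s K η hη
  obtain ⟨x2, hx2⟩ := QV5_AC κ hκ K C1 hC1 (max T 0)
  refine ⟨max x1 x2, fun x hx => ?_⟩
  have g1 := hx1 x ((le_max_left _ _).trans hx)
  obtain ⟨h3, hL1, hTt, hAC⟩ := hx2 x ((le_max_right _ _).trans hx)
  obtain ⟨hTt, ht0⟩ := max_le_iff.mp hTt
  have hnum := hT (LL x) hTt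
  set t := LL x with ht
  set Y := Real.exp (Real.log x / (C1 * t)) with hY
  set B : ℝ := (1 + s * t) ^ K * Real.exp (-((sg κ K s - η / 2) * t)) with hB
  have hB0 : 0 ≤ B := by positivity
  have hx0 : (0 : ℝ) < x := by
    have : 0 < x := by omega
    exact_mod_cast this
  -- one cofactor
  have hone : ∀ m ∈ Icc 1 x, cnt x (fun n => ∃ p : ℕ, n = m * p ∧ p.Prime ∧ Y < p ∧
      Nrm κ K D x m ∧ ∀ c < K, ¬ Pair κ K D s x c m n) ≤ 10 * x * B * (1 / (m : ℝ)) := by
    intro m hm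
    rw [mem_Icc] at hm
    have hm0 : (0 : ℝ) < m := by exact_mod_cast hm.1
    set F := (range x).filter (fun n => ∃ p : ℕ, n = m * p ∧ p.Prime ∧ Y < p ∧
      Nrm κ K D x m ∧ ∀ c < K, ¬ Pair κ K D s x c m n) with hF
    rcases Finset.eq_empty_or_nonempty F with h0 | h0
    · have : cnt x (fun n => ∃ p : ℕ, n = m * p ∧ p.Prime ∧ Y < p ∧
          Nrm κ K D x m ∧ ∀ c < K, ¬ Pair κ K D s x c m n) = 0 := by
        unfold cnt
        rw [← hF, h0, card_empty, Nat.cast_zero]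
      rw [this]
      positivity
    · obtain ⟨n0, hn0⟩ := h0
      rw [hF, mem_filter, mem_range] at hn0
      obtain ⟨hn0x, p0, hnp0, hp0, hYp0, hNrm, -⟩ := hn0
      set X := x / m + 1 with hX
      have hdiv : ∀ n p : ℕ, n < x → n = m * p → p < X := by
        intro n p hn hnp
        have h1 : n / m = p := by
          rw [hnp]
          exact Nat.mul_div_cancel_left p (by omega)
        have h2 : n / m ≤ x / m := Nat.div_le_div_right hn.le
        omega
      have hYX : Y ≤ X := by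
        have h1 := hdiv n0 p0 hn0x hnp0
        have h2 : (p0 : ℝ) ≤ X := by exact_mod_cast h1.le
        linarith
      have h1 := g1 m hNrm X hYX
      have h2 : cnt x (fun n => ∃ p : ℕ, n = m * p ∧ p.Prime ∧ Y < p ∧
          Nrm κ K D x m ∧ ∀ c < K, ¬ Pair κ K D s x c m n) ≤
          cnt X (fun n => (∀ u : ℕ, u.Prime → u ≤ zK κ K x → ¬ u ∣ n) ∧
            ∀ c < K, ¬ Pair κ K D s x c m (m * n)) := by
        refine QV5_cnt (fun n => n / m) ?_ ?_
        · rintro n hnx ⟨p, hnp, hp, hYp, -, hpair⟩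
          have h3 : n / m = p := by
            rw [hnp]
            exact Nat.mul_div_cancel_left p (by omega)
          rw [h3]
          refine ⟨hdiv n p hnx hnp, ?_, ?_⟩
          · intro u hu huz hup
            have h4 : u = p := (Nat.prime_dvd_prime_iff_eq hu hp).mp hup
            have h5 : ((zK κ K x : ℕ) : ℝ) ≤ Real.exp (AC κ K x K) :=
              Nat.floor_le (Real.exp_pos _).le
            have h6 : Real.exp (AC κ K x K) ≤ Y := Real.exp_le_exp.mpr hAC
            have h7 : (u : ℝ) ≤ ((zK κ K x : ℕ) : ℝ) := by exact_mod_cast huz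
            rw [h4] at h7
            linarith
          · rw [← hnp]
            exact hpair
        · rintro n - ⟨p, hnp, -⟩ n' - ⟨p', hnp', -⟩ h
          have h3 : n / m = p := by
            rw [hnp]
            exact Nat.mul_div_cancel_left p (by omega)
          have h4 : n' / m = p' := by
            rw [hnp']
            exact Nat.mul_div_cancel_left p' (by omega)
          have h5 : n / m = n' / m := h
          rw [h3, h4] at h5
          rw [hnp, hnp', h5]
      refine h2.trans (h1.trans ?_)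
      have h3 : (X : ℝ) ≤ 2 * x * (1 / (m : ℝ)) := by
        have h4 : ((x / m : ℕ) : ℝ) ≤ (x : ℝ) / m := Nat.cast_div_le
        have h5 : (1 : ℝ) ≤ (x : ℝ) / m := by
          rw [le_div_iff₀ hm0, one_mul]
          exact_mod_cast hm.2
        rw [hX]
        push_cast
        have h6 : 2 * (x : ℝ) * (1 / (m : ℝ)) = (x : ℝ) / m + (x : ℝ) / m := by ring
        rw [h6]
        exact add_le_add h4 h5
      calc 5 * (X : ℝ) * (1 + s * t) ^ K * Real.exp (-((sg κ K s - η / 2) * t)) =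
            5 * (X : ℝ) * B := by
            rw [hB]
            ring
        _ ≤ 5 * (2 * x * (1 / (m : ℝ))) * B := by
            refine mul_le_mul_of_nonneg_right ?_ hB0
            linarith
        _ = 10 * x * B * (1 / (m : ℝ)) := by ring
  have hcover : cnt x (fun n => ∃ m p : ℕ, n = m * p ∧ p.Prime ∧ Y < p ∧ Nrm κ K D x m ∧
        ∀ c < K, ¬ Pair κ K D s x c m n) ≤
      cnt x (fun n => ∃ m ∈ Icc 1 x, ∃ p : ℕ, n = m * p ∧ p.Prime ∧ Y < p ∧
      Nrm κ K D x m ∧ ∀ c < K, ¬ Pair κ K D s x c m n) := by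
    refine cnt_mono fun n hnx hn => ?_
    obtain ⟨m, p, hnp, hp, hYp, hNrm, hpair⟩ := hn
    refine ⟨m, ?_, p, hnp, hp, hYp, hNrm, hpair⟩
    rw [mem_Icc]
    refine ⟨Nat.pos_of_ne_zero hNrm.1, ?_⟩
    have : m * 1 ≤ m * p := Nat.mul_le_mul_left m hp.one_lt.le
    omega
  refine hcover.trans ((cnt_exists x (Icc 1 x) _).trans ((sum_le_sum hone).trans ?_))
  rw [← mul_sum]
  have hh := QV5_harm x
  have h10 : 0 ≤ 10 * (x : ℝ) * B := by positivity
  refine (mul_le_mul_of_nonneg_left hh h10).trans ?_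
  have hexp : Real.log x = Real.exp t := by
    rw [ht]
    unfold LL
    rw [Real.exp_log (by linarith)]
  have h11 : 1 + Real.log x ≤ 2 * Real.exp t := by
    rw [← hexp]
    linarith
  calc 10 * (x : ℝ) * B * (1 + Real.log x) ≤ 10 * (x : ℝ) * B * (2 * Real.exp t) :=
        mul_le_mul_of_nonneg_left h11 h10
    _ = x * ((20 * (1 + s * t) ^ K) * (Real.exp (-((sg κ K s - η / 2) * t)) * Real.exp t)) := by
        rw [hB]
        ring
    _ ≤ x * (Real.exp (η * t / 2) * (Real.exp (-((sg κ K s - η / 2) * t)) * Real.exp t)) := by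
        refine mul_le_mul_of_nonneg_left ?_ hx0.le
        exact mul_le_mul_of_nonneg_right hnum (by positivity)
    _ = x * Real.exp (-((sg κ K s - 1 - η) * t)) := by
        rw [← Real.exp_add, ← Real.exp_add]
        congr 2
        ring

end Pool.Agent.Lib.MP_79499b_co.QZ
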