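import Pool.Agent.Lib.MP_79499b_co.DZ.NLS
import Pool.Agent.Lib.MP_79499b_co.DZ.LT
import Pool.Agent.Lib.MP_79499b_co.DZ.LSz
import Pool.Agent.Lib.MP_79499b_co.QZ.QS5

/-!
# QX1: large sieve for a subset `E` of the primes of `(P, 2P]`

`ew E x`: the exceptional conductors for `E`: some primitive character mod `w` has `|∑_{q ∈ E} χ q| ≥ |E|/L^3`, `L = log x`.
`exc_w_sum`: `8 (B + 8) ≤ D`, `x` large, `zD D x ≤ 2 P`, `P ≤ x`, `E ⊆ Bl P`, `|E| ≥ P/L^B`: `∑ 1/w ≤ exp(-AC 0/2)` over the `w ∈ ew`,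
`exp (AC 0) < w ≤ exp (AC K)`.

Proof. Fix `k` with `exp(AC 0) < 2^(k+1)`, `2^k ≤ exp(AC K)`. The exceptional `w ≤ 2^(k+1)`: `exc_card` (NLS.lean) with `Z = 2^(k+1)`, `Q = 2P`,
`B := E` (nonempty, since `P ≥ 1`), `η = L^(-3)`, `j = ⌈2 (k+1) log 2/log(2P)⌉` (`j ≥ 1`, `(2P)^j ≥ 2^(2(k+1)) = Z^2`): at most
`12 (2P)^j j!/(L^(-6j) |E|^j) ≤ 12 (2 j L^(B+6))^j ≤ 12 L^((B+7) j)`, because `|E| ≥ P/L^B` and `2 j ≤ L` (`k + 1 ≤ 2 AC K + 1`, and
`AC K = L^(1/(1+8κ))` is much smaller than `L`). `log(2P) ≥ log zD ≥ D LL - 1 ≥ (D - 1) LL` (`zD ≥ L^D - 1`), so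
`(B+7) LL j ≤ (B+7) LL + 2 (B+7) (k+1) log 2/(D-1) ≤ (B+7) LL + (k+1) log 2/3`. So the number is at most `12 L^(B+7) 2^((k+1)/3)`.
Each `w` lies in `(2^k, 2^(k+1)]` for `k = log2 (w-1)`, `1/w ≤ 2^(-k)`. The sum over `k` with `2^(k+1) > exp(AC 0)` of
`12 L^(B+7) 2^((k+1)/3) 2^(-k)` is a geometric sum, at most `200 L^(B+7) exp(-2 AC 0/3) ≤ exp(-AC 0/2)` for large `x`
(`AC 0 = L^(ex 0)`, `LL ≤ AC 0/(100 (B+7))` eventually).
(Compare DZ/LW.lean, where the same is done for another set.)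
-/

set_option autoImplicit false

namespace Pool.Agent.Lib.MP_79499b_co.QZ

open Finset DZ
open scoped Classical

/-- exceptional conductors for the set `E` -/
noncomputable def ew (κ : ℝ) (K x : ℕ) (E : Finset ℕ) : Finset ℕ :=
  (Icc 1 ⌊Real.exp (AC κ K x K)⌋₊).filter (fun w => Real.exp (AC κ K x 0) < w ∧
    ∃ χ : DirichletCharacter ℂ w, χ.IsPrimitive ∧
      (E.card : ℝ) / Real.log x ^ 3 ≤ ‖∑ q ∈ E, χ (q : ZMod w)‖)

/-- the number of exceptional conductors up to `2^(k+1)` -/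
private theorem x1_count (B D : ℕ) (hD : 8 * (B + 8) ≤ D) {L a : ℝ} (hL : 100 ≤ L)
    (haL : a ≤ 1 / 100 * L) (P k : ℕ) (hP : L ^ (D - 1) ≤ 2 * (P : ℝ)) (hk : (2 : ℝ) ^ k ≤ Real.exp a)
    (E : Finset ℕ) (hE : E ⊆ Bl P) (hEc : (P : ℝ) / L ^ B ≤ E.card) (F : Finset ℕ)
    (hF : ∀ W ∈ F, 1 ≤ W ∧ W ≤ 2 ^ (k + 1) ∧ ∃ χ : DirichletCharacter ℂ W, χ.IsPrimitive ∧
      (E.card : ℝ) / L ^ 3 ≤ ‖∑ q ∈ E, χ (q : ZMod W)‖) :
    (F.card : ℝ) ≤ 12 * (L ^ (B + 7) * Real.exp (((k : ℝ) + 1) * Real.log 2 / 4)) := by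
  have hL0 : 0 < L := by linarith
  have hl2 := Real.log_two_gt_d9
  have hl2' := Real.log_two_lt_d9
  obtain ⟨u, hu⟩ : ∃ u : ℝ, u = Real.log L := ⟨_, rfl⟩
  have hexpu : Real.exp u = L := by rw [hu, Real.exp_log hL0]
  have hu1 : 1 ≤ u := by
    rw [hu, Real.le_log_iff_exp_le hL0]
    have := Real.exp_one_lt_d9
    linarith
  have hLD : 1 ≤ L ^ (D - 1) := one_le_pow₀ (by linarith)
  have hP0 : (0 : ℝ) < P := by linarith
  obtain ⟨M, hM⟩ : ∃ M : ℝ, M = Real.log (2 * (P : ℝ)) := ⟨_, rfl⟩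
  have hexpM : Real.exp M = 2 * P := by rw [hM, Real.exp_log (by linarith)]
  have hM1 : (8 * (B : ℝ) + 63) * u ≤ M := by
    have h1 := Real.log_le_log (by positivity) hP
    rw [Real.log_pow, ← hM, ← hu] at h1
    refine le_trans (mul_le_mul_of_nonneg_right ?_ (by linarith)) h1
    have h2 : 8 * B + 63 ≤ D - 1 := by omega
    exact_mod_cast h2
  have hB0 : (0 : ℝ) ≤ B := Nat.cast_nonneg B
  have hk0 : (0 : ℝ) ≤ k := Nat.cast_nonneg k
  have hM63 : 63 ≤ M := by nlinarith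
  have hM0 : 0 < M := by linarith
  obtain ⟨t, ht⟩ : ∃ t : ℝ, t = 2 * (((k : ℝ) + 1) * Real.log 2) := ⟨_, rfl⟩
  have ht0 : 0 ≤ t := by rw [ht]; positivity
  obtain ⟨j, hj⟩ : ∃ j : ℕ, j = ⌈t / M⌉₊ := ⟨_, rfl⟩
  have hj1 : t ≤ j * M := by
    have := Nat.le_ceil (t / M)
    rw [← hj, div_le_iff₀ hM0] at this
    exact this
  have hj2 : (j : ℝ) ≤ t / M + 1 := by
    rw [hj]
    exact (Nat.ceil_lt_add_one (by positivity)).le
  -- sizes
  have hkL : ((k : ℝ) + 1) * Real.log 2 ≤ 1 / 100 * L + 1 := by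
    have h1 := Real.log_le_log (by positivity) hk
    rw [Real.log_exp, Real.log_pow] at h1
    linarith
  have hj3 : 2 * (j : ℝ) ≤ L := by
    have h1 : t / M ≤ t := by
      apply div_le_self ht0
      linarith
    rw [ht] at h1 hj2
    linarith
  have hne : E.Nonempty := by
    rw [← card_pos]
    have h1 : 0 < (P : ℝ) / L ^ B := by positivity
    have h2 : (0 : ℝ) < E.card := by linarith
    exact_mod_cast h2
  have hEc0 : (0 : ℝ) < E.card := by exact_mod_cast hne.card_pos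
  have h1 := exc_card (2 ^ (k + 1)) (2 * P) j E
    (fun q hq => ⟨(mem_Bl.1 (hE hq)).2, (mem_Bl.1 (hE hq)).1.2⟩) hne ((L ^ 3)⁻¹) (by positivity) F
    (fun W hW => by
      obtain ⟨h1, h2, χ, h3, h4⟩ := hF W hW
      refine ⟨h1, h2, χ, h3, ?_⟩
      rw [inv_mul_eq_div]
      exact h4)
  refine h1.trans ?_
  have hZ : (((2 ^ (k + 1) : ℕ) : ℝ)) ^ 2 ≤ ((2 * P : ℕ) : ℝ) ^ j := by
    push_cast
    rw [← hexpM, ← Real.exp_nat_mul]
    have h2 : ((2 : ℝ) ^ (k + 1)) ^ 2 = Real.exp t := by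
      rw [← pow_mul, ht, ← Real.exp_log (show (0 : ℝ) < 2 ^ ((k + 1) * 2) by positivity), Real.log_pow]
      congr 1
      push_cast
      ring
    rw [h2]
    exact Real.exp_le_exp.2 hj1
  have h2 : 6 * (((2 * P : ℕ) : ℝ) ^ j + (((2 ^ (k + 1) : ℕ) : ℝ)) ^ 2) * (j.factorial : ℝ) /
      (((L ^ 3)⁻¹) ^ (2 * j) * (E.card : ℝ) ^ j) ≤ 12 * (L ^ (B + 7)) ^ j := by
    rw [div_le_iff₀ (by positivity)]
    have hjfac : (j.factorial : ℝ) ≤ (j : ℝ) ^ j := by exact_mod_cast Nat.factorial_le_pow j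
    have h3 : 6 * (((2 * P : ℕ) : ℝ) ^ j + (((2 ^ (k + 1) : ℕ) : ℝ)) ^ 2) * (j.factorial : ℝ) ≤
        12 * ((2 * P : ℕ) : ℝ) ^ j * (j : ℝ) ^ j := by
      refine mul_le_mul ?_ hjfac (by positivity) (by positivity)
      linarith
    refine h3.trans ?_
    have h4 : 12 * ((2 * P : ℕ) : ℝ) ^ j * (j : ℝ) ^ j = 12 * ((2 * (j : ℝ)) * P) ^ j := by
      rw [mul_assoc, ← mul_pow]
      push_cast
      ring_nf
    have h5 : 12 * (L ^ (B + 7)) ^ j * (((L ^ 3)⁻¹) ^ (2 * j) * (E.card : ℝ) ^ j) =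
        12 * (L * (L ^ B * E.card)) ^ j := by
      have h6 : (L ^ (B + 7)) * (((L ^ 3)⁻¹) ^ 2 * (E.card : ℝ)) = L * (L ^ B * E.card) := by
        rw [pow_add]
        field_simp
      rw [← h6, mul_pow, mul_pow, ← pow_mul ((L ^ 3)⁻¹), mul_assoc]
    rw [h4, h5]
    refine mul_le_mul_of_nonneg_left (pow_le_pow_left₀ (by positivity) ?_ j) (by norm_num)
    have h6 : (P : ℝ) ≤ L ^ B * E.card := by
      rw [div_le_iff₀ (by positivity)] at hEc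
      linarith
    exact mul_le_mul hj3 h6 hP0.le hL0.le
  refine h2.trans ?_
  refine mul_le_mul_of_nonneg_left ?_ (by norm_num)
  have h3 : (L ^ (B + 7)) ^ j = Real.exp (((B : ℝ) + 7) * (j * u)) := by
    rw [← pow_mul, ← hexpu, ← Real.exp_nat_mul]
    congr 1
    push_cast
    ring
  have h4 : L ^ (B + 7) = Real.exp (((B : ℝ) + 7) * u) := by
    rw [← hexpu, ← Real.exp_nat_mul]
    congr 1
    push_cast
    ring
  rw [h3, h4, ← Real.exp_add]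
  apply Real.exp_le_exp.2
  have h5 : (j : ℝ) * u ≤ (t / M + 1) * u := mul_le_mul_of_nonneg_right hj2 (by linarith)
  have h6 : ((B : ℝ) + 7) * (t / M * u) ≤ ((k : ℝ) + 1) * Real.log 2 / 4 := by
    have h7 : ((B : ℝ) + 7) * (t / M * u) = t * (((B : ℝ) + 7) * u) / M := by ring
    rw [h7, div_le_iff₀ hM0]
    have h8 : 8 * (((B : ℝ) + 7) * u) ≤ M := by
      refine le_trans ?_ hM1
      nlinarith
    have h9 : ((k : ℝ) + 1) * Real.log 2 = t / 2 := by rw [ht]; ring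
    rw [h9]
    nlinarith
  have h7 : ((B : ℝ) + 7) * (j * u) ≤ ((B : ℝ) + 7) * ((t / M + 1) * u) :=
    mul_le_mul_of_nonneg_left h5 (by linarith)
  have h8 : ((B : ℝ) + 7) * ((t / M + 1) * u) = ((B : ℝ) + 7) * (t / M * u) + ((B : ℝ) + 7) * u := by
    ring
  linarith

theorem exc_w_sum (κ : ℝ) (hκ : 0 < κ) (hκ1 : κ ≤ 1 / 100) (K B D : ℕ) (hK : 1 ≤ K)
    (hD : 8 * (B + 8) ≤ D) : ∃ x0 : ℕ, ∀ x : ℕ, x0 ≤ x → ∀ P : ℕ, zD D x ≤ 2 * P → P ≤ x →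
      ∀ E : Finset ℕ, E ⊆ Bl P → (P : ℝ) / Real.log x ^ B ≤ E.card →
      ∑ w ∈ ew κ K x E, 1 / (w : ℝ) ≤ Real.exp (-(AC κ K x 0 / 2)) := by
  obtain ⟨s, hs⟩ : ∃ s : ℝ, s = ((1 + 8 * κ) * (1 + κ) ^ K) * ((B + 8 : ℕ) : ℝ) := ⟨_, rfl⟩
  have E1 : ∀ᶠ x : ℕ in Filter.atTop, 100 ≤ Real.log (x : ℝ) := log_tend.eventually_ge_atTop 100
  have E2 : ∀ᶠ x : ℕ in Filter.atTop, Real.log (x : ℝ) ^ (1 / (1 + 8 * κ)) ≤
      1 / 100 * Real.log (x : ℝ) ^ (1 : ℝ) :=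
    rpow_small (by rw [div_lt_one (by positivity)]; linarith) (by norm_num)
  have E3 : ∀ᶠ x : ℕ in Filter.atTop, 24 ≤ Real.exp (1 / 4 * AC κ K x 0) / AC κ K x 0 ^ s :=
    ((tendsto_exp_mul_div_rpow_atTop s (1 / 4) (by norm_num)).comp
      (AC_tend κ hκ K 0)).eventually_ge_atTop 24
  obtain ⟨x0, hx0⟩ := Filter.eventually_atTop.1 (E1.and (E2.and E3))
  refine ⟨max x0 3, fun x hx P hP hPx E hE hEc => ?_⟩
  obtain ⟨hL, hK1, hexp⟩ := hx0 x ((le_max_left _ _).trans hx)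
  have hx3 : 3 ≤ x := (le_max_right _ _).trans hx
  obtain ⟨haK, -⟩ := AC_top κ hκ K x 0 hx3
  rw [← haK, Real.rpow_one] at hK1
  obtain ⟨ha1, -⟩ := AC_mono κ hκ K x hx3 0 K (Nat.zero_le K)
  have hK0 := AC_K0 κ hκ K x 0 hx3
  obtain ⟨L, hLdef⟩ : ∃ L : ℝ, L = Real.log (x : ℝ) := ⟨_, rfl⟩
  obtain ⟨a0, ha0⟩ : ∃ a0 : ℝ, a0 = AC κ K x 0 := ⟨_, rfl⟩
  obtain ⟨aK, haKd⟩ : ∃ aK : ℝ, aK = AC κ K x K := ⟨_, rfl⟩
  have hmem : ∀ w, w ∈ ew κ K x E → 1 ≤ w ∧ Real.exp a0 < w ∧ w ≤ ⌊Real.exp aK⌋₊ ∧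
      ∃ χ : DirichletCharacter ℂ w, χ.IsPrimitive ∧
        (E.card : ℝ) / L ^ 3 ≤ ‖∑ q ∈ E, χ (q : ZMod w)‖ := by
    intro w hw
    unfold ew at hw
    have h1 := mem_filter.1 hw
    rw [mem_Icc] at h1
    rw [ha0, haKd, hLdef]
    exact ⟨h1.1.1, h1.2.1, h1.1.2, h1.2.2⟩
  rw [← hLdef] at hL hK1 hK0 hEc
  rw [← ha0] at hexp ha1 hK0 ⊢
  rw [← haKd] at hK1
  have hL0 : 0 < L := by linarith
  have hl2 := Real.log_two_gt_d9
  have hPL : L ^ (D - 1) ≤ 2 * (P : ℝ) := by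
    have h1 : L ^ D < (zD D x : ℝ) + 1 := by
      unfold zD
      rw [← hLdef]
      exact Nat.lt_floor_add_one _
    have h2 : (zD D x : ℝ) ≤ 2 * P := by exact_mod_cast hP
    have h3 : L ^ D = L * L ^ (D - 1) := by
      rw [← pow_succ']
      congr 1
      omega
    have h4 : 1 ≤ L ^ (D - 1) := one_le_pow₀ (by linarith)
    nlinarith
  obtain ⟨K', hK'⟩ : ∃ K' : ℕ, K' = Nat.log 2 ⌊Real.exp aK⌋₊ := ⟨_, rfl⟩
  obtain ⟨KK, hKK⟩ : ∃ KK : Finset ℕ, KK = (range (K' + 1)).filter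
    (fun k => Real.exp a0 < (2 : ℝ) ^ (k + 1)) := ⟨_, rfl⟩
  rcases (ew κ K x E).eq_empty_or_nonempty with hemp | hnon
  · rw [hemp, sum_empty]
    positivity
  have hf : ⌊Real.exp aK⌋₊ ≠ 0 := by
    obtain ⟨w, hw⟩ := hnon
    obtain ⟨h1, -, h2, -⟩ := hmem w hw
    omega
  have hpowK : ∀ k ∈ KK, (2 : ℝ) ^ k ≤ Real.exp aK := by
    intro k hk
    rw [hKK, mem_filter, mem_range] at hk
    have h1 : 2 ^ k ≤ ⌊Real.exp aK⌋₊ := (Nat.pow_le_pow_right (by norm_num) (by omega)).trans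
      (Nat.pow_log_le_self 2 hf)
    have h2 : ((2 ^ k : ℕ) : ℝ) ≤ Real.exp aK := (by exact_mod_cast h1 :
      ((2 ^ k : ℕ) : ℝ) ≤ ⌊Real.exp aK⌋₊).trans (Nat.floor_le (Real.exp_pos _).le)
    exact_mod_cast h2
  have hcardK : (KK.card : ℝ) ≤ L := by
    have h1 : KK.card ≤ K' + 1 := by
      rw [hKK]
      refine (card_filter_le _ _).trans ?_
      rw [card_range]
    have h2 : (K' : ℝ) * Real.log 2 ≤ aK := by
      have h4 : ((2 ^ K' : ℕ) : ℝ) ≤ Real.exp aK := by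
        rw [hK']
        exact (by exact_mod_cast Nat.pow_log_le_self 2 hf :
          ((2 ^ Nat.log 2 ⌊Real.exp aK⌋₊ : ℕ) : ℝ) ≤ ⌊Real.exp aK⌋₊).trans
          (Nat.floor_le (Real.exp_pos _).le)
      have h5 := Real.log_le_log (by positivity) h4
      rw [Real.log_exp] at h5
      push_cast at h5
      rwa [Real.log_pow] at h5
    have h3 : (KK.card : ℝ) ≤ K' + 1 := by exact_mod_cast h1
    have h4 : (0 : ℝ) ≤ K' := Nat.cast_nonneg K'
    nlinarith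
  -- the pointwise bound
  have h1 : ∀ w ∈ ew κ K x E, 1 / (w : ℝ) ≤ ∑ k ∈ KK,
      (if w ≤ 2 ^ (k + 1) then ((2 : ℝ) ^ k)⁻¹ else 0) := by
    intro w hw
    obtain ⟨hw0, hw1, hw2, -⟩ := hmem w hw
    have hw2' : 2 ≤ w := by
      have h3 : (1 : ℝ) < w := by
        have : 1 ≤ Real.exp a0 := Real.one_le_exp (by linarith)
        linarith
      exact_mod_cast h3
    obtain ⟨k, hk⟩ : ∃ k : ℕ, k = Nat.log 2 (w - 1) := ⟨_, rfl⟩
    have h3 := Nat.pow_log_le_self 2 (show w - 1 ≠ 0 by omega)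
    have h4 := Nat.lt_pow_succ_log_self (b := 2) (by norm_num) (w - 1)
    rw [← hk] at h3 h4
    have hwk : w ≤ 2 ^ (k + 1) := by
      have : w - 1 < 2 ^ (k + 1) := h4
      omega
    have hkK : k ∈ KK := by
      rw [hKK, mem_filter, mem_range]
      constructor
      · rw [hk, hK']
        refine Nat.lt_succ_of_le (Nat.log_mono_right ?_)
        omega
      · refine hw1.trans_le ?_
        exact_mod_cast hwk
    have h5 : (if w ≤ 2 ^ (k + 1) then ((2 : ℝ) ^ k)⁻¹ else 0) ≤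
        ∑ k ∈ KK, (if w ≤ 2 ^ (k + 1) then ((2 : ℝ) ^ k)⁻¹ else 0) :=
      single_le_sum (f := fun k => if w ≤ 2 ^ (k + 1) then ((2 : ℝ) ^ k)⁻¹ else 0)
        (fun k _ => by positivity) hkK
    refine le_trans ?_ h5
    rw [if_pos hwk, one_div]
    apply inv_anti₀ (by positivity)
    have : 2 ^ k ≤ w := by omega
    exact_mod_cast this
  refine (sum_le_sum h1).trans ?_
  rw [sum_comm]
  have h2 : ∀ k ∈ KK, ∑ w ∈ ew κ K x E, (if w ≤ 2 ^ (k + 1) then ((2 : ℝ) ^ k)⁻¹ else 0) ≤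
      24 * (L ^ (B + 7) * Real.exp (-(3 / 4 * a0))) := by
    intro k hk
    have hkm := hpowK k hk
    rw [hKK, mem_filter, mem_range] at hk
    rw [← sum_filter, sum_const, nsmul_eq_mul]
    have h4 := x1_count B D hD hL hK1 P k hPL hkm E hE hEc
      ((ew κ K x E).filter (fun w => w ≤ 2 ^ (k + 1))) (fun W hW => by
        rw [mem_filter] at hW
        obtain ⟨g1, -, -, g2⟩ := hmem W hW.1
        exact ⟨g1, hW.2, g2⟩)
    refine (mul_le_mul_of_nonneg_right h4 (by positivity)).trans ?_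
    have hk3 : a0 < ((k : ℝ) + 1) * Real.log 2 := by
      have h2 := Real.log_lt_log (Real.exp_pos _) hk.2
      rw [Real.log_exp, Real.log_pow] at h2
      push_cast at h2
      exact h2
    have h6 : ((2 : ℝ) ^ k)⁻¹ = 2 * Real.exp (-(((k : ℝ) + 1) * Real.log 2)) := by
      rw [Real.exp_neg, mul_comm ((k : ℝ) + 1), ← Real.rpow_def_of_pos (by norm_num)]
      have : (2 : ℝ) ^ ((k : ℝ) + 1) = 2 ^ k * 2 := by
        rw [Real.rpow_add (by norm_num), Real.rpow_natCast, Real.rpow_one]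
      rw [this]
      field_simp
    rw [h6]
    have h7 : 12 * (L ^ (B + 7) * Real.exp (((k : ℝ) + 1) * Real.log 2 / 4)) *
        (2 * Real.exp (-(((k : ℝ) + 1) * Real.log 2))) =
        24 * (L ^ (B + 7) * Real.exp (-(3 / 4 * (((k : ℝ) + 1) * Real.log 2)))) := by
      have h8 : Real.exp (-(3 / 4 * (((k : ℝ) + 1) * Real.log 2))) =
          Real.exp (((k : ℝ) + 1) * Real.log 2 / 4) * Real.exp (-(((k : ℝ) + 1) * Real.log 2)) := by
        rw [← Real.exp_add]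
        congr 1
        ring
      rw [h8]
      ring
    rw [h7]
    refine mul_le_mul_of_nonneg_left (mul_le_mul_of_nonneg_left (Real.exp_le_exp.2 ?_)
      (by positivity)) (by norm_num)
    linarith
  refine (sum_le_sum h2).trans ?_
  rw [sum_const, nsmul_eq_mul]
  have h3 : (KK.card : ℝ) * (24 * (L ^ (B + 7) * Real.exp (-(3 / 4 * a0)))) ≤
      L * (24 * (L ^ (B + 7) * Real.exp (-(3 / 4 * a0)))) :=
    mul_le_mul_of_nonneg_right hcardK (by positivity)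
  refine h3.trans ?_
  have h4 : 24 * L ^ (B + 8) ≤ Real.exp (1 / 4 * a0) := by
    have ha00 : 0 < a0 := by linarith
    rw [le_div_iff₀ (Real.rpow_pos_of_pos ha00 s)] at hexp
    refine le_trans ?_ hexp
    refine mul_le_mul_of_nonneg_left ?_ (by norm_num)
    rw [hs, Real.rpow_mul ha00.le, Real.rpow_natCast]
    exact pow_le_pow_left₀ hL0.le hK0 _
  calc L * (24 * (L ^ (B + 7) * Real.exp (-(3 / 4 * a0)))) =
      24 * L ^ (B + 8) * Real.exp (-(3 / 4 * a0)) := by ring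
    _ ≤ Real.exp (1 / 4 * a0) * Real.exp (-(3 / 4 * a0)) :=
        mul_le_mul_of_nonneg_right h4 (Real.exp_pos _).le
    _ = Real.exp (-(a0 / 2)) := by
        rw [← Real.exp_add]
        congr 1
        ring

end Pool.Agent.Lib.MP_79499b_co.QZ
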