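import Pool.Agent.Lib.MP_79499b_co.DZ.LT
import Pool.Agent.Lib.MP_79499b_co.QZ.QDefC

/-!
# QX2: `l`-th powers in a set without large character sums

`power_count`: `w` prime, `r ∣ w - 1`, `w ∤ a`, `η ≥ 0`, `‖∑_{q ∈ E} χ q‖ ≤ η |E|` for all primitive `χ` mod `w`. Then the number of
`q ∈ E` with `¬ NP w r (a q)` is at most `|E| ∑_{l ∣ r prime} (1/l + η)` plus the number of `q ∈ E` divisible by `w`.

Proof. If `¬ NP w r (a q)` there is a prime `l ∣ r` with `y^l = a q` in `ZMod w`. For fixed `l` (`l ∣ w - 1`) let `χ0` be a character of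
order `l` mod `w` (as in DZ/LT.lean, `LT_block`: `MulChar.exists_mulChar_orderOf`, `geom_char`). For `q` with `w ∤ q`: `a q ≠ 0`, and if
`a q = y^l` then `χ0(a q) = 1` and `∑_{k<l} χ0^k(a q) = l`; for all `q` the sum `∑_{k<l} χ0^k(a q)` is `0` or `l`, a nonnegative real.
So `l #{q ∈ E : w ∤ q, a q an l-th power} ≤ ∑_{k<l} χ0^k(a) ∑_{q ∈ E} χ0^k(q)`; the term `k = 0` is at most `|E|`, the others are at
most `‖∑_{q ∈ E} χ0^k(q)‖ ≤ η |E|` (`χ0^k ≠ 1` is primitive: `prim_of_prime`). So the number is at most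
`|E|/l + ((l-1)/l) η |E|`. Sum over `l`.
-/

set_option autoImplicit false

namespace Pool.Agent.Lib.MP_79499b_co.QZ

open Finset DZ
open scoped Classical

private theorem x2_one {w l : ℕ} (hw : w.Prime) (hl : l.Prime) (hlw : l ∣ w - 1) (a : ℕ)
    (ha : ¬ w ∣ a) (E : Finset ℕ) (η : ℝ) (hη : 0 ≤ η)
    (hE : ∀ χ : DirichletCharacter ℂ w, χ.IsPrimitive → ‖∑ q ∈ E, χ (q : ZMod w)‖ ≤ η * E.card) :
    ((E.filter (fun q : ℕ => (q : ZMod w) ≠ 0 ∧ ∃ y : ZMod w, y ^ l = ((a * q : ℕ) : ZMod w))).card : ℝ) ≤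
      E.card * (1 / (l : ℝ) + η) := by
  haveI : Fact w.Prime := ⟨hw⟩
  haveI : NeZero w := ⟨hw.ne_zero⟩
  have hl0 : (0 : ℝ) < l := by exact_mod_cast hl.pos
  have ha0 : (a : ZMod w) ≠ 0 := fun h => ha ((ZMod.natCast_eq_zero_iff a w).1 h)
  obtain ⟨χ, hχ⟩ : ∃ χ : MulChar (ZMod w) ℂ, orderOf χ = l := by
    have hζ : IsPrimitiveRoot (Complex.exp (2 * Real.pi * Complex.I / l)) l :=
      Complex.isPrimitiveRoot_exp l hl.ne_zero
    exact MulChar.exists_mulChar_orderOf (ZMod w) (by rw [ZMod.card]; exact hlw) hζ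
  have hχl : χ ^ l = 1 := by rw [← hχ]; exact pow_orderOf_eq_one χ
  have h1 : (l : ℝ) * ((E.filter (fun q : ℕ => (q : ZMod w) ≠ 0 ∧
      ∃ y : ZMod w, y ^ l = ((a * q : ℕ) : ZMod w))).card : ℝ) ≤
      (∑ k ∈ range l, ∑ q ∈ E, (χ ^ k : DirichletCharacter ℂ w) ((a * q : ℕ) : ZMod w)).re := by
    rw [sum_comm, Complex.re_sum, card_filter]
    push_cast
    rw [mul_sum]
    refine sum_le_sum fun q _ => ?_
    obtain ⟨h2, h3⟩ := geom_char hl.ne_zero χ hχl ((a : ZMod w) * (q : ZMod w))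
    split_ifs with hc
    · obtain ⟨hc1, y, hy⟩ := hc
      have h4 : χ ((a : ZMod w) * (q : ZMod w)) = 1 := by
        have hy0 : IsUnit y := by
          rw [isUnit_iff_ne_zero]
          rintro rfl
          rw [zero_pow hl.ne_zero] at hy
          exact mul_ne_zero ha0 hc1 hy.symm
        rw [← hy, map_pow, ← MulChar.pow_apply' χ hl.ne_zero, hχl, MulChar.one_apply hy0]
      rw [h2 h4, Complex.natCast_re]
      exact le_of_eq (mul_one _)
    · by_cases h4 : χ ((a : ZMod w) * (q : ZMod w)) = 1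
      · rw [h2 h4, Complex.natCast_re]
        rw [mul_zero]
        exact hl0.le
      · rw [h3 h4]
        simp
  have h2 : (∑ k ∈ range l, ∑ q ∈ E, (χ ^ k : DirichletCharacter ℂ w) ((a * q : ℕ) : ZMod w)).re ≤
      E.card + l * (η * E.card) := by
    rw [Complex.re_sum]
    have h3 : ∀ k ∈ range l,
        (∑ q ∈ E, (χ ^ k : DirichletCharacter ℂ w) ((a * q : ℕ) : ZMod w)).re ≤
        (if k = 0 then (E.card : ℝ) else 0) + η * E.card := by
      intro k hk
      rw [mem_range] at hk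
      have h4 : (∑ q ∈ E, (χ ^ k : DirichletCharacter ℂ w) ((a * q : ℕ) : ZMod w)).re ≤
          ‖∑ q ∈ E, (χ ^ k : DirichletCharacter ℂ w) (q : ZMod w)‖ := by
        refine (Complex.re_le_norm _).trans ?_
        have h5 : ∑ q ∈ E, (χ ^ k : DirichletCharacter ℂ w) ((a * q : ℕ) : ZMod w) =
            (χ ^ k : DirichletCharacter ℂ w) (a : ZMod w) *
              ∑ q ∈ E, (χ ^ k : DirichletCharacter ℂ w) (q : ZMod w) := by
          rw [mul_sum]
          refine sum_congr rfl fun q _ => ?_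
          rw [Nat.cast_mul, map_mul]
        rw [h5, norm_mul]
        refine (mul_le_mul_of_nonneg_right (DirichletCharacter.norm_le_one _ _)
          (norm_nonneg _)).trans (le_of_eq (one_mul _))
      split_ifs with hk0
      · have h5 : ‖∑ q ∈ E, (χ ^ k : DirichletCharacter ℂ w) (q : ZMod w)‖ ≤ (E.card : ℝ) := by
          refine (norm_sum_le _ _).trans ?_
          refine (sum_le_sum fun q _ => DirichletCharacter.norm_le_one _ _).trans (le_of_eq ?_)
          rw [sum_const, nsmul_eq_mul, mul_one]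
        have h6 : 0 ≤ η * E.card := by positivity
        linarith
      · have hne : (χ ^ k : DirichletCharacter ℂ w) ≠ 1 := by
          intro h
          have := orderOf_dvd_of_pow_eq_one h
          rw [hχ] at this
          exact absurd (Nat.le_of_dvd (Nat.pos_of_ne_zero hk0) this) (by omega)
        have h5 := hE _ (prim_of_prime hw _ hne)
        linarith
    refine (sum_le_sum h3).trans ?_
    rw [sum_add_distrib, sum_ite_eq' (range l) 0 (fun _ => (E.card : ℝ)),
      if_pos (mem_range.2 hl.pos), sum_const, card_range, nsmul_eq_mul]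
  have h3 := h1.trans h2
  have h4 : ((E.filter (fun q : ℕ => (q : ZMod w) ≠ 0 ∧
      ∃ y : ZMod w, y ^ l = ((a * q : ℕ) : ZMod w))).card : ℝ) ≤
      (E.card + l * (η * E.card)) / l := by
    rw [le_div_iff₀ hl0, mul_comm]
    exact h3
  have h5 : ((E.card : ℝ) + l * (η * E.card)) / l = E.card * (1 / (l : ℝ) + η) := by
    field_simp
  rw [h5] at h4
  refine le_trans (le_of_eq ?_) h4
  refine congrArg (fun S : Finset ℕ => (S.card : ℝ)) ?_
  ext q
  simp only [mem_filter]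

theorem power_count (w r a : ℕ) (hw : w.Prime) (hr : r ∣ w - 1) (ha : ¬ w ∣ a) (E : Finset ℕ)
    (η : ℝ) (hη : 0 ≤ η) (hE : ∀ χ : DirichletCharacter ℂ w, χ.IsPrimitive →
      ‖∑ q ∈ E, χ (q : ZMod w)‖ ≤ η * E.card) :
    ((E.filter (fun q => ¬ NP w r (a * q))).card : ℝ) ≤
      E.card * ∑ l ∈ r.primeFactors, (1 / (l : ℝ) + η) +
        ((E.filter (fun q => w ∣ q)).card : ℝ) := by
  have hr0 : r ≠ 0 := by
    rintro rfl
    have h1 := hw.two_le
    have h2 := Nat.eq_zero_of_zero_dvd hr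
    omega
  have hsub : E.filter (fun q => ¬ NP w r (a * q)) ⊆
      (r.primeFactors.biUnion fun l => E.filter (fun q : ℕ => (q : ZMod w) ≠ 0 ∧
        ∃ y : ZMod w, y ^ l = ((a * q : ℕ) : ZMod w))) ∪ E.filter (fun q => w ∣ q) := by
    intro q hq
    rw [mem_filter] at hq
    have h1 := hq.2
    unfold NP at h1
    push Not at h1
    obtain ⟨l, hl, hlr, y, hy⟩ := h1
    rw [mem_union]
    by_cases hwq : w ∣ q
    · exact Or.inr (mem_filter.2 ⟨hq.1, hwq⟩)
    · left
      rw [mem_biUnion]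
      refine ⟨l, Nat.mem_primeFactors.2 ⟨hl, hlr, hr0⟩, mem_filter.2 ⟨hq.1, ?_, y, hy⟩⟩
      intro h
      exact hwq ((ZMod.natCast_eq_zero_iff q w).1 h)
  have h1 := card_le_card hsub
  have h2 := h1.trans ((card_union_le _ _).trans (Nat.add_le_add_right card_biUnion_le _))
  have h3 : ((E.filter (fun q => ¬ NP w r (a * q))).card : ℝ) ≤
      ∑ l ∈ r.primeFactors, ((E.filter (fun q : ℕ => (q : ZMod w) ≠ 0 ∧
        ∃ y : ZMod w, y ^ l = ((a * q : ℕ) : ZMod w))).card : ℝ) +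
        ((E.filter (fun q => w ∣ q)).card : ℝ) := by
    exact_mod_cast h2
  refine h3.trans (add_le_add_left ?_ _)
  rw [mul_sum]
  refine sum_le_sum fun l hl => ?_
  rw [Nat.mem_primeFactors] at hl
  exact x2_one hw hl.1 (hl.2.1.trans hr) a ha E η hη hE

end Pool.Agent.Lib.MP_79499b_co.QZ
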