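import Pool.Agent.Lib.MP_79499b_co.QZ.QX1
import Pool.Agent.Lib.MP_79499b_co.QZ.QX2
import Pool.Agent.Lib.MP_79499b_co.QZ.QS6
import Pool.Agent.Lib.MP_79499b_co.QZ.QS7

/-!
# QX3: the exceptional primes `q` of a block, for a given cofactor `a`

`exc_prime`: `8 (B+8) ≤ D`, `x` large, `zD D x ≤ 2P`, `P ≤ x`, `1 ≤ a ≤ x`: the number of primes `q ∈ (P, 2P]` with
`Hs (a q) > LL^(-2)` is at most `P/L^B`.

Proof. Let `E` be the set of these `q` and suppose `|E| > P/L^B`. `|E| LL^(-2) < ∑_{q ∈ E} Hs (a q) = ∑_{w ∈ GA} S_w/w`, where `S_w` is the number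
of `q ∈ E` with `¬ NP w (ry x w) (a q)` (exchange of sums). Estimate `S_w`:
(i) `w ∣ a`: `S_w ≤ |E|`; the sum of `1/w` over the `w ∈ GA` dividing `a` is at most `log2(a) exp(-AC 0) ≤ 2 L exp(-AC 0)`.
(ii) `w ∈ ew E`: `S_w ≤ |E|`, `∑ 1/w ≤ exp(-AC 0/2)` (`exc_w_sum`; `w ∈ GA` satisfies `exp(AC 0) < w ≤ exp(AC K)`).
(iii) otherwise `power_count` with `r = ry x w ∣ w - 1`, `η = L^(-3)`: the primes `l ∣ ry x w` are the primes `l ∣ w - 1`, `l > yy x`, so
`∑ 1/l ≤ LL^(-4)` (`w` is good), and their number is at most `log2 w ≤ 2 L`; at most one `q ∈ E` is divisible by `w` (`q` is prime).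
So `S_w ≤ |E| (LL^(-4) + 2 L^(-2)) + 1`.
Sum: `∑_{w ∈ GA} 1/w ≤ K LL` (`cell_up`; `GA` is the union of the cells), so
`∑ S_w/w ≤ |E| (2 L exp(-AC 0) + exp(-AC 0/2) + K LL (LL^(-4) + 2 L^(-2))) + K LL`, and `K LL ≤ |E|/L` because
`|E| ≥ P/L^B ≥ L^(D-B)/4`. For large `x` this is less than `|E| LL^(-2)`: contradiction.
-/

set_option autoImplicit false

namespace Pool.Agent.Lib.MP_79499b_co.QZ

open Finset DZ
open scoped Classical

private theorem QX3_LL_ev (κ : ℝ) (hκ : 0 < κ) (K : ℕ) : ∃ x0 : ℕ, ∀ x : ℕ, x0 ≤ x →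
    3 ≤ x ∧ 30 ≤ LL x ∧ 5 * K ≤ LL x ∧ 60 * K + 10 ≤ Real.log x ∧
      8 * LL x ≤ AC κ K x 0 ^ κ := by
  obtain ⟨x1, h1⟩ := Filter.eventually_atTop.mp (LL_tend.eventually_ge_atTop (30 : ℝ))
  obtain ⟨x2, h2⟩ := Filter.eventually_atTop.mp (LL_tend.eventually_ge_atTop (5 * K : ℝ))
  obtain ⟨x3, h3⟩ := Filter.eventually_atTop.mp (log_tend.eventually_ge_atTop (60 * K + 10 : ℝ))
  obtain ⟨x4, h4⟩ := AC_LL κ hκ K 8
  refine ⟨max 3 (max (max x1 x2) (max x3 x4)), fun x hx => ?_⟩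
  simp only [max_le_iff] at hx
  exact ⟨hx.1, h1 x hx.2.1.1, h2 x hx.2.1.2, h3 x hx.2.2.1, h4 x hx.2.2.2⟩

private theorem QX3_omega (n : ℕ) (hn : n ≠ 0) (S : Finset ℕ) (hS : S ⊆ n.primeFactors) (L : ℝ)
    (hL : Real.log n ≤ L) : (S.card : ℝ) ≤ 2 * L := by
  have h1 : 2 ^ S.card ≤ n := by
    calc 2 ^ S.card ≤ 2 ^ n.primeFactors.card :=
          Nat.pow_le_pow_right (by norm_num) (card_le_card hS)
      _ = ∏ _p ∈ n.primeFactors, 2 := by rw [prod_const]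
      _ ≤ ∏ p ∈ n.primeFactors, p :=
          Finset.prod_le_prod' fun p hp => (Nat.prime_of_mem_primeFactors hp).two_le
      _ ≤ n := Nat.le_of_dvd (Nat.pos_of_ne_zero hn) (Nat.prod_primeFactors_dvd n)
  have h2 : (S.card : ℝ) * Real.log 2 ≤ L := by
    have h3 : ((2 ^ S.card : ℕ) : ℝ) ≤ n := by exact_mod_cast h1
    have h4 := Real.log_le_log (by positivity) h3
    rw [Nat.cast_pow, Real.log_pow] at h4
    push_cast at h4
    linarith
  have h5 := Real.log_two_gt_d9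
  have h6 : (0 : ℝ) ≤ S.card := Nat.cast_nonneg _
  nlinarith

private theorem QX3_biUnion (S : Finset ℕ) (F : ℕ → Finset ℕ) (f : ℕ → ℝ) (hf : ∀ w, 0 ≤ f w) :
    ∑ w ∈ S.biUnion F, f w ≤ ∑ c ∈ S, ∑ w ∈ F c, f w := by
  induction S using Finset.induction_on with
  | empty => simp
  | insert a S ha ih =>
    rw [Finset.biUnion_insert, Finset.sum_insert ha]
    have h1 := Finset.sum_union_inter (s₁ := F a) (s₂ := S.biUnion F) (f := f)
    have h2 : 0 ≤ ∑ w ∈ F a ∩ S.biUnion F, f w := Finset.sum_nonneg fun w _ => hf w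
    linarith

private theorem QX3_GA (κ : ℝ) (hκ : 0 < κ) (K D x w : ℕ) (h3 : 3 ≤ x) (hw : w ∈ GA κ K D x) :
    w.Prime ∧ Real.exp (AC κ K x 0) < w ∧ (w : ℝ) ≤ Real.exp (AC κ K x K) ∧
      ∑ l ∈ (w - 1).primeFactors.filter (fun l => yy x < l), 1 / (l : ℝ) ≤ (LL x ^ 4)⁻¹ := by
  unfold GA at hw
  rw [mem_biUnion] at hw
  obtain ⟨c, hc, hw⟩ := hw
  rw [mem_range] at hc
  unfold GW at hw
  rw [mem_filter] at hw
  obtain ⟨hw1, -, hw2, -⟩ := hw
  unfold CW at hw1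
  rw [mem_filter] at hw1
  obtain ⟨g1, g2, g3⟩ := hw1.2
  obtain ⟨-, m1⟩ := AC_mono κ hκ K x h3 0 c (Nat.zero_le c)
  obtain ⟨-, m2⟩ := AC_mono κ hκ K x h3 (c + 1) K hc
  rw [← AC_succ κ hκ K x c hc h3] at g3
  exact ⟨g1, lt_of_le_of_lt (Real.exp_le_exp.2 m1) g2, g3.trans (Real.exp_le_exp.2 m2), hw2⟩

theorem exc_prime (κ : ℝ) (hκ : 0 < κ) (hκ1 : κ ≤ 1 / 100) (K B D : ℕ) (hK : 1 ≤ K)
    (hD : 8 * (B + 8) ≤ D) : ∃ x0 : ℕ, ∀ x : ℕ, x0 ≤ x → ∀ P : ℕ, zD D x ≤ 2 * P → P ≤ x →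
      ∀ a : ℕ, a ≠ 0 → a ≤ x →
      (((Bl P).filter (fun q => (LL x ^ 2)⁻¹ < Hs κ K D x (a * q))).card : ℝ) ≤
        P / Real.log x ^ B := by
  obtain ⟨x1, hx1⟩ := exc_w_sum κ hκ hκ1 K B D hK hD
  obtain ⟨x2, hx2⟩ := cell_up κ hκ hκ1 K
  obtain ⟨x3, hx3⟩ := QX3_LL_ev κ hκ K
  refine ⟨max x1 (max x2 x3), fun x hx P hP1 hP2 a ha0 hax => ?_⟩
  simp only [max_le_iff] at hx
  obtain ⟨k3, k30, k5, k60, k8⟩ := hx3 x hx.2.2
  have hup := hx2 x hx.2.1
  obtain ⟨L, hLdef⟩ : ∃ L : ℝ, L = Real.log x := ⟨_, rfl⟩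
  obtain ⟨t, htdef⟩ : ∃ t : ℝ, t = LL x := ⟨_, rfl⟩
  obtain ⟨E, hE⟩ : ∃ E : Finset ℕ,
    E = (Bl P).filter (fun q => (LL x ^ 2)⁻¹ < Hs κ K D x (a * q)) := ⟨_, rfl⟩
  have hKr : (1 : ℝ) ≤ K := by exact_mod_cast hK
  have hx0 : (1 : ℝ) ≤ x := by exact_mod_cast (by omega : 1 ≤ x)
  rw [← htdef] at k30 k5 k8
  rw [← hLdef] at k60
  have hL0 : 0 < L := by linarith
  have ht0 : 0 < t := by linarith
  have htL : t = Real.log L := by rw [htdef, hLdef]; rfl
  have hexpt : Real.exp t = L := by rw [htL, Real.exp_log hL0]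
  have hA1 : 1 ≤ AC κ K x 0 := (AC_mono κ hκ K x k3 0 0 le_rfl).1
  have h8A : 8 * t ≤ AC κ K x 0 := by
    refine k8.trans ?_
    calc AC κ K x 0 ^ κ ≤ AC κ K x 0 ^ (1 : ℝ) :=
          Real.rpow_le_rpow_of_exponent_le hA1 (by linarith)
      _ = AC κ K x 0 := Real.rpow_one _
  have hAK : AC κ K x K ≤ L := by rw [hLdef]; exact (AC_top κ hκ K x K k3).2
  have htleL : t ≤ L := by
    rw [htL]
    exact (Real.log_le_sub_one_of_pos hL0).trans (by linarith)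
  have ht3 : t ^ 3 ≤ 6 * L := by
    have := Real.pow_div_factorial_le_exp t ht0.le 3
    rw [hexpt] at this
    have h6 : ((Nat.factorial 3 : ℕ) : ℝ) = 6 := by norm_num [Nat.factorial]
    rw [h6, div_le_iff₀ (by norm_num)] at this
    linarith
  have hexpA : 10 * L ^ 3 ≤ Real.exp (AC κ K x 0 / 2) := by
    calc 10 * L ^ 3 ≤ L * L ^ 3 := by
          refine mul_le_mul_of_nonneg_right (by linarith) (by positivity)
      _ = L ^ 4 := by ring
      _ = Real.exp (4 * t) := by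
          rw [← hexpt, ← Real.exp_nat_mul]
          norm_num
      _ ≤ Real.exp (AC κ K x 0 / 2) := Real.exp_le_exp.2 (by linarith)
  rw [← hE, ← hLdef]
  by_contra hcon
  push Not at hcon
  have hEsub : E ⊆ Bl P := by rw [hE]; exact filter_subset _ _
  -- `|E|` is large
  have hPbig : L ^ D / 4 ≤ P := by
    have h1 : L ^ D < (zD D x : ℝ) + 1 := by
      unfold zD
      rw [← hLdef]
      exact Nat.lt_floor_add_one _
    have h2 : ((zD D x : ℕ) : ℝ) ≤ 2 * P := by exact_mod_cast hP1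
    have h3 : (2 : ℝ) ≤ L ^ D := by
      have h4 : L ^ 1 ≤ L ^ D := pow_le_pow_right₀ (by linarith) (by omega)
      rw [pow_one] at h4
      linarith
    linarith
  have hEbig : K * t * L ≤ E.card := by
    refine le_trans ?_ hcon.le
    rw [le_div_iff₀ (by positivity)]
    refine le_trans ?_ hPbig
    rw [le_div_iff₀ (by norm_num)]
    calc K * t * L * L ^ B * 4 ≤ L * L * L * L ^ B * L := by
          have h1 : (K : ℝ) ≤ L := by linarith
          have h2 : (4 : ℝ) ≤ L := by linarith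
          gcongr
      _ = L ^ (B + 4) := by ring
      _ ≤ L ^ D := pow_le_pow_right₀ (by linarith) (by omega)
  have hE0 : (0 : ℝ) < E.card := lt_of_lt_of_le (by positivity) hEbig
  have hEne : E.Nonempty := by
    rw [← Finset.card_pos]
    exact_mod_cast hE0
  -- exceptional conductors
  have hew := hx1 x hx.1 P hP1 hP2 E hEsub (by rw [← hLdef]; exact hcon.le)
  -- the exchange of the sums
  have hexch : ∑ q ∈ E, Hs κ K D x (a * q) = ∑ w ∈ GA κ K D x,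
      ((E.filter (fun q => ¬ NP w (ry x w) (a * q))).card : ℝ) * (1 / (w : ℝ)) := by
    unfold Hs
    simp_rw [Finset.sum_filter]
    rw [Finset.sum_comm]
    refine Finset.sum_congr rfl fun w _ => ?_
    rw [← Finset.sum_filter, Finset.sum_const, nsmul_eq_mul]
  have hlow : (E.card : ℝ) * (t ^ 2)⁻¹ < ∑ q ∈ E, Hs κ K D x (a * q) := by
    have h1 : ∑ _q ∈ E, (t ^ 2)⁻¹ < ∑ q ∈ E, Hs κ K D x (a * q) := by
      refine Finset.sum_lt_sum_of_nonempty hEne fun q hq => ?_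
      rw [hE, mem_filter] at hq
      rw [htdef]
      exact hq.2
    rwa [Finset.sum_const, nsmul_eq_mul] at h1
  -- the bound for one `w`
  have hone : ∀ w ∈ GA κ K D x,
      ((E.filter (fun q => ¬ NP w (ry x w) (a * q))).card : ℝ) ≤
      (if w ∣ a then (E.card : ℝ) else 0) + (if w ∈ ew κ K x E then (E.card : ℝ) else 0) +
        (E.card * ((t ^ 4)⁻¹ + 2 * (L ^ 2)⁻¹) + 1) := by
    intro w hw
    obtain ⟨g1, g2, g3, g4⟩ := QX3_GA κ hκ K D x w k3 hw
    have hle : ((E.filter (fun q => ¬ NP w (ry x w) (a * q))).card : ℝ) ≤ E.card := by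
      exact_mod_cast card_le_card (filter_subset _ _)
    have hpos : 0 ≤ E.card * ((t ^ 4)⁻¹ + 2 * (L ^ 2)⁻¹) + 1 := by positivity
    by_cases d1 : w ∣ a
    · rw [if_pos d1]
      have : (0 : ℝ) ≤ (if w ∈ ew κ K x E then (E.card : ℝ) else 0) := by
        split_ifs
        · exact hE0.le
        · exact le_refl _
      linarith
    by_cases d2 : w ∈ ew κ K x E
    · rw [if_pos d2, if_neg d1]
      linarith
    rw [if_neg d1, if_neg d2, zero_add, zero_add]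
    have hw2 := g1.two_le
    have hrdvd : ry x w ∣ w - 1 := ⟨cy x w, by rw [mul_comm]; exact (cy_mul x w hw2).symm⟩
    have hpc := power_count w (ry x w) a g1 hrdvd d1 E ((L ^ 3)⁻¹) (by positivity) (by
      intro χ hχ
      by_contra hc
      push Not at hc
      apply d2
      unfold ew
      rw [mem_filter, mem_Icc]
      refine ⟨⟨g1.one_lt.le, Nat.le_floor g3⟩, g2, χ, hχ, ?_⟩
      rw [← hLdef]
      refine le_trans (le_of_eq ?_) hc.le
      rw [div_eq_mul_inv, mul_comm])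
    refine hpc.trans ?_
    have hsub : (ry x w).primeFactors ⊆ (w - 1).primeFactors.filter (fun l => yy x < l) := by
      intro l hl
      rw [Nat.mem_primeFactors] at hl
      obtain ⟨e1, e2⟩ := (ry_prime x w l hw2 hl.1).1 hl.2.1
      rw [mem_filter, Nat.mem_primeFactors]
      exact ⟨⟨hl.1, e1, by omega⟩, e2⟩
    have hcard : ((ry x w).primeFactors.card : ℝ) ≤ 2 * L := by
      refine QX3_omega (w - 1) (by omega) _ (hsub.trans (filter_subset _ _)) L ?_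
      have h1 : ((w - 1 : ℕ) : ℝ) ≤ Real.exp (AC κ K x K) := by
        refine le_trans ?_ g3
        exact_mod_cast Nat.sub_le w 1
      have h2 : (0 : ℝ) < ((w - 1 : ℕ) : ℝ) := by exact_mod_cast (by omega : 0 < w - 1)
      exact ((Real.log_le_iff_le_exp h2).2 h1).trans hAK
    have hs1 : ∑ l ∈ (ry x w).primeFactors, (1 / (l : ℝ) + (L ^ 3)⁻¹) ≤
        (t ^ 4)⁻¹ + 2 * (L ^ 2)⁻¹ := by
      rw [Finset.sum_add_distrib, Finset.sum_const, nsmul_eq_mul]
      refine add_le_add ?_ ?_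
      · rw [htdef]
        refine le_trans (Finset.sum_le_sum_of_subset_of_nonneg hsub fun l _ _ => ?_) g4
        positivity
      · calc ((ry x w).primeFactors.card : ℝ) * (L ^ 3)⁻¹ ≤ (2 * L) * (L ^ 3)⁻¹ :=
              mul_le_mul_of_nonneg_right hcard (by positivity)
          _ = 2 * (L ^ 2)⁻¹ := by
              field_simp
    have hs2 : ((E.filter (fun q => w ∣ q)).card : ℝ) ≤ 1 := by
      have h1 : (E.filter (fun q => w ∣ q)) ⊆ {w} := by
        intro q hq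
        rw [mem_filter] at hq
        have hqp := (mem_Bl.1 (hEsub hq.1)).2
        rw [mem_singleton]
        exact ((Nat.prime_dvd_prime_iff_eq g1 hqp).1 hq.2).symm
      have h2 := card_le_card h1
      rw [card_singleton] at h2
      exact_mod_cast h2
    exact add_le_add (mul_le_mul_of_nonneg_left hs1 hE0.le) hs2
  -- the sums over `GA`
  have hG : ∑ w ∈ GA κ K D x, 1 / (w : ℝ) ≤ K * t := by
    have h1 : ∑ w ∈ GA κ K D x, 1 / (w : ℝ) ≤ ∑ c ∈ range K, ∑ w ∈ GW κ K D x c, 1 / (w : ℝ) := by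
      unfold GA
      exact QX3_biUnion _ _ _ (fun w => by positivity)
    refine h1.trans ?_
    have h2 : ∀ c ∈ range K, ∑ w ∈ GW κ K D x c, 1 / (w : ℝ) ≤ t := by
      intro c hc
      rw [mem_range] at hc
      rw [htdef]
      refine le_trans (Finset.sum_le_sum_of_subset_of_nonneg ?_ ?_) (hup c hc)
      · unfold GW
        exact filter_subset _ _
      · intro w _ _
        positivity
    refine (Finset.sum_le_card_nsmul _ _ _ h2).trans ?_
    rw [card_range, nsmul_eq_mul]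
  have hGa : ∑ w ∈ (GA κ K D x).filter (fun w => w ∣ a), 1 / (w : ℝ) ≤
      2 * L * Real.exp (-(AC κ K x 0)) := by
    have h1 : ∀ w ∈ (GA κ K D x).filter (fun w => w ∣ a),
        1 / (w : ℝ) ≤ Real.exp (-(AC κ K x 0)) := by
      intro w hw
      rw [mem_filter] at hw
      obtain ⟨g1, g2, -, -⟩ := QX3_GA κ hκ K D x w k3 hw.1
      rw [Real.exp_neg, ← one_div]
      exact one_div_le_one_div_of_le (Real.exp_pos _) g2.le
    refine (Finset.sum_le_card_nsmul _ _ _ h1).trans ?_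
    rw [nsmul_eq_mul]
    refine mul_le_mul_of_nonneg_right ?_ (Real.exp_pos _).le
    refine QX3_omega a ha0 _ ?_ L ?_
    · intro w hw
      rw [mem_filter] at hw
      rw [Nat.mem_primeFactors]
      exact ⟨(QX3_GA κ hκ K D x w k3 hw.1).1, hw.2, ha0⟩
    · rw [hLdef]
      exact Real.log_le_log (by exact_mod_cast Nat.pos_of_ne_zero ha0) (by exact_mod_cast hax)
  have hGe : ∑ w ∈ (GA κ K D x).filter (fun w => w ∈ ew κ K x E), 1 / (w : ℝ) ≤
      Real.exp (-(AC κ K x 0 / 2)) := by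
    refine le_trans (Finset.sum_le_sum_of_subset_of_nonneg ?_ ?_) hew
    · intro w hw
      exact (mem_filter.1 hw).2
    · intro w _ _
      positivity
  have hupper : ∑ q ∈ E, Hs κ K D x (a * q) ≤
      E.card * (2 * L * Real.exp (-(AC κ K x 0))) + E.card * Real.exp (-(AC κ K x 0 / 2)) +
        (E.card * ((t ^ 4)⁻¹ + 2 * (L ^ 2)⁻¹) + 1) * (K * t) := by
    rw [hexch]
    have h1 : ∑ w ∈ GA κ K D x,
        ((E.filter (fun q => ¬ NP w (ry x w) (a * q))).card : ℝ) * (1 / (w : ℝ)) ≤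
        ∑ w ∈ GA κ K D x, ((if w ∣ a then (E.card : ℝ) * (1 / (w : ℝ)) else 0) +
          (if w ∈ ew κ K x E then (E.card : ℝ) * (1 / (w : ℝ)) else 0) +
          (E.card * ((t ^ 4)⁻¹ + 2 * (L ^ 2)⁻¹) + 1) * (1 / (w : ℝ))) := by
      refine Finset.sum_le_sum fun w hw => ?_
      refine (mul_le_mul_of_nonneg_right (hone w hw) (by positivity)).trans (le_of_eq ?_)
      rw [add_mul, add_mul, ite_mul, ite_mul, zero_mul]
    refine h1.trans ?_
    rw [Finset.sum_add_distrib, Finset.sum_add_distrib, ← Finset.sum_filter, ← Finset.sum_filter,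
      ← Finset.mul_sum, ← Finset.mul_sum, ← Finset.mul_sum]
    refine add_le_add (add_le_add (mul_le_mul_of_nonneg_left hGa hE0.le)
      (mul_le_mul_of_nonneg_left hGe hE0.le)) (mul_le_mul_of_nonneg_left hG (by positivity))
  -- conclusion
  have hfin := lt_of_lt_of_le hlow hupper
  have u1 : 2 * L * Real.exp (-(AC κ K x 0)) ≤ (t ^ 2)⁻¹ / 5 := by
    rw [Real.exp_neg]
    rw [← div_eq_mul_inv, div_le_iff₀ (Real.exp_pos _)]
    have h1 : Real.exp (AC κ K x 0 / 2) ≤ Real.exp (AC κ K x 0) :=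
      Real.exp_le_exp.2 (by linarith)
    have h2 : 2 * L * (5 * t ^ 2) ≤ Real.exp (AC κ K x 0) := by
      refine le_trans ?_ (hexpA.trans h1)
      have h3 : t ^ 2 ≤ L ^ 2 := pow_le_pow_left₀ ht0.le htleL 2
      nlinarith
    have h4 : (t ^ 2)⁻¹ / 5 * Real.exp (AC κ K x 0) = Real.exp (AC κ K x 0) / (5 * t ^ 2) := by
      field_simp
    rw [h4, le_div_iff₀ (by positivity)]
    exact h2
  have u2 : Real.exp (-(AC κ K x 0 / 2)) ≤ (t ^ 2)⁻¹ / 5 := by
    rw [Real.exp_neg, inv_le_comm₀ (Real.exp_pos _) (by positivity)]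
    have h3 : t ^ 2 ≤ L ^ 2 := pow_le_pow_left₀ ht0.le htleL 2
    have h4 : ((t ^ 2)⁻¹ / 5)⁻¹ = 5 * t ^ 2 := by
      field_simp
    rw [h4]
    refine le_trans ?_ hexpA
    nlinarith [sq_nonneg L, mul_pos hL0 (mul_pos hL0 hL0)]
  have u3 : ((t ^ 4)⁻¹ + 2 * (L ^ 2)⁻¹) * (K * t) ≤ 2 * ((t ^ 2)⁻¹ / 5) := by
    have h1 : (t ^ 4)⁻¹ * (K * t) ≤ (t ^ 2)⁻¹ / 5 := by
      have h2 : (t ^ 4)⁻¹ * (K * t) = K / t ^ 3 := by
        field_simp
      have h3 : (t ^ 2)⁻¹ / 5 = (t / 5) / t ^ 3 := by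
        field_simp
      rw [h2, h3]
      exact div_le_div_of_nonneg_right (by linarith) (by positivity)
    have h4 : 2 * (L ^ 2)⁻¹ * (K * t) ≤ (t ^ 2)⁻¹ / 5 := by
      have h5 : 2 * (L ^ 2)⁻¹ * (K * t) = (10 * K * t ^ 3) / (5 * t ^ 2 * L ^ 2) := by
        field_simp
        ring
      have h6 : (t ^ 2)⁻¹ / 5 = L ^ 2 / (5 * t ^ 2 * L ^ 2) := by
        field_simp
      rw [h5, h6]
      refine div_le_div_of_nonneg_right ?_ (by positivity)
      calc 10 * K * t ^ 3 ≤ 10 * K * (6 * L) := mul_le_mul_of_nonneg_left ht3 (by positivity)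
        _ = (60 * K) * L := by ring
        _ ≤ L * L := mul_le_mul_of_nonneg_right (by linarith) hL0.le
        _ = L ^ 2 := by ring
    calc ((t ^ 4)⁻¹ + 2 * (L ^ 2)⁻¹) * (K * t) =
          (t ^ 4)⁻¹ * (K * t) + 2 * (L ^ 2)⁻¹ * (K * t) := by ring
      _ ≤ 2 * ((t ^ 2)⁻¹ / 5) := by linarith
  have u4 : K * t ≤ E.card * ((t ^ 2)⁻¹ / 5) := by
    have h1 : K * t ≤ E.card * L⁻¹ := by
      rw [← div_eq_mul_inv, le_div_iff₀ hL0]
      exact hEbig
    refine h1.trans (mul_le_mul_of_nonneg_left ?_ hE0.le)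
    have h2 : (t ^ 2)⁻¹ / 5 = (5 * t ^ 2)⁻¹ := by
      field_simp
    rw [h2]
    apply inv_anti₀ (by positivity)
    nlinarith [sq_nonneg t]
  have u5 : E.card * (2 * L * Real.exp (-(AC κ K x 0))) + E.card * Real.exp (-(AC κ K x 0 / 2)) +
        (E.card * ((t ^ 4)⁻¹ + 2 * (L ^ 2)⁻¹) + 1) * (K * t) ≤ E.card * (t ^ 2)⁻¹ := by
    calc E.card * (2 * L * Real.exp (-(AC κ K x 0))) + E.card * Real.exp (-(AC κ K x 0 / 2)) +
        (E.card * ((t ^ 4)⁻¹ + 2 * (L ^ 2)⁻¹) + 1) * (K * t) =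
        E.card * (2 * L * Real.exp (-(AC κ K x 0))) + E.card * Real.exp (-(AC κ K x 0 / 2)) +
        E.card * (((t ^ 4)⁻¹ + 2 * (L ^ 2)⁻¹) * (K * t)) + K * t := by ring
      _ ≤ E.card * ((t ^ 2)⁻¹ / 5) + E.card * ((t ^ 2)⁻¹ / 5) +
        E.card * (2 * ((t ^ 2)⁻¹ / 5)) + E.card * ((t ^ 2)⁻¹ / 5) := by
          gcongr
      _ = E.card * (t ^ 2)⁻¹ := by ring
  linarith

end Pool.Agent.Lib.MP_79499b_co.QZ
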